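import Pool.Agent.Helper68.DG.Base

/-! Project DG (MP_800410_an), piece A5a: limits of functions with Lipschitz derivatives -/

open MeasureTheory Metric Set Filter Topology
open scoped ContDiff

namespace Pool.Agent.Helper68.DG

variable {ι : Type} [Fintype ι]

theorem a5a_norm_le_sum {G : Type} [NormedAddCommGroup G] [NormedSpace ℝ G] (L : V ι →L[ℝ] G) :
    ‖L‖ ≤ ∑ i, ‖L (be i)‖ := by
  apply L.opNorm_le_bound (Finset.sum_nonneg fun i _ => norm_nonneg _)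
  intro b
  have hb : L b = ∑ i, b i • L (be i) := by
    conv_lhs => rw [sum_be b]
    rw [map_sum]
    simp
  rw [hb, Finset.sum_mul]
  refine (norm_sum_le _ _).trans (Finset.sum_le_sum fun i _ => ?_)
  rw [norm_smul, mul_comm, Real.norm_eq_abs]
  exact mul_le_mul_of_nonneg_left (abs_coord_le b i) (norm_nonneg _)

theorem a5a_taylor {G : Type} [NormedAddCommGroup G] [NormedSpace ℝ G]
    {F : V ι → G} {K : ℝ} (hF : Differentiable ℝ F)
    (hK : ∀ x y, ‖fderiv ℝ F x - fderiv ℝ F y‖ ≤ K * ‖x - y‖) (x y : V ι) :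
    ‖F y - F x - fderiv ℝ F x (y - x)‖ ≤ |K| * ‖y - x‖ ^ 2 := by
  have h := Convex.norm_image_sub_le_of_norm_fderiv_le' (𝕜 := ℝ) (f := F)
    (C := |K| * ‖y - x‖) (s := closedBall x ‖y - x‖) (x := x) (y := y) (φ := fderiv ℝ F x)
    (fun z _ => hF z) ?_ (convex_closedBall _ _) (mem_closedBall_self (norm_nonneg _))
    (by rw [mem_closedBall, dist_eq_norm])
  · calc ‖F y - F x - fderiv ℝ F x (y - x)‖ ≤ |K| * ‖y - x‖ * ‖y - x‖ := h
      _ = |K| * ‖y - x‖ ^ 2 := by ring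
  · intro z hz
    rw [mem_closedBall, dist_eq_norm] at hz
    calc ‖fderiv ℝ F z - fderiv ℝ F x‖ ≤ K * ‖z - x‖ := hK z x
      _ ≤ |K| * ‖z - x‖ := mul_le_mul_of_nonneg_right (le_abs_self K) (norm_nonneg _)
      _ ≤ |K| * ‖y - x‖ := mul_le_mul_of_nonneg_left hz (abs_nonneg K)

theorem a5a_diff {G : Type} [NormedAddCommGroup G] [NormedSpace ℝ G]
    {F H : V ι → G} {K : ℝ} (hF : Differentiable ℝ F)
    (hK : ∀ x y, ‖fderiv ℝ F x - fderiv ℝ F y‖ ≤ K * ‖x - y‖) (hH : Differentiable ℝ H)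
    (hL : ∀ x y, ‖fderiv ℝ H x - fderiv ℝ H y‖ ≤ K * ‖x - y‖) (x : V ι) {ρ : ℝ} (hρ : 0 < ρ)
    (i : ι) :
    ‖fderiv ℝ F x (be i) - fderiv ℝ H x (be i)‖ ≤
      ρ⁻¹ * (‖F (x + ρ • be i) - H (x + ρ • be i)‖ + ‖F x - H x‖) + 2 * |K| * ρ := by
  have h1 := a5a_taylor hF hK x (x + ρ • be i)
  have h2 := a5a_taylor hH hL x (x + ρ • be i)
  have h3 : x + ρ • be i - x = ρ • be i := by abel
  have h4 : ‖ρ • be i‖ = ρ := by rw [norm_smul, norm_be, Real.norm_eq_abs, abs_of_pos hρ, mul_one]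
  rw [h3, h4, map_smul] at h1 h2
  have h5 : ρ • (fderiv ℝ F x (be i) - fderiv ℝ H x (be i)) =
      (F (x + ρ • be i) - H (x + ρ • be i)) - (F x - H x)
        - (F (x + ρ • be i) - F x - ρ • fderiv ℝ F x (be i))
        + (H (x + ρ • be i) - H x - ρ • fderiv ℝ H x (be i)) := by
    rw [smul_sub]; abel
  have h6 : ρ * ‖fderiv ℝ F x (be i) - fderiv ℝ H x (be i)‖ ≤
      (‖F (x + ρ • be i) - H (x + ρ • be i)‖ + ‖F x - H x‖) + 2 * |K| * ρ ^ 2 := by
    have h7 : ρ * ‖fderiv ℝ F x (be i) - fderiv ℝ H x (be i)‖ =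
        ‖ρ • (fderiv ℝ F x (be i) - fderiv ℝ H x (be i))‖ := by
      rw [norm_smul, Real.norm_eq_abs, abs_of_pos hρ]
    rw [h7, h5]
    refine (norm_add_le _ _).trans ?_
    refine (add_le_add ((norm_sub_le _ _).trans (add_le_add (norm_sub_le _ _) h1)) h2).trans ?_
    linarith
  have h8 : ‖fderiv ℝ F x (be i) - fderiv ℝ H x (be i)‖ =
      ρ⁻¹ * (ρ * ‖fderiv ℝ F x (be i) - fderiv ℝ H x (be i)‖) := by
    field_simp
  rw [h8]
  calc ρ⁻¹ * (ρ * ‖fderiv ℝ F x (be i) - fderiv ℝ H x (be i)‖)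
      ≤ ρ⁻¹ * ((‖F (x + ρ • be i) - H (x + ρ • be i)‖ + ‖F x - H x‖) + 2 * |K| * ρ ^ 2) :=
        mul_le_mul_of_nonneg_left h6 (inv_nonneg.2 hρ.le)
    _ = ρ⁻¹ * (‖F (x + ρ • be i) - H (x + ρ • be i)‖ + ‖F x - H x‖) + 2 * |K| * ρ := by
        field_simp

theorem a5a_cauchy {G : Type} [NormedAddCommGroup G] [NormedSpace ℝ G]
    {F : ℝ → V ι → G} {f : V ι → G} {K : ℝ} (hF : ∀ t, Differentiable ℝ (F t))
    (hK : ∀ t x y, ‖fderiv ℝ (F t) x - fderiv ℝ (F t) y‖ ≤ K * ‖x - y‖)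
    (hlim : ∀ x, Tendsto (fun t => F t x) atTop (𝓝 (f x))) (x : V ι) :
    CauchySeq (fun t => fderiv ℝ (F t) x) := by
  rw [cauchySeq_iff_tendsto_dist_atTop_0, Metric.tendsto_nhds]
  intro ε hε
  -- choice of the step
  set c : ℝ := (Fintype.card ι : ℝ) with hc
  have hc0 : 0 ≤ c := Nat.cast_nonneg _
  set ρ : ℝ := ε / (4 * (c + 1) * (|K| + 1)) with hρdef
  have hρ : 0 < ρ := by positivity
  have hρ1 : c * (2 * |K| * ρ) ≤ ε / 2 := by
    rw [hρdef]
    have : c * (2 * |K| * (ε / (4 * (c + 1) * (|K| + 1)))) =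
        ε / 2 * ((c / (c + 1)) * (|K| / (|K| + 1))) := by
      field_simp; ring
    rw [this]
    have h1 : c / (c + 1) ≤ 1 := by rw [div_le_one (by positivity)]; linarith
    have h2 : |K| / (|K| + 1) ≤ 1 := by rw [div_le_one (by positivity)]; linarith
    have h3 : (c / (c + 1)) * (|K| / (|K| + 1)) ≤ 1 :=
      mul_le_one₀ h1 (by positivity) h2
    nlinarith
  have hdist : ∀ y : V ι, Tendsto (fun n : ℝ × ℝ => ‖F n.1 y - F n.2 y‖) atTop (𝓝 0) := by
    intro y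
    have h1 : CauchySeq (fun t => F t y) := (hlim y).cauchySeq
    rw [cauchySeq_iff_tendsto_dist_atTop_0] at h1
    simpa [dist_eq_norm] using h1
  have hsum : Tendsto (fun n : ℝ × ℝ => ∑ i : ι, ρ⁻¹ *
      (‖F n.1 (x + ρ • be i) - F n.2 (x + ρ • be i)‖ + ‖F n.1 x - F n.2 x‖)) atTop (𝓝 0) := by
    have h2 : Tendsto (fun n : ℝ × ℝ => ∑ i : ι, ρ⁻¹ *
        (‖F n.1 (x + ρ • be i) - F n.2 (x + ρ • be i)‖ + ‖F n.1 x - F n.2 x‖)) atTop
        (𝓝 (∑ _i : ι, ρ⁻¹ * ((0 : ℝ) + 0))) := by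
      apply tendsto_finsetSum
      intro i _
      exact ((hdist _).add (hdist _)).const_mul _
    simpa using h2
  have hev := (Metric.tendsto_nhds.1 hsum) (ε / 2) (by positivity)
  filter_upwards [hev] with n hn
  rw [Real.dist_eq, sub_zero, abs_of_nonneg dist_nonneg, dist_eq_norm]
  rw [Real.dist_eq, sub_zero] at hn
  calc ‖fderiv ℝ (F n.1) x - fderiv ℝ (F n.2) x‖
      ≤ ∑ i, ‖(fderiv ℝ (F n.1) x - fderiv ℝ (F n.2) x) (be i)‖ := a5a_norm_le_sum _
    _ ≤ ∑ i : ι, (ρ⁻¹ * (‖F n.1 (x + ρ • be i) - F n.2 (x + ρ • be i)‖ + ‖F n.1 x - F n.2 x‖)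
          + 2 * |K| * ρ) := by
        apply Finset.sum_le_sum
        intro i _
        exact a5a_diff (hF n.1) (hK n.1) (hF n.2) (hK n.2) x hρ i
    _ = ∑ i : ι, ρ⁻¹ * (‖F n.1 (x + ρ • be i) - F n.2 (x + ρ • be i)‖ + ‖F n.1 x - F n.2 x‖)
          + c * (2 * |K| * ρ) := by
        rw [Finset.sum_add_distrib, Finset.sum_const, Finset.card_univ, nsmul_eq_mul]
    _ < ε / 2 + ε / 2 := add_lt_add_of_lt_of_le ((le_abs_self _).trans_lt hn) hρ1
    _ = ε := by ring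

/-- Proof. Fix `x` and a basis vector `e = be i`. For `ρ > 0` the mean value inequality applied to
`s ↦ F t (x + s • e) - s • fderiv ℝ (F t) x e` on `[0, ρ]` gives
`‖F t (x + ρ • e) - F t x - ρ • fderiv ℝ (F t) x e‖ ≤ K ρ ^ 2`. As `F t (x + ρ • e) - F t x`
converges for `t → ∞`, `limsup ‖fderiv ℝ (F t) x e - fderiv ℝ (F s) x e‖ ≤ 2 K ρ` for
`s, t → ∞`, for every `ρ > 0`. So `fderiv ℝ (F t) x e` is Cauchy for all basis vectors, and
`fderiv ℝ (F t) x` is Cauchy in operator norm (`‖L‖ ≤ ∑ i, ‖L (be i)‖`, proved like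
`norm_clm_le_sum`); let `f' x` be its limit. The Lipschitz bound passes to the limit. Finally
`‖F t y - F t x - fderiv ℝ (F t) x (y - x)‖ ≤ K ‖y - x‖ ^ 2` (mean value inequality again), and
`t → ∞` gives `‖f y - f x - f' x (y - x)‖ ≤ K ‖y - x‖ ^ 2`, so `HasFDerivAt f (f' x) x`. -/
theorem limit_fderiv {G : Type} [NormedAddCommGroup G] [NormedSpace ℝ G] [CompleteSpace G]
    {F : ℝ → V ι → G} {f : V ι → G} {K : ℝ} (hF : ∀ t, Differentiable ℝ (F t))
    (hK : ∀ t x y, ‖fderiv ℝ (F t) x - fderiv ℝ (F t) y‖ ≤ K * ‖x - y‖)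
    (hlim : ∀ x, Tendsto (fun t => F t x) atTop (𝓝 (f x))) :
    Differentiable ℝ f ∧ (∀ x, Tendsto (fun t => fderiv ℝ (F t) x) atTop (𝓝 (fderiv ℝ f x))) ∧
      ∀ x y, ‖fderiv ℝ f x - fderiv ℝ f y‖ ≤ K * ‖x - y‖ := by
  have hex : ∀ x, ∃ L : V ι →L[ℝ] G, Tendsto (fun t => fderiv ℝ (F t) x) atTop (𝓝 L) := by
    intro x
    exact cauchySeq_tendsto_of_complete (a5a_cauchy hF hK hlim x)
  choose f' hf' using hex
  have hder : ∀ x, HasFDerivAt f (f' x) x := by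
    intro x
    have htay : ∀ y, ‖f y - f x - f' x (y - x)‖ ≤ |K| * ‖y - x‖ ^ 2 := by
      intro y
      have h1 : Tendsto (fun t => ‖F t y - F t x - fderiv ℝ (F t) x (y - x)‖) atTop
          (𝓝 ‖f y - f x - f' x (y - x)‖) := by
        apply Tendsto.norm
        apply Tendsto.sub ((hlim y).sub (hlim x))
        exact ((ContinuousLinearMap.apply ℝ G (y - x)).continuous.tendsto (f' x)).comp (hf' x)
      exact le_of_tendsto' h1 fun t => a5a_taylor (hF t) (hK t) x y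
    have hO : (fun y => f y - f x - f' x (y - x)) =O[𝓝 x] fun y => ‖y - x‖ ^ 2 := by
      apply Asymptotics.IsBigO.of_bound |K|
      filter_upwards with y
      rw [norm_pow, norm_norm]
      exact htay y
    have h0 : HasFDerivAt (fun y => f y - f x - f' x (y - x)) (0 : V ι →L[ℝ] G) x :=
      hO.hasFDerivAt (by norm_num)
    have h1 : HasFDerivAt (fun y => f' x (y - x)) (f' x) x := by
      have h3 : HasFDerivAt (fun y : V ι => y - x) (ContinuousLinearMap.id ℝ (V ι)) x :=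
        (hasFDerivAt_id x).sub_const x
      have h4 := (f' x).hasFDerivAt.comp x h3
      simpa [Function.comp_def] using h4
    have h2 := (h0.add h1).add_const (f x)
    simpa using h2
  have heq : ∀ x, fderiv ℝ f x = f' x := fun x => (hder x).fderiv
  refine ⟨fun x => (hder x).differentiableAt, fun x => by rw [heq x]; exact hf' x, ?_⟩
  intro x y
  rw [heq x, heq y]
  have h1 : Tendsto (fun t => ‖fderiv ℝ (F t) x - fderiv ℝ (F t) y‖) atTop
      (𝓝 ‖f' x - f' y‖) := ((hf' x).sub (hf' y)).norm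
  exact le_of_tendsto' h1 fun t => hK t x y

end Pool.Agent.Helper68.DG
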