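import Pool.Agent.Helper68.DG.Base
import Pool.Agent.Helper68.DG.A5a

/-! Project DG (MP_800410_an), piece A5b: the profile of a monotone solution -/

open MeasureTheory Metric Set Filter Topology
open scoped ContDiff

namespace Pool.Agent.Helper68.DG

variable {ι : Type} [Fintype ι]

theorem a5b_mono {u : V ι → ℝ} (hdiff : Differentiable ℝ u) (e : V ι)
    (he : ∀ x, 0 ≤ fderiv ℝ u x e) (x : V ι) : Monotone (fun t : ℝ => u (x + t • e)) := by
  have hd : ∀ t : ℝ, HasDerivAt (fun t : ℝ => u (x + t • e)) (fderiv ℝ u (x + t • e) e) t := by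
    intro t
    have h1 : HasDerivAt (fun t : ℝ => x + t • e) e t := by
      simpa using ((hasDerivAt_id t).smul_const e).const_add x
    exact (hdiff (x + t • e)).hasFDerivAt.comp_hasDerivAt t h1
  apply monotone_of_deriv_nonneg
  · intro t; exact (hd t).differentiableAt
  · intro t; rw [(hd t).deriv]; exact he _

/-- convergence of the second derivatives implies convergence of the Laplacians -/
theorem a5b_lap {u v : V ι → ℝ} (hu : ContDiff ℝ 2 u) (hv : ContDiff ℝ 2 v) (e : V ι)
    (h2 : ∀ x, Tendsto (fun t : ℝ => fderiv ℝ (fderiv ℝ u) (x + t • e)) atTop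
      (𝓝 (fderiv ℝ (fderiv ℝ v) x))) (x : V ι) :
    Tendsto (fun t : ℝ => lap u (x + t • e)) atTop (𝓝 (lap v x)) := by
  unfold lap
  apply tendsto_finsetSum
  intro i _
  have h3 : ∀ t : ℝ, pd i (pd i u) (x + t • e) =
      fderiv ℝ (fderiv ℝ u) (x + t • e) (be i) (be i) := fun t => pd_pd hu i i _
  simp only [h3]
  rw [pd_pd hv i i x]
  have h4 : Tendsto (fun t : ℝ => fderiv ℝ (fderiv ℝ u) (x + t • e) (be i)) atTop
      (𝓝 (fderiv ℝ (fderiv ℝ v) x (be i))) :=
    ((ContinuousLinearMap.apply ℝ (V ι →L[ℝ] ℝ) (be i)).continuous.tendsto _).comp (h2 x)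
  exact ((ContinuousLinearMap.apply ℝ ℝ (be i)).continuous.tendsto _).comp h4

theorem a5b_T1_translate {ζ : V ι → ℝ} (hζ : T1 ζ) (a : V ι) : T1 (fun x => ζ (x + a)) := by
  refine ⟨hζ.1.comp (contDiff_id.add contDiff_const), ?_⟩
  exact hζ.2.comp_homeomorph (Homeomorph.addRight a)

/-- stability passes to the limit -/
theorem a5b_stab {K : ℝ} {u v : V ι → ℝ} (hu : Continuous u) (hK : ∀ x, |u x| ≤ K)
    (hst : Stab u) (e : V ι)
    (hv : ∀ x, Tendsto (fun t : ℝ => u (x + t • e)) atTop (𝓝 (v x))) : Stab v := by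
  intro ζ hζ
  have hle : ∀ t : ℝ, ∫ x, cc u (x + t • e) * ζ x ^ 2 ≤ ∫ x, gd ζ ζ x := by
    intro t
    have h1 := hst _ (a5b_T1_translate hζ (-(t • e)))
    have h2 : ∫ x, cc u (x + t • e) * ζ x ^ 2 = ∫ x, cc u x * ζ (x + -(t • e)) ^ 2 := by
      rw [← integral_add_right_eq_self (fun x => cc u x * ζ (x + -(t • e)) ^ 2) (t • e)]
      congr 1
      funext x
      rw [add_neg_cancel_right]
    have h3 : ∫ x, gd (fun y => ζ (y + -(t • e))) (fun y => ζ (y + -(t • e))) x =
        ∫ x, gd ζ ζ x := by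
      rw [← integral_add_right_eq_self (fun x => gd ζ ζ x) (-(t • e))]
      congr 1
      funext x
      unfold gd
      apply Finset.sum_congr rfl
      intro i _
      rw [pd_translate ζ (-(t • e)) i x]
    rw [h2, ← h3]
    exact h1
  have hlim : Tendsto (fun t : ℝ => ∫ x, cc u (x + t • e) * ζ x ^ 2) atTop
      (𝓝 (∫ x, cc v x * ζ x ^ 2)) := by
    apply tendsto_integral_filter_of_dominated_convergence
      (fun x => (1 + 3 * K ^ 2) * (ζ x * ζ x))
    · filter_upwards with t
      apply Continuous.aestronglyMeasurable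
      exact ((continuous_cc hu).comp (continuous_id.add continuous_const)).mul
        (hζ.continuous.pow 2)
    · filter_upwards with t
      filter_upwards with x
      rw [norm_mul, Real.norm_eq_abs, Real.norm_eq_abs, abs_of_nonneg (sq_nonneg (ζ x)),
        ← pow_two]
      apply mul_le_mul_of_nonneg_right _ (sq_nonneg _)
      have h1 := hK (x + t • e)
      have h2 : u (x + t • e) ^ 2 ≤ K ^ 2 := by
        rw [← sq_abs]
        exact pow_le_pow_left₀ (abs_nonneg _) h1 2
      unfold cc
      rw [abs_le]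
      constructor <;> nlinarith [sq_nonneg (u (x + t • e))]
    · exact (integrable_mul_T1 hζ.continuous hζ).const_mul _
    · filter_upwards with x
      have h1 : Tendsto (fun t : ℝ => cc u (x + t • e)) atTop (𝓝 (cc v x)) := by
        unfold cc
        exact (((hv x).pow 2).const_mul 3).const_sub 1
      exact h1.mul_const _
  exact le_of_tendsto' hlim hle

/-- Proof. For every `x` the function `t ↦ u (x + t • e)` is monotone and bounded, let `v x` be its
limit. Apply A5a to `F t x = u (x + t • e)` (with `fderiv ℝ (F t) x = fderiv ℝ u (x + t • e)`,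
`fderiv_comp_add_right`) and then to `F t x = fderiv ℝ u (x + t • e)` with limit `fderiv ℝ v`. So
`fderiv ℝ v` is differentiable with Lipschitz derivative, so `v` is `C²`, and all bounds pass to the
limit. By `pd_pd`, `lap u (x + t • e) = ∑ i, fderiv ℝ (fderiv ℝ u) (x + t • e) (be i) (be i)`
converges to `lap v x`, so the equation passes to the limit. As `v (x + s • e) = v x`, we get
`fderiv ℝ v x e = 0`. Stability: let `ζ` be a test function; apply `Stab u` to `x ↦ ζ (x - t • e)`
and translate the integrals: `∫ cc u (x + t • e) * ζ x ^ 2 ≤ ∫ gd ζ ζ`; let `t → ∞` by dominated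
convergence (`|cc u| ≤ 1 + 3 K ^ 2`). -/
theorem exists_profile {K : ℝ} {u : V ι → ℝ} (hu : GS K u) (hst : Stab u) (e : V ι)
    (he : ∀ x, 0 ≤ fderiv ℝ u x e) :
    ∃ v : V ι → ℝ, GS K v ∧ Stab v ∧ (∀ x, fderiv ℝ v x e = 0) ∧
      (∀ x, Tendsto (fun t : ℝ => u (x + t • e)) atTop (𝓝 (v x))) ∧
      ∀ x, Tendsto (fun t : ℝ => fderiv ℝ u (x + t • e)) atTop (𝓝 (fderiv ℝ v x)) := by
  have hdiff : Differentiable ℝ u := hu.C1.differentiable one_ne_zero
  have hdiff1 : Differentiable ℝ (fderiv ℝ u) :=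
    (hu.smooth.fderiv_right (m := 1) (by norm_num)).differentiable one_ne_zero
  have hbdd : ∀ x, BddAbove (range (fun t : ℝ => u (x + t • e))) := by
    intro x
    refine ⟨K, ?_⟩
    rintro _ ⟨t, rfl⟩
    exact (abs_le.1 (hu.bdd _)).2
  have hex : ∀ x, ∃ a : ℝ, Tendsto (fun t : ℝ => u (x + t • e)) atTop (𝓝 a) := fun x =>
    ⟨_, tendsto_atTop_ciSup (a5b_mono hdiff e he x) (hbdd x)⟩
  choose v hv using hex
  -- first derivatives
  have hF1 : ∀ (t : ℝ) (x : V ι), fderiv ℝ (fun y => u (y + t • e)) x =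
      fderiv ℝ u (x + t • e) := fun t x => by rw [fderiv_comp_add_right]
  have hF2 : ∀ (t : ℝ) (x : V ι), fderiv ℝ (fun y => fderiv ℝ u (y + t • e)) x =
      fderiv ℝ (fderiv ℝ u) (x + t • e) := fun t x => by rw [fderiv_comp_add_right]
  obtain ⟨hvd, hv1, hvlip⟩ := limit_fderiv (F := fun t x => u (x + t • e)) (f := v) (K := K)
    (fun t => hdiff.comp (differentiable_id.add_const _))
    (fun t x y => by
      rw [hF1, hF1]
      have := hu.lip1 (x + t • e) (y + t • e)
      simpa using this) hv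
  simp only [hF1] at hv1
  obtain ⟨hvd2, hv2, hvlip2⟩ := limit_fderiv (F := fun t x => fderiv ℝ u (x + t • e))
    (f := fderiv ℝ v) (K := K)
    (fun t => hdiff1.comp (differentiable_id.add_const _))
    (fun t x y => by
      rw [hF2, hF2]
      have := hu.lip2 (x + t • e) (y + t • e)
      simpa using this) hv1
  simp only [hF2] at hv2
  -- v is C²
  have hlipc : Continuous (fderiv ℝ (fderiv ℝ v)) := by
    have h1 : LipschitzWith (Real.toNNReal K) (fderiv ℝ (fderiv ℝ v)) := by
      apply LipschitzWith.of_dist_le_mul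
      intro x y
      rw [dist_eq_norm, dist_eq_norm, Real.coe_toNNReal K hu.K_nonneg]
      exact hvlip2 x y
    exact h1.continuous
  have hvC1' : ContDiff ℝ 1 (fderiv ℝ v) := contDiff_one_iff_fderiv.2 ⟨hvd2, hlipc⟩
  have hvC2 : ContDiff ℝ 2 v := by
    have h2 : (2 : WithTop ℕ∞) = 1 + 1 := by norm_num
    rw [h2, contDiff_succ_iff_fderiv]
    exact ⟨hvd, by simp, hvC1'⟩
  refine ⟨v, ⟨hvC2, ?_, ?_, ?_, hvlip, hvlip2⟩, ?_, ?_, hv, hv1⟩
  · intro x
    have h1 : Tendsto (fun t : ℝ => lap u (x + t • e) + u (x + t • e) - u (x + t • e) ^ 3) atTop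
        (𝓝 (lap v x + v x - v x ^ 3)) :=
      ((a5b_lap hu.smooth hvC2 e hv2 x).add (hv x)).sub ((hv x).pow 3)
    have h2 : (fun t : ℝ => lap u (x + t • e) + u (x + t • e) - u (x + t • e) ^ 3) =
        fun _ => (0 : ℝ) := by
      funext t; exact hu.eqn _
    rw [h2] at h1
    exact tendsto_nhds_unique h1 tendsto_const_nhds
  · intro x
    exact le_of_tendsto' (hv x).abs fun t => hu.bdd _
  · intro x
    exact le_of_tendsto' (hv1 x).norm fun t => hu.bdd1 _
  · exact a5b_stab hu.C1.continuous hu.bdd hst e hv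
  · intro x
    have hinv : ∀ s : ℝ, v (x + s • e) = v x := by
      intro s
      have h1 : Tendsto (fun t : ℝ => u (x + (t + s) • e)) atTop (𝓝 (v x)) :=
        (hv x).comp (tendsto_atTop_add_const_right _ s tendsto_id)
      have h2 : (fun t : ℝ => u (x + s • e + t • e)) = fun t : ℝ => u (x + (t + s) • e) := by
        funext t
        congr 1
        rw [add_smul]; abel
      have h3 := hv (x + s • e)
      rw [h2] at h3
      exact tendsto_nhds_unique h3 h1
    have h1 : HasDerivAt (fun s : ℝ => x + s • e) e 0 := by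
      simpa using ((hasDerivAt_id (0 : ℝ)).smul_const e).const_add x
    have h2 : HasDerivAt (fun s : ℝ => v (x + s • e)) (fderiv ℝ v (x + (0 : ℝ) • e) e) 0 :=
      (hvd (x + (0 : ℝ) • e)).hasFDerivAt.comp_hasDerivAt 0 h1
    have h3 : (fun s : ℝ => v (x + s • e)) = fun _ => v x := by
      funext s; exact hinv s
    rw [h3] at h2
    have h4 := h2.unique (hasDerivAt_const (0 : ℝ) (v x))
    rw [zero_smul, add_zero] at h4
    exact h4

end Pool.Agent.Helper68.DG
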