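import Pool.Agent.Helper68.DG.Defs

/-! Project DG: basic facts about partial derivatives, test functions, integration by parts. -/

open MeasureTheory Metric Set Filter Topology
open scoped ContDiff

namespace Pool.Agent.Helper68.DG

variable {ι : Type} [Fintype ι]

theorem be_apply (i j : ι) [DecidableEq ι] : be i j = if j = i then 1 else 0 := by
  simp [be]

theorem inner_be (i : ι) (x : V ι) : inner ℝ (be i) x = x i := by
  rw [be, ← EuclideanSpace.basisFun_inner]

theorem sum_be (b : V ι) : b = ∑ i, b i • be i := by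
  have := (EuclideanSpace.basisFun ι ℝ).sum_repr b
  simpa [be] using this.symm

/-- a linear functional in coordinates -/
theorem clm_apply (L : V ι →L[ℝ] ℝ) (b : V ι) : L b = ∑ i, b i * L (be i) := by
  conv_lhs => rw [sum_be b]
  rw [map_sum]
  simp

theorem fderiv_apply_eq (u : V ι → ℝ) (x b : V ι) :
    fderiv ℝ u x b = ∑ i, b i * pd i u x := clm_apply _ _

/-- the norm of a linear functional -/
theorem norm_clm_sq (L : V ι →L[ℝ] ℝ) : ‖L‖ ^ 2 = ∑ i, L (be i) ^ 2 := by
  set g := (InnerProductSpace.toDual ℝ (V ι)).symm L with hg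
  have h1 : ‖L‖ = ‖g‖ := by rw [hg, LinearIsometryEquiv.norm_map]
  have h2 : ∀ i, g i = L (be i) := by
    intro i
    rw [← inner_be i g, real_inner_comm, hg, InnerProductSpace.toDual_symm_apply]
  rw [h1, EuclideanSpace.norm_sq_eq]
  apply Finset.sum_congr rfl
  intro i _
  rw [h2, Real.norm_eq_abs, sq_abs]

theorem gd_self (u : V ι → ℝ) (x : V ι) : gd u u x = ‖fderiv ℝ u x‖ ^ 2 := by
  rw [norm_clm_sq]
  unfold gd pd
  apply Finset.sum_congr rfl
  intro i _
  ring

theorem gd_self_nonneg (u : V ι → ℝ) (x : V ι) : 0 ≤ gd u u x := by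
  rw [gd_self]; positivity

theorem abs_gd_le (u w : V ι → ℝ) (x : V ι) :
    |gd u w x| ≤ ‖fderiv ℝ u x‖ * ‖fderiv ℝ w x‖ := by
  apply abs_le_of_sq_le_sq _ (by positivity) |> fun h => h
  rw [mul_pow, norm_clm_sq, norm_clm_sq]
  exact Finset.sum_mul_sq_le_sq_mul_sq _ _ _

theorem norm_be (i : ι) : ‖be i‖ = 1 := by
  rw [be]; exact (EuclideanSpace.basisFun ι ℝ).orthonormal.1 i

theorem abs_pd_le (u : V ι → ℝ) (i : ι) (x : V ι) : |pd i u x| ≤ ‖fderiv ℝ u x‖ := by
  have h := (fderiv ℝ u x).le_opNorm (be i)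
  rw [norm_be, mul_one] at h
  exact h

theorem gd_comm (u w : V ι → ℝ) (x : V ι) : gd u w x = gd w u x := by
  unfold gd
  apply Finset.sum_congr rfl
  intro i _
  ring

theorem pd_add {u w : V ι → ℝ} {x : V ι} (hu : DifferentiableAt ℝ u x)
    (hw : DifferentiableAt ℝ w x) (i : ι) :
    pd i (fun y => u y + w y) x = pd i u x + pd i w x := by
  unfold pd
  rw [fderiv_fun_add hu hw]; rfl

theorem pd_sub {u w : V ι → ℝ} {x : V ι} (hu : DifferentiableAt ℝ u x)
    (hw : DifferentiableAt ℝ w x) (i : ι) :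
    pd i (fun y => u y - w y) x = pd i u x - pd i w x := by
  unfold pd
  rw [fderiv_fun_sub hu hw]; rfl

theorem pd_mul {u w : V ι → ℝ} {x : V ι} (hu : DifferentiableAt ℝ u x)
    (hw : DifferentiableAt ℝ w x) (i : ι) :
    pd i (fun y => u y * w y) x = pd i u x * w x + u x * pd i w x := by
  unfold pd
  rw [fderiv_fun_mul hu hw]
  simp
  ring

theorem pd_const_mul {u : V ι → ℝ} {x : V ι} (c : ℝ) (hu : DifferentiableAt ℝ u x) (i : ι) :
    pd i (fun y => c * u y) x = c * pd i u x := by
  unfold pd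
  rw [fderiv_const_mul hu]
  simp

theorem pd_comp {u : V ι → ℝ} {x : V ι} {g : ℝ → ℝ} (hg : DifferentiableAt ℝ g (u x))
    (hu : DifferentiableAt ℝ u x) (i : ι) :
    pd i (fun y => g (u y)) x = deriv g (u x) * pd i u x := by
  unfold pd
  have h := (hg.hasDerivAt.comp_hasFDerivAt x hu.hasFDerivAt).fderiv
  have h2 : (fun y => g (u y)) = g ∘ u := rfl
  rw [h2, h]
  simp

theorem contDiff_pd {n : ℕ∞} {u : V ι → ℝ} (hu : ContDiff ℝ (n + 1) u) (i : ι) :
    ContDiff ℝ n (pd i u) := by
  unfold pd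
  exact (hu.fderiv_right le_rfl).clm_apply contDiff_const

theorem contDiff_pd_one {u : V ι → ℝ} (hu : ContDiff ℝ 2 u) (i : ι) :
    ContDiff ℝ 1 (pd i u) := by
  unfold pd
  exact (hu.fderiv_right (m := 1) (by norm_num)).clm_apply contDiff_const

theorem continuous_pd {u : V ι → ℝ} (hu : ContDiff ℝ 1 u) (i : ι) : Continuous (pd i u) := by
  unfold pd
  exact (hu.continuous_fderiv one_ne_zero).clm_apply continuous_const

theorem continuous_gd {u w : V ι → ℝ} (hu : ContDiff ℝ 1 u) (hw : ContDiff ℝ 1 w) :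
    Continuous (gd u w) := by
  unfold gd
  exact continuous_finsetSum _ fun i _ => (continuous_pd hu i).mul (continuous_pd hw i)

theorem continuous_lap {u : V ι → ℝ} (hu : ContDiff ℝ 2 u) : Continuous (lap u) := by
  unfold lap
  exact continuous_finsetSum _ fun i _ => continuous_pd (contDiff_pd_one hu i) i

theorem hasCompactSupport_pd {u : V ι → ℝ} (hu : HasCompactSupport u) (i : ι) :
    HasCompactSupport (pd i u) := by
  have h := hu.fderiv (𝕜 := ℝ)
  exact h.comp_left (g := fun L : V ι →L[ℝ] ℝ => L (be i)) (by simp)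

theorem hasCompactSupport_gd {u w : V ι → ℝ} (hw : HasCompactSupport w) :
    HasCompactSupport (gd u w) := by
  unfold gd
  have h : ∀ s : Finset ι, HasCompactSupport (fun x => ∑ i ∈ s, pd i u x * pd i w x) := by
    intro s
    classical
    induction s using Finset.induction_on with
    | empty =>
      simp only [Finset.sum_empty]
      exact HasCompactSupport.zero
    | insert a s ha ih =>
      simp only [Finset.sum_insert ha]
      exact HasCompactSupport.add (HasCompactSupport.mul_left (hasCompactSupport_pd hw a)) ih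
  exact h Finset.univ

theorem T1.contDiff {φ : V ι → ℝ} (h : T1 φ) : ContDiff ℝ 1 φ := h.1

theorem T1.cs {φ : V ι → ℝ} (h : T1 φ) : HasCompactSupport φ := h.2

theorem T1.continuous {φ : V ι → ℝ} (h : T1 φ) : Continuous φ := h.1.continuous

theorem T1.mul {w φ : V ι → ℝ} (hw : ContDiff ℝ 1 w) (h : T1 φ) : T1 (fun x => w x * φ x) :=
  ⟨hw.mul h.1, h.2.mul_left⟩

theorem T1.mul' {w φ : V ι → ℝ} (h : T1 φ) (hw : ContDiff ℝ 1 w) : T1 (fun x => φ x * w x) :=
  ⟨h.1.mul hw, h.2.mul_right⟩

theorem T1.add {φ ψ : V ι → ℝ} (h : T1 φ) (h' : T1 ψ) : T1 (fun x => φ x + ψ x) :=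
  ⟨h.1.add h'.1, h.2.add h'.2⟩

theorem T1.const_mul {φ : V ι → ℝ} (c : ℝ) (h : T1 φ) : T1 (fun x => c * φ x) :=
  T1.mul contDiff_const h

/-- a continuous function with compact support is integrable -/
theorem integrable_cs {f : V ι → ℝ} (hf : Continuous f) (hc : HasCompactSupport f) :
    Integrable f := hf.integrable_of_hasCompactSupport hc

theorem integrable_mul_T1 {f φ : V ι → ℝ} (hf : Continuous f) (h : T1 φ) :
    Integrable (fun x => f x * φ x) :=
  integrable_cs (hf.mul h.continuous) h.2.mul_left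

theorem integrable_gd {u w : V ι → ℝ} (hu : ContDiff ℝ 1 u) (hw : T1 w) :
    Integrable (gd u w) :=
  integrable_cs (continuous_gd hu hw.1) (hasCompactSupport_gd hw.2)

/-- integration by parts -/
theorem ibp {φ ψ : V ι → ℝ} (hφ : ContDiff ℝ 1 φ) (hψ : T1 ψ) (i : ι) :
    ∫ x, φ x * pd i ψ x = - ∫ x, pd i φ x * ψ x := by
  unfold pd
  apply integral_mul_fderiv_eq_neg_fderiv_mul_of_integrable
  · exact integrable_cs ((continuous_pd hφ i).mul hψ.continuous) hψ.2.mul_left
  · exact integrable_cs (hφ.continuous.mul (continuous_pd hψ.1 i))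
      (hasCompactSupport_pd hψ.2 i).mul_left
  · exact integrable_cs (hφ.continuous.mul hψ.continuous) hψ.2.mul_left
  · exact fun x _ => (hφ.differentiable one_ne_zero) x
  · exact fun x _ => (hψ.1.differentiable one_ne_zero) x

/-- symmetry of the second derivatives -/
theorem pd_comm {u : V ι → ℝ} (hu : ContDiff ℝ 2 u) (i j : ι) (x : V ι) :
    pd i (pd j u) x = pd j (pd i u) x := by
  have h1 : DifferentiableAt ℝ (fderiv ℝ u) x :=
    ((hu.fderiv_right (m := 1) (by norm_num)).differentiable one_ne_zero) x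
  have h2 : ∀ a b : V ι, fderiv ℝ (fun y => fderiv ℝ u y a) x b =
      fderiv ℝ (fderiv ℝ u) x b a := by
    intro a b
    have h3 := (h1.hasFDerivAt.clm_apply (hasFDerivAt_const a x)).fderiv
    rw [h3]
    simp
  unfold pd
  rw [h2, h2]
  have hs := (hu.contDiffAt (x := x)).isSymmSndFDerivAt (by simp)
  exact hs.eq _ _

/-- the weak form of `Δu` -/
theorem integral_gd {u φ : V ι → ℝ} (hu : ContDiff ℝ 2 u) (hφ : T1 φ) :
    ∫ x, gd u φ x = - ∫ x, lap u x * φ x := by
  unfold gd lap
  rw [integral_finsetSum]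
  · simp only [Finset.sum_mul]
    rw [integral_finsetSum, ← Finset.sum_neg_distrib]
    · apply Finset.sum_congr rfl
      intro i _
      exact ibp (contDiff_pd_one hu i) hφ i
    · intro i _
      exact integrable_mul_T1 (continuous_pd (contDiff_pd_one hu i) i) hφ
  · intro i _
    exact integrable_cs ((continuous_pd (hu.of_le (by norm_num)) i).mul (continuous_pd hφ.1 i))
      (hasCompactSupport_pd hφ.2 i).mul_left

theorem lap_eq {K : ℝ} {u : V ι → ℝ} (hu : GS K u) (x : V ι) : lap u x = u x ^ 3 - u x := by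
  linarith [hu.eqn x]

/-- the weak form of the equation -/
theorem GS.weak {K : ℝ} {u φ : V ι → ℝ} (hu : GS K u) (hφ : T1 φ) :
    ∫ x, gd u φ x = ∫ x, (u x - u x ^ 3) * φ x := by
  rw [integral_gd hu.smooth hφ, ← integral_neg]
  congr 1
  funext x
  rw [lap_eq hu]
  ring

theorem GS.C1 {K : ℝ} {u : V ι → ℝ} (hu : GS K u) : ContDiff ℝ 1 u :=
  hu.smooth.of_le (by norm_num)

theorem GS.K_nonneg {K : ℝ} {u : V ι → ℝ} (hu : GS K u) : 0 ≤ K :=
  (abs_nonneg _).trans (hu.bdd 0)

theorem continuous_cc {u : V ι → ℝ} (hu : Continuous u) : Continuous (cc u) := by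
  unfold cc; fun_prop

theorem lg_nonneg (x : V ι) : 0 ≤ lg x := by
  unfold lg
  have : 0 ≤ Real.log (1 + ‖x‖ ^ 2) := Real.log_nonneg (by nlinarith [sq_nonneg ‖x‖])
  linarith

theorem exp_lg_sq (x : V ι) : Real.exp (lg x) ^ 2 = 1 + ‖x‖ ^ 2 := by
  unfold lg
  rw [← Real.exp_nat_mul]
  have h : ((2 : ℕ) : ℝ) * (Real.log (1 + ‖x‖ ^ 2) / 2) = Real.log (1 + ‖x‖ ^ 2) := by
    push_cast; ring
  rw [h, Real.exp_log (by positivity)]

theorem contDiff_lg {n : WithTop ℕ∞} : ContDiff ℝ n (lg : V ι → ℝ) := by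
  unfold lg
  apply ContDiff.div_const
  apply ContDiff.log
  · exact contDiff_const.add (contDiff_norm_sq ℝ)
  · intro x; positivity

/-- the norm of a linear functional is at most the sum of its coordinates -/
theorem norm_clm_le_sum (L : V ι →L[ℝ] ℝ) : ‖L‖ ≤ ∑ i, |L (be i)| := by
  apply L.opNorm_le_bound (Finset.sum_nonneg fun i _ => abs_nonneg _)
  intro b
  rw [clm_apply L b, Real.norm_eq_abs, Finset.sum_mul]
  refine (Finset.abs_sum_le_sum_abs _ _).trans (Finset.sum_le_sum fun i _ => ?_)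
  rw [abs_mul, mul_comm]
  apply mul_le_mul_of_nonneg_left _ (abs_nonneg _)
  have h := norm_inner_le_norm (𝕜 := ℝ) (be i) b
  rw [inner_be, norm_be, one_mul, Real.norm_eq_abs] at h
  exact h

theorem abs_coord_le (x : V ι) (i : ι) : |x i| ≤ ‖x‖ := by
  have h := norm_inner_le_norm (𝕜 := ℝ) (be i) x
  rw [inner_be, norm_be, one_mul, Real.norm_eq_abs] at h
  exact h

theorem pd_translate (u : V ι → ℝ) (a : V ι) (i : ι) (x : V ι) :
    pd i (fun y => u (y + a)) x = pd i u (x + a) := by
  unfold pd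
  rw [fderiv_comp_add_right]

theorem lap_translate (u : V ι → ℝ) (a : V ι) (x : V ι) :
    lap (fun y => u (y + a)) x = lap u (x + a) := by
  unfold lap
  apply Finset.sum_congr rfl
  intro i _
  have h : pd i (fun y => u (y + a)) = fun y => pd i u (y + a) := by
    funext y; exact pd_translate u a i y
  rw [h]
  exact pd_translate (pd i u) a i x

theorem lap_sub {u w : V ι → ℝ} (hu : ContDiff ℝ 2 u) (hw : ContDiff ℝ 2 w) (x : V ι) :
    lap (fun y => u y - w y) x = lap u x - lap w x := by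
  unfold lap
  rw [← Finset.sum_sub_distrib]
  apply Finset.sum_congr rfl
  intro i _
  have h : pd i (fun y => u y - w y) = fun y => pd i u y - pd i w y := by
    funext y
    exact pd_sub ((hu.differentiable two_ne_zero) y) ((hw.differentiable two_ne_zero) y) i
  rw [h]
  exact pd_sub (((contDiff_pd_one hu i).differentiable one_ne_zero) x)
    (((contDiff_pd_one hw i).differentiable one_ne_zero) x) i

theorem lap_add {u w : V ι → ℝ} (hu : ContDiff ℝ 2 u) (hw : ContDiff ℝ 2 w) (x : V ι) :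
    lap (fun y => u y + w y) x = lap u x + lap w x := by
  unfold lap
  rw [← Finset.sum_add_distrib]
  apply Finset.sum_congr rfl
  intro i _
  have h : pd i (fun y => u y + w y) = fun y => pd i u y + pd i w y := by
    funext y
    exact pd_add ((hu.differentiable two_ne_zero) y) ((hw.differentiable two_ne_zero) y) i
  rw [h]
  exact pd_add (((contDiff_pd_one hu i).differentiable one_ne_zero) x)
    (((contDiff_pd_one hw i).differentiable one_ne_zero) x) i

theorem lap_const_mul {u : V ι → ℝ} (c : ℝ) (hu : ContDiff ℝ 2 u) (x : V ι) :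
    lap (fun y => c * u y) x = c * lap u x := by
  unfold lap
  rw [Finset.mul_sum]
  apply Finset.sum_congr rfl
  intro i _
  have h : pd i (fun y => c * u y) = fun y => c * pd i u y := by
    funext y
    exact pd_const_mul c ((hu.differentiable two_ne_zero) y) i
  rw [h]
  exact pd_const_mul c (((contDiff_pd_one hu i).differentiable one_ne_zero) x) i

/-- second derivatives as iterated Frechet derivatives -/
theorem pd_pd {u : V ι → ℝ} (hu : ContDiff ℝ 2 u) (i j : ι) (x : V ι) :
    pd i (pd j u) x = fderiv ℝ (fderiv ℝ u) x (be i) (be j) := by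
  have h1 : DifferentiableAt ℝ (fderiv ℝ u) x :=
    ((hu.fderiv_right (m := 1) (by norm_num)).differentiable one_ne_zero) x
  have h3 := (h1.hasFDerivAt.clm_apply (hasFDerivAt_const (be j) x)).fderiv
  unfold pd
  rw [h3]
  simp

theorem norm_le_exp_lg (x : V ι) : ‖x‖ ≤ Real.exp (lg x) := by
  apply abs_le_of_sq_le_sq' _ (Real.exp_pos _).le |>.2
  rw [exp_lg_sq]
  linarith

theorem one_le_exp_lg (x : V ι) : 1 ≤ Real.exp (lg x) := Real.one_le_exp (lg_nonneg x)

theorem fderiv_lg (x b : V ι) :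
    fderiv ℝ lg x b = inner ℝ x b / Real.exp (lg x) ^ 2 := by
  have h1 : HasFDerivAt (fun y : V ι => 1 + ‖y‖ ^ 2) (2 • (innerSL ℝ x)) x := by
    have := (hasStrictFDerivAt_norm_sq x).hasFDerivAt
    simpa using this.const_add 1
  have h2 : (1 + ‖x‖ ^ 2) ≠ 0 := by positivity
  have h3 := (h1.log h2).mul_const (1 / 2 : ℝ)
  have h4 : (fun y : V ι => Real.log (1 + ‖y‖ ^ 2) * (1 / 2)) = lg := by
    funext y; unfold lg; ring
  rw [h4] at h3
  rw [h3.fderiv, exp_lg_sq]
  simp
  field_simp

theorem norm_fderiv_lg_le (x : V ι) : ‖fderiv ℝ lg x‖ ≤ Real.exp (-lg x) := by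
  apply ContinuousLinearMap.opNorm_le_bound _ (Real.exp_pos _).le
  intro b
  rw [fderiv_lg, Real.norm_eq_abs, abs_div, abs_of_pos (pow_pos (Real.exp_pos (lg x)) 2),
    Real.exp_neg, div_le_iff₀ (by positivity)]
  have h1 := abs_real_inner_le_norm x b
  have h2 := norm_le_exp_lg x
  have h3 : (Real.exp (lg x))⁻¹ * ‖b‖ * Real.exp (lg x) ^ 2 = Real.exp (lg x) * ‖b‖ := by
    field_simp
  rw [h3]
  exact h1.trans (mul_le_mul_of_nonneg_right h2 (norm_nonneg _))

end Pool.Agent.Helper68.DG
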