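import Pool.Agent.Helper68.DG.Base

/-! Project DG (MP_800410_an), piece A3: the linearised equation -/

open MeasureTheory Metric Set Filter Topology
open scoped ContDiff

namespace Pool.Agent.Helper68.DG

variable {ι : Type} [Fintype ι]

/-- differentiation under the integral sign -/
theorem a3_deriv {g η : V ι → ℝ} {L : ℝ} (hL : 0 ≤ L) (hg : ContDiff ℝ 1 g)
    (hlip : ∀ x y, |g x - g y| ≤ L * ‖x - y‖) (hη : Continuous η) (hc : HasCompactSupport η)
    (b : V ι) :
    HasDerivAt (fun t : ℝ => ∫ x, g (x + t • b) * η x) (∫ x, fderiv ℝ g x b * η x) 0 := by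
  have hcont : ∀ t : ℝ, Continuous fun x : V ι => g (x + t • b) * η x := fun t =>
    (hg.continuous.comp (continuous_id.add continuous_const)).mul hη
  have h := hasDerivAt_integral_of_dominated_loc_of_lip (μ := volume) (s := Set.univ)
    (F := fun (t : ℝ) (x : V ι) => g (x + t • b) * η x) (x₀ := (0 : ℝ))
    (F' := fun x => fderiv ℝ g x b * η x) (bound := fun x => L * ‖b‖ * |η x|)
    Filter.univ_mem
    (Filter.Eventually.of_forall fun t => (hcont t).aestronglyMeasurable)
    (integrable_cs (hcont 0) hc.mul_left)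
    ((((hg.continuous_fderiv one_ne_zero).clm_apply continuous_const).mul
      hη).aestronglyMeasurable)
    (Filter.Eventually.of_forall fun x => by
      refine LipschitzOnWith.of_dist_le_mul fun t _ s _ => ?_
      rw [Real.dist_eq, Real.dist_eq, Real.coe_nnabs, ← sub_mul, abs_mul,
        abs_of_nonneg (mul_nonneg (mul_nonneg hL (norm_nonneg b)) (abs_nonneg _))]
      have h1 := hlip (x + t • b) (x + s • b)
      have h2 : x + t • b - (x + s • b) = (t - s) • b := by
        rw [sub_smul]
        abel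
      rw [h2, norm_smul, Real.norm_eq_abs] at h1
      calc |g (x + t • b) - g (x + s • b)| * |η x| ≤ L * (|t - s| * ‖b‖) * |η x| :=
            mul_le_mul_of_nonneg_right h1 (abs_nonneg _)
        _ = L * ‖b‖ * |η x| * |t - s| := by ring)
    ((integrable_cs (continuous_abs.comp hη) (hc.comp_left abs_zero)).const_mul _)
    (Filter.Eventually.of_forall fun x => by
      have h1 : HasFDerivAt g (fderiv ℝ g x) (x + (0 : ℝ) • b) := by
        rw [zero_smul, add_zero]
        exact ((hg.differentiable one_ne_zero) x).hasFDerivAt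
      have h2 : HasDerivAt (fun t : ℝ => x + t • b) b 0 := by
        have := ((hasDerivAt_id (0 : ℝ)).smul_const b).const_add x
        simpa using this
      exact (h1.comp_hasDerivAt (0 : ℝ) h2).mul_const _)
  exact h.2

theorem a3_lip {g : V ι → ℝ} {L : ℝ} (hL : 0 ≤ L) (hg : ContDiff ℝ 1 g)
    (hb : ∀ x, ‖fderiv ℝ g x‖ ≤ L) (x y : V ι) : |g x - g y| ≤ L * ‖x - y‖ := by
  have h := lipschitzWith_of_nnnorm_fderiv_le (𝕜 := ℝ) (f := g) (C := ⟨L, hL⟩)
    (hg.differentiable one_ne_zero) (fun x => by
      rw [← NNReal.coe_le_coe]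
      exact hb x)
  have h1 := h.dist_le_mul x y
  rw [Real.dist_eq, dist_eq_norm] at h1
  exact h1

theorem a3_second {u : V ι → ℝ} (hu : ContDiff ℝ 2 u) (i : ι) (x b : V ι) :
    fderiv ℝ (pd i u) x b = pd i (fun x => fderiv ℝ u x b) x := by
  have h1 : DifferentiableAt ℝ (fderiv ℝ u) x :=
    ((hu.fderiv_right (m := 1) (by norm_num)).differentiable one_ne_zero) x
  have h2 : ∀ a b : V ι, fderiv ℝ (fun y => fderiv ℝ u y a) x b =
      fderiv ℝ (fderiv ℝ u) x b a := by
    intro a b
    have h3 := (h1.hasFDerivAt.clm_apply (hasFDerivAt_const a x)).fderiv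
    rw [h3]
    simp
  unfold pd
  rw [h2, h2]
  have hs := (hu.contDiffAt (x := x)).isSymmSndFDerivAt (by simp)
  exact hs.eq _ _

/-- Proof. Put `w x = fderiv ℝ u x b`, a `C¹` function. Let `ψ` be `C¹` with compact support and
`t ≠ 0`. Apply `GS.weak` to `φ x = ψ (x - t • b)` and to `ψ` and translate the first integrals
(`integral_add_right_eq_self`): with `F s = s - s ^ 3`
`∫ ∑ i, (pd i u (x + t • b) - pd i u x) * pd i ψ x = ∫ (F (u (x + t • b)) - F (u x)) * ψ x`.
Divide by `t` and let `t → 0` (for example along `t = 1 / (k + 1)`) by dominated convergence: the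
quotients `(pd i u (x + t • b) - pd i u x) / t` are bounded by `K ‖b‖` (`hu.lip1`) and converge to
`fderiv ℝ (pd i u) x b`, which is `pd i w x` by the symmetry of the second derivative; the
quotients of `F ∘ u` are bounded by `(1 + 3 K ^ 2) K ‖b‖` and converge to `cc u x * w x`; and
`pd i ψ`, `ψ` are continuous with compact support. -/
theorem GS.lin {K : ℝ} {u : V ι → ℝ} (hu : GS K u) (b : V ι) :
    Lin u fun x => fderiv ℝ u x b := by
  have hK := hu.K_nonneg
  have hw : ContDiff ℝ 1 fun x => fderiv ℝ u x b :=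
    (hu.smooth.fderiv_right (m := 1) (by norm_num)).clm_apply contDiff_const
  refine ⟨hw, fun ψ hψ => ?_⟩
  have hF : ContDiff ℝ 1 fun x => u x - u x ^ 3 := hu.C1.sub (hu.C1.pow 3)
  have hFd : ∀ x, fderiv ℝ (fun x => u x - u x ^ 3) x b = cc u x * fderiv ℝ u x b := by
    intro x
    have h1 := ((hu.C1.differentiable one_ne_zero) x).hasFDerivAt
    have h2 := (h1.sub (h1.pow 3)).fderiv
    have h3 : (fun x => u x - u x ^ 3) = u - fun x => u x ^ 3 := rfl
    rw [h3, h2]
    simp [cc]
    ring
  have hFn : ∀ x, ‖fderiv ℝ (fun x => u x - u x ^ 3) x‖ ≤ (1 + 3 * K ^ 2) * K := by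
    intro x
    have h1 := ((hu.C1.differentiable one_ne_zero) x).hasFDerivAt
    have h2 := (h1.sub (h1.pow 3)).fderiv
    have h3 : (fun x => u x - u x ^ 3) = u - fun x => u x ^ 3 := rfl
    have h4 : fderiv ℝ (fun x => u x - u x ^ 3) x = (cc u x) • fderiv ℝ u x := by
      rw [h3, h2]
      ext y
      simp [cc]
      ring
    rw [h4, norm_smul, Real.norm_eq_abs]
    have h5 : |cc u x| ≤ 1 + 3 * K ^ 2 := by
      unfold cc
      have h6 := hu.bdd x
      have h7 : u x ^ 2 ≤ K ^ 2 := by
        rw [← sq_abs]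
        exact pow_le_pow_left₀ (abs_nonneg _) h6 2
      rw [abs_le]
      constructor <;> nlinarith [sq_nonneg (u x), sq_nonneg K]
    exact mul_le_mul h5 (hu.bdd1 x) (norm_nonneg _) (by positivity)
  -- the two functions of the translation
  have key : ∀ t : ℝ, ∑ i, ∫ x, pd i u (x + t • b) * pd i ψ x =
      ∫ x, (u (x + t • b) - u (x + t • b) ^ 3) * ψ x := by
    intro t
    have hφ : T1 fun x => ψ (x + -(t • b)) := by
      refine ⟨hψ.1.comp (contDiff_id.add contDiff_const), ?_⟩
      exact hψ.2.comp_homeomorph (Homeomorph.addRight (-(t • b)))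
    have h1 := hu.weak hφ
    have h2 : ∫ x, gd u (fun x => ψ (x + -(t • b))) x =
        ∑ i, ∫ x, pd i u (x + t • b) * pd i ψ x := by
      unfold gd
      rw [integral_finsetSum]
      · refine Finset.sum_congr rfl fun i _ => ?_
        rw [← integral_add_right_eq_self _ (t • b)]
        refine integral_congr_ae (Filter.Eventually.of_forall fun x => ?_)
        simp only
        rw [pd_translate, add_neg_cancel_right]
      · intro i _
        exact integrable_cs ((continuous_pd hu.C1 i).mul (continuous_pd hφ.1 i))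
          (hasCompactSupport_pd hφ.2 i).mul_left
    have h3 : ∫ x, (u x - u x ^ 3) * ψ (x + -(t • b)) =
        ∫ x, (u (x + t • b) - u (x + t • b) ^ 3) * ψ x := by
      rw [← integral_add_right_eq_self _ (t • b)]
      refine integral_congr_ae (Filter.Eventually.of_forall fun x => ?_)
      simp only
      rw [add_neg_cancel_right]
    rw [← h2, ← h3]
    exact h1
  have d1 : HasDerivAt (fun t : ℝ => ∑ i, ∫ x, pd i u (x + t • b) * pd i ψ x)
      (∑ i, ∫ x, fderiv ℝ (pd i u) x b * pd i ψ x) 0 := by
    refine HasDerivAt.fun_sum fun i _ => ?_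
    refine a3_deriv hK (contDiff_pd_one hu.smooth i) (fun x y => ?_) (continuous_pd hψ.1 i)
      (hasCompactSupport_pd hψ.2 i) b
    have h1 : pd i u x - pd i u y = (fderiv ℝ u x - fderiv ℝ u y) (be i) := by
      simp [pd]
    rw [h1, ← Real.norm_eq_abs]
    have h2 := (fderiv ℝ u x - fderiv ℝ u y).le_opNorm (be i)
    rw [norm_be, mul_one] at h2
    exact h2.trans (hu.lip1 x y)
  have d2 : HasDerivAt (fun t : ℝ => ∫ x, (u (x + t • b) - u (x + t • b) ^ 3) * ψ x)
      (∫ x, fderiv ℝ (fun x => u x - u x ^ 3) x b * ψ x) 0 :=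
    a3_deriv (by positivity) hF (a3_lip (by positivity) hF hFn) hψ.continuous hψ.2 b
  have h4 : (fun t : ℝ => ∑ i, ∫ x, pd i u (x + t • b) * pd i ψ x) =
      fun t : ℝ => ∫ x, (u (x + t • b) - u (x + t • b) ^ 3) * ψ x := funext key
  rw [h4] at d1
  have h5 := d1.unique d2
  have h6 : ∫ x, gd (fun x => fderiv ℝ u x b) ψ x =
      ∑ i, ∫ x, fderiv ℝ (pd i u) x b * pd i ψ x := by
    unfold gd
    rw [integral_finsetSum]
    · refine Finset.sum_congr rfl fun i _ => ?_
      refine integral_congr_ae (Filter.Eventually.of_forall fun x => ?_)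
      simp only
      rw [a3_second hu.smooth]
    · intro i _
      exact integrable_cs ((continuous_pd hw i).mul (continuous_pd hψ.1 i))
        (hasCompactSupport_pd hψ.2 i).mul_left
  rw [h6, h5]
  refine integral_congr_ae (Filter.Eventually.of_forall fun x => ?_)
  simp only
  rw [hFd]

end Pool.Agent.Helper68.DG
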