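import Pool.Agent.Helper68.DG.Base

/-! Project DG (MP_800410_an), piece B0: a smooth approximation of the positive part -/

open MeasureTheory Metric Set Filter Topology
open scoped ContDiff

namespace Pool.Agent.Helper68.DG

variable {ι : Type} [Fintype ι]

/-- a smooth approximation of `max t 0` -/
noncomputable def pp (ε t : ℝ) : ℝ := (√(t ^ 2 + ε ^ 2) + t) / 2

theorem b0_pos {ε : ℝ} (hε : 0 < ε) (t : ℝ) : 0 < √(t ^ 2 + ε ^ 2) :=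
  Real.sqrt_pos.2 (by positivity)

theorem b0_sq {ε : ℝ} (t : ℝ) : √(t ^ 2 + ε ^ 2) ^ 2 = t ^ 2 + ε ^ 2 :=
  Real.sq_sqrt (by positivity)

theorem b0_abs_le (ε t : ℝ) : |t| ≤ √(t ^ 2 + ε ^ 2) :=
  Real.abs_le_sqrt (by nlinarith [sq_nonneg ε])

theorem pp_nonneg (ε t : ℝ) : 0 ≤ pp ε t := by
  have h1 := b0_abs_le ε t
  have h2 := neg_abs_le t
  unfold pp
  linarith

theorem b0_contDiff_sqrt {ε : ℝ} (hε : 0 < ε) {n : ℕ∞} :
    ContDiff ℝ n fun t : ℝ => √(t ^ 2 + ε ^ 2) := by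
  refine ContDiff.sqrt ?_ fun t => ?_
  · exact (contDiff_id.pow 2).add contDiff_const
  · positivity

theorem contDiff_pp {ε : ℝ} (hε : 0 < ε) {n : ℕ∞} : ContDiff ℝ n (pp ε) := by
  unfold pp
  exact ((b0_contDiff_sqrt hε).add contDiff_id).div_const 2

theorem b0_hasDerivAt_sqrt {ε : ℝ} (hε : 0 < ε) (t : ℝ) :
    HasDerivAt (fun t : ℝ => √(t ^ 2 + ε ^ 2)) (t / √(t ^ 2 + ε ^ 2)) t := by
  have h1 : HasDerivAt (fun t : ℝ => t ^ 2 + ε ^ 2) (2 * t) t := by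
    have := (hasDerivAt_pow 2 t).add_const (ε ^ 2)
    simpa using this
  have h2 := h1.sqrt (by positivity)
  convert h2 using 1
  have := (b0_pos hε t).ne'
  field_simp

theorem b0_hasDerivAt {ε : ℝ} (hε : 0 < ε) (t : ℝ) :
    HasDerivAt (pp ε) ((t / √(t ^ 2 + ε ^ 2) + 1) / 2) t := by
  unfold pp
  exact ((b0_hasDerivAt_sqrt hε t).add (hasDerivAt_id t)).div_const 2

theorem deriv_pp {ε : ℝ} (hε : 0 < ε) (t : ℝ) :
    deriv (pp ε) t = (t / √(t ^ 2 + ε ^ 2) + 1) / 2 := (b0_hasDerivAt hε t).deriv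

/-- Proof. `deriv (deriv (pp ε)) t = ε ^ 2 / (2 (t ^ 2 + ε ^ 2) ^ (3 / 2))`; or: the function
`t / √(t ^ 2 + ε ^ 2)` is increasing. -/
theorem deriv2_pp_nonneg {ε : ℝ} (hε : 0 < ε) (t : ℝ) : 0 ≤ deriv (deriv (pp ε)) t := by
  have h0 : deriv (pp ε) = fun t => (t / √(t ^ 2 + ε ^ 2) + 1) / 2 := funext (deriv_pp hε)
  have hp := b0_pos hε t
  have h1 : HasDerivAt (fun t : ℝ => (t / √(t ^ 2 + ε ^ 2) + 1) / 2)
      (((1 * √(t ^ 2 + ε ^ 2) - t * (t / √(t ^ 2 + ε ^ 2))) / √(t ^ 2 + ε ^ 2) ^ 2) / 2) t :=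
    (((hasDerivAt_id t).div (b0_hasDerivAt_sqrt hε t) hp.ne').add_const 1).div_const 2
  rw [h0, h1.deriv]
  have h2 : t * (t / √(t ^ 2 + ε ^ 2)) ≤ √(t ^ 2 + ε ^ 2) := by
    rw [← mul_div_assoc, div_le_iff₀ hp]
    nlinarith [b0_sq (ε := ε) t, sq_nonneg ε]
  have h3 : 0 ≤ 1 * √(t ^ 2 + ε ^ 2) - t * (t / √(t ^ 2 + ε ^ 2)) := by linarith
  positivity

theorem deriv_pp_mem {ε : ℝ} (hε : 0 < ε) (t : ℝ) :
    0 ≤ deriv (pp ε) t ∧ deriv (pp ε) t ≤ 1 := by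
  rw [deriv_pp hε]
  have hp := b0_pos hε t
  have h1 : |t / √(t ^ 2 + ε ^ 2)| ≤ 1 := by
    rw [abs_div, abs_of_pos hp, div_le_one hp]
    exact b0_abs_le ε t
  have h2 := abs_le.1 h1
  constructor <;> linarith [h2.1, h2.2]

/-- Proof. `pp ε t - t * deriv (pp ε) t = ε ^ 2 / (2 √(t ^ 2 + ε ^ 2))`. -/
theorem pp_sub {ε : ℝ} (hε : 0 < ε) (t : ℝ) : |t * deriv (pp ε) t - pp ε t| ≤ ε / 2 := by
  rw [deriv_pp hε]
  have hp := b0_pos hε t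
  have h1 : t * ((t / √(t ^ 2 + ε ^ 2) + 1) / 2) - pp ε t = -(ε ^ 2 / (2 * √(t ^ 2 + ε ^ 2))) := by
    unfold pp
    field_simp
    nlinarith [b0_sq (ε := ε) t]
  have h2 : ε ≤ √(t ^ 2 + ε ^ 2) := by
    have h3 : |ε| ≤ √(t ^ 2 + ε ^ 2) := Real.abs_le_sqrt (by nlinarith [sq_nonneg t])
    exact (le_abs_self ε).trans h3
  rw [h1, abs_neg, abs_of_nonneg (by positivity), div_le_div_iff₀ (by positivity) (by norm_num)]
  nlinarith

/-- Proof. `pp ε t - max t 0 = (√(t ^ 2 + ε ^ 2) - |t|) / 2`. -/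
theorem pp_max {ε : ℝ} (hε : 0 < ε) (t : ℝ) : |pp ε t - max t 0| ≤ ε / 2 := by
  have h1 : pp ε t - max t 0 = (√(t ^ 2 + ε ^ 2) - |t|) / 2 := by
    unfold pp
    rcases le_total 0 t with h | h
    · rw [max_eq_left h, abs_of_nonneg h]
      ring
    · rw [max_eq_right h, abs_of_nonpos h]
      ring
  have h2 := b0_abs_le ε t
  have h3 : √(t ^ 2 + ε ^ 2) ≤ |t| + ε := by
    rw [Real.sqrt_le_left (by positivity)]
    nlinarith [sq_abs t, abs_nonneg t, mul_nonneg (abs_nonneg t) hε.le]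
  rw [h1, abs_of_nonneg (by linarith)]
  linarith

end Pool.Agent.Helper68.DG
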