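import Pool.Agent.Helper68.DG.Base
import Pool.Agent.Helper68.DG.B0

/-! Project DG (MP_800410_an), piece B1: the Caccioppoli inequality for the positive part -/

open MeasureTheory Metric Set Filter Topology
open scoped ContDiff

namespace Pool.Agent.Helper68.DG

variable {ι : Type} [Fintype ι]

theorem b1_contDiff_deriv_pp {ε : ℝ} (hε : 0 < ε) : ContDiff ℝ 1 (deriv (pp ε)) := by
  have h : ContDiff ℝ ((1 : ℕ∞) + 1) (pp ε) := by
    have := contDiff_pp hε (n := 2)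
    exact this.of_le (by norm_num)
  exact (contDiff_succ_iff_deriv.mp h).2.2

/-- the derivative of `p p'` -/
theorem b1_deriv_q {ε : ℝ} (hε : 0 < ε) (t : ℝ) :
    deriv (fun s => pp ε s * deriv (pp ε) s) t =
      deriv (pp ε) t ^ 2 + pp ε t * deriv (deriv (pp ε)) t := by
  have h1 : DifferentiableAt ℝ (pp ε) t :=
    ((contDiff_pp hε (n := 1)).differentiable (by norm_num)) t
  have h2 : DifferentiableAt ℝ (deriv (pp ε)) t :=
    ((b1_contDiff_deriv_pp hε).differentiable one_ne_zero) t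
  rw [deriv_fun_mul h1 h2]
  ring

/-- the pointwise identity -/
theorem b1_point {w ξ : V ι → ℝ} (hw : ContDiff ℝ 1 w) (hξ : T1 ξ) {ε : ℝ} (hε : 0 < ε)
    (x : V ι) :
    gd (fun y => pp ε (w y) * ξ y) (fun y => pp ε (w y) * ξ y) x =
      gd w (fun y => (pp ε (w y) * deriv (pp ε) (w y)) * (ξ y * ξ y)) x -
        pp ε (w x) * deriv (deriv (pp ε)) (w x) * (ξ x) ^ 2 * gd w w x +
        pp ε (w x) ^ 2 * gd ξ ξ x := by
  have hwx : DifferentiableAt ℝ w x := (hw.differentiable one_ne_zero) x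
  have hξx : DifferentiableAt ℝ ξ x := (hξ.1.differentiable one_ne_zero) x
  have hp : DifferentiableAt ℝ (pp ε) (w x) :=
    ((contDiff_pp hε (n := 1)).differentiable (by norm_num)) (w x)
  have hp' : DifferentiableAt ℝ (deriv (pp ε)) (w x) :=
    ((b1_contDiff_deriv_pp hε).differentiable one_ne_zero) (w x)
  have hq : DifferentiableAt ℝ (fun s => pp ε s * deriv (pp ε) s) (w x) := hp.mul hp'
  have hPx : DifferentiableAt ℝ (fun y => pp ε (w y)) x := hp.comp x hwx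
  have hQx : DifferentiableAt ℝ (fun y => pp ε (w y) * deriv (pp ε) (w y)) x :=
    DifferentiableAt.comp (g := fun s => pp ε s * deriv (pp ε) s) x hq hwx
  have e1 : ∀ i, pd i (fun y => pp ε (w y) * ξ y) x =
      deriv (pp ε) (w x) * pd i w x * ξ x + pp ε (w x) * pd i ξ x := by
    intro i
    rw [pd_mul hPx hξx, pd_comp hp hwx]
  have e2 : ∀ i, pd i (fun y => (pp ε (w y) * deriv (pp ε) (w y)) * (ξ y * ξ y)) x =
      (deriv (pp ε) (w x) ^ 2 + pp ε (w x) * deriv (deriv (pp ε)) (w x)) * pd i w x *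
        (ξ x * ξ x) +
      (pp ε (w x) * deriv (pp ε) (w x)) * (pd i ξ x * ξ x + ξ x * pd i ξ x) := by
    intro i
    have hξξx : DifferentiableAt ℝ (fun y => ξ y * ξ y) x := hξx.mul hξx
    rw [pd_mul hQx hξξx, pd_mul hξx hξx,
      pd_comp (g := fun s => pp ε s * deriv (pp ε) s) hq hwx, b1_deriv_q hε]
  unfold gd
  simp only [e1, e2]
  rw [Finset.mul_sum, Finset.mul_sum, ← Finset.sum_sub_distrib, ← Finset.sum_add_distrib]
  apply Finset.sum_congr rfl
  intro i _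
  ring

/-- Proof. Write `p = pp ε`, `P x = p (w x)`, `q = p * p'` (`p' = deriv p`), a smooth function with
`q' = p' ^ 2 + p p'' ≥ p' ^ 2`. The linearised equation with the test function
`ψ x = q (w x) * ξ x ^ 2` says
`∫ (q'(w) gd w w ξ ^ 2 + 2 q(w) ξ gd w ξ) = ∫ cc u * w * q(w) * ξ ^ 2`. On the other hand
`gd (P ξ) (P ξ) = p'(w) ^ 2 gd w w ξ ^ 2 + 2 p(w) p'(w) ξ gd w ξ + P ^ 2 gd ξ ξ`. So
`∫ gd (P ξ) (P ξ) - ∫ cc u (P ξ) ^ 2`
`= ∫ P ^ 2 gd ξ ξ - ∫ p(w) p''(w) gd w w ξ ^ 2 + ∫ cc u (w p'(w) - p(w)) p(w) ξ ^ 2`,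
the second integral is nonnegative, `|cc u| ≤ 1 + 3 K ^ 2` and `|w p'(w) - p(w)| ≤ ε / 2`
(`pp_sub`). -/
theorem cacc {K : ℝ} {u w ξ : V ι → ℝ} (hu : GS K u) (hw : Lin u w) (hξ : T1 ξ) {ε : ℝ}
    (hε : 0 < ε) :
    (∫ x, gd (fun y => pp ε (w y) * ξ y) (fun y => pp ε (w y) * ξ y) x) -
        (∫ x, cc u x * (pp ε (w x) * ξ x) ^ 2) ≤
      (∫ x, pp ε (w x) ^ 2 * gd ξ ξ x) + (1 + 3 * K ^ 2) * ε * ∫ x, pp ε (w x) * ξ x ^ 2 := by
  classical
  have hwc : Continuous w := hw.1.continuous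
  have hPC : ContDiff ℝ 1 (fun y => pp ε (w y)) := (contDiff_pp hε (n := 1)).comp hw.1
  have hQC : ContDiff ℝ 1 (fun y => pp ε (w y) * deriv (pp ε) (w y)) :=
    hPC.mul ((b1_contDiff_deriv_pp hε).comp hw.1)
  have hPξ : T1 (fun y => pp ε (w y) * ξ y) := T1.mul hPC hξ
  have hξξ : T1 (fun y => ξ y * ξ y) := T1.mul hξ.1 hξ
  have hψ : T1 (fun y => (pp ε (w y) * deriv (pp ε) (w y)) * (ξ y * ξ y)) := T1.mul hQC hξξ
  have hcc : Continuous (cc u) := continuous_cc hu.C1.continuous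
  have h1 : Integrable (gd (fun y => pp ε (w y) * ξ y) (fun y => pp ε (w y) * ξ y)) :=
    integrable_gd hPξ.1 hPξ
  have h2 : Integrable (fun x => cc u x * (pp ε (w x) * ξ x) ^ 2) := by
    have := integrable_mul_T1 (hcc.mul hPξ.continuous) hPξ
    refine this.congr (Filter.Eventually.of_forall fun x => ?_)
    simp only [Pi.mul_apply]
    ring
  have h3 : Integrable (fun x => pp ε (w x) ^ 2 * gd ξ ξ x) :=
    integrable_cs ((hPC.continuous.pow 2).mul (continuous_gd hξ.1 hξ.1))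
      (hasCompactSupport_gd hξ.2).mul_left
  have h4 : Integrable (fun x => pp ε (w x) * ξ x ^ 2) := by
    have := integrable_mul_T1 hPC.continuous hξξ
    refine this.congr (Filter.Eventually.of_forall fun x => ?_)
    simp only
    ring
  have h5 : Integrable (gd w (fun y => (pp ε (w y) * deriv (pp ε) (w y)) * (ξ y * ξ y))) :=
    integrable_gd hw.1 hψ
  have h6 : Integrable (fun x => cc u x * w x *
      ((pp ε (w x) * deriv (pp ε) (w x)) * (ξ x * ξ x))) :=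
    integrable_mul_T1 (hcc.mul hwc) hψ
  have hlin := hw.2 _ hψ
  have hK : 0 ≤ 1 + 3 * K ^ 2 := by positivity
  have hpt : ∀ x, (gd (fun y => pp ε (w y) * ξ y) (fun y => pp ε (w y) * ξ y) x -
      cc u x * (pp ε (w x) * ξ x) ^ 2) - (pp ε (w x) ^ 2 * gd ξ ξ x +
        (1 + 3 * K ^ 2) * ε * (pp ε (w x) * ξ x ^ 2)) ≤
      gd w (fun y => (pp ε (w y) * deriv (pp ε) (w y)) * (ξ y * ξ y)) x -
        cc u x * w x * ((pp ε (w x) * deriv (pp ε) (w x)) * (ξ x * ξ x)) := by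
    intro x
    rw [b1_point hw.1 hξ hε x]
    have a1 : 0 ≤ pp ε (w x) * deriv (deriv (pp ε)) (w x) * (ξ x) ^ 2 * gd w w x :=
      mul_nonneg (mul_nonneg (mul_nonneg (pp_nonneg _ _) (deriv2_pp_nonneg hε _)) (sq_nonneg _))
        (gd_self_nonneg _ _)
    have a2 := pp_sub hε (w x)
    have a3 : |cc u x| ≤ 1 + 3 * K ^ 2 := by
      unfold cc
      have b1 : u x ^ 2 ≤ K ^ 2 := by
        have := hu.bdd x
        rw [← sq_abs (u x)]
        exact pow_le_pow_left₀ (abs_nonneg _) this 2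
      rw [abs_le]
      constructor <;> nlinarith [sq_nonneg (u x)]
    have a4 : |cc u x * (w x * deriv (pp ε) (w x) - pp ε (w x))| ≤ (1 + 3 * K ^ 2) * ε := by
      rw [abs_mul]
      calc |cc u x| * |w x * deriv (pp ε) (w x) - pp ε (w x)| ≤ (1 + 3 * K ^ 2) * (ε / 2) :=
            mul_le_mul a3 a2 (abs_nonneg _) hK
        _ ≤ (1 + 3 * K ^ 2) * ε := mul_le_mul_of_nonneg_left (by linarith) hK
    have a5 : 0 ≤ pp ε (w x) * ξ x ^ 2 := mul_nonneg (pp_nonneg _ _) (sq_nonneg _)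
    have a6 : cc u x * (w x * deriv (pp ε) (w x) - pp ε (w x)) * (pp ε (w x) * ξ x ^ 2) ≤
        (1 + 3 * K ^ 2) * ε * (pp ε (w x) * ξ x ^ 2) :=
      mul_le_mul_of_nonneg_right ((le_abs_self _).trans a4) a5
    nlinarith
  have h12 : Integrable (fun x => gd (fun y => pp ε (w y) * ξ y) (fun y => pp ε (w y) * ξ y) x -
      cc u x * (pp ε (w x) * ξ x) ^ 2) := h1.sub h2
  have h4' : Integrable (fun x => (1 + 3 * K ^ 2) * ε * (pp ε (w x) * ξ x ^ 2)) := h4.const_mul _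
  have h34 : Integrable (fun x => pp ε (w x) ^ 2 * gd ξ ξ x +
      (1 + 3 * K ^ 2) * ε * (pp ε (w x) * ξ x ^ 2)) := h3.add h4'
  have h56 : Integrable (fun x =>
      gd w (fun y => (pp ε (w y) * deriv (pp ε) (w y)) * (ξ y * ξ y)) x -
      cc u x * w x * ((pp ε (w x) * deriv (pp ε) (w x)) * (ξ x * ξ x))) := h5.sub h6
  have hmono := integral_mono (μ := volume) (h12.sub h34) h56 hpt
  have e1 : ∫ x, ((gd (fun y => pp ε (w y) * ξ y) (fun y => pp ε (w y) * ξ y) x -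
      cc u x * (pp ε (w x) * ξ x) ^ 2) - (pp ε (w x) ^ 2 * gd ξ ξ x +
      (1 + 3 * K ^ 2) * ε * (pp ε (w x) * ξ x ^ 2))) =
      ((∫ x, gd (fun y => pp ε (w y) * ξ y) (fun y => pp ε (w y) * ξ y) x) -
        (∫ x, cc u x * (pp ε (w x) * ξ x) ^ 2)) -
      ((∫ x, pp ε (w x) ^ 2 * gd ξ ξ x) +
        (1 + 3 * K ^ 2) * ε * ∫ x, pp ε (w x) * ξ x ^ 2) := by
    rw [integral_sub h12 h34, integral_sub h1 h2, integral_add h3 h4', integral_const_mul]
  have e2 : ∫ x, (gd w (fun y => (pp ε (w y) * deriv (pp ε) (w y)) * (ξ y * ξ y)) x -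
      cc u x * w x * ((pp ε (w x) * deriv (pp ε) (w x)) * (ξ x * ξ x))) = 0 := by
    rw [integral_sub h5 h6, hlin, sub_self]
  rw [e2] at hmono
  have h7 := e1.symm.trans_le hmono
  linarith

end Pool.Agent.Helper68.DG
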