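import Pool.Agent.Helper68.DG.Base
import Pool.Agent.Helper68.DG.B0
import Pool.Agent.Helper68.DG.B1

/-! Project DG (MP_800410_an), piece B2: the null minimiser inequality -/

open MeasureTheory Metric Set Filter Topology
open scoped ContDiff

namespace Pool.Agent.Helper68.DG

variable {ι : Type} [Fintype ι]

/-- the quadratic form of the linearised equation -/
noncomputable def b2_Q (u φ : V ι → ℝ) : ℝ := (∫ x, gd φ φ x) - ∫ x, cc u x * φ x ^ 2

/-- the bilinear form of the linearised equation -/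
noncomputable def b2_B (u φ ψ : V ι → ℝ) : ℝ := (∫ x, gd φ ψ x) - ∫ x, cc u x * φ x * ψ x

theorem b2_gd_add {φ ψ : V ι → ℝ} (hφ : T1 φ) (hψ : T1 ψ) (t : ℝ) (x : V ι) :
    gd (fun y => φ y + t * ψ y) (fun y => φ y + t * ψ y) x =
      gd φ φ x + 2 * t * gd φ ψ x + t ^ 2 * gd ψ ψ x := by
  unfold gd
  rw [Finset.mul_sum, Finset.mul_sum, ← Finset.sum_add_distrib, ← Finset.sum_add_distrib]
  apply Finset.sum_congr rfl
  intro i _
  have h1 : DifferentiableAt ℝ φ x := (hφ.1.differentiable one_ne_zero) x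
  have h2 : DifferentiableAt ℝ ψ x := (hψ.1.differentiable one_ne_zero) x
  rw [pd_add h1 (h2.const_mul t), pd_const_mul t h2]
  ring

theorem b2_Q_add {u φ ψ : V ι → ℝ} (hu : Continuous u) (hφ : T1 φ) (hψ : T1 ψ) (t : ℝ) :
    b2_Q u (fun y => φ y + t * ψ y) = b2_Q u φ + 2 * t * b2_B u φ ψ + t ^ 2 * b2_Q u ψ := by
  have hc := continuous_cc hu
  have i1 : Integrable (fun x => gd φ φ x) := integrable_gd hφ.1 hφ
  have i2 : Integrable (fun x => gd φ ψ x) := integrable_gd hφ.1 hψ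
  have i3 : Integrable (fun x => gd ψ ψ x) := integrable_gd hψ.1 hψ
  have j1 : Integrable (fun x => cc u x * φ x ^ 2) := by
    have h0 : Integrable (fun x => (cc u x * φ x) * φ x) :=
      integrable_mul_T1 (hc.mul hφ.continuous) hφ
    refine h0.congr (Eventually.of_forall fun x => ?_)
    simp only
    ring
  have j2 : Integrable (fun x => cc u x * φ x * ψ x) :=
    integrable_mul_T1 (hc.mul hφ.continuous) hψ
  have j3 : Integrable (fun x => cc u x * ψ x ^ 2) := by
    have h0 : Integrable (fun x => (cc u x * ψ x) * ψ x) :=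
      integrable_mul_T1 (hc.mul hψ.continuous) hψ
    refine h0.congr (Eventually.of_forall fun x => ?_)
    simp only
    ring
  have e1 : ∫ x, gd (fun y => φ y + t * ψ y) (fun y => φ y + t * ψ y) x =
      (∫ x, gd φ φ x) + 2 * t * (∫ x, gd φ ψ x) + t ^ 2 * ∫ x, gd ψ ψ x := by
    simp only [b2_gd_add hφ hψ]
    have k1 : Integrable (fun x => gd φ φ x + 2 * t * gd φ ψ x) := i1.add (i2.const_mul _)
    rw [integral_add k1 (i3.const_mul _),
      integral_add i1 (i2.const_mul _), integral_const_mul, integral_const_mul]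
  have e2 : ∫ x, cc u x * (φ x + t * ψ x) ^ 2 =
      (∫ x, cc u x * φ x ^ 2) + 2 * t * (∫ x, cc u x * φ x * ψ x) +
        t ^ 2 * ∫ x, cc u x * ψ x ^ 2 := by
    have h : ∀ x, cc u x * (φ x + t * ψ x) ^ 2 =
        cc u x * φ x ^ 2 + 2 * t * (cc u x * φ x * ψ x) + t ^ 2 * (cc u x * ψ x ^ 2) := by
      intro x; ring
    simp only [h]
    have k1 : Integrable (fun x => cc u x * φ x ^ 2 + 2 * t * (cc u x * φ x * ψ x)) :=
      j1.add (j2.const_mul _)
    rw [integral_add k1 (j3.const_mul _),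
      integral_add j1 (j2.const_mul _), integral_const_mul, integral_const_mul]
  unfold b2_Q b2_B
  rw [e1, e2]
  ring

theorem b2_Q_nonneg {u φ : V ι → ℝ} (hst : Stab u) (hφ : T1 φ) : 0 ≤ b2_Q u φ := by
  unfold b2_Q
  linarith [hst φ hφ]

/-- the inequality of Cauchy and Schwarz -/
theorem b2_cs {u φ ψ : V ι → ℝ} (hu : Continuous u) (hst : Stab u) (hφ : T1 φ) (hψ : T1 ψ) :
    b2_B u φ ψ ^ 2 ≤ b2_Q u φ * b2_Q u ψ := by
  have h : ∀ t : ℝ, 0 ≤ b2_Q u ψ * (t * t) + 2 * b2_B u φ ψ * t + b2_Q u φ := by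
    intro t
    have h1 := b2_Q_nonneg hst (hφ.add (hψ.const_mul t))
    rw [b2_Q_add hu hφ hψ t] at h1
    linarith
  have h2 := discrim_le_zero h
  unfold discrim at h2
  nlinarith

theorem b2_lap_zero {ψ : V ι → ℝ} {x : V ι} (hx : x ∉ tsupport ψ) : lap ψ x = 0 := by
  unfold lap
  apply Finset.sum_eq_zero
  intro i _
  have h1 : (ψ : V ι → ℝ) =ᶠ[𝓝 x] 0 := notMem_tsupport_iff_eventuallyEq.mp hx
  have h2 : pd i ψ =ᶠ[𝓝 x] 0 := by
    have h3 := h1.eventuallyEq_nhds
    filter_upwards [h3] with y hy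
    unfold pd
    rw [hy.fderiv_eq]
    simp
  have h4 : fderiv ℝ (pd i ψ) x = 0 := by
    rw [h2.fderiv_eq]
    simp
  unfold pd at h4 ⊢
  rw [h4]
  simp

/-- the bilinear form with the cut-off function -/
theorem b2_B_eq {u P ξ ψ : V ι → ℝ} (hP : ContDiff ℝ 1 P) (hξ : T1 ξ)
    (hψ : ContDiff ℝ 2 ψ) (h1 : ∀ x ∈ tsupport ψ, ξ x = 1)
    (hi : Integrable fun x => P x * lap ψ x) (hj : Integrable fun x => P x * (cc u x * ψ x)) :
    b2_B u (fun y => P y * ξ y) ψ = - ∫ x, P x * (lap ψ x + cc u x * ψ x) := by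
  have e1 : ∫ x, gd (fun y => P y * ξ y) ψ x = - ∫ x, P x * lap ψ x := by
    have h3 := integral_gd hψ (T1.mul hP hξ)
    have h4 : ∀ x, gd (fun y => P y * ξ y) ψ x = gd ψ (fun y => P y * ξ y) x :=
      fun x => gd_comm _ _ _
    simp only [h4]
    rw [h3]
    congr 1
    congr 1
    funext x
    by_cases hx : x ∈ tsupport ψ
    · rw [h1 x hx]; ring
    · rw [b2_lap_zero hx]; ring
  have e2 : ∫ x, cc u x * (P x * ξ x) * ψ x = ∫ x, P x * (cc u x * ψ x) := by
    congr 1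
    funext x
    by_cases hx : x ∈ tsupport ψ
    · rw [h1 x hx]; ring
    · rw [image_eq_zero_of_notMem_tsupport hx]; ring
  have e3 : ∫ x, P x * (lap ψ x + cc u x * ψ x) =
      (∫ x, P x * lap ψ x) + ∫ x, P x * (cc u x * ψ x) := by
    rw [← integral_add hi hj]
    congr 1
    funext x
    ring
  unfold b2_B
  rw [e1, e2, e3]
  ring

/-- the inequality for positive `ε` -/
theorem b2_eps {K : ℝ} {u w ξ ψ : V ι → ℝ} (hu : GS K u) (hst : Stab u) (hw : Lin u w)
    (hξ : T1 ξ) (hψ : ContDiff ℝ 2 ψ) (hψc : HasCompactSupport ψ)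
    (h1 : ∀ x ∈ tsupport ψ, ξ x = 1) {ε : ℝ} (hε : 0 < ε) :
    (∫ x, pp ε (w x) * (lap ψ x + cc u x * ψ x)) ^ 2 ≤
      ((∫ x, pp ε (w x) ^ 2 * gd ξ ξ x) +
        (1 + 3 * K ^ 2) * ε * ∫ x, pp ε (w x) * ξ x ^ 2) * b2_Q u ψ := by
  have hT : T1 ψ := ⟨hψ.of_le (by norm_num), hψc⟩
  have hP : ContDiff ℝ 1 (fun x => pp ε (w x)) :=
    (contDiff_pp (n := 1) hε).comp hw.1
  have hcl : HasCompactSupport (lap ψ) :=
    HasCompactSupport.intro hψc fun x hx => b2_lap_zero hx
  have hi : Integrable fun x => pp ε (w x) * lap ψ x :=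
    integrable_cs (hP.continuous.mul (continuous_lap hψ)) hcl.mul_left
  have hj : Integrable fun x => pp ε (w x) * (cc u x * ψ x) :=
    integrable_cs (hP.continuous.mul ((continuous_cc hu.C1.continuous).mul hT.continuous))
      (hψc.mul_left (f := cc u)).mul_left
  have e1 := b2_B_eq hP hξ hψ h1 hi hj
  have e2 := b2_cs hu.C1.continuous hst (T1.mul hP hξ) hT
  rw [e1, neg_sq] at e2
  refine e2.trans (mul_le_mul_of_nonneg_right ?_ (b2_Q_nonneg hst hT))
  exact cacc hu hw hξ hε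

/-- Proof. For test functions put `B φ ψ = ∫ gd φ ψ - ∫ cc u φ ψ` and `Q φ = B φ φ ≥ 0` (stability);
since `0 ≤ Q (φ + t ψ)` for all real `t`, `(B φ ψ) ^ 2 ≤ Q φ * Q ψ` (`discrim_le_zero`). Let `ε > 0`
and `P x = pp ε (w x)`. As `ξ = 1`, `fderiv ξ = 0` on `tsupport ψ`,
`B (P ξ) ψ = ∫ gd P ψ - ∫ cc u P ψ = - ∫ P (lap ψ + cc u ψ)` (integration by parts, `ibp` for the
test function `pd i ψ`). By B1, with `C = (1 + 3 K ^ 2)`,
`(∫ P (lap ψ + cc u ψ)) ^ 2 ≤ (∫ P ^ 2 gd ξ ξ + C ε ∫ P ξ ^ 2) * Q ψ`. Let `ε → 0`: by `pp_max`,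
`P → max (w x) 0` uniformly, and all the other factors are continuous with compact support. Finally
`max (w x) 0 ^ 2 ≤ w x ^ 2` and `gd ξ ξ ≥ 0`. -/
theorem null_min {K : ℝ} {u w ξ ψ : V ι → ℝ} (hu : GS K u) (hst : Stab u) (hw : Lin u w)
    (hξ : T1 ξ) (hψ : ContDiff ℝ 2 ψ) (hψc : HasCompactSupport ψ)
    (h1 : ∀ x ∈ tsupport ψ, ξ x = 1) (h2 : ∀ x ∈ tsupport ψ, fderiv ℝ ξ x = 0) :
    (∫ x, max (w x) 0 * (lap ψ x + cc u x * ψ x)) ^ 2 ≤
      (∫ x, w x ^ 2 * gd ξ ξ x) * ((∫ x, gd ψ ψ x) - ∫ x, cc u x * ψ x ^ 2) := by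
  have hT : T1 ψ := ⟨hψ.of_le (by norm_num), hψc⟩
  have hwc : Continuous w := hw.1.continuous
  have hmc : Continuous fun x => max (w x) 0 := hwc.max continuous_const
  have hPc : ∀ ε : ℝ, 0 < ε → Continuous fun x => pp ε (w x) := fun ε hε =>
    ((contDiff_pp (n := 1) hε).continuous).comp hwc
  have hcl : HasCompactSupport (lap ψ) :=
    HasCompactSupport.intro hψc fun x hx => b2_lap_zero hx
  -- the fixed factor
  set F : V ι → ℝ := fun x => lap ψ x + cc u x * ψ x with hF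
  have hFc : Continuous F :=
    (continuous_lap hψ).add ((continuous_cc hu.C1.continuous).mul hT.continuous)
  have hFs : HasCompactSupport F := hcl.add (hψc.mul_left (f := cc u))
  have hFi : Integrable F := integrable_cs hFc hFs
  set G : V ι → ℝ := gd ξ ξ with hG
  have hGc : Continuous G := continuous_gd hξ.1 hξ.1
  have hGs : HasCompactSupport G := hasCompactSupport_gd hξ.2
  have hGn : ∀ x, 0 ≤ G x := fun x => gd_self_nonneg ξ x
  have hHs : HasCompactSupport fun x => ξ x ^ 2 :=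
    hξ.2.comp_left (g := fun t : ℝ => t ^ 2) (by simp)
  have hHc : Continuous fun x => ξ x ^ 2 := hξ.continuous.pow 2
  -- the limit on the left
  have hL : Tendsto (fun ε : ℝ => ∫ x, pp ε (w x) * F x) (𝓝[>] 0)
      (𝓝 (∫ x, max (w x) 0 * F x)) := by
    rw [tendsto_iff_norm_sub_tendsto_zero]
    have hb : ∀ᶠ ε : ℝ in 𝓝[>] 0,
        ‖(∫ x, pp ε (w x) * F x) - ∫ x, max (w x) 0 * F x‖ ≤ ε / 2 * ∫ x, ‖F x‖ := by
      filter_upwards [self_mem_nhdsWithin] with ε hε
      have hε' : (0 : ℝ) < ε := hε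
      have k1 : Integrable fun x => pp ε (w x) * F x :=
        integrable_cs ((hPc ε hε').mul hFc) hFs.mul_left
      have k2 : Integrable fun x => max (w x) 0 * F x :=
        integrable_cs (hmc.mul hFc) hFs.mul_left
      rw [← integral_sub k1 k2, ← integral_const_mul]
      apply norm_integral_le_of_norm_le (hFi.norm.const_mul _)
      refine Eventually.of_forall fun x => ?_
      rw [← sub_mul, norm_mul]
      exact mul_le_mul_of_nonneg_right (pp_max hε' (w x)) (norm_nonneg _)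
    have hz : Tendsto (fun ε : ℝ => ε / 2 * ∫ x, ‖F x‖) (𝓝[>] 0) (𝓝 0) := by
      have hcont : Continuous fun ε : ℝ => ε / 2 * ∫ x, ‖F x‖ := by fun_prop
      have := (hcont.tendsto 0).mono_left (nhdsWithin_le_nhds (s := Ioi (0 : ℝ)))
      simpa using this
    exact squeeze_zero' (Eventually.of_forall fun ε => norm_nonneg _) hb hz
  -- the bound on the right
  have hR : ∀ ε : ℝ, 0 < ε →
      ((∫ x, pp ε (w x) ^ 2 * G x) + (1 + 3 * K ^ 2) * ε * ∫ x, pp ε (w x) * ξ x ^ 2) ≤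
      ((∫ x, (max (w x) 0) ^ 2 * G x) + ε * (∫ x, max (w x) 0 * G x) +
        ε ^ 2 / 4 * ∫ x, G x) + (1 + 3 * K ^ 2) * ε *
        ((∫ x, max (w x) 0 * ξ x ^ 2) + ε / 2 * ∫ x, ξ x ^ 2) := by
    intro ε hε
    have hle : ∀ x, pp ε (w x) ≤ max (w x) 0 + ε / 2 := by
      intro x
      have := (abs_le.mp (pp_max hε (w x))).2
      linarith
    have g1 : Integrable fun x => (max (w x) 0) ^ 2 * G x :=
      integrable_cs ((hmc.pow 2).mul hGc) hGs.mul_left
    have g2 : Integrable fun x => max (w x) 0 * G x :=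
      integrable_cs (hmc.mul hGc) hGs.mul_left
    have g3 : Integrable G := integrable_cs hGc hGs
    have g4 : Integrable fun x => max (w x) 0 * ξ x ^ 2 :=
      integrable_cs (hmc.mul hHc) hHs.mul_left
    have g5 : Integrable fun x => ξ x ^ 2 := integrable_cs hHc hHs
    apply add_le_add
    · have k0 : Integrable fun x => (max (w x) 0) ^ 2 * G x + ε * (max (w x) 0 * G x) :=
        g1.add (g2.const_mul _)
      have k1 : Integrable fun x => (max (w x) 0) ^ 2 * G x + ε * (max (w x) 0 * G x) +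
          ε ^ 2 / 4 * G x := k0.add (g3.const_mul _)
      rw [← integral_const_mul, ← integral_const_mul,
        ← integral_add g1 (g2.const_mul _), ← integral_add k0 (g3.const_mul _)]
      apply integral_mono _ k1
      · intro x
        simp only
        have k1 : pp ε (w x) ^ 2 ≤ (max (w x) 0 + ε / 2) ^ 2 :=
          pow_le_pow_left₀ (pp_nonneg _ _) (hle x) 2
        have k2 := mul_le_mul_of_nonneg_right k1 (hGn x)
        nlinarith [k2]
      · exact integrable_cs (((hPc ε hε).pow 2).mul hGc) hGs.mul_left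
    · apply mul_le_mul_of_nonneg_left _ (by positivity)
      rw [← integral_const_mul, ← integral_add g4 (g5.const_mul _)]
      apply integral_mono
      · exact integrable_cs ((hPc ε hε).mul hHc) hHs.mul_left
      · exact g4.add (g5.const_mul _)
      · intro x
        simp only
        have k2 := mul_le_mul_of_nonneg_right (hle x) (sq_nonneg (ξ x))
        nlinarith [k2]
  -- passage to the limit
  have hQ := b2_Q_nonneg hst hT
  have hlim : (∫ x, max (w x) 0 * F x) ^ 2 ≤ (∫ x, (max (w x) 0) ^ 2 * G x) * b2_Q u ψ := by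
    have hr : Tendsto (fun ε : ℝ => (((∫ x, (max (w x) 0) ^ 2 * G x) +
        ε * (∫ x, max (w x) 0 * G x) + ε ^ 2 / 4 * ∫ x, G x) + (1 + 3 * K ^ 2) * ε *
        ((∫ x, max (w x) 0 * ξ x ^ 2) + ε / 2 * ∫ x, ξ x ^ 2)) * b2_Q u ψ) (𝓝[>] 0)
        (𝓝 ((∫ x, (max (w x) 0) ^ 2 * G x) * b2_Q u ψ)) := by
      have hcont : Continuous (fun ε : ℝ => (((∫ x, (max (w x) 0) ^ 2 * G x) +
        ε * (∫ x, max (w x) 0 * G x) + ε ^ 2 / 4 * ∫ x, G x) + (1 + 3 * K ^ 2) * ε *
        ((∫ x, max (w x) 0 * ξ x ^ 2) + ε / 2 * ∫ x, ξ x ^ 2)) * b2_Q u ψ) := by fun_prop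
      have := (hcont.tendsto 0).mono_left (nhdsWithin_le_nhds (s := Ioi (0 : ℝ)))
      simpa using this
    refine le_of_tendsto_of_tendsto (hL.pow 2) hr ?_
    filter_upwards [self_mem_nhdsWithin] with ε hε
    exact (b2_eps hu hst hw hξ hψ hψc h1 hε).trans
      (mul_le_mul_of_nonneg_right (hR ε hε) hQ)
  have hfin : (∫ x, (max (w x) 0) ^ 2 * G x) ≤ ∫ x, w x ^ 2 * G x := by
    apply integral_mono
    · exact integrable_cs ((hmc.pow 2).mul hGc) hGs.mul_left
    · exact integrable_cs ((hwc.pow 2).mul hGc) hGs.mul_left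
    · intro x
      apply mul_le_mul_of_nonneg_right _ (hGn x)
      rcases le_total (w x) 0 with h | h
      · rw [max_eq_right h]
        nlinarith [sq_nonneg (w x)]
      · rw [max_eq_left h]
  exact hlim.trans (mul_le_mul_of_nonneg_right hfin hQ)

end Pool.Agent.Helper68.DG
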