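import Pool.Agent.Helper68.DG.Base

/-! Project DG (MP_800410_an), piece B3a: test functions for the strong maximum principle -/

open MeasureTheory Metric Set Filter Topology
open scoped ContDiff

namespace Pool.Agent.Helper68.DG

variable {ι : Type} [Fintype ι]

/-- Proof. Away from `t = 0` the function is locally a polynomial; at `0` it is `O(t ^ 2)`. -/
theorem hasDerivAt_pos_pow (k : ℕ) (hk : 1 ≤ k) (t : ℝ) :
    HasDerivAt (fun t : ℝ => max t 0 ^ (k + 1)) ((k + 1) * max t 0 ^ k) t := by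
  have hpow : ∀ t : ℝ, HasDerivAt (fun t : ℝ => t ^ (k + 1)) ((k + 1) * t ^ k) t := by
    intro t
    have h := hasDerivAt_pow (k + 1) t
    simpa using h
  rcases lt_trichotomy t 0 with h | h | h
  · have h1 : (fun t : ℝ => max t 0 ^ (k + 1)) =ᶠ[𝓝 t] fun _ => 0 := by
      filter_upwards [Iio_mem_nhds h] with y hy
      rw [max_eq_right (le_of_lt hy)]
      simp
    rw [max_eq_right h.le, zero_pow (by omega), mul_zero]
    exact (hasDerivAt_const t (0 : ℝ)).congr_of_eventuallyEq h1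
  · subst h
    have hR : HasDerivWithinAt (fun t : ℝ => max t 0 ^ (k + 1)) ((k + 1) * max (0 : ℝ) 0 ^ k)
        (Ici 0) 0 := by
      rw [max_self]
      refine (hpow 0).hasDerivWithinAt.congr (fun y hy => ?_) ?_
      · rw [max_eq_left hy]
      · simp
    have hL : HasDerivWithinAt (fun t : ℝ => max t 0 ^ (k + 1)) ((k + 1) * max (0 : ℝ) 0 ^ k)
        (Iic 0) 0 := by
      rw [max_self, zero_pow (by omega), mul_zero]
      refine (hasDerivWithinAt_const (0 : ℝ) (Iic 0) (0 : ℝ)).congr (fun y hy => ?_) ?_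
      · rw [max_eq_right hy]
        simp
      · simp
    have h := hL.union hR
    rw [Iic_union_Ici] at h
    exact hasDerivWithinAt_univ.1 h
  · have h1 : (fun t : ℝ => max t 0 ^ (k + 1)) =ᶠ[𝓝 t] fun t => t ^ (k + 1) := by
      filter_upwards [Ioi_mem_nhds h] with y hy
      rw [max_eq_left (le_of_lt hy)]
    rw [max_eq_left h.le]
    exact (hpow t).congr_of_eventuallyEq h1

theorem b3a_c1 (k : ℕ) (hk : 1 ≤ k) : ContDiff ℝ 1 (fun t : ℝ => max t 0 ^ (k + 1)) := by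
  rw [contDiff_one_iff_deriv]
  refine ⟨fun t => (hasDerivAt_pos_pow k hk t).differentiableAt, ?_⟩
  have h : deriv (fun t : ℝ => max t 0 ^ (k + 1)) = fun t => ((k : ℝ) + 1) * max t 0 ^ k := by
    funext t
    exact (hasDerivAt_pos_pow k hk t).deriv
  rw [h]
  fun_prop

theorem b3a_c2 : ContDiff ℝ 2 (fun t : ℝ => max t 0 ^ 4) := by
  have h := contDiff_succ_iff_deriv (𝕜 := ℝ) (n := 1) (f := fun t : ℝ => max t 0 ^ 4)
  have h2 : (1 : WithTop ℕ∞) + 1 = 2 := by norm_num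
  rw [h2] at h
  rw [h]
  refine ⟨fun t => (hasDerivAt_pos_pow 3 (by norm_num) t).differentiableAt, by simp, ?_⟩
  have h3 : deriv (fun t : ℝ => max t 0 ^ 4) = fun t => (((3 : ℕ) : ℝ) + 1) * max t 0 ^ 3 := by
    funext t
    exact (hasDerivAt_pos_pow 3 (by norm_num) t).deriv
  rw [h3]
  exact contDiff_const.mul (b3a_c1 2 (by norm_num))

/-- the inner function -/
noncomputable def b3a_g (x₀ : V ι) (r : ℝ) (x : V ι) : ℝ := 1 - ‖x - x₀‖ ^ 2 / r ^ 2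

theorem b3a_g_contDiff (x₀ : V ι) (r : ℝ) {n : WithTop ℕ∞} : ContDiff ℝ n (b3a_g x₀ r) := by
  unfold b3a_g
  apply ContDiff.sub contDiff_const
  apply ContDiff.div_const
  exact (contDiff_id.sub contDiff_const).norm_sq ℝ

theorem b3a_pd_g (x₀ : V ι) (r : ℝ) (i : ι) (x : V ι) :
    pd i (b3a_g x₀ r) x = -(2 * (x i - x₀ i) / r ^ 2) := by
  have h1 : HasFDerivAt (fun y : V ι => ‖y‖ ^ 2) (2 • (innerSL ℝ (x - x₀))) (x - x₀) :=
    (hasStrictFDerivAt_norm_sq (x - x₀)).hasFDerivAt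
  have h2 : HasFDerivAt (fun y : V ι => y - x₀) (ContinuousLinearMap.id ℝ (V ι)) x :=
    (hasFDerivAt_id x).sub_const x₀
  have h3 := ((h1.comp x h2).mul_const ((r ^ 2)⁻¹ : ℝ)).const_sub 1
  have h4 : (fun y : V ι => 1 - ((fun y : V ι => ‖y‖ ^ 2) ∘ fun y => y - x₀) y * (r ^ 2)⁻¹) =
      b3a_g x₀ r := by
    funext y
    simp [b3a_g, div_eq_mul_inv]
  have h5 : HasFDerivAt (b3a_g x₀ r) (-((r ^ 2)⁻¹ • (2 • (innerSL ℝ (x - x₀))).comp
      (ContinuousLinearMap.id ℝ (V ι)))) x := by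
    rw [← h4]; exact h3
  unfold pd
  rw [h5.fderiv]
  have h6 : inner ℝ x (be i) = x i := by rw [real_inner_comm, inner_be]
  have h7 : inner ℝ x₀ (be i) = x₀ i := by rw [real_inner_comm, inner_be]
  simp [h6, h7]
  ring

/-- the mollifier `r⁻ⁿ (1 - |x - x₀|² / r²)₊³` -/
noncomputable def Phi (x₀ : V ι) (r : ℝ) (x : V ι) : ℝ :=
  (r ^ Fintype.card ι)⁻¹ * max (1 - ‖x - x₀‖ ^ 2 / r ^ 2) 0 ^ 3

/-- `r⁻ⁿ (1 - |x - x₀|² / r²)₊⁴ / 8` -/
noncomputable def Psi (x₀ : V ι) (r : ℝ) (x : V ι) : ℝ :=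
  (r ^ Fintype.card ι)⁻¹ / 8 * max (1 - ‖x - x₀‖ ^ 2 / r ^ 2) 0 ^ 4

theorem Psi_contDiff (x₀ : V ι) {r : ℝ} (hr : 0 < r) : ContDiff ℝ 2 (Psi x₀ r) := by
  have h : ContDiff ℝ 2 (fun x => (r ^ Fintype.card ι)⁻¹ / 8 *
      ((fun t : ℝ => max t 0 ^ 4) ∘ (b3a_g x₀ r)) x) :=
    contDiff_const.mul (b3a_c2.comp (b3a_g_contDiff x₀ r))
  exact h

theorem Psi_compact (x₀ : V ι) {r : ℝ} (hr : 0 < r) : HasCompactSupport (Psi x₀ r) := by
  apply HasCompactSupport.intro (isCompact_closedBall x₀ r)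
  intro x hx
  have h1 : r < ‖x - x₀‖ := by
    rw [mem_closedBall, dist_eq_norm, not_le] at hx
    exact hx
  have h2 : 1 - ‖x - x₀‖ ^ 2 / r ^ 2 ≤ 0 := by
    rw [sub_nonpos, one_le_div (by positivity)]
    exact pow_le_pow_left₀ hr.le h1.le 2
  unfold Psi
  rw [max_eq_right h2]
  simp

/-- Proof. `max (..) 0 ≤ 1`. -/
theorem Psi_le (x₀ : V ι) {r : ℝ} (hr : 0 < r) (x : V ι) :
    0 ≤ Psi x₀ r x ∧ Psi x₀ r x ≤ Phi x₀ r x := by
  unfold Psi Phi
  have h0 : 0 ≤ max (1 - ‖x - x₀‖ ^ 2 / r ^ 2) 0 := le_max_right _ _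
  have h1 : max (1 - ‖x - x₀‖ ^ 2 / r ^ 2) 0 ≤ 1 := by
    apply max_le _ zero_le_one
    have : 0 ≤ ‖x - x₀‖ ^ 2 / r ^ 2 := by positivity
    linarith
  set m := max (1 - ‖x - x₀‖ ^ 2 / r ^ 2) 0
  have hc : 0 ≤ (r ^ Fintype.card ι)⁻¹ := by positivity
  refine ⟨by positivity, ?_⟩
  have h2 : m ^ 4 ≤ m ^ 3 := pow_le_pow_of_le_one h0 h1 (by norm_num)
  have h3 : 0 ≤ m ^ 3 := by positivity
  have h4 : (1 : ℝ) / 8 * m ^ 4 ≤ m ^ 3 := by linarith
  calc (r ^ Fintype.card ι)⁻¹ / 8 * m ^ 4 = (r ^ Fintype.card ι)⁻¹ * (1 / 8 * m ^ 4) := by ring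
    _ ≤ _ := mul_le_mul_of_nonneg_left h4 hc

/-- Proof. Put `s = ‖x - x₀‖ ^ 2 / r ^ 2`, `m = max (1 - s) 0`, `n = card ι`. One has
`pd i (Psi x₀ r) x = - r⁻ⁿ (x i - x₀ i) m ^ 3 / r ^ 2`,
`lap (Psi x₀ r) x = - (r⁻ⁿ / r ^ 2) (n m ^ 3 - 6 s m ^ 2)`, and the derivative of `r ↦ Phi x₀ r x` is
`- (r⁻ⁿ / r) (n m ^ 3 - 6 s m ^ 2)`. -/
theorem hasDerivAt_Phi (x₀ : V ι) {r : ℝ} (hr : 0 < r) (x : V ι) :
    HasDerivAt (fun r => Phi x₀ r x) (r * lap (Psi x₀ r) x) r := by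
  set n := Fintype.card ι with hn
  set C : ℝ := (r ^ n)⁻¹ with hC
  have hr0 : r ≠ 0 := hr.ne'
  have hgd : ∀ y, DifferentiableAt ℝ (b3a_g x₀ r) y := fun y =>
    ((b3a_g_contDiff x₀ r (n := 1)).differentiable one_ne_zero) y
  -- first derivatives
  have hpd : ∀ i, pd i (Psi x₀ r) = fun y => (-(C / r ^ 2)) *
      ((y i - x₀ i) * max (b3a_g x₀ r y) 0 ^ 3) := by
    intro i
    funext y
    have h1 : Psi x₀ r = fun z => C / 8 * (fun w => (fun t : ℝ => max t 0 ^ 4) (b3a_g x₀ r w)) z :=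
      rfl
    have h2 : DifferentiableAt ℝ (fun w => (fun t : ℝ => max t 0 ^ 4) (b3a_g x₀ r w)) y := by
      have := (hasDerivAt_pos_pow 3 (by norm_num) (b3a_g x₀ r y)).differentiableAt
      exact DifferentiableAt.comp (g := fun t : ℝ => max t 0 ^ 4) y this (hgd y)
    rw [h1, pd_const_mul _ h2]
    have h3 := pd_comp (g := fun t : ℝ => max t 0 ^ 4) (u := b3a_g x₀ r) (x := y)
      (hasDerivAt_pos_pow 3 (by norm_num) (b3a_g x₀ r y)).differentiableAt (hgd y) i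
    rw [h3, (hasDerivAt_pos_pow 3 (by norm_num) (b3a_g x₀ r y)).deriv, b3a_pd_g]
    push_cast
    ring
  have hco : ∀ i (y : V ι), pd i (fun z : V ι => z i - x₀ i) y = 1 := by
    intro i y
    have h1 : HasFDerivAt (fun z : V ι => z i - x₀ i)
        (EuclideanSpace.proj i : V ι →L[ℝ] ℝ) y :=
      ((EuclideanSpace.proj i : V ι →L[ℝ] ℝ).hasFDerivAt (x := y)).sub_const _
    unfold pd
    rw [h1.fderiv]
    classical
    simp [be]
  have hpd2 : ∀ i, pd i (pd i (Psi x₀ r)) x = (-(C / r ^ 2)) * (max (b3a_g x₀ r x) 0 ^ 3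
      - 6 * (x i - x₀ i) ^ 2 / r ^ 2 * max (b3a_g x₀ r x) 0 ^ 2) := by
    intro i
    rw [hpd i]
    have h2 : DifferentiableAt ℝ (fun w => (fun t : ℝ => max t 0 ^ 3) (b3a_g x₀ r w)) x := by
      have := (hasDerivAt_pos_pow 2 (by norm_num) (b3a_g x₀ r x)).differentiableAt
      exact DifferentiableAt.comp (g := fun t : ℝ => max t 0 ^ 3) x this (hgd x)
    have h4 : DifferentiableAt ℝ (fun z : V ι => z i - x₀ i) x := by
      have := (EuclideanSpace.proj i : V ι →L[ℝ] ℝ).differentiableAt (x := x)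
      exact this.sub_const _
    have h5 := pd_mul h4 h2 i
    have h6 := pd_const_mul (-(C / r ^ 2)) (h4.mul h2) i
    have h7 : pd i (fun y => -(C / r ^ 2) * ((fun z : V ι => z i - x₀ i) *
        (fun w => (fun t : ℝ => max t 0 ^ 3) (b3a_g x₀ r w))) y) x =
        pd i (fun y => (-(C / r ^ 2)) * ((y i - x₀ i) * max (b3a_g x₀ r y) 0 ^ 3)) x := rfl
    rw [← h7, h6]
    have h8 : pd i ((fun z : V ι => z i - x₀ i) *
        (fun w => (fun t : ℝ => max t 0 ^ 3) (b3a_g x₀ r w))) x =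
        pd i (fun y => (fun z : V ι => z i - x₀ i) y *
          (fun w => (fun t : ℝ => max t 0 ^ 3) (b3a_g x₀ r w)) y) x := rfl
    rw [h8, h5, hco]
    have h3 := pd_comp (g := fun t : ℝ => max t 0 ^ 3) (u := b3a_g x₀ r) (x := x)
      (hasDerivAt_pos_pow 2 (by norm_num) (b3a_g x₀ r x)).differentiableAt (hgd x) i
    rw [h3, (hasDerivAt_pos_pow 2 (by norm_num) (b3a_g x₀ r x)).deriv, b3a_pd_g]
    push_cast
    ring
  have hsum : ∑ i, (x i - x₀ i) ^ 2 = ‖x - x₀‖ ^ 2 := by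
    rw [EuclideanSpace.norm_sq_eq]
    apply Finset.sum_congr rfl
    intro i _
    simp
  have hlap : lap (Psi x₀ r) x = (-(C / r ^ 2)) * ((n : ℝ) * max (b3a_g x₀ r x) 0 ^ 3
      - 6 * ‖x - x₀‖ ^ 2 / r ^ 2 * max (b3a_g x₀ r x) 0 ^ 2) := by
    unfold lap
    rw [Finset.sum_congr rfl fun i _ => hpd2 i, ← Finset.mul_sum, Finset.sum_sub_distrib,
      Finset.sum_const, ← Finset.sum_mul, ← hsum, Finset.card_univ, nsmul_eq_mul]
    congr 3
    rw [Finset.mul_sum, Finset.sum_div]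
  rw [hlap]
  -- the derivative in r
  have e1 : HasDerivAt (fun r : ℝ => 1 - ‖x - x₀‖ ^ 2 / r ^ 2)
      (2 * ‖x - x₀‖ ^ 2 / r ^ 3) r := by
    have h := ((hasDerivAt_const r (‖x - x₀‖ ^ 2)).div (hasDerivAt_pow 2 r)
      (pow_ne_zero 2 hr0)).const_sub 1
    refine h.congr_deriv ?_
    field_simp
    simp
    ring
  have e2 := (hasDerivAt_pos_pow 2 (by norm_num) (1 - ‖x - x₀‖ ^ 2 / r ^ 2)).comp r e1
  have e3 : HasDerivAt (fun r : ℝ => (r ^ n)⁻¹) (-(n * r ^ (n - 1)) / (r ^ n) ^ 2) r :=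
    (hasDerivAt_pow n r).inv (pow_ne_zero n hr0)
  have e4 := e3.mul e2
  have e5 : (fun r => Phi x₀ r x) = (fun r : ℝ => (r ^ n)⁻¹) *
      ((fun t : ℝ => max t 0 ^ (2 + 1)) ∘ fun r : ℝ => 1 - ‖x - x₀‖ ^ 2 / r ^ 2) := by
    funext y
    rfl
  rw [e5]
  refine e4.congr_deriv ?_
  have e6 : b3a_g x₀ r x = 1 - ‖x - x₀‖ ^ 2 / r ^ 2 := rfl
  rw [e6]
  set m := max (1 - ‖x - x₀‖ ^ 2 / r ^ 2) 0 with hm
  have e7 : -(n * r ^ (n - 1)) / (r ^ n) ^ 2 = -(n * C / r) := by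
    rw [hC]
    rcases Nat.eq_zero_or_pos n with h | h
    · rw [h]; simp
    · obtain ⟨k, hk⟩ : ∃ k, n = k + 1 := ⟨n - 1, by omega⟩
      rw [hk]
      simp only [Nat.add_sub_cancel]
      field_simp
      ring
  simp only [Function.comp_apply]
  rw [e7, ← hm, ← hC]
  push_cast
  generalize C = C'
  field_simp
  ring

end Pool.Agent.Helper68.DG
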