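import Pool.Agent.Helper68.DG.Base
import Pool.Agent.Helper68.DG.B3a

/-! Project DG (MP_800410_an), piece B3b: the strong maximum principle -/

open MeasureTheory Metric Set Filter Topology
open scoped ContDiff

namespace Pool.Agent.Helper68.DG

variable {ι : Type} [Fintype ι]

theorem b3b_Phi_nonneg (x₀ : V ι) {r : ℝ} (hr : 0 < r) (x : V ι) : 0 ≤ Phi x₀ r x := by
  unfold Phi
  positivity

theorem b3b_Phi_zero (x₀ : V ι) {r : ℝ} (hr : 0 < r) {x : V ι} (hx : r ≤ ‖x - x₀‖) :
    max (1 - ‖x - x₀‖ ^ 2 / r ^ 2) 0 = 0 := by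
  have : 1 - ‖x - x₀‖ ^ 2 / r ^ 2 ≤ 0 := by
    rw [sub_nonpos, one_le_div (by positivity)]
    gcongr
  exact max_eq_right this

theorem b3b_Phi_le (x₀ : V ι) {r : ℝ} (hr : 0 < r) (x : V ι) :
    Phi x₀ r x ≤ (r ^ Fintype.card ι)⁻¹ := by
  unfold Phi
  have h0 : 0 ≤ ‖x - x₀‖ ^ 2 / r ^ 2 := by positivity
  have h1 : max (1 - ‖x - x₀‖ ^ 2 / r ^ 2) 0 ≤ 1 := max_le (by linarith) zero_le_one
  have h2 : max (1 - ‖x - x₀‖ ^ 2 / r ^ 2) 0 ^ 3 ≤ 1 := pow_le_one₀ (le_max_right _ _) h1
  calc _ ≤ (r ^ Fintype.card ι)⁻¹ * 1 := by gcongr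
    _ = _ := mul_one _

theorem b3b_Phi_cont (x₀ : V ι) (r : ℝ) : Continuous (Phi x₀ r) := by
  unfold Phi
  fun_prop

theorem b3b_Phi_cs (x₀ : V ι) {r : ℝ} (hr : 0 < r) : HasCompactSupport (Phi x₀ r) := by
  apply HasCompactSupport.of_support_subset_isCompact (isCompact_closedBall x₀ r)
  intro x hx
  rw [Function.mem_support] at hx
  rw [mem_closedBall, dist_eq_norm]
  by_contra hlt
  apply hx
  unfold Phi
  rw [b3b_Phi_zero x₀ hr (not_le.1 hlt).le]
  simp

theorem b3b_deriv (x₀ : V ι) {r : ℝ} (hr : 0 < r) (x : V ι) :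
    r * lap (Psi x₀ r) x =
      -(Fintype.card ι * (r ^ (Fintype.card ι + 1))⁻¹) *
        max (1 - ‖x - x₀‖ ^ 2 / r ^ 2) 0 ^ 3 + (r ^ Fintype.card ι)⁻¹ *
        (3 * max (1 - ‖x - x₀‖ ^ 2 / r ^ 2) 0 ^ 2 * (‖x - x₀‖ ^ 2 * (2 / r ^ 3))) := by
  refine (hasDerivAt_Phi x₀ hr x).unique ?_
  unfold Phi
  set D := ‖x - x₀‖ ^ 2 with hD
  set n := Fintype.card ι with hn
  have hr0 : r ≠ 0 := hr.ne'
  have h1 : HasDerivAt (fun r : ℝ => (r ^ n)⁻¹) (-(n * (r ^ (n + 1))⁻¹)) r := by
    have h := (hasDerivAt_pow n r).inv (pow_ne_zero n hr0)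
    refine h.congr_deriv ?_
    rcases n with _ | n
    · simp
    · rw [Nat.add_sub_cancel]
      field_simp
      ring
  have h2 : HasDerivAt (fun r : ℝ => 1 - D / r ^ 2) (D * (2 / r ^ 3)) r := by
    have h := ((hasDerivAt_pow 2 r).inv (pow_ne_zero 2 hr0)).const_mul D
    have h' := h.const_sub 1
    refine (h'.congr_deriv ?_)
    simp only [Nat.add_one_sub_one, pow_one, Nat.cast_ofNat]
    field_simp
  have h3 := (hasDerivAt_pos_pow 2 (by norm_num) (1 - D / r ^ 2))
  have h4 : HasDerivAt (fun r : ℝ => max (1 - D / r ^ 2) 0 ^ 3)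
      (3 * max (1 - D / r ^ 2) 0 ^ 2 * (D * (2 / r ^ 3))) r := by
    have h := h3.comp r h2
    refine h.congr_deriv ?_
    push_cast
    ring
  exact h1.mul h4

theorem b3b_bound (x₀ : V ι) {a b r : ℝ} (ha : 0 < a) (har : a ≤ r) (hrb : r ≤ b) (x : V ι) :
    |r * lap (Psi x₀ r) x| ≤ (closedBall x₀ b).indicator
      (fun _ => (Fintype.card ι + 6) * (a ^ (Fintype.card ι + 1))⁻¹) x := by
  have hr : 0 < r := ha.trans_le har
  rw [b3b_deriv x₀ hr x]
  by_cases hx : r ≤ ‖x - x₀‖
  · rw [b3b_Phi_zero x₀ hr hx]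
    simp only [ne_eq, OfNat.ofNat_ne_zero, not_false_eq_true, zero_pow, mul_zero, zero_mul,
      add_zero, abs_zero]
    exact indicator_nonneg (fun _ _ => by positivity) _
  · push Not at hx
    rw [indicator_of_mem (by rw [mem_closedBall, dist_eq_norm]; linarith)]
    set n := Fintype.card ι with hn
    have h0 : 0 ≤ ‖x - x₀‖ ^ 2 / r ^ 2 := by positivity
    set m := max (1 - ‖x - x₀‖ ^ 2 / r ^ 2) 0 with hm
    have hm0 : 0 ≤ m := le_max_right _ _
    have hm1 : m ≤ 1 := max_le (by linarith) zero_le_one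
    have hm2 : m ^ 2 ≤ 1 := pow_le_one₀ hm0 hm1
    have hm3 : m ^ 3 ≤ 1 := pow_le_one₀ hm0 hm1
    have hD : ‖x - x₀‖ ^ 2 ≤ r ^ 2 := by
      have := norm_nonneg (x - x₀)
      gcongr
    have hc : (r ^ (n + 1))⁻¹ ≤ (a ^ (n + 1))⁻¹ := by
      gcongr
    have e1 : |-(n * (r ^ (n + 1))⁻¹) * m ^ 3| ≤ n * (a ^ (n + 1))⁻¹ := by
      rw [abs_mul, abs_neg, abs_of_nonneg (by positivity), abs_of_nonneg (by positivity)]
      calc n * (r ^ (n + 1))⁻¹ * m ^ 3 ≤ n * (a ^ (n + 1))⁻¹ * 1 := by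
            gcongr
        _ = _ := mul_one _
    have e2 : |(r ^ n)⁻¹ * (3 * m ^ 2 * (‖x - x₀‖ ^ 2 * (2 / r ^ 3)))| ≤
        6 * (a ^ (n + 1))⁻¹ := by
      rw [abs_of_nonneg (by positivity)]
      calc (r ^ n)⁻¹ * (3 * m ^ 2 * (‖x - x₀‖ ^ 2 * (2 / r ^ 3)))
          ≤ (r ^ n)⁻¹ * (3 * 1 * (r ^ 2 * (2 / r ^ 3))) := by
            gcongr
        _ = 6 * (r ^ (n + 1))⁻¹ := by
            have : r ≠ 0 := hr.ne'
            field_simp
            ring
        _ ≤ _ := by gcongr
    refine (abs_add_le _ _).trans ?_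
    linarith

theorem b3b_int {h : V ι → ℝ} (hh : Continuous h) (x₀ : V ι) {r : ℝ} (hr : 0 < r) :
    Integrable (fun x => h x * Phi x₀ r x) :=
  integrable_cs (hh.mul (b3b_Phi_cont x₀ r)) (b3b_Phi_cs x₀ hr).mul_left

theorem b3b_hasDeriv {h : V ι → ℝ} (hh : Continuous h) (x₀ : V ι) {r : ℝ} (hr : 0 < r) :
    HasDerivAt (fun r => ∫ x, h x * Phi x₀ r x)
      (∫ x, h x * (r * lap (Psi x₀ r) x)) r := by
  have hs : Icc (r / 2) (r + 1) ∈ 𝓝 r := Icc_mem_nhds (by linarith) (by linarith)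
  have hlap : Continuous (lap (Psi x₀ r)) := continuous_lap (Psi_contDiff x₀ hr)
  refine (hasDerivAt_integral_of_dominated_loc_of_deriv_le
    (F := fun r x => h x * Phi x₀ r x) (F' := fun r x => h x * (r * lap (Psi x₀ r) x))
    (bound := (closedBall x₀ (r + 1)).indicator (fun x => |h x| *
      ((Fintype.card ι + 6) * ((r / 2) ^ (Fintype.card ι + 1))⁻¹)))
    hs ?_ ?_ ?_ ?_ ?_ ?_).2
  · filter_upwards with s
    exact (hh.mul (b3b_Phi_cont x₀ s)).aestronglyMeasurable
  · exact b3b_int hh x₀ hr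
  · exact (hh.mul (continuous_const.mul hlap)).aestronglyMeasurable
  · filter_upwards with x s hs
    have h1 := b3b_bound x₀ (half_pos hr) hs.1 hs.2 x
    rw [Real.norm_eq_abs, abs_mul]
    by_cases hx : x ∈ closedBall x₀ (r + 1)
    · rw [indicator_of_mem hx] at h1 ⊢
      gcongr
    · rw [indicator_of_notMem hx] at h1 ⊢
      have : |s * lap (Psi x₀ s) x| = 0 := le_antisymm h1 (abs_nonneg _)
      rw [this, mul_zero]
  · apply IntegrableOn.integrable_indicator _ measurableSet_closedBall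
    exact (hh.abs.mul continuous_const).continuousOn.integrableOn_compact
      (isCompact_closedBall x₀ (r + 1))
  · filter_upwards with x s hs
    exact (hasDerivAt_Phi x₀ ((half_pos hr).trans_le hs.1) x).const_mul (h x)

theorem b3b_small {h : V ι → ℝ} (hh : Continuous h) (h0 : ∀ x, 0 ≤ h x) {x₀ : V ι} {r ε : ℝ}
    (hr : 0 < r) (hε : ∀ x ∈ closedBall x₀ r, h x ≤ ε) :
    ∫ x, h x * Phi x₀ r x ≤ ε * (volume (ball (0 : V ι) 1)).toReal := by
  set n := Fintype.card ι with hn
  have hε0 : 0 ≤ ε := (h0 x₀).trans (hε x₀ (mem_closedBall_self hr.le))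
  have h1 : ∀ x, h x * Phi x₀ r x ≤ (closedBall x₀ r).indicator
      (fun _ => ε * (r ^ n)⁻¹) x := by
    intro x
    by_cases hx : x ∈ closedBall x₀ r
    · rw [indicator_of_mem hx]
      exact mul_le_mul (hε x hx) (b3b_Phi_le x₀ hr x) (b3b_Phi_nonneg x₀ hr x) hε0
    · rw [indicator_of_notMem hx]
      rw [mem_closedBall, dist_eq_norm, not_le] at hx
      unfold Phi
      rw [b3b_Phi_zero x₀ hr hx.le]
      simp
  have h2 : Integrable ((closedBall x₀ r).indicator (fun _ : V ι => ε * (r ^ n)⁻¹)) := by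
    apply IntegrableOn.integrable_indicator _ measurableSet_closedBall
    exact continuous_const.continuousOn.integrableOn_compact (isCompact_closedBall x₀ r)
  refine (integral_mono (b3b_int hh x₀ hr) h2 h1).trans ?_
  rw [integral_indicator measurableSet_closedBall, setIntegral_const, smul_eq_mul,
    measureReal_def, Measure.addHaar_closedBall _ _ hr.le, ENNReal.toReal_mul,
    ENNReal.toReal_ofReal (by positivity), finrank_euclideanSpace]
  have hrn : r ^ n ≠ 0 := pow_ne_zero n hr.ne'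
  apply le_of_eq
  rw [← hn]
  field_simp

/-- Proof. For `r > 0` let `I r = ∫ h x * Phi x₀ r x`. Substituting `x = x₀ + r • y`,
`I r = ∫ h (x₀ + r • y) * max (1 - ‖y‖ ^ 2) 0 ^ 3`, so `I r → h x₀ * const = 0` for `r → 0+` (`h` is
continuous; dominated convergence). By `hasDerivAt_Phi`, differentiating under the integral sign
(`hasDerivAt_integral_of_dominated_loc_of_deriv_le`; for `r` in a compact subinterval of `(0, ∞)` all
functions are bounded and supported in a fixed ball)
`I' r = r ∫ h * lap (Psi x₀ r) = - r ∫ c * h * Psi x₀ r ≤ r K ∫ h * Phi x₀ r = r K I r`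
(`0 ≤ Psi ≤ Phi`, `0 ≤ h`). So `I r * exp (- K r ^ 2 / 2)` is nonincreasing on `(0, ∞)` with limit `0`
at `0`; so `I r ≤ 0`, and as `h * Phi ≥ 0` is continuous, `h = 0` on the ball of radius `r` about
`x₀`, for every `r`. -/
theorem smp {h c : V ι → ℝ} {K : ℝ} (hh : Continuous h) (h0 : ∀ x, 0 ≤ h x) (hc : Continuous c)
    (hK : ∀ x, |c x| ≤ K)
    (hweak : ∀ ψ : V ι → ℝ, ContDiff ℝ 2 ψ → HasCompactSupport ψ →
      ∫ x, h x * (lap ψ x + c x * ψ x) = 0)
    {x₀ : V ι} (hx₀ : h x₀ = 0) (x : V ι) : h x = 0 := by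
  set I : ℝ → ℝ := fun r => ∫ x, h x * Phi x₀ r x with hI
  have hI0 : ∀ r, 0 < r → 0 ≤ I r := fun r hr =>
    integral_nonneg fun x => mul_nonneg (h0 x) (b3b_Phi_nonneg x₀ hr x)
  have hder : ∀ r, 0 < r → HasDerivAt I (∫ x, h x * (r * lap (Psi x₀ r) x)) r :=
    fun r hr => b3b_hasDeriv hh x₀ hr
  have hle : ∀ r, 0 < r → ∫ x, h x * (r * lap (Psi x₀ r) x) ≤ r * K * I r := by
    intro r hr
    have hψ := Psi_contDiff x₀ hr
    have hψc := Psi_compact x₀ hr
    have hw := hweak _ hψ hψc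
    have i1 : Integrable (fun x => h x * lap (Psi x₀ r) x) := by
      apply integrable_cs (hh.mul (continuous_lap hψ))
      apply HasCompactSupport.mul_left
      unfold lap
      have hs : ∀ s : Finset ι, HasCompactSupport
          (fun x => ∑ i ∈ s, pd i (pd i (Psi x₀ r)) x) := by
        intro s
        classical
        induction s using Finset.induction_on with
        | empty =>
          simp only [Finset.sum_empty]
          exact HasCompactSupport.zero
        | insert a s ha ih =>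
          simp only [Finset.sum_insert ha]
          exact HasCompactSupport.add
            (hasCompactSupport_pd (hasCompactSupport_pd hψc a) a) ih
      exact hs Finset.univ
    have i2 : Integrable (fun x => h x * (c x * Psi x₀ r x)) :=
      integrable_cs (hh.mul (hc.mul hψ.continuous)) (hψc.mul_left.mul_left)
    have e1 : ∫ x, h x * lap (Psi x₀ r) x = - ∫ x, h x * (c x * Psi x₀ r x) := by
      simp only [mul_add] at hw
      rw [integral_add i1 i2] at hw
      linarith
    have e2 : ∫ x, h x * (r * lap (Psi x₀ r) x) = r * ∫ x, h x * lap (Psi x₀ r) x := by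
      rw [← integral_const_mul]
      congr 1
      funext x
      ring
    have e3 : K * I r = ∫ x, K * (h x * Phi x₀ r x) := (integral_const_mul _ _).symm
    rw [e2, e1, ← integral_neg, mul_assoc, e3]
    apply mul_le_mul_of_nonneg_left _ hr.le
    apply integral_mono i2.neg ((b3b_int hh x₀ hr).const_mul K)
    intro x
    have hp := Psi_le x₀ hr x
    have hcx := hK x
    have hcx' : - c x ≤ K := (neg_le_abs _).trans hcx
    have hK0 : 0 ≤ K := (abs_nonneg _).trans hcx
    calc -(h x * (c x * Psi x₀ r x)) = h x * Psi x₀ r x * (- c x) := by ring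
      _ ≤ h x * Psi x₀ r x * K :=
          mul_le_mul_of_nonneg_left hcx' (mul_nonneg (h0 x) hp.1)
      _ ≤ h x * Phi x₀ r x * K :=
          mul_le_mul_of_nonneg_right (mul_le_mul_of_nonneg_left hp.2 (h0 x)) hK0
      _ = K * (h x * Phi x₀ r x) := by ring
  have hK0 : 0 ≤ K := (abs_nonneg _).trans (hK x₀)
  set G : ℝ → ℝ := fun r => I r * Real.exp (-(K * r ^ 2 / 2)) with hG
  have hGder : ∀ r, 0 < r → HasDerivAt G
      ((∫ x, h x * (r * lap (Psi x₀ r) x)) * Real.exp (-(K * r ^ 2 / 2)) +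
        I r * (Real.exp (-(K * r ^ 2 / 2)) * (-(K * r)))) r := by
    intro r hr
    apply (hder r hr).mul
    apply HasDerivAt.exp
    have h1 := ((hasDerivAt_pow 2 r).const_mul K).div_const 2
    refine h1.neg.congr_deriv ?_
    simp only [Nat.add_one_sub_one, pow_one, Nat.cast_ofNat]
    ring
  have hanti : AntitoneOn G (Ioi 0) := by
    apply antitoneOn_of_deriv_nonpos (convex_Ioi 0)
    · exact fun r hr => (hGder r hr).continuousAt.continuousWithinAt
    · rw [interior_Ioi]
      exact fun r hr => (hGder r hr).differentiableAt.differentiableWithinAt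
    · rw [interior_Ioi]
      intro r hr
      rw [(hGder r hr).deriv]
      have h1 := hle r hr
      have h2 := Real.exp_pos (-(K * r ^ 2 / 2))
      nlinarith
  have hzero : ∀ r, 0 < r → I r = 0 := by
    intro r hr
    have hGr : G r ≤ 0 := by
      set W := (volume (ball (0 : V ι) 1)).toReal with hW
      have hW0 : 0 ≤ W := ENNReal.toReal_nonneg
      apply le_of_forall_pos_le_add
      intro ε hε
      have hε' : 0 < ε / (W + 1) := by positivity
      have hcont := Metric.continuousAt_iff.1 (hh.continuousAt (x := x₀)) _ hε'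
      obtain ⟨δ, hδ, hδ'⟩ := hcont
      set s := min (δ / 2) r with hs
      have hs0 : 0 < s := lt_min (half_pos hδ) hr
      have hsr : s ≤ r := min_le_right _ _
      have h1 : G r ≤ G s := hanti hs0 hr hsr
      have h2 : I s ≤ ε / (W + 1) * W := by
        apply b3b_small hh h0 hs0
        intro y hy
        have hy' : dist y x₀ < δ := by
          have := mem_closedBall.1 hy
          have h3 : s ≤ δ / 2 := min_le_left _ _
          linarith
        have h4 := hδ' hy'
        rw [hx₀, Real.dist_eq, sub_zero, abs_of_nonneg (h0 y)] at h4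
        exact h4.le
      have h3 : G s ≤ I s := by
        have he : Real.exp (-(K * s ^ 2 / 2)) ≤ 1 := by
          rw [Real.exp_le_one_iff]
          have : 0 ≤ K * s ^ 2 / 2 := by positivity
          linarith
        calc G s ≤ I s * 1 := mul_le_mul_of_nonneg_left he (hI0 s hs0)
          _ = I s := mul_one _
      have h5 : ε / (W + 1) * W ≤ ε := by
        rw [div_mul_eq_mul_div, div_le_iff₀ (by positivity)]
        nlinarith
      linarith
    have hpos := Real.exp_pos (-(K * r ^ 2 / 2))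
    have h1 := hI0 r hr
    by_contra hne
    have h2 : 0 < I r := lt_of_le_of_ne h1 (Ne.symm hne)
    have h3 : 0 < G r := mul_pos h2 hpos
    linarith
  set r := ‖x - x₀‖ + 1 with hr
  have hr0 : 0 < r := by positivity
  have hz := hzero r hr0
  have hcont : Continuous (fun x => h x * Phi x₀ r x) := hh.mul (b3b_Phi_cont x₀ r)
  have h1 : (fun x => h x * Phi x₀ r x) = 0 := by
    have h2 := (integral_eq_zero_iff_of_nonneg
      (fun x => mul_nonneg (h0 x) (b3b_Phi_nonneg x₀ hr0 x)) (b3b_int hh x₀ hr0)).1 hz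
    exact (hcont.ae_eq_iff_eq volume continuous_const).1 h2
  have h2 : h x * Phi x₀ r x = 0 := congrFun h1 x
  have h3 : 0 < Phi x₀ r x := by
    unfold Phi
    have h4 : ‖x - x₀‖ ^ 2 / r ^ 2 < 1 := by
      rw [div_lt_one (by positivity)]
      have := norm_nonneg (x - x₀)
      have h5 : ‖x - x₀‖ < r := by rw [hr]; linarith
      gcongr
    have h5 : 0 < max (1 - ‖x - x₀‖ ^ 2 / r ^ 2) 0 := lt_max_of_lt_left (by linarith)
    positivity
  exact (mul_eq_zero.1 h2).resolve_right h3.ne'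

end Pool.Agent.Helper68.DG
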