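import Pool.Agent.Helper68.DG.Base
import Pool.Agent.Helper68.DG.A3
import Pool.Agent.Helper68.DG.B2
import Pool.Agent.Helper68.DG.B3b

/-! Project DG (MP_800410_an), piece B4: signed derivatives -/

open MeasureTheory Metric Set Filter Topology
open scoped ContDiff

namespace Pool.Agent.Helper68.DG

variable {ι : Type} [Fintype ι]

/-- the positive part of a directional derivative solves the linearised equation -/
theorem b4_weak {K : ℝ} {u : V ι → ℝ} (hu : GS K u) (hst : Stab u)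
    (H : ∀ R ε : ℝ, 0 < ε → ∃ ξ : V ι → ℝ, T1 ξ ∧ (∀ x, ‖x‖ ≤ R → ξ x = 1) ∧
      ∫ x, ‖fderiv ℝ u x‖ ^ 2 * gd ξ ξ x ≤ ε) (b : V ι) (ψ : V ι → ℝ) (hψ : ContDiff ℝ 2 ψ)
    (hψc : HasCompactSupport ψ) :
    ∫ x, max (fderiv ℝ u x b) 0 * (lap ψ x + cc u x * ψ x) = 0 := by
  have hT : T1 ψ := ⟨hψ.of_le (by norm_num), hψc⟩
  set Q : ℝ := (∫ x, gd ψ ψ x) - ∫ x, cc u x * ψ x ^ 2 with hQ
  have hQ0 : 0 ≤ Q := by
    have := hst ψ hT
    rw [hQ]; linarith
  set A : ℝ := ∫ x, max (fderiv ℝ u x b) 0 * (lap ψ x + cc u x * ψ x) with hA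
  obtain ⟨R, hR⟩ := hψc.isCompact.isBounded.subset_closedBall (0 : V ι)
  have hR' : ∀ x ∈ tsupport ψ, ‖x‖ ≤ R := fun x hx => by simpa using hR hx
  have main : ∀ ε : ℝ, 0 < ε → A ^ 2 ≤ ‖b‖ ^ 2 * ε * Q := by
    intro ε hε
    obtain ⟨ξ, hξ, h1, hint⟩ := H (R + 1) ε hε
    have e1 : ∀ x ∈ tsupport ψ, ξ x = 1 := fun x hx => h1 x ((hR' x hx).trans (by linarith))
    have e2 : ∀ x ∈ tsupport ψ, fderiv ℝ ξ x = 0 := by
      intro x hx
      have hev : ξ =ᶠ[𝓝 x] fun _ => (1 : ℝ) := by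
        have hopen : {y : V ι | ‖y‖ < R + 1} ∈ 𝓝 x := by
          refine (isOpen_lt continuous_norm continuous_const).mem_nhds ?_
          have := hR' x hx
          show ‖x‖ < R + 1
          linarith
        filter_upwards [hopen] with y hy
        exact h1 y (le_of_lt hy)
      rw [hev.fderiv_eq]
      simp
    have hnm := null_min hu hst (hu.lin b) hξ hψ hψc e1 e2
    have hgc : Continuous (gd ξ ξ) := continuous_gd hξ.1 hξ.1
    have hgs : HasCompactSupport (gd ξ ξ) := hasCompactSupport_gd hξ.2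
    have hfc : Continuous (fun x => fderiv ℝ u x) := hu.C1.continuous_fderiv one_ne_zero
    have hmono : ∫ x, (fderiv ℝ u x b) ^ 2 * gd ξ ξ x ≤
        ‖b‖ ^ 2 * ∫ x, ‖fderiv ℝ u x‖ ^ 2 * gd ξ ξ x := by
      rw [← integral_const_mul]
      refine integral_mono ?_ ?_ fun x => ?_
      · exact integrable_cs (((hfc.clm_apply continuous_const).pow 2).mul hgc) hgs.mul_left
      · exact (integrable_cs ((hfc.norm.pow 2).mul hgc) hgs.mul_left).const_mul _
      · show (fderiv ℝ u x b) ^ 2 * gd ξ ξ x ≤ ‖b‖ ^ 2 * (‖fderiv ℝ u x‖ ^ 2 * gd ξ ξ x)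
        rw [← mul_assoc]
        refine mul_le_mul_of_nonneg_right ?_ (gd_self_nonneg ξ x)
        have h3 := (fderiv ℝ u x).le_opNorm b
        rw [Real.norm_eq_abs] at h3
        have h4 : (fderiv ℝ u x b) ^ 2 ≤ (‖fderiv ℝ u x‖ * ‖b‖) ^ 2 := by
          rw [← sq_abs]
          exact pow_le_pow_left₀ (abs_nonneg _) h3 2
        calc (fderiv ℝ u x b) ^ 2 ≤ (‖fderiv ℝ u x‖ * ‖b‖) ^ 2 := h4
          _ = ‖b‖ ^ 2 * ‖fderiv ℝ u x‖ ^ 2 := by ring
    refine hnm.trans ?_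
    refine mul_le_mul_of_nonneg_right ?_ hQ0
    exact hmono.trans (mul_le_mul_of_nonneg_left hint (by positivity))
  have hA2 : A ^ 2 ≤ 0 := by
    refine le_of_forall_pos_le_add fun δ hδ => ?_
    have hc : 0 < ‖b‖ ^ 2 * Q + 1 := by positivity
    have h := main (δ / (‖b‖ ^ 2 * Q + 1)) (by positivity)
    refine h.trans ?_
    rw [zero_add]
    have h5 : ‖b‖ ^ 2 * (δ / (‖b‖ ^ 2 * Q + 1)) * Q = δ * ((‖b‖ ^ 2 * Q) / (‖b‖ ^ 2 * Q + 1)) := by
      ring
    rw [h5]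
    refine mul_le_of_le_one_right hδ.le ?_
    rw [div_le_one hc]
    linarith
  have : A ^ 2 = 0 := le_antisymm hA2 (sq_nonneg _)
  exact pow_eq_zero_iff two_ne_zero |>.1 this

/-- a directional derivative is positive everywhere or nowhere -/
theorem b4_dich {K : ℝ} {u : V ι → ℝ} (hu : GS K u) (hst : Stab u)
    (H : ∀ R ε : ℝ, 0 < ε → ∃ ξ : V ι → ℝ, T1 ξ ∧ (∀ x, ‖x‖ ≤ R → ξ x = 1) ∧
      ∫ x, ‖fderiv ℝ u x‖ ^ 2 * gd ξ ξ x ≤ ε) (b : V ι) :
    (∀ x, 0 < fderiv ℝ u x b) ∨ ∀ x, fderiv ℝ u x b ≤ 0 := by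
  by_cases h : ∃ x₀, fderiv ℝ u x₀ b ≤ 0
  · right
    obtain ⟨x₀, hx₀⟩ := h
    have hfc : Continuous (fun x => fderiv ℝ u x) := hu.C1.continuous_fderiv one_ne_zero
    have hcc : ∀ x, |cc u x| ≤ 1 + 3 * K ^ 2 := by
      intro x
      have h1 := hu.bdd x
      have h2 : u x ^ 2 ≤ K ^ 2 := by
        rw [← sq_abs]
        exact pow_le_pow_left₀ (abs_nonneg _) h1 2
      unfold cc
      rw [abs_le]
      constructor
      · nlinarith [sq_nonneg (u x)]
      · nlinarith [sq_nonneg (u x), sq_nonneg K]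
    intro x
    have h3 := smp (h := fun x => max (fderiv ℝ u x b) 0) (c := cc u) (K := 1 + 3 * K ^ 2)
      ((hfc.clm_apply continuous_const).max continuous_const) (fun x => le_max_right _ _)
      (continuous_cc hu.C1.continuous) hcc (fun ψ h1 h2 => b4_weak hu hst H b ψ h1 h2)
      (x₀ := x₀) (max_eq_right hx₀) x
    have h4 : fderiv ℝ u x b ≤ max (fderiv ℝ u x b) 0 := le_max_left _ _
    have h5 : max (fderiv ℝ u x b) 0 = 0 := h3
    rwa [h5] at h4
  · left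
    push Not at h
    exact h

/-- Proof. Let `b : V ι` and `w x = fderiv ℝ u x b`, `Lin u w` (A3), `w ^ 2 ≤ ‖b‖ ^ 2 ‖fderiv u‖ ^ 2`.
Let `ψ` be `C²` with compact support in the ball of radius `R`. For `ε > 0` take `ξ` from the
hypothesis for `R + 1`; then `ξ = 1` and `fderiv ξ = 0` on `tsupport ψ`, and B2 gives
`(∫ max w 0 * (lap ψ + cc u ψ)) ^ 2 ≤ ‖b‖ ^ 2 ε * (∫ gd ψ ψ - ∫ cc u ψ ^ 2)`. So
`∫ max w 0 * (lap ψ + cc u ψ) = 0`. By B3b (`c = cc u`, `|cc u| ≤ 1 + 3 K ^ 2`) the function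
`max w 0` is positive everywhere (then `w > 0` everywhere) or zero everywhere, that is `w ≤ 0`. In the
second case apply the same to `- b` (derivative `- w`): `w < 0` everywhere or `- w ≤ 0`, so
`w = 0`. -/
theorem signed_of_cutoffs {K : ℝ} {u : V ι → ℝ} (hu : GS K u) (hst : Stab u)
    (H : ∀ R ε : ℝ, 0 < ε → ∃ ξ : V ι → ℝ, T1 ξ ∧ (∀ x, ‖x‖ ≤ R → ξ x = 1) ∧
      ∫ x, ‖fderiv ℝ u x‖ ^ 2 * gd ξ ξ x ≤ ε) : Signed u := by
  intro b
  rcases b4_dich hu hst H b with h | h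
  · exact Or.inl h
  · rcases b4_dich hu hst H (-b) with h' | h'
    · right; left
      intro x
      have := h' x
      rw [map_neg] at this
      linarith
    · right; right
      intro x
      have h1 := h' x
      rw [map_neg] at h1
      exact le_antisymm (h x) (by linarith)

end Pool.Agent.Helper68.DG
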