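import Pool.Agent.Helper68.DG.Base

/-! Project DG (MP_800410_an), piece A6a: dropping variables: the equation -/

open MeasureTheory Metric Set Filter Topology
open scoped ContDiff

namespace Pool.Agent.Helper68.DG

variable {ι : Type} [Fintype ι]

variable (p : ι → Prop) [DecidablePred p]

theorem emb_apply (y : V {i // p i}) (i : ι) : emb p y i = if h : p i then y ⟨i, h⟩ else 0 := rfl

theorem prj_apply (x : V ι) (i : {i // p i}) : prj p x i = x i.1 := rfl

/-- Proof. `‖emb p y‖ ^ 2 = ∑ i, (emb p y i) ^ 2` (`EuclideanSpace.norm_sq_eq`), and the sum over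
`i` with `p i` is the sum over the subtype. -/
theorem norm_emb (y : V {i // p i}) : ‖emb p y‖ = ‖y‖ := by
  rw [EuclideanSpace.norm_eq, EuclideanSpace.norm_eq]
  congr 1
  rw [← Fintype.sum_subtype_add_sum_subtype p (fun i => ‖emb p y i‖ ^ 2)]
  have h1 : ∀ i : {i // p i}, ‖emb p y i.1‖ ^ 2 = ‖y i‖ ^ 2 := by
    intro i
    rw [emb_apply, dif_pos i.2]
  have h2 : ∀ i : {i // ¬ p i}, ‖emb p y i.1‖ ^ 2 = 0 := by
    intro i
    rw [emb_apply, dif_neg i.2]
    simp
  rw [Finset.sum_congr rfl (fun i _ => h1 i), Finset.sum_congr rfl (fun i _ => h2 i)]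
  simp

/-- Proof. Coordinates (`be_apply`). -/
theorem emb_be (i : {i // p i}) : emb p (be i) = be i.1 := by
  classical
  ext j
  rw [emb_apply, be_apply]
  by_cases h : p j
  · rw [dif_pos h, be_apply]
    simp [Subtype.ext_iff]
  · rw [dif_neg h, if_neg]
    intro hj
    rw [hj] at h
    exact h i.2

/-- Proof. Coordinates. -/
theorem prj_emb (y : V {i // p i}) : prj p (emb p y) = y := by
  ext i
  rw [prj_apply, emb_apply, dif_pos i.2]

/-- Proof. `x - emb p (prj p x)` is a linear combination of the `be i` with `¬ p i`, so the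
derivative of `t ↦ u (emb p (prj p x) + t • (x - emb p (prj p x)))` vanishes
(`fderiv_apply_eq`). -/
theorem eq_emb_prj {u : V ι → ℝ} (hu : ContDiff ℝ 1 u) (h : ∀ i, ¬ p i → ∀ x, pd i u x = 0)
    (x : V ι) : u x = u (emb p (prj p x)) := by
  have hd : Differentiable ℝ u := hu.differentiable one_ne_zero
  have hz : ∀ z : V ι, fderiv ℝ u z (x - emb p (prj p x)) = 0 := by
    intro z
    rw [fderiv_apply_eq]
    apply Finset.sum_eq_zero
    intro i _
    by_cases hi : p i
    · have h0 : (x - emb p (prj p x)) i = 0 := by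
        rw [PiLp.sub_apply, emb_apply, dif_pos hi, prj_apply, sub_self]
      rw [h0, zero_mul]
    · rw [h i hi z, mul_zero]
  have hg : ∀ t : ℝ, HasDerivAt
      (fun t : ℝ => u (emb p (prj p x) + t • (x - emb p (prj p x)))) 0 t := by
    intro t
    have h1 : HasDerivAt (fun t : ℝ => emb p (prj p x) + t • (x - emb p (prj p x)))
        (x - emb p (prj p x)) t := by
      have h2 := ((hasDerivAt_id t).smul_const (x - emb p (prj p x))).const_add
        (emb p (prj p x))
      simpa using h2
    have h3 := ((hd (emb p (prj p x) + t • (x - emb p (prj p x)))).hasFDerivAt).comp_hasDerivAt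
      t h1
    rw [hz] at h3
    exact h3
  have hc := is_const_of_deriv_eq_zero (fun t => (hg t).differentiableAt)
    (fun t => (hg t).deriv) 1 0
  simpa using hc

/-- Proof. By `eq_emb_prj` applied to `pd j u` (`pd i (pd j u) = pd j (pd i u) = 0` for `¬ p i`,
`pd_comm`). -/
theorem eq_emb_prj_pd {u : V ι → ℝ} (hu : ContDiff ℝ 2 u) (h : ∀ i, ¬ p i → ∀ x, pd i u x = 0)
    (j : ι) (x : V ι) : pd j u x = pd j u (emb p (prj p x)) := by
  apply eq_emb_prj p (contDiff_pd_one hu j)
  intro i hi z
  rw [pd_comm hu]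
  have h0 : pd i u = fun _ => 0 := by
    funext w
    exact h i hi w
  rw [h0]
  unfold pd
  simp

/-- Proof. Chain rule and `emb_be`. -/
theorem pd_emb {u : V ι → ℝ} (hu : ContDiff ℝ 1 u) (i : {i // p i}) (y : V {i // p i}) :
    pd i (u ∘ emb p) y = pd i.1 u (emb p y) := by
  have hd : Differentiable ℝ u := hu.differentiable one_ne_zero
  have h1 := ((hd (emb p y)).hasFDerivAt.comp y (emb p).hasFDerivAt).fderiv
  unfold pd
  rw [h1, ContinuousLinearMap.comp_apply, emb_be]

theorem a6a_fderiv {u : V ι → ℝ} (hu : ContDiff ℝ 1 u) (y : V {i // p i}) :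
    fderiv ℝ (u ∘ emb p) y = (fderiv ℝ u (emb p y)).comp (emb p) := by
  have hd : Differentiable ℝ u := hu.differentiable one_ne_zero
  exact ((hd (emb p y)).hasFDerivAt.comp y (emb p).hasFDerivAt).fderiv

theorem a6a_fderiv2 {u : V ι → ℝ} (hu : ContDiff ℝ 2 u) (y a : V {i // p i}) :
    fderiv ℝ (fderiv ℝ (u ∘ emb p)) y a =
      (fderiv ℝ (fderiv ℝ u) (emb p y) (emb p a)).comp (emb p) := by
  have h0 : fderiv ℝ (u ∘ emb p) = fun y => (fderiv ℝ u (emb p y)).comp (emb p) := by
    funext z
    exact a6a_fderiv p (hu.of_le (by norm_num)) z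
  have hd : Differentiable ℝ (fderiv ℝ u) :=
    (hu.fderiv_right (m := 1) (by norm_num)).differentiable one_ne_zero
  have h1 : HasFDerivAt (fun y => fderiv ℝ u (emb p y))
      ((fderiv ℝ (fderiv ℝ u) (emb p y)).comp (emb p)) y :=
    (hd (emb p y)).hasFDerivAt.comp y (emb p).hasFDerivAt
  have h2 := (h1.clm_comp (hasFDerivAt_const (emb p) y)).fderiv
  rw [h0, h2]
  ext b
  simp

theorem a6a_norm_comp (L : V ι →L[ℝ] ℝ) : ‖L.comp (emb p)‖ ≤ ‖L‖ := by
  apply ContinuousLinearMap.opNorm_le_bound _ (norm_nonneg _)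
  intro b
  rw [ContinuousLinearMap.comp_apply]
  have h := L.le_opNorm (emb p b)
  rw [norm_emb] at h
  exact h

/-- Proof. The bounds: `fderiv ℝ (u ∘ emb p) y = (fderiv ℝ u (emb p y)).comp (emb p)` and
`‖emb p‖ ≤ 1`; similarly for the second derivative. The equation: by `pd_emb` (used twice)
`lap (u ∘ emb p) y` is the sum of `pd i (pd i u) (emb p y)` over `i` with `p i`; the other summands
of `lap u (emb p y)` vanish. -/
theorem GS.emb {K : ℝ} {u : V ι → ℝ} (hu : GS K u) (h : ∀ i, ¬ p i → ∀ x, pd i u x = 0) :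
    GS K (u ∘ emb p) := by
  have hC1 : ContDiff ℝ 1 u := hu.C1
  refine ⟨hu.smooth.comp (DG.emb p).contDiff, ?_, ?_, ?_, ?_, ?_⟩
  · intro y
    have h1 : lap (u ∘ DG.emb p) y = lap u (DG.emb p y) := by
      unfold lap
      rw [← Fintype.sum_subtype_add_sum_subtype p (fun i => pd i (pd i u) (DG.emb p y))]
      have h2 : ∀ i : {i // ¬ p i}, pd i.1 (pd i.1 u) (DG.emb p y) = 0 := by
        intro i
        have h0 : pd i.1 u = fun _ => 0 := by
          funext w
          exact h i.1 i.2 w
        rw [h0]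
        unfold pd
        simp
      rw [Finset.sum_congr rfl (fun i _ => h2 i), Finset.sum_const_zero, add_zero]
      apply Finset.sum_congr rfl
      intro i _
      have h3 : pd i (u ∘ DG.emb p) = (pd i.1 u) ∘ DG.emb p := by
        funext z
        exact pd_emb p hC1 i z
      rw [h3]
      exact pd_emb p (contDiff_pd_one hu.smooth i.1) i y
    rw [h1]
    exact hu.eqn (DG.emb p y)
  · intro y
    exact hu.bdd (DG.emb p y)
  · intro y
    rw [a6a_fderiv p hC1]
    exact (a6a_norm_comp p _).trans (hu.bdd1 _)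
  · intro x y
    rw [a6a_fderiv p hC1, a6a_fderiv p hC1, ← ContinuousLinearMap.sub_comp]
    refine (a6a_norm_comp p _).trans ((hu.lip1 _ _).trans (le_of_eq ?_))
    rw [← map_sub, norm_emb]
  · intro x y
    have hK := hu.K_nonneg
    apply ContinuousLinearMap.opNorm_le_bound _ (by positivity)
    intro a
    rw [sub_apply, a6a_fderiv2 p hu.smooth, a6a_fderiv2 p hu.smooth,
      ← ContinuousLinearMap.sub_comp, ← sub_apply]
    refine (a6a_norm_comp p _).trans ((ContinuousLinearMap.le_opNorm _ _).trans ?_)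
    rw [norm_emb]
    apply mul_le_mul_of_nonneg_right _ (norm_nonneg _)
    refine (hu.lip2 _ _).trans (le_of_eq ?_)
    rw [← map_sub, norm_emb]

end Pool.Agent.Helper68.DG
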