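import Pool.Agent.Helper68.DG.Base

/-! Project DG (MP_800410_an), piece C1: logarithmic cutoffs -/

open MeasureTheory Metric Set Filter Topology
open scoped ContDiff

namespace Pool.Agent.Helper68.DG

variable {ι : Type} [Fintype ι]

/-- a smooth function, `1` for `s ≤ 1` and `0` for `2 ≤ s` -/
noncomputable def th (s : ℝ) : ℝ := Real.smoothTransition (2 - s)

/-- the logarithmic cutoff -/
noncomputable def cut (T : ℝ) (x : V ι) : ℝ := th (lg x / T)

/-- Proof. `exp (lg x) ^ 2 = 1 + ‖x‖ ^ 2`, so `‖x‖ ≤ exp c` on the (closed) set. -/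
theorem isCompact_lg_le (c : ℝ) : IsCompact {x : V ι | lg x ≤ c} := by
  have hcl : IsClosed {x : V ι | lg x ≤ c} :=
    isClosed_le (contDiff_lg (n := 0)).continuous continuous_const
  refine (isCompact_closedBall (0 : V ι) (Real.exp c)).of_isClosed_subset hcl ?_
  intro x hx
  rw [mem_closedBall_zero_iff]
  exact (norm_le_exp_lg x).trans (Real.exp_le_exp.2 hx)

theorem c1_th_contDiff {n : ℕ∞} : ContDiff ℝ n th := by
  unfold th
  exact Real.smoothTransition.contDiff.comp (contDiff_const.sub contDiff_id)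

theorem c1_th_one {s : ℝ} (hs : s ≤ 1) : th s = 1 :=
  Real.smoothTransition.one_of_one_le (by linarith)

theorem c1_th_zero {s : ℝ} (hs : 2 ≤ s) : th s = 0 :=
  Real.smoothTransition.zero_of_nonpos (by linarith)

theorem c1_deriv_th_left {s : ℝ} (hs : s < 1) : deriv th s = 0 := by
  have h : th =ᶠ[𝓝 s] fun _ => (1 : ℝ) := by
    filter_upwards [Iio_mem_nhds hs] with t ht
    exact c1_th_one (le_of_lt ht)
  rw [h.deriv_eq]
  simp

theorem c1_deriv_th_right {s : ℝ} (hs : 2 < s) : deriv th s = 0 := by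
  have h : th =ᶠ[𝓝 s] fun _ => (0 : ℝ) := by
    filter_upwards [Ioi_mem_nhds hs] with t ht
    exact c1_th_zero (le_of_lt ht)
  rw [h.deriv_eq]
  simp

theorem c1_deriv_th_bdd : ∃ C : ℝ, 0 ≤ C ∧ ∀ s, |deriv th s| ≤ C := by
  have hc : Continuous (deriv th) :=
    (c1_th_contDiff (n := 1)).continuous_deriv le_rfl
  have hs : HasCompactSupport (deriv th) := by
    apply HasCompactSupport.of_support_subset_isCompact (isCompact_Icc (a := (1 : ℝ)) (b := 2))
    intro s hs
    rw [Function.mem_support] at hs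
    by_contra hcon
    rw [mem_Icc, not_and_or, not_le, not_le] at hcon
    rcases hcon with h | h
    · exact hs (c1_deriv_th_left h)
    · exact hs (c1_deriv_th_right h)
  obtain ⟨C, hC⟩ := hc.bounded_above_of_compact_support hs
  exact ⟨C, (norm_nonneg _).trans (hC 0), hC⟩

theorem c1_fderiv_cut (T : ℝ) (x : V ι) :
    fderiv ℝ (cut T) x = (deriv th (lg x / T) / T) • fderiv ℝ lg x := by
  have h1 : HasDerivAt th (deriv th (lg x / T)) (lg x / T) :=
    ((c1_th_contDiff (n := 1)).differentiable one_ne_zero _).hasDerivAt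
  have h2 : HasFDerivAt (lg : V ι → ℝ) (fderiv ℝ lg x) x :=
    ((contDiff_lg (n := 1)).differentiable one_ne_zero x).hasFDerivAt
  have h3 : HasFDerivAt (fun y : V ι => lg y / T) (T⁻¹ • fderiv ℝ lg x) x := by
    have := h2.const_mul T⁻¹
    refine this.congr_of_eventuallyEq ?_
    filter_upwards with y
    rw [div_eq_inv_mul]
  have h4 := h1.comp_hasFDerivAt x h3
  have h5 : (cut T : V ι → ℝ) = th ∘ fun y : V ι => lg y / T := rfl
  rw [h5, h4.fderiv, smul_smul, ← div_eq_mul_inv]

theorem c1_contDiff_cut {n : ℕ∞} (T : ℝ) : ContDiff ℝ n (cut T : V ι → ℝ) := by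
  have h5 : (cut T : V ι → ℝ) = th ∘ fun y : V ι => lg y / T := rfl
  rw [h5]
  exact c1_th_contDiff.comp (contDiff_lg.div_const T)

/-- Proof. `th` is smooth with compactly supported derivative, so `|deriv th| ≤ C` for some `C`;
`fderiv (cut T) x = (deriv th (lg x / T) / T) • fderiv lg x` and `norm_fderiv_lg_le`; the derivative
of `th` vanishes outside of `[1, 2]` (also at `1` and `2`, but this is not needed). -/
theorem cut_facts : ∃ C : ℝ, 0 ≤ C ∧ ∀ T : ℝ, 1 ≤ T →
    T1 (cut T : V ι → ℝ) ∧ (∀ x : V ι, 0 ≤ cut T x ∧ cut T x ≤ 1) ∧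
    (∀ x : V ι, lg x ≤ T → cut T x = 1) ∧ (∀ x : V ι, 2 * T ≤ lg x → cut T x = 0) ∧
    (∀ x : V ι, ‖fderiv ℝ (cut T) x‖ ≤ C / T * Real.exp (-lg x)) ∧
    ∀ x : V ι, x ∉ shell T 1 ∅ → fderiv ℝ (cut T) x = 0 := by
  obtain ⟨C, hC0, hC⟩ := c1_deriv_th_bdd
  refine ⟨C, hC0, fun T hT => ?_⟩
  have hT0 : 0 < T := by linarith
  have h0 : ∀ x : V ι, 2 * T ≤ lg x → cut T x = 0 := by
    intro x hx
    exact c1_th_zero (by rw [le_div_iff₀ hT0]; exact hx)
  refine ⟨⟨c1_contDiff_cut T, ?_⟩, ?_, ?_, h0, ?_, ?_⟩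
  · apply HasCompactSupport.of_support_subset_isCompact (isCompact_lg_le (2 * T))
    intro x hx
    rw [Function.mem_support] at hx
    by_contra hcon
    have hcon' : 2 * T < lg x := not_le.1 hcon
    exact hx (h0 x hcon'.le)
  · intro x
    exact ⟨Real.smoothTransition.nonneg _, Real.smoothTransition.le_one _⟩
  · intro x hx
    exact c1_th_one (by rw [div_le_iff₀ hT0]; linarith)
  · intro x
    rw [c1_fderiv_cut, norm_smul, Real.norm_eq_abs, abs_div, abs_of_pos hT0]
    exact mul_le_mul (div_le_div_of_nonneg_right (hC _) hT0.le) (norm_fderiv_lg_le x)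
      (norm_nonneg _) (by positivity)
  · intro x hx
    rw [c1_fderiv_cut]
    have hz : deriv th (lg x / T) = 0 := by
      by_cases h1 : lg x < T
      · exact c1_deriv_th_left (by rw [div_lt_one hT0]; exact h1)
      · by_cases h2 : 2 * T < lg x
        · exact c1_deriv_th_right (by rw [lt_div_iff₀ hT0]; exact h2)
        · exfalso
          apply hx
          rw [not_lt] at h1 h2
          exact ⟨h1, h2, fun i hi => by simp at hi⟩
    rw [hz]
    simp

end Pool.Agent.Helper68.DG
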