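import Pool.Agent.Helper68.DG.Base
import Pool.Agent.Helper68.DG.C1

/-! Project DG (MP_800410_an), piece C2: the volume of the shells -/

open MeasureTheory Metric Set Filter Topology
open scoped ContDiff

namespace Pool.Agent.Helper68.DG

variable {ι : Type} [Fintype ι]

theorem c2_continuous_lg : Continuous (lg : V ι → ℝ) := (contDiff_lg (n := 1)).continuous

theorem c2_continuous_coord (i : ι) : Continuous (fun x : V ι => x i) := by fun_prop

theorem isCompact_shell (T δ : ℝ) (J : Finset ι) : IsCompact (shell T δ J) := by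
  refine Metric.isCompact_of_isClosed_isBounded ?_ ?_
  · have h1 : shell T δ J = {x : V ι | T ≤ lg x} ∩ ({x | lg x ≤ 2 * T} ∩
        ⋂ i ∈ J, {x | |x i| ≤ δ * Real.exp (lg x)}) := by
      ext x
      simp [shell]
    rw [h1]
    refine (isClosed_le continuous_const c2_continuous_lg).inter
      ((isClosed_le c2_continuous_lg continuous_const).inter ?_)
    refine isClosed_biInter fun i _ => isClosed_le (c2_continuous_coord i).abs ?_
    exact continuous_const.mul (Real.continuous_exp.comp c2_continuous_lg)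
  · refine (Metric.isBounded_closedBall (x := (0 : V ι)) (r := Real.exp (2 * T))).subset ?_
    intro x hx
    rw [mem_closedBall_zero_iff]
    exact (norm_le_exp_lg x).trans (Real.exp_le_exp.2 hx.2.1)

/-- the sides of the boxes -/
noncomputable def c2_side (δ : ℝ) (J : Finset ι) (k : ℕ) (i : ι) : ℝ :=
  open Classical in if i ∈ J then δ * Real.exp (k + 1) else Real.exp (k + 1)

/-- the boxes -/
def c2_box (δ : ℝ) (J : Finset ι) (k : ℕ) : Set (V ι) :=
  (WithLp.ofLp : V ι → ι → ℝ) ⁻¹' Icc (fun i => -c2_side δ J k i) (fun i => c2_side δ J k i)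

theorem c2_side_nonneg {δ : ℝ} (hδ : 0 < δ) (J : Finset ι) (k : ℕ) (i : ι) :
    0 ≤ c2_side δ J k i := by
  unfold c2_side
  split_ifs <;> positivity

theorem c2_measurable_box (δ : ℝ) (J : Finset ι) (k : ℕ) : MeasurableSet (c2_box δ J k) :=
  (PiLp.volume_preserving_ofLp ι).measurable measurableSet_Icc

theorem c2_volume_box {δ : ℝ} (hδ : 0 < δ) (J : Finset ι) (k : ℕ) :
    volume.real (c2_box δ J k) =
      (2 * Real.exp (k + 1)) ^ Fintype.card ι * δ ^ J.card := by
  classical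
  have h1 : volume (c2_box δ J k) = volume (Icc (fun i => -c2_side δ J k i)
      (fun i => c2_side δ J k i)) :=
    (PiLp.volume_preserving_ofLp ι).measure_preimage measurableSet_Icc.nullMeasurableSet
  rw [Measure.real, h1, Real.volume_Icc_pi_toReal (fun i => by
    have := c2_side_nonneg hδ J k i
    linarith)]
  have h2 : ∀ i, c2_side δ J k i - -c2_side δ J k i =
      2 * Real.exp (k + 1) * (if i ∈ J then δ else 1) := by
    intro i
    unfold c2_side
    split_ifs <;> ring
  simp only [h2]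
  rw [Finset.prod_mul_distrib, Finset.prod_const, Finset.card_univ, Finset.prod_ite_mem,
    Finset.univ_inter, Finset.prod_const]

theorem c2_volume_box_ne_top {δ : ℝ} (J : Finset ι) (k : ℕ) :
    volume (c2_box δ J k) ≠ ⊤ := by
  have h1 : volume (c2_box δ J k) = volume (Icc (fun i => -c2_side δ J k i)
      (fun i => c2_side δ J k i)) :=
    (PiLp.volume_preserving_ofLp ι).measure_preimage measurableSet_Icc.nullMeasurableSet
  rw [h1]
  exact isCompact_Icc.measure_lt_top.ne

/-- a point of the shell lies in the box of `k = ⌊lg x⌋` -/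
theorem c2_mem_box {T δ : ℝ} {J : Finset ι} {x : V ι} (hδ : 0 < δ) (hx : x ∈ shell T δ J) :
    x ∈ c2_box δ J ⌊lg x⌋₊ := by
  have h1 : lg x ≤ ⌊lg x⌋₊ + 1 := (Nat.lt_floor_add_one (lg x)).le
  have h2 : Real.exp (lg x) ≤ Real.exp (⌊lg x⌋₊ + 1) := Real.exp_le_exp.2 h1
  have h3 : ∀ i, |x i| ≤ c2_side δ J ⌊lg x⌋₊ i := by
    intro i
    unfold c2_side
    split_ifs with h
    · exact (hx.2.2 i h).trans (mul_le_mul_of_nonneg_left h2 hδ.le)
    · exact (abs_coord_le x i).trans ((norm_le_exp_lg x).trans h2)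
  exact ⟨fun i => neg_le_of_abs_le (h3 i), fun i => le_of_abs_le (h3 i)⟩

/-- Proof. Let `n = card ι`. The set `shell T δ J` is contained in the union of the sets
`A k = {x | k ≤ lg x < k + 1, |x i| ≤ δ exp (lg x) for i ∈ J}` over the natural numbers `k` with
`⌊T⌋ ≤ k ≤ ⌊2 T⌋` (at most `T + 2 ≤ 3 T` numbers). On `A k` the integrand is at most `exp (- n k)`,
and `|x i| ≤ ‖x‖ ≤ exp (lg x) ≤ exp (k + 1)` for all `i`, `|x i| ≤ δ exp (k + 1)` for `i ∈ J`; so the
volume of `A k` is at most the volume `(2 exp (k + 1)) ^ n δ ^ |J|` of a box (the identity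
`EuclideanSpace ℝ ι → (ι → ℝ)` preserves the volume; `Real.volume_pi_...`, `volume_pi_pi`). So the
integral over `A k` is at most `(2 e) ^ n δ ^ |J|`. -/
theorem shell_vol : ∃ C : ℝ, 0 ≤ C ∧ ∀ (T δ : ℝ) (J : Finset ι), 1 ≤ T → 0 < δ →
    ∫ x in shell T δ J, Real.exp (-(Fintype.card ι : ℝ) * lg x) ≤ C * δ ^ J.card * T := by
  classical
  set n := Fintype.card ι with hn
  refine ⟨(2 * Real.exp 1) ^ n * 3, by positivity, fun T δ J hT hδ => ?_⟩
  set S := Finset.Icc ⌊T⌋₊ ⌊2 * T⌋₊ with hS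
  let g : V ι → ℝ := fun x => ∑ k ∈ S, (c2_box δ J k).indicator (fun _ => Real.exp (-(n : ℝ) * k)) x
  have hgi : ∀ k : ℕ, Integrable ((c2_box δ J k).indicator
      (fun _ : V ι => Real.exp (-(n : ℝ) * k))) := fun k =>
    (integrable_indicator_iff (c2_measurable_box δ J k)).2
      (integrableOn_const (c2_volume_box_ne_top J k))
  have hgint : Integrable g := integrable_finsetSum _ fun k _ => hgi k
  have hg0 : ∀ x, 0 ≤ g x := fun x => Finset.sum_nonneg fun k _ =>
    Set.indicator_nonneg (fun _ _ => (Real.exp_pos _).le) x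
  have hT0 : 0 ≤ T := by linarith
  have hle : ∀ x ∈ shell T δ J, Real.exp (-(n : ℝ) * lg x) ≤ g x := by
    intro x hx
    have h0 := lg_nonneg x
    have h1 : ⌊lg x⌋₊ ∈ S := by
      rw [hS, Finset.mem_Icc]
      exact ⟨Nat.floor_le_floor hx.1, Nat.floor_le_floor hx.2.1⟩
    have h2 : (c2_box δ J ⌊lg x⌋₊).indicator (fun _ => Real.exp (-(n : ℝ) * ⌊lg x⌋₊)) x ≤ g x :=
      Finset.single_le_sum (f := fun k : ℕ => (c2_box δ J k).indicator
        (fun _ => Real.exp (-(n : ℝ) * k)) x)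
        (fun k _ => Set.indicator_nonneg (fun _ _ => (Real.exp_pos _).le) x) h1
    rw [Set.indicator_of_mem (c2_mem_box hδ hx)] at h2
    refine le_trans (Real.exp_le_exp.2 ?_) h2
    have h3 : (⌊lg x⌋₊ : ℝ) ≤ lg x := Nat.floor_le h0
    have h4 : (0 : ℝ) ≤ n := Nat.cast_nonneg n
    nlinarith
  have hms : MeasurableSet (shell T δ J) := (isCompact_shell T δ J).measurableSet
  have hcont : Continuous fun x : V ι => Real.exp (-(n : ℝ) * lg x) :=
    Real.continuous_exp.comp (continuous_const.mul c2_continuous_lg)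
  have h1 : ∫ x in shell T δ J, Real.exp (-(n : ℝ) * lg x) ≤ ∫ x in shell T δ J, g x :=
    setIntegral_mono_on (hcont.continuousOn.integrableOn_compact (isCompact_shell T δ J))
      hgint.integrableOn hms hle
  have h2 : ∫ x in shell T δ J, g x ≤ ∫ x, g x :=
    setIntegral_le_integral hgint (Filter.Eventually.of_forall hg0)
  have h3 : ∫ x, g x = ∑ k ∈ S, (2 * Real.exp 1) ^ n * δ ^ J.card := by
    simp only [g]
    rw [integral_finsetSum _ fun k _ => hgi k]
    refine Finset.sum_congr rfl fun k _ => ?_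
    rw [integral_indicator (c2_measurable_box δ J k), setIntegral_const, c2_volume_box hδ,
      smul_eq_mul]
    have h4 : Real.exp (-(n : ℝ) * k) = (Real.exp (k : ℝ))⁻¹ ^ n := by
      rw [← Real.exp_neg, ← Real.exp_nat_mul]
      congr 1
      ring
    have h5 : (2 * Real.exp ((k : ℝ) + 1)) ^ n = (2 * Real.exp 1) ^ n * Real.exp (k : ℝ) ^ n := by
      rw [Real.exp_add, ← mul_pow]
      congr 1
      ring
    have h6 : Real.exp (k : ℝ) ^ n * (Real.exp (k : ℝ))⁻¹ ^ n = 1 := by
      rw [← mul_pow, mul_inv_cancel₀ (Real.exp_pos _).ne', one_pow]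
    rw [h4, h5]
    calc (2 * Real.exp 1) ^ n * Real.exp (k : ℝ) ^ n * δ ^ J.card * (Real.exp (k : ℝ))⁻¹ ^ n
        = (2 * Real.exp 1) ^ n * δ ^ J.card *
          (Real.exp (k : ℝ) ^ n * (Real.exp (k : ℝ))⁻¹ ^ n) := by ring
      _ = _ := by rw [h6, mul_one]
  have hcard : (S.card : ℝ) ≤ 3 * T := by
    rw [hS, Nat.card_Icc]
    have h4 : (⌊2 * T⌋₊ : ℝ) ≤ 2 * T := Nat.floor_le (by positivity)
    have h5 : T < ⌊T⌋₊ + 1 := Nat.lt_floor_add_one T
    have h6 : ⌊T⌋₊ ≤ ⌊2 * T⌋₊ := Nat.floor_le_floor (by linarith)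
    have h7 : ((⌊2 * T⌋₊ + 1 - ⌊T⌋₊ : ℕ) : ℝ) = (⌊2 * T⌋₊ : ℝ) + 1 - ⌊T⌋₊ := by
      rw [Nat.cast_sub (by omega)]
      push_cast
      ring
    rw [h7]
    linarith
  rw [h3, Finset.sum_const, nsmul_eq_mul] at h2
  refine (h1.trans h2).trans ?_
  have h8 : 0 ≤ (2 * Real.exp 1) ^ n * δ ^ J.card := by positivity
  calc (S.card : ℝ) * ((2 * Real.exp 1) ^ n * δ ^ J.card)
      ≤ 3 * T * ((2 * Real.exp 1) ^ n * δ ^ J.card) := mul_le_mul_of_nonneg_right hcard h8
    _ = _ := by ring

end Pool.Agent.Helper68.DG
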