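import Pool.Agent.Helper68.DG.Base
import Pool.Agent.Helper68.DG.A6a
import Pool.Agent.Helper68.DG.C1
import Pool.Agent.Helper68.DG.C2

/-! Project DG (MP_800410_an), piece G2: signed solutions are one-dimensional; lifting -/

open MeasureTheory Metric Set Filter Topology
open scoped ContDiff

namespace Pool.Agent.Helper68.DG

variable {ι : Type} [Fintype ι]

theorem g2_scale {η : V ι → ℝ} (hη : T1 η) {c : ℝ} (hc : 0 < c) :
    T1 (fun x => η (c • x)) ∧ (∫ x, gd (fun x => η (c • x)) (fun x => η (c • x)) x =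
      |(c ^ Module.finrank ℝ (V ι))⁻¹| * (c ^ 2 * ∫ x, gd η η x)) ∧
      ∫ x, η (c • x) ^ 2 = |(c ^ Module.finrank ℝ (V ι))⁻¹| * ∫ x, η x ^ 2 := by
  have hd : ∀ x, ‖fderiv ℝ (fun x => η (c • x)) x‖ = c * ‖fderiv ℝ η (c • x)‖ := by
    intro x
    have h1 : HasFDerivAt η (fderiv ℝ η (c • x)) (c • x) :=
      ((hη.1.differentiable one_ne_zero) _).hasFDerivAt
    have h2 : HasFDerivAt (fun x : V ι => c • x) (c • ContinuousLinearMap.id ℝ (V ι)) x :=
      (hasFDerivAt_id x).const_smul c
    have h3 := (h1.comp x h2).fderiv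
    have h4 : (η ∘ fun x => c • x) = fun x => η (c • x) := rfl
    rw [h4] at h3
    rw [h3]
    have h5 : (fderiv ℝ η (c • x)).comp (c • ContinuousLinearMap.id ℝ (V ι)) =
        c • fderiv ℝ η (c • x) := by
      ext b
      simp
    rw [h5, norm_smul, Real.norm_of_nonneg hc.le]
  refine ⟨⟨hη.1.comp (contDiff_const_smul c), ?_⟩, ?_, ?_⟩
  · exact hη.2.comp_homeomorph (Homeomorph.smulOfNeZero c hc.ne')
  · have h1 : ∀ x, gd (fun x => η (c • x)) (fun x => η (c • x)) x = c ^ 2 * gd η η (c • x) := by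
      intro x
      rw [gd_self, hd, gd_self]
      ring
    simp only [h1]
    rw [integral_const_mul, Measure.integral_comp_smul volume (gd η η) c, smul_eq_mul]
    ring
  · rw [Measure.integral_comp_smul volume (fun x => η x ^ 2) c, smul_eq_mul]

/-- the solution `0` is not stable -/
theorem g2_zero {v : V ι → ℝ} (hst : Stab v) (h0 : ∀ x, v x = 0) : False := by
  obtain ⟨η, hη, hη0⟩ : ∃ η : V ι → ℝ, T1 η ∧ 0 < ∫ x, η x ^ 2 := by
    let b : ContDiffBump (0 : V ι) := default
    refine ⟨b, ⟨b.contDiff, b.hasCompactSupport⟩, ?_⟩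
    have hc : Continuous (fun x : V ι => b x ^ 2) := b.continuous.pow 2
    refine hc.integral_pos_of_hasCompactSupport_nonneg_nonzero (x := 0) ?_ ?_ ?_
    · exact b.hasCompactSupport.comp_left (g := fun t : ℝ => t ^ 2) (by norm_num)
    · intro x
      exact sq_nonneg _
    · rw [b.one_of_mem_closedBall (mem_closedBall_self b.rIn_pos.le)]
      norm_num
  set A := ∫ x, η x ^ 2 with hA
  set G := ∫ x, gd η η x with hG
  have hG0 : 0 ≤ G := integral_nonneg fun x => gd_self_nonneg η x
  have key : ∀ c : ℝ, 0 < c → A ≤ c ^ 2 * G := by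
    intro c hc
    obtain ⟨h1, h2, h3⟩ := g2_scale hη hc
    have h4 := hst _ h1
    have h5 : ∫ x, cc v x * η (c • x) ^ 2 = ∫ x, η (c • x) ^ 2 := by
      congr 1
      funext x
      unfold cc
      rw [h0]
      ring
    rw [h5, h2, h3] at h4
    have h6 : 0 < |(c ^ Module.finrank ℝ (V ι))⁻¹| := by
      rw [abs_pos]
      positivity
    exact le_of_mul_le_mul_left h4 h6
  have h7 := key (Real.sqrt (A / (2 * (G + 1)))) (Real.sqrt_pos.2 (by positivity))
  rw [Real.sq_sqrt (by positivity), div_mul_eq_mul_div, le_div_iff₀ (by positivity)] at h7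
  nlinarith

/-- Proof. If `fderiv ℝ v x = 0` for all `x` then `v` is a constant `c` with `c ^ 3 = c` (the
equation), so `c` is `0`, `1` or `-1`. The case `c = 0` is impossible: then `cc v = 1`, and
stability with `ζ x = η (L⁻¹ • x)`, `η` a smooth bump, says
`L ^ n ∫ η ^ 2 ≤ L ^ n L⁻² ∫ gd η η` for all `L ≥ 1`. In the other cases `a = 0` works. Otherwise let
`fderiv ℝ v x₀ ≠ 0` and let `a` be the vector with `inner ℝ a b = fderiv ℝ v x₀ b` for all `b`. If
`inner ℝ a b = 0` then `fderiv ℝ v x₀ b = 0`, and by `Signed v` the derivative in the direction `b` is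
zero everywhere; `fderiv ℝ v x₀ a = ‖a‖ ^ 2 > 0`, so `fderiv ℝ v x a > 0` for all `x`. -/
theorem AM_of_signed {K : ℝ} {v : V ι → ℝ} (hv : GS K v) (hst : Stab v) (hs : Signed v) :
    AM v := by
  by_cases h : ∀ x, fderiv ℝ v x = 0
  · have hc : ∀ x, v x = v 0 := fun x =>
      is_const_of_fderiv_eq_zero (hv.C1.differentiable one_ne_zero) h x 0
    have hl : lap v 0 = 0 := by
      unfold lap
      refine Finset.sum_eq_zero fun i _ => ?_
      have h1 : pd i v = fun _ => 0 := by
        funext x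
        unfold pd
        rw [h x]
        rfl
      rw [h1]
      unfold pd
      simp
    have he := hv.eqn 0
    rw [hl] at he
    have h3 : v 0 = 0 ∨ v 0 = 1 ∨ v 0 = -1 := by
      have h4 : v 0 * ((v 0 - 1) * (v 0 + 1)) = 0 := by linarith
      rcases mul_eq_zero.1 h4 with h5 | h5
      · exact Or.inl h5
      · rcases mul_eq_zero.1 h5 with h6 | h6
        · exact Or.inr (Or.inl (by linarith))
        · exact Or.inr (Or.inr (by linarith))
    refine ⟨0, fun b _ x => by rw [h x]; rfl, ?_⟩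
    rcases h3 with h4 | h4 | h4
    · exact (g2_zero hst fun x => (hc x).trans h4).elim
    · exact Or.inr (Or.inl fun x => (hc x).trans h4)
    · exact Or.inr (Or.inr fun x => (hc x).trans h4)
  · push Not at h
    obtain ⟨x₀, hx₀⟩ := h
    set a := (InnerProductSpace.toDual ℝ (V ι)).symm (fderiv ℝ v x₀) with ha
    have hab : ∀ b, inner ℝ a b = fderiv ℝ v x₀ b := by
      intro b
      rw [ha, InnerProductSpace.toDual_symm_apply]
    have ha0 : a ≠ 0 := by
      intro h0
      apply hx₀
      ext b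
      rw [← hab, h0, inner_zero_left]
      rfl
    refine ⟨a, fun b hb x => ?_, Or.inl fun x => ?_⟩
    · rw [hab] at hb
      rcases hs b with h1 | h1 | h1
      · exact absurd hb (h1 x₀).ne'
      · exact absurd hb (h1 x₀).ne
      · exact h1 x
    · have h1 : 0 < fderiv ℝ v x₀ a := by
        rw [← hab, real_inner_self_eq_norm_sq]
        have := norm_pos_iff.2 ha0
        positivity
      rcases hs a with h2 | h2 | h2
      · exact h2 x
      · exact absurd (h2 x₀) (not_lt.2 h1.le)
      · exact absurd (h2 x₀) h1.ne'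

theorem g2_fderiv (p : ι → Prop) [DecidablePred p] {v : V ι → ℝ} (hv : ContDiff ℝ 1 v)
    (h : ∀ i, ¬ p i → ∀ x, pd i v x = 0) (x b : V ι) :
    fderiv ℝ v x b = fderiv ℝ (v ∘ emb p) (prj p x) (prj p b) := by
  have h1 : v = (v ∘ emb p) ∘ prj p := funext fun x => eq_emb_prj p hv h x
  have h2 : DifferentiableAt ℝ (v ∘ emb p) (prj p x) :=
    ((hv.differentiable one_ne_zero) _).comp _ (emb p).differentiableAt
  conv_lhs => rw [h1]
  rw [fderiv_comp x h2 (prj p).differentiableAt]
  simp

theorem g2_inner (p : ι → Prop) [DecidablePred p] (a : V {i // p i}) (b : V ι) :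
    inner ℝ (emb p a) b = inner ℝ a (prj p b) := by
  conv_lhs => rw [sum_be a]
  conv_rhs => rw [sum_be a]
  rw [map_sum, sum_inner, sum_inner]
  refine Finset.sum_congr rfl fun i _ => ?_
  rw [map_smul, emb_be, inner_smul_left, inner_smul_left, inner_be, inner_be, prj_apply]

/-- Proof. `v x = v (emb p (prj p x))` by `eq_emb_prj`, so
`fderiv ℝ v x b = fderiv ℝ (v ∘ emb p) (prj p x) (prj p b)`. Take `emb p a` for the `a` of
`v ∘ emb p`; `inner ℝ (emb p a) b = inner ℝ a (prj p b)` and `prj p (emb p a) = a`. -/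
theorem AM.lift (p : ι → Prop) [DecidablePred p] {v : V ι → ℝ} (hv : ContDiff ℝ 1 v)
    (h : ∀ i, ¬ p i → ∀ x, pd i v x = 0) (ham : AM (v ∘ emb p)) : AM v := by
  obtain ⟨a, h1, h2⟩ := ham
  refine ⟨emb p a, fun b hb x => ?_, ?_⟩
  · rw [g2_fderiv p hv h]
    rw [g2_inner] at hb
    exact h1 _ hb _
  · rcases h2 with h2 | h2 | h2
    · left
      intro x
      rw [g2_fderiv p hv h, prj_emb]
      exact h2 _
    · right; left
      intro x
      rw [eq_emb_prj p hv h x]
      exact h2 _
    · right; right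
      intro x
      rw [eq_emb_prj p hv h x]
      exact h2 _

/-- Proof. As for `AM.lift`:
`fderiv ℝ v x b = fderiv ℝ (v ∘ emb p) (prj p x) (prj p b)`, and `prj p` is surjective. -/
theorem Signed.lift (p : ι → Prop) [DecidablePred p] {v : V ι → ℝ} (hv : ContDiff ℝ 1 v)
    (h : ∀ i, ¬ p i → ∀ x, pd i v x = 0) (hs : Signed (v ∘ emb p)) : Signed v := by
  intro b
  simp only [g2_fderiv p hv h]
  rcases hs (prj p b) with h1 | h1 | h1
  · exact Or.inl fun x => h1 _
  · exact Or.inr (Or.inl fun x => h1 _)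
  · exact Or.inr (Or.inr fun x => h1 _)

end Pool.Agent.Helper68.DG
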