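import Pool.Agent.Helper68.DG.Base
import Pool.Agent.Helper68.DG.A6a

/-! Project DG (MP_800410_an), piece A6b: dropping variables: stability -/

open MeasureTheory Metric Set Filter Topology
open scoped ContDiff

namespace Pool.Agent.Helper68.DG

variable {ι : Type} [Fintype ι]

/-- Fubini for the splitting of the coordinates. Proof. `EuclideanSpace.volume_preserving_...`
(the map between `EuclideanSpace ℝ ι` and `ι → ℝ` preserves the volume) and
`volume_preserving_piEquivPiSubtypeProd`; then `integral_prod_mul`. -/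
theorem integral_split (p : ι → Prop) [DecidablePred p] (f : V {i // p i} → ℝ)
    (g : V {i // ¬ p i} → ℝ) :
    ∫ x : V ι, f (prj p x) * g (prj (fun i => ¬ p i) x) = (∫ y, f y) * ∫ z, g z := by
  rw [← (PiLp.volume_preserving_toLp ι).integral_comp
    (MeasurableEquiv.toLp 2 (ι → ℝ)).measurableEmbedding,
    ← (PiLp.volume_preserving_toLp {i // p i}).integral_comp
    (MeasurableEquiv.toLp 2 ({i // p i} → ℝ)).measurableEmbedding f,
    ← (PiLp.volume_preserving_toLp {i // ¬ p i}).integral_comp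
    (MeasurableEquiv.toLp 2 ({i // ¬ p i} → ℝ)).measurableEmbedding g,
    ← integral_prod_mul]
  exact (volume_preserving_piEquivPiSubtypeProd (fun _ : ι => ℝ) p).integral_comp
    (MeasurableEquiv.piEquivPiSubtypeProd (fun _ : ι => ℝ) p).measurableEmbedding
    (fun q : ({i // p i} → ℝ) × ({i // ¬ p i} → ℝ) =>
      f (WithLp.toLp 2 q.1) * g (WithLp.toLp 2 q.2))

/-- the projections of the basis vectors -/
theorem a6b_prj_be (p : ι → Prop) [DecidablePred p] (i : ι) :
    prj p (be i) = if h : p i then be ⟨i, h⟩ else 0 := by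
  classical
  ext j
  rw [prj_apply, be_apply]
  by_cases h : p i
  · rw [dif_pos h, be_apply]
    by_cases hj : j.1 = i
    · rw [if_pos hj, if_pos (Subtype.ext hj)]
    · rw [if_neg hj, if_neg (fun h' => hj (congrArg Subtype.val h'))]
  · rw [dif_neg h]
    have hj : j.1 ≠ i := fun h' => h (h' ▸ j.2)
    rw [if_neg hj]
    rfl

/-- derivatives of a function of the projection -/
theorem a6b_pd_prj (p : ι → Prop) [DecidablePred p] {f : V {i // p i} → ℝ}
    (hf : Differentiable ℝ f) (i : ι) (x : V ι) :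
    pd i (fun x => f (prj p x)) x = if h : p i then pd ⟨i, h⟩ f (prj p x) else 0 := by
  unfold pd
  have h1 : HasFDerivAt (fun x => f (prj p x)) ((fderiv ℝ f (prj p x)).comp (prj p)) x :=
    (hf (prj p x)).hasFDerivAt.comp x (prj p).hasFDerivAt
  rw [h1.fderiv, ContinuousLinearMap.comp_apply, a6b_prj_be]
  by_cases h : p i
  · rw [dif_pos h, dif_pos h]
  · rw [dif_neg h, dif_neg h, map_zero]

/-- the splitting of a vector -/
theorem a6b_split (p : ι → Prop) [DecidablePred p] (x : V ι) :
    x = DG.emb p (prj p x) + DG.emb (fun i => ¬ p i) (prj (fun i => ¬ p i) x) := by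
  ext i
  rw [PiLp.add_apply, emb_apply, emb_apply]
  by_cases h : p i
  · rw [dif_pos h, dif_neg (not_not.2 h), prj_apply, add_zero]
  · rw [dif_neg h, dif_pos h, prj_apply, zero_add]

/-- a product of functions of compact support -/
theorem a6b_cs (p : ι → Prop) [DecidablePred p] {f : V {i // p i} → ℝ} {g : V {i // ¬ p i} → ℝ}
    (hf : HasCompactSupport f) (hg : HasCompactSupport g) :
    HasCompactSupport fun x => f (prj p x) * g (prj (fun i => ¬ p i) x) := by
  have hK : IsCompact ((fun q : V {i // p i} × V {i // ¬ p i} =>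
      DG.emb p q.1 + DG.emb (fun i => ¬ p i) q.2) '' (tsupport f ×ˢ tsupport g)) := by
    apply (hf.isCompact.prod hg.isCompact).image
    fun_prop
  apply HasCompactSupport.intro hK
  intro x hx
  by_contra hne
  apply hx
  refine ⟨(prj p x, prj (fun i => ¬ p i) x), ⟨?_, ?_⟩, (a6b_split p x).symm⟩
  · exact subset_tsupport f (left_ne_zero_of_mul hne)
  · exact subset_tsupport g (right_ne_zero_of_mul hne)

/-- a product of functions of compact support is integrable -/
theorem a6b_int (p : ι → Prop) [DecidablePred p] {f : V {i // p i} → ℝ} {g : V {i // ¬ p i} → ℝ}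
    (hf : Continuous f) (hg : Continuous g) (hf' : HasCompactSupport f)
    (hg' : HasCompactSupport g) :
    Integrable fun x => f (prj p x) * g (prj (fun i => ¬ p i) x) := by
  have hc : Continuous fun x => f (prj p x) * g (prj (fun i => ¬ p i) x) := by
    apply Continuous.mul
    · exact hf.comp (prj p).continuous
    · exact hg.comp (prj (fun i => ¬ p i)).continuous
  exact integrable_cs hc (a6b_cs p hf' hg')

/-- the square of the gradient of a product -/
theorem a6b_gd (p : ι → Prop) [DecidablePred p] {f : V {i // p i} → ℝ} {g : V {i // ¬ p i} → ℝ}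
    (hf : ContDiff ℝ 1 f) (hg : ContDiff ℝ 1 g) (x : V ι) :
    gd (fun x => f (prj p x) * g (prj (fun i => ¬ p i) x))
      (fun x => f (prj p x) * g (prj (fun i => ¬ p i) x)) x =
    gd f f (prj p x) * g (prj (fun i => ¬ p i) x) ^ 2 +
      f (prj p x) ^ 2 * gd g g (prj (fun i => ¬ p i) x) := by
  have hf' : Differentiable ℝ f := hf.differentiable one_ne_zero
  have hg' : Differentiable ℝ g := hg.differentiable one_ne_zero
  have h0 : ∀ i, pd i (fun x => f (prj p x) * g (prj (fun i => ¬ p i) x)) x =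
      pd i (fun x => f (prj p x)) x * g (prj (fun i => ¬ p i) x) +
        f (prj p x) * pd i (fun x => g (prj (fun i => ¬ p i) x)) x := by
    intro i
    apply pd_mul
    · exact (hf' _).comp x (prj p).differentiableAt
    · exact (hg' _).comp x (prj (fun i => ¬ p i)).differentiableAt
  unfold gd
  rw [← Fintype.sum_subtype_add_sum_subtype p, Finset.sum_mul, Finset.mul_sum]
  congr 1
  · apply Finset.sum_congr rfl
    intro i _
    rw [h0, a6b_pd_prj p hf', a6b_pd_prj (fun i => ¬ p i) hg', dif_pos i.2,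
      dif_neg (not_not.2 i.2)]
    ring
  · apply Finset.sum_congr rfl
    intro i _
    rw [h0, a6b_pd_prj p hf', a6b_pd_prj (fun i => ¬ p i) hg', dif_neg i.2, dif_pos i.2]
    ring

/-- gradients and scaling -/
theorem a6b_gd_smul (η : V ι → ℝ) (c : ℝ) (z : V ι) :
    gd (fun z => η (c • z)) (fun z => η (c • z)) z = c ^ 2 * gd η η (c • z) := by
  have h0 : ∀ i, pd i (fun z => η (c • z)) z = c * pd i η (c • z) := by
    intro i
    unfold pd
    rw [fderiv_comp_smul]
    rfl
  unfold gd
  rw [Finset.mul_sum]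
  apply Finset.sum_congr rfl
  intro i _
  rw [h0]
  ring

/-- a bump function -/
theorem a6b_bump (ι : Type) [Fintype ι] :
    ∃ η : V ι → ℝ, ContDiff ℝ 1 η ∧ HasCompactSupport η ∧ 0 < ∫ z, η z ^ 2 := by
  let b : ContDiffBump (0 : V ι) := ⟨1, 2, one_pos, one_lt_two⟩
  refine ⟨b, b.contDiff, b.hasCompactSupport, ?_⟩
  have hc : Continuous fun z => b z ^ 2 := b.continuous.pow 2
  have hs : HasCompactSupport fun z => b z ^ 2 :=
    b.hasCompactSupport.comp_left (g := fun t : ℝ => t ^ 2) (by norm_num)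
  apply hc.integral_pos_of_hasCompactSupport_nonneg_nonzero hs (fun z => sq_nonneg _) (x := 0)
  have h1 : b 0 = 1 := b.one_of_mem_closedBall (by simp [b])
  rw [h1]
  norm_num

/-- Proof. Let `ζ` be a test function on `V {i // p i}` and `η` a smooth function on
`V {i // ¬ p i}` with compact support and `∫ η ^ 2 > 0` (for example a smooth bump). For `L ≥ 1`
let `ηL z = η (L⁻¹ • z)` and `ζL x = ζ (prj p x) * ηL (prj (¬ p) x)`, a test function on `V ι`. By
`eq_emb_prj`, `u x` only depends on `prj p x`. As `pd i ζL x = pd i ζ (prj x) * ηL (prj x)` if `p i`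
and `= ζ * pd i ηL` otherwise, `gd ζL ζL = (gd ζ ζ) * ηL ^ 2 + ζ ^ 2 * gd ηL ηL`. By `Stab u` and
`integral_split`, `(∫ cc ζ ^ 2) * (∫ ηL ^ 2) ≤ (∫ gd ζ ζ) * (∫ ηL ^ 2) + (∫ ζ ^ 2) * ∫ gd ηL ηL`.
With `m = card {i // ¬ p i}`, `∫ ηL ^ 2 = L ^ m ∫ η ^ 2` and
`∫ gd ηL ηL = L ^ m * L⁻² ∫ gd η η` (`Measure.integral_comp_smul` or `integral_comp_inv_smul`).
Divide by `L ^ m` and let `L → ∞`. -/
theorem Stab.emb (p : ι → Prop) [DecidablePred p] {K : ℝ} {u : V ι → ℝ} (hu : GS K u)
    (hst : Stab u) (h : ∀ i, ¬ p i → ∀ x, pd i u x = 0) : Stab (u ∘ DG.emb p) := by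
  intro ζ hζ
  obtain ⟨η, hη1, hη2, hη3⟩ := a6b_bump {i // ¬ p i}
  have hηd : T1 η := ⟨hη1, hη2⟩
  set A : ℝ := ∫ x, cc (u ∘ DG.emb p) x * ζ x ^ 2 with hA
  set B : ℝ := ∫ x, gd ζ ζ x with hB
  set I : ℝ := ∫ z, η z ^ 2 with hI
  set C : ℝ := ∫ x, ζ x ^ 2 with hC
  set D : ℝ := ∫ z, gd η η z with hD
  have key : ∀ c : ℝ, 0 < c → A * I ≤ B * I + C * (c ^ 2 * D) := by
    intro c hc
    set ηc : V {i // ¬ p i} → ℝ := fun z => η (c • z) with hηc
    have hc1 : ContDiff ℝ 1 ηc := hη1.comp (contDiff_const_smul c)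
    have hc2 : HasCompactSupport ηc := hη2.comp_smul hc.ne'
    have hT : T1 fun x : V ι => ζ (prj p x) * ηc (prj (fun i => ¬ p i) x) := by
      refine ⟨?_, a6b_cs p hζ.2 hc2⟩
      exact (hζ.1.comp (prj p).contDiff).mul (hc1.comp (prj (fun i => ¬ p i)).contDiff)
    have h1 := hst _ hT
    have h2 : ∀ x : V ι, cc u x * (ζ (prj p x) * ηc (prj (fun i => ¬ p i) x)) ^ 2 =
        (cc (u ∘ DG.emb p) (prj p x) * ζ (prj p x) ^ 2) *
          ηc (prj (fun i => ¬ p i) x) ^ 2 := by
      intro x
      have h3 : cc u x = cc (u ∘ DG.emb p) (prj p x) := by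
        unfold cc
        rw [Function.comp_apply, ← eq_emb_prj p hu.C1 h x]
      rw [h3]
      ring
    rw [integral_congr_ae (Eventually.of_forall h2),
      integral_congr_ae (Eventually.of_forall fun x => a6b_gd p hζ.1 hc1 x)] at h1
    rw [integral_split p (fun y => cc (u ∘ DG.emb p) y * ζ y ^ 2) (fun z => ηc z ^ 2)] at h1
    have hs2 : HasCompactSupport fun y => ζ y ^ 2 :=
      hζ.2.comp_left (g := fun t : ℝ => t ^ 2) (by norm_num)
    have hs3 : HasCompactSupport fun z => ηc z ^ 2 :=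
      hc2.comp_left (g := fun t : ℝ => t ^ 2) (by norm_num)
    have hc3 : Continuous fun z => ηc z ^ 2 := hc1.continuous.pow 2
    have hc4 : Continuous fun y => ζ y ^ 2 := hζ.continuous.pow 2
    have hi1 : Integrable fun x : V ι =>
        gd ζ ζ (prj p x) * ηc (prj (fun i => ¬ p i) x) ^ 2 :=
      a6b_int p (f := gd ζ ζ) (g := fun z => ηc z ^ 2) (continuous_gd hζ.1 hζ.1) hc3
        (hasCompactSupport_gd hζ.2) hs3
    have hi2 : Integrable fun x : V ι =>
        ζ (prj p x) ^ 2 * gd ηc ηc (prj (fun i => ¬ p i) x) :=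
      a6b_int p (f := fun y => ζ y ^ 2) (g := gd ηc ηc) hc4 (continuous_gd hc1 hc1) hs2
        (hasCompactSupport_gd hc2)
    rw [integral_add hi1 hi2,
      integral_split p (fun y => gd ζ ζ y) (fun z => ηc z ^ 2),
      integral_split p (fun y => ζ y ^ 2) (fun z => gd ηc ηc z)] at h1
    have h4 : ∫ z, ηc z ^ 2 = |(c ^ Module.finrank ℝ (V {i // ¬ p i}))⁻¹| * I :=
      Measure.integral_comp_smul volume (fun z => η z ^ 2) c
    have h5 : ∫ z, gd ηc ηc z =
        c ^ 2 * (|(c ^ Module.finrank ℝ (V {i // ¬ p i}))⁻¹| * D) := by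
      rw [integral_congr_ae (Eventually.of_forall fun z => a6b_gd_smul η c z),
        integral_const_mul]
      congr 1
      exact Measure.integral_comp_smul volume (gd η η) c
    rw [h4, h5] at h1
    have hM : 0 < |(c ^ Module.finrank ℝ (V {i // ¬ p i}))⁻¹| := by positivity
    set M : ℝ := |(c ^ Module.finrank ℝ (V {i // ¬ p i}))⁻¹| with hMdef
    have h6 : M * (A * I) ≤ M * (B * I + C * (c ^ 2 * D)) := by
      calc M * (A * I) = A * (M * I) := by ring
        _ ≤ B * (M * I) + C * (c ^ 2 * (M * D)) := h1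
        _ = M * (B * I + C * (c ^ 2 * D)) := by ring
    exact le_of_mul_le_mul_left h6 hM
  have hlim : Tendsto (fun c : ℝ => B * I + C * (c ^ 2 * D)) (𝓝[>] 0) (𝓝 (B * I)) := by
    have h7 : Tendsto (fun c : ℝ => B * I + C * (c ^ 2 * D)) (𝓝 0)
        (𝓝 (B * I + C * ((0 : ℝ) ^ 2 * D))) := by
      apply Continuous.tendsto
      fun_prop
    have h8 : B * I + C * ((0 : ℝ) ^ 2 * D) = B * I := by ring
    rw [h8] at h7
    exact h7.mono_left nhdsWithin_le_nhds
  have hfin : A * I ≤ B * I := by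
    apply ge_of_tendsto hlim
    filter_upwards [self_mem_nhdsWithin] with c hc
    exact key c hc
  exact le_of_mul_le_mul_right hfin hη3

end Pool.Agent.Helper68.DG
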