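import Pool.Agent.Helper68.DG.Base
import Pool.Agent.Helper68.DG.A6a
import Pool.Agent.Helper68.DG.A6b
import Pool.Agent.Helper68.DG.C1
import Pool.Agent.Helper68.DG.C2

/-! Project DG (MP_800410_an), piece GD: cylindrical cutoffs: bounded gradient -/

open MeasureTheory Metric Set Filter Topology
open scoped ContDiff

namespace Pool.Agent.Helper68.DG

variable {ι : Type} [Fintype ι]

/-- A cutoff in one variable. Proof. `χ t = smoothTransition (2 - t ^ 2 / N ^ 2)`; `χ = 0` for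
`2 N ^ 2 ≤ t ^ 2`; `|χ' t| ≤ C₀ 2 |t| / N ^ 2 ≤ C / N` on the support of the derivative. -/
theorem exists_chi : ∃ C : ℝ, 0 ≤ C ∧ ∀ N : ℝ, 1 ≤ N → ∃ χ : ℝ → ℝ, ContDiff ℝ 1 χ ∧
    (∀ t, 0 ≤ χ t ∧ χ t ≤ 1) ∧ (∀ t, |t| ≤ N → χ t = 1) ∧ (∀ t, 2 * N ≤ |t| → χ t = 0) ∧
    ∀ t, |deriv χ t| ≤ C / N := by
  obtain ⟨C, hC0, hC⟩ := c1_deriv_th_bdd
  refine ⟨4 * C, by positivity, fun N hN => ?_⟩
  have hN0 : 0 < N := by linarith
  have hN2 : 0 < N ^ 2 := by positivity
  refine ⟨fun t => th (t ^ 2 / N ^ 2), ?_, ?_, ?_, ?_, ?_⟩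
  · exact (c1_th_contDiff (n := 1)).comp ((contDiff_id.pow 2).div_const _)
  · intro t
    exact ⟨Real.smoothTransition.nonneg _, Real.smoothTransition.le_one _⟩
  · intro t ht
    apply c1_th_one
    rw [div_le_one hN2, ← sq_abs t]
    exact pow_le_pow_left₀ (abs_nonneg t) ht 2
  · intro t ht
    apply c1_th_zero
    rw [le_div_iff₀ hN2, ← sq_abs t]
    have h1 := pow_le_pow_left₀ (by positivity) ht 2
    nlinarith
  · intro t
    have h1 : HasDerivAt (fun t : ℝ => th (t ^ 2 / N ^ 2))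
        (deriv th (t ^ 2 / N ^ 2) * (2 * t / N ^ 2)) t := by
      have h2 : HasDerivAt th (deriv th (t ^ 2 / N ^ 2)) (t ^ 2 / N ^ 2) :=
        ((c1_th_contDiff (n := 1)).differentiable one_ne_zero _).hasDerivAt
      have h3 : HasDerivAt (fun t : ℝ => t ^ 2 / N ^ 2) (2 * t / N ^ 2) t := by
        have := ((hasDerivAt_id t).pow 2).div_const (N ^ 2)
        simpa using this
      exact HasDerivAt.comp (h₂ := th) t h2 h3
    rw [h1.deriv, abs_mul]
    by_cases ht : |t| ≤ 2 * N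
    · have h4 : |2 * t / N ^ 2| ≤ 4 / N := by
        rw [abs_div, abs_mul, abs_of_pos hN2, abs_of_pos (two_pos : (0 : ℝ) < 2),
          div_le_div_iff₀ hN2 hN0]
        nlinarith [mul_le_mul_of_nonneg_right ht hN0.le]
      calc |deriv th (t ^ 2 / N ^ 2)| * |2 * t / N ^ 2| ≤ C * (4 / N) :=
            mul_le_mul (hC _) h4 (abs_nonneg _) hC0
        _ = 4 * C / N := by ring
    · have h5 : (2 : ℝ) < t ^ 2 / N ^ 2 := by
        rw [lt_div_iff₀ hN2, ← sq_abs t]
        have h1 := pow_le_pow_left₀ (by positivity) (le_of_lt (not_le.1 ht)) 2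
        nlinarith
      rw [c1_deriv_th_right h5, abs_zero, zero_mul]
      positivity

/-- the cube -/
theorem gd_volume_cube {κ : Type} [Fintype κ] {a : ℝ} (ha : 0 ≤ a) (hκ : Fintype.card κ = 1) :
    volume.real ((WithLp.ofLp : V κ → κ → ℝ) ⁻¹' Icc (fun _ => -a) (fun _ => a)) = 2 * a := by
  have h1 : volume ((WithLp.ofLp : V κ → κ → ℝ) ⁻¹' Icc (fun _ => -a) (fun _ => a)) =
      volume (Icc (fun _ : κ => -a) (fun _ : κ => a)) :=
    (PiLp.volume_preserving_ofLp κ).measure_preimage measurableSet_Icc.nullMeasurableSet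
  rw [Measure.real, h1, Real.volume_Icc_pi_toReal (fun i => by linarith)]
  simp only [Finset.prod_const, Finset.card_univ, hκ, pow_one]
  ring

/-- integrals of bounded functions on the line, supported on an interval -/
theorem gd_int_le {κ : Type} [Fintype κ] [Unique κ] {a c : ℝ} (ha : 0 ≤ a)
    {f : V κ → ℝ} (hf : Continuous f) (hcs : HasCompactSupport f)
    (h0 : ∀ z : V κ, a < |z default| → f z = 0) (h1 : ∀ z : V κ, f z ≤ c) :
    ∫ z, f z ≤ c * (2 * a) := by
  have hκ : Fintype.card κ = 1 := Fintype.card_unique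
  set B : Set (V κ) := (WithLp.ofLp : V κ → κ → ℝ) ⁻¹' Icc (fun _ => -a) (fun _ => a) with hB
  have hBm : MeasurableSet B := (PiLp.volume_preserving_ofLp κ).measurable measurableSet_Icc
  have hBv := gd_volume_cube (κ := κ) ha hκ
  rw [← hB] at hBv
  have hBf : volume B ≠ ⊤ := by
    have h2 : volume B = volume (Icc (fun _ : κ => -a) (fun _ : κ => a)) :=
      (PiLp.volume_preserving_ofLp κ).measure_preimage measurableSet_Icc.nullMeasurableSet
    rw [h2]
    exact isCompact_Icc.measure_lt_top.ne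
  have hmem : ∀ z : V κ, z ∉ B → f z = 0 := by
    intro z hz
    apply h0
    by_contra hcon
    rw [not_lt, abs_le] at hcon
    apply hz
    rw [hB, mem_preimage, mem_Icc]
    constructor
    · intro i
      rw [Unique.eq_default i]
      exact hcon.1
    · intro i
      rw [Unique.eq_default i]
      exact hcon.2
  rw [← setIntegral_eq_integral_of_forall_compl_eq_zero hmem]
  have hi : IntegrableOn f B := (integrable_cs hf hcs).integrableOn
  calc ∫ z in B, f z ≤ ∫ _z in B, c :=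
        setIntegral_mono_on hi (integrableOn_const hBf) hBm fun z _ => h1 z
    _ = c * (2 * a) := by
        rw [setIntegral_const, hBv, smul_eq_mul, mul_comm]

/-- the norm on the line -/
theorem gd_norm_line {κ : Type} [Fintype κ] [Unique κ] (z : V κ) : ‖z‖ = |z default| := by
  rw [EuclideanSpace.norm_eq, Fintype.sum_unique, Real.norm_eq_abs, sq_abs, Real.sqrt_sq_eq_abs]

/-- functions of one coordinate -/
theorem gd_line_cs {κ : Type} [Fintype κ] [Unique κ] {a : ℝ} {χ : ℝ → ℝ}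
    (h : ∀ t, a ≤ |t| → χ t = 0) : HasCompactSupport fun z : V κ => χ (z default) := by
  apply HasCompactSupport.intro (isCompact_closedBall (0 : V κ) a)
  intro z hz
  rw [mem_closedBall_zero_iff, gd_norm_line, not_le] at hz
  exact h _ hz.le

/-- the gradient of functions of one coordinate -/
theorem gd_line_gd {κ : Type} [Fintype κ] [Unique κ] {χ : ℝ → ℝ} (hχ : ContDiff ℝ 1 χ)
    (z : V κ) : gd (fun z : V κ => χ (z default)) (fun z : V κ => χ (z default)) z =
      deriv χ (z default) ^ 2 := by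
  classical
  have hd : Differentiable ℝ (fun z : V κ => z default) := by fun_prop
  have h1 : pd (default : κ) (fun z : V κ => χ (z default)) z = deriv χ (z default) := by
    rw [pd_comp (u := fun z : V κ => z default) (hχ.differentiable one_ne_zero _) (hd z)]
    have h2 : pd (default : κ) (fun z : V κ => z default) z = 1 := by
      unfold pd
      have h3 : (fun z : V κ => z default) = (EuclideanSpace.proj (default : κ) : V κ →L[ℝ] ℝ) := by
        funext w; rfl
      rw [h3, ContinuousLinearMap.fderiv]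
      show (be (default : κ) : V κ) default = 1
      rw [be_apply, if_pos rfl]
    rw [h2, mul_one]
  unfold gd
  rw [Fintype.sum_unique, h1]
  ring

/-- Product cutoffs. Proof. Let `p i ↔ i ≠ i₁`, `η` a test function on `V {i // p i}`, `χ` from
`exists_chi`, `ξ x = χ (x i₁) * η (prj p x)`. Then `pd i₁ ξ x = χ' (x i₁) η`,
`pd i ξ x = χ (x i₁) pd i η (prj p x)` for `i ≠ i₁`, so `gd ξ ξ x = χ' ^ 2 η ^ 2 + χ ^ 2 gd η η`. By
`integral_split` (the functions of the coordinate `i₁` are functions on `V {i // ¬ p i}`, which is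
one-dimensional; `∫ χ'^2 ≤ (C / N) ^ 2 4 N`, `∫ χ ^ 2 ≤ 4 N`). -/
theorem exists_cyl [DecidableEq ι] (i₁ : ι) : ∃ C : ℝ, 0 ≤ C ∧ ∀ N : ℝ, 1 ≤ N →
    ∀ η : V {i // i ≠ i₁} → ℝ, T1 η → ∃ ξ : V ι → ℝ, T1 ξ ∧
      (∀ x, |x i₁| ≤ N → η (prj (fun i => i ≠ i₁) x) = 1 → ξ x = 1) ∧
      (∫ x, gd ξ ξ x) ≤ C / N * (∫ y, η y ^ 2) + C * N * ∫ y, gd η η y := by
  obtain ⟨C, hC0, hC⟩ := exists_chi
  refine ⟨4 * C ^ 2 + 4, by positivity, fun N hN η hη => ?_⟩
  obtain ⟨χ, h1, h2, h3, h4, h5⟩ := hC N hN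
  have hN0 : 0 < N := by linarith
  letI hU : Unique {i // ¬ i ≠ i₁} := ⟨⟨⟨i₁, by simp⟩⟩, fun a => Subtype.ext (not_not.1 a.2)⟩
  set g : V {i // ¬ i ≠ i₁} → ℝ := fun z => χ (z default) with hg
  have hgC : ContDiff ℝ 1 g := by
    have h6 : ContDiff ℝ 1 (fun z : V {i // ¬ i ≠ i₁} => z default) := by fun_prop
    exact h1.comp h6
  have hgcs : HasCompactSupport g := gd_line_cs h4
  have hggd : ∀ z, gd g g z = deriv χ (z default) ^ 2 := gd_line_gd h1
  have hgcs2 : HasCompactSupport (gd g g) := hasCompactSupport_gd hgcs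
  have hηi : Continuous fun y => η y ^ 2 := hη.continuous.pow 2
  have hηc : HasCompactSupport fun y => η y ^ 2 := by
    have : (fun y => η y ^ 2) = fun y => η y * η y := by funext y; ring
    rw [this]
    exact hη.2.mul_left
  have hgi : Continuous fun z => g z ^ 2 := hgC.continuous.pow 2
  have hgc : HasCompactSupport fun z => g z ^ 2 := by
    have : (fun z => g z ^ 2) = fun z => g z * g z := by funext y; ring
    rw [this]
    exact hgcs.mul_left
  refine ⟨fun x => η (prj (fun i => i ≠ i₁) x) * g (prj (fun i => ¬ i ≠ i₁) x), ⟨?_, ?_⟩, ?_, ?_⟩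
  · exact (hη.1.comp (prj (fun i => i ≠ i₁)).contDiff).mul
      (hgC.comp (prj (fun i => ¬ i ≠ i₁)).contDiff)
  · exact a6b_cs (fun i => i ≠ i₁) hη.2 hgcs
  · intro x hx hx2
    show η (prj (fun i => i ≠ i₁) x) * χ (x i₁) = 1
    rw [hx2, h3 _ hx, mul_one]
  · have e : ∀ x : V ι, gd (fun x => η (prj (fun i => i ≠ i₁) x) * g (prj (fun i => ¬ i ≠ i₁) x))
        (fun x => η (prj (fun i => i ≠ i₁) x) * g (prj (fun i => ¬ i ≠ i₁) x)) x =
        gd η η (prj (fun i => i ≠ i₁) x) * g (prj (fun i => ¬ i ≠ i₁) x) ^ 2 +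
        η (prj (fun i => i ≠ i₁) x) ^ 2 * gd g g (prj (fun i => ¬ i ≠ i₁) x) :=
      fun x => a6b_gd (fun i => i ≠ i₁) hη.1 hgC x
    simp only [e]
    rw [integral_add (a6b_int (fun i => i ≠ i₁) (continuous_gd hη.1 hη.1) hgi
        (hasCompactSupport_gd hη.2) hgc)
      (a6b_int (fun i => i ≠ i₁) hηi (continuous_gd hgC hgC) hηc hgcs2),
      integral_split (fun i => i ≠ i₁) (gd η η) (fun z => g z ^ 2),
      integral_split (fun i => i ≠ i₁) (fun y => η y ^ 2) (gd g g)]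
    have b1 : ∫ z, g z ^ 2 ≤ 1 * (2 * (2 * N)) := by
      refine gd_int_le (by positivity) hgi hgc ?_ ?_
      · intro z hz
        show χ (z default) ^ 2 = 0
        rw [h4 _ hz.le]
        norm_num
      · intro z
        show χ (z default) ^ 2 ≤ 1
        have := h2 (z default)
        exact pow_le_one₀ this.1 this.2
    have b2 : ∫ z, gd g g z ≤ (C / N) ^ 2 * (2 * (2 * N)) := by
      refine gd_int_le (by positivity) (continuous_gd hgC hgC) hgcs2 ?_ ?_
      · intro z hz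
        rw [hggd]
        have h6 : χ =ᶠ[𝓝 (z default)] fun _ => (0 : ℝ) := by
          have h7 : IsOpen {t : ℝ | 2 * N < |t|} := isOpen_lt continuous_const continuous_abs
          filter_upwards [h7.mem_nhds hz] with t ht
          exact h4 t (le_of_lt ht)
        rw [h6.deriv_eq]
        simp
      · intro z
        rw [hggd, ← sq_abs]
        exact pow_le_pow_left₀ (abs_nonneg _) (h5 _) 2
    have i1 : 0 ≤ ∫ y, gd η η y := integral_nonneg fun y => gd_self_nonneg η y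
    have i2 : 0 ≤ ∫ y, η y ^ 2 := integral_nonneg fun y => sq_nonneg _
    have c1 := mul_le_mul_of_nonneg_left b1 i1
    have c2 := mul_le_mul_of_nonneg_left b2 i2
    have e2 : (C / N) ^ 2 * (2 * (2 * N)) = 4 * C ^ 2 / N := by
      field_simp
      ring
    rw [e2] at c2
    have c3 : (∫ y, gd η η y) * (1 * (2 * (2 * N))) ≤ (4 * C ^ 2 + 4) * N * ∫ y, gd η η y := by
      have : 0 ≤ 4 * C ^ 2 * N * ∫ y, gd η η y := by positivity
      nlinarith
    have c4 : (∫ y, η y ^ 2) * (4 * C ^ 2 / N) ≤ (4 * C ^ 2 + 4) / N * ∫ y, η y ^ 2 := by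
      have : 0 ≤ 4 / N * ∫ y, η y ^ 2 := by positivity
      have e3 : (4 * C ^ 2 + 4) / N * ∫ y, η y ^ 2 =
          (∫ y, η y ^ 2) * (4 * C ^ 2 / N) + 4 / N * ∫ y, η y ^ 2 := by ring
      rw [e3]
      linarith
    linarith

/-- the energy of the logarithmic cutoffs in dimension at most two -/
theorem gd_cut_energy {κ : Type} [Fintype κ] (hn : Fintype.card κ ≤ 2) : ∃ C : ℝ, 0 ≤ C ∧
    ∀ T : ℝ, 1 ≤ T → ∫ x : V κ, gd (cut T) (cut T) x ≤ C / T := by
  obtain ⟨C, hC0, hC⟩ := cut_facts (ι := κ)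
  obtain ⟨C', hC'0, hC'⟩ := shell_vol (ι := κ)
  refine ⟨C ^ 2 * C', by positivity, fun T hT1 => ?_⟩
  have hT0 : 0 < T := by linarith
  obtain ⟨h1, h2, h3, h4, h5, h6⟩ := hC T hT1
  have hcomp := isCompact_shell (ι := κ) T 1 ∅
  have hzero : ∀ x : V κ, x ∉ shell T 1 ∅ → gd (cut T) (cut T) x = 0 := by
    intro x hx
    rw [gd_self, h6 x hx]
    simp
  rw [← setIntegral_eq_integral_of_forall_compl_eq_zero hzero]
  have hcont1 : Continuous fun x : V κ => gd (cut T) (cut T) x := continuous_gd h1.1 h1.1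
  have hcont2 : Continuous fun x : V κ =>
      (C / T) ^ 2 * Real.exp (-(Fintype.card κ : ℝ) * lg x) := by
    have : Continuous (lg : V κ → ℝ) := (contDiff_lg (n := 0)).continuous
    fun_prop
  have hle : ∫ x : V κ in shell T 1 ∅, gd (cut T) (cut T) x ≤
      ∫ x : V κ in shell T 1 ∅, (C / T) ^ 2 * Real.exp (-(Fintype.card κ : ℝ) * lg x) := by
    refine setIntegral_mono_on (hcont1.continuousOn.integrableOn_compact hcomp)
      (hcont2.continuousOn.integrableOn_compact hcomp) hcomp.measurableSet ?_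
    intro x _
    rw [gd_self]
    calc ‖fderiv ℝ (cut T) x‖ ^ 2 ≤ (C / T * Real.exp (-lg x)) ^ 2 :=
          pow_le_pow_left₀ (norm_nonneg _) (h5 x) 2
      _ = (C / T) ^ 2 * Real.exp (-2 * lg x) := by
          rw [mul_pow, ← Real.exp_nat_mul]
          congr 2
          push_cast
          ring
      _ ≤ (C / T) ^ 2 * Real.exp (-(Fintype.card κ : ℝ) * lg x) := by
          refine mul_le_mul_of_nonneg_left (Real.exp_le_exp.2 ?_) (by positivity)
          have hn' : (Fintype.card κ : ℝ) ≤ 2 := by exact_mod_cast hn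
          nlinarith [lg_nonneg x]
  refine hle.trans ?_
  rw [integral_const_mul]
  have h7 := hC' T 1 ∅ hT1 one_pos
  rw [Finset.card_empty, pow_zero, mul_one] at h7
  calc (C / T) ^ 2 * ∫ x : V κ in shell T 1 ∅, Real.exp (-(Fintype.card κ : ℝ) * lg x)
      ≤ (C / T) ^ 2 * (C' * T) := mul_le_mul_of_nonneg_left h7 (by positivity)
    _ = C ^ 2 * C' / T := by field_simp

/-- Proof. `gd v v ≤ K ^ 2`. Let `η = cut T` on `V {i // i ≠ i₁}`, `card {i // i ≠ i₁} = 2`. By C1 and C2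
(as in C3) `∫ gd η η ≤ C₁ / T`; choose `T` with `K ^ 2 C C₁ / T ≤ ε / 2` and with `cut T y = 1` for
`‖y‖ ≤ R`, then `N₀` with `K ^ 2 (C / N₀) ∫ η ^ 2 ≤ (ε / 2) N₀`. As `‖prj x‖ = ‖x - x i₁ • be i₁‖`, `exists_cyl`
gives the statement. -/
theorem cyl_cut1 [DecidableEq ι] {K : ℝ} {v : V ι → ℝ} (hv : GS K v) (i₁ : ι)
    (hn : Fintype.card ι = 3) (R ε : ℝ) (hε : 0 < ε) : ∃ N₀ : ℝ, ∀ N : ℝ, N₀ ≤ N →
      ∃ ξ : V ι → ℝ, T1 ξ ∧ (∀ x, |x i₁| ≤ N → ‖x - x i₁ • be i₁‖ ≤ R → ξ x = 1) ∧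
      ∫ x, gd v v x * gd ξ ξ x ≤ ε * N := by
  have hcard : Fintype.card {i // i ≠ i₁} ≤ 2 := by
    have h1 := Fintype.card_subtype_lt (p := fun i => i ≠ i₁) (x := i₁) (by simp)
    omega
  obtain ⟨C, hC0, hC⟩ := exists_cyl i₁
  obtain ⟨C₁, hC10, hC1⟩ := gd_cut_energy hcard
  obtain ⟨C₂, hC20, hC2⟩ := cut_facts (ι := {i // i ≠ i₁})
  have hK := hv.K_nonneg
  set T : ℝ := max (max 1 (Real.log (1 + R ^ 2) / 2)) (K ^ 2 * C * C₁ / (ε / 2)) with hT
  have hT1 : 1 ≤ T := (le_max_left _ _).trans (le_max_left _ _)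
  have hT2 : Real.log (1 + R ^ 2) / 2 ≤ T := (le_max_right _ _).trans (le_max_left _ _)
  have hT3 : K ^ 2 * C * C₁ / (ε / 2) ≤ T := le_max_right _ _
  have hT0 : 0 < T := by linarith
  obtain ⟨k1, k2, k3, k4, k5, k6⟩ := hC2 T hT1
  set I : ℝ := ∫ y : V {i // i ≠ i₁}, cut T y ^ 2 with hI
  have hI0 : 0 ≤ I := integral_nonneg fun y => sq_nonneg _
  refine ⟨max 1 (K ^ 2 * C * I / (ε / 2)), fun N hN => ?_⟩
  have hN1 : 1 ≤ N := (le_max_left _ _).trans hN
  have hN2 : K ^ 2 * C * I / (ε / 2) ≤ N := (le_max_right _ _).trans hN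
  have hN0 : 0 < N := by linarith
  obtain ⟨ξ, hξ, hξ1, hξ2⟩ := hC N hN1 (cut T) k1
  refine ⟨ξ, hξ, fun x hx hxR => hξ1 x hx (k3 _ ?_), ?_⟩
  · refine le_trans ?_ hT2
    have hnorm : ‖prj (fun i => i ≠ i₁) x‖ ≤ R := by
      rw [← norm_emb (fun i => i ≠ i₁)]
      have e : emb (fun i => i ≠ i₁) (prj (fun i => i ≠ i₁) x) = x - x i₁ • be i₁ := by
        ext i
        rw [emb_apply, PiLp.sub_apply, PiLp.smul_apply, be_apply, smul_eq_mul]
        by_cases h : i = i₁
        · rw [dif_neg (not_not.2 h), if_pos h, h]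
          ring
        · rw [dif_pos h, if_neg h, prj_apply]
          ring
      rw [e]
      exact hxR
    unfold lg
    have h1 : ‖prj (fun i => i ≠ i₁) x‖ ^ 2 ≤ R ^ 2 := pow_le_pow_left₀ (norm_nonneg _) hnorm 2
    have h2 : Real.log (1 + ‖prj (fun i => i ≠ i₁) x‖ ^ 2) ≤ Real.log (1 + R ^ 2) :=
      Real.log_le_log (by positivity) (by linarith)
    linarith
  · have hgv : ∀ x, gd v v x ≤ K ^ 2 := by
      intro x
      rw [gd_self]
      exact pow_le_pow_left₀ (norm_nonneg _) (hv.bdd1 x) 2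
    have hle : ∫ x, gd v v x * gd ξ ξ x ≤ ∫ x, K ^ 2 * gd ξ ξ x := by
      refine integral_mono ?_ ?_ ?_
      · exact integrable_cs ((continuous_gd hv.C1 hv.C1).mul (continuous_gd hξ.1 hξ.1))
          (hasCompactSupport_gd hξ.2).mul_left
      · exact (integrable_gd hξ.1 hξ).const_mul _
      · intro x
        exact mul_le_mul_of_nonneg_right (hgv x) (gd_self_nonneg ξ x)
    refine hle.trans ?_
    rw [integral_const_mul]
    have h1 := hC1 T hT1
    have h2 : ∫ x, gd ξ ξ x ≤ C / N * I + C * N * (C₁ / T) := by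
      refine hξ2.trans ?_
      have := mul_le_mul_of_nonneg_left h1 (by positivity : (0 : ℝ) ≤ C * N)
      linarith
    have h3 : K ^ 2 * (C / N * I) ≤ ε / 2 * N := by
      rw [div_le_iff₀ (by positivity)] at hN2
      have h4 : K ^ 2 * (C / N * I) = K ^ 2 * C * I / N := by ring
      rw [h4, div_le_iff₀ hN0]
      nlinarith [mul_le_mul_of_nonneg_left hN1 (by positivity : (0 : ℝ) ≤ ε / 2 * N)]
    have h5 : K ^ 2 * (C * N * (C₁ / T)) ≤ ε / 2 * N := by
      rw [div_le_iff₀ (by positivity)] at hT3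
      have h6 : K ^ 2 * (C * N * (C₁ / T)) = K ^ 2 * C * C₁ * N / T := by ring
      rw [h6, div_le_iff₀ hT0]
      nlinarith [mul_le_mul_of_nonneg_right hT3 hN0.le]
    have h7 := mul_le_mul_of_nonneg_left h2 (by positivity : (0 : ℝ) ≤ K ^ 2)
    nlinarith

end Pool.Agent.Helper68.DG
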