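import Pool.Agent.Helper68.DG.Base

/-! Project DG (MP_800410_an), piece D1: the one-dimensional profile -/

open MeasureTheory Metric Set Filter Topology
open scoped ContDiff

namespace Pool.Agent.Helper68.DG

variable {ι : Type} [Fintype ι]

/-- A derivative with a limit has limit zero if the function has a limit. -/
theorem d1_lim {f f' : ℝ → ℝ} (hf : ∀ t, HasDerivAt f (f' t) t) {a L : ℝ}
    (h1 : Tendsto f atTop (𝓝 a)) (h2 : Tendsto f' atTop (𝓝 L)) : L = 0 := by
  have h : ∀ t : ℝ, ∃ ξ, t < ξ ∧ ξ < t + 1 ∧ f' ξ = f (t + 1) - f t := by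
    intro t
    obtain ⟨c, hc, hc'⟩ := exists_hasDerivAt_eq_slope f f' (lt_add_one t)
      (fun x _ => (hf x).continuousAt.continuousWithinAt) (fun x _ => hf x)
    refine ⟨c, hc.1, hc.2, ?_⟩
    rw [hc', add_sub_cancel_left, div_one]
  choose ξ h3 h4 h5 using h
  have hξ : Tendsto ξ atTop atTop := tendsto_atTop_mono (fun t => (h3 t).le) tendsto_id
  have e1 : Tendsto (fun t => f' (ξ t)) atTop (𝓝 L) := h2.comp hξ
  have e2 : Tendsto (fun t => f' (ξ t)) atTop (𝓝 (a - a)) := by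
    simp_rw [h5]
    exact (h1.comp (tendsto_atTop_add_const_right _ 1 tendsto_id)).sub h1
  have e3 := tendsto_nhds_unique e1 e2
  rw [e3, sub_self]

/-- The behaviour at plus infinity. -/
theorem d1_top {g : ℝ → ℝ} (hg : ContDiff ℝ 2 g) {M : ℝ} (hM : ∀ t, |g t| ≤ M)
    (hpos : ∀ t, 0 < deriv g t) (heq : ∀ t, deriv (deriv g) t = g t ^ 3 - g t) :
    ∃ c : ℝ, c ^ 3 = c ∧ ∀ t, g t < c ∧
      deriv g t ^ 2 / 2 - (1 - g t ^ 2) ^ 2 / 4 = -((1 - c ^ 2) ^ 2 / 4) := by
  have hd1 : ∀ t, HasDerivAt g (deriv g t) t := fun t =>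
    (hg.differentiable (by norm_num) t).hasDerivAt
  have hd2 : ∀ t, HasDerivAt (deriv g) (g t ^ 3 - g t) t := by
    intro t
    rw [← heq t]
    exact (hg.differentiable_deriv_two t).hasDerivAt
  have hE : ∀ t, HasDerivAt (fun t => deriv g t ^ 2 / 2 - (1 - g t ^ 2) ^ 2 / 4) 0 t := by
    intro t
    have h1 := (((hd2 t).pow 2).div_const 2).sub
      (((((hd1 t).pow 2).const_sub 1).pow 2).div_const 4)
    refine h1.congr_deriv ?_
    simp only [Nat.add_one_sub_one, pow_one, Nat.cast_ofNat, Pi.pow_apply]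
    ring
  have hconst : ∀ t, deriv g t ^ 2 / 2 - (1 - g t ^ 2) ^ 2 / 4 =
      deriv g 0 ^ 2 / 2 - (1 - g 0 ^ 2) ^ 2 / 4 := fun t =>
    is_const_of_deriv_eq_zero (fun t => (hE t).differentiableAt) (fun t => (hE t).deriv) t 0
  set E0 : ℝ := deriv g 0 ^ 2 / 2 - (1 - g 0 ^ 2) ^ 2 / 4 with hE0
  have hsm : StrictMono g := strictMono_of_deriv_pos hpos
  have hbdd : BddAbove (Set.range g) := ⟨M, by
    rintro _ ⟨t, rfl⟩
    exact (le_abs_self _).trans (hM t)⟩
  have hlim := tendsto_atTop_ciSup hsm.monotone hbdd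
  set c : ℝ := ⨆ t, g t with hc
  have hlt : ∀ t, g t < c := fun t =>
    (hsm (lt_add_one t)).trans_le (hsm.monotone.ge_of_tendsto hlim (t + 1))
  set l : ℝ := 2 * E0 + (1 - c ^ 2) ^ 2 / 2 with hl
  have hsq : Tendsto (fun t => deriv g t ^ 2) atTop (𝓝 l) := by
    have h1 : (fun t => deriv g t ^ 2) = fun t => 2 * E0 + (1 - g t ^ 2) ^ 2 / 2 := by
      funext t
      have := hconst t
      linarith
    rw [h1]
    exact ((((hlim.pow 2).const_sub 1).pow 2).div_const 2).const_add _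
  have hl0 : 0 ≤ l := ge_of_tendsto hsq (Eventually.of_forall fun t => sq_nonneg _)
  have hg' : Tendsto (deriv g) atTop (𝓝 (Real.sqrt l)) := by
    have h1 : deriv g = fun t => Real.sqrt (deriv g t ^ 2) := by
      funext t
      rw [Real.sqrt_sq (hpos t).le]
    rw [h1]
    exact hsq.sqrt
  have h2 : Real.sqrt l = 0 := d1_lim hd1 hlim hg'
  have h3 : l = 0 := (Real.sqrt_eq_zero hl0).1 h2
  have h4 : c ^ 3 - c = 0 := d1_lim hd2 hg' ((hlim.pow 3).sub hlim)
  refine ⟨c, by linarith, fun t => ⟨hlt t, ?_⟩⟩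
  rw [hconst t]
  linarith

/-- Proof. The function `g` is increasing and bounded, with limits `c₋ < c₊` at `∓∞`. The
derivative `g'` is Lipschitz (`g'' = g ^ 3 - g` is bounded) and positive with
`∫ g' = c₊ - c₋ < ∞`, so `g' → 0` at `±∞` (if `g' t ≥ ε` then `g' ≥ ε / 2` on an interval of length
`ε / (2 L)` starting at `t`, and `g` increases by a fixed amount on it). The function
`E t = (g' t) ^ 2 / 2 - (1 - g t ^ 2) ^ 2 / 4` has derivative `g' (g'' + g - g ^ 3) = 0`, so it is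
constant, `= - (1 - c₊ ^ 2) ^ 2 / 4 = - (1 - c₋ ^ 2) ^ 2 / 4`. Also `c₊ ^ 3 - c₊ = 0`: `g'' t` tends to
`c₊ ^ 3 - c₊`, and if this were not `0` then `g'` would be unbounded (or: of one sign
and not tending to `0`); similarly for `c₋`. So `c₋ < c₊` are in `{-1, 0, 1}` and have
`(1 - c ^ 2) ^ 2` equal; hence `c₋ = -1`, `c₊ = 1` and `E = 0`. -/
theorem energy_1d {g : ℝ → ℝ} (hg : ContDiff ℝ 2 g) {M : ℝ} (hM : ∀ t, |g t| ≤ M)
    (hpos : ∀ t, 0 < deriv g t) (heq : ∀ t, deriv (deriv g) t = g t ^ 3 - g t) (t : ℝ) :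
    deriv g t ^ 2 = (1 - g t ^ 2) ^ 2 / 2 := by
  obtain ⟨c, hc3, hc⟩ := d1_top hg hM hpos heq
  have hd1 : ∀ t, HasDerivAt g (deriv g t) t := fun t =>
    (hg.differentiable (by norm_num) t).hasDerivAt
  have hd2 : ∀ t, HasDerivAt (deriv g) (g t ^ 3 - g t) t := by
    intro t
    rw [← heq t]
    exact (hg.differentiable_deriv_two t).hasDerivAt
  have hk1 : deriv (fun t => -g (-t)) = fun t => deriv g (-t) := by
    funext t
    have h1 := ((hd1 (-t)).scomp t (hasDerivAt_neg t)).neg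
    refine h1.deriv.trans ?_
    simp
  have hk2 : ∀ t, deriv (deriv (fun t => -g (-t))) t = (-g (-t)) ^ 3 - (-g (-t)) := by
    intro t
    rw [hk1]
    have h1 := (hd2 (-t)).scomp t (hasDerivAt_neg t)
    refine h1.deriv.trans ?_
    rw [smul_eq_mul]
    ring
  obtain ⟨d, hd3, hd⟩ := d1_top (g := fun t => -g (-t)) (hg.comp contDiff_neg).neg (M := M)
    (fun t => by rw [abs_neg]; exact hM _) (fun t => by rw [hk1]; exact hpos _) hk2
  have h1 := hc t
  have h2 := hd (-t)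
  rw [hk1] at h2
  simp only [neg_neg] at h2
  obtain ⟨h3, h4⟩ := h1
  obtain ⟨h5, h6⟩ := h2
  have h7 : (-g t) ^ 2 = g t ^ 2 := by ring
  rw [h7, h4] at h6
  have h8 : (1 - c ^ 2) ^ 2 = (1 - d ^ 2) ^ 2 := by linarith
  have h9 : 0 < c + d := by linarith
  have h10 : c ^ 2 = 1 := by
    by_cases hc0 : c = 0
    · rw [hc0] at h8 h9
      have h11 : d ^ 2 * (2 - d ^ 2) = 0 := by nlinarith
      have h12 : 0 < d := by linarith
      have h13 : d ^ 2 = 1 := by
        have h14 : d * (d ^ 2 - 1) = 0 := by linarith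
        rcases mul_eq_zero.1 h14 with h15 | h15
        · exact absurd h15 h12.ne'
        · linarith
      rw [h13] at h11
      norm_num at h11
    · have h14 : c * (c ^ 2 - 1) = 0 := by linarith
      rcases mul_eq_zero.1 h14 with h15 | h15
      · exact absurd h15 hc0
      · linarith
  rw [h10] at h4
  linarith

end Pool.Agent.Helper68.DG
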