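import Pool.Agent.Helper68.DG.Base
import Pool.Agent.Helper68.DG.D1

/-! Project DG (MP_800410_an), piece D2: the energy estimate for one-dimensional solutions -/

open MeasureTheory Metric Set Filter Topology
open scoped ContDiff

namespace Pool.Agent.Helper68.DG

variable {ι : Type} [Fintype ι]

theorem d2_inner {v : V ι → ℝ} {a : V ι} (ha : ‖a‖ = 1)
    (hb : ∀ b : V ι, inner ℝ a b = 0 → ∀ x, fderiv ℝ v x b = 0) (x b : V ι) :
    fderiv ℝ v x b = inner ℝ a b * fderiv ℝ v x a := by
  have haa : inner ℝ a a = (1 : ℝ) := by rw [real_inner_self_eq_norm_sq, ha]; norm_num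
  have h := hb (b - (inner ℝ a b : ℝ) • a) (by
    rw [inner_sub_right, real_inner_smul_right, haa]; ring) x
  rw [map_sub, map_smul, smul_eq_mul] at h
  linarith

theorem d2_gd {v : V ι → ℝ} {a : V ι} (ha : ‖a‖ = 1)
    (hb : ∀ b : V ι, inner ℝ a b = 0 → ∀ x, fderiv ℝ v x b = 0) (x : V ι) :
    gd v v x = (fderiv ℝ v x a) ^ 2 := by
  unfold gd pd
  have h : ∀ i, fderiv ℝ v x (be i) * fderiv ℝ v x (be i) = a i ^ 2 * (fderiv ℝ v x a) ^ 2 := by
    intro i
    rw [d2_inner ha hb x (be i), real_inner_comm, inner_be]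
    ring
  simp_rw [h]
  rw [← Finset.sum_mul]
  have h2 : ∑ i, a i ^ 2 = 1 := by
    have h3 := EuclideanSpace.norm_sq_eq a
    rw [ha] at h3
    simp only [Real.norm_eq_abs, sq_abs] at h3
    rw [← h3]; norm_num
  rw [h2, one_mul]

theorem d2_ridge {v : V ι → ℝ} {a : V ι} (hv : Differentiable ℝ v) (ha : ‖a‖ = 1)
    (hb : ∀ b : V ι, inner ℝ a b = 0 → ∀ x, fderiv ℝ v x b = 0) (x : V ι) :
    v x = v ((inner ℝ a x : ℝ) • a) := by
  have haa : inner ℝ a a = (1 : ℝ) := by rw [real_inner_self_eq_norm_sq, ha]; norm_num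
  set w : V ι := x - (inner ℝ a x : ℝ) • a with hw
  have hwa : inner ℝ a w = (0 : ℝ) := by
    rw [hw, inner_sub_right, real_inner_smul_right, haa]; ring
  have hd : ∀ s : ℝ, HasDerivAt (fun s : ℝ => v ((inner ℝ a x : ℝ) • a + s • w)) 0 s := by
    intro s
    have h1 : HasDerivAt (fun s : ℝ => (inner ℝ a x : ℝ) • a + s • w) ((1 : ℝ) • w) s :=
      ((hasDerivAt_id s).smul_const w).const_add _
    have h2 := (hv ((inner ℝ a x : ℝ) • a + s • w)).hasFDerivAt.comp_hasDerivAt s h1
    rw [one_smul, hb w hwa] at h2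
    exact h2
  have hc := is_const_of_deriv_eq_zero (fun s => (hd s).differentiableAt)
    (fun s => (hd s).deriv) 1 0
  simp only [one_smul, zero_smul, add_zero] at hc
  rw [← hc, hw]
  congr 1
  abel

theorem d2_lap {v : V ι → ℝ} {a : V ι} (hv : ContDiff ℝ 2 v) (ha : ‖a‖ = 1)
    (hb : ∀ b : V ι, inner ℝ a b = 0 → ∀ x, fderiv ℝ v x b = 0) (x : V ι) :
    lap v x = fderiv ℝ (fun y => fderiv ℝ v y a) x a := by
  have hD : ContDiff ℝ 1 (fun y => fderiv ℝ v y a) :=
    (hv.fderiv_right (m := 1) (by norm_num)).clm_apply contDiff_const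
  rw [fderiv_apply_eq]
  unfold lap
  apply Finset.sum_congr rfl
  intro i _
  have h : pd i v = fun y => a i * (fun y => fderiv ℝ v y a) y := by
    funext y
    unfold pd
    rw [d2_inner ha hb y (be i), real_inner_comm, inner_be]
  rw [h]
  exact pd_const_mul (a i) ((hD.differentiable one_ne_zero) x) i

theorem d2_unit {K : ℝ} {v : V ι → ℝ} (hv : GS K v) {a : V ι} (ha : ‖a‖ = 1)
    (hb : ∀ b : V ι, inner ℝ a b = 0 → ∀ x, fderiv ℝ v x b = 0)
    (hp : ∀ x, 0 < fderiv ℝ v x a) : EE v := by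
  have haa : inner ℝ a a = (1 : ℝ) := by rw [real_inner_self_eq_norm_sq, ha]; norm_num
  have hdiff : Differentiable ℝ v := hv.C1.differentiable one_ne_zero
  have hD : ContDiff ℝ 1 (fun y => fderiv ℝ v y a) :=
    (hv.smooth.fderiv_right (m := 1) (by norm_num)).clm_apply contDiff_const
  set g : ℝ → ℝ := fun t => v (t • a) with hgdef
  have hline : ∀ t : ℝ, HasDerivAt (fun s : ℝ => s • a) a t := by
    intro t
    have h := (hasDerivAt_id t).smul_const a
    rw [one_smul] at h
    exact h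
  have hg : ContDiff ℝ 2 g := hv.smooth.comp (contDiff_id.smul contDiff_const)
  have hg1 : ∀ t, HasDerivAt g (fderiv ℝ v (t • a) a) t := fun t =>
    (hdiff (t • a)).hasFDerivAt.comp_hasDerivAt t (hline t)
  have hg1' : deriv g = fun t => fderiv ℝ v (t • a) a := by
    funext t; exact (hg1 t).deriv
  have hg2 : ∀ t, deriv (deriv g) t = g t ^ 3 - g t := by
    intro t
    have h1 : HasDerivAt (fun t : ℝ => fderiv ℝ v (t • a) a)
        (fderiv ℝ (fun y => fderiv ℝ v y a) (t • a) a) t := by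
      have h2 := ((hD.differentiable one_ne_zero) (t • a)).hasFDerivAt
      exact h2.comp_hasDerivAt t (hline t)
    rw [hg1', h1.deriv, ← d2_lap hv.smooth ha hb, lap_eq hv]
  have hen1 := energy_1d hg (M := K) (fun t => hv.bdd _) (fun t => by rw [hg1']; exact hp _) hg2
  have hv2 : ∀ x, v x = g (inner ℝ a x) := fun x => d2_ridge hdiff ha hb x
  have hDx : ∀ x, fderiv ℝ v x a = deriv g (inner ℝ a x) := by
    intro x
    have h1 : HasDerivAt (fun s : ℝ => v (x + s • a)) (fderiv ℝ v x a) 0 := by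
      have h2 : HasDerivAt (fun s : ℝ => x + s • a) a 0 := (hline 0).const_add x
      have h3 : HasFDerivAt v (fderiv ℝ v x) (x + (0 : ℝ) • a) := by
        rw [zero_smul, add_zero]; exact (hdiff x).hasFDerivAt
      exact h3.comp_hasDerivAt 0 h2
    have h4 : (fun s : ℝ => v (x + s • a)) = fun s : ℝ => g (inner ℝ a x + s) := by
      funext s
      rw [hv2, inner_add_right, real_inner_smul_right, haa, mul_one]
    rw [h4] at h1
    have h5 : HasDerivAt (fun s : ℝ => g (inner ℝ a x + s)) (deriv g (inner ℝ a x)) 0 := by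
      have h6 : HasDerivAt g (deriv g (inner ℝ a x)) (inner ℝ a x + 0) := by
        rw [add_zero]; exact (hg.differentiable (by norm_num) _).hasDerivAt
      have h7 := h6.comp (0 : ℝ) ((hasDerivAt_id (0 : ℝ)).const_add (inner ℝ a x : ℝ))
      rw [mul_one] at h7
      exact h7
    exact h1.unique h5
  have hen : ∀ x, en v x = (fderiv ℝ v x a) ^ 2 := by
    intro x
    unfold en
    rw [d2_gd ha hb x]
    have h1 := hen1 (inner ℝ a x)
    rw [← hDx, ← hv2] at h1
    linarith
  have hDK : ∀ x, fderiv ℝ v x a ≤ K := by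
    intro x
    have h1 := (fderiv ℝ v x).le_opNorm a
    rw [ha, mul_one] at h1
    exact (le_abs_self _).trans (h1.trans (hv.bdd1 x))
  refine ⟨K * K, fun ζ hζ hζ0 => ?_⟩
  have hcen : Continuous (en v) := by
    have : en v = fun x => (fderiv ℝ v x a) ^ 2 := by funext x; exact hen x
    rw [this]
    exact hD.continuous.pow 2
  have i1 : Integrable (fun x => ζ x * en v x) :=
    integrable_cs (hζ.continuous.mul hcen) hζ.2.mul_right
  have i2 : Integrable (fun x => fderiv ℝ v x a * ζ x) := integrable_mul_T1 hD.continuous hζ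
  have i3 : Integrable (fun x => ‖fderiv ℝ ζ x‖) :=
    integrable_cs (hζ.1.continuous_fderiv one_ne_zero).norm (hζ.2.fderiv (𝕜 := ℝ)).norm
  have s1 : ∫ x, ζ x * en v x ≤ ∫ x, K * (fderiv ℝ v x a * ζ x) := by
    apply integral_mono i1 (i2.const_mul K)
    intro x
    show ζ x * en v x ≤ K * (fderiv ℝ v x a * ζ x)
    rw [hen]
    have h1 : (fderiv ℝ v x a) ^ 2 ≤ K * fderiv ℝ v x a := by
      rw [pow_two]
      exact mul_le_mul_of_nonneg_right (hDK x) (hp x).le
    nlinarith [mul_le_mul_of_nonneg_left h1 (hζ0 x)]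
  have s2 : ∫ x, fderiv ℝ v x a * ζ x = - ∫ x, v x * fderiv ℝ ζ x a := by
    have e1 : (fun x => fderiv ℝ v x a * ζ x) = fun x => ∑ i, a i * (pd i v x * ζ x) := by
      funext x
      rw [fderiv_apply_eq, Finset.sum_mul]
      apply Finset.sum_congr rfl
      intro i _
      ring
    have e2 : (fun x => v x * fderiv ℝ ζ x a) = fun x => ∑ i, a i * (v x * pd i ζ x) := by
      funext x
      rw [fderiv_apply_eq, Finset.mul_sum]
      apply Finset.sum_congr rfl
      intro i _
      ring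
    rw [e1, e2, integral_finsetSum, integral_finsetSum, ← Finset.sum_neg_distrib]
    · apply Finset.sum_congr rfl
      intro i _
      rw [integral_const_mul, integral_const_mul, ibp hv.C1 hζ i]
      ring
    · intro i _
      exact (integrable_cs (hv.C1.continuous.mul (continuous_pd hζ.1 i))
        (hasCompactSupport_pd hζ.2 i).mul_left).const_mul _
    · intro i _
      exact (integrable_mul_T1 (continuous_pd hv.C1 i) hζ).const_mul _
  have s3 : - ∫ x, v x * fderiv ℝ ζ x a ≤ ∫ x, K * ‖fderiv ℝ ζ x‖ := by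
    rw [← integral_neg]
    apply integral_mono _ (i3.const_mul K)
    · intro x
      show -(v x * fderiv ℝ ζ x a) ≤ K * ‖fderiv ℝ ζ x‖
      have h1 := (fderiv ℝ ζ x).le_opNorm a
      rw [ha, mul_one, Real.norm_eq_abs] at h1
      calc -(v x * fderiv ℝ ζ x a) ≤ |v x * fderiv ℝ ζ x a| := neg_le_abs _
        _ = |v x| * |fderiv ℝ ζ x a| := abs_mul _ _
        _ ≤ K * ‖fderiv ℝ ζ x‖ :=
          mul_le_mul (hv.bdd x) h1 (abs_nonneg _) hv.K_nonneg
    · apply Integrable.neg
      have hc : Continuous (fun x => fderiv ℝ ζ x a) :=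
        (hζ.1.continuous_fderiv one_ne_zero).clm_apply continuous_const
      have hcs : HasCompactSupport (fun x => fderiv ℝ ζ x a) :=
        (hζ.2.fderiv (𝕜 := ℝ)).comp_left (g := fun L : V ι →L[ℝ] ℝ => L a) (by simp)
      exact integrable_cs (hv.C1.continuous.mul hc) hcs.mul_left
  calc ∫ x, ζ x * en v x ≤ ∫ x, K * (fderiv ℝ v x a * ζ x) := s1
    _ = K * ∫ x, fderiv ℝ v x a * ζ x := integral_const_mul _ _
    _ ≤ K * ∫ x, K * ‖fderiv ℝ ζ x‖ := by
      apply mul_le_mul_of_nonneg_left _ hv.K_nonneg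
      rw [s2]; exact s3
    _ = K * K * ∫ x, ‖fderiv ℝ ζ x‖ := by rw [integral_const_mul, mul_assoc]

theorem d2_const {v : V ι → ℝ} {c : ℝ} (hc : c ^ 2 = 1) (h : ∀ x, v x = c) : EE v := by
  have hv : v = fun _ => c := funext h
  refine ⟨0, fun ζ _ _ => ?_⟩
  have he : ∀ x, en v x = 0 := by
    intro x
    unfold en
    rw [gd_self, hv]
    simp [hc]
  simp [he]

/-- Proof. If `v = 1` or `v = -1` everywhere then `en v = 0`; take `C = 0`. Otherwise there is an `a`
with `0 < fderiv ℝ v x a` for all `x` and `fderiv ℝ v x b = 0` for `b ⟂ a`; `a ≠ 0`, and we may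
normalise `‖a‖ = 1`. Then `fderiv ℝ v x b = inner ℝ a b * fderiv ℝ v x a` for all `b`, so
`gd v v x = (fderiv ℝ v x a) ^ 2`, and `v x = g (inner ℝ a x)` with `g t = v (t • a)` (the derivative
of `v` in the directions orthogonal to `a` vanishes). One has `deriv g t = fderiv ℝ v (t • a) a > 0`,
and `lap v x = deriv (deriv g) (inner ℝ a x)` (as `∑ i, (a i) ^ 2 = 1`), so
`deriv (deriv g) = g ^ 3 - g`. By D1, `en v x = (fderiv ℝ v x a) ^ 2 ≤ K * fderiv ℝ v x a`. For a test
function `ζ ≥ 0` integration by parts (`ibp`, `fderiv_apply_eq`) gives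
`∫ ζ * en v ≤ K ∫ ζ * fderiv v a = - K ∫ v * fderiv ζ a ≤ K ^ 2 ∫ ‖fderiv ζ‖`. -/
theorem EE_of_AM {K : ℝ} {v : V ι → ℝ} (hv : GS K v) (ham : AM v) : EE v := by
  obtain ⟨a, hb, h | h | h⟩ := ham
  · have ha : a ≠ 0 := by
      rintro rfl
      have := h 0
      simp at this
    have hn : 0 < ‖a‖ := norm_pos_iff.mpr ha
    apply d2_unit hv (a := ‖a‖⁻¹ • a)
    · rw [norm_smul, norm_inv, norm_norm, inv_mul_cancel₀ hn.ne']
    · intro b hb' x
      rw [real_inner_smul_left] at hb'
      exact hb b ((mul_eq_zero.mp hb').resolve_left (inv_ne_zero hn.ne')) x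
    · intro x
      rw [map_smul, smul_eq_mul]
      exact mul_pos (inv_pos.mpr hn) (h x)
  · exact d2_const (by norm_num) h
  · exact d2_const (by norm_num) h

end Pool.Agent.Helper68.DG
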