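import Pool.Agent.Helper68.DG.Base

/-! Project DG (MP_800410_an), piece D3: the energy estimate and the profile -/

open MeasureTheory Metric Set Filter Topology
open scoped ContDiff

namespace Pool.Agent.Helper68.DG

variable {ι : Type} [Fintype ι]

/-- differentiation under the integral sign -/
theorem d3_deriv {ρ h : V ι → ℝ} (hρ : Continuous ρ) (hc : HasCompactSupport ρ)
    (hh : ContDiff ℝ 1 h) (e : V ι) (t : ℝ) :
    HasDerivAt (fun s : ℝ => ∫ x, ρ x * h (x + s • e))
      (∫ x, ρ x * fderiv ℝ h (x + t • e) e) t := by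
  have hf0 : Continuous (fderiv ℝ h) := hh.continuous_fderiv one_ne_zero
  have hfd : Continuous (fun p : ℝ × V ι => fderiv ℝ h (p.2 + p.1 • e) e) := by
    exact (hf0.comp (by fun_prop)).clm_apply continuous_const
  obtain ⟨M, hM⟩ := ((isCompact_closedBall t 1).prod hc.isCompact).exists_bound_of_continuousOn
    hfd.continuousOn
  refine (hasDerivAt_integral_of_dominated_loc_of_deriv_le
    (F := fun s x => ρ x * h (x + s • e)) (F' := fun s x => ρ x * fderiv ℝ h (x + s • e) e)
    (bound := fun x => |ρ x| * M) (Metric.ball_mem_nhds t one_pos) ?_ ?_ ?_ ?_ ?_ ?_).2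
  · refine Filter.Eventually.of_forall fun s => ?_
    exact (hρ.mul (hh.continuous.comp (by fun_prop))).aestronglyMeasurable
  · exact integrable_cs (hρ.mul (hh.continuous.comp (by fun_prop))) hc.mul_right
  · exact (hρ.mul ((hf0.comp (by fun_prop)).clm_apply continuous_const)).aestronglyMeasurable
  · refine Filter.Eventually.of_forall fun x s hs => ?_
    rw [norm_mul, Real.norm_eq_abs]
    by_cases hx : x ∈ tsupport ρ
    · exact mul_le_mul_of_nonneg_left
        (hM (s, x) ⟨Metric.ball_subset_closedBall hs, hx⟩) (abs_nonneg _)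
    · rw [image_eq_zero_of_notMem_tsupport hx]
      simp
  · exact (integrable_cs hρ hc).abs.mul_const M
  · refine Filter.Eventually.of_forall fun x s _ => ?_
    have h1 : HasFDerivAt h (fderiv ℝ h (x + s • e)) (x + s • e) :=
      ((hh.differentiable one_ne_zero) _).hasFDerivAt
    have h2 : HasDerivAt (fun r : ℝ => x + r • e) e s := by
      simpa using ((hasDerivAt_id s).smul_const e).const_add x
    have h3 := h1.comp_hasDerivAt s h2
    exact h3.const_mul (ρ x)

theorem d3_contDiff_en {u : V ι → ℝ} (hu : ContDiff ℝ 2 u) : ContDiff ℝ 1 (en u) := by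
  have h1 : ContDiff ℝ 1 u := hu.of_le (by norm_num)
  have h2 : ContDiff ℝ 1 (gd u u) := by
    unfold gd
    exact ContDiff.sum fun i _ => (contDiff_pd_one hu i).mul (contDiff_pd_one hu i)
  unfold en
  exact (h2.div_const _).add (((contDiff_const.sub (h1.pow 2)).pow 2).div_const _)

theorem d3_contDiff_w {u : V ι → ℝ} (hu : ContDiff ℝ 2 u) (e : V ι) :
    ContDiff ℝ 1 (fun x => fderiv ℝ u x e) :=
  (hu.fderiv_right (m := 1) (by norm_num)).clm_apply contDiff_const

theorem d3_sym {u : V ι → ℝ} (hu : ContDiff ℝ 2 u) (e x : V ι) (i : ι) :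
    fderiv ℝ (pd i u) x e = pd i (fun x => fderiv ℝ u x e) x := by
  have h1 : DifferentiableAt ℝ (fderiv ℝ u) x :=
    ((hu.fderiv_right (m := 1) (by norm_num)).differentiable one_ne_zero) x
  have h2 : ∀ a b : V ι, fderiv ℝ (fun y => fderiv ℝ u y a) x b =
      fderiv ℝ (fderiv ℝ u) x b a := by
    intro a b
    have h3 := (h1.hasFDerivAt.clm_apply (hasFDerivAt_const a x)).fderiv
    rw [h3]
    simp
  unfold pd
  rw [h2, h2]
  have hs := (hu.contDiffAt (x := x)).isSymmSndFDerivAt (by simp)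
  exact hs.eq _ _

/-- the derivative of the energy density in the direction `e` -/
theorem d3_fderiv_en {u : V ι → ℝ} (hu : ContDiff ℝ 2 u) (e x : V ι) :
    fderiv ℝ (en u) x e =
      gd u (fun x => fderiv ℝ u x e) x - (u x - u x ^ 3) * fderiv ℝ u x e := by
  have hd : HasFDerivAt u (fderiv ℝ u x) x :=
    ((hu.differentiable two_ne_zero) x).hasFDerivAt
  have hp : ∀ i, HasFDerivAt (pd i u) (fderiv ℝ (pd i u) x) x := fun i =>
    (((contDiff_pd_one hu i).differentiable one_ne_zero) x).hasFDerivAt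
  have h1 : HasFDerivAt (gd u u)
      (∑ i, (pd i u x • fderiv ℝ (pd i u) x + pd i u x • fderiv ℝ (pd i u) x)) x := by
    have := HasFDerivAt.fun_sum (u := Finset.univ) (fun i _ => (hp i).mul (hp i))
    exact this
  have h2 : HasFDerivAt (en u) ((1 / 2 : ℝ) • (∑ i, (pd i u x • fderiv ℝ (pd i u) x +
      pd i u x • fderiv ℝ (pd i u) x)) + (-(u x - u x ^ 3)) • fderiv ℝ u x) x := by
    have h3 : HasDerivAt (fun s : ℝ => (1 - s ^ 2) ^ 2 / 4) (-(u x - u x ^ 3)) (u x) := by
      have := (((((hasDerivAt_id (u x)).pow 2).const_sub 1).pow 2).div_const 4)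
      refine this.congr_deriv ?_
      simp only [Pi.pow_apply, id, Nat.cast_ofNat]
      ring
    have h4 := h3.comp_hasFDerivAt x hd
    have h5 := (h1.const_mul (1 / 2 : ℝ)).add h4
    have h6 : ((fun y => (1 / 2 : ℝ) * gd u u y) + (fun s : ℝ => (1 - s ^ 2) ^ 2 / 4) ∘ u) =
        en u := by
      funext y
      simp only [Pi.add_apply, Function.comp, en]
      ring
    rw [h6] at h5
    exact h5
  rw [h2.fderiv]
  simp only [add_apply, smul_apply, sum_apply, smul_eq_mul]
  unfold gd
  simp only [d3_sym hu]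
  rw [Finset.sum_add_distrib]
  ring

/-- Proof. Let `ζ ≥ 0` be a test function, `w x = fderiv ℝ u x e ≥ 0` (`C¹`). For real `t` put
`J t = ∫ ζ x * en u (x + t • e) + K * ∫ ‖fderiv ℝ ζ x‖ * u (x + t • e)`.
Differentiate under the integral sign (`hasDerivAt_integral_of_dominated_loc_of_deriv_le`; everything
is bounded and `ζ`, `fderiv ζ` have compact support): the derivative of `en u` in the direction `e` is
`∑ i, pd i u * pd i w - (u - u ^ 3) * w` (symmetry of the second derivatives). So with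
`u_t x = u (x + t • e)`, `w_t x = w (x + t • e)`,
`J' t = ∫ ζ (gd u_t w_t - (u_t - u_t ^ 3) w_t) + K ∫ ‖fderiv ζ‖ w_t`. The weak form of the equation of
`u_t` (it also is a `GS K`) with the test function `w_t * ζ`,
`gd u_t (w_t ζ) = ζ gd u_t w_t + w_t gd u_t ζ`, gives
`∫ ζ (gd u_t w_t - (u_t - u_t ^ 3) w_t) = - ∫ w_t gd u_t ζ ≥ - K ∫ w_t ‖fderiv ζ‖`. So `J' ≥ 0` and
`J 0 ≤ J t` for `t ≥ 0`; as `|u| ≤ K`,
`∫ ζ * en u ≤ ∫ ζ x * en u (x + t • e) + 2 K ^ 2 ∫ ‖fderiv ζ‖`. For `t → ∞` the integrand converges to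
`ζ * en v` (`en u = ‖fderiv u‖ ^ 2 / 2 + (1 - u ^ 2) ^ 2 / 4`), dominated convergence; then use
`EE v`. -/
theorem EE_of_profile {K : ℝ} {u v : V ι → ℝ} (hu : GS K u) (hv : GS K v) (e : V ι)
    (he : ∀ x, 0 ≤ fderiv ℝ u x e)
    (hlim : ∀ x, Tendsto (fun t : ℝ => u (x + t • e)) atTop (𝓝 (v x)))
    (hlim' : ∀ x, Tendsto (fun t : ℝ => fderiv ℝ u (x + t • e)) atTop (𝓝 (fderiv ℝ v x)))
    (hEE : EE v) : EE u := by
  obtain ⟨C, hC⟩ := hEE
  refine ⟨C + 2 * K ^ 2, fun ζ hζ hζ0 => ?_⟩
  have hK := hu.K_nonneg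
  have hgc : Continuous (fun x => ‖fderiv ℝ ζ x‖) := (hζ.1.continuous_fderiv one_ne_zero).norm
  have hgs : HasCompactSupport (fun x => ‖fderiv ℝ ζ x‖) := (hζ.2.fderiv (𝕜 := ℝ)).norm
  have hgi : Integrable (fun x => ‖fderiv ℝ ζ x‖) := integrable_cs hgc hgs
  have hζi : Integrable ζ := integrable_cs hζ.continuous hζ.2
  set J : ℝ → ℝ := fun t => (∫ x, ζ x * en u (x + t • e)) +
    K * ∫ x, ‖fderiv ℝ ζ x‖ * u (x + t • e) with hJ
  set J' : ℝ → ℝ := fun t => (∫ x, ζ x * fderiv ℝ (en u) (x + t • e) e) +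
    K * ∫ x, ‖fderiv ℝ ζ x‖ * fderiv ℝ u (x + t • e) e with hJ'
  have hder : ∀ t, HasDerivAt J (J' t) t := by
    intro t
    exact (d3_deriv hζ.continuous hζ.2 (d3_contDiff_en hu.smooth) e t).add
      ((d3_deriv hgc hgs hu.C1 e t).const_mul K)
  have hnn : ∀ t, 0 ≤ J' t := by
    intro t
    -- the translates
    set ut : V ι → ℝ := fun x => u (x + t • e) with hut
    set wt : V ι → ℝ := fun x => fderiv ℝ u (x + t • e) e with hwt
    have hutC : ContDiff ℝ 2 ut := hu.smooth.comp (contDiff_id.add contDiff_const)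
    have hwtC : ContDiff ℝ 1 wt :=
      (d3_contDiff_w hu.smooth e).comp (contDiff_id.add contDiff_const)
    have hφ : T1 (fun x => wt x * ζ x) := T1.mul hwtC hζ
    have hw := integral_gd hutC hφ
    have hgd : ∀ x, gd ut (fun x => wt x * ζ x) x = ζ x * gd ut wt x + wt x * gd ut ζ x := by
      intro x
      unfold gd
      rw [Finset.mul_sum, Finset.mul_sum, ← Finset.sum_add_distrib]
      apply Finset.sum_congr rfl
      intro i _
      rw [pd_mul ((hwtC.differentiable one_ne_zero) x) ((hζ.1.differentiable one_ne_zero) x)]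
      ring
    have hutC1 : ContDiff ℝ 1 ut := hutC.of_le (by norm_num)
    have hi1 : Integrable (fun x => ζ x * gd ut wt x) :=
      integrable_cs (hζ.continuous.mul (continuous_gd hutC1 hwtC)) hζ.2.mul_right
    have hi2 : Integrable (fun x => wt x * gd ut ζ x) :=
      integrable_cs (hwtC.continuous.mul (continuous_gd hutC1 hζ.1))
        (hasCompactSupport_gd hζ.2).mul_left
    have hi3 : Integrable (fun x => (ut x - ut x ^ 3) * (wt x * ζ x)) := by
      refine integrable_mul_T1 ?_ hφ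
      exact hutC.continuous.sub (hutC.continuous.pow 3)
    have hlap : ∀ x, lap ut x = -(ut x - ut x ^ 3) := by
      intro x
      rw [hut, lap_translate, lap_eq hu]
      ring
    have e1 : (∫ x, ζ x * gd ut wt x) + ∫ x, wt x * gd ut ζ x =
        ∫ x, (ut x - ut x ^ 3) * (wt x * ζ x) := by
      rw [← integral_add hi1 hi2]
      have : (fun x => ζ x * gd ut wt x + wt x * gd ut ζ x) =
          gd ut (fun x => wt x * ζ x) := by
        funext x; rw [hgd]
      rw [this, hw, ← integral_neg]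
      congr 1
      funext x
      rw [hlap]
      ring
    have e2 : (∫ x, ζ x * fderiv ℝ (en u) (x + t • e) e) =
        (∫ x, ζ x * gd ut wt x) - ∫ x, (ut x - ut x ^ 3) * (wt x * ζ x) := by
      rw [← integral_sub hi1 hi3]
      congr 1
      funext x
      rw [d3_fderiv_en hu.smooth]
      have : gd u (fun x => fderiv ℝ u x e) (x + t • e) = gd ut wt x := by
        unfold gd
        apply Finset.sum_congr rfl
        intro i _
        rw [hut, hwt, pd_translate, pd_translate (fun x => fderiv ℝ u x e)]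
      rw [this]
      simp only [hut, hwt]
      ring
    have e3 : (∫ x, wt x * gd ut ζ x) ≤ K * ∫ x, ‖fderiv ℝ ζ x‖ * wt x := by
      rw [← integral_const_mul]
      apply integral_mono hi2
      · exact (integrable_cs (hgc.mul hwtC.continuous) hgs.mul_right).const_mul K
      · intro x
        have h1 : gd ut ζ x ≤ K * ‖fderiv ℝ ζ x‖ := by
          refine (le_abs_self _).trans ((abs_gd_le _ _ _).trans ?_)
          apply mul_le_mul_of_nonneg_right _ (norm_nonneg _)
          have : fderiv ℝ ut x = fderiv ℝ u (x + t • e) := by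
            rw [hut, fderiv_comp_add_right]
          rw [this]
          exact hu.bdd1 _
        have h2 : 0 ≤ wt x := he _
        have h3 := mul_le_mul_of_nonneg_left h1 h2
        change wt x * gd ut ζ x ≤ K * (‖fderiv ℝ ζ x‖ * wt x)
        calc wt x * gd ut ζ x ≤ wt x * (K * ‖fderiv ℝ ζ x‖) := h3
          _ = K * (‖fderiv ℝ ζ x‖ * wt x) := by ring
    have e4 : J' t = (∫ x, ζ x * fderiv ℝ (en u) (x + t • e) e) +
        K * ∫ x, ‖fderiv ℝ ζ x‖ * wt x := rfl
    rw [e4, e2]
    linarith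
  have hmono : Monotone J := by
    apply monotone_of_deriv_nonneg
    · exact fun t => (hder t).differentiableAt
    · intro t
      rw [(hder t).deriv]
      exact hnn t
  -- the limit
  have hen : ∀ x, |en u x| ≤ K ^ 2 / 2 + (1 + K ^ 2) ^ 2 / 4 := by
    intro x
    have h1 : 0 ≤ en u x := by
      unfold en
      have := gd_self_nonneg u x
      positivity
    rw [abs_of_nonneg h1]
    unfold en
    rw [gd_self]
    have h2 : ‖fderiv ℝ u x‖ ^ 2 ≤ K ^ 2 := pow_le_pow_left₀ (norm_nonneg _) (hu.bdd1 x) 2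
    have h3 : u x ^ 2 ≤ K ^ 2 := by
      rw [← sq_abs]
      exact pow_le_pow_left₀ (abs_nonneg _) (hu.bdd x) 2
    have h4 : (1 - u x ^ 2) ^ 2 ≤ (1 + K ^ 2) ^ 2 := by
      apply sq_le_sq'
      · nlinarith [sq_nonneg (u x)]
      · nlinarith [sq_nonneg (u x)]
    linarith
  have hl1 : Tendsto (fun t : ℝ => ∫ x, ζ x * en u (x + t • e)) atTop
      (𝓝 (∫ x, ζ x * en v x)) := by
    refine tendsto_integral_filter_of_dominated_convergence
      (fun x => |ζ x| * (K ^ 2 / 2 + (1 + K ^ 2) ^ 2 / 4)) ?_ ?_ ?_ ?_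
    · refine Filter.Eventually.of_forall fun t => ?_
      exact (hζ.continuous.mul ((d3_contDiff_en hu.smooth).continuous.comp
        (by fun_prop))).aestronglyMeasurable
    · refine Filter.Eventually.of_forall fun t => Filter.Eventually.of_forall fun x => ?_
      rw [norm_mul, Real.norm_eq_abs, Real.norm_eq_abs]
      exact mul_le_mul_of_nonneg_left (hen _) (abs_nonneg _)
    · exact hζi.abs.mul_const _
    · refine Filter.Eventually.of_forall fun x => ?_
      apply Tendsto.const_mul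
      have h1 : ∀ z : V ι → ℝ, ∀ y, en z y = ‖fderiv ℝ z y‖ ^ 2 / 2 + (1 - z y ^ 2) ^ 2 / 4 := by
        intro z y
        unfold en
        rw [gd_self]
      simp only [h1]
      exact (((hlim' x).norm.pow 2).div_const 2).add
        (((tendsto_const_nhds.sub ((hlim x).pow 2)).pow 2).div_const 4)
  have hl2 : Tendsto (fun t : ℝ => ∫ x, ‖fderiv ℝ ζ x‖ * u (x + t • e)) atTop
      (𝓝 (∫ x, ‖fderiv ℝ ζ x‖ * v x)) := by
    refine tendsto_integral_filter_of_dominated_convergence
      (fun x => ‖fderiv ℝ ζ x‖ * K) ?_ ?_ ?_ ?_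
    · refine Filter.Eventually.of_forall fun t => ?_
      exact (hgc.mul (hu.C1.continuous.comp (by fun_prop))).aestronglyMeasurable
    · refine Filter.Eventually.of_forall fun t => Filter.Eventually.of_forall fun x => ?_
      rw [norm_mul, norm_norm, Real.norm_eq_abs]
      exact mul_le_mul_of_nonneg_left (hu.bdd _) (norm_nonneg _)
    · exact hgi.mul_const _
    · refine Filter.Eventually.of_forall fun x => ?_
      exact (hlim x).const_mul _
  have hJl : Tendsto J atTop (𝓝 ((∫ x, ζ x * en v x) + K * ∫ x, ‖fderiv ℝ ζ x‖ * v x)) :=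
    hl1.add (hl2.const_mul K)
  have hJ0 : J 0 ≤ (∫ x, ζ x * en v x) + K * ∫ x, ‖fderiv ℝ ζ x‖ * v x := by
    apply ge_of_tendsto hJl
    filter_upwards [Filter.eventually_ge_atTop (0 : ℝ)] with t ht
    exact hmono ht
  have hJ0' : J 0 = (∫ x, ζ x * en u x) + K * ∫ x, ‖fderiv ℝ ζ x‖ * u x := by
    simp only [hJ, zero_smul, add_zero]
  have hb1 : ∫ x, ‖fderiv ℝ ζ x‖ * v x ≤ K * ∫ x, ‖fderiv ℝ ζ x‖ := by
    rw [← integral_const_mul]
    apply integral_mono
    · exact integrable_cs (hgc.mul hv.C1.continuous) hgs.mul_right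
    · exact hgi.const_mul K
    · intro x
      have h1 := (abs_le.mp (hv.bdd x)).2
      have h2 := mul_le_mul_of_nonneg_left h1 (norm_nonneg (fderiv ℝ ζ x))
      change ‖fderiv ℝ ζ x‖ * v x ≤ K * ‖fderiv ℝ ζ x‖
      linarith
  have hb2 : -(K * ∫ x, ‖fderiv ℝ ζ x‖) ≤ ∫ x, ‖fderiv ℝ ζ x‖ * u x := by
    rw [← integral_const_mul, ← integral_neg]
    apply integral_mono
    · exact (hgi.const_mul K).neg
    · exact integrable_cs (hgc.mul hu.C1.continuous) hgs.mul_right
    · intro x
      have h1 := (abs_le.mp (hu.bdd x)).1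
      have h2 := mul_le_mul_of_nonneg_left h1 (norm_nonneg (fderiv ℝ ζ x))
      change -(K * ‖fderiv ℝ ζ x‖) ≤ ‖fderiv ℝ ζ x‖ * u x
      linarith
  have hc := hC ζ hζ hζ0
  have hb1' := mul_le_mul_of_nonneg_left hb1 hK
  have hb2' := mul_le_mul_of_nonneg_left hb2 hK
  rw [hJ0'] at hJ0
  nlinarith

end Pool.Agent.Helper68.DG
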