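import Pool.Agent.Helper68.DG.Base
import Pool.Agent.Helper68.DG.A3

/-! Project DG (MP_800410_an), piece A4: monotone solutions are stable -/

open MeasureTheory Metric Set Filter Topology
open scoped ContDiff

namespace Pool.Agent.Helper68.DG

variable {ι : Type} [Fintype ι]

theorem a4_pd_inv {w : V ι → ℝ} {x : V ι} (hw : DifferentiableAt ℝ w x) (h0 : w x ≠ 0) (i : ι) :
    pd i (fun y => (w y)⁻¹) x = -(w x ^ 2)⁻¹ * pd i w x := by
  have h := pd_comp (g := fun t : ℝ => t⁻¹) (differentiableAt_inv h0) hw i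
  rw [h]
  rw [deriv_inv]

/-- Proof. Put `w x = fderiv ℝ u x b > 0`, `Lin u w` by A3. Let `ζ` be a test function and
`ψ x = ζ x * (ζ x * (w x)⁻¹)`, a test function. Then
`pd i ψ = 2 ζ pd i ζ / w - ζ ^ 2 pd i w / w ^ 2`, so
`gd w ψ = ∑ i, (2 (ζ / w) pd i w pd i ζ - (ζ / w) ^ 2 (pd i w) ^ 2)`
`= gd ζ ζ - ∑ i, (pd i ζ - (ζ / w) pd i w) ^ 2 ≤ gd ζ ζ`.
The linearised equation gives `∫ cc u * ζ ^ 2 = ∫ cc u * w * ψ = ∫ gd w ψ ≤ ∫ gd ζ ζ`. -/
theorem stab_of_pos {K : ℝ} {u : V ι → ℝ} (hu : GS K u) (b : V ι)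
    (hb : ∀ x, 0 < fderiv ℝ u x b) : Stab u := by
  intro ζ hζ
  obtain ⟨hw1, hlin⟩ := hu.lin b
  set w : V ι → ℝ := fun x => fderiv ℝ u x b with hw
  have hpos : ∀ x, 0 < w x := hb
  have hne : ∀ x, w x ≠ 0 := fun x => (hpos x).ne'
  have hinv : ContDiff ℝ 1 (fun x => (w x)⁻¹) := hw1.inv hne
  have hψ : T1 (fun x => ζ x * (ζ x * (w x)⁻¹)) := T1.mul' hζ (hζ.1.mul hinv)
  have hdζ : ∀ x, DifferentiableAt ℝ ζ x := fun x => (hζ.1.differentiable one_ne_zero) x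
  have hdw : ∀ x, DifferentiableAt ℝ w x := fun x => (hw1.differentiable one_ne_zero) x
  have hdinv : ∀ x, DifferentiableAt ℝ (fun y => (w y)⁻¹) x :=
    fun x => (hinv.differentiable one_ne_zero) x
  have hpd : ∀ i x, pd i (fun x => ζ x * (ζ x * (w x)⁻¹)) x =
      pd i ζ x * (ζ x * (w x)⁻¹) +
        ζ x * (pd i ζ x * (w x)⁻¹ + ζ x * (-(w x ^ 2)⁻¹ * pd i w x)) := by
    intro i x
    have e1 := pd_mul (u := ζ) (w := fun y => ζ y * (w y)⁻¹) (hdζ x)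
      ((hdζ x).fun_mul (hdinv x)) i
    have e2 := pd_mul (u := ζ) (w := fun y => (w y)⁻¹) (hdζ x) (hdinv x) i
    rw [e1, e2, a4_pd_inv (hdw x) (hne x)]
  have hle : ∀ x, gd w (fun x => ζ x * (ζ x * (w x)⁻¹)) x ≤ gd ζ ζ x := by
    intro x
    unfold gd
    apply Finset.sum_le_sum
    intro i _
    rw [hpd]
    have h0 := hne x
    have key : pd i w x * (pd i ζ x * (ζ x * (w x)⁻¹) +
        ζ x * (pd i ζ x * (w x)⁻¹ + ζ x * (-(w x ^ 2)⁻¹ * pd i w x))) =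
        pd i ζ x * pd i ζ x - (pd i ζ x - ζ x * (w x)⁻¹ * pd i w x) ^ 2 := by
      field_simp
      ring
    rw [key]
    nlinarith [sq_nonneg (pd i ζ x - ζ x * (w x)⁻¹ * pd i w x)]
  have h1 : ∫ x, cc u x * ζ x ^ 2 = ∫ x, cc u x * w x * (ζ x * (ζ x * (w x)⁻¹)) := by
    congr 1
    funext x
    have h0 := hne x
    field_simp
  rw [h1, ← hlin _ hψ]
  exact integral_mono (integrable_gd hw1 hψ) (integrable_gd hζ.1 hζ) hle

end Pool.Agent.Helper68.DG
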