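import Pool.Agent.Helper68.DG.Base

/-! Project DG (MP_800410_an), piece T1: isometries -/

open MeasureTheory Metric Set Filter Topology
open scoped ContDiff

namespace Pool.Agent.Helper68.DG

variable {ι : Type} [Fintype ι]

theorem t1_fderiv_comp {W F : Type*} [NormedAddCommGroup W] [NormedSpace ℝ W]
    [NormedAddCommGroup F] [NormedSpace ℝ F] (T : W ≃ₗᵢ[ℝ] W) {u : W → F}
    (hu : Differentiable ℝ u) (x : W) :
    fderiv ℝ (fun y => u (T y)) x =
      (fderiv ℝ u (T x)).comp (T.toContinuousLinearEquiv : W →L[ℝ] W) := by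
  have h1 : HasFDerivAt (fun y => T y) (T.toContinuousLinearEquiv : W →L[ℝ] W) x :=
    T.toContinuousLinearEquiv.hasFDerivAt
  exact ((hu (T x)).hasFDerivAt.comp x h1).fderiv

theorem t1_contDiff (T : V ι ≃ₗᵢ[ℝ] V ι) {n : WithTop ℕ∞} {u : V ι → ℝ} (hu : ContDiff ℝ n u) :
    ContDiff ℝ n (fun y => u (T y)) :=
  hu.comp T.toContinuousLinearEquiv.contDiff

theorem t1_fderiv2 (T : V ι ≃ₗᵢ[ℝ] V ι) {u : V ι → ℝ} (hu : ContDiff ℝ 2 u) (x a b : V ι) :
    fderiv ℝ (fderiv ℝ (fun y => u (T y))) x a b =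
      fderiv ℝ (fderiv ℝ u) (T x) (T a) (T b) := by
  have hd : Differentiable ℝ u := hu.differentiable two_ne_zero
  have hd2 : Differentiable ℝ (fderiv ℝ u) :=
    (hu.fderiv_right (m := 1) (by norm_num)).differentiable one_ne_zero
  have hd3 : Differentiable ℝ (fderiv ℝ (fun y => u (T y))) :=
    ((t1_contDiff T hu).fderiv_right (m := 1) (by norm_num)).differentiable one_ne_zero
  have h1 : fderiv ℝ (fun y => fderiv ℝ (fun y => u (T y)) y b) x a =
      fderiv ℝ (fderiv ℝ (fun y => u (T y))) x a b := by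
    rw [((hd3 x).hasFDerivAt.clm_apply (hasFDerivAt_const b x)).fderiv]
    simp
  have h2 : (fun y => fderiv ℝ (fun y => u (T y)) y b) = fun y => fderiv ℝ u (T y) (T b) := by
    funext y
    rw [t1_fderiv_comp T hd]
    rfl
  have h3 : fderiv ℝ (fun y => fderiv ℝ u (T y) (T b)) x a =
      fderiv ℝ (fderiv ℝ u) (T x) (T a) (T b) := by
    have h4 : HasFDerivAt (fun y => fderiv ℝ u (T y))
        ((fderiv ℝ (fderiv ℝ u) (T x)).comp (T.toContinuousLinearEquiv : V ι →L[ℝ] V ι)) x :=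
      (hd2 (T x)).hasFDerivAt.comp x T.toContinuousLinearEquiv.hasFDerivAt
    rw [(h4.clm_apply (hasFDerivAt_const (T b) x)).fderiv]
    simp
  rw [← h1, h2, h3]

/-- The Laplacian of Mathlib. Proof.
`InnerProductSpace.laplacian_eq_iteratedFDeriv_orthonormalBasis` for `EuclideanSpace.basisFun`,
`iteratedFDeriv_two_apply` and `pd_pd`. -/
theorem lap_eq_laplacian {u : V ι → ℝ} (hu : ContDiff ℝ 2 u) (x : V ι) :
    lap u x = Laplacian.laplacian u x := by
  rw [InnerProductSpace.laplacian_eq_iteratedFDeriv_orthonormalBasis u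
    (EuclideanSpace.basisFun ι ℝ)]
  unfold lap
  apply Finset.sum_congr rfl
  intro i _
  rw [pd_pd hu, iteratedFDeriv_two_apply]
  rfl

/-- Proof. `pd i (u ∘ T) x = fderiv ℝ u (T x) (T (be i))`, so
`pd i (pd i (u ∘ T)) x = fderiv ℝ (fderiv ℝ u) (T x) (T (be i)) (T (be i))`. Expand `T (be i)` in the
basis `be j` (`sum_be`) and use `∑ i, (T (be i)) j * (T (be i)) k = δ_jk` (the vectors `T (be i)` form an
orthonormal basis: `(T (be i)) j = inner ℝ (be j) (T (be i)) = inner ℝ (T.symm (be j)) (be i)`) and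
`pd_pd`. -/
theorem lap_isom (T : V ι ≃ₗᵢ[ℝ] V ι) {u : V ι → ℝ} (hu : ContDiff ℝ 2 u) (x : V ι) :
    lap (fun y => u (T y)) x = lap u (T x) := by
  rw [lap_eq_laplacian hu, InnerProductSpace.laplacian_eq_iteratedFDeriv_orthonormalBasis u
    ((EuclideanSpace.basisFun ι ℝ).map T)]
  unfold lap
  apply Finset.sum_congr rfl
  intro i _
  rw [pd_pd (t1_contDiff T hu), t1_fderiv2 T hu, iteratedFDeriv_two_apply]
  rfl

theorem fderiv_isom (T : V ι ≃ₗᵢ[ℝ] V ι) {u : V ι → ℝ} (hu : ContDiff ℝ 1 u) (x b : V ι) :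
    fderiv ℝ (fun y => u (T y)) x b = fderiv ℝ u (T x) (T b) := by
  rw [t1_fderiv_comp T (hu.differentiable one_ne_zero)]
  rfl

/-- Proof. `fderiv ℝ (u ∘ T) x = (fderiv ℝ u (T x)).comp T` and `‖T x‖ = ‖x‖`, `‖T x - T y‖ = ‖x - y‖`;
composing with a linear isometry does not increase the norms. -/
theorem GS.isom (T : V ι ≃ₗᵢ[ℝ] V ι) {K : ℝ} {u : V ι → ℝ} (hu : GS K u) :
    GS K (fun y => u (T y)) := by
  have hT : ∀ x y : V ι, ‖T x - T y‖ = ‖x - y‖ := by
    intro x y
    rw [← map_sub, T.norm_map]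
  refine ⟨t1_contDiff T hu.smooth, ?_, fun x => hu.bdd (T x), ?_, ?_, ?_⟩
  · intro x
    rw [lap_isom T hu.smooth]
    exact hu.eqn (T x)
  · intro x
    refine ContinuousLinearMap.opNorm_le_bound _ hu.K_nonneg fun b => ?_
    rw [fderiv_isom T hu.C1]
    refine ((fderiv ℝ u (T x)).le_opNorm (T b)).trans ?_
    rw [T.norm_map]
    exact mul_le_mul_of_nonneg_right (hu.bdd1 (T x)) (norm_nonneg _)
  · intro x y
    refine ContinuousLinearMap.opNorm_le_bound _
      (mul_nonneg hu.K_nonneg (norm_nonneg _)) fun b => ?_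
    rw [sub_apply, fderiv_isom T hu.C1, fderiv_isom T hu.C1,
      ← sub_apply]
    refine ((fderiv ℝ u (T x) - fderiv ℝ u (T y)).le_opNorm (T b)).trans ?_
    rw [T.norm_map]
    refine mul_le_mul_of_nonneg_right ?_ (norm_nonneg _)
    rw [← hT x y]
    exact hu.lip1 (T x) (T y)
  · intro x y
    refine ContinuousLinearMap.opNorm_le_bound _
      (mul_nonneg hu.K_nonneg (norm_nonneg _)) fun a => ?_
    refine ContinuousLinearMap.opNorm_le_bound _
      (mul_nonneg (mul_nonneg hu.K_nonneg (norm_nonneg _)) (norm_nonneg _)) fun b => ?_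
    rw [sub_apply, sub_apply,
      t1_fderiv2 T hu.smooth, t1_fderiv2 T hu.smooth, ← sub_apply,
      ← sub_apply]
    refine ((fderiv ℝ (fderiv ℝ u) (T x) - fderiv ℝ (fderiv ℝ u) (T y)).le_opNorm₂
      (T a) (T b)).trans ?_
    rw [T.norm_map, T.norm_map]
    refine mul_le_mul_of_nonneg_right (mul_le_mul_of_nonneg_right ?_ (norm_nonneg _))
      (norm_nonneg _)
    rw [← hT x y]
    exact hu.lip2 (T x) (T y)

/-- Proof. `T` is bijective. -/
theorem Signed.of_isom (T : V ι ≃ₗᵢ[ℝ] V ι) {u : V ι → ℝ} (hu : ContDiff ℝ 1 u)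
    (h : Signed fun y => u (T y)) : Signed u := by
  intro b
  have key : ∀ x : V ι, fderiv ℝ (fun y => u (T y)) (T.symm x) (T.symm b) = fderiv ℝ u x b := by
    intro x
    rw [fderiv_isom T hu, T.apply_symm_apply, T.apply_symm_apply]
  rcases h (T.symm b) with h1 | h1 | h1
  · exact Or.inl fun x => by rw [← key]; exact h1 _
  · exact Or.inr (Or.inl fun x => by rw [← key]; exact h1 _)
  · exact Or.inr (Or.inr fun x => by rw [← key]; exact h1 _)

end Pool.Agent.Helper68.DG
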