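import Pool.Agent.Helper68.DG.Base
import Pool.Agent.Helper68.DG.T1

/-! Project DG (MP_800410_an), piece T2: coordinates adapted to the symmetry -/

open MeasureTheory Metric Set Filter Topology
open scoped ContDiff

namespace Pool.Agent.Helper68.DG

variable {ι : Type} [Fintype ι]

/-- Proof. Let `R` be the reflection in `Fᗮ` (`Submodule.reflection`), which is the identity on `Fᗮ` and
`- 1` on `F`. Then `x - R x ∈ F` and `‖R x‖ = ‖x‖`, so `u (R x) = u x`, and
`fderiv ℝ u x (R e) = fderiv ℝ u (R x) (R (R e)) = fderiv ℝ u (R x) e > 0` (differentiate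
`u ∘ R = u`). So `v = (e + R e) / 2`, which is orthogonal to `F`, is as wanted. -/
theorem exists_mono_dir {u : V ι → ℝ} (hu : ContDiff ℝ 1 u) (F : Submodule ℝ (V ι))
    (hsym : ∀ x y : V ι, x - y ∈ F → ‖x‖ = ‖y‖ → u x = u y) {e : V ι}
    (he : ∀ x, 0 < fderiv ℝ u x e) :
    ∃ v : V ι, (∀ f ∈ F, inner ℝ f v = 0) ∧ ∀ x, 0 < fderiv ℝ u x v := by
  classical
  set R := (Fᗮ).reflection with hR
  have hRx : ∀ x : V ι, R x = (2 : ℝ) • (Fᗮ).starProjection x - x := by
    intro x
    rw [hR, Submodule.reflection_apply]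
    simp [two_smul]
  have hmem : ∀ x : V ι, x - R x ∈ F := by
    intro x
    have h1 : x - R x = (2 : ℝ) • (x - (Fᗮ).starProjection x) := by
      rw [hRx, smul_sub, two_smul ℝ x]
      abel
    rw [h1]
    apply F.smul_mem
    have h2 := Submodule.sub_starProjection_mem_orthogonal (K := Fᗮ) x
    rwa [Submodule.orthogonal_orthogonal] at h2
  have hu' : ∀ x, u (R x) = u x := fun x =>
    (hsym x (R x) (hmem x) (by rw [LinearIsometryEquiv.norm_map])).symm
  have hdu : Differentiable ℝ u := hu.differentiable one_ne_zero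
  have hfd : ∀ x b, fderiv ℝ u x b = fderiv ℝ u (R x) (R b) := by
    intro x b
    have h1 : HasFDerivAt (fun y => u (R y))
        ((fderiv ℝ u (R x)).comp (R.toContinuousLinearEquiv : V ι →L[ℝ] V ι)) x := by
      have h2 : HasFDerivAt (fun y => R y) (R.toContinuousLinearEquiv : V ι →L[ℝ] V ι) x :=
        (R.toContinuousLinearEquiv : V ι →L[ℝ] V ι).hasFDerivAt
      exact (hdu (R x)).hasFDerivAt.comp x h2
    have h3 : (fun y => u (R y)) = u := funext hu'
    rw [h3] at h1
    rw [h1.fderiv]
    rfl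
  have hRR : ∀ x, R (R x) = x := fun x => Submodule.reflection_reflection _ x
  refine ⟨(Fᗮ).starProjection e, ?_, ?_⟩
  · intro f hf
    have h1 : (Fᗮ).starProjection e ∈ Fᗮ := Submodule.starProjection_apply_mem _ _
    exact (Submodule.mem_orthogonal F _).1 h1 f hf
  · intro x
    have h1 : (Fᗮ).starProjection e = (1 / 2 : ℝ) • (e + R e) := by
      rw [hRx]
      module
    rw [h1, map_smul, map_add, hfd x (R e), hRR]
    have h2 := he x
    have h3 := he (R x)
    simp only [smul_eq_mul]
    linarith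

/-- Proof. Let `f₁, …, f_k` be an orthonormal basis of `F` (`stdOrthonormalBasis`) and `f₀ = v / ‖v‖`;
they are orthonormal. Extend to an orthonormal basis `b` of the whole space indexed by `Fin (m + 1)`
(`Orthonormal.exists_orthonormalBasis_extension_of_card_eq`), and let `T` be the isometry which maps
the standard basis to `b` (`OrthonormalBasis.equiv` or `b.repr.symm`). -/
theorem exists_adapted {m k : ℕ} (F : Submodule ℝ (V (Fin (m + 1))))
    (hF : Module.finrank ℝ F = k) {v : V (Fin (m + 1))} (hv : v ≠ 0)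
    (hvF : ∀ f ∈ F, inner ℝ f v = 0) (hk : k ≤ m) :
    ∃ T : V (Fin (m + 1)) ≃ₗᵢ[ℝ] V (Fin (m + 1)), (∃ c : ℝ, 0 < c ∧ T (be 0) = c • v) ∧
      ∀ i : Fin (m + 1), 1 ≤ i.val → i.val ≤ k → T (be i) ∈ F := by
  classical
  subst hF
  set f := stdOrthonormalBasis ℝ F with hf
  have hv1 : 0 < ‖v‖ := norm_pos_iff.2 hv
  set w : Fin (m + 1) → V (Fin (m + 1)) := fun i =>
    if h0 : i.val = 0 then ‖v‖⁻¹ • v
    else if h1 : i.val ≤ Module.finrank ℝ F then
      ((f ⟨i.val - 1, by omega⟩ : F) : V (Fin (m + 1))) else 0 with hw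
  set s : Set (Fin (m + 1)) := {i | i.val ≤ Module.finrank ℝ F} with hs
  have hw0 : ∀ i : Fin (m + 1), i.val = 0 → w i = ‖v‖⁻¹ • v := by
    intro i hi
    simp only [hw, hi, dif_pos]
  have hw1 : ∀ (i : Fin (m + 1)) (_ : i.val ≠ 0) (h1 : i.val ≤ Module.finrank ℝ F),
      w i = ((f ⟨i.val - 1, by omega⟩ : F) : V (Fin (m + 1))) := by
    intro i h0 h1
    simp only [hw]
    rw [dif_neg h0, dif_pos h1]
  have hort : Orthonormal ℝ (s.domRestrict w) := by
    constructor
    · rintro ⟨i, hi⟩
      simp only [Set.domRestrict_apply]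
      by_cases h0 : i.val = 0
      · rw [hw0 i h0, norm_smul, norm_inv, norm_norm]
        exact inv_mul_cancel₀ hv1.ne'
      · rw [hw1 i h0 hi]
        exact f.orthonormal.1 _
    · rintro ⟨i, hi⟩ ⟨j, hj⟩ hij
      have hij' : i.val ≠ j.val := fun h => hij (Subtype.ext (Fin.ext h))
      have hi' : i.val ≤ Module.finrank ℝ F := hi
      have hj' : j.val ≤ Module.finrank ℝ F := hj
      simp only [Set.domRestrict_apply]
      by_cases h0 : i.val = 0
      · have h0' : j.val ≠ 0 := fun h => hij' (h0.trans h.symm)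
        rw [hw0 i h0, hw1 j h0' hj, inner_smul_left, real_inner_comm,
          hvF _ (f ⟨j.val - 1, by omega⟩ : F).2, mul_zero]
      · by_cases h0' : j.val = 0
        · rw [hw0 j h0', hw1 i h0 hi, inner_smul_right, hvF _ (f ⟨i.val - 1, by omega⟩ : F).2,
            mul_zero]
        · rw [hw1 i h0 hi, hw1 j h0' hj]
          have h2 := f.orthonormal.2 (i := ⟨i.val - 1, by omega⟩)
            (j := ⟨j.val - 1, by omega⟩) (by
              intro h
              have := Fin.ext_iff.1 h
              simp only at this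
              omega)
          exact h2
  obtain ⟨b, hb⟩ := hort.exists_orthonormalBasis_extension_of_card_eq (by simp)
  have hT : ∀ i, b.repr.symm (be i) = b i := by
    intro i
    rw [be, EuclideanSpace.basisFun_apply, OrthonormalBasis.repr_symm_single]
  refine ⟨b.repr.symm, ⟨‖v‖⁻¹, inv_pos.2 hv1, ?_⟩, ?_⟩
  · rw [hT, hb 0 (by simp [hs]), hw0 0 rfl]
  · intro i hi1 hik
    rw [hT, hb i hik, hw1 i (by omega) hik]
    exact (f _).2

/-- Proof. Let `i, j ∈ S`, `i ≠ j`, and `x θ = x` with the coordinates `x i, x j` replaced by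
`x i cos θ - x j sin θ`, `x i sin θ + x j cos θ`. Then `T (x θ) - T x ∈ F` and the norms agree, so
`u (T (x θ)) = u (T x)`. The derivative at `θ = 0` is
`- x j * pd i (u ∘ T) x + x i * pd j (u ∘ T) x = 0`. -/
theorem rotInv_of_sym (T : V ι ≃ₗᵢ[ℝ] V ι) {u : V ι → ℝ} (hu : ContDiff ℝ 1 u)
    (F : Submodule ℝ (V ι)) (hsym : ∀ x y : V ι, x - y ∈ F → ‖x‖ = ‖y‖ → u x = u y)
    (S : Finset ι) (hS : ∀ i ∈ S, T (be i) ∈ F) : RotInv S fun y => u (T y) := by
  classical
  intro i hi j hj x
  by_cases hij : i = j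
  · rw [hij]
  set w : V ι → ℝ := fun y => u (T y) with hw
  have hdw : Differentiable ℝ w :=
    (hu.differentiable one_ne_zero).comp T.toContinuousLinearEquiv.differentiable
  set a : ℝ → ℝ := fun θ => (Real.cos θ - 1) * x i - Real.sin θ * x j with ha
  set b : ℝ → ℝ := fun θ => Real.sin θ * x i + (Real.cos θ - 1) * x j with hb
  set γ : ℝ → V ι := fun θ => x + a θ • be i + b θ • be j with hγ
  have hii : inner ℝ (be i) (be j) = (0 : ℝ) := by
    rw [inner_be, be_apply, if_neg hij]
  have hnorm : ∀ θ, ‖γ θ‖ = ‖x‖ := by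
    intro θ
    have h1 : ‖γ θ‖ ^ 2 = ‖x‖ ^ 2 := by
      have h2 : ‖γ θ‖ ^ 2 = ‖x‖ ^ 2 + 2 * a θ * x i + 2 * b θ * x j + a θ ^ 2 + b θ ^ 2 := by
        rw [hγ]
        simp only
        rw [← real_inner_self_eq_norm_sq, ← real_inner_self_eq_norm_sq]
        simp only [inner_add_left, inner_add_right, inner_smul_left, inner_smul_right]
        have e1 : inner ℝ (be i) (be i) = (1 : ℝ) := by
          rw [real_inner_self_eq_norm_sq, norm_be]; norm_num
        have e2 : inner ℝ (be j) (be j) = (1 : ℝ) := by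
          rw [real_inner_self_eq_norm_sq, norm_be]; norm_num
        have e3 : inner ℝ (be j) (be i) = (0 : ℝ) := by rw [real_inner_comm]; exact hii
        have e4 : inner ℝ x (be i) = x i := by rw [real_inner_comm, inner_be]
        have e5 : inner ℝ x (be j) = x j := by rw [real_inner_comm, inner_be]
        rw [e1, e2, e3, e4, e5, hii, inner_be, inner_be]
        simp only [conj_trivial]
        ring
      rw [h2]
      have h3 := Real.sin_sq_add_cos_sq θ
      simp only [ha, hb]
      have : 2 * ((Real.cos θ - 1) * x i - Real.sin θ * x j) * x i +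
          2 * (Real.sin θ * x i + (Real.cos θ - 1) * x j) * x j +
          ((Real.cos θ - 1) * x i - Real.sin θ * x j) ^ 2 +
          (Real.sin θ * x i + (Real.cos θ - 1) * x j) ^ 2 = 0 := by
        have e : 2 * ((Real.cos θ - 1) * x i - Real.sin θ * x j) * x i +
          2 * (Real.sin θ * x i + (Real.cos θ - 1) * x j) * x j +
          ((Real.cos θ - 1) * x i - Real.sin θ * x j) ^ 2 +
          (Real.sin θ * x i + (Real.cos θ - 1) * x j) ^ 2 =
          (Real.sin θ ^ 2 + Real.cos θ ^ 2 - 1) * (x i ^ 2 + x j ^ 2) := by ring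
        rw [e, h3]
        ring
      linarith
    exact (sq_eq_sq₀ (norm_nonneg _) (norm_nonneg _)).1 h1
  have hconst : ∀ θ, w (γ θ) = w x := by
    intro θ
    simp only [hw]
    apply hsym
    · have h1 : T (γ θ) - T x = a θ • T (be i) + b θ • T (be j) := by
        rw [← map_sub]
        have : γ θ - x = a θ • be i + b θ • be j := by
          simp only [hγ]
          abel
        rw [this, map_add, map_smul, map_smul]
      rw [h1]
      exact F.add_mem (F.smul_mem _ (hS i hi)) (F.smul_mem _ (hS j hj))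
    · rw [LinearIsometryEquiv.norm_map, LinearIsometryEquiv.norm_map, hnorm]
  have hda : HasDerivAt a (-x j) 0 := by
    have h1 := ((Real.hasDerivAt_cos 0).sub_const 1).mul_const (x i)
    have h2 := (Real.hasDerivAt_sin 0).mul_const (x j)
    have h3 := h1.sub h2
    have h4 : -Real.sin 0 * x i - Real.cos 0 * x j = -x j := by simp
    rw [h4] at h3
    exact h3
  have hdb : HasDerivAt b (x i) 0 := by
    have h1 := ((Real.hasDerivAt_cos 0).sub_const 1).mul_const (x j)
    have h2 := (Real.hasDerivAt_sin 0).mul_const (x i)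
    have h3 := h2.add h1
    have h4 : Real.cos 0 * x i + -Real.sin 0 * x j = x i := by simp
    rw [h4] at h3
    exact h3
  have hdγ : HasDerivAt γ ((-x j) • be i + (x i) • be j) 0 := by
    have h1 := (hda.smul_const (be i)).const_add x
    have h2 := h1.add (hdb.smul_const (be j))
    exact h2
  have hγ0 : γ 0 = x := by
    simp [hγ, ha, hb]
  have h1 : HasDerivAt (fun θ => w (γ θ)) (fderiv ℝ w x ((-x j) • be i + (x i) • be j)) 0 := by
    have h2 : HasFDerivAt w (fderiv ℝ w x) (γ 0) := by
      rw [hγ0]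
      exact (hdw x).hasFDerivAt
    exact h2.comp_hasDerivAt 0 hdγ
  have h2 : (fun θ => w (γ θ)) = fun _ => w x := funext hconst
  rw [h2] at h1
  have h3 := h1.unique (hasDerivAt_const 0 (w x))
  rw [map_add, map_smul, map_smul] at h3
  simp only [smul_eq_mul] at h3
  unfold pd
  linarith

end Pool.Agent.Helper68.DG
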