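import Pool.Agent.Helper68.DG.Base

/-! Project DG (MP_800410_an), piece A1a: the Laplacian at a local maximum -/

open MeasureTheory Metric Set Filter Topology
open scoped ContDiff

namespace Pool.Agent.Helper68.DG

variable {ι : Type} [Fintype ι]

/-- the derivative of a differentiable function along a coordinate line -/
theorem a1a_hasDerivAt_line {g : V ι → ℝ} (hg : Differentiable ℝ g) (x : V ι) (i : ι) (t : ℝ) :
    HasDerivAt (fun s : ℝ => g (x + s • be i)) (pd i g (x + t • be i)) t := by
  have h1 : HasDerivAt (fun s : ℝ => x + s • be i) (be i) t := by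
    have h := ((hasDerivAt_id t).smul_const (be i)).const_add x
    simpa using h
  exact (hg (x + t • be i)).hasFDerivAt.comp_hasDerivAt t h1

/-- Proof. For every `i` the function `γ t = G (x + t • be i)` is `C²` with a local maximum at
`0`; `deriv γ t = pd i G (x + t • be i)`, so `deriv γ 0 = 0` and
`deriv (deriv γ) 0 = pd i (pd i G) x`. If this were positive, `0` would also be a local minimum of
`γ` (`isLocalMin_of_deriv_deriv_pos`), so `γ` would be constant near `0` and the second derivative
would vanish. So every summand of `lap G x` is at most `0`. -/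
theorem lap_nonpos {G : V ι → ℝ} (hG : ContDiff ℝ 2 G) {x : V ι} (hmax : IsLocalMax G x) :
    lap G x ≤ 0 := by
  unfold lap
  apply Finset.sum_nonpos
  intro i _
  by_contra hpos
  rw [not_le] at hpos
  have hd1 : ∀ t : ℝ, HasDerivAt (fun s : ℝ => G (x + s • be i)) (pd i G (x + t • be i)) t :=
    fun t => a1a_hasDerivAt_line (hG.differentiable two_ne_zero) x i t
  have hd2 : ∀ t : ℝ, HasDerivAt (fun s : ℝ => pd i G (x + s • be i))
      (pd i (pd i G) (x + t • be i)) t :=
    fun t => a1a_hasDerivAt_line ((contDiff_pd_one hG i).differentiable one_ne_zero) x i t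
  have hder : deriv (fun s : ℝ => G (x + s • be i)) = fun s : ℝ => pd i G (x + s • be i) := by
    funext t
    exact (hd1 t).deriv
  have hcont : Continuous (fun s : ℝ => x + s • be i) := by fun_prop
  have hx0 : x + (0 : ℝ) • be i = x := by simp
  have hlmax : IsLocalMax (fun s : ℝ => G (x + s • be i)) 0 := by
    have h := hcont.tendsto 0
    rw [hx0] at h
    have h2 : ∀ᶠ s in 𝓝 (0 : ℝ), G (x + s • be i) ≤ G x := h.eventually hmax
    filter_upwards [h2] with s hs
    have hs' : G (x + s • be i) ≤ G (x + (0 : ℝ) • be i) := by rwa [hx0]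
    exact hs'
  have hz : deriv (fun s : ℝ => G (x + s • be i)) 0 = 0 := hlmax.deriv_eq_zero
  have hdd : deriv (deriv (fun s : ℝ => G (x + s • be i))) 0 = pd i (pd i G) x := by
    rw [hder, (hd2 0).deriv, hx0]
  have hlmin : IsLocalMin (fun s : ℝ => G (x + s • be i)) 0 := by
    apply isLocalMin_of_deriv_deriv_pos _ hz
    · exact (hd1 0).continuousAt
    · rw [hdd]
      exact hpos
  have hconst : (fun s : ℝ => G (x + s • be i)) =ᶠ[𝓝 0] fun _ => G (x + (0 : ℝ) • be i) := by
    filter_upwards [hlmax, hlmin] with s h1 h2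
    exact le_antisymm h1 h2
  have h3 : deriv (fun s : ℝ => G (x + s • be i)) =ᶠ[𝓝 0]
      deriv (fun _ : ℝ => G (x + (0 : ℝ) • be i)) := hconst.deriv
  have h4 : deriv (fun _ : ℝ => G (x + (0 : ℝ) • be i)) = fun _ : ℝ => (0 : ℝ) := by
    funext t
    simp
  rw [h4] at h3
  have h5 : deriv (deriv (fun s : ℝ => G (x + s • be i))) 0 = 0 := by
    rw [h3.deriv_eq]
    simp
  rw [hdd] at h5
  exact absurd h5 hpos.ne'

end Pool.Agent.Helper68.DG
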