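import Pool.Agent.Helper68.DG.Base
import Pool.Agent.Helper68.DG.A1a

/-! Project DG (MP_800410_an), piece A1b: the gradient estimate -/

open MeasureTheory Metric Set Filter Topology
open scoped ContDiff

namespace Pool.Agent.Helper68.DG

variable {ι : Type} [Fintype ι]

/-- the reflection -/
noncomputable def a1b_R (i : ι) : V ι →L[ℝ] V ι :=
  ContinuousLinearMap.id ℝ (V ι) - (2 : ℝ) • ((EuclideanSpace.proj i : V ι →L[ℝ] ℝ).smulRight (be i))

theorem a1b_R_apply (i : ι) (y : V ι) : a1b_R i y = y - (2 * y i) • be i := by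
  simp only [a1b_R, sub_apply, ContinuousLinearMap.id_apply, smul_apply,
    ContinuousLinearMap.smulRight_apply]
  rw [smul_smul]
  rfl

theorem a1b_be_self (i : ι) : be i i = 1 := by
  classical
  rw [be_apply, if_pos rfl]

theorem a1b_be_ne (i j : ι) (h : j ≠ i) : be i j = 0 := by
  classical
  rw [be_apply, if_neg h]

theorem a1b_R_be_self (i : ι) : a1b_R i (be i) = - be i := by
  rw [a1b_R_apply, a1b_be_self, mul_one]
  module

theorem a1b_R_be_ne (i j : ι) (h : j ≠ i) : a1b_R i (be j) = be j := by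
  rw [a1b_R_apply, a1b_be_ne j i h.symm, mul_zero, zero_smul, sub_zero]

/-- the sign -/
theorem a1b_pd_comp (i j : ι) : ∃ s : ℝ, s * s = 1 ∧ (j = i → s = -1) ∧
    ∀ (u : V ι → ℝ) (y : V ι), DifferentiableAt ℝ u (a1b_R i y) →
      pd j (fun y => u (a1b_R i y)) y = s * pd j u (a1b_R i y) := by
  have key : ∀ (u : V ι → ℝ) (y : V ι), DifferentiableAt ℝ u (a1b_R i y) →
      pd j (fun y => u (a1b_R i y)) y = fderiv ℝ u (a1b_R i y) (a1b_R i (be j)) := by
    intro u y hu
    unfold pd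
    have h := (hu.hasFDerivAt.comp y (a1b_R i).hasFDerivAt).fderiv
    have h2 : (fun y => u (a1b_R i y)) = u ∘ (a1b_R i) := rfl
    rw [h2, h]
    rfl
  by_cases h : j = i
  · subst h
    refine ⟨-1, by norm_num, fun _ => rfl, fun u y hu => ?_⟩
    rw [key u y hu, a1b_R_be_self, map_neg]
    unfold pd
    ring
  · refine ⟨1, by norm_num, fun h' => absurd h' h, fun u y hu => ?_⟩
    rw [key u y hu, a1b_R_be_ne i j h, one_mul]
    rfl

theorem a1b_lap_comp (i : ι) {h : V ι → ℝ} (hh : ContDiff ℝ 2 h) (y : V ι) :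
    lap (fun y => h (a1b_R i y)) y = lap h (a1b_R i y) := by
  unfold lap
  refine Finset.sum_congr rfl fun j _ => ?_
  obtain ⟨s, hs, -, hs'⟩ := a1b_pd_comp i j
  have h1 : pd j (fun y => h (a1b_R i y)) = fun y => s * pd j h (a1b_R i y) := by
    funext z
    exact hs' h z ((hh.differentiable two_ne_zero) _)
  have hd : ∀ z, DifferentiableAt ℝ (pd j h) z := fun z =>
    ((contDiff_pd_one hh j).differentiable one_ne_zero) z
  have hd2 : DifferentiableAt ℝ (fun y => pd j h (a1b_R i y)) y :=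
    (hd _).comp y (a1b_R i).differentiableAt
  rw [h1, pd_const_mul s hd2, hs' _ _ (hd _), ← mul_assoc, hs, one_mul]

theorem a1b_pd_coord (j k : ι) (y : V ι) : pd j (fun y : V ι => y k) y = be j k := by
  unfold pd
  have h : HasFDerivAt (fun y : V ι => y k) (EuclideanSpace.proj k : V ι →L[ℝ] ℝ) y :=
    (EuclideanSpace.proj k : V ι →L[ℝ] ℝ).hasFDerivAt
  rw [h.fderiv]
  rfl

theorem a1b_diff_coord (k : ι) (y : V ι) : DifferentiableAt ℝ (fun y : V ι => y k) y :=
  (EuclideanSpace.proj k : V ι →L[ℝ] ℝ).differentiableAt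

theorem a1b_contDiff_coord (k : ι) : ContDiff ℝ 2 (fun y : V ι => y k) :=
  (EuclideanSpace.proj k : V ι →L[ℝ] ℝ).contDiff

theorem a1b_pd_const (j : ι) (a : ℝ) (y : V ι) : pd j (fun _ : V ι => a) y = 0 := by
  unfold pd
  rw [(hasFDerivAt_const a y).fderiv]
  rfl

theorem a1b_pd_normsq (j : ι) (y : V ι) : pd j (fun y : V ι => ‖y‖ ^ 2) y = 2 * y j := by
  unfold pd
  rw [(hasStrictFDerivAt_norm_sq y).hasFDerivAt.fderiv]
  have h : inner ℝ y (be j) = y j := by rw [real_inner_comm, inner_be]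
  simp [h]

theorem a1b_contDiff_normsq : ContDiff ℝ 2 (fun y : V ι => ‖y‖ ^ 2) := contDiff_norm_sq ℝ

theorem a1b_lap_normsq (y : V ι) :
    lap (fun y : V ι => ‖y‖ ^ 2) y = 2 * Fintype.card ι := by
  unfold lap
  have h1 : ∀ j : ι, pd j (pd j (fun y : V ι => ‖y‖ ^ 2)) y = 2 := by
    intro j
    have h2 : pd j (fun y : V ι => ‖y‖ ^ 2) = fun y => 2 * y j := by
      funext z
      exact a1b_pd_normsq j z
    rw [h2, pd_const_mul 2 (a1b_diff_coord j y), a1b_pd_coord, a1b_be_self, mul_one]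
  rw [Finset.sum_congr rfl fun j _ => h1 j, Finset.sum_const, Finset.card_univ, nsmul_eq_mul]
  ring

theorem a1b_lap_coord (i : ι) (y : V ι) : lap (fun y : V ι => y i) y = 0 := by
  unfold lap
  refine Finset.sum_eq_zero fun j _ => ?_
  have h2 : pd j (fun y : V ι => y i) = fun _ => be j i := by
    funext z
    exact a1b_pd_coord j i z
  rw [h2, a1b_pd_const]

theorem a1b_lap_coord_sq (i : ι) (y : V ι) : lap (fun y : V ι => y i * y i) y = 2 := by
  unfold lap
  have h2 : ∀ j, pd j (fun y : V ι => y i * y i) = fun y => (2 * be j i) * y i := by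
    intro j
    funext z
    rw [pd_mul (a1b_diff_coord i z) (a1b_diff_coord i z), a1b_pd_coord]
    ring
  rw [Finset.sum_eq_single i]
  · rw [h2, pd_const_mul _ (a1b_diff_coord i y), a1b_pd_coord, a1b_be_self]
    norm_num
  · intro j _ hj
    rw [h2, pd_const_mul _ (a1b_diff_coord i y), a1b_be_ne j i hj.symm]
    ring
  · intro h
    exact absurd (Finset.mem_univ _) h

/-- the main step -/
theorem a1b_main {h : V ι → ℝ} (hh : ContDiff ℝ 2 h) {A B : ℝ} (hA : ∀ x, |h x| ≤ A)
    (hB : ∀ x, |lap h x| ≤ B) (i : ι) (c : ℝ) (hc : Fintype.card ι * A + B / 2 < c) :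
    pd i h 0 ≤ 2 * c := by
  have hA0 : 0 ≤ A := (abs_nonneg _).trans (hA 0)
  have hB0 : 0 ≤ B := (abs_nonneg _).trans (hB 0)
  have hc0 : 0 < c := by
    have : (0 : ℝ) ≤ Fintype.card ι * A := by positivity
    linarith
  set R := a1b_R i with hR
  have hhR : ContDiff ℝ 2 (fun y => h (R y)) := hh.comp R.contDiff
  set H : V ι → ℝ := fun y => (1 / 2) * (h y - h (R y)) with hH
  have hHs : ContDiff ℝ 2 H := contDiff_const.mul (hh.sub hhR)
  have hHA : ∀ y, H y ≤ A := by
    intro y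
    have h1 := abs_le.1 (hA y)
    have h2 := abs_le.1 (hA (R y))
    show (1 / 2) * (h y - h (R y)) ≤ A
    linarith
  have hHlap : ∀ y, -B ≤ lap H y := by
    intro y
    rw [hH, lap_const_mul (1 / 2) (hh.sub hhR), lap_sub hh hhR, a1b_lap_comp i hh]
    have h1 := abs_le.1 (hB y)
    have h2 := abs_le.1 (hB (R y))
    linarith
  have hH0 : ∀ y : V ι, y i = 0 → H y = 0 := by
    intro y hy
    show (1 / 2) * (h y - h (R y)) = 0
    rw [hR, a1b_R_apply, hy, mul_zero, zero_smul, sub_zero, sub_self, mul_zero]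
  have hHpd : pd i H 0 = pd i h 0 := by
    obtain ⟨s, -, hs1, hs⟩ := a1b_pd_comp i i
    have hd : ∀ z, DifferentiableAt ℝ h z := fun z => (hh.differentiable two_ne_zero) z
    have hd' : ∀ z, DifferentiableAt ℝ (fun y => h (R y)) z :=
      fun z => (hhR.differentiable two_ne_zero) z
    have hd3 : DifferentiableAt ℝ (fun y => h y - h (R y)) 0 := (hd 0).sub (hd' 0)
    rw [hH, pd_const_mul (1 / 2) hd3, pd_sub (hd 0) (hd' 0), hs h 0 (hd _),
      hs1 rfl, map_zero]
    ring
  set ψ : V ι → ℝ := fun y => A * ‖y‖ ^ 2 + c * (2 * y i - y i * y i) with hψ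
  have hq : ContDiff ℝ 2 (fun y : V ι => y i * y i) :=
    (a1b_contDiff_coord i).mul (a1b_contDiff_coord i)
  have hl : ContDiff ℝ 2 (fun y : V ι => 2 * y i) := contDiff_const.mul (a1b_contDiff_coord i)
  have hψs : ContDiff ℝ 2 ψ :=
    (contDiff_const.mul a1b_contDiff_normsq).add (contDiff_const.mul (hl.sub hq))
  have hψlap : ∀ y, lap ψ y = A * (2 * Fintype.card ι) + c * (2 * 0 - 2) := by
    intro y
    rw [hψ, lap_add (contDiff_const.mul a1b_contDiff_normsq) (contDiff_const.mul (hl.sub hq)),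
      lap_const_mul A a1b_contDiff_normsq, lap_const_mul c (hl.sub hq), lap_sub hl hq,
      lap_const_mul 2 (a1b_contDiff_coord i), a1b_lap_normsq, a1b_lap_coord, a1b_lap_coord_sq]
  set G : V ι → ℝ := fun y => H y - ψ y with hG
  have hGs : ContDiff ℝ 2 G := hHs.sub hψs
  have hGlap : ∀ y, 0 < lap G y := by
    intro y
    rw [hG, lap_sub hHs hψs, hψlap]
    have := hHlap y
    linarith
  -- the compact set
  set D : Set (V ι) := closedBall 0 1 ∩ {y | 0 ≤ y i} with hD
  have hcl : IsClosed {y : V ι | 0 ≤ y i} :=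
    isClosed_le continuous_const (EuclideanSpace.proj i : V ι →L[ℝ] ℝ).continuous
  have hDc : IsCompact D := (isCompact_closedBall 0 1).inter_right hcl
  have h0D : (0 : V ι) ∈ D := by
    refine ⟨mem_closedBall_self zero_le_one, ?_⟩
    show (0 : ℝ) ≤ (0 : V ι) i
    rfl
  obtain ⟨y, hyD, hy⟩ := hDc.exists_isMaxOn ⟨0, h0D⟩ hGs.continuous.continuousOn
  have hy1 : ‖y‖ ≤ 1 := by
    have := hyD.1
    rwa [mem_closedBall, dist_zero_right] at this
  have hy2 : 0 ≤ y i := hyD.2
  have hyi : y i ≤ ‖y‖ := (le_abs_self _).trans (abs_coord_le y i)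
  have hGy : G y ≤ 0 := by
    rcases eq_or_lt_of_le hy2 with hz | hpos
    · show H y - (A * ‖y‖ ^ 2 + c * (2 * y i - y i * y i)) ≤ 0
      rw [hH0 y hz.symm, ← hz]
      have : 0 ≤ A * ‖y‖ ^ 2 := by positivity
      linarith
    rcases eq_or_lt_of_le hy1 with hn | hlt
    · show H y - (A * ‖y‖ ^ 2 + c * (2 * y i - y i * y i)) ≤ 0
      have h1 := hHA y
      have h2 : 0 ≤ c * (2 * y i - y i * y i) := by
        apply mul_nonneg hc0.le
        nlinarith
      rw [hn, one_pow, mul_one]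
      linarith
    exfalso
    have hloc : IsLocalMax G y := by
      have hU : {z : V ι | ‖z‖ < 1 ∧ 0 < z i} ∈ 𝓝 y := by
        apply IsOpen.mem_nhds
        · exact (isOpen_lt continuous_norm continuous_const).inter
            (isOpen_lt continuous_const (EuclideanSpace.proj i : V ι →L[ℝ] ℝ).continuous)
        · exact ⟨hlt, hpos⟩
      filter_upwards [hU] with z hz
      refine hy ⟨?_, ?_⟩
      · rw [mem_closedBall, dist_zero_right]
        exact hz.1.le
      · exact hz.2.le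
    exact absurd (lap_nonpos hGs hloc) (not_le.2 (hGlap y))
  have hGD : ∀ z ∈ D, G z ≤ 0 := fun z hz => (hy hz).trans hGy
  -- the derivative
  have hder : HasDerivAt (fun t : ℝ => G (t • be i)) (pd i h 0 - 2 * c) 0 := by
    have h1 : HasDerivAt (fun t : ℝ => t • be i) (be i) (0 : ℝ) := by
      have := (hasDerivAt_id (0 : ℝ)).smul_const (be i)
      simpa using this
    have h2 : HasFDerivAt G (fderiv ℝ G ((0 : ℝ) • be i)) ((0 : ℝ) • be i) :=
      ((hGs.differentiable two_ne_zero) _).hasFDerivAt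
    have h3 := h2.comp_hasDerivAt (0 : ℝ) h1
    have h4 : fderiv ℝ G ((0 : ℝ) • be i) (be i) = pd i h 0 - 2 * c := by
      rw [zero_smul]
      have hdH : DifferentiableAt ℝ H 0 := (hHs.differentiable two_ne_zero) 0
      have hdψ : DifferentiableAt ℝ ψ 0 := (hψs.differentiable two_ne_zero) 0
      have h5 : pd i G 0 = pd i H 0 - pd i ψ 0 := pd_sub hdH hdψ i
      have h6 : pd i ψ 0 = 2 * c := by
        have e1 : DifferentiableAt ℝ (fun y : V ι => A * ‖y‖ ^ 2) 0 :=
          ((contDiff_const.mul a1b_contDiff_normsq).differentiable two_ne_zero) 0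
        have e2 : DifferentiableAt ℝ (fun y : V ι => 2 * y i) 0 :=
          (hl.differentiable two_ne_zero) 0
        have e3 : DifferentiableAt ℝ (fun y : V ι => y i * y i) 0 :=
          (hq.differentiable two_ne_zero) 0
        have e5 : DifferentiableAt ℝ (fun y : V ι => 2 * y i - y i * y i) 0 := e2.sub e3
        have e6 : DifferentiableAt ℝ (fun y : V ι => c * (2 * y i - y i * y i)) 0 :=
          e5.const_mul c
        rw [hψ, pd_add e1 e6, pd_const_mul A
          ((a1b_contDiff_normsq.differentiable two_ne_zero) 0), pd_const_mul c e5,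
          pd_sub e2 e3, pd_const_mul 2 (a1b_diff_coord i 0), a1b_pd_normsq,
          pd_mul (a1b_diff_coord i 0) (a1b_diff_coord i 0), a1b_pd_coord, a1b_be_self]
        have e4 : (0 : V ι) i = 0 := rfl
        rw [e4]
        ring
      rw [← hHpd, ← h6, ← h5]
      rfl
    rw [← h4]
    exact h3
  have hlim := hder.tendsto_slope_zero_right
  have hG0 : G 0 = 0 := by
    show H 0 - (A * ‖(0 : V ι)‖ ^ 2 + c * (2 * (0 : V ι) i - (0 : V ι) i * (0 : V ι) i)) = 0
    have e4 : (0 : V ι) i = 0 := rfl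
    rw [hH0 0 e4, e4, norm_zero]
    ring
  have hle : pd i h 0 - 2 * c ≤ 0 := by
    refine le_of_tendsto hlim ?_
    have h1 : ∀ᶠ t in 𝓝[>] (0 : ℝ), t ∈ Ioo (0 : ℝ) 1 := Ioo_mem_nhdsGT one_pos
    filter_upwards [h1] with t ht
    rw [zero_add, zero_smul, hG0, sub_zero, smul_eq_mul]
    apply mul_nonpos_of_nonneg_of_nonpos (inv_nonneg.2 ht.1.le)
    apply hGD
    refine ⟨?_, ?_⟩
    · rw [mem_closedBall, dist_zero_right, norm_smul, norm_be, mul_one, Real.norm_eq_abs,
        abs_of_pos ht.1]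
      exact ht.2.le
    · show 0 ≤ (t • be i) i
      have : (t • be i) i = t * be i i := rfl
      rw [this, a1b_be_self, mul_one]
      exact ht.1.le
  linarith

/-- Proof. Let `n = card ι`. Translate: it is enough to treat `x = 0` (replace `h` by
`y ↦ h (y + x)`, see `pd_translate`, `lap_translate`); replacing `h` by `- h` it is enough to show
`pd i h 0 ≤ 2 n A + B`, and for this `pd i h 0 ≤ 2 c` for every `c > n A + B / 2`.
Let `R` be the reflection `y ↦ y - 2 (y i) • be i` and `H y = (h y - h (R y)) / 2`. It is `C²`,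
`|H| ≤ A`, `|lap H| ≤ B` (`lap (h ∘ R) = (lap h) ∘ R`: for `j ≠ i`,
`pd j (h ∘ R) = (pd j h) ∘ R`, and `pd i (h ∘ R) = - (pd i h) ∘ R`), `H y = 0` if `y i = 0`, and
`pd i H 0 = pd i h 0`. Put `ψ y = A ‖y‖ ^ 2 + c (2 y i - y i ^ 2)`; `lap ψ = 2 n A - 2 c` (constant).
Let `G = H - ψ` and let `D` be the compact set `{y | ‖y‖ ≤ 1, 0 ≤ y i}`. Let `y` be a maximum point
of `G` on `D`. If `‖y‖ < 1` and `0 < y i`, then `y` is a local maximum, so by A1a
`0 ≥ lap G y = lap H y - 2 n A + 2 c ≥ - B - 2 n A + 2 c > 0`, contradiction. If `y i = 0`, then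
`H y = 0` and `ψ y ≥ 0`, so `G y ≤ 0`. If `‖y‖ = 1`, then `0 ≤ y i ≤ 1`, so `ψ y ≥ A ≥ H y`. So
`G ≤ 0` on `D`; for `0 < t < 1` we get `H (t • be i) ≤ A t ^ 2 + c (2 t - t ^ 2)`, and dividing by
`t` and letting `t → 0` gives `pd i H 0 ≤ 2 c` (`H 0 = 0`). -/
theorem grad_est {h : V ι → ℝ} (hh : ContDiff ℝ 2 h) {A B : ℝ} (hA : ∀ x, |h x| ≤ A)
    (hB : ∀ x, |lap h x| ≤ B) (i : ι) (x : V ι) :
    |pd i h x| ≤ 2 * Fintype.card ι * A + B := by
  have key : ∀ g : V ι → ℝ, ContDiff ℝ 2 g → (∀ x, |g x| ≤ A) → (∀ x, |lap g x| ≤ B) →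
      pd i g x ≤ 2 * Fintype.card ι * A + B := by
    intro g hg hgA hgB
    have h1 : ContDiff ℝ 2 (fun y => g (y + x)) := hg.comp (contDiff_id.add contDiff_const)
    have h2 : pd i (fun y => g (y + x)) 0 = pd i g x := by
      rw [pd_translate, zero_add]
    rw [← h2]
    refine le_of_forall_gt_imp_ge_of_dense fun d hd => ?_
    have h3 := a1b_main h1 (fun y => hgA _) (fun y => by rw [lap_translate]; exact hgB _) i
      (d / 2) (by linarith)
    linarith
  rw [abs_le]
  have h1 : ContDiff ℝ 2 (fun y => (-1) * h y) := contDiff_const.mul hh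
  have h2 := key (fun y => (-1) * h y) h1 (fun y => by rw [abs_mul]; simpa using hA y)
    (fun y => by rw [lap_const_mul (-1) hh, abs_mul]; simpa using hB y)
  rw [pd_const_mul (-1) ((hh.differentiable two_ne_zero) x)] at h2
  exact ⟨by linarith, key h hh hA hB⟩

end Pool.Agent.Helper68.DG
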