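import Pool.Agent.Helper68.DG.Base
import Pool.Agent.Helper68.DG.A1b

/-! Project DG (MP_800410_an), piece A2a: bounds for the first derivatives -/

open MeasureTheory Metric Set Filter Topology
open scoped ContDiff

namespace Pool.Agent.Helper68.DG

variable {ι : Type} [Fintype ι]

/-- bound of the differential by a bound of its coordinates -/
theorem a2a_norm_le {v : V ι → ℝ} {C : ℝ} {x : V ι} (h : ∀ i, |pd i v x| ≤ C) :
    ‖fderiv ℝ v x‖ ≤ Fintype.card ι * C := by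
  refine (norm_clm_le_sum _).trans ?_
  have h2 : ∑ i, |fderiv ℝ v x (be i)| ≤ ∑ _i : ι, C := Finset.sum_le_sum fun i _ => h i
  simpa using h2

/-- the differences of the nonlinearity -/
theorem a2a_cube {s t M : ℝ} (hs : |s| ≤ M) (ht : |t| ≤ M) :
    |(s ^ 3 - s) - (t ^ 3 - t)| ≤ (1 + 3 * M ^ 2) * |s - t| := by
  have h0 : (s ^ 3 - s) - (t ^ 3 - t) = (s ^ 2 + s * t + t ^ 2 - 1) * (s - t) := by ring
  rw [h0, abs_mul]
  apply mul_le_mul_of_nonneg_right _ (abs_nonneg _)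
  have h1 : s ^ 2 ≤ M ^ 2 := sq_le_sq' (by linarith [(abs_le.1 hs).1]) (abs_le.1 hs).2
  have h2 : t ^ 2 ≤ M ^ 2 := sq_le_sq' (by linarith [(abs_le.1 ht).1]) (abs_le.1 ht).2
  rw [abs_le]
  constructor
  · nlinarith [sq_nonneg (s + t), sq_nonneg s, sq_nonneg t, sq_nonneg M]
  · nlinarith [sq_nonneg (s - t), sq_nonneg s, sq_nonneg t, sq_nonneg M]

/-- Proof. Let `n = card ι`; `0 ≤ M`. By A1b with `A = M`, `B = M + M ^ 3` all `|pd i u|` are bounded,
so `‖fderiv ℝ u x‖ ≤ G` for some `G` (`norm_clm_le_sum`). Let `a : V ι`, `a ≠ 0` and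
`h y = u (y + a) - u y`. By the mean value inequality `|h| ≤ G ‖a‖`, and `lap h y` is the
difference of the values of `t ^ 3 - t` at `u (y + a)` and `u y`, so
`|lap h| ≤ (1 + 3 M ^ 2) G ‖a‖`. By A1b and `norm_clm_le_sum`,
`‖fderiv ℝ h y‖ ≤ n (2 n + 1) (1 + 3 M ^ 2) G ‖a‖`. -/
theorem reg1 {u : V ι → ℝ} (hu : ContDiff ℝ 2 u) {M : ℝ} (hM : ∀ x, |u x| ≤ M)
    (heq : ∀ x, lap u x + u x - u x ^ 3 = 0) :
    ∃ K : ℝ, (∀ x, ‖fderiv ℝ u x‖ ≤ K) ∧
      ∀ x y, ‖fderiv ℝ u x - fderiv ℝ u y‖ ≤ K * ‖x - y‖ := by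
  classical
  have hM0 : 0 ≤ M := (abs_nonneg _).trans (hM 0)
  have hn : (0 : ℝ) ≤ Fintype.card ι := Nat.cast_nonneg _
  have hlap : ∀ x, lap u x = u x ^ 3 - u x := fun x => by linarith [heq x]
  have hlapb : ∀ x, |lap u x| ≤ M ^ 3 + M := by
    intro x
    rw [hlap]
    have h3 : |u x ^ 3| ≤ M ^ 3 := by
      rw [abs_pow]; exact pow_le_pow_left₀ (abs_nonneg _) (hM x) 3
    exact (abs_sub _ _).trans (add_le_add h3 (hM x))
  set G : ℝ := Fintype.card ι * (2 * Fintype.card ι * M + (M ^ 3 + M)) with hG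
  have hG0 : 0 ≤ G := by rw [hG]; positivity
  have hgrad : ∀ x, ‖fderiv ℝ u x‖ ≤ G := fun x =>
    a2a_norm_le fun i => grad_est hu hM hlapb i x
  have hdiff : Differentiable ℝ u := hu.differentiable two_ne_zero
  have hlip : ∀ x y, |u x - u y| ≤ G * ‖x - y‖ := by
    intro x y
    have h := Convex.norm_image_sub_le_of_norm_fderiv_le (𝕜 := ℝ) (f := u) (s := Set.univ)
      (fun z _ => hdiff z) (fun z _ => hgrad z) convex_univ (Set.mem_univ y) (Set.mem_univ x)
    simpa using h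
  set L : ℝ := Fintype.card ι * (2 * Fintype.card ι * G + (1 + 3 * M ^ 2) * G) with hL
  have hL0 : 0 ≤ L := by rw [hL]; positivity
  have hfd : ∀ x y, ‖fderiv ℝ u x - fderiv ℝ u y‖ ≤ L * ‖x - y‖ := by
    intro x y
    set a : V ι := x - y with ha
    have hua : ContDiff ℝ 2 (fun z => u (z + a)) := hu.comp (contDiff_id.add contDiff_const)
    have hh : ContDiff ℝ 2 (fun z => u (z + a) - u z) := hua.sub hu
    have hA : ∀ z, |u (z + a) - u z| ≤ G * ‖a‖ := by
      intro z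
      have h := hlip (z + a) z
      simpa using h
    have hB : ∀ z, |lap (fun z => u (z + a) - u z) z| ≤ (1 + 3 * M ^ 2) * (G * ‖a‖) := by
      intro z
      rw [lap_sub hua hu, lap_translate, hlap, hlap]
      refine (a2a_cube (hM _) (hM _)).trans ?_
      exact mul_le_mul_of_nonneg_left (hA z) (by positivity)
    have h1 : ‖fderiv ℝ (fun z => u (z + a) - u z) y‖
        ≤ Fintype.card ι * (2 * Fintype.card ι * (G * ‖a‖) + (1 + 3 * M ^ 2) * (G * ‖a‖)) :=
      a2a_norm_le fun i => grad_est hh hA hB i y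
    have h2 : fderiv ℝ (fun z => u (z + a) - u z) y = fderiv ℝ u x - fderiv ℝ u y := by
      rw [fderiv_fun_sub ((hua.differentiable two_ne_zero) y) (hdiff y), fderiv_comp_add_right]
      have : y + a = x := by rw [ha]; abel
      rw [this]
    rw [h2] at h1
    calc ‖fderiv ℝ u x - fderiv ℝ u y‖
        ≤ Fintype.card ι * (2 * Fintype.card ι * (G * ‖a‖) + (1 + 3 * M ^ 2) * (G * ‖a‖)) := h1
      _ = L * ‖a‖ := by rw [hL]; ring
  refine ⟨G + L, fun x => (hgrad x).trans (by linarith), fun x y => (hfd x y).trans ?_⟩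
  exact mul_le_mul_of_nonneg_right (by linarith) (norm_nonneg _)

end Pool.Agent.Helper68.DG
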