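import Pool.Agent.Helper68.DG.Base
import Pool.Agent.Helper68.DG.A1b

/-! Project DG (MP_800410_an), piece A2b: Lipschitz second derivatives -/

open MeasureTheory Metric Set Filter Topology
open scoped ContDiff

namespace Pool.Agent.Helper68.DG

variable {ι : Type} [Fintype ι]

/-- the second differences of a function with Lipschitz differential -/
theorem a2b_second {f : V ι → ℝ} (hf : Differentiable ℝ f) {L : ℝ}
    (hL : ∀ x y, ‖fderiv ℝ f x - fderiv ℝ f y‖ ≤ L * ‖x - y‖) (a b y : V ι) :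
    |(f (y + b + a) - f (y + b)) - (f (y + a) - f y)| ≤ L * ‖a‖ * ‖b‖ := by
  have hd : ∀ z : V ι, HasFDerivAt (fun z => f (z + a) - f z)
      (fderiv ℝ f (z + a) - fderiv ℝ f z) z := by
    intro z
    have h1 : HasFDerivAt (fun z => f (z + a)) (fderiv ℝ f (z + a)) z :=
      (hasFDerivAt_comp_add_right a).2 (hf (z + a)).hasFDerivAt
    exact h1.sub (hf z).hasFDerivAt
  have h := Convex.norm_image_sub_le_of_norm_hasFDerivWithin_le (𝕜 := ℝ)
    (f := fun z => f (z + a) - f z) (s := Set.univ) (C := L * ‖a‖)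
    (fun z _ => (hd z).hasFDerivWithinAt)
    (fun z _ => by
      have h1 := hL (z + a) z
      rwa [add_sub_cancel_left] at h1) convex_univ (Set.mem_univ y) (Set.mem_univ (y + b))
  rw [Real.norm_eq_abs, add_sub_cancel_left] at h
  exact h

/-- the differential of `u ^ 3 - u` -/
theorem a2b_fderiv {u : V ι → ℝ} (hu : Differentiable ℝ u) (x : V ι) :
    HasFDerivAt (fun y => u y ^ 3 - u y) ((3 * u x ^ 2 - 1) • fderiv ℝ u x) x := by
  have h1 := (((hu x).hasFDerivAt).pow 3).sub (hu x).hasFDerivAt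
  refine h1.congr_fderiv ?_
  ext b
  simp
  ring

/-- the differential of `u ^ 3 - u` is Lipschitz -/
theorem a2b_lip {u : V ι → ℝ} (hu : Differentiable ℝ u) {M K : ℝ} (hM : ∀ x, |u x| ≤ M)
    (hK : ∀ x, ‖fderiv ℝ u x‖ ≤ K)
    (hL : ∀ x y, ‖fderiv ℝ u x - fderiv ℝ u y‖ ≤ K * ‖x - y‖) (x y : V ι) :
    ‖fderiv ℝ (fun y => u y ^ 3 - u y) x - fderiv ℝ (fun y => u y ^ 3 - u y) y‖ ≤
      ((3 * M ^ 2 + 1) * K + 6 * M * K ^ 2) * ‖x - y‖ := by
  have hM0 : 0 ≤ M := (abs_nonneg _).trans (hM 0)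
  have hK0 : 0 ≤ K := (norm_nonneg _).trans (hK 0)
  rw [(a2b_fderiv hu x).fderiv, (a2b_fderiv hu y).fderiv]
  have e : (3 * u x ^ 2 - 1) • fderiv ℝ u x - (3 * u y ^ 2 - 1) • fderiv ℝ u y =
      (3 * u x ^ 2 - 1) • (fderiv ℝ u x - fderiv ℝ u y) +
        (3 * (u x + u y) * (u x - u y)) • fderiv ℝ u y := by
    ext b
    simp
    ring
  rw [e]
  have hlip : |u x - u y| ≤ K * ‖x - y‖ := by
    have h := Convex.norm_image_sub_le_of_norm_fderiv_le (𝕜 := ℝ) (f := u) (s := Set.univ)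
      (fun z _ => hu z) (fun z _ => hK z) convex_univ (Set.mem_univ y) (Set.mem_univ x)
    simpa using h
  have h1 : |3 * u x ^ 2 - 1| ≤ 3 * M ^ 2 + 1 := by
    have h2 : u x ^ 2 ≤ M ^ 2 := sq_le_sq' (by linarith [(abs_le.1 (hM x)).1]) (abs_le.1 (hM x)).2
    rw [abs_le]
    constructor <;> nlinarith [sq_nonneg (u x), sq_nonneg M]
  have h2 : |3 * (u x + u y) * (u x - u y)| ≤ 6 * M * (K * ‖x - y‖) := by
    rw [abs_mul, abs_mul]
    have h3 : |u x + u y| ≤ 2 * M := (abs_add_le _ _).trans (by linarith [hM x, hM y])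
    have h4 : |(3 : ℝ)| = 3 := by norm_num
    rw [h4]
    calc 3 * |u x + u y| * |u x - u y| ≤ 3 * (2 * M) * (K * ‖x - y‖) := by gcongr
      _ = 6 * M * (K * ‖x - y‖) := by ring
  calc ‖(3 * u x ^ 2 - 1) • (fderiv ℝ u x - fderiv ℝ u y) +
        (3 * (u x + u y) * (u x - u y)) • fderiv ℝ u y‖
      ≤ |3 * u x ^ 2 - 1| * ‖fderiv ℝ u x - fderiv ℝ u y‖ +
        |3 * (u x + u y) * (u x - u y)| * ‖fderiv ℝ u y‖ := by
        refine (norm_add_le _ _).trans ?_
        rw [norm_smul, norm_smul, Real.norm_eq_abs, Real.norm_eq_abs]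
    _ ≤ (3 * M ^ 2 + 1) * (K * ‖x - y‖) + 6 * M * (K * ‖x - y‖) * K := by
        refine add_le_add ?_ ?_
        · exact mul_le_mul h1 (hL x y) (norm_nonneg _) (by positivity)
        · exact mul_le_mul h2 (hK y) (norm_nonneg _) (by positivity)
    _ = _ := by ring

/-- Proof. Let `n = card ι`, `0 ≤ K`, and `F y = u y ^ 3 - u y = lap u y`, a `C²` function with
`fderiv ℝ F y = (3 u y ^ 2 - 1) • fderiv ℝ u y`; so
`‖fderiv ℝ F x - fderiv ℝ F y‖ ≤ L ‖x - y‖` with `L = (3 M ^ 2 + 1) K + 6 M K ^ 2`. Let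
`a b : V ι` and `h y = (u (y + a + b) - u (y + b)) - (u (y + a) - u y)`. The function
`z ↦ u (z + a) - u z` has a derivative of norm at most `K ‖a‖`, so `|h| ≤ K ‖a‖ ‖b‖`; in the same
way `|lap h| ≤ L ‖a‖ ‖b‖` (`lap h` is the second difference of `F`). By A1b
`|pd i h y| ≤ (2 n K + L) ‖a‖ ‖b‖`. Take `b = t • b'`, divide by `t` and let `t → 0`:
`|fderiv ℝ (pd i u) (y + a) b' - fderiv ℝ (pd i u) y b'| ≤ (2 n K + L) ‖a‖ ‖b'‖`. As
`fderiv ℝ (pd i u) y b' = fderiv ℝ (fderiv ℝ u) y b' (be i)`, `norm_clm_le_sum` gives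
`‖fderiv ℝ (fderiv ℝ u) (y + a) - fderiv ℝ (fderiv ℝ u) y‖ ≤ n (2 n K + L) ‖a‖`. -/
theorem reg2 {u : V ι → ℝ} (hu : ContDiff ℝ 2 u) {M K : ℝ} (hM : ∀ x, |u x| ≤ M)
    (heq : ∀ x, lap u x + u x - u x ^ 3 = 0) (hK : ∀ x, ‖fderiv ℝ u x‖ ≤ K)
    (hL : ∀ x y, ‖fderiv ℝ u x - fderiv ℝ u y‖ ≤ K * ‖x - y‖) :
    ∃ K' : ℝ, ∀ x y, ‖fderiv ℝ (fderiv ℝ u) x - fderiv ℝ (fderiv ℝ u) y‖ ≤ K' * ‖x - y‖ := by
  classical
  have hM0 : 0 ≤ M := (abs_nonneg _).trans (hM 0)
  have hK0 : 0 ≤ K := (norm_nonneg _).trans (hK 0)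
  have hd : Differentiable ℝ u := hu.differentiable two_ne_zero
  have hlap : ∀ x, lap u x = u x ^ 3 - u x := fun x => by linarith [heq x]
  set L : ℝ := (3 * M ^ 2 + 1) * K + 6 * M * K ^ 2 with hLdef
  have hL0 : 0 ≤ L := by rw [hLdef]; positivity
  set c : ℝ := 2 * Fintype.card ι * K + L with hc
  have hc0 : 0 ≤ c := by rw [hc]; positivity
  -- the second differences of the first derivatives
  have h1 : ∀ (i : ι) (a b y : V ι), |(pd i u (y + b + a) - pd i u (y + b)) -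
      (pd i u (y + a) - pd i u y)| ≤ c * ‖a‖ * ‖b‖ := by
    intro i a b y
    have s1 : ContDiff ℝ 2 (fun z => u (z + a)) := hu.comp (contDiff_id.add contDiff_const)
    obtain ⟨g, hg⟩ : ∃ g : V ι → ℝ, g = fun w => u (w + a) - u w := ⟨_, rfl⟩
    have hgz : ∀ z, g z = u (z + a) - u z := fun z => by rw [hg]
    have s2 : ContDiff ℝ 2 g := by rw [hg]; exact s1.sub hu
    have s3 : ContDiff ℝ 2 (fun z => g (z + b)) := s2.comp (contDiff_id.add contDiff_const)
    have s4 : ContDiff ℝ 2 (fun z => g (z + b) - g z) := s3.sub s2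
    have hA : ∀ z, |g (z + b) - g z| ≤ K * ‖a‖ * ‖b‖ := fun z => by
      rw [hgz, hgz]
      exact a2b_second hd hL a b z
    have hlg : ∀ z, lap g z = lap u (z + a) - lap u z := fun z => by
      rw [hg, lap_sub s1 hu, lap_translate]
    have hB : ∀ z, |lap (fun z => g (z + b) - g z) z| ≤ L * ‖a‖ * ‖b‖ := by
      intro z
      rw [lap_sub s3 s2, lap_translate g b z, hlg, hlg, hlap, hlap, hlap, hlap]
      exact a2b_second (f := fun y => u y ^ 3 - u y)
        (fun x => (a2b_fderiv hd x).differentiableAt) (a2b_lip hd hM hK hL) a b z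
    have h2 := grad_est s4 hA hB i y
    have e1 : ∀ z, pd i g z = pd i u (z + a) - pd i u z := by
      intro z
      rw [hg, pd_sub ((s1.differentiable two_ne_zero) z) (hd z), pd_translate]
    rw [pd_sub ((s3.differentiable two_ne_zero) y) ((s2.differentiable two_ne_zero) y),
      pd_translate g b i y, e1, e1] at h2
    refine h2.trans (le_of_eq ?_)
    rw [hc]
    ring
  -- the differentials of the first derivatives
  have h2 : ∀ (i : ι) (a y : V ι), ‖fderiv ℝ (pd i u) (y + a) - fderiv ℝ (pd i u) y‖ ≤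
      c * ‖a‖ := by
    intro i a y
    have hp : Differentiable ℝ (pd i u) := (contDiff_pd_one hu i).differentiable one_ne_zero
    have e1 : fderiv ℝ (fun z => pd i u (z + a) - pd i u z) y =
        fderiv ℝ (pd i u) (y + a) - fderiv ℝ (pd i u) y := by
      have h3 : HasFDerivAt (fun z => pd i u (z + a)) (fderiv ℝ (pd i u) (y + a)) y :=
        (hasFDerivAt_comp_add_right a).2 (hp (y + a)).hasFDerivAt
      exact (h3.sub (hp y).hasFDerivAt).fderiv
    rw [← e1]
    refine norm_fderiv_le_of_lip' ℝ (by positivity) (Filter.Eventually.of_forall fun x => ?_)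
    have h3 := h1 i a (x - y) y
    rw [add_sub_cancel] at h3
    rw [Real.norm_eq_abs]
    exact h3
  -- the second derivatives
  have h3 : ∀ (i : ι) (y b : V ι), fderiv ℝ (pd i u) y b = fderiv ℝ (fderiv ℝ u) y b (be i) := by
    intro i y b
    have h4 : DifferentiableAt ℝ (fderiv ℝ u) y :=
      ((hu.fderiv_right (m := 1) (by norm_num)).differentiable one_ne_zero) y
    have h5 := (h4.hasFDerivAt.clm_apply (hasFDerivAt_const (be i) y)).fderiv
    unfold pd
    rw [h5]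
    simp
  refine ⟨Fintype.card ι * c, fun x y => ?_⟩
  refine ContinuousLinearMap.opNorm_le_bound _ (by positivity) fun b => ?_
  refine (norm_clm_le_sum _).trans ?_
  have h4 : ∀ i ∈ (Finset.univ : Finset ι),
      |((fderiv ℝ (fderiv ℝ u) x - fderiv ℝ (fderiv ℝ u) y) b) (be i)| ≤
        c * ‖x - y‖ * ‖b‖ := by
    intro i _
    have h5 := h2 i (x - y) y
    rw [add_sub_cancel] at h5
    have h6 := (fderiv ℝ (pd i u) x - fderiv ℝ (pd i u) y).le_opNorm b
    rw [Real.norm_eq_abs] at h6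
    have e2 : ((fderiv ℝ (fderiv ℝ u) x - fderiv ℝ (fderiv ℝ u) y) b) (be i) =
        (fderiv ℝ (pd i u) x - fderiv ℝ (pd i u) y) b := by
      simp only [ContinuousLinearMap.sub_apply]
      rw [h3, h3]
    rw [e2]
    exact h6.trans (mul_le_mul_of_nonneg_right h5 (norm_nonneg _))
  refine (Finset.sum_le_sum h4).trans (le_of_eq ?_)
  rw [Finset.sum_const, Finset.card_univ, nsmul_eq_mul]
  ring

end Pool.Agent.Helper68.DG
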