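import Pool.Agent.Helper68.DG.Base
import Pool.Agent.Helper68.DG.A2a
import Pool.Agent.Helper68.DG.A2b

/-! Project DG (MP_800410_an), piece A2: solutions have bounded derivatives -/

open MeasureTheory Metric Set Filter Topology
open scoped ContDiff

namespace Pool.Agent.Helper68.DG

variable {ι : Type} [Fintype ι]

/-- bounded solutions satisfy `GS K` for some `K` -/
theorem exists_GS {u : V ι → ℝ} (hu : ContDiff ℝ 2 u) {M : ℝ} (hM : ∀ x, |u x| ≤ M)
    (heq : ∀ x, lap u x + u x - u x ^ 3 = 0) : ∃ K : ℝ, GS K u := by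
  obtain ⟨K, hK, hL⟩ := reg1 hu hM heq
  obtain ⟨K', hK'⟩ := reg2 hu hM heq hK hL
  refine ⟨max M (max K K'), hu, heq, fun x => (hM x).trans (le_max_left _ _), fun x =>
    (hK x).trans ((le_max_left _ _).trans (le_max_right _ _)), fun x y => (hL x y).trans ?_,
    fun x y => (hK' x y).trans ?_⟩
  · exact mul_le_mul_of_nonneg_right ((le_max_left _ _).trans (le_max_right _ _)) (norm_nonneg _)
  · exact mul_le_mul_of_nonneg_right ((le_max_right _ _).trans (le_max_right _ _))
      (norm_nonneg _)

end Pool.Agent.Helper68.DG
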