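import Pool.Agent.Helper68.DG.Base
import Pool.Agent.Helper68.DG.B4
import Pool.Agent.Helper68.DG.C1
import Pool.Agent.Helper68.DG.C2

/-! Project DG (MP_800410_an), piece C3: stable solutions in dimension at most two -/

open MeasureTheory Metric Set Filter Topology
open scoped ContDiff

namespace Pool.Agent.Helper68.DG

variable {ι : Type} [Fintype ι]

theorem c3_lg_le {x : V ι} {R : ℝ} (h : ‖x‖ ≤ R) : lg x ≤ Real.log (1 + R ^ 2) / 2 := by
  unfold lg
  have h0 : 0 ≤ ‖x‖ := norm_nonneg x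
  have h1 : ‖x‖ ^ 2 ≤ R ^ 2 := pow_le_pow_left₀ h0 h 2
  have h2 : Real.log (1 + ‖x‖ ^ 2) ≤ Real.log (1 + R ^ 2) :=
    Real.log_le_log (by positivity) (by linarith)
  linarith

theorem c3_continuous_lg : Continuous (lg : V ι → ℝ) := (contDiff_lg (n := 0)).continuous

/-- Proof. B4 with `ξ = cut T`, `T` large: it is `1` where `lg x ≤ T`, for example for
`‖x‖ ≤ R` if `T ≥ lg` there (`lg x ≤ log (1 + R ^ 2) / 2`). By C1
`gd ξ ξ x = ‖fderiv ℝ ξ x‖ ^ 2 ≤ (C / T) ^ 2 exp (- 2 lg x)` on `shell T 1 ∅` and `= 0` outside, and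
`exp (- 2 lg x) ≤ exp (- n lg x)` as `n = card ι ≤ 2`; so by C2
`∫ ‖fderiv ℝ u x‖ ^ 2 * gd ξ ξ x ≤ K ^ 2 (C / T) ^ 2 C' T → 0`. -/
theorem signed_dim2 {K : ℝ} {u : V ι → ℝ} (hu : GS K u) (hst : Stab u)
    (hn : Fintype.card ι ≤ 2) : Signed u := by
  refine signed_of_cutoffs hu hst ?_
  intro R ε hε
  obtain ⟨C, hC0, hC⟩ := cut_facts (ι := ι)
  obtain ⟨C', hC'0, hC'⟩ := shell_vol (ι := ι)
  set T : ℝ := max (max 1 (Real.log (1 + R ^ 2) / 2)) (K ^ 2 * C ^ 2 * C' / ε) with hT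
  have hT1 : 1 ≤ T := (le_max_left _ _).trans (le_max_left _ _)
  have hT2 : Real.log (1 + R ^ 2) / 2 ≤ T := (le_max_right _ _).trans (le_max_left _ _)
  have hT3 : K ^ 2 * C ^ 2 * C' / ε ≤ T := le_max_right _ _
  have hT0 : 0 < T := by linarith
  have hK := hu.K_nonneg
  obtain ⟨h1, h2, h3, h4, h5, h6⟩ := hC T hT1
  refine ⟨cut T, h1, fun x hx => h3 x ((c3_lg_le hx).trans hT2), ?_⟩
  have hcomp := isCompact_shell (ι := ι) T 1 ∅
  have hzero : ∀ x : V ι, x ∉ shell T 1 ∅ →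
      ‖fderiv ℝ u x‖ ^ 2 * gd (cut T) (cut T) x = 0 := by
    intro x hx
    rw [gd_self, h6 x hx]
    simp
  rw [← setIntegral_eq_integral_of_forall_compl_eq_zero hzero]
  have hcont1 : Continuous fun x : V ι => ‖fderiv ℝ u x‖ ^ 2 * gd (cut T) (cut T) x :=
    ((hu.C1.continuous_fderiv one_ne_zero).norm.pow 2).mul (continuous_gd h1.1 h1.1)
  have hcont2 : Continuous fun x : V ι =>
      K ^ 2 * (C / T) ^ 2 * Real.exp (-(Fintype.card ι : ℝ) * lg x) := by
    have := c3_continuous_lg (ι := ι)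
    fun_prop
  have hle : ∫ x : V ι in shell T 1 ∅, ‖fderiv ℝ u x‖ ^ 2 * gd (cut T) (cut T) x ≤
      ∫ x : V ι in shell T 1 ∅, K ^ 2 * (C / T) ^ 2 * Real.exp (-(Fintype.card ι : ℝ) * lg x) := by
    refine setIntegral_mono_on (hcont1.continuousOn.integrableOn_compact hcomp)
      (hcont2.continuousOn.integrableOn_compact hcomp) hcomp.measurableSet ?_
    intro x _
    rw [gd_self]
    have a1 : ‖fderiv ℝ u x‖ ^ 2 ≤ K ^ 2 :=
      pow_le_pow_left₀ (norm_nonneg _) (hu.bdd1 x) 2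
    have a2 : ‖fderiv ℝ (cut T) x‖ ^ 2 ≤ (C / T) ^ 2 * Real.exp (-(Fintype.card ι : ℝ) * lg x) := by
      calc ‖fderiv ℝ (cut T) x‖ ^ 2 ≤ (C / T * Real.exp (-lg x)) ^ 2 :=
            pow_le_pow_left₀ (norm_nonneg _) (h5 x) 2
        _ = (C / T) ^ 2 * Real.exp (-2 * lg x) := by
            rw [mul_pow, ← Real.exp_nat_mul]
            congr 2
            push_cast
            ring
        _ ≤ (C / T) ^ 2 * Real.exp (-(Fintype.card ι : ℝ) * lg x) := by
            refine mul_le_mul_of_nonneg_left (Real.exp_le_exp.2 ?_) (by positivity)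
            have hn' : (Fintype.card ι : ℝ) ≤ 2 := by exact_mod_cast hn
            nlinarith [lg_nonneg x]
    calc ‖fderiv ℝ u x‖ ^ 2 * ‖fderiv ℝ (cut T) x‖ ^ 2
        ≤ K ^ 2 * ((C / T) ^ 2 * Real.exp (-(Fintype.card ι : ℝ) * lg x)) :=
          mul_le_mul a1 a2 (by positivity) (by positivity)
      _ = _ := by ring
  refine hle.trans ?_
  rw [integral_const_mul]
  have h7 := hC' T 1 ∅ hT1 one_pos
  rw [Finset.card_empty, pow_zero, mul_one] at h7
  calc K ^ 2 * (C / T) ^ 2 * ∫ x : V ι in shell T 1 ∅, Real.exp (-(Fintype.card ι : ℝ) * lg x)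
      ≤ K ^ 2 * (C / T) ^ 2 * (C' * T) := mul_le_mul_of_nonneg_left h7 (by positivity)
    _ = K ^ 2 * C ^ 2 * C' / T := by field_simp
    _ ≤ ε := by
        rw [div_le_iff₀ hT0]
        rw [div_le_iff₀ hε] at hT3
        linarith

end Pool.Agent.Helper68.DG
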