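import Pool.Agent.Helper68.DG.Base
import Pool.Agent.Helper68.DG.C1

/-! Project DG (MP_800410_an), piece D4a: cutoffs for the shells -/

open MeasureTheory Metric Set Filter Topology
open scoped ContDiff

namespace Pool.Agent.Helper68.DG

variable {ι : Type} [Fintype ι]

/-- factors of the cutoff -/
def d4a_OK (K : ℝ) (f : V ι → ℝ) : Prop :=
  ContDiff ℝ 1 f ∧ (∀ x, 0 ≤ f x ∧ f x ≤ 1) ∧ ∀ x, ‖fderiv ℝ f x‖ ≤ K * Real.exp (-lg x)

theorem d4a_norm_mul {f g : V ι → ℝ} (hf : ContDiff ℝ 1 f) (hg : ContDiff ℝ 1 g) (x : V ι) :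
    ‖fderiv ℝ (fun y => f y * g y) x‖ ≤ |f x| * ‖fderiv ℝ g x‖ + |g x| * ‖fderiv ℝ f x‖ := by
  rw [fderiv_fun_mul (hf.differentiable one_ne_zero x) (hg.differentiable one_ne_zero x)]
  refine (norm_add_le _ _).trans ?_
  rw [norm_smul, norm_smul, Real.norm_eq_abs, Real.norm_eq_abs]

theorem d4a_mul {K K' : ℝ} {f g : V ι → ℝ} (hf : d4a_OK K f) (hg : d4a_OK K' g) :
    d4a_OK (K + K') (fun x => f x * g x) := by
  obtain ⟨h1, h2, h3⟩ := hf
  obtain ⟨k1, k2, k3⟩ := hg
  refine ⟨h1.mul k1, fun x => ⟨mul_nonneg (h2 x).1 (k2 x).1,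
    mul_le_one₀ (h2 x).2 (k2 x).1 (k2 x).2⟩, fun x => ?_⟩
  refine (d4a_norm_mul h1 k1 x).trans ?_
  rw [abs_of_nonneg (h2 x).1, abs_of_nonneg (k2 x).1]
  have e1 : f x * ‖fderiv ℝ g x‖ ≤ 1 * (K' * Real.exp (-lg x)) :=
    mul_le_mul (h2 x).2 (k3 x) (norm_nonneg _) zero_le_one
  have e2 : g x * ‖fderiv ℝ f x‖ ≤ 1 * (K * Real.exp (-lg x)) :=
    mul_le_mul (k2 x).2 (h3 x) (norm_nonneg _) zero_le_one
  linarith only [e1, e2]

theorem d4a_prod {K : ℝ} (a : ι → V ι → ℝ) (J : Finset ι) (h : ∀ i ∈ J, d4a_OK K (a i)) :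
    d4a_OK (J.card * K) (fun x => ∏ i ∈ J, a i x) := by
  classical
  induction J using Finset.induction_on with
  | empty =>
    simp only [Finset.prod_empty, Finset.card_empty, Nat.cast_zero, zero_mul]
    refine ⟨contDiff_const, fun x => ⟨zero_le_one, le_rfl⟩, fun x => ?_⟩
    simp
  | insert b J hb ih =>
    have h1 := h b (Finset.mem_insert_self b J)
    have h2 := ih fun i hi => h i (Finset.mem_insert_of_mem hi)
    have h3 := d4a_mul h1 h2
    have e1 : (fun x => ∏ i ∈ insert b J, a i x) = fun x => a b x * ∏ i ∈ J, a i x := by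
      funext x
      rw [Finset.prod_insert hb]
    have e2 : (((insert b J).card : ℕ) : ℝ) * K = K + J.card * K := by
      rw [Finset.card_insert_of_notMem hb]
      push_cast
      ring
    rw [e1, e2]
    exact h3

theorem d4a_comp {C K : ℝ} (hC : ∀ s, |deriv th s| ≤ C) {h : V ι → ℝ}
    (hh : ContDiff ℝ 1 h) (hK : ∀ x, ‖fderiv ℝ h x‖ ≤ K * Real.exp (-lg x)) :
    d4a_OK (C * K) (fun x => th (h x)) := by
  have hC0 : 0 ≤ C := (abs_nonneg _).trans (hC 0)
  refine ⟨(c1_th_contDiff (n := 1)).comp hh, fun x =>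
    ⟨Real.smoothTransition.nonneg _, Real.smoothTransition.le_one _⟩, fun x => ?_⟩
  have h1 : HasDerivAt th (deriv th (h x)) (h x) :=
    ((c1_th_contDiff (n := 1)).differentiable one_ne_zero _).hasDerivAt
  have h2 : HasFDerivAt h (fderiv ℝ h x) x := (hh.differentiable one_ne_zero x).hasFDerivAt
  have h4 := h1.comp_hasFDerivAt x h2
  have h5 : (fun y => th (h y)) = th ∘ h := rfl
  rw [h5, h4.fderiv, norm_smul, Real.norm_eq_abs, mul_assoc]
  exact mul_le_mul (hC _) (hK x) (norm_nonneg _) hC0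

theorem d4a_coord_contDiff (i : ι) (c : ℝ) :
    ContDiff ℝ 1 (fun x : V ι => c * (x i * Real.exp (-lg x))) := by
  have h1 : ContDiff ℝ 1 (fun x : V ι => x i) := by
    have := (EuclideanSpace.proj i : V ι →L[ℝ] ℝ).contDiff (n := 1)
    exact this
  exact contDiff_const.mul (h1.mul (contDiff_lg (n := 1)).neg.exp)

theorem d4a_coord_fderiv (i : ι) (c : ℝ) (x : V ι) :
    ‖fderiv ℝ (fun x : V ι => c * (x i * Real.exp (-lg x))) x‖ ≤
      (2 * |c|) * Real.exp (-lg x) := by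
  have h1 : ContDiff ℝ 1 (fun x : V ι => x i) := by
    have := (EuclideanSpace.proj i : V ι →L[ℝ] ℝ).contDiff (n := 1)
    exact this
  have h1' : ‖fderiv ℝ (fun x : V ι => x i) x‖ ≤ 1 := by
    have e : fderiv ℝ (fun x : V ι => x i) x =
        (EuclideanSpace.proj i : V ι →L[ℝ] ℝ) :=
      (EuclideanSpace.proj i : V ι →L[ℝ] ℝ).hasFDerivAt.fderiv
    rw [e]
    refine ContinuousLinearMap.opNorm_le_bound _ zero_le_one fun b => ?_
    rw [one_mul]
    exact abs_coord_le b i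
  have h2 : ContDiff ℝ 1 (fun x : V ι => Real.exp (-lg x)) := (contDiff_lg (n := 1)).neg.exp
  have h2' : ‖fderiv ℝ (fun x : V ι => Real.exp (-lg x)) x‖ ≤
      Real.exp (-lg x) * Real.exp (-lg x) := by
    have e1 : HasFDerivAt (lg : V ι → ℝ) (fderiv ℝ lg x) x :=
      ((contDiff_lg (n := 1)).differentiable one_ne_zero x).hasFDerivAt
    have e2 := e1.neg.exp
    have e3 : fderiv ℝ (fun x : V ι => Real.exp (-lg x)) x =
        Real.exp (-lg x) • -fderiv ℝ lg x := e2.fderiv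
    rw [e3, norm_smul, norm_neg, Real.norm_eq_abs, abs_of_pos (Real.exp_pos _)]
    exact mul_le_mul_of_nonneg_left (norm_fderiv_lg_le x) (Real.exp_pos _).le
  have h3 := d4a_norm_mul h1 h2 x
  have h4 := d4a_norm_mul (contDiff_const (c := c)) (h1.mul h2) x
  have h5 : ‖fderiv ℝ (fun _ : V ι => c) x‖ = 0 := by simp
  have e4 : |x i| * Real.exp (-lg x) ≤ 1 := by
    have := (abs_coord_le x i).trans (norm_le_exp_lg x)
    have e5 : Real.exp (lg x) * Real.exp (-lg x) = 1 := by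
      rw [← Real.exp_add]
      simp
    calc |x i| * Real.exp (-lg x) ≤ Real.exp (lg x) * Real.exp (-lg x) :=
          mul_le_mul_of_nonneg_right this (Real.exp_pos _).le
      _ = 1 := e5
  have h6 : ‖fderiv ℝ (fun y : V ι => y i * Real.exp (-lg y)) x‖ ≤ 2 * Real.exp (-lg x) := by
    refine h3.trans ?_
    rw [abs_of_pos (Real.exp_pos (-lg x))]
    have e6 : |x i| * ‖fderiv ℝ (fun x : V ι => Real.exp (-lg x)) x‖ ≤
        1 * Real.exp (-lg x) := by
      calc |x i| * ‖fderiv ℝ (fun x : V ι => Real.exp (-lg x)) x‖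
          ≤ |x i| * (Real.exp (-lg x) * Real.exp (-lg x)) :=
            mul_le_mul_of_nonneg_left h2' (abs_nonneg _)
        _ = (|x i| * Real.exp (-lg x)) * Real.exp (-lg x) := by ring
        _ ≤ 1 * Real.exp (-lg x) := mul_le_mul_of_nonneg_right e4 (Real.exp_pos _).le
    have e7 : Real.exp (-lg x) * ‖fderiv ℝ (fun x : V ι => x i) x‖ ≤
        Real.exp (-lg x) * 1 := mul_le_mul_of_nonneg_left h1' (Real.exp_pos _).le
    linarith only [e6, e7]
  calc ‖fderiv ℝ (fun x : V ι => c * (x i * Real.exp (-lg x))) x‖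
      ≤ |c| * ‖fderiv ℝ (fun y : V ι => y i * Real.exp (-lg y)) x‖ +
        |x i * Real.exp (-lg x)| * ‖fderiv ℝ (fun _ : V ι => c) x‖ := h4
    _ = |c| * ‖fderiv ℝ (fun y : V ι => y i * Real.exp (-lg y)) x‖ := by rw [h5, mul_zero, add_zero]
    _ ≤ |c| * (2 * Real.exp (-lg x)) := mul_le_mul_of_nonneg_left h6 (abs_nonneg _)
    _ = (2 * |c|) * Real.exp (-lg x) := by ring

/-- Proof. Let `g : ℝ → ℝ` be a smooth function with `0 ≤ g ≤ 1`, `g = 1` on `[T, 2 T]`, `g = 0`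
outside of `[T - 1, 2 T + 1]`, for example
`g s = smoothTransition (s - (T - 1)) * smoothTransition (2 T + 1 - s)`, `|g'| ≤ C₀` with `C₀`
independent of `T`; let `χ t = smoothTransition (4 - t ^ 2)`, which is `1` for `|t| ≤ 1` and `0` for
`2 ≤ |t|`, `|χ'| ≤ C₀`. Put
`ζ x = exp (- d lg x) * g (lg x) * ∏ i ∈ J, χ (x i * exp (- lg x) / δ)`.
The function `x ↦ x i * exp (- lg x)` has a derivative of norm at most `2 exp (- lg x)`
(`|x i| ≤ exp (lg x)`, `norm_fderiv_lg_le`). So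
`‖fderiv ζ x‖ ≤ exp (- (d + 1) lg x) * (d + C₀ + 2 |J| C₀ / δ)`, and `ζ x = 0`, `fderiv ζ x = 0`
outside of the set where `T - 1 ≤ lg x ≤ 2 T + 1` and `|x i| ≤ 2 δ exp (lg x)` for `i ∈ J`; for
`T ≥ 2` this set is contained in the union of the three shells. -/
theorem exists_shell_cut (d : ℝ) (hd : 0 ≤ d) (J : Finset ι) : ∃ C : ℝ, 0 ≤ C ∧
    ∀ T δ : ℝ, 2 ≤ T → 0 < δ → δ ≤ 1 → ∃ ζ : V ι → ℝ, T1 ζ ∧ (∀ x, 0 ≤ ζ x) ∧
      (∀ x ∈ shell T δ J, Real.exp (-d * lg x) ≤ ζ x) ∧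
      (∀ x, ‖fderiv ℝ ζ x‖ ≤ C / δ * Real.exp (-(d + 1) * lg x)) ∧
      ∀ x, x ∉ shell (T / 2) (2 * δ) J ∪ shell T (2 * δ) J ∪ shell (2 * T) (2 * δ) J →
        fderiv ℝ ζ x = 0 := by
  obtain ⟨C₀, hC0, hC⟩ := c1_deriv_th_bdd
  refine ⟨d + 2 * C₀ + J.card * (4 * C₀), by positivity, fun T δ hT hδ hδ1 => ?_⟩
  -- the factors
  let χ : ι → V ι → ℝ := fun i x =>
    th (δ⁻¹ * (x i * Real.exp (-lg x))) * th (-δ⁻¹ * (x i * Real.exp (-lg x)))
  let F : V ι → ℝ := fun x => (th (T + 1 - lg x) * th (lg x - (2 * T - 1))) * ∏ i ∈ J, χ i x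
  let E : V ι → ℝ := fun x => Real.exp (-d * lg x)
  have hδi : |δ⁻¹| = δ⁻¹ := abs_of_pos (inv_pos.mpr hδ)
  have hχ : ∀ i ∈ J, d4a_OK (4 * C₀ / δ) (χ i) := by
    intro i _
    have h1 := d4a_comp hC (d4a_coord_contDiff i δ⁻¹) (d4a_coord_fderiv i δ⁻¹)
    have h2 := d4a_comp hC (d4a_coord_contDiff i (-δ⁻¹)) (d4a_coord_fderiv i (-δ⁻¹))
    have h3 := d4a_mul h1 h2
    have e : C₀ * (2 * |δ⁻¹|) + C₀ * (2 * |-δ⁻¹|) = 4 * C₀ / δ := by
      rw [abs_neg, hδi]
      ring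
    rw [e] at h3
    exact h3
  have hlg1 : ContDiff ℝ 1 (lg : V ι → ℝ) := contDiff_lg
  have hg1 : d4a_OK (C₀ * 1) (fun x : V ι => th (T + 1 - lg x)) := by
    refine d4a_comp hC (contDiff_const.sub hlg1) fun x => ?_
    rw [fderiv_const_sub, norm_neg, one_mul]
    exact norm_fderiv_lg_le x
  have hg2 : d4a_OK (C₀ * 1) (fun x : V ι => th (lg x - (2 * T - 1))) := by
    refine d4a_comp hC (hlg1.sub contDiff_const) fun x => ?_
    rw [fderiv_sub_const, one_mul]
    exact norm_fderiv_lg_le x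
  have hF : d4a_OK (C₀ * 1 + C₀ * 1 + J.card * (4 * C₀ / δ)) F :=
    d4a_mul (d4a_mul hg1 hg2) (d4a_prod χ J hχ)
  obtain ⟨hF1, hF2, hF3⟩ := hF
  have hE1 : ContDiff ℝ 1 E := (contDiff_const.mul hlg1).exp
  have hE0 : ∀ x, 0 < E x := fun x => Real.exp_pos _
  have hE3 : ∀ x, ‖fderiv ℝ E x‖ ≤ d * E x * Real.exp (-lg x) := by
    intro x
    have e1 : HasFDerivAt (lg : V ι → ℝ) (fderiv ℝ lg x) x :=
      (hlg1.differentiable one_ne_zero x).hasFDerivAt
    have e2 := (e1.const_mul (-d)).exp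
    have e3 : fderiv ℝ E x = Real.exp (-d * lg x) • ((-d) • fderiv ℝ lg x) := e2.fderiv
    rw [e3, norm_smul, norm_smul, Real.norm_eq_abs, Real.norm_eq_abs, abs_of_pos (Real.exp_pos _),
      abs_neg, abs_of_nonneg hd]
    calc Real.exp (-d * lg x) * (d * ‖fderiv ℝ lg x‖)
        = (d * Real.exp (-d * lg x)) * ‖fderiv ℝ lg x‖ := by ring
      _ ≤ (d * Real.exp (-d * lg x)) * Real.exp (-lg x) :=
          mul_le_mul_of_nonneg_left (norm_fderiv_lg_le x) (by positivity)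
  -- vanishing of the factors
  have hz1 : ∀ x : V ι, lg x ≤ T - 1 → F x = 0 := by
    intro x hx
    have : th (T + 1 - lg x) = 0 := c1_th_zero (by linarith)
    simp only [F, this, zero_mul]
  have hz2 : ∀ x : V ι, 2 * T + 1 ≤ lg x → F x = 0 := by
    intro x hx
    have : th (lg x - (2 * T - 1)) = 0 := c1_th_zero (by linarith)
    simp only [F, this, mul_zero, zero_mul]
  have hz3 : ∀ x : V ι, ∀ i ∈ J, 2 * δ * Real.exp (lg x) ≤ |x i| → F x = 0 := by
    intro x i hi hx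
    have hexp : Real.exp (lg x) * Real.exp (-lg x) = 1 := by
      rw [← Real.exp_add]
      simp
    have hy : 2 ≤ δ⁻¹ * (|x i| * Real.exp (-lg x)) := by
      have h1 : 2 * δ * Real.exp (lg x) * Real.exp (-lg x) ≤ |x i| * Real.exp (-lg x) :=
        mul_le_mul_of_nonneg_right hx (Real.exp_pos _).le
      rw [mul_assoc, hexp, mul_one] at h1
      calc (2 : ℝ) = δ⁻¹ * (2 * δ) := by field_simp
        _ ≤ δ⁻¹ * (|x i| * Real.exp (-lg x)) :=
            mul_le_mul_of_nonneg_left h1 (inv_pos.mpr hδ).le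
    have hc : χ i x = 0 := by
      rcases le_total 0 (x i) with h0 | h0
      · rw [abs_of_nonneg h0] at hy
        have : th (δ⁻¹ * (x i * Real.exp (-lg x))) = 0 := c1_th_zero hy
        simp only [χ, this, zero_mul]
      · rw [abs_of_nonpos h0] at hy
        have : th (-δ⁻¹ * (x i * Real.exp (-lg x))) = 0 := by
          apply c1_th_zero
          calc (2 : ℝ) ≤ δ⁻¹ * (-x i * Real.exp (-lg x)) := hy
            _ = -δ⁻¹ * (x i * Real.exp (-lg x)) := by ring
        simp only [χ, this, mul_zero]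
    have hp : ∏ i ∈ J, χ i x = 0 := Finset.prod_eq_zero hi hc
    simp only [F, hp, mul_zero]
  refine ⟨fun x => E x * F x, ⟨hE1.mul hF1, ?_⟩, fun x => mul_nonneg (hE0 x).le (hF2 x).1,
    ?_, ?_, ?_⟩
  · apply HasCompactSupport.of_support_subset_isCompact (isCompact_lg_le (2 * T + 1))
    intro x hx
    rw [Function.mem_support] at hx
    by_contra hcon
    have hcon' : 2 * T + 1 < lg x := not_le.1 hcon
    exact hx (by rw [hz2 x hcon'.le, mul_zero])
  · rintro x ⟨hx1, hx2, hx3⟩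
    have hFx : F x = 1 := by
      have h1 : th (T + 1 - lg x) = 1 := c1_th_one (by linarith)
      have h2 : th (lg x - (2 * T - 1)) = 1 := c1_th_one (by linarith)
      have h3 : ∏ i ∈ J, χ i x = 1 := by
        apply Finset.prod_eq_one
        intro i hi
        have hexp : Real.exp (lg x) * Real.exp (-lg x) = 1 := by
          rw [← Real.exp_add]
          simp
        have hy : δ⁻¹ * (|x i| * Real.exp (-lg x)) ≤ 1 := by
          have h1 : |x i| * Real.exp (-lg x) ≤ δ * Real.exp (lg x) * Real.exp (-lg x) :=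
            mul_le_mul_of_nonneg_right (hx3 i hi) (Real.exp_pos _).le
          rw [mul_assoc, hexp, mul_one] at h1
          calc δ⁻¹ * (|x i| * Real.exp (-lg x)) ≤ δ⁻¹ * δ :=
                mul_le_mul_of_nonneg_left h1 (inv_pos.mpr hδ).le
            _ = 1 := inv_mul_cancel₀ hδ.ne'
        have hs : ∀ t : ℝ, |t| ≤ |x i| → δ⁻¹ * (t * Real.exp (-lg x)) ≤ 1 := by
          intro t ht
          refine le_trans (mul_le_mul_of_nonneg_left (mul_le_mul_of_nonneg_right
            ((le_abs_self t).trans ht) (Real.exp_pos _).le) (inv_pos.mpr hδ).le) hy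
        have e1 : th (δ⁻¹ * (x i * Real.exp (-lg x))) = 1 := c1_th_one (hs (x i) le_rfl)
        have e2 : th (-δ⁻¹ * (x i * Real.exp (-lg x))) = 1 := by
          apply c1_th_one
          calc -δ⁻¹ * (x i * Real.exp (-lg x)) = δ⁻¹ * (-x i * Real.exp (-lg x)) := by ring
            _ ≤ 1 := hs (-x i) (by rw [abs_neg])
        simp only [χ, e1, e2, mul_one]
      simp only [F, h1, h2, h3, mul_one]
    change Real.exp (-d * lg x) ≤ E x * F x
    rw [hFx, mul_one]
  · intro x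
    refine (d4a_norm_mul hE1 hF1 x).trans ?_
    rw [abs_of_pos (hE0 x), abs_of_nonneg (hF2 x).1]
    have e0 : Real.exp (-(d + 1) * lg x) = E x * Real.exp (-lg x) := by
      simp only [E]
      rw [← Real.exp_add]
      congr 1
      ring
    have e1 : E x * ‖fderiv ℝ F x‖ ≤
        E x * ((C₀ * 1 + C₀ * 1 + J.card * (4 * C₀ / δ)) * Real.exp (-lg x)) :=
      mul_le_mul_of_nonneg_left (hF3 x) (hE0 x).le
    have e2 : F x * ‖fderiv ℝ E x‖ ≤ 1 * (d * E x * Real.exp (-lg x)) :=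
      mul_le_mul (hF2 x).2 (hE3 x) (norm_nonneg _) zero_le_one
    have e3 : C₀ * 1 + C₀ * 1 + J.card * (4 * C₀ / δ) + d ≤
        (d + 2 * C₀ + J.card * (4 * C₀)) / δ := by
      rw [le_div_iff₀ hδ]
      have e4 : (J.card : ℝ) * (4 * C₀ / δ) * δ = J.card * (4 * C₀) := by
        field_simp
      have e5 : (C₀ * 1 + C₀ * 1 + d) * δ ≤ (C₀ * 1 + C₀ * 1 + d) * 1 :=
        mul_le_mul_of_nonneg_left hδ1 (by positivity)
      nlinarith only [e4, e5]
    have e6 : (C₀ * 1 + C₀ * 1 + J.card * (4 * C₀ / δ) + d) * (E x * Real.exp (-lg x)) ≤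
        (d + 2 * C₀ + J.card * (4 * C₀)) / δ * (E x * Real.exp (-lg x)) :=
      mul_le_mul_of_nonneg_right e3 (mul_nonneg (hE0 x).le (Real.exp_pos _).le)
    rw [e0]
    nlinarith only [e1, e2, e6]
  · intro x hx
    have hev : (fun x => E x * F x) =ᶠ[𝓝 x] fun _ => (0 : ℝ) := by
      have hlc : Continuous (lg : V ι → ℝ) := hlg1.continuous
      by_cases h1 : lg x < T - 1
      · filter_upwards [(isOpen_lt hlc continuous_const).mem_nhds h1] with y hy
        rw [hz1 y (le_of_lt hy), mul_zero]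
      by_cases h2 : 2 * T + 1 < lg x
      · filter_upwards [(isOpen_lt continuous_const hlc).mem_nhds h2] with y hy
        rw [hz2 y (le_of_lt hy), mul_zero]
      by_cases h3 : ∃ i ∈ J, 2 * δ * Real.exp (lg x) < |x i|
      · obtain ⟨i, hi, h3⟩ := h3
        have hci : Continuous fun y : V ι => |y i| := by fun_prop
        have hce : Continuous fun y : V ι => 2 * δ * Real.exp (lg y) := by fun_prop
        filter_upwards [(isOpen_lt hce hci).mem_nhds h3] with y hy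
        rw [hz3 y i hi (le_of_lt hy), mul_zero]
      · exfalso
        apply hx
        rw [not_lt] at h1 h2
        have h3' : ∀ i ∈ J, |x i| ≤ 2 * δ * Real.exp (lg x) := by
          intro i hi
          by_contra hcon
          exact h3 ⟨i, hi, not_le.1 hcon⟩
        by_cases h4 : lg x ≤ T
        · exact Or.inl (Or.inl ⟨by linarith, by linarith, h3'⟩)
        · by_cases h5 : lg x ≤ 2 * T
          · exact Or.inl (Or.inr ⟨(not_le.1 h4).le, h5, h3'⟩)
          · exact Or.inr ⟨(not_le.1 h5).le, by linarith, h3'⟩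
    rw [hev.fderiv_eq]
    simp

end Pool.Agent.Helper68.DG
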