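import Pool.Agent.Helper68.DG.Base
import Pool.Agent.Helper68.DG.C2
import Pool.Agent.Helper68.DG.D4a

/-! Project DG (MP_800410_an), piece D4b: the energy in the shells -/

open MeasureTheory Metric Set Filter Topology
open scoped ContDiff

namespace Pool.Agent.Helper68.DG

variable {ι : Type} [Fintype ι]

private theorem d4b_union_le {f : V ι → ℝ} (hf : Continuous f) (h0 : ∀ x, 0 ≤ f x) {A B : Set (V ι)}
    (hA : IsCompact A) (hB : IsCompact B) :
    ∫ x in A ∪ B, f x ≤ (∫ x in A, f x) + ∫ x in B, f x := by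
  have iA : IntegrableOn f A := hf.continuousOn.integrableOn_compact hA
  have iB : IntegrableOn f B := hf.continuousOn.integrableOn_compact hB
  rw [← integral_add_measure iA iB]
  exact integral_mono_measure (Measure.restrict_union_le A B) (Eventually.of_forall h0)
    (Integrable.add_measure iA iB)

/-- Proof. Let `n = card ι`, `d = n - 1` and `ζ` from D4a. As `gd u u ≤ 2 en u` and `en u ≥ 0`,
`∫_(shell T δ J) gd u u exp (- d lg) ≤ 2 ∫ ζ en u ≤ 2 C₁ ∫ ‖fderiv ζ‖`
`≤ 2 C₁ (C / δ) ∑ ∫_(shell S (2 δ) J) exp (- n lg)`, the sum over `S = T / 2, T, 2 T`, and C2 applies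
(`C₁` the constant in `EE u`, which may be taken nonnegative). -/
theorem shell_energy {K : ℝ} {u : V ι → ℝ} (hu : GS K u) (hEE : EE u)
    (hn : 1 ≤ Fintype.card ι) : ∃ C : ℝ, 0 ≤ C ∧
    ∀ (T δ : ℝ) (J : Finset ι), 2 ≤ T → 0 < δ → δ ≤ 1 →
      δ * ∫ x in shell T δ J, gd u u x * Real.exp (-((Fintype.card ι : ℝ) - 1) * lg x) ≤
        C * δ ^ J.card * T := by
  classical
  obtain ⟨C₀, hC₀⟩ := hEE
  obtain ⟨Cv, hCv, hv⟩ := shell_vol (ι := ι)
  have hd : 0 ≤ (Fintype.card ι : ℝ) - 1 := by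
    have : (1 : ℝ) ≤ Fintype.card ι := by exact_mod_cast hn
    linarith
  choose CA hCA hA using fun J : Finset ι => exists_shell_cut ((Fintype.card ι : ℝ) - 1) hd J
  set C₁ := max C₀ 0 with hC₁
  have hC₁0 : 0 ≤ C₁ := le_max_right _ _
  set CS := ∑ J, CA J with hCS
  have hCS0 : 0 ≤ CS := Finset.sum_nonneg fun J _ => hCA J
  refine ⟨7 * C₁ * CS * Cv * 2 ^ Fintype.card ι, by positivity, ?_⟩
  intro T δ J hT hδ hδ1
  obtain ⟨ζ, hζ, hζ0, hζ1, hζ2, hζ3⟩ := hA J T δ hT hδ hδ1
  have huc : Continuous u := hu.smooth.continuous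
  have hgc : Continuous (gd u u) := continuous_gd hu.C1 hu.C1
  have hlc : Continuous (lg : V ι → ℝ) := (contDiff_lg (n := 0)).continuous
  have henc : Continuous (en u) := by
    unfold en
    exact (hgc.div_const 2).add (((continuous_const.sub (huc.pow 2)).pow 2).div_const 4)
  have hen0 : ∀ x, 0 ≤ en u x := fun x => by
    have := gd_self_nonneg u x
    unfold en
    positivity
  have hge : ∀ x, gd u u x ≤ 2 * en u x := fun x => by
    have : 0 ≤ (1 - u x ^ 2) ^ 2 / 4 := by positivity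
    unfold en
    linarith
  have iζ : Integrable (fun x => ζ x * en u x) := by
    have h := integrable_mul_T1 henc hζ
    refine h.congr (Eventually.of_forall fun x => mul_comm _ _)
  have iζ2 : Integrable (fun x => 2 * (ζ x * en u x)) := iζ.const_mul 2
  have hK := isCompact_shell (ι := ι) T δ J
  -- step 1
  have h1 : ∫ x in shell T δ J, gd u u x * Real.exp (-((Fintype.card ι : ℝ) - 1) * lg x) ≤
      ∫ x in shell T δ J, 2 * (ζ x * en u x) := by
    refine setIntegral_mono_on ?_ iζ2.integrableOn hK.isClosed.measurableSet fun x hx => ?_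
    · exact ((hgc.mul (Real.continuous_exp.comp (continuous_const.mul hlc))).continuousOn
        ).integrableOn_compact hK
    · calc gd u u x * Real.exp (-((Fintype.card ι : ℝ) - 1) * lg x)
          ≤ gd u u x * ζ x := mul_le_mul_of_nonneg_left (hζ1 x hx) (gd_self_nonneg u x)
        _ ≤ 2 * en u x * ζ x := mul_le_mul_of_nonneg_right (hge x) (hζ0 x)
        _ = 2 * (ζ x * en u x) := by ring
  have h2 : ∫ x in shell T δ J, 2 * (ζ x * en u x) ≤ ∫ x, 2 * (ζ x * en u x) :=
    setIntegral_le_integral iζ2 (Eventually.of_forall fun x =>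
      mul_nonneg two_pos.le (mul_nonneg (hζ0 x) (hen0 x)))
  have h3 : ∫ x, 2 * (ζ x * en u x) ≤ 2 * (C₁ * ∫ x, ‖fderiv ℝ ζ x‖) := by
    rw [integral_const_mul]
    refine mul_le_mul_of_nonneg_left ((hC₀ ζ hζ hζ0).trans ?_) two_pos.le
    exact mul_le_mul_of_nonneg_right (le_max_left _ _) (integral_nonneg fun x => norm_nonneg _)
  -- the union of the shells
  have hS1 := isCompact_shell (ι := ι) (T / 2) (2 * δ) J
  have hS2 := isCompact_shell (ι := ι) T (2 * δ) J
  have hS3 := isCompact_shell (ι := ι) (2 * T) (2 * δ) J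
  have hU := (hS1.union hS2).union hS3
  have hdc : Continuous fun x => ‖fderiv ℝ ζ x‖ := (hζ.1.continuous_fderiv one_ne_zero).norm
  have hec : Continuous fun x : V ι => Real.exp (-(Fintype.card ι : ℝ) * lg x) :=
    Real.continuous_exp.comp (continuous_const.mul hlc)
  have h4 : ∫ x, ‖fderiv ℝ ζ x‖ ≤
      ∫ x in shell (T / 2) (2 * δ) J ∪ shell T (2 * δ) J ∪ shell (2 * T) (2 * δ) J,
        CA J / δ * Real.exp (-(Fintype.card ι : ℝ) * lg x) := by
    rw [← setIntegral_eq_integral_of_forall_compl_eq_zero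
      (s := shell (T / 2) (2 * δ) J ∪ shell T (2 * δ) J ∪ shell (2 * T) (2 * δ) J)
      fun x hx => by rw [hζ3 x hx, norm_zero]]
    refine setIntegral_mono_on (hdc.continuousOn.integrableOn_compact hU)
      ((continuous_const.mul hec).continuousOn.integrableOn_compact hU)
      hU.isClosed.measurableSet fun x _ => ?_
    have h := hζ2 x
    have e : -((Fintype.card ι : ℝ) - 1 + 1) = -(Fintype.card ι : ℝ) := by ring
    rwa [e] at h
  rw [integral_const_mul] at h4
  have he0 : ∀ x : V ι, 0 ≤ Real.exp (-(Fintype.card ι : ℝ) * lg x) := fun x => (Real.exp_pos _).le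
  have h5 : ∫ x in shell (T / 2) (2 * δ) J ∪ shell T (2 * δ) J ∪ shell (2 * T) (2 * δ) J,
      Real.exp (-(Fintype.card ι : ℝ) * lg x) ≤ Cv * (2 * δ) ^ J.card * (7 / 2 * T) := by
    have a1 := d4b_union_le hec he0 (hS1.union hS2) hS3
    have a2 := d4b_union_le hec he0 hS1 hS2
    have b1 := hv (T / 2) (2 * δ) J (by linarith) (by linarith)
    have b2 := hv T (2 * δ) J (by linarith) (by linarith)
    have b3 := hv (2 * T) (2 * δ) J (by linarith) (by linarith)
    have e : Cv * (2 * δ) ^ J.card * (7 / 2 * T) = Cv * (2 * δ) ^ J.card * (T / 2) +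
        Cv * (2 * δ) ^ J.card * T + Cv * (2 * δ) ^ J.card * (2 * T) := by ring
    rw [e]
    linarith
  have hCJ : CA J ≤ CS := Finset.single_le_sum (fun J _ => hCA J) (Finset.mem_univ J)
  have h6 : ∫ x, ‖fderiv ℝ ζ x‖ ≤ CA J / δ * (Cv * (2 * δ) ^ J.card * (7 / 2 * T)) :=
    h4.trans (mul_le_mul_of_nonneg_left h5 (div_nonneg (hCA J) hδ.le))
  have h7 : δ * ∫ x in shell T δ J,
      gd u u x * Real.exp (-((Fintype.card ι : ℝ) - 1) * lg x) ≤
      δ * (2 * (C₁ * (CA J / δ * (Cv * (2 * δ) ^ J.card * (7 / 2 * T))))) := by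
    refine mul_le_mul_of_nonneg_left ?_ hδ.le
    refine ((h1.trans h2).trans h3).trans ?_
    exact mul_le_mul_of_nonneg_left (mul_le_mul_of_nonneg_left h6 hC₁0) two_pos.le
  refine h7.trans ?_
  have h8 : δ * (2 * (C₁ * (CA J / δ * (Cv * (2 * δ) ^ J.card * (7 / 2 * T))))) =
      7 * C₁ * CA J * Cv * 2 ^ J.card * δ ^ J.card * T := by
    rw [mul_pow]
    field_simp
  rw [h8]
  have h9 : (2 : ℝ) ^ J.card ≤ 2 ^ Fintype.card ι :=
    pow_le_pow_right₀ one_le_two (Finset.card_le_univ J)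
  have hT0 : 0 ≤ T := by linarith
  have h10 : 7 * C₁ * CA J * Cv * 2 ^ J.card ≤ 7 * C₁ * CS * Cv * 2 ^ Fintype.card ι := by
    refine mul_le_mul ?_ h9 (by positivity) (by positivity)
    refine mul_le_mul_of_nonneg_right ?_ hCv
    exact mul_le_mul_of_nonneg_left hCJ (by positivity)
  exact mul_le_mul_of_nonneg_right (mul_le_mul_of_nonneg_right h10 (by positivity)) hT0

end Pool.Agent.Helper68.DG
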