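import Pool.Agent.Helper68.DG.Base
import Pool.Agent.Helper68.DG.A4
import Pool.Agent.Helper68.DG.A5b
import Pool.Agent.Helper68.DG.A6b
import Pool.Agent.Helper68.DG.C3
import Pool.Agent.Helper68.DG.D2
import Pool.Agent.Helper68.DG.D3
import Pool.Agent.Helper68.DG.D4b
import Pool.Agent.Helper68.DG.G2

/-! Project DG (MP_800410_an), piece D5: De Giorgi in dimension at most three -/

open MeasureTheory Metric Set Filter Topology
open scoped ContDiff

namespace Pool.Agent.Helper68.DG

variable {ι : Type} [Fintype ι]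

/-- Proof. B4 with `ξ = cut T`, as in C3: `gd ξ ξ ≤ (C / T) ^ 2 exp (- 2 lg x)` on `shell T 1 ∅` and
`= 0` outside; `2 ≥ n - 1` for `n = card ι ≤ 3`, so
`∫ ‖fderiv u‖ ^ 2 gd ξ ξ ≤ (C / T) ^ 2 ∫_(shell T 1 ∅) gd u u exp (- (n - 1) lg) ≤ C' / T` by
`shell_energy` with `J = ∅`, `δ = 1` (for `n = 0` there is nothing to prove: all derivatives vanish). -/
theorem signed_dim3 {K : ℝ} {u : V ι → ℝ} (hu : GS K u) (hst : Stab u) (hEE : EE u)
    (hn : Fintype.card ι ≤ 3) : Signed u := by
  by_cases h0 : Fintype.card ι = 0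
  · intro b
    right; right
    intro x
    have : IsEmpty ι := Fintype.card_eq_zero_iff.1 h0
    rw [fderiv_apply_eq]
    simp
  have h1 : 1 ≤ Fintype.card ι := by omega
  obtain ⟨C, hC0, hC⟩ := cut_facts (ι := ι)
  obtain ⟨D, hD0, hD⟩ := shell_energy hu hEE h1
  apply signed_of_cutoffs hu hst
  intro R ε hε
  set T : ℝ := max (max 2 (Real.log (1 + R ^ 2) / 2)) (C ^ 2 * D / ε) with hT
  have hT2 : 2 ≤ T := (le_max_left _ _).trans (le_max_left _ _)
  have hT3 : Real.log (1 + R ^ 2) / 2 ≤ T := (le_max_right _ _).trans (le_max_left _ _)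
  have hT4 : C ^ 2 * D / ε ≤ T := le_max_right _ _
  have hTp : 0 < T := by linarith
  obtain ⟨c1, c2, c3, c4, c5, c6⟩ := hC T (by linarith)
  refine ⟨cut T, c1, ?_, ?_⟩
  · intro x hx
    apply c3
    refine le_trans ?_ hT3
    unfold lg
    have h2 : ‖x‖ ^ 2 ≤ R ^ 2 := pow_le_pow_left₀ (norm_nonneg x) hx 2
    have h3 : Real.log (1 + ‖x‖ ^ 2) ≤ Real.log (1 + R ^ 2) :=
      Real.log_le_log (by positivity) (by linarith)
    linarith
  · have hK : IsCompact (shell T 1 (∅ : Finset ι)) := isCompact_shell T 1 ∅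
    have e1 : ∫ x, ‖fderiv ℝ u x‖ ^ 2 * gd (cut T) (cut T) x =
        ∫ x in shell T 1 (∅ : Finset ι), ‖fderiv ℝ u x‖ ^ 2 * gd (cut T) (cut T) x := by
      symm
      apply setIntegral_eq_integral_of_forall_compl_eq_zero
      intro x hx
      rw [gd_self (cut T), c6 x hx]
      simp
    have cu : Continuous fun x => ‖fderiv ℝ u x‖ ^ 2 :=
      (hu.C1.continuous_fderiv one_ne_zero).norm.pow 2
    have cl : Continuous (lg : V ι → ℝ) := (contDiff_lg (n := 0)).continuous
    have cE : Continuous fun x : V ι => Real.exp (-((Fintype.card ι : ℝ) - 1) * lg x) :=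
      Real.continuous_exp.comp (continuous_const.mul cl)
    have e2 : ∫ x in shell T 1 (∅ : Finset ι), ‖fderiv ℝ u x‖ ^ 2 * gd (cut T) (cut T) x ≤
        ∫ x in shell T 1 (∅ : Finset ι), (C / T) ^ 2 *
          (gd u u x * Real.exp (-((Fintype.card ι : ℝ) - 1) * lg x)) := by
      apply setIntegral_mono_on
      · exact (cu.mul (continuous_gd c1.1 c1.1)).continuousOn.integrableOn_compact hK
      · exact (continuous_const.mul ((continuous_gd hu.C1 hu.C1).mul
          cE)).continuousOn.integrableOn_compact hK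
      · exact hK.measurableSet
      · intro x _
        rw [gd_self u, gd_self (cut T)]
        have h2 : ‖fderiv ℝ (cut T) x‖ ^ 2 ≤ (C / T * Real.exp (-lg x)) ^ 2 :=
          pow_le_pow_left₀ (norm_nonneg _) (c5 x) 2
        have h3 : Real.exp (-lg x) ^ 2 ≤ Real.exp (-((Fintype.card ι : ℝ) - 1) * lg x) := by
          rw [← Real.exp_nat_mul]
          apply Real.exp_le_exp.2
          have h4 := lg_nonneg x
          have h5 : (Fintype.card ι : ℝ) ≤ 3 := by exact_mod_cast hn
          push_cast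
          nlinarith
        have h4 : ‖fderiv ℝ (cut T) x‖ ^ 2 ≤
            (C / T) ^ 2 * Real.exp (-((Fintype.card ι : ℝ) - 1) * lg x) := by
          rw [mul_pow] at h2
          exact h2.trans (mul_le_mul_of_nonneg_left h3 (by positivity))
        calc ‖fderiv ℝ u x‖ ^ 2 * ‖fderiv ℝ (cut T) x‖ ^ 2
            ≤ ‖fderiv ℝ u x‖ ^ 2 *
              ((C / T) ^ 2 * Real.exp (-((Fintype.card ι : ℝ) - 1) * lg x)) :=
              mul_le_mul_of_nonneg_left h4 (by positivity)
          _ = _ := by ring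
    rw [e1]
    refine e2.trans ?_
    rw [integral_const_mul]
    have h2 := hD T 1 ∅ hT2 one_pos le_rfl
    rw [one_mul] at h2
    simp only [Finset.card_empty, pow_zero, mul_one] at h2
    have h3 : (C / T) ^ 2 * (∫ x in shell T 1 (∅ : Finset ι),
        gd u u x * Real.exp (-((Fintype.card ι : ℝ) - 1) * lg x)) ≤ (C / T) ^ 2 * (D * T) :=
      mul_le_mul_of_nonneg_left h2 (by positivity)
    refine h3.trans ?_
    have h4 : (C / T) ^ 2 * (D * T) = C ^ 2 * D / T := by
      field_simp
    rw [h4, div_le_iff₀ hTp]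
    rw [div_le_iff₀ hε] at hT4
    linarith

end Pool.Agent.Helper68.DG
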