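import Pool.Agent.Helper68.DG.Base

/-! Project DG (MP_800410_an), piece Defs2: skew symmetries of rank four -/

open MeasureTheory Metric Set Filter Topology
open scoped ContDiff

namespace Pool.Agent.Helper68.DG

variable {ι : Type} [Fintype ι]

/-- the coefficients `b₁, b₁, b₂, b₂` -/
def bb (b₁ b₂ : ℝ) : Fin 4 → ℝ := ![b₁, b₁, b₂, b₂]

/-- `u` is invariant under the flow of the skew matrix with the blocks `b₁ J`, `b₂ J` in the
coordinates `e 0, e 1, e 2, e 3`. -/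
def Kil (b₁ b₂ : ℝ) (e : Fin 4 ↪ ι) (u : V ι → ℝ) : Prop :=
  ∀ x : V ι, b₁ * (x (e 0) * pd (e 1) u x - x (e 1) * pd (e 0) u x) +
    b₂ * (x (e 2) * pd (e 3) u x - x (e 3) * pd (e 2) u x) = 0

/-- the partial gradient in the coordinates of `e`, squared -/
noncomputable def aa (e : Fin 4 ↪ ι) (u : V ι → ℝ) (x : V ι) : ℝ := ∑ k, pd (e k) u x ^ 2

/-- `|F|²` for `F = B ∇u` -/
noncomputable def ff (b₁ b₂ : ℝ) (e : Fin 4 ↪ ι) (u : V ι → ℝ) (x : V ι) : ℝ :=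
  ∑ k, bb b₁ b₂ k ^ 2 * pd (e k) u x ^ 2

/-- the square of the norm of the four coordinates -/
noncomputable def rr (e : Fin 4 ↪ ι) (x : V ι) : ℝ := ∑ k, x (e k) ^ 2

/-- `|B x|²` -/
noncomputable def bz (b₁ b₂ : ℝ) (e : Fin 4 ↪ ι) (x : V ι) : ℝ :=
  ∑ k, bb b₁ b₂ k ^ 2 * x (e k) ^ 2

/-- the extra term -/
noncomputable def Er (b₁ b₂ : ℝ) (e : Fin 4 ↪ ι) (u : V ι → ℝ) (x : V ι) : ℝ :=
  (∑ k, bb b₁ b₂ k ^ 4 * pd (e k) u x ^ 2 -
    (∑ k, bb b₁ b₂ k ^ 2 * pd (e k) u x * x (e k)) ^ 2 / rr e x) / bz b₁ b₂ e x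

/-- the radial derivative in the coordinates of `S`, times the radius -/
noncomputable def w0 (S : Finset ι) (u : V ι → ℝ) (x : V ι) : ℝ := ∑ i ∈ S, x i * pd i u x

end Pool.Agent.Helper68.DG
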