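import Pool.Agent.Helper68.DG.Base
import Pool.Agent.Helper68.DG.A3
import Pool.Agent.Helper68.DG.Defs2

/-! Project DG (MP_800410_an), piece DD: the dilation inequality -/

open MeasureTheory Metric Set Filter Topology
open scoped ContDiff

namespace Pool.Agent.Helper68.DG

variable {ι : Type} [Fintype ι]

/-- the derivative of a coordinate -/
theorem dd_pd_coord [DecidableEq ι] (i j : ι) (x : V ι) :
    pd j (fun y : V ι => y i) x = if i = j then 1 else 0 := by
  unfold pd
  have h : (fun y : V ι => y i) = fun y => (EuclideanSpace.proj i : V ι →L[ℝ] ℝ) y := by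
    funext y; simp
  rw [h, ContinuousLinearMap.fderiv]
  simp [be_apply]

theorem dd_coord (i : ι) {n : WithTop ℕ∞} : ContDiff ℝ n (fun y : V ι => y i) := by
  have h : (fun y : V ι => y i) = fun y => (EuclideanSpace.proj i : V ι →L[ℝ] ℝ) y := by
    funext y; simp
  rw [h]
  exact (EuclideanSpace.proj i : V ι →L[ℝ] ℝ).contDiff

theorem dd_pd_sum {κ : Type} (S : Finset κ) (f : κ → V ι → ℝ) {x : V ι}
    (h : ∀ k ∈ S, DifferentiableAt ℝ (f k) x) (j : ι) :
    pd j (fun y => ∑ k ∈ S, f k y) x = ∑ k ∈ S, pd j (f k) x := by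
  unfold pd
  rw [fderiv_fun_sum h]
  simp

theorem dd_w0 {u : V ι → ℝ} (hu : ContDiff ℝ 2 u) (S : Finset ι) : ContDiff ℝ 1 (w0 S u) := by
  unfold w0
  exact ContDiff.sum fun i _ => (dd_coord i).mul (contDiff_pd_one hu i)

theorem dd_gs {u : V ι → ℝ} (hu : ContDiff ℝ 2 u) (S : Finset ι) : ContDiff ℝ 1 (gs S u) := by
  unfold gs
  exact ContDiff.sum fun i _ => (contDiff_pd_one hu i).pow 2

theorem dd_pd_w0 [DecidableEq ι] {u : V ι → ℝ} (hu : ContDiff ℝ 2 u) (S : Finset ι) (j : ι)
    (x : V ι) : pd j (w0 S u) x =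
      ∑ i ∈ S, ((if i = j then 1 else 0) * pd i u x + x i * pd j (pd i u) x) := by
  have h1 : w0 S u = fun y => ∑ i ∈ S, (fun y : V ι => y i * pd i u y) y := rfl
  rw [h1, dd_pd_sum S (fun i y => y i * pd i u y) (fun i _ =>
    (((dd_coord i (n := 1)).mul (contDiff_pd_one hu i)).differentiable one_ne_zero) x)]
  refine Finset.sum_congr rfl fun i _ => ?_
  rw [pd_mul (((dd_coord i (n := 1)).differentiable one_ne_zero) x)
    (((contDiff_pd_one hu i).differentiable one_ne_zero) x), dd_pd_coord]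

theorem dd_pd_gs {u : V ι → ℝ} (hu : ContDiff ℝ 2 u) (S : Finset ι) (j : ι)
    (x : V ι) : pd j (gs S u) x = ∑ i ∈ S, 2 * pd i u x * pd j (pd i u) x := by
  have h1 : gs S u = fun y => ∑ i ∈ S, (fun y : V ι => pd i u y * pd i u y) y := by
    funext y
    unfold gs
    refine Finset.sum_congr rfl fun i _ => ?_
    ring
  have hd : ∀ i, DifferentiableAt ℝ (pd i u) x := fun i =>
    ((contDiff_pd_one hu i).differentiable one_ne_zero) x
  rw [h1, dd_pd_sum S (fun i y => pd i u y * pd i u y) (fun i _ => (hd i).mul (hd i))]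
  refine Finset.sum_congr rfl fun i _ => ?_
  rw [pd_mul (hd i) (hd i)]
  ring

/-- `gd w φ` -/
theorem dd_gd_w0 {u φ : V ι → ℝ} (hu : ContDiff ℝ 2 u) (S : Finset ι) (x : V ι) :
    gd (w0 S u) φ x = ∑ i ∈ S, (pd i u x * pd i φ x + x i * gd (pd i u) φ x) := by
  classical
  unfold gd
  simp only [dd_pd_w0 hu]
  simp only [Finset.sum_mul]
  rw [Finset.sum_comm]
  refine Finset.sum_congr rfl fun i _ => ?_
  rw [Finset.mul_sum]
  have h1 : ∀ j, ((if i = j then (1:ℝ) else 0) * pd i u x + x i * pd j (pd i u) x) * pd j φ x =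
      (if i = j then pd i u x * pd j φ x else 0) + x i * (pd j (pd i u) x * pd j φ x) := by
    intro j
    split_ifs <;> ring
  simp only [h1]
  rw [Finset.sum_add_distrib, Finset.sum_ite_eq]
  simp

/-- `gd a (x i φ)` -/
theorem dd_gd_mul {a φ : V ι → ℝ} (hφ : ContDiff ℝ 1 φ) (i : ι) (x : V ι) :
    gd a (fun y => y i * φ y) x = pd i a x * φ x + x i * gd a φ x := by
  classical
  unfold gd
  have h1 : ∀ j, pd j (fun y => y i * φ y) x = (if i = j then 1 else 0) * φ x + x i * pd j φ x := by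
    intro j
    rw [pd_mul (((dd_coord i (n := 1)).differentiable one_ne_zero) x)
      ((hφ.differentiable one_ne_zero) x), dd_pd_coord]
  simp only [h1]
  rw [Finset.mul_sum]
  have h2 : ∀ j, pd j a x * ((if i = j then (1:ℝ) else 0) * φ x + x i * pd j φ x) =
      (if i = j then pd j a x * φ x else 0) + x i * (pd j a x * pd j φ x) := by
    intro j
    split_ifs <;> ring
  simp only [h2]
  rw [Finset.sum_add_distrib, Finset.sum_ite_eq]
  simp

theorem dd_sq {η : V ι → ℝ} (hη : T1 η) : T1 (fun y => η y ^ 2) :=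
  ⟨hη.1.pow 2, hη.2.comp_left (g := fun t : ℝ => t ^ 2) (by norm_num)⟩

/-- the derivative of the square -/
theorem dd_pd_sq {η : V ι → ℝ} (hη : ContDiff ℝ 1 η) (i : ι) (x : V ι) :
    pd i (fun y => η y ^ 2) x = 2 * η x * pd i η x := by
  have h1 : (fun y => η y ^ 2) = fun y => η y * η y := by funext y; ring
  have hd := (hη.differentiable one_ne_zero) x
  rw [h1, pd_mul hd hd]
  ring

/-- `gd (w η) (w η)` -/
theorem dd_gd_prod {w η : V ι → ℝ} (hw : ContDiff ℝ 1 w) (hη : ContDiff ℝ 1 η) (x : V ι) :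
    gd (fun y => w y * η y) (fun y => w y * η y) x =
      w x ^ 2 * gd η η x + gd w (fun y => w y * η y ^ 2) x := by
  have hwd := (hw.differentiable one_ne_zero) x
  have hηd := (hη.differentiable one_ne_zero) x
  have hη2 : DifferentiableAt ℝ (fun y => η y ^ 2) x := ((hη.pow 2).differentiable one_ne_zero) x
  unfold gd
  rw [Finset.mul_sum, ← Finset.sum_add_distrib]
  refine Finset.sum_congr rfl fun i _ => ?_
  rw [pd_mul hwd hηd, pd_mul hwd hη2, dd_pd_sq hη]
  ring

/-- `∑ a i ∂ i (w η ^ 2)` -/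
theorem dd_sum {u η : V ι → ℝ} (hu : ContDiff ℝ 2 u) (hη : ContDiff ℝ 1 η) (S : Finset ι)
    (x : V ι) :
    ∑ i ∈ S, pd i u x * pd i (fun y => w0 S u y * η y ^ 2) x =
      gs S u x * η x ^ 2 + 1 / 2 * ∑ j ∈ S, pd j (gs S u) x * (x j * η x ^ 2) +
      w0 S u x * ∑ i ∈ S, pd i u x * pd i (fun y => η y ^ 2) x := by
  classical
  have hwd := ((dd_w0 hu S).differentiable one_ne_zero) x
  have hη2 : DifferentiableAt ℝ (fun y => η y ^ 2) x := ((hη.pow 2).differentiable one_ne_zero) x
  have h1 : ∀ i, pd i u x * pd i (fun y => w0 S u y * η y ^ 2) x =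
      (pd i u x * pd i (w0 S u) x) * η x ^ 2 +
        w0 S u x * (pd i u x * pd i (fun y => η y ^ 2) x) := by
    intro i
    rw [pd_mul hwd hη2]
    ring
  simp only [h1]
  rw [Finset.sum_add_distrib, ← Finset.sum_mul, ← Finset.mul_sum]
  have h2 : ∑ i ∈ S, pd i u x * pd i (w0 S u) x =
      gs S u x + 1 / 2 * ∑ j ∈ S, pd j (gs S u) x * x j := by
    simp only [dd_pd_w0 hu, dd_pd_gs hu]
    have h3 : ∀ i ∈ S, pd i u x * ∑ k ∈ S, ((if k = i then 1 else 0) * pd k u x +
        x k * pd i (pd k u) x) = pd i u x ^ 2 + ∑ k ∈ S, x k * (pd i u x * pd k (pd i u) x) := by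
      intro i hi
      rw [Finset.sum_add_distrib, mul_add, Finset.mul_sum]
      congr 1
      · rw [← Finset.mul_sum]
        have : ∑ k ∈ S, (if k = i then (1:ℝ) else 0) * pd k u x = pd i u x := by
          simp [hi]
        rw [this]; ring
      · rw [Finset.mul_sum]
        refine Finset.sum_congr rfl fun k _ => ?_
        rw [pd_comm hu i k]
        ring
    rw [Finset.sum_congr rfl h3, Finset.sum_add_distrib]
    congr 1
    rw [Finset.mul_sum, Finset.sum_comm]
    refine Finset.sum_congr rfl fun k _ => ?_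
    rw [Finset.sum_mul, Finset.mul_sum]
    refine Finset.sum_congr rfl fun i _ => ?_
    ring
  rw [h2]
  have h4 : ∑ j ∈ S, pd j (gs S u) x * (x j * η x ^ 2) =
      (∑ j ∈ S, pd j (gs S u) x * x j) * η x ^ 2 := by
    rw [Finset.sum_mul]
    refine Finset.sum_congr rfl fun j _ => ?_
    ring
  rw [h4]
  ring

/-- Proof. Write `a i = pd i u` and `w = w0 S u = ∑ i ∈ S, x i * a i`, a `C¹` function. For `i ∈ S` the
linearised equation for `a i` (`hu.lin (be i)`) with the test function `x i * w * η ^ 2` says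
`∫ (x i * gd (a i) (w η ^ 2) + pd i (a i) * w * η ^ 2) = ∫ cc u * a i * x i * w * η ^ 2`. Summing over
`i ∈ S`, with `gd w φ = ∑ i ∈ S, (x i * gd (a i) φ + a i * pd i φ)`:
`∫ gd w (w η ^ 2) - ∫ cc u w ^ 2 η ^ 2 = ∫ ∑ i ∈ S, a i * pd i (w η ^ 2) - ∫ ∑ i ∈ S, pd i (a i) * w * η ^ 2`
`= 2 ∫ ∑ i ∈ S, a i * pd i (w η ^ 2)` (integration by parts). Since
`gd (w η) (w η) = w ^ 2 gd η η + gd w (w η ^ 2)`, stability for `w * η` says
`0 ≤ ∫ w ^ 2 gd η η + 2 ∫ ∑ i ∈ S, a i * pd i (w η ^ 2)`. Now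
`∑ i ∈ S, a i * pd i w = gs S u + ∑ i, j ∈ S, x j * a i * pd i (a j)`
`= gs S u + (1 / 2) ∑ j ∈ S, x j * pd j (gs S u)` (`pd i (a j) = pd j (a i)`), and integration by parts
(`∑ j ∈ S, pd j (x j η ^ 2) = |S| η ^ 2 + ∑ j ∈ S, x j * pd j (η ^ 2)`) gives the formula. -/
theorem dil_ineq {K : ℝ} {u η : V ι → ℝ} (hu : GS K u) (hst : Stab u) (S : Finset ι)
    (hη : T1 η) :
    0 ≤ ∫ x, (w0 S u x ^ 2 * gd η η x + (2 - (S.card : ℝ)) * gs S u x * η x ^ 2 -
      gs S u x * (∑ i ∈ S, x i * pd i (fun y => η y ^ 2) x) +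
      2 * w0 S u x * ∑ i ∈ S, pd i u x * pd i (fun y => η y ^ 2) x) := by
  classical
  have hu2 := hu.smooth
  have hw := dd_w0 hu2 S
  have hgs := dd_gs hu2 S
  have hη2 := dd_sq hη
  have hφ : T1 (fun y => w0 S u y * η y ^ 2) := T1.mul hw hη2
  have hwη : T1 (fun y => w0 S u y * η y) := T1.mul hw hη
  have hcc : Continuous (cc u) := continuous_cc hu.C1.continuous
  have ha : ∀ i, ContDiff ℝ 1 (pd i u) := fun i => contDiff_pd_one hu2 i
  have hxφ : ∀ i, T1 (fun y : V ι => y i * (w0 S u y * η y ^ 2)) := fun i =>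
    T1.mul (dd_coord i) hφ
  have hxη : ∀ i, T1 (fun y : V ι => y i * η y ^ 2) := fun i => T1.mul (dd_coord i) hη2
  -- integrability
  have I1 : ∀ i, Integrable (fun x => pd i u x * pd i (fun y => w0 S u y * η y ^ 2) x) := fun i =>
    integrable_cs ((ha i).continuous.mul (continuous_pd hφ.1 i))
      (hasCompactSupport_pd hφ.2 i).mul_left
  have I2 : ∀ i, Integrable (fun x => pd i (pd i u) x * (w0 S u x * η x ^ 2)) := fun i =>
    integrable_mul_T1 (continuous_pd (ha i) i) hφ
  have I3 : ∀ i, Integrable (gd (pd i u) (fun y => y i * (w0 S u y * η y ^ 2))) := fun i =>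
    integrable_gd (ha i) (hxφ i)
  have I4 : ∀ i, Integrable (fun x => cc u x * pd i u x * (x i * (w0 S u x * η x ^ 2))) := fun i =>
    integrable_mul_T1 (hcc.mul (ha i).continuous) (hxφ i)
  have I5 : Integrable (fun x => w0 S u x ^ 2 * gd η η x) :=
    integrable_cs ((hw.continuous.pow 2).mul (continuous_gd hη.1 hη.1))
      (hasCompactSupport_gd hη.2).mul_left
  have I6 : Integrable (gd (w0 S u) (fun y => w0 S u y * η y ^ 2)) := integrable_gd hw hφ
  have I7 : Integrable (fun x => gs S u x * η x ^ 2) := integrable_mul_T1 hgs.continuous hη2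
  have I8 : ∀ j, Integrable (fun x => pd j (gs S u) x * (x j * η x ^ 2)) := fun j =>
    integrable_mul_T1 (continuous_pd hgs j) (hxη j)
  have I9 : ∀ i, Integrable (fun x => w0 S u x * (pd i u x * pd i (fun y => η y ^ 2) x)) :=
    fun i => integrable_cs (hw.continuous.mul ((ha i).continuous.mul (continuous_pd hη2.1 i)))
      ((hasCompactSupport_pd hη2.2 i).mul_left.mul_left)
  have I10 : ∀ j, Integrable (fun x => gs S u x * pd j (fun y => y j * η y ^ 2) x) := fun j =>
    integrable_cs (hgs.continuous.mul (continuous_pd (hxη j).1 j))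
      (hasCompactSupport_pd (hxη j).2 j).mul_left
  -- step 1: the linearised equations
  have s1 : ∀ i, ∫ x, gd (pd i u) (fun y => y i * (w0 S u y * η y ^ 2)) x =
      ∫ x, cc u x * pd i u x * (x i * (w0 S u x * η x ^ 2)) := fun i => (hu.lin (be i)).2 _ (hxφ i)
  have s2 : ∀ i, ∫ x, pd i u x * pd i (fun y => w0 S u y * η y ^ 2) x =
      - ∫ x, pd i (pd i u) x * (w0 S u x * η x ^ 2) := fun i => ibp (ha i) hφ i
  have s3 : ∫ x, gd (w0 S u) (fun y => w0 S u y * η y ^ 2) x =
      2 * (∑ i ∈ S, ∫ x, pd i u x * pd i (fun y => w0 S u y * η y ^ 2) x) +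
      ∫ x, cc u x * (w0 S u x * η x) ^ 2 := by
    have e1 : ∀ x, gd (w0 S u) (fun y => w0 S u y * η y ^ 2) x =
        ∑ i ∈ S, ((pd i u x * pd i (fun y => w0 S u y * η y ^ 2) x +
          gd (pd i u) (fun y => y i * (w0 S u y * η y ^ 2)) x) -
          pd i (pd i u) x * (w0 S u x * η x ^ 2)) := by
      intro x
      rw [dd_gd_w0 hu2]
      refine Finset.sum_congr rfl fun i _ => ?_
      rw [dd_gd_mul hφ.1]
      ring
    have e2 : ∀ x, cc u x * (w0 S u x * η x) ^ 2 =
        ∑ i ∈ S, cc u x * pd i u x * (x i * (w0 S u x * η x ^ 2)) := by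
      intro x
      have hw' : w0 S u x = ∑ i ∈ S, x i * pd i u x := rfl
      obtain ⟨W, hW⟩ : ∃ W, W = w0 S u x := ⟨_, rfl⟩
      rw [← hW]
      have : cc u x * (W * η x) ^ 2 = (∑ i ∈ S, x i * pd i u x) * (cc u x * (W * η x ^ 2)) := by
        rw [← hw', ← hW]; ring
      rw [this, Finset.sum_mul]
      refine Finset.sum_congr rfl fun i _ => ?_
      ring
    have J1 : ∀ i, Integrable (fun x => (pd i u x * pd i (fun y => w0 S u y * η y ^ 2) x +
          gd (pd i u) (fun y => y i * (w0 S u y * η y ^ 2)) x) -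
          pd i (pd i u) x * (w0 S u x * η x ^ 2)) := fun i => ((I1 i).add (I3 i)).sub (I2 i)
    simp only [e1, e2]
    rw [integral_finsetSum S (fun i _ => J1 i),
      integral_finsetSum S (fun i _ => I4 i), Finset.mul_sum, ← Finset.sum_add_distrib]
    refine Finset.sum_congr rfl fun i _ => ?_
    have e3 : ∫ x, ((pd i u x * pd i (fun y => w0 S u y * η y ^ 2) x +
          gd (pd i u) (fun y => y i * (w0 S u y * η y ^ 2)) x) -
          pd i (pd i u) x * (w0 S u x * η x ^ 2)) =
        (∫ x, pd i u x * pd i (fun y => w0 S u y * η y ^ 2) x) +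
          (∫ x, gd (pd i u) (fun y => y i * (w0 S u y * η y ^ 2)) x) -
          ∫ x, pd i (pd i u) x * (w0 S u x * η x ^ 2) := by
      have h1 := integral_sub ((I1 i).add (I3 i)) (I2 i)
      have h2 := integral_add (I1 i) (I3 i)
      simp only [Pi.add_apply] at h1
      rw [h1, h2]
    rw [e3, s1 i]
    have := s2 i
    linarith
  -- step 2: stability
  have s4 := hst _ hwη
  have s5 : ∫ x, gd (fun y => w0 S u y * η y) (fun y => w0 S u y * η y) x =
      (∫ x, w0 S u x ^ 2 * gd η η x) + ∫ x, gd (w0 S u) (fun y => w0 S u y * η y ^ 2) x := by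
    rw [← integral_add I5 I6]
    refine integral_congr_ae (Filter.Eventually.of_forall fun x => ?_)
    exact dd_gd_prod hw hη.1 x
  -- step 3: the sum
  have s6 : 2 * (∑ i ∈ S, ∫ x, pd i u x * pd i (fun y => w0 S u y * η y ^ 2) x) =
      2 * (∫ x, gs S u x * η x ^ 2) + (∑ j ∈ S, ∫ x, pd j (gs S u) x * (x j * η x ^ 2)) +
      2 * ∑ i ∈ S, ∫ x, w0 S u x * (pd i u x * pd i (fun y => η y ^ 2) x) := by
    rw [← integral_finsetSum S (fun i _ => I1 i)]
    simp only [dd_sum hu2 hη.1 S]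
    have J8 : Integrable (fun x => 1 / 2 * ∑ j ∈ S, pd j (gs S u) x * (x j * η x ^ 2)) :=
      (integrable_finsetSum S (fun j _ => I8 j)).const_mul _
    have J9 : Integrable (fun x => w0 S u x * ∑ i ∈ S, pd i u x * pd i (fun y => η y ^ 2) x) := by
      have := integrable_finsetSum S (fun i _ => I9 i)
      refine this.congr (Filter.Eventually.of_forall fun x => ?_)
      simp only
      rw [Finset.mul_sum]
    have h1 := integral_add (I7.add J8) J9
    have h2 := integral_add I7 J8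
    simp only [Pi.add_apply] at h1
    rw [h1, h2, integral_const_mul, integral_finsetSum S (fun j _ => I8 j)]
    have h3 : ∫ x, w0 S u x * ∑ i ∈ S, pd i u x * pd i (fun y => η y ^ 2) x =
        ∑ i ∈ S, ∫ x, w0 S u x * (pd i u x * pd i (fun y => η y ^ 2) x) := by
      rw [← integral_finsetSum S (fun i _ => I9 i)]
      refine integral_congr_ae (Filter.Eventually.of_forall fun x => ?_)
      simp only
      rw [Finset.mul_sum]
    rw [h3]
    ring
  have s7 : ∀ j, ∫ x, gs S u x * pd j (fun y => y j * η y ^ 2) x =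
      - ∫ x, pd j (gs S u) x * (x j * η x ^ 2) := fun j => ibp hgs (hxη j) j
  -- step 4: the integral of the statement
  have s8 : ∫ x, (w0 S u x ^ 2 * gd η η x + (2 - (S.card : ℝ)) * gs S u x * η x ^ 2 -
      gs S u x * (∑ i ∈ S, x i * pd i (fun y => η y ^ 2) x) +
      2 * w0 S u x * ∑ i ∈ S, pd i u x * pd i (fun y => η y ^ 2) x) =
      (∫ x, w0 S u x ^ 2 * gd η η x) + 2 * (∫ x, gs S u x * η x ^ 2) -
      (∑ j ∈ S, ∫ x, gs S u x * pd j (fun y => y j * η y ^ 2) x) +
      2 * ∑ i ∈ S, ∫ x, w0 S u x * (pd i u x * pd i (fun y => η y ^ 2) x) := by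
    rw [← integral_finsetSum S (fun i _ => I10 i), ← integral_finsetSum S (fun i _ => I9 i),
      ← integral_const_mul, ← integral_const_mul]
    have J7 : Integrable (fun x => 2 * (gs S u x * η x ^ 2)) := I7.const_mul _
    have J10 : Integrable (fun x => ∑ i ∈ S, gs S u x * pd i (fun y => y i * η y ^ 2) x) :=
      integrable_finsetSum S (fun j _ => I10 j)
    have J9 : Integrable (fun x => 2 * ∑ i ∈ S, w0 S u x *
        (pd i u x * pd i (fun y => η y ^ 2) x)) :=
      (integrable_finsetSum S (fun j _ => I9 j)).const_mul _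
    have h1 := integral_add ((I5.add J7).sub J10) J9
    have h2 := integral_sub (I5.add J7) J10
    have h3 := integral_add I5 J7
    simp only [Pi.add_apply, Pi.sub_apply] at h1 h2
    rw [← h3, ← h2, ← h1]
    refine integral_congr_ae (Filter.Eventually.of_forall fun x => ?_)
    simp only
    have e4 : ∀ j, pd j (fun y : V ι => y j * η y ^ 2) x =
        η x ^ 2 + x j * pd j (fun y => η y ^ 2) x := by
      intro j
      rw [pd_mul (((dd_coord j (n := 1)).differentiable one_ne_zero) x)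
        (((hη.1.pow 2).differentiable one_ne_zero) x), dd_pd_coord]
      simp
    simp only [e4]
    have e5 : ∑ i ∈ S, gs S u x * (η x ^ 2 + x i * pd i (fun y => η y ^ 2) x) =
        (S.card : ℝ) * gs S u x * η x ^ 2 +
          gs S u x * ∑ i ∈ S, x i * pd i (fun y => η y ^ 2) x := by
      rw [← Finset.mul_sum, Finset.sum_add_distrib, Finset.sum_const, nsmul_eq_mul]
      ring
    rw [e5, ← Finset.mul_sum]
    ring
  rw [s8]
  have s9 : ∑ j ∈ S, ∫ x, gs S u x * pd j (fun y => y j * η y ^ 2) x =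
      - ∑ j ∈ S, ∫ x, pd j (gs S u) x * (x j * η x ^ 2) := by
    rw [← Finset.sum_neg_distrib]
    exact Finset.sum_congr rfl fun j _ => s7 j
  rw [s9]
  rw [s5, s3] at s4
  linarith

end Pool.Agent.Helper68.DG
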