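import Mathlib

/-!
Project DG (MP_800410_an, De Giorgi's conjecture): definitions.

`V ι` is Euclidean space with coordinates indexed by the finite type `ι`.
-/

open MeasureTheory Metric Set Filter Topology
open scoped ContDiff

namespace Pool.Agent.Helper68.DG

/-- Euclidean space with coordinates indexed by `ι`. -/
abbrev V (ι : Type) [Fintype ι] : Type := EuclideanSpace ℝ ι

variable {ι : Type} [Fintype ι]

/-- the basis vectors -/
noncomputable def be (i : ι) : V ι := EuclideanSpace.basisFun ι ℝ i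

/-- partial derivatives -/
noncomputable def pd (i : ι) (u : V ι → ℝ) (x : V ι) : ℝ := fderiv ℝ u x (be i)

/-- the Laplacian -/
noncomputable def lap (u : V ι → ℝ) (x : V ι) : ℝ := ∑ i, pd i (pd i u) x

/-- the inner product of the gradients -/
noncomputable def gd (u w : V ι → ℝ) (x : V ι) : ℝ := ∑ i, pd i u x * pd i w x

/-- test functions: `C¹` with compact support -/
def T1 (φ : V ι → ℝ) : Prop := ContDiff ℝ 1 φ ∧ HasCompactSupport φ

/-- Bounded solutions of `Δu + u - u³ = 0` with bounds `K` for the first derivatives and the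
Lipschitz constants of the first and second derivatives. -/
structure GS (K : ℝ) (u : V ι → ℝ) : Prop where
  smooth : ContDiff ℝ 2 u
  eqn : ∀ x, lap u x + u x - u x ^ 3 = 0
  bdd : ∀ x, |u x| ≤ K
  bdd1 : ∀ x, ‖fderiv ℝ u x‖ ≤ K
  lip1 : ∀ x y, ‖fderiv ℝ u x - fderiv ℝ u y‖ ≤ K * ‖x - y‖
  lip2 : ∀ x y, ‖fderiv ℝ (fderiv ℝ u) x - fderiv ℝ (fderiv ℝ u) y‖ ≤ K * ‖x - y‖

/-- the coefficient of the linearised equation -/
def cc (u : V ι → ℝ) (x : V ι) : ℝ := 1 - 3 * u x ^ 2

/-- stability -/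
def Stab (u : V ι → ℝ) : Prop :=
  ∀ ζ : V ι → ℝ, T1 ζ → ∫ x, cc u x * ζ x ^ 2 ≤ ∫ x, gd ζ ζ x

/-- `w` is a (weak) solution of the linearised equation at `u` -/
def Lin (u w : V ι → ℝ) : Prop :=
  ContDiff ℝ 1 w ∧ ∀ ψ : V ι → ℝ, T1 ψ → ∫ x, gd w ψ x = ∫ x, cc u x * w x * ψ x

/-- every directional derivative is positive, or negative, or zero everywhere -/
def Signed (u : V ι → ℝ) : Prop :=
  ∀ b : V ι, (∀ x, 0 < fderiv ℝ u x b) ∨ (∀ x, fderiv ℝ u x b < 0) ∨ ∀ x, fderiv ℝ u x b = 0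

/-- `v` is one of the constants `1`, `-1` or depends on one variable only, strictly
monotonically. -/
def AM (v : V ι → ℝ) : Prop :=
  ∃ a : V ι, (∀ b : V ι, inner ℝ a b = 0 → ∀ x, fderiv ℝ v x b = 0) ∧
    ((∀ x, 0 < fderiv ℝ v x a) ∨ (∀ x, v x = 1) ∨ ∀ x, v x = -1)

/-- the energy density -/
noncomputable def en (u : V ι → ℝ) (x : V ι) : ℝ := gd u u x / 2 + (1 - u x ^ 2) ^ 2 / 4

/-- the energy estimate -/
def EE (u : V ι → ℝ) : Prop :=
  ∃ C : ℝ, ∀ ζ : V ι → ℝ, T1 ζ → (∀ x, 0 ≤ ζ x) →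
    ∫ x, ζ x * en u x ≤ C * ∫ x, ‖fderiv ℝ ζ x‖

/-- `log √(1 + |x|²)` -/
noncomputable def lg (x : V ι) : ℝ := Real.log (1 + ‖x‖ ^ 2) / 2

/-- the shell `T ≤ lg x ≤ 2 T`, with `|x i| ≤ δ √(1 + |x|²)` for `i ∈ J` -/
def shell (T δ : ℝ) (J : Finset ι) : Set (V ι) :=
  {x | T ≤ lg x ∧ lg x ≤ 2 * T ∧ ∀ i ∈ J, |x i| ≤ δ * Real.exp (lg x)}

/-- invariance under the rotations in the coordinates of `S` -/
def RotInv (S : Finset ι) (u : V ι → ℝ) : Prop :=
  ∀ i ∈ S, ∀ j ∈ S, ∀ x : V ι, x i * pd j u x = x j * pd i u x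

/-- the square of the distance to the axis -/
def sq (S : Finset ι) (x : V ι) : ℝ := ∑ i ∈ S, x i ^ 2

/-- the square of the partial gradient -/
noncomputable def gs (S : Finset ι) (u : V ι → ℝ) (x : V ι) : ℝ := ∑ i ∈ S, pd i u x ^ 2

/-- the coordinate subspace of `p`, embedded -/
noncomputable def emb (p : ι → Prop) [DecidablePred p] : V {i // p i} →L[ℝ] V ι :=
  LinearMap.toContinuousLinearMap
    { toFun := fun y => WithLp.toLp 2 fun i => if h : p i then y ⟨i, h⟩ else 0
      map_add' := by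
        intro y z
        ext i
        by_cases h : p i <;> simp [h]
      map_smul' := by
        intro c y
        ext i
        by_cases h : p i <;> simp [h] }

/-- the projection to the coordinate subspace of `p` -/
noncomputable def prj (p : ι → Prop) [DecidablePred p] : V ι →L[ℝ] V {i // p i} :=
  LinearMap.toContinuousLinearMap
    { toFun := fun x => WithLp.toLp 2 fun i => x i.1
      map_add' := by
        intro y z
        ext i
        simp
      map_smul' := by
        intro c y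
        ext i
        simp }

end Pool.Agent.Helper68.DG
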