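import Pool.Agent.Helper68.DG.Base
import Pool.Agent.Helper68.DG.Defs2

/-! Project DG (MP_800410_an), piece Defs3: solutions with two rotational symmetries -/

open MeasureTheory Metric Set Filter Topology
open scoped ContDiff

namespace Pool.Agent.Helper68.DG

variable {ι : Type} [Fintype ι]

/-- the square of the norm of the vector of the mixed rotations of `u` -/
noncomputable def cr (S₁ S₂ : Finset ι) (u : V ι → ℝ) (x : V ι) : ℝ :=
  ∑ i ∈ S₁, ∑ j ∈ S₂, (x i * pd j u x - x j * pd i u x) ^ 2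

/-- the integrand of the dilation inequality for
`η = √(sq S₁ + 1 / 800) * exp (- 7 / 2 * lg)` and `|S₁| + |S₂| = 5` -/
noncomputable def D1 (S₁ S₂ : Finset ι) (u : V ι → ℝ) (x : V ι) : ℝ :=
  ((w0 S₁ u x + w0 S₂ u x) ^ 2 * (sq S₁ x / (sq S₁ x + 1 / 800) -
        7 * sq S₁ x / Real.exp (lg x) ^ 2 +
        49 / 4 * (sq S₁ x + 1 / 800) * ‖x‖ ^ 2 / Real.exp (lg x) ^ 4) -
      3 * (gs S₁ u x + gs S₂ u x) * (sq S₁ x + 1 / 800) -
      (gs S₁ u x + gs S₂ u x) * (2 * sq S₁ x -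
        7 * (sq S₁ x + 1 / 800) * (sq S₁ x + sq S₂ x) / Real.exp (lg x) ^ 2) +
      2 * (w0 S₁ u x + w0 S₂ u x) * (2 * w0 S₁ u x -
        7 * (sq S₁ x + 1 / 800) * (w0 S₁ u x + w0 S₂ u x) / Real.exp (lg x) ^ 2)) *
    Real.exp (-7 * lg x)

end Pool.Agent.Helper68.DG
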