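import Pool.Agent.Helper68.DG.Base
import Pool.Agent.Helper68.DG.A3

/-! Project DG (MP_800410_an), piece F1: the rotation inequality away from the axis -/

open MeasureTheory Metric Set Filter Topology
open scoped ContDiff

namespace Pool.Agent.Helper68.DG

variable {ι : Type} [Fintype ι]

theorem f1_coord {n : WithTop ℕ∞} (i : ι) : ContDiff ℝ n (fun x : V ι => x i) :=
  (EuclideanSpace.proj (𝕜 := ℝ) i).contDiff

theorem f1_pd_coord [DecidableEq ι] (l i : ι) (x : V ι) :
    pd l (fun y : V ι => y i) x = if i = l then 1 else 0 := by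
  have h : (fun y : V ι => y i) = (EuclideanSpace.proj (𝕜 := ℝ) i : V ι →L[ℝ] ℝ) := rfl
  unfold pd
  rw [h, ContinuousLinearMap.fderiv]
  exact be_apply l i

theorem f1_pd_sum {S : Finset ι} {f : ι → V ι → ℝ} {x : V ι}
    (hf : ∀ i ∈ S, DifferentiableAt ℝ (f i) x) (l : ι) :
    pd l (fun y => ∑ i ∈ S, f i y) x = ∑ i ∈ S, pd l (f i) x := by
  unfold pd
  rw [fderiv_fun_sum hf]
  simp

theorem f1_contDiff_sq {n : WithTop ℕ∞} (S : Finset ι) : ContDiff ℝ n (sq S) := by
  unfold sq
  exact ContDiff.sum fun i _ => (f1_coord i).pow 2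

theorem f1_sq_nonneg (S : Finset ι) (x : V ι) : 0 ≤ sq S x := by
  unfold sq
  exact Finset.sum_nonneg fun i _ => sq_nonneg _

theorem f1_pd_congr {f g : V ι → ℝ} {x : V ι} (h : f =ᶠ[𝓝 x] g) (l : ι) :
    pd l f x = pd l g x := by
  unfold pd
  rw [h.fderiv_eq]

theorem f1_pd_sq [DecidableEq ι] (S : Finset ι) (l : ι) (x : V ι) :
    pd l (sq S) x = if l ∈ S then 2 * x l else 0 := by
  have h1 : pd l (sq S) x = ∑ i ∈ S, pd l (fun y : V ι => y i ^ 2) x := by
    have : sq S = fun y : V ι => ∑ i ∈ S, y i ^ 2 := rfl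
    rw [this]
    exact f1_pd_sum (fun i _ => (((f1_coord (n := 1) i).pow 2).differentiable one_ne_zero) x) l
  rw [h1]
  have h2 : ∀ i, pd l (fun y : V ι => y i ^ 2) x = if i = l then 2 * x l else 0 := by
    intro i
    have h3 : (fun y : V ι => y i ^ 2) = fun y : V ι => y i * y i := by
      funext y; ring
    rw [h3, pd_mul (((f1_coord (n := 1) i).differentiable one_ne_zero) x)
      (((f1_coord (n := 1) i).differentiable one_ne_zero) x), f1_pd_coord]
    by_cases h : i = l
    · subst h; simp; ring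
    · simp [h]
  simp only [h2, Finset.sum_ite_eq']

/-- the algebraic identity -/
theorem f1_alg [DecidableEq ι] (S : Finset ι) (x : ι → ℝ) (Z : ι → ℝ) (D : ι → ι → ℝ)
    (h : ∀ l, ∀ i ∈ S, ∀ j ∈ S, (if j = l then 1 else 0) * Z i + x j * D l i =
      (if i = l then 1 else 0) * Z j + x i * D l j) :
    (∑ i ∈ S, x i ^ 2) * (∑ i ∈ S, ∑ l, D l i ^ 2) =
      (∑ l, (∑ i ∈ S, x i * D l i) ^ 2) + ((S.card : ℝ) - 1) * ∑ i ∈ S, Z i ^ 2 := by
  have key : ∀ l, (∑ i ∈ S, x i ^ 2) * (∑ i ∈ S, D l i ^ 2) =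
      (∑ i ∈ S, x i * D l i) ^ 2 + (if l ∈ S then (∑ i ∈ S, Z i ^ 2) - Z l ^ 2 else 0) := by
    intro l
    have h1 : ∑ i ∈ S, ∑ j ∈ S, (x j * D l i - x i * D l j) ^ 2 =
        2 * ((∑ i ∈ S, x i ^ 2) * (∑ i ∈ S, D l i ^ 2) - (∑ i ∈ S, x i * D l i) ^ 2) := by
      have e1 : ∀ i j, (x j * D l i - x i * D l j) ^ 2 =
          x j ^ 2 * D l i ^ 2 + x i ^ 2 * D l j ^ 2 - 2 * ((x i * D l i) * (x j * D l j)) := by
        intro i j; ring
      simp only [e1, Finset.sum_add_distrib, Finset.sum_sub_distrib, ← Finset.mul_sum,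
        ← Finset.sum_mul]
      ring
    have h2 : ∑ i ∈ S, ∑ j ∈ S, (x j * D l i - x i * D l j) ^ 2 =
        ∑ i ∈ S, ∑ j ∈ S, ((if i = l then 1 else 0) * Z j - (if j = l then 1 else 0) * Z i) ^ 2 := by
      apply Finset.sum_congr rfl
      intro i hi
      apply Finset.sum_congr rfl
      intro j hj
      have := h l i hi j hj
      congr 1
      linarith
    have h3 : ∑ i ∈ S, ∑ j ∈ S,
        ((if i = l then 1 else 0) * Z j - (if j = l then 1 else 0) * Z i) ^ 2 =
        2 * (if l ∈ S then (∑ i ∈ S, Z i ^ 2) - Z l ^ 2 else 0) := by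
      have e2 : ∀ i j, ((if i = l then 1 else 0) * Z j - (if j = l then 1 else 0) * Z i) ^ 2 =
          (if i = l then Z j ^ 2 else 0) + (if j = l then Z i ^ 2 else 0) -
            2 * ((if i = l then Z l else 0) * (if j = l then Z l else 0)) := by
        intro i j
        by_cases hi : i = l <;> by_cases hj : j = l <;> (simp [hi, hj]; try ring)
      simp only [e2, Finset.sum_add_distrib, Finset.sum_sub_distrib, ← Finset.mul_sum,
        ← Finset.sum_mul, Finset.sum_ite_eq']
      have e3 : ∑ i ∈ S, ∑ j ∈ S, (if i = l then Z j ^ 2 else 0) =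
          if l ∈ S then ∑ j ∈ S, Z j ^ 2 else 0 := by
        rw [Finset.sum_comm]
        simp only [Finset.sum_ite_eq']
        by_cases hl : l ∈ S <;> simp [hl]
      rw [e3]
      by_cases hl : l ∈ S
      · simp only [hl, if_true]
        ring
      · simp [hl]
    have h4 := h1.symm.trans (h2.trans h3)
    linarith
  have h5 : (∑ i ∈ S, x i ^ 2) * (∑ i ∈ S, ∑ l, D l i ^ 2) =
      ∑ l, (∑ i ∈ S, x i ^ 2) * (∑ i ∈ S, D l i ^ 2) := by
    rw [Finset.sum_comm, Finset.mul_sum]
  rw [h5, Finset.sum_congr rfl fun l _ => key l, Finset.sum_add_distrib]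
  congr 1
  rw [← Finset.sum_filter]
  have h6 : Finset.univ.filter (fun l => l ∈ S) = S := by
    ext l; simp
  rw [h6, Finset.sum_sub_distrib]
  simp only [Finset.sum_const, nsmul_eq_mul]
  ring

/-- the product rule for the square of the gradient of a product -/
theorem f1_gd_mul {a ξ : V ι → ℝ} (ha : ContDiff ℝ 1 a) (hξ : ContDiff ℝ 1 ξ) (x : V ι) :
    gd (fun y => a y * ξ y) (fun y => a y * ξ y) x =
      gd a (fun y => a y * (ξ y * ξ y)) x + a x ^ 2 * gd ξ ξ x := by
  unfold gd
  rw [Finset.mul_sum, ← Finset.sum_add_distrib]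
  apply Finset.sum_congr rfl
  intro l _
  have da := (ha.differentiable one_ne_zero) x
  have dx := (hξ.differentiable one_ne_zero) x
  have dxx : DifferentiableAt ℝ (fun y => ξ y * ξ y) x := dx.mul dx
  rw [pd_mul da dx, pd_mul da dxx, pd_mul dx dx]
  ring

/-- the energy of a component -/
theorem f1_energy {K : ℝ} {u ξ : V ι → ℝ} (hu : GS K u) (hξ : T1 ξ) (i : ι) :
    ∫ x, gd (fun y => pd i u y * ξ y) (fun y => pd i u y * ξ y) x =
      (∫ x, cc u x * (pd i u x * ξ x) ^ 2) + ∫ x, pd i u x ^ 2 * gd ξ ξ x := by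
  have ha := contDiff_pd_one hu.smooth i
  have hψ : T1 (fun y => pd i u y * (ξ y * ξ y)) := T1.mul ha (T1.mul hξ.1 hξ)
  have h1 := (hu.lin (be i)).2 _ hψ
  have h2 : ∫ x, gd (pd i u) (fun y => pd i u y * (ξ y * ξ y)) x =
      ∫ x, cc u x * (pd i u x * ξ x) ^ 2 := by
    refine Eq.trans h1 ?_
    congr 1
    funext x
    change cc u x * pd i u x * (pd i u x * (ξ x * ξ x)) = _
    ring
  rw [← h2, ← integral_add]
  · congr 1
    funext x
    exact f1_gd_mul ha hξ.1 x
  · exact integrable_gd ha hψ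
  · exact integrable_cs ((ha.continuous.pow 2).mul (continuous_gd hξ.1 hξ.1))
      (hasCompactSupport_gd hξ.2).mul_left

/-- Proof. On the open set where `sq S x ≠ 0` put `ρ = √(sq S x)`, `n i = x i / ρ` and
`a i = pd i u` for `i ∈ S`, `g = ∑ j ∈ S, a j * n j`. By `RotInv`, `a i * x j = a j * x i`, so
`a i = g * n i` for `i ∈ S` and `g ^ 2 = gs S u`. The function `ζ = g * ξ` (zero outside of
`tsupport ξ`) is a test function, and `a i * ξ = n i * ζ`. Pointwise where `sq S x ≠ 0`,
`∑ i ∈ S, gd (n i * ζ) (n i * ζ) = gd ζ ζ + ζ ^ 2 * (|S| - 1) / sq S x`, because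
`∑ i ∈ S, n i ^ 2 = 1`, `∑ i ∈ S, n i * pd l (n i) = 0`, `pd l (n i) = (δ_il - n i * n l) / ρ` for
`l ∈ S` and `= 0` for `l ∉ S`. For `i ∈ S` the linearised equation for `a i` (`hu.lin (be i)`) with the
test function `a i * ξ ^ 2` gives, as `gd (a i ξ) (a i ξ) = gd (a i) (a i ξ ^ 2) + (a i) ^ 2 gd ξ ξ`,
`∫ gd (a i ξ) (a i ξ) = ∫ cc u * (a i ξ) ^ 2 + ∫ (a i) ^ 2 gd ξ ξ`. Summing over `i ∈ S`:
`∫ gd ζ ζ + (|S| - 1) ∫ gs / sq * ξ ^ 2 = ∫ cc u * ζ ^ 2 + ∫ gs * gd ξ ξ`, and stability gives
`∫ cc u * ζ ^ 2 ≤ ∫ gd ζ ζ`. -/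
theorem b1_away {K : ℝ} {u ξ : V ι → ℝ} {S : Finset ι} (hu : GS K u) (hst : Stab u)
    (hrot : RotInv S u) (hξ : T1 ξ) (h0 : ∀ x ∈ tsupport ξ, sq S x ≠ 0) :
    ((S.card : ℝ) - 1) * ∫ x, gs S u x / sq S x * ξ x ^ 2 ≤ ∫ x, gs S u x * gd ξ ξ x := by
  classical
  have ha : ∀ i, ContDiff ℝ 1 (pd i u) := contDiff_pd_one hu.smooth
  have hZ : ∀ i, T1 (fun y => pd i u y * ξ y) := fun i => T1.mul (ha i) hξ
  set Z : ι → V ι → ℝ := fun i y => pd i u y * ξ y with hZdef
  have dZ : ∀ i x, DifferentiableAt ℝ (Z i) x :=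
    fun i x => ((hZ i).1.differentiable one_ne_zero) x
  have dc : ∀ (i : ι) (x : V ι), DifferentiableAt ℝ (fun y : V ι => y i) x :=
    fun i x => ((f1_coord (n := 1) i).differentiable one_ne_zero) x
  -- the function `ζ`
  set N : V ι → ℝ := fun y => ∑ i ∈ S, y i * Z i y with hN
  have hNC : ContDiff ℝ 1 N := ContDiff.sum fun i _ => (f1_coord i).mul (hZ i).1
  set ζ : V ι → ℝ := fun y => N y / √(sq S y) with hζdef
  have hout : ∀ x, x ∉ tsupport ξ → ξ =ᶠ[𝓝 x] 0 := fun x hx =>
    notMem_tsupport_iff_eventuallyEq.mp hx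
  have houtZ : ∀ x, x ∉ tsupport ξ → ∀ i, Z i =ᶠ[𝓝 x] fun _ => 0 := by
    intro x hx i
    filter_upwards [hout x hx] with y hy
    simp [hZdef, hy]
  have houtζ : ∀ x, x ∉ tsupport ξ → ζ =ᶠ[𝓝 x] fun _ => 0 := by
    intro x hx
    filter_upwards [hout x hx] with y hy
    simp [hζdef, hN, hZdef, hy]
  have hζC : ContDiff ℝ 1 ζ := by
    rw [contDiff_iff_contDiffAt]
    intro x
    by_cases hx : x ∈ tsupport ξ
    · have hs := h0 x hx
      have hs' : 0 < sq S x := lt_of_le_of_ne (f1_sq_nonneg S x) (Ne.symm hs)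
      exact hNC.contDiffAt.div ((f1_contDiff_sq S).contDiffAt.sqrt hs)
        (Real.sqrt_pos.mpr hs').ne'
    · exact contDiffAt_const.congr_of_eventuallyEq (houtζ x hx)
  have hζS : HasCompactSupport ζ := by
    apply hξ.2.mono
    intro y hy
    rw [Function.mem_support] at hy ⊢
    intro h
    apply hy
    simp [hζdef, hN, hZdef, h]
  have hζ : T1 ζ := ⟨hζC, hζS⟩
  -- the relations between the `Z i`
  have rel : ∀ i ∈ S, ∀ j ∈ S, (fun y : V ι => y j * Z i y) = fun y : V ι => y i * Z j y := by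
    intro i hi j hj
    funext y
    have := hrot i hi j hj y
    simp only [hZdef]
    linear_combination (-ξ y) * this
  have relN : ∀ i ∈ S, ∀ y, y i * N y = sq S y * Z i y := by
    intro i hi y
    simp only [hN, sq, Finset.mul_sum, Finset.sum_mul]
    apply Finset.sum_congr rfl
    intro j hj
    have := congrFun (rel i hi j hj) y
    simp only at this
    linear_combination (-y j) * this
  have relD : ∀ (x : V ι) (l : ι), ∀ i ∈ S, ∀ j ∈ S,
      (if j = l then 1 else 0) * Z i x + x j * pd l (Z i) x =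
      (if i = l then 1 else 0) * Z j x + x i * pd l (Z j) x := by
    intro x l i hi j hj
    have h1 := pd_mul (dc j x) (dZ i x) l
    have h2 := pd_mul (dc i x) (dZ j x) l
    rw [f1_pd_coord] at h1 h2
    rw [← h1, ← h2, rel i hi j hj]
  -- square of `ζ`
  have sqζ : ∀ x, ζ x ^ 2 = ∑ i ∈ S, Z i x ^ 2 := by
    intro x
    by_cases hx : x ∈ tsupport ξ
    · have hs := h0 x hx
      have hs' : 0 < sq S x := lt_of_le_of_ne (f1_sq_nonneg S x) (Ne.symm hs)
      have h1 : sq S x * ∑ i ∈ S, Z i x ^ 2 = N x ^ 2 := by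
        have h2 : N x ^ 2 = ∑ i ∈ S, (x i * N x) * Z i x := by
          have : N x = ∑ i ∈ S, x i * Z i x := rfl
          rw [pow_two]
          nth_rewrite 2 [this]
          rw [Finset.mul_sum]
          apply Finset.sum_congr rfl
          intro i _
          ring
        rw [h2, Finset.mul_sum]
        apply Finset.sum_congr rfl
        intro i hi
        rw [relN i hi x]
        ring
      have h3 : ζ x ^ 2 = N x ^ 2 / sq S x := by
        simp only [hζdef]
        rw [div_pow, Real.sq_sqrt hs'.le]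
      rw [h3, ← h1]
      field_simp
    · have h1 := (houtζ x hx).eq_of_nhds
      rw [h1]
      symm
      simp only [ne_eq, OfNat.ofNat_ne_zero, not_false_eq_true, zero_pow]
      apply Finset.sum_eq_zero
      intro i _
      rw [(houtZ x hx i).eq_of_nhds]
      simp
  -- derivative of `ζ`
  have pdζ : ∀ x ∈ tsupport ξ, ∀ l, sq S x * pd l ζ x ^ 2 =
      (∑ i ∈ S, x i * pd l (Z i) x) ^ 2 := by
    intro x hx l
    have hs := h0 x hx
    have hs' : 0 < sq S x := lt_of_le_of_ne (f1_sq_nonneg S x) (Ne.symm hs)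
    have dsq : DifferentiableAt ℝ (sq S) x :=
      ((f1_contDiff_sq (n := 1) S).differentiable one_ne_zero) x
    have dρ : DifferentiableAt ℝ (fun y => √(sq S y)) x := dsq.sqrt hs
    have dζ : DifferentiableAt ℝ ζ x := (hζC.differentiable one_ne_zero) x
    have hρ : 0 < √(sq S x) := Real.sqrt_pos.mpr hs'
    -- `ζ ρ = N` near `x`
    have ev : (fun y => ζ y * √(sq S y)) =ᶠ[𝓝 x] N := by
      have : ∀ᶠ y in 𝓝 x, 0 < sq S y :=
        (f1_contDiff_sq (n := 1) S).continuous.continuousAt.eventually (lt_mem_nhds hs')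
      filter_upwards [this] with y hy
      simp only [hζdef]
      rw [div_mul_cancel₀]
      exact (Real.sqrt_pos.mpr hy).ne'
    have h1 : pd l ζ x * √(sq S x) + ζ x * pd l (fun y => √(sq S y)) x = pd l N x := by
      rw [← pd_mul dζ dρ l]
      exact f1_pd_congr ev l
    have h2 : pd l N x = (if l ∈ S then Z l x else 0) + ∑ i ∈ S, x i * pd l (Z i) x := by
      have e1 : pd l N x = ∑ i ∈ S, pd l (fun y : V ι => y i * Z i y) x :=
        f1_pd_sum (fun i _ => (dc i x).mul (dZ i x)) l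
      rw [e1]
      have e2 : ∀ i ∈ S, pd l (fun y : V ι => y i * Z i y) x =
          (if i = l then Z l x else 0) + x i * pd l (Z i) x := by
        intro i _
        rw [pd_mul (dc i x) (dZ i x), f1_pd_coord]
        by_cases h : i = l
        · subst h; simp
        · simp [h]
      rw [Finset.sum_congr rfl e2, Finset.sum_add_distrib, Finset.sum_ite_eq']
    have h3 : 2 * √(sq S x) * pd l (fun y => √(sq S y)) x = if l ∈ S then 2 * x l else 0 := by
      have e1 : pd l (fun y => √(sq S y) * √(sq S y)) x = pd l (sq S) x := by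
        apply f1_pd_congr
        filter_upwards with y
        exact Real.mul_self_sqrt (f1_sq_nonneg S y)
      rw [pd_mul dρ dρ, f1_pd_sq] at e1
      linarith
    have h4 : √(sq S x) * √(sq S x) = sq S x := Real.mul_self_sqrt hs'.le
    have h5 : ζ x * √(sq S x) = N x := ev.eq_of_nhds
    have h6 : √(sq S x) * pd l ζ x = ∑ i ∈ S, x i * pd l (Z i) x := by
      by_cases hl : l ∈ S
      · simp only [hl, if_true] at h2 h3
        have h7 := relN l hl x
        have h8 : ζ x * pd l (fun y => √(sq S y)) x = Z l x := by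
          have h9 : sq S x * (ζ x * pd l (fun y => √(sq S y)) x) = sq S x * Z l x := by
            rw [← h7, ← h5]
            have h10 : √(sq S x) * pd l (fun y => √(sq S y)) x = x l := by linarith
            linear_combination (-(ζ x * pd l (fun y => √(sq S y)) x)) * h4 +
              (√(sq S x) * ζ x) * h10
          exact mul_left_cancel₀ hs h9
        linarith
      · simp only [hl, if_false] at h2 h3
        have h8 : pd l (fun y => √(sq S y)) x = 0 := by
          have : √(sq S x) * pd l (fun y => √(sq S y)) x = 0 := by linarith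
          rcases mul_eq_zero.mp this with h | h
          · exact absurd h hρ.ne'
          · exact h
        rw [h8] at h1
        linarith
    rw [← h6, mul_pow, pow_two √(sq S x), h4]
  -- the pointwise identity
  have pw : ∀ x, (∑ i ∈ S, gd (Z i) (Z i) x) - gd ζ ζ x =
      ((S.card : ℝ) - 1) * (gs S u x / sq S x * ξ x ^ 2) := by
    intro x
    by_cases hx : x ∈ tsupport ξ
    · have hs := h0 x hx
      have hs' : 0 < sq S x := lt_of_le_of_ne (f1_sq_nonneg S x) (Ne.symm hs)
      have h1 := f1_alg S (fun i => x i) (fun i => Z i x) (fun l i => pd l (Z i) x)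
        (relD x)
      have h2 : ∑ l, (∑ i ∈ S, x i * pd l (Z i) x) ^ 2 = sq S x * gd ζ ζ x := by
        unfold gd
        rw [Finset.mul_sum]
        apply Finset.sum_congr rfl
        intro l _
        rw [← pdζ x hx l]
        ring
      have h3 : ∑ i ∈ S, ∑ l, pd l (Z i) x ^ 2 = ∑ i ∈ S, gd (Z i) (Z i) x := by
        apply Finset.sum_congr rfl
        intro i _
        unfold gd
        apply Finset.sum_congr rfl
        intro l _
        ring
      have h4 : ∑ i ∈ S, Z i x ^ 2 = gs S u x * ξ x ^ 2 := by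
        unfold gs
        rw [Finset.sum_mul]
        apply Finset.sum_congr rfl
        intro i _
        simp only [hZdef]
        ring
      have h5 : ∑ i ∈ S, x i ^ 2 = sq S x := rfl
      rw [h5, h2, h3, h4] at h1
      have h6 : sq S x * ((∑ i ∈ S, gd (Z i) (Z i) x) - gd ζ ζ x) =
          sq S x * (((S.card : ℝ) - 1) * (gs S u x / sq S x * ξ x ^ 2)) := by
        have h7 : sq S x * (((S.card : ℝ) - 1) * (gs S u x / sq S x * ξ x ^ 2)) =
            ((S.card : ℝ) - 1) * (gs S u x * ξ x ^ 2) := by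
          field_simp
        rw [h7]
        linarith
      exact mul_left_cancel₀ hs h6
    · have h1 : ξ x = 0 := (hout x hx).eq_of_nhds
      have h2 : ∀ i l, pd l (Z i) x = 0 := by
        intro i l
        rw [f1_pd_congr (houtZ x hx i) l]
        simp [pd]
      have h3 : ∀ l, pd l ζ x = 0 := by
        intro l
        rw [f1_pd_congr (houtζ x hx) l]
        simp [pd]
      simp [gd, h1, h2, h3]
  -- the integrals
  have iZ : ∀ i, Integrable (gd (Z i) (Z i)) := fun i => integrable_gd (hZ i).1 (hZ i)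
  have I1 : ∫ x, ((∑ i ∈ S, gd (Z i) (Z i) x) - gd ζ ζ x) =
      (∑ i ∈ S, ∫ x, gd (Z i) (Z i) x) - ∫ x, gd ζ ζ x := by
    rw [integral_sub (integrable_finsetSum _ fun i _ => iZ i) (integrable_gd hζC hζ),
      integral_finsetSum _ fun i _ => iZ i]
  have I2 : ∑ i ∈ S, ∫ x, gd (Z i) (Z i) x =
      (∫ x, cc u x * ζ x ^ 2) + ∫ x, gs S u x * gd ξ ξ x := by
    have e1 : ∀ i ∈ S, ∫ x, gd (Z i) (Z i) x =
        (∫ x, cc u x * Z i x ^ 2) + ∫ x, pd i u x ^ 2 * gd ξ ξ x :=
      fun i _ => f1_energy hu hξ i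
    rw [Finset.sum_congr rfl e1, Finset.sum_add_distrib, ← integral_finsetSum,
      ← integral_finsetSum]
    · congr 2
      · funext x
        rw [sqζ x, Finset.mul_sum]
      · funext x
        unfold gs
        rw [Finset.sum_mul]
    · intro i _
      exact integrable_cs (((ha i).continuous.pow 2).mul (continuous_gd hξ.1 hξ.1))
        (hasCompactSupport_gd hξ.2).mul_left
    · intro i _
      have h1 : (fun x => cc u x * Z i x ^ 2) = fun x => (cc u x * Z i x) * Z i x := by
        funext x; ring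
      rw [h1]
      exact integrable_mul_T1 ((continuous_cc hu.C1.continuous).mul (hZ i).1.continuous) (hZ i)
  have I3 := hst ζ hζ
  have I4 : ∫ x, ((∑ i ∈ S, gd (Z i) (Z i) x) - gd ζ ζ x) =
      ((S.card : ℝ) - 1) * ∫ x, gs S u x / sq S x * ξ x ^ 2 := by
    rw [← integral_const_mul]
    congr 1
    funext x
    exact pw x
  rw [← I4, I1, I2]
  linarith

end Pool.Agent.Helper68.DG
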