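import Pool.Agent.Helper68.DG.Base
import Pool.Agent.Helper68.DG.F1

/-! Project DG (MP_800410_an), piece F2: the rotation inequality -/

open MeasureTheory Metric Set Filter Topology
open scoped ContDiff

namespace Pool.Agent.Helper68.DG

variable {ι : Type} [Fintype ι]

/-- the point with the coordinates in `S` replaced by `0` -/
noncomputable def f2_proj [DecidableEq ι] (S : Finset ι) (x : V ι) : V ι :=
  WithLp.toLp 2 fun i => if i ∈ S then 0 else x i

theorem f2_proj_apply [DecidableEq ι] (S : Finset ι) (x : V ι) (i : ι) :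
    f2_proj S x i = if i ∈ S then 0 else x i := rfl

theorem f2_norm_sub [DecidableEq ι] (S : Finset ι) (x : V ι) :
    ‖x - f2_proj S x‖ ^ 2 = sq S x := by
  rw [EuclideanSpace.norm_sq_eq]
  have h1 : ∀ i, ‖(x - f2_proj S x) i‖ ^ 2 = if i ∈ S then x i ^ 2 else 0 := by
    intro i
    have h2 : (x - f2_proj S x) i = x i - f2_proj S x i := rfl
    rw [h2, f2_proj_apply]
    by_cases h : i ∈ S
    · simp [h]
    · simp [h]
  rw [Finset.sum_congr rfl fun i _ => h1 i, ← Finset.sum_filter]
  have h6 : Finset.univ.filter (fun l => l ∈ S) = S := by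
    ext l; simp
  rw [h6]
  rfl

theorem f2_pd_zero [DecidableEq ι] {K : ℝ} {u : V ι → ℝ} {S : Finset ι} (hu : GS K u)
    (hrot : RotInv S u) (hS : 2 ≤ S.card) (x : V ι) {j : ι} (hj : j ∈ S) :
    pd j u (f2_proj S x) = 0 := by
  obtain ⟨i, hi, hij⟩ := Finset.exists_mem_ne (by omega : 1 < S.card) j
  have hc : Continuous fun t : ℝ => pd j u (f2_proj S x + t • be i) :=
    (continuous_pd hu.C1 j).comp (continuous_const.add (continuous_id.smul continuous_const))
  have h0 : ∀ t : ℝ, t ≠ 0 → pd j u (f2_proj S x + t • be i) = 0 := by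
    intro t ht
    have h1 := hrot i hi j hj (f2_proj S x + t • be i)
    have h2 : (f2_proj S x + t • be i) i = t := by
      have e : (f2_proj S x + t • be i) i = f2_proj S x i + t * be i i := rfl
      rw [e, f2_proj_apply, if_pos hi, be_apply, if_pos rfl]
      ring
    have h3 : (f2_proj S x + t • be i) j = 0 := by
      have e : (f2_proj S x + t • be i) j = f2_proj S x j + t * be i j := rfl
      rw [e, f2_proj_apply, if_pos hj, be_apply, if_neg (Ne.symm hij)]
      ring
    rw [h2, h3, zero_mul] at h1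
    rcases mul_eq_zero.mp h1 with h | h
    · exact absurd h ht
    · exact h
  have h4 : Tendsto (fun t : ℝ => pd j u (f2_proj S x + t • be i)) (𝓝[≠] 0)
      (𝓝 (pd j u (f2_proj S x + (0 : ℝ) • be i))) :=
    (hc.tendsto 0).mono_left nhdsWithin_le_nhds
  have h5 : Tendsto (fun t : ℝ => pd j u (f2_proj S x + t • be i)) (𝓝[≠] 0) (𝓝 0) := by
    refine tendsto_const_nhds.congr' ?_
    filter_upwards [self_mem_nhdsWithin] with t ht
    exact (h0 t ht).symm
  have h6 := tendsto_nhds_unique h4 h5
  rwa [zero_smul, add_zero] at h6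

/-- Proof. Let `x` be given and let `y` be `x` with the coordinates in `S` replaced by `0`. For
`j ∈ S` choose `i ∈ S`, `i ≠ j`. For `t ≠ 0`, `RotInv` at `y + t • be i` says
`t * pd j u (y + t • be i) = 0`; so `pd j u (y + t • be i) = 0`, and `pd j u y = 0` by continuity. So
`|pd j u x| ≤ K ‖x - y‖ = K √(sq S x)` (`lip1`). -/
theorem gs_le {K : ℝ} {u : V ι → ℝ} {S : Finset ι} (hu : GS K u) (hrot : RotInv S u)
    (hS : 2 ≤ S.card) (x : V ι) : gs S u x ≤ S.card * K ^ 2 * sq S x := by
  classical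
  have h1 : ∀ j ∈ S, pd j u x ^ 2 ≤ K ^ 2 * sq S x := by
    intro j hj
    have h2 : pd j u x = (fderiv ℝ u x - fderiv ℝ u (f2_proj S x)) (be j) := by
      have h3 : (fderiv ℝ u x - fderiv ℝ u (f2_proj S x)) (be j) =
          pd j u x - pd j u (f2_proj S x) := rfl
      rw [h3, f2_pd_zero hu hrot hS x hj, sub_zero]
    have h4 : |pd j u x| ≤ K * ‖x - f2_proj S x‖ := by
      rw [h2]
      have h5 := (fderiv ℝ u x - fderiv ℝ u (f2_proj S x)).le_opNorm (be j)
      rw [norm_be, mul_one] at h5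
      exact h5.trans (hu.lip1 _ _)
    have h6 : pd j u x ^ 2 ≤ (K * ‖x - f2_proj S x‖) ^ 2 := by
      rw [← sq_abs]
      exact pow_le_pow_left₀ (abs_nonneg _) h4 2
    rwa [mul_pow, f2_norm_sub] at h6
  unfold gs
  refine (Finset.sum_le_sum h1).trans ?_
  rw [Finset.sum_const, nsmul_eq_mul, mul_assoc]

/-- the derivative of the smooth transition is bounded -/
theorem f2_deriv_bound : ∃ D : ℝ, 0 ≤ D ∧ (∀ t, |deriv Real.smoothTransition t| ≤ D) ∧
    ∀ t, 1 < t → deriv Real.smoothTransition t = 0 := by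
  have hc : Continuous (deriv Real.smoothTransition) :=
    (Real.smoothTransition.contDiff (n := 1)).continuous_deriv le_rfl
  have h1 : ∀ t, 1 < t → deriv Real.smoothTransition t = 0 := by
    intro t ht
    have h2 : Real.smoothTransition =ᶠ[𝓝 t] fun _ => 1 := by
      filter_upwards [lt_mem_nhds ht] with y hy
      exact Real.smoothTransition.one_of_one_le hy.le
    rw [h2.deriv_eq, deriv_const]
  have h0 : ∀ t, t < 0 → deriv Real.smoothTransition t = 0 := by
    intro t ht
    have h2 : Real.smoothTransition =ᶠ[𝓝 t] fun _ => 0 := by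
      filter_upwards [gt_mem_nhds ht] with y hy
      exact Real.smoothTransition.zero_of_nonpos hy.le
    rw [h2.deriv_eq, deriv_const]
  obtain ⟨D, hD⟩ := (isCompact_Icc (a := (0 : ℝ)) (b := 1)).exists_bound_of_continuousOn
    hc.continuousOn
  have hD0 : 0 ≤ D := (norm_nonneg _).trans (hD 0 (by simp))
  refine ⟨D, hD0, fun t => ?_, h1⟩
  rcases lt_or_ge t 0 with ht | ht
  · rw [h0 t ht, abs_zero]
    exact hD0
  · rcases lt_or_ge 1 t with ht1 | ht1
    · rw [h1 t ht1, abs_zero]
      exact hD0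
    · exact hD t ⟨ht, ht1⟩

/-- the cutoff -/
noncomputable def f2_chi (S : Finset ι) (c : ℝ) (x : V ι) : ℝ :=
  Real.smoothTransition (c * sq S x - 1)

theorem f2_chi_contDiff (S : Finset ι) (c : ℝ) : ContDiff ℝ 1 (f2_chi S c) := by
  unfold f2_chi
  exact Real.smoothTransition.contDiff.comp
    ((contDiff_const.mul (f1_contDiff_sq S)).sub contDiff_const)

theorem f2_chi_nonneg (S : Finset ι) (c : ℝ) (x : V ι) : 0 ≤ f2_chi S c x :=
  Real.smoothTransition.nonneg _

theorem f2_chi_le_one (S : Finset ι) (c : ℝ) (x : V ι) : f2_chi S c x ≤ 1 :=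
  Real.smoothTransition.le_one _

theorem f2_pd_chi [DecidableEq ι] (S : Finset ι) (c : ℝ) (l : ι) (x : V ι) :
    pd l (f2_chi S c) x = deriv Real.smoothTransition (c * sq S x - 1) *
      (c * if l ∈ S then 2 * x l else 0) := by
  have h1 : DifferentiableAt ℝ (sq S) x :=
    ((f1_contDiff_sq (n := 1) S).differentiable one_ne_zero) x
  have h2 : DifferentiableAt ℝ (fun y => c * sq S y) x := h1.const_mul c
  have h3 : DifferentiableAt ℝ (fun y => c * sq S y - 1) x := h2.sub_const 1
  have h4 : DifferentiableAt ℝ Real.smoothTransition (c * sq S x - 1) :=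
    ((Real.smoothTransition.contDiff (n := 1)).differentiable one_ne_zero) _
  have h5 : f2_chi S c = fun y => Real.smoothTransition ((fun y => c * sq S y - 1) y) := rfl
  rw [h5, pd_comp h4 h3]
  congr 1
  have h6 : pd l (fun y => c * sq S y - 1) x = pd l (fun y => c * sq S y) x := by
    unfold pd
    rw [fderiv_sub_const]
  rw [h6, pd_const_mul c h1, f1_pd_sq]

theorem f2_gd_chi [DecidableEq ι] (S : Finset ι) (c : ℝ) (x : V ι) :
    gd (f2_chi S c) (f2_chi S c) x =
      deriv Real.smoothTransition (c * sq S x - 1) ^ 2 * (4 * c ^ 2 * sq S x) := by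
  unfold gd
  simp only [f2_pd_chi]
  have h1 : ∀ l, deriv Real.smoothTransition (c * sq S x - 1) *
      (c * if l ∈ S then 2 * x l else 0) * (deriv Real.smoothTransition (c * sq S x - 1) *
      (c * if l ∈ S then 2 * x l else 0)) =
      deriv Real.smoothTransition (c * sq S x - 1) ^ 2 * (4 * c ^ 2) *
        (if l ∈ S then x l ^ 2 else 0) := by
    intro l
    by_cases h : l ∈ S
    · simp only [h, if_true]
      ring
    · simp [h]
  rw [Finset.sum_congr rfl fun l _ => h1 l, ← Finset.mul_sum, ← Finset.sum_filter]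
  have h6 : Finset.univ.filter (fun l => l ∈ S) = S := by
    ext l; simp
  rw [h6]
  unfold sq
  ring

theorem f2_gd_mul_le {a ξ : V ι → ℝ} (ha : ContDiff ℝ 1 a) (hξ : ContDiff ℝ 1 ξ) (x : V ι) :
    gd (fun y => a y * ξ y) (fun y => a y * ξ y) x ≤
      2 * (ξ x ^ 2 * gd a a x) + 2 * (a x ^ 2 * gd ξ ξ x) := by
  unfold gd
  rw [Finset.mul_sum, Finset.mul_sum, Finset.mul_sum, Finset.mul_sum, ← Finset.sum_add_distrib]
  refine Finset.sum_le_sum fun l _ => ?_
  rw [pd_mul ((ha.differentiable one_ne_zero) x) ((hξ.differentiable one_ne_zero) x)]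
  nlinarith [sq_nonneg (pd l a x * ξ x - a x * pd l ξ x)]

theorem f2_gs_continuous {K : ℝ} {u : V ι → ℝ} (hu : GS K u) (S : Finset ι) :
    Continuous (gs S u) := by
  unfold gs
  exact continuous_finsetSum _ fun i _ => (continuous_pd hu.C1 i).pow 2

theorem f2_gs_nonneg (S : Finset ι) (u : V ι → ℝ) (x : V ι) : 0 ≤ gs S u x := by
  unfold gs
  exact Finset.sum_nonneg fun i _ => sq_nonneg _

theorem f2_eventually (S : Finset ι) {x : V ι} (hx : 0 < sq S x) :
    ∀ᶠ n : ℕ in atTop, f2_chi S n =ᶠ[𝓝 x] fun _ => 1 := by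
  obtain ⟨N, hN⟩ := exists_nat_gt (4 / sq S x)
  filter_upwards [eventually_ge_atTop N] with n hn
  have h1 : 2 < (n : ℝ) * sq S x := by
    have h2 : (N : ℝ) ≤ n := by exact_mod_cast hn
    have h3 : 4 < (N : ℝ) * sq S x := (div_lt_iff₀ hx).mp hN
    nlinarith
  have h4 : ∀ᶠ y in 𝓝 x, 2 < (n : ℝ) * sq S y :=
    (continuous_const.mul (f1_contDiff_sq (n := 1) S).continuous).continuousAt.eventually
      (lt_mem_nhds h1)
  filter_upwards [h4] with y hy
  exact Real.smoothTransition.one_of_one_le (by linarith)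

/-- Proof. For `δ > 0` let `χ x = smoothTransition (sq S x / δ ^ 2 - 1)`: it is `0` if
`sq S x ≤ δ ^ 2`, `1` if `2 δ ^ 2 ≤ sq S x`, and `‖fderiv χ‖ ≤ C / δ` with `C` independent of `δ`
(`‖fderiv (sq S)‖ ≤ 2 √(sq S)`). Apply F1 to `χ * ξ`. For `0 < τ < 1`,
`gd (χ ξ) (χ ξ) ≤ (1 + τ) χ ^ 2 gd ξ ξ + (1 + 1 / τ) ξ ^ 2 gd χ χ`, and by `gs_le`
`∫ gs ξ ^ 2 gd χ χ ≤ |S| K ^ 2 (2 δ ^ 2) (C / δ) ^ 2 ∫ ξ ^ 2` over the set `sq S x ≤ 2 δ ^ 2`, which
tends to `0` for `δ → 0`, as the set `sq S x = 0` has measure `0` (it is contained in a proper subspace;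
dominated convergence). On the left `gs / sq * (χ ξ) ^ 2 → gs / sq * ξ ^ 2`, dominated by
`|S| K ^ 2 ξ ^ 2`. So the inequality holds with the factor `1 + τ` on the right; let `τ → 0`. -/
theorem b1 {K : ℝ} {u ξ : V ι → ℝ} {S : Finset ι} (hu : GS K u) (hst : Stab u)
    (hrot : RotInv S u) (hS : 2 ≤ S.card) (hξ : T1 ξ) :
    ((S.card : ℝ) - 1) * ∫ x, gs S u x / sq S x * ξ x ^ 2 ≤ ∫ x, gs S u x * gd ξ ξ x := by
  classical
  obtain ⟨D, hD0, hD, hD1⟩ := f2_deriv_bound
  have hgs := f2_gs_continuous hu S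
  have hsq : Continuous (sq S : V ι → ℝ) := (f1_contDiff_sq (n := 1) S).continuous
  have hT : ∀ n : ℕ, T1 (fun y => f2_chi S n y * ξ y) := fun n =>
    T1.mul (f2_chi_contDiff S n) hξ
  have hsqn : ∀ x, 0 ≤ sq S x := f1_sq_nonneg S
  have hK2 : 0 ≤ (S.card : ℝ) * K ^ 2 := by positivity
  -- the inequality for the cut functions
  have h1 : ∀ n : ℕ, ((S.card : ℝ) - 1) * ∫ x, gs S u x / sq S x * (f2_chi S n x * ξ x) ^ 2 ≤
      ∫ x, gs S u x * gd (fun y => f2_chi S n y * ξ y) (fun y => f2_chi S n y * ξ y) x := by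
    intro n
    refine b1_away hu hst hrot (hT n) ?_
    intro x hx h0
    have h2 : (n : ℝ) * sq S x < 1 := by
      rw [h0, mul_zero]
      exact one_pos
    have h3 : ∀ᶠ y in 𝓝 x, (n : ℝ) * sq S y < 1 :=
      (continuous_const.mul hsq).continuousAt.eventually (gt_mem_nhds h2)
    have h4 : (fun y => f2_chi S n y * ξ y) =ᶠ[𝓝 x] 0 := by
      filter_upwards [h3] with y hy
      have h5 : f2_chi S n y = 0 := Real.smoothTransition.zero_of_nonpos (by linarith)
      rw [h5, zero_mul]
      rfl
    exact (notMem_tsupport_iff_eventuallyEq.mpr h4) hx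
  -- the left side
  have h2 : Tendsto (fun n : ℕ => ∫ x, gs S u x / sq S x * (f2_chi S n x * ξ x) ^ 2) atTop
      (𝓝 (∫ x, gs S u x / sq S x * ξ x ^ 2)) := by
    refine tendsto_integral_of_dominated_convergence
      (fun x => (S.card : ℝ) * K ^ 2 * ξ x ^ 2) ?_ ?_ ?_ ?_
    · intro n
      exact ((hgs.measurable.div hsq.measurable).mul
        ((hT n).continuous.measurable.pow_const 2)).aestronglyMeasurable
    · refine Integrable.const_mul ?_ _
      have h3 : (fun x => ξ x ^ 2) = fun x => ξ x * ξ x := by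
        funext x; ring
      rw [h3]
      exact integrable_mul_T1 hξ.continuous hξ
    · intro n
      filter_upwards with x
      rw [Real.norm_eq_abs, abs_mul, abs_of_nonneg (div_nonneg (f2_gs_nonneg S u x) (hsqn x)),
        abs_of_nonneg (sq_nonneg _)]
      have h3 : gs S u x / sq S x ≤ (S.card : ℝ) * K ^ 2 :=
        div_le_of_le_mul₀ (hsqn x) hK2 (gs_le hu hrot hS x)
      have h4 : (f2_chi S n x * ξ x) ^ 2 ≤ ξ x ^ 2 := by
        rw [mul_pow]
        have h5 : f2_chi S n x ^ 2 ≤ 1 := by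
          have := f2_chi_nonneg S n x
          have := f2_chi_le_one S n x
          nlinarith
        nlinarith [sq_nonneg (ξ x)]
      exact mul_le_mul h3 h4 (sq_nonneg _) hK2
    · filter_upwards with x
      rcases (hsqn x).eq_or_lt with h0 | h0
      · rw [← h0]
        simp
      · refine tendsto_const_nhds.congr' ?_
        filter_upwards [f2_eventually S h0] with n hn
        rw [hn.eq_of_nhds, one_mul]
  -- the right side
  have h3 : Tendsto (fun n : ℕ => ∫ x, gs S u x *
      gd (fun y => f2_chi S n y * ξ y) (fun y => f2_chi S n y * ξ y) x) atTop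
      (𝓝 (∫ x, gs S u x * gd ξ ξ x)) := by
    refine tendsto_integral_of_dominated_convergence
      (fun x => 32 * ((S.card : ℝ) * K ^ 2) * D ^ 2 * ξ x ^ 2 + 2 * (gs S u x * gd ξ ξ x))
      ?_ ?_ ?_ ?_
    · intro n
      exact (hgs.mul (continuous_gd (hT n).1 (hT n).1)).aestronglyMeasurable
    · refine Integrable.add (Integrable.const_mul ?_ _) (Integrable.const_mul ?_ _)
      · have h3 : (fun x => ξ x ^ 2) = fun x => ξ x * ξ x := by
          funext x; ring
        rw [h3]
        exact integrable_mul_T1 hξ.continuous hξ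
      · exact integrable_cs (hgs.mul (continuous_gd hξ.1 hξ.1))
          (hasCompactSupport_gd hξ.2).mul_left
    · intro n
      filter_upwards with x
      have hg0 := f2_gs_nonneg S u x
      rw [Real.norm_eq_abs, abs_of_nonneg (mul_nonneg hg0 (gd_self_nonneg _ x))]
      have h4 := f2_gd_mul_le (f2_chi_contDiff S n) hξ.1 x
      have h5 : gs S u x * gd (f2_chi S n) (f2_chi S n) x ≤
          16 * ((S.card : ℝ) * K ^ 2) * D ^ 2 := by
        rw [f2_gd_chi]
        rcases lt_or_ge 1 ((n : ℝ) * sq S x - 1) with h6 | h6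
        · rw [hD1 _ h6]
          have : 0 ≤ 16 * ((S.card : ℝ) * K ^ 2) * D ^ 2 := by positivity
          simpa using this
        · have h7 : deriv Real.smoothTransition ((n : ℝ) * sq S x - 1) ^ 2 ≤ D ^ 2 := by
            rw [← sq_abs]
            exact pow_le_pow_left₀ (abs_nonneg _) (hD _) 2
          have h8 : gs S u x * (4 * (n : ℝ) ^ 2 * sq S x) ≤ 16 * ((S.card : ℝ) * K ^ 2) := by
            have h9 := gs_le hu hrot hS x
            have h10 : 0 ≤ 4 * (n : ℝ) ^ 2 * sq S x := by
              have := hsqn x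
              positivity
            refine (mul_le_mul_of_nonneg_right h9 h10).trans ?_
            have h11 : 0 ≤ (n : ℝ) * sq S x := mul_nonneg (Nat.cast_nonneg n) (hsqn x)
            have h12 : ((n : ℝ) * sq S x) ^ 2 ≤ 4 := by nlinarith
            have h13 : (S.card : ℝ) * K ^ 2 * sq S x * (4 * (n : ℝ) ^ 2 * sq S x) =
                4 * ((S.card : ℝ) * K ^ 2) * ((n : ℝ) * sq S x) ^ 2 := by ring
            rw [h13]
            nlinarith
          have h14 : 0 ≤ gs S u x * (4 * (n : ℝ) ^ 2 * sq S x) := by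
            have := hsqn x
            positivity
          calc gs S u x * (deriv Real.smoothTransition ((n : ℝ) * sq S x - 1) ^ 2 *
              (4 * (n : ℝ) ^ 2 * sq S x)) =
              (gs S u x * (4 * (n : ℝ) ^ 2 * sq S x)) *
                deriv Real.smoothTransition ((n : ℝ) * sq S x - 1) ^ 2 := by ring
            _ ≤ 16 * ((S.card : ℝ) * K ^ 2) * D ^ 2 :=
              mul_le_mul h8 h7 (sq_nonneg _) (by positivity)
      have h6 : f2_chi S n x ^ 2 ≤ 1 := by
        have := f2_chi_nonneg S n x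
        have := f2_chi_le_one S n x
        nlinarith
      have h7 : 0 ≤ gs S u x * gd ξ ξ x := mul_nonneg hg0 (gd_self_nonneg _ x)
      calc gs S u x * gd (fun y => f2_chi S n y * ξ y) (fun y => f2_chi S n y * ξ y) x ≤
          gs S u x * (2 * (ξ x ^ 2 * gd (f2_chi S n) (f2_chi S n) x) +
            2 * (f2_chi S n x ^ 2 * gd ξ ξ x)) := mul_le_mul_of_nonneg_left h4 hg0
        _ = 2 * ξ x ^ 2 * (gs S u x * gd (f2_chi S n) (f2_chi S n) x) +
            2 * f2_chi S n x ^ 2 * (gs S u x * gd ξ ξ x) := by ring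
        _ ≤ 2 * ξ x ^ 2 * (16 * ((S.card : ℝ) * K ^ 2) * D ^ 2) +
            2 * 1 * (gs S u x * gd ξ ξ x) := by
              refine add_le_add ?_ ?_
              · exact mul_le_mul_of_nonneg_left h5 (by positivity)
              · exact mul_le_mul_of_nonneg_right (by linarith) h7
        _ = 32 * ((S.card : ℝ) * K ^ 2) * D ^ 2 * ξ x ^ 2 + 2 * (gs S u x * gd ξ ξ x) := by
              ring
    · filter_upwards with x
      rcases (hsqn x).eq_or_lt with h0 | h0
      · have h4 : gs S u x = 0 := by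
          have h5 := gs_le hu hrot hS x
          rw [← h0, mul_zero] at h5
          exact le_antisymm h5 (f2_gs_nonneg S u x)
        simp only [h4, zero_mul]
        exact tendsto_const_nhds
      · refine tendsto_const_nhds.congr' ?_
        filter_upwards [f2_eventually S h0] with n hn
        congr 1
        have h5 : (fun y => f2_chi S n y * ξ y) =ᶠ[𝓝 x] ξ := by
          filter_upwards [hn] with y hy
          rw [hy, one_mul]
        unfold gd
        exact Finset.sum_congr rfl fun l _ => by rw [f1_pd_congr h5 l]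
  exact le_of_tendsto_of_tendsto' (h2.const_mul _) h3 h1

end Pool.Agent.Helper68.DG
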