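import Pool.Agent.Helper68.DG.Base
import Pool.Agent.Helper68.DG.C1
import Pool.Agent.Helper68.DG.C2
import Pool.Agent.Helper68.DG.F2

/-! Project DG (MP_800410_an), piece F3: the rotation inequality with a weight -/

open MeasureTheory Metric Set Filter Topology
open scoped ContDiff

namespace Pool.Agent.Helper68.DG

variable {ι : Type} [Fintype ι]

/-- the weight which is small near the subspace of the coordinates in `S` -/
noncomputable def wtS [DecidableEq ι] (S : Finset ι) (x : V ι) : ℝ :=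
  (1 + ∑ i ∈ Sᶜ, x i ^ 2) / Real.exp (lg x) ^ 2

private theorem f3_cont_gs {u : V ι → ℝ} (hu : ContDiff ℝ 1 u) (S : Finset ι) :
    Continuous (gs S u) := by
  unfold gs
  exact continuous_finsetSum _ fun i _ => (continuous_pd hu i).pow 2

private theorem f3_cont_sq (S : Finset ι) : Continuous (sq S : V ι → ℝ) := by
  unfold sq
  exact continuous_finsetSum _ fun i _ => by fun_prop

private theorem f3_cont_lg : Continuous (lg : V ι → ℝ) := (contDiff_lg (n := 0)).continuous

private theorem f3_cont_wtS [DecidableEq ι] (S : Finset ι) : Continuous (wtS S : V ι → ℝ) := by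
  unfold wtS
  have h1 : Continuous fun x : V ι => 1 + ∑ i ∈ Sᶜ, x i ^ 2 :=
    continuous_const.add (continuous_finsetSum _ fun i _ => by fun_prop)
  have h2 : Continuous fun x : V ι => Real.exp (lg x) ^ 2 :=
    (Real.continuous_exp.comp f3_cont_lg).pow 2
  exact h1.div h2 fun x => (pow_pos (Real.exp_pos _) 2).ne'

private theorem f3_gs_nonneg (S : Finset ι) (u : V ι → ℝ) (x : V ι) : 0 ≤ gs S u x :=
  Finset.sum_nonneg fun i _ => sq_nonneg _

/-- the splitting of `exp (lg x) ^ 2` -/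
private theorem f3_split [DecidableEq ι] (S : Finset ι) (x : V ι) :
    Real.exp (lg x) ^ 2 = 1 + sq S x + ∑ i ∈ Sᶜ, x i ^ 2 := by
  rw [exp_lg_sq, EuclideanSpace.norm_sq_eq]
  unfold sq
  have h := Finset.sum_add_sum_compl S fun i => x i ^ 2
  have h2 : ∑ i, ‖x i‖ ^ 2 = ∑ i, x i ^ 2 :=
    Finset.sum_congr rfl fun i _ => by rw [Real.norm_eq_abs, sq_abs]
  rw [h2, ← h]
  ring

/-- the algebraic inequality -/
private theorem f3_alg {k q m β2 g : ℝ} (hk : 2 ≤ k) (hq : 0 < q) (hs : 0 ≤ m)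
    (hβ : β2 ≤ k - 1) (hg : 0 ≤ g) :
    g / (1 + q + m) * ((1 + m) / (1 + q + m)) + β2 * (g / (1 + q + m)) ≤
      (k - 1) * (g / q) := by
  have hE : 0 < 1 + q + m := by linarith
  have h1 : (k - 1) * (g / q) - (g / (1 + q + m) * ((1 + m) / (1 + q + m)) +
      β2 * (g / (1 + q + m))) =
      g * (((k - 1) * (1 + q + m) ^ 2 - q * (1 + m) - β2 * q * (1 + q + m)) /
        (q * (1 + q + m) ^ 2)) := by
    field_simp
    ring
  have h2 : 0 ≤ (k - 1) * (1 + q + m) ^ 2 - q * (1 + m) - β2 * q * (1 + q + m) := by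
    have h3 : β2 * q * (1 + q + m) ≤ (k - 1) * q * (1 + q + m) := by
      apply mul_le_mul_of_nonneg_right _ hE.le
      exact mul_le_mul_of_nonneg_right hβ hq.le
    have h4 : q * (1 + m) ≤ (k - 1) * (1 + m) * (1 + q + m) := by
      have h5 : (1 + m) * q ≤ (1 + m) * (1 + q + m) :=
        mul_le_mul_of_nonneg_left (by linarith) (by linarith)
      have h6 : 0 ≤ (1 + m) * (1 + q + m) := by positivity
      nlinarith
    nlinarith
  have h7 : 0 ≤ g * (((k - 1) * (1 + q + m) ^ 2 - q * (1 + m) - β2 * q * (1 + q + m)) /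
        (q * (1 + q + m) ^ 2)) := by positivity
  linarith

/-- Proof. Apply `b1` to `ξ x = exp (- β lg x) * cut T x`. By `norm_fderiv_lg_le` and `cut_facts`
`‖fderiv ξ x‖ ≤ exp (- (β + 1) lg x) (β cut T x + C₀ / T)` on `shell T 1 ∅` and
`≤ exp (- (β + 1) lg x) β cut T x` outside. So
`gd ξ ξ ≤ β ^ 2 exp (- (2 β + 2) lg x) cut T x ^ 2 + (C₁ / T) exp (- (2 β + 2) lg x)`, the last term
only on the shell (`cut T ≤ 1`, `T ≥ 1`). Hence with `k = |S|`, `E = exp (lg x)`, `q = sq S x`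
`∫ gs ((k - 1) / q - β ^ 2 / E ^ 2) E ^ (- 2 β) cut T ^ 2 ≤ (C₁ / T) ∫_shell gs E ^ (- 2 β - 2)`.
Where `q ≠ 0`, `(k - 1) / q - β ^ 2 / E ^ 2 ≥ (k - 1) (1 / q - 1 / E ^ 2)`
`= (k - 1) (E ^ 2 - q) / (q E ^ 2) ≥ (1 + ∑ i ∈ Sᶜ, x i ^ 2) / E ^ 4`, since
`E ^ 2 = 1 + ‖x‖ ^ 2 = 1 + q + ∑ i ∈ Sᶜ, x i ^ 2`, `q ≤ E ^ 2`, `k ≥ 2`. Where `q = 0` one has
`gs S u x = 0` (`gs_le`). -/
theorem b1_cut [DecidableEq ι] {K : ℝ} {u : V ι → ℝ} {S : Finset ι} (hu : GS K u)
    (hst : Stab u) (hrot : RotInv S u) (hS : 2 ≤ S.card) {β : ℝ} (hβ : 0 ≤ β)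
    (hβS : β ^ 2 ≤ (S.card : ℝ) - 1) : ∃ C : ℝ, 0 ≤ C ∧ ∀ T : ℝ, 1 ≤ T →
      ∫ x, gs S u x * Real.exp (-(2 * β + 2) * lg x) * wtS S x * cut T x ^ 2 ≤
        C / T * ∫ x in shell T 1 ∅, gs S u x * Real.exp (-(2 * β + 2) * lg x) := by
  obtain ⟨C₀, hC₀, hcut⟩ := cut_facts (ι := ι)
  refine ⟨2 * β * C₀ + C₀ ^ 2, by positivity, ?_⟩
  intro T hT
  obtain ⟨hT1, h01, -, -, hgrad, hout⟩ := hcut T hT
  have hTpos : 0 < T := by linarith
  have hkS : (2 : ℝ) ≤ S.card := by exact_mod_cast hS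
  have hlgd : Differentiable ℝ (lg : V ι → ℝ) :=
    (contDiff_lg (n := 1)).differentiable one_ne_zero
  have hexpC : ContDiff ℝ 1 fun x : V ι => Real.exp (-β * lg x) :=
    (contDiff_const.mul contDiff_lg).exp
  set ξ : V ι → ℝ := fun x => Real.exp (-β * lg x) * cut T x with hξdef
  have hξ : T1 ξ := T1.mul hexpC hT1
  have hb := b1 hu hst hrot hS hξ
  set E2 : V ι → ℝ := fun x => Real.exp (-(2 * β + 2) * lg x) with hE2
  have hE2c : Continuous E2 := Real.continuous_exp.comp (continuous_const.mul f3_cont_lg)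
  have hgsc := f3_cont_gs hu.C1 S
  have hsqc := f3_cont_sq (ι := ι) S
  -- the bound for the gradient
  have hfd : ∀ x, ‖fderiv ℝ ξ x‖ ≤ Real.exp (-β * lg x) * ‖fderiv ℝ (cut T) x‖ +
      cut T x * (Real.exp (-β * lg x) * (β * Real.exp (-lg x))) := by
    intro x
    have h1 : HasFDerivAt (fun x : V ι => Real.exp (-β * lg x))
        (Real.exp (-β * lg x) • (-β • fderiv ℝ lg x)) x :=
      (((hlgd x).hasFDerivAt).const_mul (-β)).exp
    have h2 : HasFDerivAt (cut T) (fderiv ℝ (cut T) x) x :=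
      ((hT1.1.differentiable one_ne_zero) x).hasFDerivAt
    have h3 : fderiv ℝ ξ x = Real.exp (-β * lg x) • fderiv ℝ (cut T) x +
        cut T x • (Real.exp (-β * lg x) • (-β • fderiv ℝ lg x)) := (h1.mul h2).fderiv
    rw [h3]
    refine (norm_add_le _ _).trans ?_
    rw [norm_smul, norm_smul, norm_smul, norm_smul, Real.norm_eq_abs, Real.norm_eq_abs,
      Real.norm_eq_abs, abs_of_pos (Real.exp_pos _), abs_of_nonneg (h01 x).1, abs_neg,
      abs_of_nonneg hβ]
    have h4 := norm_fderiv_lg_le x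
    have h5 : cut T x * (Real.exp (-β * lg x) * (β * ‖fderiv ℝ lg x‖)) ≤
        cut T x * (Real.exp (-β * lg x) * (β * Real.exp (-lg x))) := by
      apply mul_le_mul_of_nonneg_left _ (h01 x).1
      apply mul_le_mul_of_nonneg_left _ (Real.exp_pos _).le
      exact mul_le_mul_of_nonneg_left h4 hβ
    linarith
  have hEE : ∀ x : V ι, (Real.exp (-β * lg x) * Real.exp (-lg x)) ^ 2 = E2 x := by
    intro x
    rw [← Real.exp_add, ← Real.exp_nat_mul, hE2]
    congr 1
    push_cast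
    ring
  have hE2pos : ∀ x, 0 < E2 x := fun x => Real.exp_pos _
  have hgd : ∀ x, gd ξ ξ x ≤ β ^ 2 * (E2 x * cut T x ^ 2) +
      (shell T 1 ∅).indicator (fun x => (2 * β * C₀ + C₀ ^ 2) / T * E2 x) x := by
    intro x
    rw [gd_self]
    have hc0 := (h01 x).1
    have hc1 := (h01 x).2
    by_cases hx : x ∈ shell T 1 ∅
    · rw [indicator_of_mem hx]
      have h1 : ‖fderiv ℝ ξ x‖ ≤ Real.exp (-β * lg x) * Real.exp (-lg x) *
          (C₀ / T + β * cut T x) := by
        refine (hfd x).trans ?_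
        have h2 := mul_le_mul_of_nonneg_left (hgrad x) (Real.exp_pos (-β * lg x)).le
        nlinarith
      have h3 : ‖fderiv ℝ ξ x‖ ^ 2 ≤ (Real.exp (-β * lg x) * Real.exp (-lg x) *
          (C₀ / T + β * cut T x)) ^ 2 := pow_le_pow_left₀ (norm_nonneg _) h1 2
      rw [mul_pow, hEE] at h3
      have h4 : (C₀ / T + β * cut T x) ^ 2 ≤
          β ^ 2 * cut T x ^ 2 + (2 * β * C₀ + C₀ ^ 2) / T := by
        have h5 : C₀ / T * (C₀ / T) ≤ C₀ ^ 2 / T := by
          rw [div_mul_div_comm, div_le_div_iff₀ (by positivity) hTpos]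
          have : C₀ * C₀ * T ≤ C₀ * C₀ * T * T := by
            have : 0 ≤ C₀ * C₀ * T := by positivity
            nlinarith
          nlinarith
        have h6 : 2 * (C₀ / T) * (β * cut T x) ≤ 2 * β * C₀ / T := by
          have h7 : C₀ / T * β * cut T x ≤ C₀ / T * β * 1 :=
            mul_le_mul_of_nonneg_left hc1 (by positivity)
          have h8 : 2 * β * C₀ / T = 2 * (C₀ / T * β * 1) := by ring
          rw [h8]
          linarith
        have h9 : (2 * β * C₀ + C₀ ^ 2) / T = 2 * β * C₀ / T + C₀ ^ 2 / T := by ring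
        rw [h9]
        nlinarith
      have h10 := mul_le_mul_of_nonneg_left h4 (hE2pos x).le
      calc ‖fderiv ℝ ξ x‖ ^ 2 ≤ E2 x * (C₀ / T + β * cut T x) ^ 2 := h3
        _ ≤ E2 x * (β ^ 2 * cut T x ^ 2 + (2 * β * C₀ + C₀ ^ 2) / T) := h10
        _ = _ := by ring
    · rw [indicator_of_notMem hx, add_zero]
      have h1 := hfd x
      rw [hout x hx, norm_zero, mul_zero, zero_add] at h1
      have h3 := pow_le_pow_left₀ (norm_nonneg _) h1 2
      calc ‖fderiv ℝ ξ x‖ ^ 2 ≤ _ := h3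
        _ = β ^ 2 * ((Real.exp (-β * lg x) * Real.exp (-lg x)) ^ 2 * cut T x ^ 2) := by ring
        _ = _ := by rw [hEE]
  -- the pointwise algebraic bound
  have hpt : ∀ x, gs S u x * E2 x * wtS S x * cut T x ^ 2 +
      β ^ 2 * (gs S u x * E2 x * cut T x ^ 2) ≤
      ((S.card : ℝ) - 1) * (gs S u x / sq S x * ξ x ^ 2) := by
    intro x
    have hsq0 : 0 ≤ sq S x := Finset.sum_nonneg fun i _ => sq_nonneg _
    have hg0 := f3_gs_nonneg S u x
    rcases hsq0.eq_or_lt with h0 | hpos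
    · have h1 := gs_le hu hrot hS x
      rw [← h0, mul_zero] at h1
      have h2 : gs S u x = 0 := le_antisymm h1 hg0
      rw [h2]
      simp
    · have hsum : (0 : ℝ) ≤ ∑ i ∈ Sᶜ, x i ^ 2 := Finset.sum_nonneg fun i _ => sq_nonneg _
      have h1 := f3_alg (k := (S.card : ℝ)) (q := sq S x) (m := ∑ i ∈ Sᶜ, x i ^ 2)
        (β2 := β ^ 2) (g := gs S u x) hkS hpos hsum hβS hg0
      rw [← f3_split S x] at h1
      have h2 : E2 x = Real.exp (-β * lg x) ^ 2 / Real.exp (lg x) ^ 2 := by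
        rw [← hEE, mul_pow, Real.exp_neg (lg x), inv_pow, div_eq_mul_inv]
      have h3 : 0 ≤ Real.exp (-β * lg x) ^ 2 * cut T x ^ 2 := by positivity
      have h4 := mul_le_mul_of_nonneg_right h1 h3
      have h5 : ξ x ^ 2 = Real.exp (-β * lg x) ^ 2 * cut T x ^ 2 := by
        rw [hξdef]; ring
      rw [h5, h2]
      unfold wtS
      refine le_trans (le_of_eq ?_) (h4.trans (le_of_eq ?_))
      · ring
      · ring
  -- integrability
  have hcutc : Continuous (cut T : V ι → ℝ) := hT1.continuous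
  have hi1 : Integrable fun x => gs S u x * E2 x * wtS S x * cut T x ^ 2 := by
    apply integrable_cs
    · exact ((hgsc.mul hE2c).mul (f3_cont_wtS S)).mul (hcutc.pow 2)
    · have : HasCompactSupport fun x : V ι => cut T x ^ 2 :=
        hT1.2.comp_left (g := fun t : ℝ => t ^ 2) (by simp)
      exact this.mul_left
  have hi2 : Integrable fun x => β ^ 2 * (gs S u x * E2 x * cut T x ^ 2) := by
    apply Integrable.const_mul
    apply integrable_cs
    · exact (hgsc.mul hE2c).mul (hcutc.pow 2)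
    · have : HasCompactSupport fun x : V ι => cut T x ^ 2 :=
        hT1.2.comp_left (g := fun t : ℝ => t ^ 2) (by simp)
      exact this.mul_left
  have hξ2 : Integrable fun x => ξ x ^ 2 := by
    apply integrable_cs (hξ.continuous.pow 2)
    exact hξ.2.comp_left (g := fun t : ℝ => t ^ 2) (by simp)
  have hi3 : Integrable fun x => gs S u x / sq S x * ξ x ^ 2 := by
    refine Integrable.mono' (hξ2.const_mul (S.card * K ^ 2)) ?_ ?_
    · apply Measurable.aestronglyMeasurable
      exact (hgsc.measurable.div hsqc.measurable).mul (hξ.continuous.pow 2).measurable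
    · refine Filter.Eventually.of_forall fun x => ?_
      have hsq0 : 0 ≤ sq S x := Finset.sum_nonneg fun i _ => sq_nonneg _
      rw [Real.norm_eq_abs, abs_of_nonneg (mul_nonneg (div_nonneg (f3_gs_nonneg S u x) hsq0)
        (sq_nonneg _))]
      apply mul_le_mul_of_nonneg_right _ (sq_nonneg _)
      rcases hsq0.eq_or_lt with h0 | hpos
      · rw [← h0, div_zero]; positivity
      · rw [div_le_iff₀ hpos]; exact gs_le hu hrot hS x
  have hms : MeasurableSet (shell T 1 (∅ : Finset ι)) := (isCompact_shell T 1 ∅).measurableSet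
  have hi5 : IntegrableOn (fun x => gs S u x * E2 x) (shell T 1 ∅) :=
    (hgsc.mul hE2c).continuousOn.integrableOn_compact (isCompact_shell T 1 ∅)
  have hi6 : Integrable ((shell T 1 ∅).indicator
      fun x => (2 * β * C₀ + C₀ ^ 2) / T * (gs S u x * E2 x)) :=
    (integrable_indicator_iff hms).2 (hi5.const_mul _)
  have hi7 : Integrable fun x => gs S u x * gd ξ ξ x :=
    integrable_cs (hgsc.mul (continuous_gd hξ.1 hξ.1)) (hasCompactSupport_gd hξ.2).mul_left
  -- conclusion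
  have hA : ∫ x, gs S u x * E2 x * wtS S x * cut T x ^ 2 +
      β ^ 2 * (gs S u x * E2 x * cut T x ^ 2) ≤
      ((S.card : ℝ) - 1) * ∫ x, gs S u x / sq S x * ξ x ^ 2 := by
    rw [← integral_const_mul]
    exact integral_mono (hi1.add hi2) (hi3.const_mul _) hpt
  have hB : ∫ x, gs S u x * gd ξ ξ x ≤ ∫ x, (β ^ 2 * (gs S u x * E2 x * cut T x ^ 2) +
      (shell T 1 ∅).indicator (fun x => (2 * β * C₀ + C₀ ^ 2) / T * (gs S u x * E2 x)) x) := by
    apply integral_mono hi7 (hi2.add hi6)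
    intro x
    have h1 := mul_le_mul_of_nonneg_left (hgd x) (f3_gs_nonneg S u x)
    refine h1.trans (le_of_eq ?_)
    rw [Pi.add_apply]
    by_cases hx : x ∈ shell T 1 ∅
    · rw [indicator_of_mem hx, indicator_of_mem hx]; ring
    · rw [indicator_of_notMem hx, indicator_of_notMem hx]; ring
  rw [integral_add hi1 hi2, integral_const_mul] at hA
  rw [integral_add hi2 hi6, integral_indicator hms, integral_const_mul, integral_const_mul] at hB
  have hgoal : ∫ x, gs S u x * E2 x * wtS S x * cut T x ^ 2 ≤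
      (2 * β * C₀ + C₀ ^ 2) / T * ∫ x in shell T 1 ∅, gs S u x * E2 x := by
    linarith
  exact hgoal

end Pool.Agent.Helper68.DG
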