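import Pool.Agent.Helper68.DG.Base
import Pool.Agent.Helper68.DG.C1
import Pool.Agent.Helper68.DG.C2
import Pool.Agent.Helper68.DG.F3

/-! Project DG (MP_800410_an), piece F4: the conclusion from the weighted inequality -/

open MeasureTheory Metric Set Filter Topology
open scoped ContDiff

namespace Pool.Agent.Helper68.DG

variable {ι : Type} [Fintype ι]

theorem f4_wtS_nonneg [DecidableEq ι] (S : Finset ι) (x : V ι) : 0 < wtS S x := by
  unfold wtS
  have h : 0 ≤ ∑ i ∈ Sᶜ, x i ^ 2 := Finset.sum_nonneg fun i _ => sq_nonneg _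
  positivity

theorem f4_continuous_lg : Continuous (lg : V ι → ℝ) := (contDiff_lg (n := 0)).continuous

theorem f4_continuous_wtS [DecidableEq ι] (S : Finset ι) : Continuous (wtS S : V ι → ℝ) := by
  unfold wtS
  have h : Continuous (lg : V ι → ℝ) := f4_continuous_lg
  refine Continuous.div ?_ ?_ ?_
  · fun_prop
  · fun_prop
  · intro x; positivity

theorem f4_wtS_ge [DecidableEq ι] (S : Finset ι) {δ : ℝ} (hδ : 0 < δ) (x : V ι) {i : ι}
    (hi : i ∈ Sᶜ) (h : δ * Real.exp (lg x) < |x i|) : δ ^ 2 ≤ wtS S x := by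
  unfold wtS
  rw [le_div_iff₀ (by positivity)]
  have h1 : x i ^ 2 ≤ ∑ j ∈ Sᶜ, x j ^ 2 :=
    Finset.single_le_sum (f := fun j => x j ^ 2) (fun j _ => sq_nonneg _) hi
  have h2 : (δ * Real.exp (lg x)) ^ 2 ≤ |x i| ^ 2 :=
    pow_le_pow_left₀ (by positivity) h.le 2
  rw [sq_abs, mul_pow] at h2
  linarith

theorem f4_shell_sub (T δ : ℝ) (J : Finset ι) : (shell T δ J : Set (V ι)) ⊆ {x | lg x ≤ 2 * T} :=
  fun _ hx => hx.2.1

theorem f4_measurable_shell (T δ : ℝ) (J : Finset ι) : MeasurableSet (shell T δ J : Set (V ι)) := by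
  have h : Continuous (lg : V ι → ℝ) := f4_continuous_lg
  have h1 : IsClosed (shell T δ J : Set (V ι)) := by
    have : (shell T δ J : Set (V ι)) = {x | T ≤ lg x} ∩ ({x | lg x ≤ 2 * T} ∩
        ⋂ i ∈ J, {x : V ι | |x i| ≤ δ * Real.exp (lg x)}) := by
      ext x
      simp [shell]
    rw [this]
    refine (isClosed_le continuous_const h).inter ((isClosed_le h continuous_const).inter ?_)
    refine isClosed_biInter fun i _ => isClosed_le ?_ ?_
    · fun_prop
    · fun_prop
  exact h1.measurableSet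

theorem f4_intOn {G : V ι → ℝ} (hG : Continuous G) (T δ : ℝ) (J : Finset ι) :
    IntegrableOn G (shell T δ J) :=
  (hG.continuousOn.integrableOn_compact (isCompact_lg_le (2 * T))).mono_set (f4_shell_sub T δ J)

/-- Proof. Put `p x = exp (- d lg x) * wtS S x > 0`, a continuous function. By `H1` and `H3`,
`∫ a p cut T ^ 2 ≤ C ^ 2` for `T ≥ 2`; as `cut T = 1` where `lg x ≤ T`, the function `a p` is integrable,
and `∫ a p ≤ C ^ 2`. Let `ε > 0`, and take `δ`, `T₀` from `H2`. If `x ∈ shell T 1 ∅` is not in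
`shell T δ Sᶜ`, there is an `i ∈ Sᶜ` with `δ exp (lg x) < |x i|`, so `wtS S x ≥ δ ^ 2` and
`a x exp (- d lg x) ≤ δ⁻² a x p x`. Hence for `T ≥ max T₀ 2`
`∫ a p cut T ^ 2 ≤ (C / T) (ε T + δ⁻² C ^ 2)`, and for `T → ∞` we get `∫ a p ≤ C ε`. So
`∫ a p = 0`, and as `a p ≥ 0` is continuous, `a p = 0`. -/
theorem wlemma [DecidableEq ι] {a : V ι → ℝ} (ha : Continuous a) (ha0 : ∀ x, 0 ≤ a x) (d : ℝ)
    (S : Finset ι) {C : ℝ} (hC : 0 ≤ C)
    (H1 : ∀ T : ℝ, 1 ≤ T → ∫ x, a x * Real.exp (-d * lg x) * wtS S x * cut T x ^ 2 ≤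
      C / T * ∫ x in shell T 1 ∅, a x * Real.exp (-d * lg x))
    (H2 : ∀ ε : ℝ, 0 < ε → ∃ δ : ℝ, 0 < δ ∧ ∃ T₀ : ℝ, ∀ T : ℝ, T₀ ≤ T →
      ∫ x in shell T δ Sᶜ, a x * Real.exp (-d * lg x) ≤ ε * T)
    (H3 : ∀ T : ℝ, 2 ≤ T → ∫ x in shell T 1 ∅, a x * Real.exp (-d * lg x) ≤ C * T)
    (x : V ι) : a x = 0 := by
  classical
  have hlg : Continuous (lg : V ι → ℝ) := f4_continuous_lg
  have hw : Continuous (wtS S : V ι → ℝ) := f4_continuous_wtS S
  set G : V ι → ℝ := fun x => a x * Real.exp (-d * lg x) with hG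
  have hGc : Continuous G := by rw [hG]; fun_prop
  have hG0 : ∀ x, 0 ≤ G x := fun x => mul_nonneg (ha0 x) (Real.exp_pos _).le
  set f : V ι → ℝ := fun x => G x * wtS S x with hf
  have hfc : Continuous f := hGc.mul hw
  have hf0 : ∀ x, 0 ≤ f x := fun x => mul_nonneg (hG0 x) (f4_wtS_nonneg S x).le
  obtain ⟨C₀, -, hcut⟩ := cut_facts (ι := ι)
  -- the integral over the sublevel set
  have key : ∀ T : ℝ, 1 ≤ T → ∫ x in {x : V ι | lg x ≤ T}, f x ≤
      C / T * ∫ x in shell T 1 ∅, G x := by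
    intro T hT
    obtain ⟨hT1, h01, h1, -, -, -⟩ := hcut T hT
    refine le_trans ?_ (H1 T hT)
    have hm : MeasurableSet {x : V ι | lg x ≤ T} := (isCompact_lg_le T).measurableSet
    rw [← integral_indicator hm]
    have hcutc : Continuous (cut T : V ι → ℝ) := hT1.continuous
    have hi2 : Integrable (fun x : V ι => f x * cut T x ^ 2) := by
      refine integrable_cs (hfc.mul (hcutc.pow 2)) ?_
      have h2 : HasCompactSupport (fun x : V ι => cut T x ^ 2) :=
        hT1.cs.comp_left (g := fun t : ℝ => t ^ 2) (by norm_num)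
      exact h2.mul_left
    refine integral_mono ?_ hi2 ?_
    · exact (hfc.continuousOn.integrableOn_compact (isCompact_lg_le T)).integrable_indicator hm
    · intro x
      by_cases hx : lg x ≤ T
      · have h9 : ({x : V ι | lg x ≤ T}).indicator f x = f x :=
          indicator_of_mem (s := {x : V ι | lg x ≤ T}) hx f
        show ({x : V ι | lg x ≤ T}).indicator f x ≤ f x * cut T x ^ 2
        rw [h9, h1 x hx, one_pow, mul_one]
      · have h9 : ({x : V ι | lg x ≤ T}).indicator f x = 0 :=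
          indicator_of_notMem (s := {x : V ι | lg x ≤ T}) hx f
        show ({x : V ι | lg x ≤ T}).indicator f x ≤ f x * cut T x ^ 2
        rw [h9]
        exact mul_nonneg (hf0 x) (sq_nonneg _)
  have hcov : AECover (volume : Measure (V ι)) atTop (fun n : ℕ => {x : V ι | lg x ≤ (n : ℝ)}) := by
    refine ⟨?_, fun n => (isCompact_lg_le _).measurableSet⟩
    filter_upwards with x
    filter_upwards [eventually_ge_atTop ⌈lg x⌉₊] with n hn
    exact (Nat.le_ceil _).trans (by exact_mod_cast hn)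
  have hint : Integrable f := by
    refine hcov.integrable_of_integral_bounded_of_nonneg_ae (C * C) ?_ ?_ ?_
    · intro n
      exact hfc.continuousOn.integrableOn_compact (isCompact_lg_le _)
    · filter_upwards with x using hf0 x
    · filter_upwards [eventually_ge_atTop 2] with n hn
      have hn' : (2 : ℝ) ≤ (n : ℝ) := by exact_mod_cast hn
      refine (key n (by linarith)).trans ?_
      have h3 := H3 n hn'
      have h4 : C / (n : ℝ) * ∫ x in shell (n : ℝ) 1 ∅, G x ≤ C / (n : ℝ) * (C * n) :=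
        mul_le_mul_of_nonneg_left h3 (by positivity)
      refine h4.trans (le_of_eq ?_)
      have : (n : ℝ) ≠ 0 := by linarith
      field_simp
  have hlim := hcov.integral_tendsto_of_countably_generated hint
  set I := ∫ x, f x with hI
  have hI0 : 0 ≤ I := integral_nonneg hf0
  -- smallness
  have hsmall : ∀ ε : ℝ, 0 < ε → I ≤ C * ε := by
    intro ε hε
    obtain ⟨δ, hδ, T₀, hT₀⟩ := H2 ε hε
    have hb : ∀ T : ℝ, 1 ≤ T → T₀ ≤ T → ∫ x in {x : V ι | lg x ≤ T}, f x ≤
        C * ε + C * (δ ^ 2)⁻¹ * I * T⁻¹ := by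
      intro T hT1 hT2
      refine (key T hT1).trans ?_
      have hdec := integral_inter_add_sdiff (μ := volume) (s := (shell T 1 ∅ : Set (V ι)))
        (f4_measurable_shell T δ Sᶜ) (f4_intOn hGc T 1 ∅)
      have hinter : (shell T 1 ∅ : Set (V ι)) ∩ shell T δ Sᶜ = shell T δ Sᶜ := by
        apply inter_eq_right.2
        intro x hx
        exact ⟨hx.1, hx.2.1, fun i hi => by simp at hi⟩
      rw [hinter] at hdec
      have hdiff : ∫ x in (shell T 1 ∅ : Set (V ι)) \ shell T δ Sᶜ, G x ≤ (δ ^ 2)⁻¹ * I := by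
        have hms : MeasurableSet ((shell T 1 ∅ : Set (V ι)) \ shell T δ Sᶜ) :=
          (f4_measurable_shell T 1 ∅).diff (f4_measurable_shell T δ Sᶜ)
        calc ∫ x in (shell T 1 ∅ : Set (V ι)) \ shell T δ Sᶜ, G x
            ≤ ∫ x in (shell T 1 ∅ : Set (V ι)) \ shell T δ Sᶜ, (δ ^ 2)⁻¹ * f x := by
              refine setIntegral_mono_on ((f4_intOn hGc T 1 ∅).mono_set sdiff_subset)
                ((hint.const_mul _).integrableOn) hms ?_
              rintro x ⟨hx1, hx2⟩
              have : ∃ i ∈ Sᶜ, δ * Real.exp (lg x) < |x i| := by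
                by_contra hcon
                push Not at hcon
                exact hx2 ⟨hx1.1, hx1.2.1, hcon⟩
              obtain ⟨i, hi, hlt⟩ := this
              have hge := f4_wtS_ge S hδ x hi hlt
              have h5 : G x * δ ^ 2 ≤ G x * wtS S x := mul_le_mul_of_nonneg_left hge (hG0 x)
              have h6 : 0 < δ ^ 2 := by positivity
              rw [hf, inv_mul_eq_div, le_div_iff₀ h6]
              exact h5
          _ ≤ ∫ x, (δ ^ 2)⁻¹ * f x := by
              refine setIntegral_le_integral (hint.const_mul _) ?_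
              filter_upwards with x
              exact mul_nonneg (by positivity) (hf0 x)
          _ = (δ ^ 2)⁻¹ * I := by rw [integral_const_mul]
      have hA := hT₀ T hT2
      have hB : ∫ x in shell T 1 ∅, G x ≤ ε * T + (δ ^ 2)⁻¹ * I := by
        rw [← hdec]
        exact add_le_add hA hdiff
      have hT0 : 0 < T := by linarith
      refine (mul_le_mul_of_nonneg_left hB (by positivity)).trans (le_of_eq ?_)
      field_simp
    have hl2 : Tendsto (fun n : ℕ => C * ε + C * (δ ^ 2)⁻¹ * I * (n : ℝ)⁻¹) atTop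
        (𝓝 (C * ε + C * (δ ^ 2)⁻¹ * I * 0)) :=
      (tendsto_inv_atTop_nhds_zero_nat.const_mul _).const_add _
    rw [mul_zero, add_zero] at hl2
    refine le_of_tendsto_of_tendsto hlim hl2 ?_
    filter_upwards [eventually_ge_atTop (max 1 ⌈T₀⌉₊)] with n hn
    refine hb n ?_ ?_
    · exact_mod_cast (le_max_left _ _).trans hn
    · exact (Nat.le_ceil _).trans (by exact_mod_cast (le_max_right _ _).trans hn)
  have hIz : I = 0 := by
    refine le_antisymm ?_ hI0
    refine le_of_forall_pos_le_add fun η hη => ?_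
    have h := hsmall (η / (C + 1)) (by positivity)
    refine h.trans ?_
    rw [zero_add, mul_div_assoc', div_le_iff₀ (by positivity)]
    nlinarith
  have hae : f =ᵐ[volume] 0 := (integral_eq_zero_iff_of_nonneg hf0 hint).1 hIz
  have hfz : f = 0 := (Continuous.ae_eq_iff_eq volume hfc continuous_const).1 hae
  have hx : f x = 0 := by rw [hfz]; rfl
  have hp : 0 < Real.exp (-d * lg x) := Real.exp_pos _
  have hw0 := f4_wtS_nonneg S x
  have h7 : a x * Real.exp (-d * lg x) * wtS S x = 0 := hx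
  rcases mul_eq_zero.1 h7 with h8 | h8
  · rcases mul_eq_zero.1 h8 with h9 | h9
    · exact h9
    · exact absurd h9 hp.ne'
  · exact absurd h8 hw0.ne'

end Pool.Agent.Helper68.DG
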