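import Pool.Agent.Helper68.DG.Base
import Pool.Agent.Helper68.DG.C2
import Pool.Agent.Helper68.DG.F3
import Pool.Agent.Helper68.DG.F4

/-! Project DG (MP_800410_an), piece F5: rotations: stable solutions -/

open MeasureTheory Metric Set Filter Topology
open scoped ContDiff

namespace Pool.Agent.Helper68.DG

variable {ι : Type} [Fintype ι]

theorem f5_gs_cont {K : ℝ} {v : V ι → ℝ} (hv : GS K v) (S : Finset ι) :
    Continuous (gs S v) := by
  unfold gs
  exact continuous_finsetSum _ fun i _ => (continuous_pd hv.C1 i).pow 2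

theorem f5_gs_nonneg (S : Finset ι) (v : V ι → ℝ) (x : V ι) : 0 ≤ gs S v x :=
  Finset.sum_nonneg fun _ _ => sq_nonneg _

theorem f5_gs_le {K : ℝ} {v : V ι → ℝ} (hv : GS K v) (S : Finset ι) (x : V ι) :
    gs S v x ≤ K ^ 2 := by
  have h1 : gs S v x ≤ ‖fderiv ℝ v x‖ ^ 2 := by
    rw [norm_clm_sq]
    exact Finset.sum_le_sum_of_subset_of_nonneg (Finset.subset_univ S) fun _ _ _ => sq_nonneg _
  exact h1.trans (pow_le_pow_left₀ (norm_nonneg _) (hv.bdd1 x) 2)

theorem f5_exp_cont (d : ℝ) : Continuous fun x : V ι => Real.exp (-d * lg x) :=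
  Real.continuous_exp.comp (continuous_const.mul (contDiff_lg (n := 0)).continuous)

theorem f5_int_nonneg (S : Finset ι) (v : V ι → ℝ) (d T δ : ℝ) (J : Finset ι) :
    0 ≤ ∫ x in shell T δ J, gs S v x * Real.exp (-d * lg x) :=
  setIntegral_nonneg (isCompact_shell T δ J).measurableSet fun x _ =>
    mul_nonneg (f5_gs_nonneg S v x) (Real.exp_pos _).le

theorem f5_int_le {K : ℝ} {v : V ι → ℝ} (hv : GS K v) (S : Finset ι) (d T δ : ℝ)
    (J : Finset ι) :
    ∫ x in shell T δ J, gs S v x * Real.exp (-d * lg x) ≤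
      K ^ 2 * ∫ x in shell T δ J, Real.exp (-d * lg x) := by
  rw [← integral_const_mul]
  refine setIntegral_mono_on ?_ ?_ (isCompact_shell T δ J).measurableSet ?_
  · exact ((f5_gs_cont hv S).mul (f5_exp_cont d)).continuousOn.integrableOn_compact
      (isCompact_shell T δ J)
  · exact (continuous_const.mul (f5_exp_cont d)).continuousOn.integrableOn_compact
      (isCompact_shell T δ J)
  · intro x _
    exact mul_le_mul_of_nonneg_right (f5_gs_le hv S x) (Real.exp_pos _).le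

/-- Proof. `n = card ι ≥ 3`, `β = (n - 2) / 2`, so `2 β + 2 = n =: d` and `β ^ 2 ≤ |S| - 1`. F4 for
`a = gs S v`, which is continuous and `≤ ‖fderiv v‖ ^ 2 ≤ K ^ 2`: `H1` is `b1_cut`, `H3` is `shell_vol`
with `J = ∅`, and for `δ ≤ 1` the integral in `H2` is at most
`K ^ 2 C δ ^ |Sᶜ| T ≤ K ^ 2 C δ T` (`shell_vol`, `|Sᶜ| = n - |S| ≥ 1`). Take the larger one of the
constants. So `gs S v = 0`. -/
theorem block_profile [DecidableEq ι] {K : ℝ} {v : V ι → ℝ} (hv : GS K v) (hst : Stab v)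
    {S : Finset ι} (hrot : RotInv S v) (hS : 2 ≤ S.card) (hcard : S.card < Fintype.card ι)
    (h : ((Fintype.card ι : ℝ) - 2) ^ 2 ≤ 4 * ((S.card : ℝ) - 1)) :
    ∀ i ∈ S, ∀ x, pd i v x = 0 := by
  have hn : (3 : ℝ) ≤ (Fintype.card ι : ℝ) := by
    have : 3 ≤ Fintype.card ι := by omega
    exact_mod_cast this
  set n : ℝ := (Fintype.card ι : ℝ) with hndef
  have hβ : 0 ≤ (n - 2) / 2 := by linarith
  have hβS : ((n - 2) / 2) ^ 2 ≤ (S.card : ℝ) - 1 := by
    have : ((n - 2) / 2) ^ 2 = (n - 2) ^ 2 / 4 := by ring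
    rw [this]
    linarith
  obtain ⟨C1, hC1, hb⟩ := b1_cut hv hst hrot hS hβ hβS
  obtain ⟨C2, hC2, hvol⟩ := shell_vol (ι := ι)
  have h2n : 2 * ((n - 2) / 2) + 2 = n := by ring
  rw [h2n] at hb
  have hKC : 0 ≤ K ^ 2 * C2 := mul_nonneg (sq_nonneg K) hC2
  have hcompl : 1 ≤ (Sᶜ : Finset ι).card := by
    rw [Finset.card_compl]
    omega
  have hz : ∀ x, gs S v x = 0 := by
    refine wlemma (f5_gs_cont hv S) (f5_gs_nonneg S v) n S (C := max C1 (K ^ 2 * C2))
      (hC1.trans (le_max_left _ _)) ?_ ?_ ?_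
    · intro T hT
      refine (hb T hT).trans ?_
      have hT0 : 0 < T := by linarith
      exact mul_le_mul_of_nonneg_right (div_le_div_of_nonneg_right (le_max_left _ _) hT0.le)
        (f5_int_nonneg S v n T 1 ∅)
    · intro ε hε
      have hden : 0 < K ^ 2 * C2 + 1 := by linarith
      refine ⟨min 1 (ε / (K ^ 2 * C2 + 1)), lt_min one_pos (div_pos hε hden), 1, ?_⟩
      intro T hT
      set δ : ℝ := min 1 (ε / (K ^ 2 * C2 + 1)) with hδ
      have hδ0 : 0 < δ := lt_min one_pos (div_pos hε hden)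
      have hδ1 : δ ≤ 1 := min_le_left _ _
      have hδ2 : (K ^ 2 * C2 + 1) * δ ≤ ε := by
        have h3 : δ ≤ ε / (K ^ 2 * C2 + 1) := min_le_right _ _
        rw [le_div_iff₀ hden] at h3
        linarith
      have hT0 : 0 ≤ T := by linarith
      have h4 := hvol T δ Sᶜ hT hδ0
      have h5 : δ ^ (Sᶜ : Finset ι).card ≤ δ := by
        calc δ ^ (Sᶜ : Finset ι).card ≤ δ ^ 1 := pow_le_pow_of_le_one hδ0.le hδ1 hcompl
          _ = δ := pow_one δ
      calc ∫ x in shell T δ Sᶜ, gs S v x * Real.exp (-n * lg x)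
          ≤ K ^ 2 * ∫ x in shell T δ Sᶜ, Real.exp (-n * lg x) := f5_int_le hv S n T δ Sᶜ
        _ ≤ K ^ 2 * (C2 * δ ^ (Sᶜ : Finset ι).card * T) :=
            mul_le_mul_of_nonneg_left h4 (sq_nonneg K)
        _ = (K ^ 2 * C2) * δ ^ (Sᶜ : Finset ι).card * T := by ring
        _ ≤ (K ^ 2 * C2) * δ * T :=
            mul_le_mul_of_nonneg_right (mul_le_mul_of_nonneg_left h5 hKC) hT0
        _ ≤ ((K ^ 2 * C2 + 1) * δ) * T := by
            apply mul_le_mul_of_nonneg_right _ hT0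
            exact mul_le_mul_of_nonneg_right (by linarith) hδ0.le
        _ ≤ ε * T := mul_le_mul_of_nonneg_right hδ2 hT0
    · intro T hT
      have hT0 : 0 ≤ T := by linarith
      have h4 := hvol T 1 ∅ (by linarith) one_pos
      calc ∫ x in shell T 1 ∅, gs S v x * Real.exp (-n * lg x)
          ≤ K ^ 2 * ∫ x in shell T 1 ∅, Real.exp (-n * lg x) := f5_int_le hv S n T 1 ∅
        _ ≤ K ^ 2 * (C2 * 1 ^ (∅ : Finset ι).card * T) :=
            mul_le_mul_of_nonneg_left h4 (sq_nonneg K)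
        _ = (K ^ 2 * C2) * T := by rw [one_pow]; ring
        _ ≤ max C1 (K ^ 2 * C2) * T := mul_le_mul_of_nonneg_right (le_max_right _ _) hT0
  intro i hi x
  have h6 := hz x
  unfold gs at h6
  have h7 := (Finset.sum_eq_zero_iff_of_nonneg fun j _ => sq_nonneg (pd j v x)).1 h6 i hi
  exact pow_eq_zero_iff two_ne_zero |>.1 h7

end Pool.Agent.Helper68.DG
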