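import Pool.Agent.Helper68.DG.Base
import Pool.Agent.Helper68.DG.C2
import Pool.Agent.Helper68.DG.D4b
import Pool.Agent.Helper68.DG.F3
import Pool.Agent.Helper68.DG.F4

/-! Project DG (MP_800410_an), piece F6: rotations: solutions with the energy estimate -/

open MeasureTheory Metric Set Filter Topology
open scoped ContDiff

namespace Pool.Agent.Helper68.DG

variable {ι : Type} [Fintype ι]

theorem f6_gs_nonneg (S : Finset ι) (u : V ι → ℝ) (x : V ι) : 0 ≤ gs S u x :=
  Finset.sum_nonneg fun _ _ => sq_nonneg _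

theorem f6_gs_le (S : Finset ι) (u : V ι → ℝ) (x : V ι) : gs S u x ≤ gd u u x := by
  unfold gs gd
  calc ∑ i ∈ S, pd i u x ^ 2 ≤ ∑ i, pd i u x ^ 2 :=
        Finset.sum_le_sum_of_subset_of_nonneg (Finset.subset_univ S) fun i _ _ => sq_nonneg _
    _ = ∑ i, pd i u x * pd i u x := Finset.sum_congr rfl fun i _ => pow_two _

theorem f6_continuous_gs {u : V ι → ℝ} (hu : ContDiff ℝ 1 u) (S : Finset ι) :
    Continuous (gs S u) := by
  unfold gs
  exact continuous_finsetSum _ fun i _ => (continuous_pd hu i).pow 2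

theorem f6_shell_mono {u : V ι → ℝ} (hu : ContDiff ℝ 1 u) (S : Finset ι) (d T δ : ℝ)
    (J : Finset ι) :
    ∫ x in shell T δ J, gs S u x * Real.exp (-d * lg x) ≤
      ∫ x in shell T δ J, gd u u x * Real.exp (-d * lg x) := by
  have hc := isCompact_shell (ι := ι) T δ J
  have hl : Continuous (lg : V ι → ℝ) := (contDiff_lg (n := 0)).continuous
  have he : Continuous fun x : V ι => Real.exp (-d * lg x) :=
    Real.continuous_exp.comp (continuous_const.mul hl)
  apply setIntegral_mono_on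
  · exact (((f6_continuous_gs hu S).mul he).continuousOn).integrableOn_compact hc
  · exact (((continuous_gd hu hu).mul he).continuousOn).integrableOn_compact hc
  · exact hc.measurableSet
  · intro x _
    exact mul_le_mul_of_nonneg_right (f6_gs_le S u x) (Real.exp_pos _).le

/-- Proof. `n = card ι ≥ 4`, `β = (n - 3) / 2`, so `2 β + 2 = n - 1 =: d` and `β ^ 2 ≤ |S| - 1`. F4 for
`a = gs S u ≤ gd u u`, continuous: `H1` is `b1_cut`, `H3` is `shell_energy` with `J = ∅`, `δ = 1`, and
for `T ≥ 2`, `δ ≤ 1` the integral in `H2` is at most `C δ ^ (|Sᶜ| - 1) T ≤ C δ T` by `shell_energy`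
with `J = Sᶜ`, `|Sᶜ| = n - |S| ≥ 2` (divide by `δ`). Take the larger one of the constants. So
`gs S u = 0`. -/
theorem block_sol [DecidableEq ι] {K : ℝ} {u : V ι → ℝ} (hu : GS K u) (hst : Stab u)
    (hEE : EE u) {S : Finset ι} (hrot : RotInv S u) (hS : 2 ≤ S.card)
    (hcard : S.card + 2 ≤ Fintype.card ι)
    (h : ((Fintype.card ι : ℝ) - 3) ^ 2 ≤ 4 * ((S.card : ℝ) - 1)) :
    ∀ i ∈ S, ∀ x, pd i u x = 0 := by
  have hn4 : 4 ≤ Fintype.card ι := by omega
  have hnR : (4 : ℝ) ≤ (Fintype.card ι : ℝ) := by exact_mod_cast hn4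
  obtain ⟨C1, hC1, h1⟩ := b1_cut hu hst hrot hS (β := ((Fintype.card ι : ℝ) - 3) / 2)
    (by linarith) (by nlinarith)
  obtain ⟨C2, hC2, h2⟩ := shell_energy hu hEE (by omega)
  have hd : (2 * (((Fintype.card ι : ℝ) - 3) / 2) + 2) = (Fintype.card ι : ℝ) - 1 := by ring
  rw [hd] at h1
  have hS2 : 2 ≤ Sᶜ.card := by
    rw [Finset.card_compl]; omega
  have key : ∀ x, gs S u x = 0 := by
    apply wlemma (f6_continuous_gs hu.C1 S) (f6_gs_nonneg S u) ((Fintype.card ι : ℝ) - 1) S
      (C := max C1 C2) (le_max_of_le_left hC1)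
    · intro T hT
      refine (h1 T hT).trans ?_
      apply mul_le_mul_of_nonneg_right
      · exact div_le_div_of_nonneg_right (le_max_left _ _) (by linarith)
      · exact integral_nonneg fun x => mul_nonneg (f6_gs_nonneg S u x) (Real.exp_pos _).le
    · intro ε hε
      refine ⟨min 1 (ε / (C2 + 1)), lt_min one_pos (by positivity), 2, ?_⟩
      intro T hT
      set δ := min 1 (ε / (C2 + 1)) with hδ
      have hδ0 : 0 < δ := lt_min one_pos (by positivity)
      have hδ1 : δ ≤ 1 := min_le_left _ _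
      have hδ2 : δ ≤ ε / (C2 + 1) := min_le_right _ _
      refine (f6_shell_mono hu.C1 S _ T δ Sᶜ).trans ?_
      have h3 := h2 T δ Sᶜ hT hδ0 hδ1
      have h4 : δ ^ Sᶜ.card ≤ δ ^ 2 := pow_le_pow_of_le_one hδ0.le hδ1 hS2
      have h5 : C2 * δ ^ Sᶜ.card * T ≤ C2 * δ ^ 2 * T := by
        apply mul_le_mul_of_nonneg_right _ (by linarith)
        exact mul_le_mul_of_nonneg_left h4 hC2
      have h6 : δ * ∫ x in shell T δ Sᶜ, gd u u x *
          Real.exp (-((Fintype.card ι : ℝ) - 1) * lg x) ≤ δ * (C2 * δ * T) := by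
        refine (h3.trans h5).trans (le_of_eq ?_)
        ring
      have h7 := le_of_mul_le_mul_left h6 hδ0
      refine h7.trans ?_
      apply mul_le_mul_of_nonneg_right _ (by linarith)
      have h8 : δ * (C2 + 1) ≤ ε := (le_div_iff₀ (by linarith)).1 hδ2
      nlinarith
    · intro T hT
      refine (f6_shell_mono hu.C1 S _ T 1 ∅).trans ?_
      have h3 := h2 T 1 ∅ hT one_pos le_rfl
      rw [one_mul, Finset.card_empty, pow_zero, mul_one] at h3
      exact h3.trans (mul_le_mul_of_nonneg_right (le_max_right _ _) (by linarith))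
  intro i hi x
  have h0 := key x
  unfold gs at h0
  rw [Finset.sum_eq_zero_iff_of_nonneg fun j _ => sq_nonneg _] at h0
  exact pow_eq_zero_iff (two_ne_zero) |>.1 (h0 i hi)

end Pool.Agent.Helper68.DG
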