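import Pool.Agent.Helper68.DG.Base
import Pool.Agent.Helper68.DG.A4
import Pool.Agent.Helper68.DG.A5b
import Pool.Agent.Helper68.DG.A6a
import Pool.Agent.Helper68.DG.A6b
import Pool.Agent.Helper68.DG.C3
import Pool.Agent.Helper68.DG.D2
import Pool.Agent.Helper68.DG.D3
import Pool.Agent.Helper68.DG.D5
import Pool.Agent.Helper68.DG.F5
import Pool.Agent.Helper68.DG.F6
import Pool.Agent.Helper68.DG.G2

/-! Project DG (MP_800410_an), piece G1: assembly for rotations -/

open MeasureTheory Metric Set Filter Topology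
open scoped ContDiff

namespace Pool.Agent.Helper68.DG

variable {ι : Type} [Fintype ι]

/-- a monotone direction is dropped in the profile: `AM` of the profile gives the energy estimate -/
theorem EE_of_profile_AM {K : ℝ} {u v : V ι → ℝ} (hu : GS K u) (hv : GS K v) (e : V ι)
    (he : ∀ x, 0 ≤ fderiv ℝ u x e)
    (hlim : ∀ x, Tendsto (fun t : ℝ => u (x + t • e)) atTop (𝓝 (v x)))
    (hlim' : ∀ x, Tendsto (fun t : ℝ => fderiv ℝ u (x + t • e)) atTop (𝓝 (fderiv ℝ v x)))
    (ham : AM v) : EE u :=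
  EE_of_profile hu hv e he hlim hlim' (EE_of_AM hv ham)

theorem card_ne (p : ι → Prop) [DecidablePred p] :
    Fintype.card {i // p i} + (Finset.univ.filter fun i => ¬ p i).card = Fintype.card ι := by
  classical
  rw [Fintype.card_subtype, Finset.card_filter_add_card_filter_not, Finset.card_univ]

/-- De Giorgi in dimension at most three -/
theorem dg3 [DecidableEq ι] {K : ℝ} {u : V ι → ℝ} (hu : GS K u) (hn : Fintype.card ι ≤ 3)
    (i₀ : ι) (he : ∀ x, 0 < pd i₀ u x) : Signed u := by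
  have hst : Stab u := stab_of_pos hu (be i₀) he
  obtain ⟨v, hv, hvst, hv0, hlim, hlim'⟩ := exists_profile hu hst (be i₀) fun x => (he x).le
  have h0 : ∀ i, ¬ (i ≠ i₀) → ∀ x, pd i v x = 0 := by
    intro i hi x
    have : i = i₀ := by simpa using hi
    rw [this]; exact hv0 x
  have hv1 := GS.emb (fun i => i ≠ i₀) hv h0
  have hst1 := Stab.emb (fun i => i ≠ i₀) hv hvst h0
  have hc := card_ne (ι := ι) (fun i => i ≠ i₀)
  have hc1 : (Finset.univ.filter fun i : ι => ¬ (i ≠ i₀)) = {i₀} := by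
    ext i; simp
  rw [hc1, Finset.card_singleton] at hc
  have hs1 := signed_dim2 hv1 hst1 (by omega)
  have ham1 := AM_of_signed hv1 hst1 hs1
  have ham := AM.lift (fun i => i ≠ i₀) hv.C1 h0 ham1
  exact signed_dim3 hu hst
    (EE_of_profile_AM hu hv (be i₀) (fun x => (he x).le) hlim hlim' ham) hn

theorem RotInv.emb [DecidableEq ι] (p : ι → Prop) [DecidablePred p] {u : V ι → ℝ}
    (hu : ContDiff ℝ 1 u) {S : Finset ι} (hS : RotInv S u) :
    RotInv (S.subtype p) (u ∘ DG.emb p) := by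
  intro i hi j hj x
  rw [pd_emb p hu, pd_emb p hu]
  have h := hS i.1 (by simpa using hi) j.1 (by simpa using hj) (DG.emb p x)
  rw [emb_apply, emb_apply, dif_pos i.2, dif_pos j.2] at h
  exact h

/-- the core of the theorem on rotations -/
theorem rot_core [DecidableEq ι] {K : ℝ} {u : V ι → ℝ} (hu : GS K u) (i₀ : ι)
    (he : ∀ x, 0 < pd i₀ u x) {S : Finset ι} (hi₀ : i₀ ∉ S) (hrot : RotInv S u)
    (hS : 2 ≤ S.card) (hcard : S.card + 2 ≤ Fintype.card ι)
    (hcard' : Fintype.card ι ≤ S.card + 3)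
    (h : ((Fintype.card ι : ℝ) - 3) ^ 2 ≤ 4 * ((S.card : ℝ) - 1)) : Signed u := by
  have hst : Stab u := stab_of_pos hu (be i₀) he
  obtain ⟨v, hv, hvst, hv0, hlim, hlim'⟩ := exists_profile hu hst (be i₀) fun x => (he x).le
  have h0 : ∀ i, ¬ (i ≠ i₀) → ∀ x, pd i v x = 0 := by
    intro i hi x
    have : i = i₀ := by simpa using hi
    rw [this]; exact hv0 x
  have hrotv : RotInv S v := by
    intro i hi j hj x
    have h1 : Tendsto (fun t : ℝ => x i * fderiv ℝ u (x + t • be i₀) (be j)) atTop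
        (𝓝 (x i * pd j v x)) :=
      tendsto_const_nhds.mul
        (((ContinuousLinearMap.apply ℝ ℝ (be j)).continuous.tendsto _).comp (hlim' x))
    have h2 : Tendsto (fun t : ℝ => x j * fderiv ℝ u (x + t • be i₀) (be i)) atTop
        (𝓝 (x j * pd i v x)) :=
      tendsto_const_nhds.mul
        (((ContinuousLinearMap.apply ℝ ℝ (be i)).continuous.tendsto _).comp (hlim' x))
    refine tendsto_nhds_unique h1 (h2.congr fun t => ?_)
    have h3 := hrot i hi j hj (x + t • be i₀)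
    have h4 : (x + t • be i₀) i = x i := by
      have : i ≠ i₀ := fun h => hi₀ (h ▸ hi)
      simp [be_apply, this]
    have h5 : (x + t • be i₀) j = x j := by
      have : j ≠ i₀ := fun h => hi₀ (h ▸ hj)
      simp [be_apply, this]
    rw [h4, h5] at h3
    exact h3.symm
  have hv1 := GS.emb (fun i => i ≠ i₀) hv h0
  have hst1 := Stab.emb (fun i => i ≠ i₀) hv hvst h0
  have hc := card_ne (ι := ι) (fun i => i ≠ i₀)
  have hc1 : (Finset.univ.filter fun i : ι => ¬ (i ≠ i₀)) = {i₀} := by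
    ext i; simp
  rw [hc1, Finset.card_singleton] at hc
  have hrot1 := RotInv.emb (fun i => i ≠ i₀) hv.C1 hrotv
  have hcS : (S.subtype fun i => i ≠ i₀).card = S.card := by
    rw [Finset.card_subtype, Finset.filter_true_of_mem]
    exact fun i hi h => hi₀ (h ▸ hi)
  have hz1 := block_profile hv1 hst1 hrot1 (by omega) (by omega) (by
    rw [hcS]
    have h6 : (Fintype.card {i : ι // i ≠ i₀} : ℝ) = (Fintype.card ι : ℝ) - 1 := by
      have : (Fintype.card {i : ι // i ≠ i₀} : ℝ) + 1 = (Fintype.card ι : ℝ) := by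
        exact_mod_cast hc
      linarith
    rw [h6]
    have h7 : (Fintype.card ι : ℝ) - 1 - 2 = (Fintype.card ι : ℝ) - 3 := by ring
    rw [h7]
    exact h)
  have hzS : ∀ i ∈ S, ∀ x, pd i v x = 0 := by
    intro i hi x
    have hne : i ≠ i₀ := fun h => hi₀ (h ▸ hi)
    have h1 := hz1 ⟨i, hne⟩ (by simpa using hi) (prj (fun i => i ≠ i₀) x)
    rw [pd_emb _ hv.C1] at h1
    have h2 : pd i v x = pd i v (DG.emb (fun i => i ≠ i₀) (prj (fun i => i ≠ i₀) x)) := by
      apply eq_emb_prj_pd (fun i => i ≠ i₀) hv.smooth h0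
    rw [h2]
    exact h1
  have h0' : ∀ i, ¬ (i ≠ i₀ ∧ i ∉ S) → ∀ x, pd i v x = 0 := by
    intro i hi x
    by_cases hne : i = i₀
    · rw [hne]; exact hv0 x
    · exact hzS i (by by_contra hc; exact hi ⟨hne, hc⟩) x
  have hv2 := GS.emb (fun i => i ≠ i₀ ∧ i ∉ S) hv h0'
  have hst2 := Stab.emb (fun i => i ≠ i₀ ∧ i ∉ S) hv hvst h0'
  have hc2 := card_ne (ι := ι) (fun i => i ≠ i₀ ∧ i ∉ S)
  have hc3 : (Finset.univ.filter fun i : ι => ¬ (i ≠ i₀ ∧ i ∉ S)) = insert i₀ S := by
    ext i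
    simp only [Finset.mem_filter, Finset.mem_univ, true_and, Finset.mem_insert]
    tauto
  rw [hc3, Finset.card_insert_of_notMem hi₀] at hc2
  have hs2 := signed_dim2 hv2 hst2 (by omega)
  have ham2 := AM_of_signed hv2 hst2 hs2
  have ham := AM.lift (fun i => i ≠ i₀ ∧ i ∉ S) hv.C1 h0' ham2
  have hEE := EE_of_profile_AM hu hv (be i₀) (fun x => (he x).le) hlim hlim' ham
  have hzu := block_sol hu hst hEE hrot hS hcard h
  have h0u : ∀ i, ¬ (i ∉ S) → ∀ x, pd i u x = 0 := fun i hi x => hzu i (by simpa using hi) x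
  have hu3 := GS.emb (fun i => i ∉ S) hu h0u
  have hc4 := card_ne (ι := ι) (fun i => i ∉ S)
  have hc5 : (Finset.univ.filter fun i : ι => ¬ (i ∉ S)) = S := by
    ext i; simp
  rw [hc5] at hc4
  have hs3 := dg3 hu3 (by omega) ⟨i₀, hi₀⟩ (fun y => by
    rw [pd_emb _ hu.C1]; exact he _)
  exact Signed.lift (fun i => i ∉ S) hu.C1 h0u hs3

end Pool.Agent.Helper68.DG
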