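import Pool.Agent.Helper68.DG.Base
import Pool.Agent.Helper68.DG.T1

/-! Project DG (MP_800410_an), piece GA: translates of a test function -/

open MeasureTheory Metric Set Filter Topology
open scoped ContDiff

namespace Pool.Agent.Helper68.DG

variable {ι : Type} [Fintype ι]

/-- the inverse of the screw motion -/
noncomputable def ga_g (A : V ι ≃ₗᵢ[ℝ] V ι) (a : V ι) : V ι ≃ₜ V ι :=
  (Homeomorph.addRight (-a)).trans A.symm.toHomeomorph

theorem ga_g_apply (A : V ι ≃ₗᵢ[ℝ] V ι) (a x : V ι) : ga_g A a x = A.symm (x + -a) := rfl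

theorem ga_g_inv (A : V ι ≃ₗᵢ[ℝ] V ι) (a x : V ι) : A (ga_g A a x) + a = x := by
  rw [ga_g_apply, A.apply_symm_apply]
  abel

theorem ga_contDiff (A : V ι ≃ₗᵢ[ℝ] V ι) (a : V ι) {φ : V ι → ℝ} (hφ : ContDiff ℝ 2 φ) :
    ContDiff ℝ 2 (fun x => φ (ga_g A a x)) := by
  have h1 := t1_contDiff A.symm hφ
  exact h1.comp (contDiff_id.add contDiff_const)

theorem ga_lap (A : V ι ≃ₗᵢ[ℝ] V ι) (a : V ι) {φ : V ι → ℝ} (hφ : ContDiff ℝ 2 φ) (x : V ι) :
    lap (fun x => φ (ga_g A a x)) x = lap φ (ga_g A a x) := by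
  have h1 := lap_translate (fun y => φ (A.symm y)) (-a) x
  rw [lap_isom A.symm hφ] at h1
  exact h1

theorem ga_norm (A : V ι ≃ₗᵢ[ℝ] V ι) (L : V ι →L[ℝ] ℝ) :
    ‖L.comp (A.toContinuousLinearEquiv : V ι →L[ℝ] V ι)‖ = ‖L‖ := by
  apply le_antisymm
  · refine ContinuousLinearMap.opNorm_le_bound _ (norm_nonneg _) fun b => ?_
    have := L.le_opNorm (A b)
    rwa [A.norm_map] at this
  · refine ContinuousLinearMap.opNorm_le_bound _ (norm_nonneg _) fun b => ?_
    have := (L.comp (A.toContinuousLinearEquiv : V ι →L[ℝ] V ι)).le_opNorm (A.symm b)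
    rw [A.symm.norm_map] at this
    have e : (L.comp (A.toContinuousLinearEquiv : V ι →L[ℝ] V ι)) (A.symm b) = L b := by
      change L (A (A.symm b)) = L b
      rw [A.apply_symm_apply]
    rwa [e] at this

theorem ga_gd (A : V ι ≃ₗᵢ[ℝ] V ι) (a : V ι) {φ : V ι → ℝ} (hφ : ContDiff ℝ 2 φ) (x : V ι) :
    gd (fun x => φ (ga_g A a x)) (fun x => φ (ga_g A a x)) x = gd φ φ (ga_g A a x) := by
  rw [gd_self, gd_self]
  have h1 : fderiv ℝ (fun x => φ (ga_g A a x)) x =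
      fderiv ℝ (fun y => φ (A.symm y)) (x + -a) :=
    fderiv_comp_add_right (f := fun y => φ (A.symm y)) (-a)
  rw [h1, t1_fderiv_comp A.symm (hφ.differentiable two_ne_zero), ga_norm]
  rfl

theorem ga_int (A : V ι ≃ₗᵢ[ℝ] V ι) (a : V ι) (F : V ι → ℝ) :
    ∫ x, F (ga_g A a x) = ∫ x, F x := by
  have h1 : ∫ x, F (ga_g A a x) = ∫ x, F (A.symm x) :=
    integral_add_right_eq_self (fun x => F (A.symm x)) (-a)
  rw [h1]
  exact A.symm.measurePreserving.integral_comp A.symm.toHomeomorph.measurableEmbedding F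

section

variable {u : V ι → ℝ} (A : V ι ≃ₗᵢ[ℝ] V ι) (a : V ι)

theorem ga_J {W C : V ι → ℝ} (hW : ∀ x, W (A x + a) = W x) (hC : ∀ x, C (A x + a) = C x)
    {φ : V ι → ℝ} (hφ : ContDiff ℝ 2 φ) :
    ∫ x, W x * (lap (fun x => φ (ga_g A a x)) x + C x * φ (ga_g A a x)) =
      ∫ x, W x * (lap φ x + C x * φ x) := by
  rw [← ga_int A a fun x => W x * (lap φ x + C x * φ x)]
  congr 1
  funext x
  rw [ga_lap A a hφ, ← hW (ga_g A a x), ← hC (ga_g A a x), ga_g_inv]

theorem ga_Q {C : V ι → ℝ} (hC : ∀ x, C (A x + a) = C x)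
    {φ : V ι → ℝ} (hφ : ContDiff ℝ 2 φ) :
    (∫ x, gd (fun x => φ (ga_g A a x)) (fun x => φ (ga_g A a x)) x) -
      (∫ x, C x * φ (ga_g A a x) ^ 2) = (∫ x, gd φ φ x) - ∫ x, C x * φ x ^ 2 := by
  rw [← ga_int A a fun x => C x * φ x ^ 2, ← ga_int A a (gd φ φ)]
  congr 1
  · congr 1
    funext x
    exact ga_gd A a hφ x
  · congr 1
    funext x
    rw [← hC (ga_g A a x), ga_g_inv]

end

theorem ga_J_add {W C : V ι → ℝ} (hW : Continuous W) (hC : Continuous C) {φ ψ : V ι → ℝ}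
    (hφ : ContDiff ℝ 2 φ) (hφc : HasCompactSupport φ) (hψ : ContDiff ℝ 2 ψ)
    (hψc : HasCompactSupport ψ) :
    ∫ x, W x * (lap (fun x => φ x + ψ x) x + C x * (φ x + ψ x)) =
      (∫ x, W x * (lap φ x + C x * φ x)) + ∫ x, W x * (lap ψ x + C x * ψ x) := by
  have hcs : ∀ φ : V ι → ℝ, ContDiff ℝ 2 φ → HasCompactSupport φ →
      Integrable fun x => W x * (lap φ x + C x * φ x) := by
    intro φ hφ hc
    have h1 : HasCompactSupport (lap φ) := by
      refine HasCompactSupport.of_support_subset_isCompact hc fun x hx => ?_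
      by_contra hcon
      apply hx
      unfold lap
      refine Finset.sum_eq_zero fun i _ => ?_
      have h2 : pd i φ =ᶠ[𝓝 x] fun _ => 0 := by
        have h3 : φ =ᶠ[𝓝 x] 0 := notMem_tsupport_iff_eventuallyEq.1 hcon
        filter_upwards [h3.fderiv (𝕜 := ℝ)] with y hy
        unfold pd
        rw [hy]
        simp
      unfold pd at h2 ⊢
      rw [h2.fderiv_eq]
      simp
    refine integrable_cs (hW.mul ((continuous_lap hφ).add (hC.mul hφ.continuous))) ?_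
    exact (h1.add hc.mul_left).mul_left
  rw [← integral_add (hcs φ hφ hφc) (hcs ψ hψ hψc)]
  congr 1
  funext x
  rw [lap_add hφ hψ]
  ring

theorem ga_Q_add {C : V ι → ℝ} (hC : Continuous C) {φ ψ : V ι → ℝ}
    (hφ : T1 φ) (hψ : T1 ψ) (hd : ∀ x ∈ tsupport φ, x ∉ tsupport ψ) :
    (∫ x, gd (fun x => φ x + ψ x) (fun x => φ x + ψ x) x) - (∫ x, C x * (φ x + ψ x) ^ 2) =
      ((∫ x, gd φ φ x) - ∫ x, C x * φ x ^ 2) + ((∫ x, gd ψ ψ x) - ∫ x, C x * ψ x ^ 2) := by
  have hz : ∀ (φ : V ι → ℝ) (x : V ι), x ∉ tsupport φ → φ x = 0 ∧ ∀ i, pd i φ x = 0 := by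
    intro φ x hx
    have h3 : φ =ᶠ[𝓝 x] 0 := notMem_tsupport_iff_eventuallyEq.1 hx
    refine ⟨h3.self_of_nhds, fun i => ?_⟩
    unfold pd
    rw [h3.fderiv_eq]
    simp
  have hc : ∀ x, φ x = 0 ∧ (∀ i, pd i φ x = 0) ∨ ψ x = 0 ∧ ∀ i, pd i ψ x = 0 := by
    intro x
    by_cases h : x ∈ tsupport φ
    · exact Or.inr (hz ψ x (hd x h))
    · exact Or.inl (hz φ x h)
  have hpd : ∀ x i, pd i (fun x => φ x + ψ x) x = pd i φ x + pd i ψ x := fun x i =>
    pd_add ((hφ.1.differentiable one_ne_zero) x) ((hψ.1.differentiable one_ne_zero) x) i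
  have e1 : ∀ x, gd (fun x => φ x + ψ x) (fun x => φ x + ψ x) x = gd φ φ x + gd ψ ψ x := by
    intro x
    unfold gd
    rw [← Finset.sum_add_distrib]
    refine Finset.sum_congr rfl fun i _ => ?_
    rw [hpd]
    rcases hc x with ⟨-, h⟩ | ⟨-, h⟩
    · rw [h i]; ring
    · rw [h i]; ring
  have e2 : ∀ x, C x * (φ x + ψ x) ^ 2 = C x * φ x ^ 2 + C x * ψ x ^ 2 := by
    intro x
    rcases hc x with ⟨h, -⟩ | ⟨h, -⟩
    · rw [h]; ring
    · rw [h]; ring
  have hsq : ∀ φ : V ι → ℝ, T1 φ → Integrable fun x => C x * φ x ^ 2 := by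
    intro φ hφ
    refine integrable_cs (hC.mul (hφ.continuous.pow 2)) ?_
    exact (hφ.2.comp_left (g := fun t : ℝ => t ^ 2) (by norm_num)).mul_left
  simp only [e1, e2]
  rw [integral_add (integrable_gd hφ.1 hφ) (integrable_gd hψ.1 hψ),
    integral_add (hsq φ hφ) (hsq ψ hψ)]
  ring

theorem ga_proj [DecidableEq ι] (i₁ : ι) (x : V ι) : ‖x - x i₁ • be i₁‖ ≤ ‖x‖ := by
  have h1 : ‖x - x i₁ • be i₁‖ ^ 2 = ‖x‖ ^ 2 - x i₁ ^ 2 := by
    rw [norm_sub_sq_real, norm_smul, norm_be, inner_smul_right, real_inner_comm, inner_be,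
      mul_one, Real.norm_eq_abs, sq_abs]
    ring
  refine abs_le_of_sq_le_sq' ?_ (norm_nonneg _) |>.2
  rw [h1]
  nlinarith [sq_nonneg (x i₁)]

/-- Proof. Let `g x = A x + c • be i₁` and let `g'` be its inverse, `g' x = A.symm (x - c • be i₁)`. The
functions `w = pd i₁ u` and `cc u` are invariant under `g`: differentiate `u (g x) = u x`
(`fderiv u (g x) (A b) = fderiv u x b`, `A (be i₁) = be i₁`). For a `C²` function `φ` with compact support
`lap (φ ∘ g') = (lap φ) ∘ g'` (`lap_isom`, `lap_translate`),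
`gd (φ ∘ g') (φ ∘ g') = (gd φ φ) ∘ g'` (`gd_self`), and `g` preserves the volume. So the functionals
`J φ = ∫ max w 0 * (lap φ + cc u φ)` and `Q φ = ∫ gd φ φ - ∫ cc u φ ^ 2` satisfy `J (φ ∘ g') = J φ`,
`Q (φ ∘ g') = Q φ`; `J` is additive, and `Q (φ₁ + φ₂) = Q φ₁ + Q φ₂` if the supports are disjoint.
Induction on `m`: `Ψ 0 = 0`, `Ψ (m + 1) = ψ + Ψ m ∘ g'`. As `(A x) i₁ = x i₁`
(`inner (A x) (be i₁) = inner x (be i₁)`), `g` adds `c` to the coordinate `i₁` and preserves the norm of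
`x - x i₁ • be i₁`; on the support of `ψ`, `|x i₁| ≤ R`; on the support of `Ψ m ∘ g'`,
`x i₁ ≥ c - R > R`. -/
theorem translates [DecidableEq ι] {K : ℝ} {u : V ι → ℝ} (hu : GS K u) (i₁ : ι)
    (A : V ι ≃ₗᵢ[ℝ] V ι) (hA : A (be i₁) = be i₁) {c : ℝ}
    (hinv : ∀ x, u (A x + c • be i₁) = u x) {ψ : V ι → ℝ} (hψ : ContDiff ℝ 2 ψ)
    (hψc : HasCompactSupport ψ) {R : ℝ} (hR : ∀ x ∈ tsupport ψ, ‖x‖ ≤ R) (hc : 2 * R + 1 ≤ c)
    (m : ℕ) : ∃ Ψ : V ι → ℝ, ContDiff ℝ 2 Ψ ∧ HasCompactSupport Ψ ∧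
      (∀ x ∈ tsupport Ψ, -R ≤ x i₁ ∧ x i₁ ≤ m * c + R ∧ ‖x - x i₁ • be i₁‖ ≤ R) ∧
      (∫ x, max (pd i₁ u x) 0 * (lap Ψ x + cc u x * Ψ x)) =
        m * ∫ x, max (pd i₁ u x) 0 * (lap ψ x + cc u x * ψ x) ∧
      (∫ x, gd Ψ Ψ x) - (∫ x, cc u x * Ψ x ^ 2) =
        m * ((∫ x, gd ψ ψ x) - ∫ x, cc u x * ψ x ^ 2) := by
  set a : V ι := c • be i₁ with ha
  have hpd : ∀ x, pd i₁ u (A x + a) = pd i₁ u x := by
    intro x
    have h1 : (fun y => u (A y + a)) = u := funext hinv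
    have h2 : fderiv ℝ (fun y => u (A y + a)) x (be i₁) = fderiv ℝ u (A x + a) (A (be i₁)) := by
      have h3 : HasFDerivAt (fun y => A y + a) (A.toContinuousLinearEquiv : V ι →L[ℝ] V ι) x :=
        A.toContinuousLinearEquiv.hasFDerivAt.add_const a
      have h4 : HasFDerivAt u (fderiv ℝ u (A x + a)) (A x + a) :=
        ((hu.C1.differentiable one_ne_zero) _).hasFDerivAt
      have h5 := (h4.comp x h3).fderiv
      have h6 : (u ∘ fun y => A y + a) = fun y => u (A y + a) := rfl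
      rw [h6] at h5
      rw [h5]
      rfl
    rw [h1, hA] at h2
    exact h2.symm
  have hW : ∀ x, max (pd i₁ u (A x + a)) 0 = max (pd i₁ u x) 0 := fun x => by rw [hpd]
  have hC : ∀ x, cc u (A x + a) = cc u x := fun x => by
    unfold cc
    rw [hinv]
  have hWc : Continuous fun x => max (pd i₁ u x) 0 := (continuous_pd hu.C1 i₁).max continuous_const
  have hCc : Continuous (cc u) := continuous_cc hu.C1.continuous
  have hcoord : ∀ y, (A y + a) i₁ = y i₁ + c := by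
    intro y
    rw [PiLp.add_apply, ha, PiLp.smul_apply, be_apply, if_pos rfl, smul_eq_mul, mul_one]
    congr 1
    rw [← inner_be i₁ (A y), ← inner_be i₁ y]
    conv_lhs => rw [← hA]
    exact A.inner_map_map _ _
  have hperp : ∀ y, ‖(A y + a) - (A y + a) i₁ • be i₁‖ = ‖y - y i₁ • be i₁‖ := by
    intro y
    rw [hcoord, ha, add_smul]
    have e : A y + c • be i₁ - (y i₁ • be i₁ + c • be i₁) = A (y - y i₁ • be i₁) := by
      rw [map_sub, map_smul, hA]
      abel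
    rw [e, A.norm_map]
  induction m with
  | zero =>
    refine ⟨fun _ => 0, contDiff_const, HasCompactSupport.zero, ?_, ?_, ?_⟩
    · intro x hx
      simp [tsupport] at hx
    · have h1 : ∀ x, lap (fun _ : V ι => (0 : ℝ)) x = 0 := by
        intro x
        unfold lap
        refine Finset.sum_eq_zero fun i _ => ?_
        have h2 : pd i (fun _ : V ι => (0 : ℝ)) = fun _ => 0 := by
          funext y
          unfold pd
          simp
        rw [h2]
        unfold pd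
        simp
      simp [h1]
    · have h1 : ∀ x, gd (fun _ : V ι => (0 : ℝ)) (fun _ : V ι => (0 : ℝ)) x = 0 := by
        intro x
        rw [gd_self]
        simp
      simp [h1]
  | succ m ih =>
    obtain ⟨Ψ, i1, i2, i3, i4, i5⟩ := ih
    set Φ : V ι → ℝ := fun x => Ψ (ga_g A a x) with hΦ
    have j1 : ContDiff ℝ 2 Φ := ga_contDiff A a i1
    have j2 : HasCompactSupport Φ := i2.comp_homeomorph (ga_g A a)
    have j3 : ∀ x ∈ tsupport Φ, ga_g A a x ∈ tsupport Ψ := by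
      intro x hx
      have h1 : tsupport Φ ⊆ (ga_g A a) ⁻¹' tsupport Ψ :=
        closure_minimal (fun z hz => subset_tsupport Ψ hz)
          ((isClosed_tsupport Ψ).preimage (ga_g A a).continuous)
      exact h1 hx
    have j4 : ∀ x ∈ tsupport Φ, c - R ≤ x i₁ ∧ x i₁ ≤ (m + 1) * c + R ∧
        ‖x - x i₁ • be i₁‖ ≤ R := by
      intro x hx
      obtain ⟨k1, k2, k3⟩ := i3 _ (j3 x hx)
      have e1 := hcoord (ga_g A a x)
      have e2 := hperp (ga_g A a x)
      rw [ga_g_inv] at e1 e2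
      refine ⟨by linarith, by linarith, by rw [e2]; exact k3⟩
    have hd : ∀ x ∈ tsupport ψ, x ∉ tsupport Φ := by
      intro x hx hx2
      have h1 := (j4 x hx2).1
      have h2 := (abs_le.1 ((abs_coord_le x i₁).trans (hR x hx))).2
      linarith
    refine ⟨fun x => ψ x + Φ x, hψ.add j1, hψc.add j2, ?_, ?_, ?_⟩
    · intro x hx
      have h1 : x ∈ tsupport ψ ∪ tsupport Φ := tsupport_add ψ Φ hx
      push_cast
      rcases h1 with h1 | h1
      · have h2 := hR x h1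
        have h3 := abs_le.1 ((abs_coord_le x i₁).trans h2)
        have h4 : 0 ≤ R := (norm_nonneg x).trans h2
        have h5 : 0 ≤ (m : ℝ) + 1 := by positivity
        refine ⟨h3.1, ?_, (ga_proj i₁ x).trans h2⟩
        nlinarith
      · obtain ⟨k1, k2, k3⟩ := j4 x h1
        have h4 : 0 ≤ R := (norm_nonneg _).trans k3
        exact ⟨by linarith, k2, k3⟩
    · rw [ga_J_add hWc hCc hψ hψc j1 j2, ga_J A a hW hC i1, i4]
      push_cast
      ring
    · rw [ga_Q_add hCc ⟨hψ.of_le (by norm_num), hψc⟩ ⟨j1.of_le (by norm_num), j2⟩ hd,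
        ga_Q A a hC i1, i5]
      push_cast
      ring

end Pool.Agent.Helper68.DG
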