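import Pool.Agent.Helper68.DG.Base
import Pool.Agent.Helper68.DG.A3
import Pool.Agent.Helper68.DG.B2
import Pool.Agent.Helper68.DG.B3b
import Pool.Agent.Helper68.DG.GA

/-! Project DG (MP_800410_an), piece GB: the derivative along the axis of a screw motion -/

open MeasureTheory Metric Set Filter Topology
open scoped ContDiff

namespace Pool.Agent.Helper68.DG

variable {ι : Type} [Fintype ι]

/-- the bound of the coefficient -/
theorem gb_cc_le {K : ℝ} {u : V ι → ℝ} (hu : GS K u) (x : V ι) : |cc u x| ≤ 1 + 3 * K ^ 2 := by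
  unfold cc
  have h7 : u x ^ 2 ≤ K ^ 2 := by
    rw [← sq_abs]
    exact pow_le_pow_left₀ (abs_nonneg _) (hu.bdd x) 2
  rw [abs_le]
  constructor <;> nlinarith [sq_nonneg (u x), sq_nonneg K]

/-- the projection along a basis vector -/
theorem gb_proj (i₁ : ι) (x y : V ι) :
    ‖y - y i₁ • be i₁‖ ≤ ‖x - x i₁ • be i₁‖ + 2 * ‖y - x‖ := by
  have h1 : y - y i₁ • be i₁ = (x - x i₁ • be i₁) + ((y - x) - (y - x) i₁ • be i₁) := by
    rw [PiLp.sub_apply, sub_smul]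
    abel
  have h2 : ‖(y - x) - (y - x) i₁ • be i₁‖ ≤ 2 * ‖y - x‖ := by
    refine (norm_sub_le _ _).trans ?_
    rw [norm_smul, norm_be, mul_one, Real.norm_eq_abs]
    have := abs_coord_le (y - x) i₁
    linarith
  rw [h1]
  exact (norm_add_le _ _).trans (by linarith)

/-- the weak equation of the positive part -/
theorem gb_weak [DecidableEq ι] {K : ℝ} {u : V ι → ℝ} (hu : GS K u) (hst : Stab u) (i₁ : ι)
    (hinv : ∀ L : ℝ, ∃ c : ℝ, L ≤ c ∧ ∃ A : V ι ≃ₗᵢ[ℝ] V ι, A (be i₁) = be i₁ ∧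
      ∀ x, u (A x + c • be i₁) = u x)
    (H : ∀ R ε : ℝ, 0 < ε → ∃ N₀ : ℝ, ∀ N : ℝ, N₀ ≤ N → ∃ ξ : V ι → ℝ, T1 ξ ∧
      (∀ x, |x i₁| ≤ N → ‖x - x i₁ • be i₁‖ ≤ R → ξ x = 1) ∧
      ∫ x, gd u u x * gd ξ ξ x ≤ ε * N)
    {ψ : V ι → ℝ} (hψ : ContDiff ℝ 2 ψ) (hψc : HasCompactSupport ψ) :
    ∫ x, max (pd i₁ u x) 0 * (lap ψ x + cc u x * ψ x) = 0 := by
  obtain ⟨R, hR0, hR⟩ : ∃ R : ℝ, 0 ≤ R ∧ ∀ x ∈ tsupport ψ, ‖x‖ ≤ R := by
    obtain ⟨R, hR⟩ := hψc.isCompact.isBounded.exists_norm_le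
    exact ⟨max R 0, le_max_right _ _, fun x hx => (hR x hx).trans (le_max_left _ _)⟩
  obtain ⟨c, hc, A, hA, hAu⟩ := hinv (2 * R + 1)
  have hT : T1 ψ := ⟨hψ.of_le (by norm_num), hψc⟩
  set I : ℝ := ∫ x, max (pd i₁ u x) 0 * (lap ψ x + cc u x * ψ x) with hI
  set Q : ℝ := (∫ x, gd ψ ψ x) - ∫ x, cc u x * ψ x ^ 2 with hQ
  have hQ0 : 0 ≤ Q := by
    have := hst ψ hT
    rw [hQ]
    linarith
  have key : ∀ ε : ℝ, 0 < ε → I ^ 2 ≤ ε * ((c + R + 1) * Q) := by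
    intro ε hε
    obtain ⟨N₀, hN₀⟩ := H (R + 1) ε hε
    obtain ⟨k, hk⟩ := exists_nat_ge N₀
    set m : ℕ := k + 1 with hm
    have hm1 : (1 : ℝ) ≤ m := by
      rw [hm]
      push_cast
      have : (0 : ℝ) ≤ k := Nat.cast_nonneg k
      linarith
    have hkm : (k : ℝ) ≤ m := by
      rw [hm]
      push_cast
      linarith
    have hc1 : 1 ≤ c := by linarith
    have hmc : (m : ℝ) ≤ m * c := by nlinarith
    obtain ⟨Ψ, hΨ, hΨc, hΨs, hΨI, hΨQ⟩ := translates hu i₁ A hA hAu hψ hψc hR hc m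
    obtain ⟨ξ, hξ, hξ1, hξ2⟩ := hN₀ (m * c + R + 1) (by linarith)
    have hnear : ∀ x ∈ tsupport Ψ, ξ =ᶠ[𝓝 x] fun _ => 1 := by
      intro x hx
      obtain ⟨h1, h2, h3⟩ := hΨs x hx
      have hb : ball x (1 / 2) ∈ 𝓝 x := ball_mem_nhds x (by norm_num)
      filter_upwards [hb] with y hy
      rw [mem_ball, dist_eq_norm] at hy
      apply hξ1
      · have h4 := abs_coord_le (y - x) i₁
        rw [PiLp.sub_apply] at h4
        have h5 := abs_le.1 h4
        rw [abs_le]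
        constructor
        · linarith [h5.1]
        · linarith [h5.2]
      · have h4 := gb_proj i₁ x y
        linarith
    have h1 := null_min hu hst (hu.lin (be i₁)) hξ hΨ hΨc (fun x hx => (hnear x hx).self_of_nhds)
      (fun x hx => by
        rw [(hnear x hx).fderiv_eq]
        simp)
    have h2 : ∫ x, fderiv ℝ u x (be i₁) ^ 2 * gd ξ ξ x ≤ ε * (m * c + R + 1) := by
      refine le_trans ?_ hξ2
      have hc1 : Continuous (gd ξ ξ) := continuous_gd hξ.1 hξ.1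
      have hc2 : HasCompactSupport (gd ξ ξ) := hasCompactSupport_gd hξ.2
      have hc3 : Continuous fun x => fderiv ℝ u x (be i₁) ^ 2 := (continuous_pd hu.C1 i₁).pow 2
      apply integral_mono
      · exact integrable_cs (hc3.mul hc1) hc2.mul_left
      · exact integrable_cs ((continuous_gd hu.C1 hu.C1).mul hc1) hc2.mul_left
      · intro x
        apply mul_le_mul_of_nonneg_right _ (gd_self_nonneg ξ x)
        unfold gd
        have h3 : pd i₁ u x * pd i₁ u x ≤ ∑ i, pd i u x * pd i u x :=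
          Finset.single_le_sum (f := fun i => pd i u x * pd i u x)
            (fun i _ => mul_self_nonneg _) (Finset.mem_univ i₁)
        calc fderiv ℝ u x (be i₁) ^ 2 = pd i₁ u x * pd i₁ u x := by
              unfold pd
              ring
          _ ≤ _ := h3
    have h3 : (∫ x, max (pd i₁ u x) 0 * (lap Ψ x + cc u x * Ψ x)) ^ 2 ≤
        (∫ x, fderiv ℝ u x (be i₁) ^ 2 * gd ξ ξ x) *
          ((∫ x, gd Ψ Ψ x) - ∫ x, cc u x * Ψ x ^ 2) := h1
    rw [hΨI, hΨQ] at h3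
    have h4 : (m * I) ^ 2 ≤ ε * (m * c + R + 1) * (m * Q) :=
      h3.trans (mul_le_mul_of_nonneg_right h2 (by positivity))
    have h5 : (m : ℝ) * c + R + 1 ≤ m * (c + R + 1) := by nlinarith
    have h6 : (m * I) ^ 2 ≤ ε * (m * (c + R + 1)) * (m * Q) :=
      h4.trans (mul_le_mul_of_nonneg_right (mul_le_mul_of_nonneg_left h5 hε.le) (by positivity))
    have hm0 : (0 : ℝ) < (m : ℝ) ^ 2 := by positivity
    have h7 : (m : ℝ) ^ 2 * I ^ 2 ≤ (m : ℝ) ^ 2 * (ε * ((c + R + 1) * Q)) := by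
      calc (m : ℝ) ^ 2 * I ^ 2 = (m * I) ^ 2 := by ring
        _ ≤ ε * (m * (c + R + 1)) * (m * Q) := h6
        _ = (m : ℝ) ^ 2 * (ε * ((c + R + 1) * Q)) := by ring
    exact le_of_mul_le_mul_left h7 hm0
  have hM : 0 ≤ (c + R + 1) * Q := mul_nonneg (by linarith) hQ0
  have hI2 : I ^ 2 ≤ 0 := by
    apply le_of_forall_pos_le_add
    intro δ hδ
    have h1 := key (δ / ((c + R + 1) * Q + 1)) (by positivity)
    have h2 : δ / ((c + R + 1) * Q + 1) * ((c + R + 1) * Q) ≤ δ := by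
      rw [div_mul_eq_mul_div, div_le_iff₀ (by positivity)]
      nlinarith
    linarith
  exact pow_eq_zero_iff two_ne_zero |>.1 (le_antisymm hI2 (sq_nonneg I))

/-- one of the two cases -/
theorem gb_case [DecidableEq ι] {K : ℝ} {u : V ι → ℝ} (hu : GS K u) (hst : Stab u) (i₁ : ι)
    (hinv : ∀ L : ℝ, ∃ c : ℝ, L ≤ c ∧ ∃ A : V ι ≃ₗᵢ[ℝ] V ι, A (be i₁) = be i₁ ∧
      ∀ x, u (A x + c • be i₁) = u x)
    (H : ∀ R ε : ℝ, 0 < ε → ∃ N₀ : ℝ, ∀ N : ℝ, N₀ ≤ N → ∃ ξ : V ι → ℝ, T1 ξ ∧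
      (∀ x, |x i₁| ≤ N → ‖x - x i₁ • be i₁‖ ≤ R → ξ x = 1) ∧
      ∫ x, gd u u x * gd ξ ξ x ≤ ε * N) :
    (∀ x, 0 < pd i₁ u x) ∨ ∀ x, pd i₁ u x ≤ 0 := by
  by_cases h : ∃ x₀, max (pd i₁ u x₀) 0 = 0
  · obtain ⟨x₀, hx₀⟩ := h
    right
    intro x
    have h1 := smp (h := fun x => max (pd i₁ u x) 0) (c := cc u) (K := 1 + 3 * K ^ 2)
      ((continuous_pd hu.C1 i₁).max continuous_const) (fun x => le_max_right _ _)
      (continuous_cc hu.C1.continuous) (gb_cc_le hu)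
      (fun ψ hψ hψc => gb_weak hu hst i₁ hinv H hψ hψc) hx₀ x
    have h2 : pd i₁ u x ≤ max (pd i₁ u x) 0 := le_max_left _ _
    exact h2.trans h1.le
  · left
    intro x
    by_contra hx
    exact h ⟨x, max_eq_right (not_lt.1 hx)⟩

theorem gb_pd_neg (u : V ι → ℝ) (i : ι) (x : V ι) : pd i (fun x => - u x) x = - pd i u x := by
  unfold pd
  rw [fderiv_fun_neg]
  rfl

theorem gb_fderiv_neg (u : V ι → ℝ) :
    fderiv ℝ (fun x => - u x) = fun x => - fderiv ℝ u x := by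
  funext x
  rw [fderiv_fun_neg]

/-- the opposite function -/
theorem gb_neg {K : ℝ} {u : V ι → ℝ} (hu : GS K u) : GS K fun x => - u x := by
  refine ⟨hu.smooth.neg, fun x => ?_, fun x => ?_, fun x => ?_, fun x y => ?_, fun x y => ?_⟩
  · have h1 : lap (fun x => - u x) x = - lap u x := by
      unfold lap
      rw [← Finset.sum_neg_distrib]
      apply Finset.sum_congr rfl
      intro i _
      have h2 : pd i (fun x => - u x) = fun x => - pd i u x := funext (gb_pd_neg u i)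
      rw [h2, gb_pd_neg]
    rw [h1]
    have := hu.eqn x
    nlinarith
  · rw [abs_neg]
    exact hu.bdd x
  · rw [gb_fderiv_neg, norm_neg]
    exact hu.bdd1 x
  · rw [gb_fderiv_neg]
    have h1 : -fderiv ℝ u x - -fderiv ℝ u y = -(fderiv ℝ u x - fderiv ℝ u y) := by abel
    rw [h1, norm_neg]
    exact hu.lip1 x y
  · rw [gb_fderiv_neg, fderiv_fun_neg, fderiv_fun_neg]
    have h1 : -fderiv ℝ (fderiv ℝ u) x - -fderiv ℝ (fderiv ℝ u) y =
        -(fderiv ℝ (fderiv ℝ u) x - fderiv ℝ (fderiv ℝ u) y) := by abel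
    rw [h1]
    exact (norm_neg (fderiv ℝ (fderiv ℝ u) x - fderiv ℝ (fderiv ℝ u) y)).le.trans (hu.lip2 x y)

/-- Proof. Let `ψ` be `C²` with compact support, `‖x‖ ≤ R` on its support (`R ≥ 0`), and take `c`, `A` from
`hinv` for `L = 2 R + 1`. Let `ε > 0` and `N₀` from `H` for `R + 1`, `ε`. For large `m` take `Ψ` from
`translates` and `ξ` from `H` for `N = m c + R + 1 ≥ N₀`. Then `ξ = 1` on a neighbourhood of `tsupport Ψ`,
so `fderiv ξ = 0` there, and B2 for `w = pd i₁ u` gives, with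
`I = ∫ max w 0 (lap ψ + cc u ψ)`, `Q = ∫ gd ψ ψ - ∫ cc u ψ ^ 2 ≥ 0`, `w ^ 2 ≤ gd u u`:
`(m I) ^ 2 ≤ ε (m c + R + 1) m Q`. For `m → ∞`, `I ^ 2 ≤ ε c Q`, for every `ε`; so `I = 0`. By B3b
`max w 0` is positive everywhere or zero everywhere. In the first case `w > 0`. In the second case
`w ≤ 0`; the function `- u` also satisfies all the hypotheses (`- u` is a `GS K`, stable, `cc (-u) = cc u`,
`pd i₁ (- u) = - w`), so `w < 0` everywhere or `w ≥ 0` everywhere. -/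
theorem drift_signed [DecidableEq ι] {K : ℝ} {u : V ι → ℝ} (hu : GS K u) (hst : Stab u) (i₁ : ι)
    (hinv : ∀ L : ℝ, ∃ c : ℝ, L ≤ c ∧ ∃ A : V ι ≃ₗᵢ[ℝ] V ι, A (be i₁) = be i₁ ∧
      ∀ x, u (A x + c • be i₁) = u x)
    (H : ∀ R ε : ℝ, 0 < ε → ∃ N₀ : ℝ, ∀ N : ℝ, N₀ ≤ N → ∃ ξ : V ι → ℝ, T1 ξ ∧
      (∀ x, |x i₁| ≤ N → ‖x - x i₁ • be i₁‖ ≤ R → ξ x = 1) ∧
      ∫ x, gd u u x * gd ξ ξ x ≤ ε * N) :
    (∀ x, 0 < pd i₁ u x) ∨ (∀ x, pd i₁ u x < 0) ∨ ∀ x, pd i₁ u x = 0 := by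
  rcases gb_case hu hst i₁ hinv H with h | h
  · exact Or.inl h
  · right
    have hcc : cc (fun x => - u x) = cc u := by
      funext x
      unfold cc
      ring
    have hst' : Stab fun x => - u x := by
      intro ζ hζ
      rw [hcc]
      exact hst ζ hζ
    have hgd : gd (fun x => - u x) (fun x => - u x) = gd u u := by
      funext x
      unfold gd
      apply Finset.sum_congr rfl
      intro i _
      rw [gb_pd_neg]
      ring
    have hinv' : ∀ L : ℝ, ∃ c : ℝ, L ≤ c ∧ ∃ A : V ι ≃ₗᵢ[ℝ] V ι, A (be i₁) = be i₁ ∧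
        ∀ x, - u (A x + c • be i₁) = - u x := by
      intro L
      obtain ⟨c, hc, A, hA, hAu⟩ := hinv L
      exact ⟨c, hc, A, hA, fun x => by rw [hAu]⟩
    have H' : ∀ R ε : ℝ, 0 < ε → ∃ N₀ : ℝ, ∀ N : ℝ, N₀ ≤ N → ∃ ξ : V ι → ℝ, T1 ξ ∧
        (∀ x, |x i₁| ≤ N → ‖x - x i₁ • be i₁‖ ≤ R → ξ x = 1) ∧
        ∫ x, gd (fun x => - u x) (fun x => - u x) x * gd ξ ξ x ≤ ε * N := by
      rw [hgd]
      exact H
    rcases gb_case (gb_neg hu) hst' i₁ hinv' H' with h' | h'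
    · left
      intro x
      have := h' x
      rw [gb_pd_neg] at this
      linarith
    · right
      intro x
      have h1 := h' x
      rw [gb_pd_neg] at h1
      exact le_antisymm (h x) (by linarith)

end Pool.Agent.Helper68.DG
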