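import Pool.Agent.Helper68.DG.Base

/-! Project DG (MP_800410_an), piece GC: no strict monotonicity along the axis of a screw motion -/

open MeasureTheory Metric Set Filter Topology
open scoped ContDiff

namespace Pool.Agent.Helper68.DG

variable {ι : Type} [Fintype ι]

/-- the origin is moved to `a` -/
theorem no_mono {u : V ι → ℝ} (hu : ContDiff ℝ 1 u) (A : V ι ≃ₗᵢ[ℝ] V ι) (a : V ι)
    (hinv : ∀ x, u (A x + a) = u x) :
    ¬ ((∀ x, 0 < fderiv ℝ u x a) ∨ ∀ x, fderiv ℝ u x a < 0) := by
  have hd : ∀ t : ℝ, HasDerivAt (fun s : ℝ => u (s • a)) (fderiv ℝ u (t • a) a) t := by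
    intro t
    have h1 : HasDerivAt (fun s : ℝ => s • a) a t := by
      simpa using (hasDerivAt_id t).smul_const a
    exact ((hu.differentiable one_ne_zero) (t • a)).hasFDerivAt.comp_hasDerivAt t h1
  have h0 : u a = u 0 := by
    have := hinv 0
    rwa [map_zero, zero_add] at this
  rintro (h | h)
  · have hm : StrictMono fun s : ℝ => u (s • a) :=
      strictMono_of_deriv_pos fun t => by rw [(hd t).deriv]; exact h _
    have h1 := hm (show (0 : ℝ) < 1 by norm_num)
    simp only [zero_smul, one_smul] at h1
    linarith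
  · have hm : StrictAnti fun s : ℝ => u (s • a) :=
      strictAnti_of_deriv_neg fun t => by rw [(hd t).deriv]; exact h _
    have h1 := hm (show (0 : ℝ) < 1 by norm_num)
    simp only [zero_smul, one_smul] at h1
    linarith

end Pool.Agent.Helper68.DG
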