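import Pool.Agent.Helper68.DG.Base
import Pool.Agent.Helper68.DG.A6a
import Pool.Agent.Helper68.DG.A6b
import Pool.Agent.Helper68.DG.C1
import Pool.Agent.Helper68.DG.C2
import Pool.Agent.Helper68.DG.D4a
import Pool.Agent.Helper68.DG.GD

/-! Project DG (MP_800410_an), piece GE: cylindrical cutoffs: with the energy estimate -/

open MeasureTheory Metric Set Filter Topology
open scoped ContDiff

namespace Pool.Agent.Helper68.DG

variable {ι : Type} [Fintype ι]

/-- integrals over a line -/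
theorem ge_int_unique {κ : Type} [hκ : Fintype κ] [Unique κ] (F : ℝ → ℝ) :
    ∫ z : V κ, F (z default) = ∫ t, F t := by
  obtain rfl : hκ = Unique.fintype := Subsingleton.elim _ _
  rw [← (PiLp.volume_preserving_toLp κ).integral_comp
    (MeasurableEquiv.toLp 2 (κ → ℝ)).measurableEmbedding]
  exact (volume_preserving_funUnique κ ℝ).integral_comp
    (MeasurableEquiv.funUnique κ ℝ).measurableEmbedding F

theorem ge_int_bound {N M : ℝ} (hN : 0 ≤ N) {F : ℝ → ℝ} (hF : ∀ t, |F t| ≤ M)
    (hF0 : ∀ t, 2 * N < |t| → F t = 0) : ∫ t, F t ≤ M * (4 * N) := by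
  have h0 : ∀ t, t ∉ Icc (-(2 * N)) (2 * N) → F t = 0 := by
    intro t ht
    apply hF0
    by_contra h
    exact ht (abs_le.1 (not_lt.1 h))
  rw [← setIntegral_eq_integral_of_forall_compl_eq_zero h0]
  have h1 := norm_setIntegral_le_of_norm_le_const (μ := volume) (s := Icc (-(2 * N)) (2 * N))
    (f := F) (C := M) (by rw [Real.volume_Icc]; exact ENNReal.ofReal_lt_top)
    (fun t _ => by rw [Real.norm_eq_abs]; exact hF t)
  refine (le_abs_self _).trans ?_
  rw [Real.norm_eq_abs] at h1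
  refine h1.trans (le_of_eq ?_)
  rw [Real.volume_real_Icc_of_le (by linarith)]
  ring

/-- the norm of the derivative of a product -/
theorem ge_fderiv_prod (p : ι → Prop) [DecidablePred p] {f : V {i // p i} → ℝ}
    {g : V {i // ¬ p i} → ℝ} (hf : ContDiff ℝ 1 f) (hg : ContDiff ℝ 1 g) (x : V ι) :
    ‖fderiv ℝ (fun x => f (prj p x) * g (prj (fun i => ¬ p i) x)) x‖ ≤
      ‖fderiv ℝ f (prj p x)‖ * |g (prj (fun i => ¬ p i) x)| +
        |f (prj p x)| * ‖fderiv ℝ g (prj (fun i => ¬ p i) x)‖ := by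
  have h := a6b_gd p hf hg x
  rw [gd_self, gd_self, gd_self] at h
  have h0 : 0 ≤ ‖fderiv ℝ f (prj p x)‖ * |g (prj (fun i => ¬ p i) x)| +
        |f (prj p x)| * ‖fderiv ℝ g (prj (fun i => ¬ p i) x)‖ := by positivity
  refine le_of_sq_le_sq ?_ h0
  rw [h]
  have h1 : 0 ≤ ‖fderiv ℝ f (prj p x)‖ * |g (prj (fun i => ¬ p i) x)| *
        (|f (prj p x)| * ‖fderiv ℝ g (prj (fun i => ¬ p i) x)‖) := by positivity
  have h2 := sq_abs (g (prj (fun i => ¬ p i) x))
  have h3 := sq_abs (f (prj p x))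
  calc _ = (‖fderiv ℝ f (prj p x)‖ * |g (prj (fun i => ¬ p i) x)|) ^ 2 +
        (|f (prj p x)| * ‖fderiv ℝ g (prj (fun i => ¬ p i) x)‖) ^ 2 := by
          rw [mul_pow, mul_pow, h2, h3]
    _ ≤ _ := by nlinarith only [h1]

/-- functions of the last coordinate -/
theorem ge_chi {κ : Type} [Fintype κ] [Unique κ] {N C : ℝ} (hN : 0 < N) {χ : ℝ → ℝ}
    (h1 : ContDiff ℝ 1 χ) (h3 : ∀ t, 2 * N ≤ |t| → χ t = 0)
    (h4 : ∀ t, |deriv χ t| ≤ C / N) :
    T1 (fun z : V κ => χ (z default)) ∧
    (∀ z : V κ, ‖fderiv ℝ (fun z : V κ => χ (z default)) z‖ = |deriv χ (z default)|) ∧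
    ∫ z : V κ, |deriv χ (z default)| ≤ 4 * C ∧
    ∫ z : V κ, |deriv χ (z default)| ^ 2 ≤ 4 * C ^ 2 / N := by
  have hc : ContDiff ℝ 1 (fun z : V κ => z default) :=
    (EuclideanSpace.proj (𝕜 := ℝ) (default : κ)).contDiff
  have hcd : ContDiff ℝ 1 (fun z : V κ => χ (z default)) := h1.comp hc
  have hnorm : ∀ z : V κ, ‖z‖ = |z default| := by
    intro z
    rw [EuclideanSpace.norm_eq, Fintype.sum_unique, Real.norm_eq_abs, sq_abs, Real.sqrt_sq_eq_abs]
  have hpd : ∀ z : V κ, pd default (fun z : V κ => z default) z = 1 := by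
    intro z
    unfold pd
    have : HasFDerivAt (fun z : V κ => z default) (EuclideanSpace.proj (𝕜 := ℝ) (default : κ)) z :=
      (EuclideanSpace.proj (𝕜 := ℝ) (default : κ)).hasFDerivAt
    rw [this.fderiv]
    classical
    change be default default = 1
    rw [be_apply, if_pos rfl]
  have hfd : ∀ z : V κ, ‖fderiv ℝ (fun z : V κ => χ (z default)) z‖ =
      |deriv χ (z default)| := by
    intro z
    have e1 : ‖fderiv ℝ (fun z : V κ => χ (z default)) z‖ ^ 2 = |deriv χ (z default)| ^ 2 := by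
      rw [← gd_self]
      unfold gd
      rw [Fintype.sum_unique, pd_comp (h1.differentiable one_ne_zero _)
        (hc.differentiable one_ne_zero _), hpd, mul_one, sq_abs, pow_two]
    exact (pow_left_inj₀ (norm_nonneg _) (abs_nonneg _) two_ne_zero).1 e1
  have hd0 : ∀ t, 2 * N < |t| → deriv χ t = 0 := by
    intro t ht
    have hev : χ =ᶠ[𝓝 t] fun _ => (0 : ℝ) := by
      filter_upwards [(isOpen_lt continuous_const continuous_abs).mem_nhds ht] with y hy
      exact h3 y hy.le
    rw [hev.deriv_eq, deriv_const]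
  refine ⟨⟨hcd, ?_⟩, hfd, ?_, ?_⟩
  · apply HasCompactSupport.intro (isCompact_closedBall (0 : V κ) (2 * N))
    intro z hz
    rw [mem_closedBall_zero_iff, hnorm, not_le] at hz
    exact h3 _ hz.le
  · rw [ge_int_unique (κ := κ) (fun t => |deriv χ t|)]
    have := ge_int_bound hN.le (F := fun t => |deriv χ t|) (M := C / N)
      (fun t => by rw [abs_abs]; exact h4 t) (fun t ht => by rw [hd0 t ht, abs_zero])
    refine this.trans (le_of_eq ?_)
    field_simp
  · rw [ge_int_unique (κ := κ) (fun t => |deriv χ t| ^ 2)]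
    have := ge_int_bound hN.le (F := fun t => |deriv χ t| ^ 2) (M := (C / N) ^ 2)
      (fun t => by
        rw [abs_of_nonneg (by positivity)]
        exact pow_le_pow_left₀ (abs_nonneg _) (h4 t) 2)
      (fun t ht => by rw [hd0 t ht, abs_zero]; norm_num)
    refine this.trans (le_of_eq ?_)
    field_simp

/-- the integral of the derivative of a shell cutoff -/
theorem ge_shell_int {κ : Type} [Fintype κ] (hn : Fintype.card κ = 3) {C C' T : ℝ}
    (hC : 0 ≤ C) (hT : 2 ≤ T)
    (hV : ∀ (T δ : ℝ) (J : Finset κ), 1 ≤ T → 0 < δ →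
      ∫ x in shell T δ J, Real.exp (-(Fintype.card κ : ℝ) * lg x) ≤ C' * δ ^ J.card * T)
    {ζ : V κ → ℝ} (hζ : T1 ζ)
    (h1 : ∀ x, ‖fderiv ℝ ζ x‖ ≤ C * Real.exp (-3 * lg x))
    (h2 : ∀ x, x ∉ shell (T / 2) 2 ∅ ∪ shell T 2 ∅ ∪ shell (2 * T) 2 ∅ → fderiv ℝ ζ x = 0) :
    ∫ x, ‖fderiv ℝ ζ x‖ ≤ C * C' * (7 / 2 * T) := by
  have hE : Continuous fun x : V κ => C * Real.exp (-3 * lg x) := by
    have := (contDiff_lg (ι := κ) (n := 0)).continuous
    fun_prop
  have hi : ∀ T' : ℝ, Integrable ((shell T' 2 (∅ : Finset κ)).indicator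
      fun x : V κ => C * Real.exp (-3 * lg x)) := by
    intro T'
    exact (hE.continuousOn.integrableOn_compact (isCompact_shell T' 2 ∅)).integrable_indicator
      (isCompact_shell T' 2 ∅).measurableSet
  have hb : ∀ T' : ℝ, 1 ≤ T' → ∫ x, (shell T' 2 (∅ : Finset κ)).indicator
      (fun x : V κ => C * Real.exp (-3 * lg x)) x ≤ C * (C' * T') := by
    intro T' hT'
    rw [integral_indicator (isCompact_shell T' 2 ∅).measurableSet, integral_const_mul]
    apply mul_le_mul_of_nonneg_left _ hC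
    have := hV T' 2 ∅ hT' two_pos
    rw [hn, Finset.card_empty, pow_zero, mul_one] at this
    exact_mod_cast this
  have hI0 : Integrable fun x => ‖fderiv ℝ ζ x‖ :=
    integrable_cs (hζ.1.continuous_fderiv one_ne_zero).norm
      ((hζ.2.fderiv (𝕜 := ℝ)).norm)
  have hle : ∀ x, ‖fderiv ℝ ζ x‖ ≤ (shell (T / 2) 2 (∅ : Finset κ)).indicator
      (fun x : V κ => C * Real.exp (-3 * lg x)) x + (shell T 2 (∅ : Finset κ)).indicator
      (fun x : V κ => C * Real.exp (-3 * lg x)) x + (shell (2 * T) 2 (∅ : Finset κ)).indicator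
      (fun x : V κ => C * Real.exp (-3 * lg x)) x := by
    intro x
    have hnn : ∀ T' : ℝ, 0 ≤ (shell T' 2 (∅ : Finset κ)).indicator
        (fun x : V κ => C * Real.exp (-3 * lg x)) x := by
      intro T'
      exact indicator_nonneg (fun y _ => by positivity) x
    by_cases hx : x ∈ shell (T / 2) 2 (∅ : Finset κ) ∪ shell T 2 ∅ ∪ shell (2 * T) 2 ∅
    · have h3 := h1 x
      rcases hx with (hx | hx) | hx
      · have := indicator_of_mem hx (fun x : V κ => C * Real.exp (-3 * lg x))
        linarith [hnn T, hnn (2 * T)]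
      · have := indicator_of_mem hx (fun x : V κ => C * Real.exp (-3 * lg x))
        linarith [hnn (T / 2), hnn (2 * T)]
      · have := indicator_of_mem hx (fun x : V κ => C * Real.exp (-3 * lg x))
        linarith [hnn T, hnn (T / 2)]
    · rw [h2 x hx, norm_zero]
      linarith [hnn T, hnn (2 * T), hnn (T / 2)]
  have hfin := integral_mono hI0 (((hi (T / 2)).add (hi T)).add (hi (2 * T))) hle
  rw [integral_add' ((hi (T / 2)).add (hi T)) (hi (2 * T)), integral_add' (hi (T / 2)) (hi T)]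
    at hfin
  have a1 := hb (T / 2) (by linarith)
  have a2 := hb T (by linarith)
  have a3 := hb (2 * T) (by linarith)
  calc _ ≤ C * (C' * (T / 2)) + C * (C' * T) + C * (C' * (2 * T)) := by linarith
    _ = C * C' * (7 / 2 * T) := by ring

/-- Proof. Let `p i ↔ i ≠ i₁`, `card {i // p i} = 3`, `η = cut T` on `V {i // p i}`, `χ` from `exists_chi`,
`ξ x = χ (x i₁) * η (prj p x)`, so `gd ξ ξ x = χ' ^ 2 η ^ 2 + χ ^ 2 gd η η`.
First part: `∫ gd u u χ' ^ 2 η ^ 2 ≤ K ^ 2 (C / N) ∫ η ^ 2`.
Second part: by C1 `gd η η ≤ (C₀ / T) ^ 2 exp (- 2 lg)` on the shell and `0` outside. Let `h` be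
`(C₀ / T) ^ 2` times the function of D4a for `V {i // p i}`, `d = 2`, `J = ∅`, `δ = 1`, `T ≥ 2`; so
`gd η η ≤ h`, and by D4a and C2 `∫ ‖fderiv h‖ ≤ (C₀ / T) ^ 2 C ∑ ∫_(shells) exp (- 3 lg) ≤ C₂ / T`. The
function `ζ x = χ (x i₁) * h (prj p x) ≥ 0` is a test function on `V ι`, `χ ^ 2 gd η η ≤ ζ`, and
`gd u u ≤ 2 en u`, so by `EE u`, `‖fderiv ζ‖ ≤ |χ'| h + χ ‖fderiv h‖` and `integral_split`
`∫ gd u u χ ^ 2 gd η η ≤ 2 C₃ ∫ ‖fderiv ζ‖ ≤ C₄ (∫ h + N ∫ ‖fderiv h‖) ≤ C₄ ∫ h + C₅ N / T`.
Choose `T` with `C₅ / T ≤ ε / 2` and `cut T y = 1` for `‖y‖ ≤ R`, then `N₀` large. -/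
theorem cyl_cut2 [DecidableEq ι] {K : ℝ} {u : V ι → ℝ} (hu : GS K u) (hEE : EE u) (i₁ : ι)
    (hn : Fintype.card ι = 4) (R ε : ℝ) (hε : 0 < ε) : ∃ N₀ : ℝ, ∀ N : ℝ, N₀ ≤ N →
      ∃ ξ : V ι → ℝ, T1 ξ ∧ (∀ x, |x i₁| ≤ N → ‖x - x i₁ • be i₁‖ ≤ R → ξ x = 1) ∧
      ∫ x, gd u u x * gd ξ ξ x ≤ ε * N := by
  let p : ι → Prop := fun i => i ≠ i₁
  let hU : Unique {i // ¬ p i} := ⟨⟨⟨i₁, fun h => h rfl⟩⟩, fun a => Subtype.ext (not_not.1 a.2)⟩
  have hdef : (default : {i // ¬ p i}).1 = i₁ := not_not.1 (default : {i // ¬ p i}).2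
  have hcard : Fintype.card {i // p i} = 3 := by
    have h1 : Fintype.card {i // p i} = Fintype.card ι - Fintype.card {i // ¬ p i} := by
      have := Fintype.card_subtype_compl p
      have h2 := Fintype.card_subtype_le p
      omega
    rw [h1, hn, Fintype.card_unique]
  obtain ⟨Cx, hCx0, hCx⟩ := exists_chi
  obtain ⟨Cc, hCc0, hCc⟩ := cut_facts (ι := {i // p i})
  obtain ⟨Cs, hCs0, hCs⟩ := exists_shell_cut (ι := {i // p i}) 2 (by norm_num) ∅
  obtain ⟨Cv, hCv0, hCv⟩ := shell_vol (ι := {i // p i})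
  obtain ⟨Ce, hCe⟩ := hEE
  have hK := hu.K_nonneg
  set A : ℝ := |Ce| with hA
  have hA0 : 0 ≤ A := abs_nonneg _
  obtain ⟨T, hT2, hTR, hTe⟩ : ∃ T : ℝ, 2 ≤ T ∧ Real.log (1 + R ^ 2) / 2 ≤ T ∧
      56 * A * Cc ^ 2 * Cs * Cv / ε ≤ T :=
    ⟨max (max 2 (Real.log (1 + R ^ 2) / 2)) (56 * A * Cc ^ 2 * Cs * Cv / ε),
      (le_max_left _ _).trans (le_max_left _ _), (le_max_right _ _).trans (le_max_left _ _),
      le_max_right _ _⟩
  have hT0 : 0 < T := by linarith
  obtain ⟨c1, c2, c3, c4, c5, c6⟩ := hCc T (by linarith)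
  obtain ⟨ζ, z1, z2, z3, z4, z5⟩ := hCs T 1 hT2 one_pos le_rfl
  set η : V {i // p i} → ℝ := cut T with hη
  set h : V {i // p i} → ℝ := fun y => (Cc / T) ^ 2 * ζ y with hh
  have hh1 : T1 h := z1.const_mul _
  have hh0 : ∀ y, 0 ≤ h y := fun y => mul_nonneg (by positivity) (z2 y)
  have hηh : ∀ y, gd η η y ≤ h y := by
    intro y
    rw [gd_self]
    by_cases hy : y ∈ shell T 1 (∅ : Finset {i // p i})
    · calc ‖fderiv ℝ η y‖ ^ 2 ≤ (Cc / T * Real.exp (-lg y)) ^ 2 :=
            pow_le_pow_left₀ (norm_nonneg _) (c5 y) 2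
        _ = (Cc / T) ^ 2 * Real.exp (-2 * lg y) := by
            rw [mul_pow, ← Real.exp_nat_mul]
            congr 2
            push_cast
            ring
        _ ≤ (Cc / T) ^ 2 * ζ y := mul_le_mul_of_nonneg_left (z3 y hy) (by positivity)
    · rw [c6 y hy, norm_zero, zero_pow two_ne_zero]
      exact hh0 y
  set Ih : ℝ := ∫ y, h y with hIh
  set Ie : ℝ := ∫ y, η y ^ 2 with hIe
  have hIh0 : 0 ≤ Ih := integral_nonneg hh0
  have hIe0 : 0 ≤ Ie := integral_nonneg fun y => by positivity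
  have hdh : ∫ y, ‖fderiv ℝ h y‖ ≤ (Cc / T) ^ 2 * (Cs * Cv * (7 / 2 * T)) := by
    have e1 : ∀ y, ‖fderiv ℝ h y‖ = (Cc / T) ^ 2 * ‖fderiv ℝ ζ y‖ := by
      intro y
      rw [hh, fderiv_const_mul (z1.1.differentiable one_ne_zero y), norm_smul, Real.norm_eq_abs,
        abs_of_nonneg (by positivity)]
    rw [integral_congr_ae (Eventually.of_forall e1), integral_const_mul]
    apply mul_le_mul_of_nonneg_left _ (by positivity)
    apply ge_shell_int hcard hCs0 hT2 hCv z1
    · intro x
      have := z4 x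
      rw [div_one] at this
      refine this.trans (le_of_eq ?_)
      norm_num
    · intro x hx
      apply z5 x
      rw [mul_one]
      exact hx
  refine ⟨max 1 ((16 * A * Cx * Ih + 8 * K ^ 2 * Cx ^ 2 * Ie) / ε), fun N hN => ?_⟩
  have hN1 : 1 ≤ N := (le_max_left _ _).trans hN
  have hN2 : (16 * A * Cx * Ih + 8 * K ^ 2 * Cx ^ 2 * Ie) / ε ≤ N := (le_max_right _ _).trans hN
  have hN0 : 0 < N := by linarith
  obtain ⟨χ, x1, x2, x3, x4, x5⟩ := hCx N hN1
  obtain ⟨g1, g2, g3, g4⟩ := ge_chi (κ := {i // ¬ p i}) hN0 x1 x4 x5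
  set g : V {i // ¬ p i} → ℝ := fun z => χ (z default) with hg
  have hgi : ∫ z, g z ≤ 4 * N := by
    rw [hg, ge_int_unique (κ := {i // ¬ p i}) χ]
    have := ge_int_bound hN0.le (F := χ) (M := 1)
      (fun t => by rw [abs_of_nonneg (x2 t).1]; exact (x2 t).2) (fun t ht => x4 t ht.le)
    linarith
  have hgnn : ∀ z, 0 ≤ g z := fun z => (x2 _).1
  have hgle : ∀ z, g z ≤ 1 := fun z => (x2 _).2
  have hgq : ∀ x : V ι, g (prj (fun i => ¬ p i) x) = χ (x i₁) := by
    intro x
    rw [hg]
    simp only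
    rw [prj_apply, hdef]
  refine ⟨fun x => η (prj p x) * g (prj (fun i => ¬ p i) x),
    ⟨(c1.1.comp (prj p).contDiff).mul (g1.1.comp (prj (fun i => ¬ p i)).contDiff),
      a6b_cs p c1.2 g1.2⟩, ?_, ?_⟩
  · intro x hx1 hx2
    have e1 : DG.emb p (prj p x) = x - x i₁ • be i₁ := by
      ext i
      rw [emb_apply, PiLp.sub_apply, PiLp.smul_apply, be_apply, smul_eq_mul]
      by_cases hi : p i
      · rw [dif_pos hi, prj_apply, if_neg hi, mul_zero, sub_zero]
      · rw [dif_neg hi]
        have hi' : i = i₁ := not_not.1 hi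
        rw [if_pos hi', hi', mul_one, sub_self]
    have e2 : ‖prj p x‖ ≤ R := by
      rw [← norm_emb p, e1]
      exact hx2
    have e3 : lg (prj p x) ≤ T := by
      refine le_trans ?_ hTR
      unfold lg
      have h0 : 0 ≤ ‖prj p x‖ := norm_nonneg _
      have h1 : ‖prj p x‖ ^ 2 ≤ R ^ 2 := pow_le_pow_left₀ h0 e2 2
      have h2 : Real.log (1 + ‖prj p x‖ ^ 2) ≤ Real.log (1 + R ^ 2) :=
        Real.log_le_log (by positivity) (by linarith)
      linarith
    simp only
    rw [hgq, x3 _ hx1, c3 _ e3, mul_one]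
  · have hu1 : Continuous (gd u u) := continuous_gd hu.C1 hu.C1
    have hgb : ∀ x, gd u u x ≤ K ^ 2 := by
      intro x
      rw [gd_self]
      exact pow_le_pow_left₀ (norm_nonneg _) (hu.bdd1 x) 2
    have hgen : ∀ x, gd u u x ≤ 2 * en u x := by
      intro x
      unfold en
      have := sq_nonneg (1 - u x ^ 2)
      linarith [gd_self_nonneg u x]
    have hen : Continuous (en u) := by
      unfold en
      have := hu.C1.continuous
      fun_prop
    -- the test function for the energy estimate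
    have hzeta : T1 fun x : V ι => h (prj p x) * g (prj (fun i => ¬ p i) x) :=
      ⟨(hh1.1.comp (prj p).contDiff).mul (g1.1.comp (prj (fun i => ¬ p i)).contDiff),
        a6b_cs p hh1.2 g1.2⟩
    have hgsq : Continuous fun z => g z ^ 2 := g1.continuous.pow 2
    have hgsq' : HasCompactSupport fun z => g z ^ 2 :=
      g1.2.comp_left (g := fun t : ℝ => t ^ 2) (by norm_num)
    have hesq : Continuous fun y => η y ^ 2 := c1.continuous.pow 2
    have hesq' : HasCompactSupport fun y => η y ^ 2 :=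
      c1.2.comp_left (g := fun t : ℝ => t ^ 2) (by norm_num)
    have hI1 : Integrable fun x : V ι => gd η η (prj p x) * g (prj (fun i => ¬ p i) x) ^ 2 :=
      a6b_int p (f := gd η η) (g := fun z => g z ^ 2) (continuous_gd c1.1 c1.1) hgsq
        (hasCompactSupport_gd c1.2) hgsq'
    have hI2 : Integrable fun x : V ι => η (prj p x) ^ 2 * gd g g (prj (fun i => ¬ p i) x) :=
      a6b_int p (f := fun y => η y ^ 2) (g := gd g g) hesq (continuous_gd g1.1 g1.1) hesq'
        (hasCompactSupport_gd g1.2)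
    have hJ1 : Integrable fun x : V ι => gd u u x *
        (gd η η (prj p x) * g (prj (fun i => ¬ p i) x) ^ 2) := by
      apply integrable_cs
      · exact hu1.mul (((continuous_gd c1.1 c1.1).comp (prj p).continuous).mul
          (hgsq.comp (prj (fun i => ¬ p i)).continuous))
      · exact (a6b_cs p (f := gd η η) (g := fun z => g z ^ 2)
          (hasCompactSupport_gd c1.2) hgsq').mul_left
    have hJ2 : Integrable fun x : V ι => gd u u x *
        (η (prj p x) ^ 2 * gd g g (prj (fun i => ¬ p i) x)) := by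
      apply integrable_cs
      · exact hu1.mul ((hesq.comp (prj p).continuous).mul
          ((continuous_gd g1.1 g1.1).comp (prj (fun i => ¬ p i)).continuous))
      · exact (a6b_cs p (f := fun y => η y ^ 2) (g := gd g g) hesq'
          (hasCompactSupport_gd g1.2)).mul_left
    have hsplit : ∫ x, gd u u x * gd (fun x => η (prj p x) * g (prj (fun i => ¬ p i) x))
        (fun x => η (prj p x) * g (prj (fun i => ¬ p i) x)) x =
        (∫ x, gd u u x * (gd η η (prj p x) * g (prj (fun i => ¬ p i) x) ^ 2)) +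
        ∫ x, gd u u x * (η (prj p x) ^ 2 * gd g g (prj (fun i => ¬ p i) x)) := by
      rw [← integral_add hJ1 hJ2]
      apply integral_congr_ae
      refine Eventually.of_forall fun x => ?_
      simp only
      rw [a6b_gd p c1.1 g1.1 x]
      ring
    rw [hsplit]
    have hb2 : ∫ x, gd u u x * (η (prj p x) ^ 2 * gd g g (prj (fun i => ¬ p i) x)) ≤
        K ^ 2 * (Ie * (4 * Cx ^ 2 / N)) := by
      calc ∫ x, gd u u x * (η (prj p x) ^ 2 * gd g g (prj (fun i => ¬ p i) x))
          ≤ ∫ x, K ^ 2 * (η (prj p x) ^ 2 * gd g g (prj (fun i => ¬ p i) x)) := by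
            apply integral_mono hJ2 (hI2.const_mul _)
            intro x
            apply mul_le_mul_of_nonneg_right (hgb x)
            exact mul_nonneg (by positivity) (gd_self_nonneg _ _)
        _ = K ^ 2 * (Ie * ∫ z, gd g g z) := by
            rw [integral_const_mul,
              integral_split p (fun y => η y ^ 2) (gd g g)]
        _ ≤ K ^ 2 * (Ie * (4 * Cx ^ 2 / N)) := by
            apply mul_le_mul_of_nonneg_left _ (by positivity)
            apply mul_le_mul_of_nonneg_left _ hIe0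
            refine le_trans (le_of_eq ?_) g4
            apply integral_congr_ae
            refine Eventually.of_forall fun z => ?_
            simp only
            rw [gd_self, g2]
    have hb1 : ∫ x, gd u u x * (gd η η (prj p x) * g (prj (fun i => ¬ p i) x) ^ 2) ≤
        2 * (A * ((Cc / T) ^ 2 * (Cs * Cv * (7 / 2 * T)) * (4 * N) + Ih * (4 * Cx))) := by
      have hE1 : Integrable fun x : V ι =>
          (h (prj p x) * g (prj (fun i => ¬ p i) x)) * en u x :=
        integrable_cs (hzeta.continuous.mul hen) hzeta.2.mul_right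
      have hF1 : Integrable fun x : V ι =>
          ‖fderiv ℝ h (prj p x)‖ * g (prj (fun i => ¬ p i) x) :=
        a6b_int p (f := fun y => ‖fderiv ℝ h y‖) (g := g)
          (hh1.1.continuous_fderiv one_ne_zero).norm g1.continuous
          (hh1.2.fderiv (𝕜 := ℝ)).norm g1.2
      have hF2 : Integrable fun x : V ι =>
          h (prj p x) * ‖fderiv ℝ g (prj (fun i => ¬ p i) x)‖ :=
        a6b_int p (f := h) (g := fun z => ‖fderiv ℝ g z‖)
          hh1.continuous (g1.1.continuous_fderiv one_ne_zero).norm hh1.2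
          (g1.2.fderiv (𝕜 := ℝ)).norm
      have hfd : ∫ x, ‖fderiv ℝ (fun x : V ι => h (prj p x) * g (prj (fun i => ¬ p i) x)) x‖ ≤
          (Cc / T) ^ 2 * (Cs * Cv * (7 / 2 * T)) * (4 * N) + Ih * (4 * Cx) := by
        calc ∫ x, ‖fderiv ℝ (fun x : V ι => h (prj p x) * g (prj (fun i => ¬ p i) x)) x‖
            ≤ ∫ x, (‖fderiv ℝ h (prj p x)‖ * g (prj (fun i => ¬ p i) x) +
              h (prj p x) * ‖fderiv ℝ g (prj (fun i => ¬ p i) x)‖) := by
              apply integral_mono _ (hF1.add hF2)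
              · intro x
                have := ge_fderiv_prod p hh1.1 g1.1 x
                rw [abs_of_nonneg (hgnn _), abs_of_nonneg (hh0 _)] at this
                exact this
              · exact integrable_cs (hzeta.1.continuous_fderiv one_ne_zero).norm
                  (hzeta.2.fderiv (𝕜 := ℝ)).norm
          _ = (∫ y, ‖fderiv ℝ h y‖) * (∫ z, g z) + Ih * ∫ z, ‖fderiv ℝ g z‖ := by
              rw [integral_add hF1 hF2, integral_split p (fun y => ‖fderiv ℝ h y‖) g,
                integral_split p h (fun z => ‖fderiv ℝ g z‖)]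
          _ ≤ _ := by
              apply add_le_add
              · apply mul_le_mul hdh hgi (integral_nonneg hgnn) (by positivity)
              · apply mul_le_mul_of_nonneg_left _ hIh0
                refine le_trans (le_of_eq ?_) g3
                apply integral_congr_ae
                refine Eventually.of_forall fun z => ?_
                simp only
                rw [g2]
      have hfd0 : 0 ≤ ∫ x, ‖fderiv ℝ (fun x : V ι =>
          h (prj p x) * g (prj (fun i => ¬ p i) x)) x‖ :=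
        integral_nonneg fun x => norm_nonneg _
      calc ∫ x, gd u u x * (gd η η (prj p x) * g (prj (fun i => ¬ p i) x) ^ 2)
          ≤ ∫ x, 2 * ((h (prj p x) * g (prj (fun i => ¬ p i) x)) * en u x) := by
            apply integral_mono hJ1 (hE1.const_mul _)
            intro x
            simp only
            have a1 := hgen x
            have a2 := hηh (prj p x)
            have a3 := hgnn (prj (fun i => ¬ p i) x)
            have a4 := hgle (prj (fun i => ¬ p i) x)
            have a5 := gd_self_nonneg u x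
            have a6 := gd_self_nonneg η (prj p x)
            have a7 := hh0 (prj p x)
            have a8 : g (prj (fun i => ¬ p i) x) ^ 2 ≤ g (prj (fun i => ¬ p i) x) := by
              nlinarith
            have a9 : gd η η (prj p x) * g (prj (fun i => ¬ p i) x) ^ 2 ≤
                h (prj p x) * g (prj (fun i => ¬ p i) x) :=
              mul_le_mul a2 a8 (by positivity) a7
            calc gd u u x * (gd η η (prj p x) * g (prj (fun i => ¬ p i) x) ^ 2)
                ≤ (2 * en u x) * (h (prj p x) * g (prj (fun i => ¬ p i) x)) :=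
                  mul_le_mul a1 a9 (mul_nonneg a6 (by positivity)) (a5.trans a1)
              _ = _ := by ring
        _ = 2 * ∫ x, (h (prj p x) * g (prj (fun i => ¬ p i) x)) * en u x := by
            rw [integral_const_mul]
        _ ≤ 2 * (Ce * ∫ x, ‖fderiv ℝ (fun x : V ι =>
            h (prj p x) * g (prj (fun i => ¬ p i) x)) x‖) := by
            apply mul_le_mul_of_nonneg_left _ two_pos.le
            exact hCe _ hzeta fun x => mul_nonneg (hh0 _) (hgnn _)
        _ ≤ 2 * (A * ((Cc / T) ^ 2 * (Cs * Cv * (7 / 2 * T)) * (4 * N) + Ih * (4 * Cx))) := by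
            apply mul_le_mul_of_nonneg_left _ two_pos.le
            exact (mul_le_mul_of_nonneg_right (le_abs_self _) hfd0).trans
              (mul_le_mul_of_nonneg_left hfd hA0)
    have f1 : 28 * A * Cc ^ 2 * Cs * Cv / T ≤ ε / 2 := by
      rw [div_le_iff₀ hε] at hTe
      rw [div_le_iff₀ hT0]
      linarith
    have f2 : 2 * (A * ((Cc / T) ^ 2 * (Cs * Cv * (7 / 2 * T)) * (4 * N))) =
        28 * A * Cc ^ 2 * Cs * Cv / T * N := by
      field_simp
      ring
    have f3 : K ^ 2 * (Ie * (4 * Cx ^ 2 / N)) ≤ 4 * K ^ 2 * Cx ^ 2 * Ie := by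
      have : K ^ 2 * (Ie * (4 * Cx ^ 2 / N)) = 4 * K ^ 2 * Cx ^ 2 * Ie / N := by ring
      rw [this]
      exact div_le_self (by positivity) hN1
    have f4 : 8 * A * Cx * Ih + 4 * K ^ 2 * Cx ^ 2 * Ie ≤ ε / 2 * N := by
      rw [div_le_iff₀ hε] at hN2
      linarith
    have f5 := mul_le_mul_of_nonneg_right f1 hN0.le
    calc _ ≤ 2 * (A * ((Cc / T) ^ 2 * (Cs * Cv * (7 / 2 * T)) * (4 * N) + Ih * (4 * Cx))) +
          K ^ 2 * (Ie * (4 * Cx ^ 2 / N)) := add_le_add hb1 hb2
      _ = 2 * (A * ((Cc / T) ^ 2 * (Cs * Cv * (7 / 2 * T)) * (4 * N))) + 8 * A * Cx * Ih +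
          K ^ 2 * (Ie * (4 * Cx ^ 2 / N)) := by ring
      _ ≤ ε * N := by
          rw [f2]
          linarith

end Pool.Agent.Helper68.DG
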