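import Pool.Agent.Helper68.DG.Base
import Pool.Agent.Helper68.DG.A6a
import Pool.Agent.Helper68.DG.T1

/-! Project DG (MP_800410_an), piece H1: hyperplane level sets -/

open MeasureTheory Metric Set Filter Topology
open scoped ContDiff

namespace Pool.Agent.Helper68.DG

variable {ι : Type} [Fintype ι]

/-- Proof. Fix a point `x₀`. The gradient of `u` at `x₀`, that is the vector `a` with
`inner ℝ a b = fderiv ℝ u x₀ b` for all `b` (`InnerProductSpace.toDual`), is not zero since
`fderiv ℝ u x₀ e > 0`. If `inner ℝ a b = 0` then `fderiv ℝ u x₀ b = 0`, so by `Signed u` the derivative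
in the direction `b` vanishes everywhere; and `fderiv ℝ u x₀ a = ‖a‖ ^ 2 > 0`, so
`fderiv ℝ u x a > 0` for all `x`. So `u x = u x'` if `inner ℝ a x = inner ℝ a x'` (constant along the
segment), and `t ↦ u (x + t • a)` is strictly increasing. Let `y = u x₁`. If `u x = y`, write
`x = x₁ + t • a + b` with `inner ℝ a b = 0`; then `u x = u (x₁ + t • a)`, so `t = 0`. So
`u ⁻¹' {y} = {x | inner ℝ a (x - x₁) = 0}`, the affine subspace through `x₁` with direction the
orthogonal complement of the line of `a`, of dimension `card ι - 1`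
(`AffineSubspace.mk'`, `Submodule.finrank_orthogonal_span_singleton` or
`Submodule.finrank_add_finrank_orthogonal`). -/
theorem hyper {u : V ι → ℝ} (hu : ContDiff ℝ 1 u) (hs : Signed u) {e : V ι}
    (he : ∀ x, 0 < fderiv ℝ u x e) :
    ∀ y ∈ Set.range u, ∃ s : AffineSubspace ℝ (V ι),
      Module.finrank ℝ s.direction + 1 = Fintype.card ι ∧ (s : Set (V ι)) = u ⁻¹' {y} := by
  classical
  have hd : Differentiable ℝ u := hu.differentiable one_ne_zero
  set a : V ι := (InnerProductSpace.toDual ℝ (V ι)).symm (fderiv ℝ u 0) with ha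
  have hin : ∀ b : V ι, inner ℝ a b = fderiv ℝ u 0 b := fun b => by
    rw [ha, InnerProductSpace.toDual_symm_apply]
  have ha0 : a ≠ 0 := by
    intro h0
    have h1 := he 0
    rw [← hin, h0, inner_zero_left] at h1
    exact lt_irrefl _ h1
  have hpos : 0 < inner ℝ a a := by
    rw [real_inner_self_eq_norm_sq]
    have := norm_pos_iff.mpr ha0
    positivity
  have k1 : ∀ b : V ι, inner ℝ a b = 0 → ∀ x, fderiv ℝ u x b = 0 := by
    intro b hb
    rcases hs b with h | h | h
    · have h1 := h 0
      rw [← hin, hb] at h1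
      exact absurd h1 (lt_irrefl _)
    · have h1 := h 0
      rw [← hin, hb] at h1
      exact absurd h1 (lt_irrefl _)
    · exact h
  have k2 : ∀ x, 0 < fderiv ℝ u x a := by
    rcases hs a with h | h | h
    · exact h
    · have h1 := h 0
      rw [← hin] at h1
      exact absurd hpos (not_lt.mpr h1.le)
    · have h1 := h 0
      rw [← hin] at h1
      exact absurd hpos (by rw [h1]; exact lt_irrefl _)
  have hg : ∀ (x b : V ι) (t : ℝ),
      HasDerivAt (fun t : ℝ => u (x + t • b)) (fderiv ℝ u (x + t • b) b) t := by
    intro x b t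
    have h1 : HasDerivAt (fun t : ℝ => x + t • b) b t := by
      have h2 := ((hasDerivAt_id t).smul_const b).const_add x
      simpa using h2
    exact ((hd (x + t • b)).hasFDerivAt).comp_hasDerivAt t h1
  have k3 : ∀ x b : V ι, inner ℝ a b = 0 → u (x + b) = u x := by
    intro x b hb
    have hc := is_const_of_deriv_eq_zero (fun t => (hg x b t).differentiableAt)
      (fun t => by rw [(hg x b t).deriv]; exact k1 b hb _) 1 0
    simpa using hc
  have k4 : ∀ x : V ι, StrictMono (fun t : ℝ => u (x + t • a)) := by
    intro x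
    refine strictMono_of_deriv_pos fun t => ?_
    rw [(hg x a t).deriv]
    exact k2 _
  rintro y ⟨x₁, rfl⟩
  refine ⟨AffineSubspace.mk' x₁ (ℝ ∙ a)ᗮ, ?_, ?_⟩
  · rw [AffineSubspace.direction_mk']
    have h1 := Submodule.finrank_add_finrank_orthogonal (ℝ ∙ a : Submodule ℝ (V ι))
    rw [finrank_span_singleton ha0, finrank_euclideanSpace] at h1
    omega
  · ext x
    rw [SetLike.mem_coe, AffineSubspace.mem_mk', vsub_eq_sub,
      Submodule.mem_orthogonal_singleton_iff_inner_right, Set.mem_preimage, Set.mem_singleton_iff]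
    constructor
    · intro h
      have := k3 x₁ (x - x₁) h
      rwa [add_sub_cancel] at this
    · intro h
      set c : ℝ := inner ℝ a (x - x₁) / inner ℝ a a with hc
      have hb : inner ℝ a (x - x₁ - c • a) = 0 := by
        rw [inner_sub_right, inner_smul_right, hc, div_mul_cancel₀ _ hpos.ne', sub_self]
      have h1 := k3 (x₁ + c • a) _ hb
      have h2 : x₁ + c • a + (x - x₁ - c • a) = x := by abel
      rw [h2, h] at h1
      have h3 : (fun t : ℝ => u (x₁ + t • a)) 0 = (fun t : ℝ => u (x₁ + t • a)) c := by
        simp only [zero_smul, add_zero]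
        exact h1
      have h4 := (k4 x₁).injective h3
      rw [hc, eq_comm, div_eq_zero_iff] at h4
      rcases h4 with h4 | h4
      · exact h4
      · exact absurd h4 hpos.ne'

end Pool.Agent.Helper68.DG
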