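import Pool.Agent.Helper68.DG.Base
import Pool.Agent.Helper68.DG.A6a
import Pool.Agent.Helper68.DG.T1

/-! Project DG (MP_800410_an), piece ISO: restriction of isometries; the energy estimate under isometries -/

open MeasureTheory Metric Set Filter Topology
open scoped ContDiff

namespace Pool.Agent.Helper68.DG

variable {ι : Type} [Fintype ι]

theorem iso_coord (A : V ι ≃ₗᵢ[ℝ] V ι) (i₀ : ι) (hA : A (be i₀) = be i₀) (x : V ι) :
    A x i₀ = x i₀ := by
  have h : inner ℝ (be i₀) (A x) = inner ℝ (A (be i₀)) (A x) := by rw [hA]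
  rw [inner_be, A.inner_map_map, inner_be] at h
  exact h

theorem iso_emb_prj [DecidableEq ι] (i₀ : ι) (x : V ι) (h : x i₀ = 0) :
    emb (fun i => i ≠ i₀) (prj (fun i => i ≠ i₀) x) = x := by
  ext i
  rw [emb_apply]
  by_cases hi : i = i₀
  · subst hi
    simp [h]
  · rw [dif_pos hi, prj_apply]

theorem iso_emb_prj_map [DecidableEq ι] (i₀ : ι) (B : V ι ≃ₗᵢ[ℝ] V ι) (hB : B (be i₀) = be i₀)
    (y : V {i // i ≠ i₀}) :
    emb (fun i => i ≠ i₀) (prj (fun i => i ≠ i₀) (B (emb (fun i => i ≠ i₀) y))) =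
      B (emb (fun i => i ≠ i₀) y) := by
  apply iso_emb_prj
  rw [iso_coord B i₀ hB, emb_apply]
  simp

theorem iso_norm_fderiv (S : V ι ≃ₗᵢ[ℝ] V ι) {f : V ι → ℝ} (hf : ContDiff ℝ 1 f) (x : V ι) :
    ‖fderiv ℝ (fun y => f (S y)) x‖ = ‖fderiv ℝ f (S x)‖ := by
  apply le_antisymm
  · refine ContinuousLinearMap.opNorm_le_bound _ (norm_nonneg _) fun b => ?_
    rw [fderiv_isom S hf]
    refine ((fderiv ℝ f (S x)).le_opNorm (S b)).trans ?_
    rw [S.norm_map]
  · refine ContinuousLinearMap.opNorm_le_bound _ (norm_nonneg _) fun b => ?_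
    have h := (fderiv ℝ (fun y => f (S y)) x).le_opNorm (S.symm b)
    rw [fderiv_isom S hf, S.apply_symm_apply, S.symm.norm_map] at h
    exact h

theorem iso_integral (T : V ι ≃ₗᵢ[ℝ] V ι) (g : V ι → ℝ) : ∫ x, g (T x) = ∫ x, g x :=
  T.measurePreserving.integral_comp T.toHomeomorph.measurableEmbedding g

theorem iso_en (T : V ι ≃ₗᵢ[ℝ] V ι) {u : V ι → ℝ} (hu : ContDiff ℝ 1 u) (x : V ι) :
    en (fun y => u (T y)) x = en u (T x) := by
  unfold en
  rw [gd_self, gd_self, iso_norm_fderiv T hu]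

theorem iso_pow {u : V ι → ℝ} (A : V ι ≃ₗᵢ[ℝ] V ι) (i₁ : ι) (hA : A (be i₁) = be i₁)
    {c : ℝ} (hinv : ∀ x, u (A x + c • be i₁) = u x) (k : ℕ) :
    ∃ A' : V ι ≃ₗᵢ[ℝ] V ι, A' (be i₁) = be i₁ ∧
      ∀ x, u (A' x + ((k : ℝ) * c) • be i₁) = u x := by
  induction k with
  | zero =>
    refine ⟨LinearIsometryEquiv.refl ℝ _, rfl, fun x => ?_⟩
    simp
  | succ k ih =>
    obtain ⟨A', h1, h2⟩ := ih
    refine ⟨A.trans A', ?_, fun x => ?_⟩
    · rw [LinearIsometryEquiv.trans_apply, hA, h1]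
    · have h3 := h2 (A x + c • be i₁)
      rw [hinv, map_add, map_smul, h1] at h3
      rw [← h3]
      congr 1
      rw [LinearIsometryEquiv.trans_apply]
      push_cast
      module

/-- Proof. `A` preserves the orthogonal complement of `be i₀` (`(A x) i₀ = inner (be i₀) (A x)`
`= inner (A.symm (be i₀)) x = x i₀`), which is the range of `emb`. Take `A₁ = prj ∘ A ∘ emb`, with inverse
`prj ∘ A.symm ∘ emb`. -/
theorem restrict_isom [DecidableEq ι] (A : V ι ≃ₗᵢ[ℝ] V ι) (i₀ : ι) (hA : A (be i₀) = be i₀) :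
    ∃ A₁ : V {i // i ≠ i₀} ≃ₗᵢ[ℝ] V {i // i ≠ i₀},
      ∀ y, emb (fun i => i ≠ i₀) (A₁ y) = A (emb (fun i => i ≠ i₀) y) := by
  have hs : A.symm (be i₀) = be i₀ := by
    have h := A.symm_apply_apply (be i₀)
    rw [hA] at h
    exact h
  let L : V {i // i ≠ i₀} ≃ₗ[ℝ] V {i // i ≠ i₀} :=
    { toFun := fun y => prj (fun i => i ≠ i₀) (A (emb (fun i => i ≠ i₀) y))
      invFun := fun y => prj (fun i => i ≠ i₀) (A.symm (emb (fun i => i ≠ i₀) y))
      map_add' := by intro a b; simp only [map_add]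
      map_smul' := by intro c a; simp only [map_smul, RingHom.id_apply]
      left_inv := by
        intro y
        change prj (fun i => i ≠ i₀) (A.symm (emb (fun i => i ≠ i₀)
          (prj (fun i => i ≠ i₀) (A (emb (fun i => i ≠ i₀) y))))) = y
        rw [iso_emb_prj_map i₀ A hA, A.symm_apply_apply, prj_emb]
      right_inv := by
        intro y
        change prj (fun i => i ≠ i₀) (A (emb (fun i => i ≠ i₀)
          (prj (fun i => i ≠ i₀) (A.symm (emb (fun i => i ≠ i₀) y))))) = y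
        rw [iso_emb_prj_map i₀ A.symm hs, A.apply_symm_apply, prj_emb] }
  refine ⟨⟨L, ?_⟩, ?_⟩
  · intro y
    change ‖prj (fun i => i ≠ i₀) (A (emb (fun i => i ≠ i₀) y))‖ = ‖y‖
    rw [← norm_emb (fun i => i ≠ i₀), iso_emb_prj_map i₀ A hA, A.norm_map, norm_emb]
  · intro y
    exact iso_emb_prj_map i₀ A hA y

/-- Proof. Substitute `x = T y` (`T` preserves the volume): for a test function `ζ ≥ 0` the function
`ζ ∘ T.symm` is a test function, `en (u ∘ T) = (en u) ∘ T` (`gd_self`: `‖fderiv (u ∘ T) y‖ =`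
`‖fderiv u (T y)‖`) and `‖fderiv (ζ ∘ T.symm)‖ = ‖fderiv ζ‖ ∘ T.symm`. -/
theorem EE.isom (T : V ι ≃ₗᵢ[ℝ] V ι) {u : V ι → ℝ} (hu : ContDiff ℝ 1 u) (h : EE u) :
    EE fun y => u (T y) := by
  obtain ⟨C, hC⟩ := h
  refine ⟨C, fun ζ hζ h0 => ?_⟩
  have h1 : T1 fun x => ζ (T.symm x) := by
    refine ⟨t1_contDiff T.symm hζ.1, ?_⟩
    exact hζ.2.comp_homeomorph T.symm.toHomeomorph
  have h2 := hC (fun x => ζ (T.symm x)) h1 (fun x => h0 _)
  have h3 : ∫ x, ζ x * en (fun y => u (T y)) x = ∫ x, ζ (T.symm x) * en u x := by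
    rw [← iso_integral T fun x => ζ (T.symm x) * en u x]
    congr 1
    funext x
    rw [iso_en T hu, T.symm_apply_apply]
  have h4 : ∫ x, ‖fderiv ℝ (fun x => ζ (T.symm x)) x‖ = ∫ x, ‖fderiv ℝ ζ x‖ := by
    rw [← iso_integral T.symm fun x => ‖fderiv ℝ ζ x‖]
    congr 1
    funext x
    rw [iso_norm_fderiv T.symm hζ.1]
  rw [h3, ← h4]
  exact h2

/-- Proof. Induction; `A^[k]` as a linear isometry is `A ^ k` in the group of linear isometries. The
second case (`c < 0`) uses `A.symm`: `u (A.symm x - c • be i₁) = u x`, because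
`u (A y + c • be i₁) = u y` for `y = A.symm x - c • be i₁`. -/
theorem powers_of_screw {u : V ι → ℝ} (A : V ι ≃ₗᵢ[ℝ] V ι) (i₁ : ι) (hA : A (be i₁) = be i₁)
    {c : ℝ} (hc : c ≠ 0) (hinv : ∀ x, u (A x + c • be i₁) = u x) (L : ℝ) :
    ∃ c' : ℝ, L ≤ c' ∧ ∃ A' : V ι ≃ₗᵢ[ℝ] V ι, A' (be i₁) = be i₁ ∧
      ∀ x, u (A' x + c' • be i₁) = u x := by
  rcases lt_or_gt_of_ne hc with h | h
  · have hs : A.symm (be i₁) = be i₁ := by
      have h := A.symm_apply_apply (be i₁)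
      rw [hA] at h
      exact h
    have hinv' : ∀ x, u (A.symm x + (-c) • be i₁) = u x := by
      intro x
      rw [← hinv, map_add, map_smul, hA, A.apply_symm_apply]
      congr 1
      module
    obtain ⟨k, hk⟩ := exists_nat_ge (L / (-c))
    obtain ⟨A', h1, h2⟩ := iso_pow A.symm i₁ hs hinv' k
    refine ⟨(k : ℝ) * (-c), ?_, A', h1, h2⟩
    rw [div_le_iff₀ (by linarith)] at hk
    exact hk
  · obtain ⟨k, hk⟩ := exists_nat_ge (L / c)
    obtain ⟨A', h1, h2⟩ := iso_pow A i₁ hA hinv k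
    refine ⟨(k : ℝ) * c, ?_, A', h1, h2⟩
    rw [div_le_iff₀ h] at hk
    exact hk

end Pool.Agent.Helper68.DG
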