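import Pool.Agent.Helper68.DG.HBA
import Pool.Agent.Helper68.DG.GB
import Pool.Agent.Helper68.DG.GC
import Pool.Agent.Helper68.DG.GD
import Pool.Agent.Helper68.DG.GE
import Pool.Agent.Helper68.DG.ISO

/-! Project DG (MP_800410_an): assembly for all isometries of infinite order in dimension four. -/

open MeasureTheory Metric Set Filter Topology
open scoped ContDiff

namespace Pool.Agent.Helper68.DG

section general

variable {ι : Type} [Fintype ι]

theorem emb_injective (p : ι → Prop) [DecidablePred p] : Function.Injective (emb p) := by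
  intro y z h
  rw [← prj_emb p y, ← prj_emb p z, h]

/-- the derivative along the axis of a screw motion vanishes, given the cutoffs -/
theorem drift_zero [DecidableEq ι] {K : ℝ} {u : V ι → ℝ} (hu : GS K u) (hst : Stab u) (i₁ : ι)
    (A : V ι ≃ₗᵢ[ℝ] V ι) (hA : A (be i₁) = be i₁) {c : ℝ} (hc : c ≠ 0)
    (hinv : ∀ x, u (A x + c • be i₁) = u x)
    (H : ∀ R ε : ℝ, 0 < ε → ∃ N₀ : ℝ, ∀ N : ℝ, N₀ ≤ N → ∃ ξ : V ι → ℝ, T1 ξ ∧
      (∀ x, |x i₁| ≤ N → ‖x - x i₁ • be i₁‖ ≤ R → ξ x = 1) ∧
      ∫ x, gd u u x * gd ξ ξ x ≤ ε * N) (x : V ι) : pd i₁ u x = 0 := by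
  have h1 := drift_signed hu hst i₁ (powers_of_screw A i₁ hA hc hinv) H
  have h2 := no_mono hu.C1 A (c • be i₁) hinv
  have h3 : ∀ x, fderiv ℝ u x (c • be i₁) = c * pd i₁ u x := fun x => by
    rw [map_smul, smul_eq_mul]; rfl
  rcases h1 with h | h | h
  · exfalso
    apply h2
    rcases lt_or_gt_of_ne hc with hc | hc
    · exact Or.inr fun x => by rw [h3]; exact mul_neg_of_neg_of_pos hc (h x)
    · exact Or.inl fun x => by rw [h3]; exact mul_pos hc (h x)
  · exfalso
    apply h2
    rcases lt_or_gt_of_ne hc with hc | hc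
    · exact Or.inl fun x => by rw [h3]; exact mul_pos_of_neg_of_neg hc (h x)
    · exact Or.inr fun x => by rw [h3]; exact mul_neg_of_pos_of_neg hc (h x)
  · exact h x

end general

/-- screw motions in dimension four, in coordinates -/
theorem ha_core {K : ℝ} {u : V (Fin 4) → ℝ} (hu : GS K u) (he : ∀ x, 0 < pd 0 u x)
    (A : V (Fin 4) ≃ₗᵢ[ℝ] V (Fin 4)) (hA0 : A (be 0) = be 0) (hA1 : A (be 1) = be 1)
    {α β : ℝ} (hβ : β ≠ 0) (hinv : ∀ x, u (A x + (α • be 0 + β • be 1)) = u x) : Signed u := by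
  have hst : Stab u := stab_of_pos hu (be 0) he
  obtain ⟨v, hv, hvst, hv0, hlim, hlim'⟩ := exists_profile hu hst (be 0) fun x => (he x).le
  have h0 : ∀ i : Fin 4, ¬ (i ≠ 0) → ∀ x, pd i v x = 0 := by
    intro i hi x
    have : i = 0 := by simpa using hi
    rw [this]; exact hv0 x
  -- the profile is invariant
  have hinvv : ∀ x, v (A x + β • be 1) = v x := by
    intro x
    have h1 : Tendsto (fun t : ℝ => u (A x + β • be 1 + (t + α) • be 0)) atTop
        (𝓝 (v (A x + β • be 1))) :=
      (hlim _).comp (tendsto_atTop_add_const_right _ α tendsto_id)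
    refine tendsto_nhds_unique h1 ((hlim x).congr fun t => ?_)
    rw [← hinv (x + t • be 0), map_add, map_smul, hA0]
    congr 1
    rw [add_smul]
    abel
  set p : Fin 4 → Prop := fun i => i ≠ 0 with hp
  have hv1 := GS.emb p hv h0
  have hst1 := Stab.emb p hv hvst h0
  obtain ⟨A₁, hA₁⟩ := restrict_isom A 0 hA0
  set i₁ : {i : Fin 4 // p i} := ⟨1, by decide⟩ with hi₁
  have hei : DG.emb p (be i₁) = be 1 := emb_be p i₁
  have hA₁1 : A₁ (be i₁) = be i₁ := by
    apply emb_injective p
    rw [hA₁, hei, hA1]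
  have hinv1 : ∀ y, (v ∘ DG.emb p) (A₁ y + β • be i₁) = (v ∘ DG.emb p) y := by
    intro y
    show v (DG.emb p (A₁ y + β • be i₁)) = v (DG.emb p y)
    rw [map_add, map_smul, hA₁, hei]
    exact hinvv _
  have hc := card_ne (ι := Fin 4) p
  have hc1 : (Finset.univ.filter fun i : Fin 4 => ¬ p i) = {0} := by
    ext i; simp [hp]
  rw [hc1, Finset.card_singleton, Fintype.card_fin] at hc
  have hz1 := drift_zero hv1 hst1 i₁ A₁ hA₁1 hβ hinv1
    (cyl_cut1 hv1 i₁ (by omega))
  have hz1' : ∀ x, pd 1 v x = 0 := by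
    intro x
    have h1 := hz1 (prj p x)
    rw [pd_emb p hv.C1] at h1
    rw [eq_emb_prj_pd p hv.smooth h0 1 x]
    exact h1
  -- two variables remain
  have h0' : ∀ i : Fin 4, ¬ (i ≠ 0 ∧ i ≠ 1) → ∀ x, pd i v x = 0 := by
    intro i hi x
    by_cases hne : i = 0
    · rw [hne]; exact hv0 x
    · have : i = 1 := by by_contra hc; exact hi ⟨hne, hc⟩
      rw [this]; exact hz1' x
  have hv2 := GS.emb (fun i => i ≠ 0 ∧ i ≠ 1) hv h0'
  have hst2 := Stab.emb (fun i => i ≠ 0 ∧ i ≠ 1) hv hvst h0'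
  have hc2 := card_ne (ι := Fin 4) (fun i => i ≠ 0 ∧ i ≠ 1)
  have hc3 : (Finset.univ.filter fun i : Fin 4 => ¬ (i ≠ 0 ∧ i ≠ 1)) = {0, 1} := by
    decide
  rw [hc3, Fintype.card_fin, Finset.card_pair (by decide)] at hc2
  have ham := AM.lift (fun i => i ≠ 0 ∧ i ≠ 1) hv.C1 h0'
    (AM_of_signed hv2 hst2 (signed_dim2 hv2 hst2 (by omega)))
  have hEE := EE_of_profile_AM hu hv (be 0) (fun x => (he x).le) hlim hlim' ham
  -- the coordinates adapted to the translation
  set a : V (Fin 4) := α • be 0 + β • be 1 with ha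
  have hAa : A a = a := by rw [ha, map_add, map_smul, map_smul, hA0, hA1]
  have hb00 : inner ℝ (be 0 : V (Fin 4)) (be 0) = (1 : ℝ) := by rw [inner_be, be_apply]; simp
  have hb01 : inner ℝ (be 0 : V (Fin 4)) (be 1) = (0 : ℝ) := by rw [inner_be, be_apply]; simp
  have hb10 : inner ℝ (be 1 : V (Fin 4)) (be 0) = (0 : ℝ) := by rw [inner_be, be_apply]; simp
  have hb11 : inner ℝ (be 1 : V (Fin 4)) (be 1) = (1 : ℝ) := by rw [inner_be, be_apply]; simp
  have hr : 0 < α ^ 2 + β ^ 2 := by positivity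
  set w : V (Fin 4) := be 0 - (α / (α ^ 2 + β ^ 2)) • a with hw
  have haw : inner ℝ a w = (0 : ℝ) := by
    rw [hw, ha]
    simp only [inner_sub_right, inner_smul_right, inner_add_left, inner_add_right,
      inner_smul_left, hb00, hb01, hb10, hb11]
    simp
    field_simp
    ring
  have hw0 : w ≠ 0 := by
    intro h
    have h1 : inner ℝ (be 0 : V (Fin 4)) w = (0 : ℝ) := by rw [h, inner_zero_right]
    rw [hw, ha] at h1
    simp only [inner_sub_right, inner_smul_right, inner_add_right, hb00, hb01] at h1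
    have h2 : β ^ 2 = 0 := by
      field_simp at h1
      linarith
    exact hβ (pow_eq_zero_iff two_ne_zero |>.1 h2)
  have ha0 : a ≠ 0 := by
    intro h
    have h1 : inner ℝ (be 1 : V (Fin 4)) a = (0 : ℝ) := by rw [h, inner_zero_right]
    rw [ha] at h1
    simp only [inner_smul_right, inner_add_right, hb10, hb11] at h1
    apply hβ
    linarith
  obtain ⟨T, ⟨c, hcpos, hT0⟩, hTF⟩ := exists_adapted (m := 3) (k := 1)
    (Submodule.span ℝ {a}) (finrank_span_singleton ha0) hw0 (by
      intro f hf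
      obtain ⟨t, rfl⟩ := Submodule.mem_span_singleton.1 hf
      rw [inner_smul_left, haw, mul_zero]) (by norm_num)
  obtain ⟨s, hs⟩ := Submodule.mem_span_singleton.1 (hTF 1 (by decide) (by decide))
  have hs0 : s ≠ 0 := by
    rintro rfl
    rw [zero_smul] at hs
    have h1 : ‖T (be 1)‖ = 1 := by rw [T.norm_map, norm_be]
    rw [← hs, norm_zero] at h1
    norm_num at h1
  have hu2 := GS.isom T hu
  have hst2' : Stab fun y => u (T y) := by
    apply stab_of_pos hu2 (T.symm (be 0))
    intro x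
    rw [fderiv_isom T hu.C1, T.apply_symm_apply]
    exact he _
  have hEE2 := EE.isom T hu.C1 hEE
  set A₂ : V (Fin 4) ≃ₗᵢ[ℝ] V (Fin 4) := (T.trans A).trans T.symm with hA₂
  have hA₂1 : A₂ (be 1) = be 1 := by
    show T.symm (A (T (be 1))) = be 1
    rw [← hs, map_smul, hAa, hs, T.symm_apply_apply]
  have hinv2 : ∀ x, (fun y => u (T y)) (A₂ x + s⁻¹ • be 1) = (fun y => u (T y)) x := by
    intro x
    show u (T (T.symm (A (T x)) + s⁻¹ • be 1)) = u (T x)
    rw [map_add, T.apply_symm_apply, map_smul, ← hs, smul_smul, inv_mul_cancel₀ hs0, one_smul]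
    exact hinv _
  have hz2 := drift_zero hu2 hst2' 1 A₂ hA₂1 (inv_ne_zero hs0) hinv2
    (cyl_cut2 hu2 hEE2 1 (Fintype.card_fin 4))
  have hdir : ∀ x, fderiv ℝ u (T x) a = 0 := by
    intro x
    have h1 : pd 1 (fun y => u (T y)) x = s * fderiv ℝ u (T x) a := by
      unfold pd
      rw [fderiv_isom T hu.C1, ← hs, map_smul, smul_eq_mul]
    have h2 := hz2 x
    rw [h1] at h2
    exact (mul_eq_zero.1 h2).resolve_left hs0
  have h0u : ∀ i : Fin 4, ¬ (i ≠ 1) → ∀ x, pd i (fun y => u (T y)) x = 0 := by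
    intro i hi x
    have : i = 1 := by simpa using hi
    rw [this]; exact hz2 x
  have hu3 := GS.emb (fun i => i ≠ 1) hu2 h0u
  have hc4 := card_ne (ι := Fin 4) (fun i => i ≠ 1)
  have hc5 : (Finset.univ.filter fun i : Fin 4 => ¬ (i ≠ 1)) = {1} := by decide
  rw [hc5, Fintype.card_fin, Finset.card_singleton] at hc4
  have hs3 := dg3 hu3 (by simp) ⟨0, by decide⟩ (fun y => by
    rw [pd_emb _ hu2.C1]
    show 0 < fderiv ℝ (fun y => u (T y)) _ (be 0)
    rw [fderiv_isom T hu.C1, hT0, map_smul, smul_eq_mul, hw, map_sub, map_smul, hdir]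
    simp only [smul_zero, sub_zero]
    exact mul_pos hcpos (he _))
  exact Signed.of_isom T hu.C1 (Signed.lift (fun i => i ≠ 1) hu2.C1 h0u hs3)

/-- isometries with a fixed point, dimension four -/
theorem ha_fixed {K : ℝ} {u : V (Fin 4) → ℝ} (hu : GS K u) {e : V (Fin 4)}
    (he : ∀ x, 0 < fderiv ℝ u x e) (A : V (Fin 4) ≃ₗᵢ[ℝ] V (Fin 4))
    (hA : ∀ k : ℕ, 0 < k → (⇑A)^[k] ≠ id) (hinv : ∀ x, u (A x) = u x) : Signed u := by
  have hu1 := hu.C1
  obtain ⟨B, hB0, hskew, hBu, hBfix⟩ := exists_killing A hA hu1 hinv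
  obtain ⟨v, hAv, hv⟩ := exists_fixed_mono A (fun x => A x) (fun x b => by
    have := fderiv_inv hu1 A 0 (fun x => by rw [add_zero]; exact hinv x) x b
    rwa [add_zero] at this) he
  have hv0 : v ≠ 0 := by
    rintro rfl
    have := hv 0
    rw [map_zero] at this
    exact lt_irrefl _ this
  obtain ⟨T, c, b, hc, hb, hT0, hB1, hB2, hB3⟩ :=
    skew_normal4 B hB0 hskew hv0 (hBfix v hAv)
  have hGT := GS.isom T hu
  apply Signed.of_isom T hu1
  have he0 : ∀ x, 0 < pd 0 (fun y => u (T y)) x := by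
    intro x
    unfold pd
    rw [fderiv_isom T hu1, hT0, map_smul, smul_eq_mul]
    exact mul_pos hc (hv _)
  have h12 : ∀ x : V (Fin 4), x 1 * pd 2 (fun y => u (T y)) x =
      x 2 * pd 1 (fun y => u (T y)) x := by
    intro x
    have hTx : T x = x 0 • T (be 0) + x 1 • T (be 1) + x 2 • T (be 2) + x 3 • T (be 3) := by
      conv_lhs => rw [sum_be x]
      rw [Fin.sum_univ_four]
      simp only [map_add, map_smul]
    have hBT : B (T x) = (x 1 * b) • T (be 2) - (x 2 * b) • T (be 1) := by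
      rw [hTx]
      simp only [map_add, map_smul]
      rw [hB1, hB2, hB3, hT0, map_smul, hBfix v hAv]
      simp only [smul_zero, zero_add, add_zero, smul_neg, smul_smul]
      abel
    have h1 := hBu (T x)
    rw [hBT] at h1
    simp only [map_sub, map_smul, smul_eq_mul] at h1
    have h2 : ∀ j : Fin 4, pd j (fun y => u (T y)) x = fderiv ℝ u (T x) (T (be j)) := fun j =>
      fderiv_isom T hu1 x (be j)
    rw [h2, h2]
    have h3 : b * (x 1 * fderiv ℝ u (T x) (T (be 2)) - x 2 * fderiv ℝ u (T x) (T (be 1))) = 0 := by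
      linarith
    have h4 := (mul_eq_zero.1 h3).resolve_left hb
    linarith
  have hrot : RotInv ({1, 2} : Finset (Fin 4)) fun y => u (T y) := by
    intro i hi j hj x
    simp only [Finset.mem_insert, Finset.mem_singleton] at hi hj
    rcases hi with rfl | rfl <;> rcases hj with rfl | rfl
    · rfl
    · exact h12 x
    · exact (h12 x).symm
    · rfl
  refine rot_core hGT 0 he0 (S := {1, 2}) (by decide) hrot (by decide) ?_ ?_ ?_
  · simp
  · simp
  · simp; norm_num

/-- Theorem HA -/
theorem ha_final {u : V (Fin 4) → ℝ} (hu : ContDiff ℝ 2 u) (hM : ∃ M : ℝ, ∀ x, |u x| ≤ M)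
    (heq : ∀ x, Laplacian.laplacian u x + u x - u x ^ 3 = 0) {e : V (Fin 4)}
    (he : ∀ x, 0 < fderiv ℝ u x e) (g : V (Fin 4) ≃ᵢ V (Fin 4))
    (hg : ∀ k : ℕ, 0 < k → (⇑g)^[k] ≠ id) (hinv : ∀ x, u (g x) = u x) :
    ∀ y ∈ Set.range u, ∃ s : AffineSubspace ℝ (V (Fin 4)),
      Module.finrank ℝ s.direction = 3 ∧ (s : Set (V (Fin 4))) = u ⁻¹' {y} := by
  obtain ⟨M, hM⟩ := hM
  have hu1 : ContDiff ℝ 1 u := hu.of_le (by norm_num)
  obtain ⟨K, hK⟩ := exists_GS hu hM fun x => by
    rw [lap_eq_laplacian hu]; exact heq x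
  obtain ⟨A, a, c, hAa, hgA⟩ := isometry_split g
  have hKc := hK.translate c
  have hec : ∀ x, 0 < fderiv ℝ (fun x => u (x + c)) x e := by
    intro x
    rw [fderiv_comp_add_right]
    exact he _
  have hinvA : ∀ x, (fun x => u (x + c)) (A x + a) = (fun x => u (x + c)) x := by
    intro x
    show u (A x + a + c) = u (x + c)
    rw [← hgA x]
    exact hinv _
  have hs : Signed fun x => u (x + c) := by
    by_cases ha : a = 0
    · subst ha
      apply ha_fixed hKc hec A
      · intro k hk hid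
        apply hg k hk
        funext x
        have h1 := iterate_shift g A c hgA k (x - c)
        rw [sub_add_cancel, hid] at h1
        rw [h1]
        simp
      · intro x
        have := hinvA x
        rwa [add_zero] at this
    · obtain ⟨v, hAv, hv⟩ := exists_fixed_mono A (fun x => A x + a)
        (fun x b => fderiv_inv hKc.C1 A a hinvA x b) hec
      have hv0 : v ≠ 0 := by
        rintro rfl
        have := hv 0
        rw [map_zero] at this
        exact lt_irrefl _ this
      have hvv : inner ℝ v v ≠ (0 : ℝ) := fun h => hv0 (inner_self_eq_zero.1 h)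
      set s : ℝ := inner ℝ v a / inner ℝ v v with hs
      set b : V (Fin 4) := a - s • v with hb
      have hvb : inner ℝ v b = (0 : ℝ) := by
        rw [hb, inner_sub_right, inner_smul_right, hs, div_mul_cancel₀ _ hvv, sub_self]
      have hb0 : b ≠ 0 := by
        intro hb0
        have hav : a = s • v := sub_eq_zero.1 hb0
        have hs0 : s ≠ 0 := by
          intro h
          rw [h, zero_smul] at hav
          exact ha hav
        apply no_mono hKc.C1 A a hinvA
        rcases lt_or_gt_of_ne hs0 with hs0 | hs0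
        · exact Or.inr fun x => by
            rw [hav, map_smul, smul_eq_mul]; exact mul_neg_of_neg_of_pos hs0 (hv x)
        · exact Or.inl fun x => by
            rw [hav, map_smul, smul_eq_mul]; exact mul_pos hs0 (hv x)
      have hAb : A b = b := by rw [hb, map_sub, map_smul, hAa, hAv]
      obtain ⟨T, ⟨c', hc', hT0⟩, hTF⟩ := exists_adapted (m := 3) (k := 1)
        (Submodule.span ℝ {b}) (finrank_span_singleton hb0) hv0 (by
          intro f hf
          obtain ⟨t, rfl⟩ := Submodule.mem_span_singleton.1 hf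
          rw [inner_smul_left, real_inner_comm, hvb, mul_zero]) (by norm_num)
      obtain ⟨r, hr⟩ := Submodule.mem_span_singleton.1 (hTF 1 (by decide) (by decide))
      have hr0 : r ≠ 0 := by
        rintro rfl
        rw [zero_smul] at hr
        have h1 : ‖T (be 1)‖ = 1 := by rw [T.norm_map, norm_be]
        rw [← hr, norm_zero] at h1
        norm_num at h1
      have hGT := GS.isom T hKc
      apply Signed.of_isom T hKc.C1
      set A' : V (Fin 4) ≃ₗᵢ[ℝ] V (Fin 4) := (T.trans A).trans T.symm with hA'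
      have hbT : b = r⁻¹ • T (be 1) := by
        rw [← hr, smul_smul, inv_mul_cancel₀ hr0, one_smul]
      have hvT : v = c'⁻¹ • T (be 0) := by
        rw [hT0, smul_smul, inv_mul_cancel₀ hc'.ne', one_smul]
      refine ha_core hGT ?_ A' ?_ ?_ (α := s * c'⁻¹) (β := r⁻¹) (inv_ne_zero hr0) ?_
      · intro x
        show 0 < fderiv ℝ (fun y => u (T y + c)) x (be 0)
        have h1 := fderiv_isom T hKc.C1 x (be 0)
        rw [h1, hT0, map_smul, smul_eq_mul]
        exact mul_pos hc' (hv _)
      · show T.symm (A (T (be 0))) = be 0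
        rw [hT0, map_smul, hAv, ← hT0, T.symm_apply_apply]
      · show T.symm (A (T (be 1))) = be 1
        rw [← hr, map_smul, hAb, hr, T.symm_apply_apply]
      · intro x
        have h1 : T (A' x + ((s * c'⁻¹) • be 0 + r⁻¹ • be 1)) = A (T x) + a := by
          show T (T.symm (A (T x)) + ((s * c'⁻¹) • be 0 + r⁻¹ • be 1)) = A (T x) + a
          rw [map_add, T.apply_symm_apply, map_add, map_smul, map_smul, ← hbT, mul_smul,
            ← hvT, hb]
          abel
        show (fun x => u (x + c)) (T (A' x + ((s * c'⁻¹) • be 0 + r⁻¹ • be 1))) =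
          (fun x => u (x + c)) (T x)
        rw [h1]
        exact hinvA _
  intro y hy
  obtain ⟨s, hs1, hs2⟩ := hyper hu1 (Signed.of_translate c hs) he y hy
  refine ⟨s, ?_, hs2⟩
  rw [Fintype.card_fin] at hs1
  omega

end Pool.Agent.Helper68.DG
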