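import Pool.Agent.Helper68.DG.Base

/-! Project DG (MP_800410_an), piece REC: return times of a linear isometry -/

open MeasureTheory Metric Set Filter Topology
open scoped ContDiff

namespace Pool.Agent.Helper68.DG

variable {ι : Type} [Fintype ι]

theorem rec_norm_iter (A : V ι ≃ₗᵢ[ℝ] V ι) (j : ℕ) (x : V ι) : ‖(⇑A)^[j] x‖ = ‖x‖ := by
  induction j generalizing x with
  | zero => rfl
  | succ j ih => rw [Function.iterate_succ_apply, ih, LinearIsometryEquiv.norm_map]

/-- the powers as continuous linear maps -/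
noncomputable def rec_pow (A : V ι ≃ₗᵢ[ℝ] V ι) (j : ℕ) : V ι →L[ℝ] V ι :=
  (A.toLinearIsometry.toContinuousLinearMap) ^ j

theorem rec_pow_apply (A : V ι ≃ₗᵢ[ℝ] V ι) (j : ℕ) (x : V ι) : rec_pow A j x = (⇑A)^[j] x := by
  induction j generalizing x with
  | zero => rfl
  | succ j ih =>
    rw [Function.iterate_succ_apply, ← ih]
    unfold rec_pow
    rw [pow_succ]
    rfl

/-- Return times are syndetic. Proof. The linear isometries form a totally bounded subset of the finite
dimensional normed space `V ι →L[ℝ] V ι` (all have norm at most one), so there is a finite set `F` of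
natural numbers such that every `A ^ j` has distance at most `δ` from some `A ^ f`, `f ∈ F` (take a
maximal `δ`-separated set of powers). Let `m` be the maximum of `F`. For `j` let `f ∈ F` with
`‖A ^ (j + m) - A ^ f‖ ≤ δ`. Then for all `x`, as `A ^ f` is an isometry,
`‖A ^ (j + m - f) x - x‖ = ‖A ^ (j + m) x - A ^ f x‖ ≤ δ ‖x‖`
(`A ^ (j + m) x = A ^ f (A ^ (j + m - f) x)`), and `j ≤ j + m - f ≤ j + m`. -/
theorem return_times (A : V ι ≃ₗᵢ[ℝ] V ι) {δ : ℝ} (hδ : 0 < δ) :
    ∃ m : ℕ, ∀ j : ℕ, ∃ k : ℕ, j ≤ k ∧ k ≤ j + m ∧ ∀ x, ‖(⇑A)^[k] x - x‖ ≤ δ * ‖x‖ := by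
  classical
  have hb : range (rec_pow A) ⊆ closedBall 0 1 := by
    rintro _ ⟨j, rfl⟩
    rw [mem_closedBall_zero_iff]
    refine ContinuousLinearMap.opNorm_le_bound _ zero_le_one fun x => ?_
    rw [rec_pow_apply, rec_norm_iter, one_mul]
  have htb : TotallyBounded (range (rec_pow A)) :=
    (isCompact_closedBall (0 : V ι →L[ℝ] V ι) 1).totallyBounded.subset hb
  obtain ⟨t, hts, hfin, hcov⟩ := htb.exists_subset (dist_mem_uniformity hδ)
  have hidx : ∀ y : V ι →L[ℝ] V ι, ∃ j : ℕ, y ∈ t → rec_pow A j = y := by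
    intro y
    by_cases hy : y ∈ t
    · obtain ⟨j, hj⟩ := hts hy
      exact ⟨j, fun _ => hj⟩
    · exact ⟨0, fun h => absurd h hy⟩
  choose idx hidx using hidx
  refine ⟨hfin.toFinset.sup idx, fun j => ?_⟩
  set m := hfin.toFinset.sup idx with hm
  have h1 := hcov (mem_range_self (f := rec_pow A) (j + m))
  simp only [mem_iUnion, mem_ofPred_eq, exists_prop] at h1
  obtain ⟨y, hy, hd⟩ := h1
  have h2 : idx y ≤ m := Finset.le_sup (f := idx) (hfin.mem_toFinset.2 hy)
  refine ⟨j + m - idx y, by omega, by omega, fun x => ?_⟩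
  have h3 := hidx y hy
  have h4 : (⇑A)^[idx y] ((⇑A)^[j + m - idx y] x) = (⇑A)^[j + m] x := by
    rw [← Function.iterate_add_apply, show idx y + (j + m - idx y) = j + m by omega]
  have h5 : ‖(⇑A)^[j + m - idx y] x - x‖
      = ‖(⇑A)^[idx y] ((⇑A)^[j + m - idx y] x) - (⇑A)^[idx y] x‖ := by
    rw [← rec_pow_apply A (idx y), ← rec_pow_apply A (idx y), ← map_sub, rec_pow_apply,
      rec_norm_iter]
  rw [h5, h4, ← rec_pow_apply A (j + m), ← rec_pow_apply A (idx y), h3,
    ← sub_apply]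
  refine (ContinuousLinearMap.le_opNorm _ _).trans ?_
  rw [dist_eq_norm] at hd
  exact mul_le_mul_of_nonneg_right hd.le (norm_nonneg _)

end Pool.Agent.Helper68.DG
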