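import Pool.Agent.Helper68.DG.Base
import Pool.Agent.Helper68.DG.REC

/-! Project DG (MP_800410_an), piece K1: a Killing field from an isometry of infinite order -/

open MeasureTheory Metric Set Filter Topology
open scoped ContDiff

namespace Pool.Agent.Helper68.DG

variable {ι : Type} [Fintype ι]

theorem k1_pow (A : V ι ≃ₗᵢ[ℝ] V ι) (k : ℕ) (x : V ι) :
    ((A.toContinuousLinearEquiv : V ι →L[ℝ] V ι) ^ k) x = (⇑A)^[k] x := by
  induction k generalizing x with
  | zero => simp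
  | succ k ih =>
    rw [pow_succ, Function.iterate_succ_apply, ← ih]
    rfl

theorem k1_inner (A : V ι ≃ₗᵢ[ℝ] V ι) (k : ℕ) (x y : V ι) :
    inner ℝ ((⇑A)^[k] x) ((⇑A)^[k] y) = inner ℝ x y := by
  induction k generalizing x y with
  | zero => simp
  | succ k ih =>
    rw [Function.iterate_succ_apply, Function.iterate_succ_apply, ih, A.inner_map_map]

theorem k1_inv (A : V ι ≃ₗᵢ[ℝ] V ι) {u : V ι → ℝ} (hinv : ∀ x, u (A x) = u x) (k : ℕ)
    (x : V ι) : u ((⇑A)^[k] x) = u x := by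
  induction k generalizing x with
  | zero => simp
  | succ k ih => rw [Function.iterate_succ_apply, ih, hinv]

/-- Proof. For every `n` take (REC with `δ = 1 / (n + 1)`, `j = 1`) a power `A ^ (k n)`, `k n ≥ 1`, with
`‖A ^ (k n) x - x‖ ≤ ‖x‖ / (n + 1)` for all `x`. Let `D n = A ^ (k n) - 1`, a continuous linear map,
`D n ≠ 0` by `hA`, `‖D n‖ ≤ 1 / (n + 1)`, and let `B n = ‖D n‖⁻¹ • D n`, of norm `1`. The unit sphere
of `V ι →L[ℝ] V ι` is compact, so a subsequence converges to some `B`, `‖B‖ = 1`. Skewness: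
`inner (D n x) y + inner x (D n y) = - inner (D n x) (D n y)` (expand, `A ^ k` is an isometry); divide
by `‖D n‖` and let `n → ∞`. Killing: `u (x + D n x) = u (A ^ (k n) x) = u x`, `D n x → 0`; by
differentiability of `u` at `x`, `fderiv ℝ u x (B n x) → 0`, so `fderiv ℝ u x (B x) = 0`. If `A v = v`
then `D n v = 0` for all `n`. -/
theorem exists_killing (A : V ι ≃ₗᵢ[ℝ] V ι) (hA : ∀ k : ℕ, 0 < k → (⇑A)^[k] ≠ id)
    {u : V ι → ℝ} (hu : ContDiff ℝ 1 u) (hinv : ∀ x, u (A x) = u x) :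
    ∃ B : V ι →L[ℝ] V ι, B ≠ 0 ∧ (∀ x y, inner ℝ (B x) y = - inner ℝ x (B y)) ∧
      (∀ x, fderiv ℝ u x (B x) = 0) ∧ ∀ v, A v = v → B v = 0 := by
  have hex : ∀ n : ℕ, ∃ k : ℕ, 1 ≤ k ∧ ∀ x, ‖(⇑A)^[k] x - x‖ ≤ 1 / ((n : ℝ) + 1) * ‖x‖ := by
    intro n
    obtain ⟨m, hm⟩ := return_times A (δ := 1 / ((n : ℝ) + 1)) (by positivity)
    obtain ⟨k, hk, -, h⟩ := hm 1
    exact ⟨k, hk, h⟩
  choose k hk1 hk using hex
  obtain ⟨D, hD⟩ : ∃ D : ℕ → V ι →L[ℝ] V ι,
      ∀ n x, D n x = (⇑A)^[k n] x - x := by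
    refine ⟨fun n => (A.toContinuousLinearEquiv : V ι →L[ℝ] V ι) ^ (k n) - 1, fun n x => ?_⟩
    rw [sub_apply, k1_pow]
    rfl
  have hD0 : ∀ n, 0 < ‖D n‖ := by
    intro n
    rw [norm_pos_iff]
    intro h
    refine hA (k n) (hk1 n) ?_
    funext x
    have h1 := hD n x
    rw [h, zero_apply] at h1
    exact (sub_eq_zero.mp h1.symm)
  have hD1 : ∀ n, ‖D n‖ ≤ 1 / ((n : ℝ) + 1) := by
    intro n
    refine (D n).opNorm_le_bound (by positivity) fun x => ?_
    rw [hD]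
    exact hk n x
  have hDlim : Tendsto (fun n => ‖D n‖) atTop (𝓝 0) :=
    squeeze_zero (fun n => norm_nonneg _) hD1 tendsto_one_div_add_atTop_nhds_zero_nat
  have hBs : ∀ n, ‖D n‖⁻¹ • D n ∈ sphere (0 : V ι →L[ℝ] V ι) 1 := by
    intro n
    rw [mem_sphere_zero_iff_norm, norm_smul, norm_inv, norm_norm,
      inv_mul_cancel₀ (hD0 n).ne']
  obtain ⟨B, hB, φ, hφ, hlim⟩ := (isCompact_sphere (0 : V ι →L[ℝ] V ι) 1).tendsto_subseq hBs
  have hφt := hφ.tendsto_atTop
  have hev : ∀ x, Tendsto (fun n => ‖D (φ n)‖⁻¹ • D (φ n) x) atTop (𝓝 (B x)) := by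
    intro x
    have h1 : Continuous fun L : V ι →L[ℝ] V ι => L x := by fun_prop
    exact (h1.tendsto B).comp hlim
  refine ⟨B, ?_, ?_, ?_, ?_⟩
  · intro h
    rw [h, mem_sphere_zero_iff_norm, norm_zero] at hB
    exact zero_ne_one hB
  · intro x y
    have h1 : ∀ n, inner ℝ (‖D (φ n)‖⁻¹ • D (φ n) x) y + inner ℝ x (‖D (φ n)‖⁻¹ • D (φ n) y)
        = - (‖D (φ n)‖ * inner ℝ (‖D (φ n)‖⁻¹ • D (φ n) x) (‖D (φ n)‖⁻¹ • D (φ n) y)) := by
      intro n
      have h2 := (hD0 (φ n)).ne'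
      have h3 : inner ℝ (D (φ n) x) y + inner ℝ x (D (φ n) y)
          = - inner ℝ (D (φ n) x) (D (φ n) y) := by
        have h4 := k1_inner A (k (φ n)) x y
        rw [hD, hD]
        simp only [inner_sub_left, inner_sub_right]
        rw [h4]
        ring
      simp only [real_inner_smul_left, real_inner_smul_right]
      rw [← mul_add, h3]
      field_simp
    have h5 : Tendsto (fun n => inner ℝ (‖D (φ n)‖⁻¹ • D (φ n) x) y
        + inner ℝ x (‖D (φ n)‖⁻¹ • D (φ n) y)) atTop (𝓝 (inner ℝ (B x) y + inner ℝ x (B y))) :=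
      ((hev x).inner tendsto_const_nhds).add (tendsto_const_nhds.inner (hev y))
    have h6 : Tendsto (fun n => - (‖D (φ n)‖ *
        inner ℝ (‖D (φ n)‖⁻¹ • D (φ n) x) (‖D (φ n)‖⁻¹ • D (φ n) y))) atTop
        (𝓝 (- (0 * inner ℝ (B x) (B y)))) :=
      ((hDlim.comp hφt).mul ((hev x).inner (hev y))).neg
    have h7 := tendsto_nhds_unique (h5.congr h1) h6
    rw [zero_mul, neg_zero] at h7
    linarith
  · intro x
    have hd : HasFDerivWithinAt u (fderiv ℝ u x) univ x :=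
      (((hu.differentiable one_ne_zero) x).hasFDerivAt).hasFDerivWithinAt
    have h0 : Tendsto (fun n => D (φ n) x) atTop (𝓝 0) := by
      refine squeeze_zero_norm (fun n => (D (φ n)).le_opNorm x) ?_
      have h3 := (hDlim.comp hφt).mul_const ‖x‖
      rw [zero_mul] at h3
      exact h3
    have h1 := hd.lim h0 (Eventually.of_forall fun n => mem_univ _) (hev x)
    have h2 : ∀ n, ‖D (φ n)‖⁻¹ • (u (x + D (φ n) x) - u x) = 0 := by
      intro n
      have h3 : x + D (φ n) x = (⇑A)^[k (φ n)] x := by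
        rw [hD]
        abel
      rw [h3, k1_inv A hinv, sub_self, smul_zero]
    exact tendsto_nhds_unique (h1.congr h2) tendsto_const_nhds
  · intro v hv
    have h1 : ∀ n, ‖D (φ n)‖⁻¹ • D (φ n) v = 0 := by
      intro n
      rw [hD, Function.iterate_fixed hv, sub_self, smul_zero]
    exact tendsto_nhds_unique ((hev v).congr h1) tendsto_const_nhds

end Pool.Agent.Helper68.DG
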