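import Pool.Agent.Helper68.DG.Base
import Pool.Agent.Helper68.DG.REC

/-! Project DG (MP_800410_an), piece K2: a monotone direction fixed by the isometry -/

open MeasureTheory Metric Set Filter Topology
open scoped ContDiff

namespace Pool.Agent.Helper68.DG

variable {ι : Type} [Fintype ι]

/-- sums of positive numbers with a large one in every block -/
theorem k2_blocks {a : ℕ → ℝ} {c : ℝ} {m : ℕ} (ha : ∀ n, 0 ≤ a n)
    (hb : ∀ j, ∃ k, j ≤ k ∧ k ≤ j + m ∧ c ≤ a k) (q : ℕ) :
    q * c ≤ ∑ n ∈ Finset.range ((m + 1) * q), a n := by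
  induction q with
  | zero => simp
  | succ q ih =>
    rw [Nat.mul_succ, Finset.sum_range_add]
    obtain ⟨k, hk1, hk2, hk3⟩ := hb ((m + 1) * q)
    have h1 : a ((m + 1) * q + (k - (m + 1) * q)) ≤
        ∑ x ∈ Finset.range (m + 1), a ((m + 1) * q + x) :=
      Finset.single_le_sum (f := fun x => a ((m + 1) * q + x)) (fun i _ => ha _)
        (Finset.mem_range.2 (by omega))
    rw [Nat.add_sub_cancel' hk1] at h1
    push_cast
    linarith

/-- Proof. Let `C = A.symm`. By induction `fderiv ℝ u (g^[k] x) (A^[k] b) = fderiv ℝ u x b`, so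
`fderiv ℝ u x (C^[k] e) = fderiv ℝ u (g^[k] x) e > 0` for all `k`, `x`. By the mean ergodic theorem
(`ContinuousLinearMap.tendsto_birkhoffAverage_orthogonalProjection`) the averages
`(1 / N) ∑ k < N, C^[k] e` converge to a vector `v` with `C v = v`, that is `A v = v`. Fix `x`, let
`s = fderiv ℝ u x e > 0` and choose `δ > 0` with `δ ‖fderiv ℝ u x‖ ‖e‖ ≤ s / 2`, and `m` from REC for
`C` and `δ`. Every block of `m + 1` consecutive integers contains a `k` with
`‖C^[k] e - e‖ ≤ δ ‖e‖`, hence `fderiv ℝ u x (C^[k] e) ≥ s / 2`; all the other summands are positive.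
So the averages of `fderiv ℝ u x (C^[k] e)` are at least `s / (4 (m + 1))` for large `N`, and
`fderiv ℝ u x v > 0` in the limit. -/
theorem exists_fixed_mono (A : V ι ≃ₗᵢ[ℝ] V ι) (g : V ι → V ι) {u : V ι → ℝ}
    (hg : ∀ x b, fderiv ℝ u (g x) (A b) = fderiv ℝ u x b) {e : V ι}
    (he : ∀ x, 0 < fderiv ℝ u x e) : ∃ v : V ι, A v = v ∧ ∀ x, 0 < fderiv ℝ u x v := by
  have hpos : ∀ (k : ℕ) (x : V ι), 0 < fderiv ℝ u x ((⇑A.symm)^[k] e) := by
    intro k
    induction k with
    | zero => intro x; exact he x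
    | succ k ih =>
      intro x
      rw [Function.iterate_succ_apply', ← hg x, A.apply_symm_apply]
      exact ih (g x)
  set C : V ι →L[ℝ] V ι := A.symm.toContinuousLinearEquiv.toContinuousLinearMap with hC
  have hCa : ∀ y, C y = A.symm y := fun y => rfl
  have hC1 : ‖C‖ ≤ 1 := by
    apply C.opNorm_le_bound zero_le_one
    intro y
    rw [hCa, A.symm.norm_map, one_mul]
  have hconv := C.tendsto_birkhoffAverage_orthogonalProjection hC1 e
  set v : V ι := ((C.eqLocus (1 : V ι →L[ℝ] V ι)).orthogonalProjectionOnto e : V ι) with hv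
  have hvC : C v = v := by
    have h := ((C.eqLocus (1 : V ι →L[ℝ] V ι)).orthogonalProjectionOnto e).2
    exact h
  have hvA : A v = v := by
    conv_lhs => rw [← hvC, hCa, A.apply_symm_apply]
  refine ⟨v, hvA, fun x => ?_⟩
  set L := fderiv ℝ u x with hL
  have hs : 0 < L e := he x
  have hd0 : 0 < ‖L‖ * ‖e‖ + 1 := by positivity
  obtain ⟨m, hm⟩ := return_times A.symm (δ := L e / (2 * (‖L‖ * ‖e‖ + 1))) (by positivity)
  have hb : ∀ j : ℕ, ∃ k, j ≤ k ∧ k ≤ j + m ∧ L e / 2 ≤ L ((⇑A.symm)^[k] e) := by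
    intro j
    obtain ⟨k, h1, h2, h3⟩ := hm j
    refine ⟨k, h1, h2, ?_⟩
    have h4 : ‖L ((⇑A.symm)^[k] e - e)‖ ≤ L e / 2 := by
      refine (L.le_opNorm _).trans ?_
      calc ‖L‖ * ‖(⇑A.symm)^[k] e - e‖ ≤ ‖L‖ * (L e / (2 * (‖L‖ * ‖e‖ + 1)) * ‖e‖) :=
            mul_le_mul_of_nonneg_left (h3 e) (norm_nonneg _)
        _ = (L e / 2) * ((‖L‖ * ‖e‖) / (‖L‖ * ‖e‖ + 1)) := by
            field_simp
        _ ≤ (L e / 2) * 1 := by
            apply mul_le_mul_of_nonneg_left _ (by positivity)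
            rw [div_le_one hd0]
            linarith
        _ = L e / 2 := mul_one _
    rw [map_sub, Real.norm_eq_abs, abs_le] at h4
    linarith [h4.1]
  have hbl := k2_blocks (a := fun k => L ((⇑A.symm)^[k] e)) (fun n => (hpos n x).le) hb
  have hlim : Tendsto (fun q : ℕ => L (birkhoffAverage ℝ C _root_.id ((m + 1) * (q + 1)) e)) atTop
      (𝓝 (L v)) := by
    have h1 : Tendsto (fun q : ℕ => (m + 1) * (q + 1)) atTop atTop := by
      apply tendsto_atTop_mono (f := fun q : ℕ => q) _ tendsto_id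
      intro q
      nlinarith
    exact (L.continuous.tendsto v).comp (hconv.comp h1)
  have hge : ∀ q : ℕ, L e / (2 * (m + 1)) ≤
      L (birkhoffAverage ℝ C _root_.id ((m + 1) * (q + 1)) e) := by
    intro q
    have e1 : L (birkhoffAverage ℝ C _root_.id ((m + 1) * (q + 1)) e) =
        (((m + 1) * (q + 1) : ℕ) : ℝ)⁻¹ *
          ∑ n ∈ Finset.range ((m + 1) * (q + 1)), L ((⇑A.symm)^[n] e) := by
      unfold birkhoffAverage birkhoffSum
      rw [map_smul, map_sum]
      rfl
    rw [e1]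
    have h2 := hbl (q + 1)
    have h3 : (0 : ℝ) < (((m + 1) * (q + 1) : ℕ) : ℝ) := by positivity
    rw [inv_mul_eq_div, div_le_div_iff₀ (by positivity) h3]
    push_cast at h2 ⊢
    nlinarith
  have hge2 : L e / (2 * (m + 1)) ≤ L v := ge_of_tendsto' hlim hge
  have : 0 < L e / (2 * ((m : ℝ) + 1)) := by positivity
  linarith

end Pool.Agent.Helper68.DG
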