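import Pool.Agent.Helper68.DG.Base

/-! Project DG (MP_800410_an), piece K3: the structure of an isometry -/

open MeasureTheory Metric Set Filter Topology
open scoped ContDiff

namespace Pool.Agent.Helper68.DG

variable {ι : Type} [Fintype ι]

/-- Proof. By the theorem of Mazur and Ulam (`IsometryEquiv.toRealAffineIsometryEquiv`)
`g x = A x + t` with a linear isometry `A` and `t = g 0`. The range of `1 - A` is the orthogonal
complement of the kernel of `1 - A` (if `inner (x - A x) y = 0` for all `x` then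
`A.symm y = y`; and conversely), so `t = a + (c - A c)` with `A a = a`. Then
`g (x + c) = A x + A c + a + c - A c = A x + a + c`. -/
theorem isometry_split (g : V ι ≃ᵢ V ι) :
    ∃ (A : V ι ≃ₗᵢ[ℝ] V ι) (a c : V ι), A a = a ∧ ∀ x, g (x + c) = A x + a + c := by
  set A : V ι ≃ₗᵢ[ℝ] V ι := g.toRealLinearIsometryEquiv with hA
  have hg : ∀ x, g x = A x + g 0 := fun x => by
    rw [hA, IsometryEquiv.toRealLinearIsometryEquiv_apply, sub_add_cancel]
  set L : V ι →ₗ[ℝ] V ι := LinearMap.id - A.toLinearEquiv.toLinearMap with hL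
  have hLx : ∀ x, L x = x - A x := fun x => rfl
  obtain ⟨r, hr, a, ha, hra⟩ := (LinearMap.range L).exists_add_mem_mem_orthogonal (g 0)
  obtain ⟨c, hc⟩ := hr
  rw [hLx] at hc
  refine ⟨A, a, c, ?_, ?_⟩
  · have h1 : inner ℝ (L (A.symm a)) a = 0 := ha _ ⟨_, rfl⟩
    rw [hLx, LinearIsometryEquiv.apply_symm_apply, inner_sub_left, sub_eq_zero] at h1
    have h2 : ‖A.symm a - a‖ ^ 2 = 0 := by
      rw [@norm_sub_sq_real, LinearIsometryEquiv.norm_map, h1, real_inner_self_eq_norm_sq]
      ring
    have h3 : A.symm a = a := by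
      rw [← sub_eq_zero, ← norm_eq_zero]
      exact pow_eq_zero_iff (two_ne_zero) |>.1 h2
    calc A a = A (A.symm a) := by rw [h3]
      _ = a := A.apply_symm_apply a
  · intro x
    rw [hg, map_add, hra, ← hc]
    abel

end Pool.Agent.Helper68.DG
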