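import Pool.Agent.Helper68.DG.Base
import Pool.Agent.Helper68.DG.T2

/-! Project DG (MP_800410_an), piece NF: normal form of skew maps -/

open MeasureTheory Metric Set Filter Topology
open scoped ContDiff

namespace Pool.Agent.Helper68.DG

variable {ι : Type} [Fintype ι]

/-- the first plane -/
theorem nf_plane {n : ℕ} (B : V (Fin n) →L[ℝ] V (Fin n)) (hB : B ≠ 0)
    (hskew : ∀ x y, inner ℝ (B x) y = - inner ℝ x (B y)) {v : V (Fin n)}
    (hBv : B v = 0) : ∃ (f₁ f₂ : V (Fin n)) (b : ℝ), b ≠ 0 ∧ ‖f₁‖ = 1 ∧ ‖f₂‖ = 1 ∧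
      inner ℝ v f₁ = 0 ∧ inner ℝ v f₂ = 0 ∧ inner ℝ f₁ f₂ = 0 ∧ B f₁ = b • f₂ ∧
      B f₂ = -(b • f₁) := by
  set S : V (Fin n) →ₗ[ℝ] V (Fin n) := -(B.toLinearMap ∘ₗ B.toLinearMap) with hS
  have hSa : ∀ x, S x = -(B (B x)) := fun x => rfl
  have hsym : S.IsSymmetric := by
    intro x y
    rw [hSa, hSa, inner_neg_left, inner_neg_right, hskew, hskew, neg_neg]
  have hfin : Module.finrank ℝ (V (Fin n)) = n := by simp
  -- an eigenvector with a nonzero eigenvalue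
  have hex : ∃ i, hsym.eigenvalues hfin i ≠ 0 := by
    by_contra hcon
    push Not at hcon
    apply hB
    have h1 : ∀ x, S x = 0 := by
      intro x
      rw [← (hsym.eigenvectorBasis hfin).sum_repr x, map_sum]
      apply Finset.sum_eq_zero
      intro i _
      rw [map_smul, hsym.apply_eigenvectorBasis hfin i, hcon i]
      simp
    ext1 x
    have h2 : inner ℝ (S x) x = (0 : ℝ) := by rw [h1, inner_zero_left]
    rw [hSa, inner_neg_left, hskew, neg_neg, real_inner_self_eq_norm_sq] at h2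
    have h3 : ‖B x‖ = 0 := by
      exact pow_eq_zero_iff (two_ne_zero) |>.1 h2
    rw [norm_eq_zero] at h3
    rw [h3]
    rfl
  obtain ⟨i, hi⟩ := hex
  obtain ⟨μ, hμ⟩ : ∃ μ : ℝ, μ = hsym.eigenvalues hfin i := ⟨_, rfl⟩
  obtain ⟨f, hf⟩ : ∃ f : V (Fin n), f = hsym.eigenvectorBasis hfin i := ⟨_, rfl⟩
  have hSf : S f = μ • f := by
    rw [hf, hμ]
    exact hsym.apply_eigenvectorBasis hfin i
  have hnf : ‖f‖ = 1 := by rw [hf]; exact (hsym.eigenvectorBasis hfin).orthonormal.1 i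
  rw [← hμ] at hi
  have hμ1 : μ = ‖B f‖ ^ 2 := by
    have h1 : inner ℝ (S f) f = μ := by
      rw [hSf, inner_smul_left, real_inner_self_eq_norm_sq, hnf]
      simp
    rw [hSa, inner_neg_left, hskew, neg_neg, real_inner_self_eq_norm_sq] at h1
    exact h1.symm
  have hb0 : ‖B f‖ ≠ 0 := by
    intro h
    rw [h] at hμ1
    exact hi (by rw [hμ1]; simp)
  have hBB : B (B f) = -(μ • f) := by
    rw [← hSf, hSa, neg_neg]
  have hff : inner ℝ (B f) f = (0 : ℝ) := by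
    have h1 := hskew f f
    rw [real_inner_comm] at h1
    have h2 : inner ℝ f (B f) = inner ℝ (B f) f := real_inner_comm _ _
    rw [real_inner_comm f (B f)]
    linarith
  have hvf : inner ℝ v f = (0 : ℝ) := by
    have h1 : inner ℝ v (S f) = (0 : ℝ) := by
      rw [← hsym v f]
      rw [hSa, hBv, map_zero, neg_zero, inner_zero_left]
    rw [hSf, inner_smul_right] at h1
    exact (mul_eq_zero.1 h1).resolve_left hi
  refine ⟨f, ‖B f‖⁻¹ • B f, ‖B f‖, hb0, hnf, ?_, hvf, ?_, ?_, ?_, ?_⟩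
  · rw [norm_smul, norm_inv, norm_norm, inv_mul_cancel₀ hb0]
  · rw [inner_smul_right, ← neg_neg (inner ℝ v (B f)), ← hskew, hBv, inner_zero_left]
    simp
  · rw [inner_smul_right, real_inner_comm, hff, mul_zero]
  · rw [smul_smul, mul_inv_cancel₀ hb0, one_smul]
  · rw [map_smul, hBB, hμ1, smul_neg, smul_smul]
    congr 2
    field_simp

/-- an adapted orthonormal basis and the isometry onto it -/
theorem nf_basis {n : ℕ} (v f₁ f₂ : V (Fin (n + 3))) (hv : v ≠ 0) (h1 : ‖f₁‖ = 1)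
    (h2 : ‖f₂‖ = 1) (hv1 : inner ℝ v f₁ = (0 : ℝ)) (hv2 : inner ℝ v f₂ = (0 : ℝ))
    (h12 : inner ℝ f₁ f₂ = (0 : ℝ)) :
    ∃ (T : V (Fin (n + 3)) ≃ₗᵢ[ℝ] V (Fin (n + 3)))
      (e : OrthonormalBasis (Fin (n + 3)) ℝ (V (Fin (n + 3)))),
      (∀ i, T (be i) = e i) ∧ e 0 = ‖v‖⁻¹ • v ∧ e 1 = f₁ ∧ e 2 = f₂ := by
  have hv0 : ‖v‖ ≠ 0 := norm_ne_zero_iff.2 hv
  set w : Fin (n + 3) → V (Fin (n + 3)) := fun i =>
    if i = 0 then ‖v‖⁻¹ • v else if i = 1 then f₁ else f₂ with hw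
  have w0 : w 0 = ‖v‖⁻¹ • v := by simp [hw]
  have w1 : w 1 = f₁ := by simp [hw]
  have h20 : (2 : Fin (n + 3)) ≠ 0 := by
    intro h
    have h' := congrArg Fin.val h
    simp at h'
    rw [Nat.mod_eq_of_lt (by omega)] at h'
    omega
  have h21 : (2 : Fin (n + 3)) ≠ 1 := by
    intro h
    have h' := congrArg Fin.val h
    simp at h'
    rw [Nat.mod_eq_of_lt (by omega)] at h'
    omega
  have w2 : w 2 = f₂ := by simp only [hw, h20, h21, if_false]
  have hon : Orthonormal ℝ (({0, 1, 2} : Set (Fin (n + 3))).domRestrict w) := by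
    rw [orthonormal_iff_ite]
    rintro ⟨i, hi⟩ ⟨j, hj⟩
    simp only [Subtype.mk.injEq]
    change inner ℝ (w i) (w j) = (if i = j then (1 : ℝ) else 0)
    simp only [mem_insert_iff, mem_singleton_iff] at hi hj
    have h10 : (1 : Fin (n + 3)) ≠ 0 := by simp
    have n0 : inner ℝ (‖v‖⁻¹ • v) (‖v‖⁻¹ • v) = (1 : ℝ) := by
      rw [inner_smul_left, inner_smul_right, real_inner_self_eq_norm_sq]
      simp only [conj_trivial]
      field_simp
    have n1 : inner ℝ f₁ f₁ = (1 : ℝ) := by rw [real_inner_self_eq_norm_sq, h1, one_pow]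
    have n2 : inner ℝ f₂ f₂ = (1 : ℝ) := by rw [real_inner_self_eq_norm_sq, h2, one_pow]
    have a01 : inner ℝ (‖v‖⁻¹ • v) f₁ = (0 : ℝ) := by rw [inner_smul_left, hv1, mul_zero]
    have a02 : inner ℝ (‖v‖⁻¹ • v) f₂ = (0 : ℝ) := by rw [inner_smul_left, hv2, mul_zero]
    have a10 : inner ℝ f₁ (‖v‖⁻¹ • v) = (0 : ℝ) := by rw [real_inner_comm]; exact a01
    have a20 : inner ℝ f₂ (‖v‖⁻¹ • v) = (0 : ℝ) := by rw [real_inner_comm]; exact a02
    have a21 : inner ℝ f₂ f₁ = (0 : ℝ) := by rw [real_inner_comm]; exact h12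
    rcases hi with rfl | rfl | rfl <;> rcases hj with rfl | rfl | rfl
    · rw [w0, if_pos rfl]; exact n0
    · rw [w0, w1, if_neg h10.symm]; exact a01
    · rw [w0, w2, if_neg h20.symm]; exact a02
    · rw [w1, w0, if_neg h10]; exact a10
    · rw [w1, if_pos rfl]; exact n1
    · rw [w1, w2, if_neg h21.symm]; exact h12
    · rw [w2, w0, if_neg h20]; exact a20
    · rw [w2, w1, if_neg h21]; exact a21
    · rw [w2, if_pos rfl]; exact n2
  obtain ⟨e, he⟩ := hon.exists_orthonormalBasis_extension_of_card_eq (by simp)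
  refine ⟨(EuclideanSpace.basisFun (Fin (n + 3)) ℝ).equiv e (Equiv.refl _), e, ?_, ?_, ?_, ?_⟩
  · intro i
    rw [be, OrthonormalBasis.equiv_apply_basis]
    rfl
  · rw [he 0 (by simp), w0]
  · rw [he 1 (by simp), w1]
  · rw [he 2 (by simp), w2]

theorem nf_skew_self {n : ℕ} (B : V (Fin n) →L[ℝ] V (Fin n))
    (hskew : ∀ x y, inner ℝ (B x) y = - inner ℝ x (B y)) (x : V (Fin n)) :
    inner ℝ x (B x) = (0 : ℝ) := by
  have h1 := hskew x x
  have h2 : inner ℝ x (B x) = (inner ℝ (B x) x : ℝ) := real_inner_comm _ _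
  linarith

/-- The normal form in dimension `4`. Proof. `W = {w | inner v w = 0}` has dimension `3` and `B` maps `W` to
`W` (`inner v (B w) = - inner (B v) w = 0`); `B w ≠ 0` for some `w ∈ W`. The map `- B ∘ B` on `W` is
symmetric and nonnegative (`inner (- B (B w)) w = ‖B w‖ ^ 2`), and not zero. So (spectral theorem,
`LinearMap.IsSymmetric.eigenvectorBasis`, or maximise `‖B w‖` over the unit sphere of `W`) there are a
unit vector `f₁ ∈ W` and `β > 0` with `B (B f₁) = - β f₁`. Let `b = √β`, `f₂ = b⁻¹ • B f₁`: a unit vector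
of `W` orthogonal to `f₁` (`inner (B f₁) f₁ = 0`), `B f₂ = - b f₁`. Let `f₃` be a unit vector orthogonal
to `v, f₁, f₂`; `B f₃` is orthogonal to `v, f₁, f₂` (`inner (B f₃) f₁ = - inner f₃ (B f₁) = 0`, …) and to
`f₃`, so `B f₃ = 0`. The isometry `T` maps `be 0, …, be 3` to `v / ‖v‖, f₁, f₂, f₃`
(`exists_adapted` may help: with `F = span f₁, f₂`, or `OrthonormalBasis`). -/
theorem skew_normal4 (B : V (Fin 4) →L[ℝ] V (Fin 4)) (hB : B ≠ 0)
    (hskew : ∀ x y, inner ℝ (B x) y = - inner ℝ x (B y)) {v : V (Fin 4)} (hv : v ≠ 0)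
    (hBv : B v = 0) : ∃ (T : V (Fin 4) ≃ₗᵢ[ℝ] V (Fin 4)) (c b : ℝ), 0 < c ∧ b ≠ 0 ∧
      T (be 0) = c • v ∧ B (T (be 1)) = b • T (be 2) ∧ B (T (be 2)) = -(b • T (be 1)) ∧
      B (T (be 3)) = 0 := by
  obtain ⟨f₁, f₂, b, hb, h1, h2, hv1, hv2, h12, hB1, hB2⟩ := nf_plane B hB hskew hBv
  obtain ⟨T, e, hT, e0, e1, e2⟩ := nf_basis (n := 1) v f₁ f₂ hv h1 h2 hv1 hv2 h12
  have hv0 : 0 < ‖v‖⁻¹ := inv_pos.2 (norm_pos_iff.2 hv)
  refine ⟨T, ‖v‖⁻¹, b, hv0, hb, ?_, ?_, ?_, ?_⟩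
  · rw [hT, e0]
  · rw [hT, hT, e1, e2, hB1]
  · rw [hT, hT, e1, e2, hB2]
  · rw [hT]
    rw [← e.sum_repr' (B (e 3)), Fin.sum_univ_four]
    have z0 : inner ℝ (e 0) (B (e 3)) = (0 : ℝ) := by
      rw [← neg_neg (inner ℝ (e 0) (B (e 3))), ← hskew, e0, map_smul, hBv]
      simp
    have z1 : inner ℝ (e 1) (B (e 3)) = (0 : ℝ) := by
      rw [← neg_neg (inner ℝ (e 1) (B (e 3))), ← hskew, e1, hB1, ← e2, inner_smul_left,
        e.orthonormal.2 (by decide)]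
      simp
    have z2 : inner ℝ (e 2) (B (e 3)) = (0 : ℝ) := by
      rw [← neg_neg (inner ℝ (e 2) (B (e 3))), ← hskew, e2, hB2, ← e1, inner_neg_left,
        inner_smul_left, e.orthonormal.2 (by decide)]
      simp
    rw [z0, z1, z2, nf_skew_self B hskew]
    simp

/-- The normal form in dimension `5`. Proof. As for `skew_normal4`; now the orthogonal complement of
`v, f₁, f₂` is a plane preserved by `B`; for an orthonormal basis `f₃, f₄` of it `B f₃` is orthogonal to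
`f₃`, so `B f₃ = b' • f₄`, and `B f₄ = - b' • f₃` (`inner (B f₄) f₃ = - inner f₄ (B f₃) = - b'`). -/
theorem skew_normal5 (B : V (Fin 5) →L[ℝ] V (Fin 5)) (hB : B ≠ 0)
    (hskew : ∀ x y, inner ℝ (B x) y = - inner ℝ x (B y)) {v : V (Fin 5)} (hv : v ≠ 0)
    (hBv : B v = 0) : ∃ (T : V (Fin 5) ≃ₗᵢ[ℝ] V (Fin 5)) (c b b' : ℝ), 0 < c ∧ b ≠ 0 ∧
      T (be 0) = c • v ∧ B (T (be 1)) = b • T (be 2) ∧ B (T (be 2)) = -(b • T (be 1)) ∧
      B (T (be 3)) = b' • T (be 4) ∧ B (T (be 4)) = -(b' • T (be 3)) := by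
  obtain ⟨f₁, f₂, b, hb, h1, h2, hv1, hv2, h12, hB1, hB2⟩ := nf_plane B hB hskew hBv
  obtain ⟨T, e, hT, e0, e1, e2⟩ := nf_basis (n := 2) v f₁ f₂ hv h1 h2 hv1 hv2 h12
  have hv0 : 0 < ‖v‖⁻¹ := inv_pos.2 (norm_pos_iff.2 hv)
  have z0 : ∀ x, inner ℝ (e 0) (B x) = (0 : ℝ) := by
    intro x
    rw [← neg_neg (inner ℝ (e 0) (B x)), ← hskew, e0, map_smul, hBv]
    simp
  have z1 : ∀ i, i ≠ 2 → inner ℝ (e 1) (B (e i)) = (0 : ℝ) := by
    intro i hi
    rw [← neg_neg (inner ℝ (e 1) (B (e i))), ← hskew, e1, hB1, ← e2, inner_smul_left,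
      e.orthonormal.2 hi.symm]
    simp
  have z2 : ∀ i, i ≠ 1 → inner ℝ (e 2) (B (e i)) = (0 : ℝ) := by
    intro i hi
    rw [← neg_neg (inner ℝ (e 2) (B (e i))), ← hskew, e2, hB2, ← e1, inner_neg_left,
      inner_smul_left, e.orthonormal.2 hi.symm]
    simp
  refine ⟨T, ‖v‖⁻¹, b, inner ℝ (e 4) (B (e 3)), hv0, hb, ?_, ?_, ?_, ?_, ?_⟩
  · rw [hT, e0]
  · rw [hT, hT, e1, e2, hB1]
  · rw [hT, hT, e1, e2, hB2]
  · rw [hT, hT]
    conv_lhs => rw [← e.sum_repr' (B (e 3)), Fin.sum_univ_five]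
    rw [z0, z1 3 (by decide), z2 3 (by decide), nf_skew_self B hskew]
    simp
  · rw [hT, hT]
    conv_lhs => rw [← e.sum_repr' (B (e 4)), Fin.sum_univ_five]
    rw [z0, z1 4 (by decide), z2 4 (by decide), nf_skew_self B hskew]
    have h3 : inner ℝ (e 3) (B (e 4)) = -(inner ℝ (e 4) (B (e 3)) : ℝ) := by
      rw [← neg_neg (inner ℝ (e 3) (B (e 4))), ← hskew, real_inner_comm]
    rw [h3]
    simp

end Pool.Agent.Helper68.DG
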