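import Mathlib

/-! Project DG (MP_800410_an), piece IB1: a linear algebra inequality -/

open MeasureTheory Metric Set Filter Topology
open scoped ContDiff

namespace Pool.Agent.Helper68.DG

variable {ι : Type} [Fintype ι]

theorem ib1_expand {κ : Type} [Fintype κ] (x v₁ v₂ v₃ : κ → ℝ) (a b c : ℝ) :
    ∑ k, (x k - a * v₁ k - b * v₂ k - c * v₃ k) ^ 2
      = ∑ k, x k ^ 2 + a ^ 2 * ∑ k, v₁ k ^ 2 + b ^ 2 * ∑ k, v₂ k ^ 2 + c ^ 2 * ∑ k, v₃ k ^ 2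
        - 2 * a * ∑ k, v₁ k * x k - 2 * b * ∑ k, v₂ k * x k - 2 * c * ∑ k, v₃ k * x k
        + 2 * a * b * (∑ k, v₁ k * v₂ k) + 2 * a * c * (∑ k, v₁ k * v₃ k)
        + 2 * b * c * (∑ k, v₂ k * v₃ k) := by
  simp only [Finset.mul_sum, ← Finset.sum_add_distrib, ← Finset.sum_sub_distrib]
  refine Finset.sum_congr rfl fun k _ => ?_
  ring

theorem ib1_key (p q : ℝ) : p / q * p = p ^ 2 / q ∧ (p / q) ^ 2 * q = p ^ 2 / q := by
  by_cases hq : q = 0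
  · subst hq
    simp
  · constructor <;> field_simp

/-- Bessel's inequality for three orthogonal vectors, also if some of them vanish -/
theorem ib1_bessel {κ : Type} [Fintype κ] (x v₁ v₂ v₃ : κ → ℝ) (h12 : ∑ k, v₁ k * v₂ k = 0)
    (h13 : ∑ k, v₁ k * v₃ k = 0) (h23 : ∑ k, v₂ k * v₃ k = 0) :
    (∑ k, v₁ k * x k) ^ 2 / (∑ k, v₁ k ^ 2) + (∑ k, v₂ k * x k) ^ 2 / (∑ k, v₂ k ^ 2) +
      (∑ k, v₃ k * x k) ^ 2 / (∑ k, v₃ k ^ 2) ≤ ∑ k, x k ^ 2 := by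
  have h1 := ib1_expand x v₁ v₂ v₃ ((∑ k, v₁ k * x k) / (∑ k, v₁ k ^ 2))
    ((∑ k, v₂ k * x k) / (∑ k, v₂ k ^ 2)) ((∑ k, v₃ k * x k) / (∑ k, v₃ k ^ 2))
  have h0 := Finset.sum_nonneg (s := Finset.univ) fun (k : κ) _ =>
    sq_nonneg (x k - (∑ k, v₁ k * x k) / (∑ k, v₁ k ^ 2) * v₁ k
      - (∑ k, v₂ k * x k) / (∑ k, v₂ k ^ 2) * v₂ k - (∑ k, v₃ k * x k) / (∑ k, v₃ k ^ 2) * v₃ k)
  rw [h1] at h0
  simp only [h12, h13, h23, mul_zero, add_zero, (ib1_key _ _).2, mul_assoc, (ib1_key _ _).1]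
    at h0
  linarith

/-- Proof. For a vector `c` write `n c = ∑ l, (∑ k, c k * M k l) ^ 2` (the square of the norm of `Mᵀ c`).
If `c₁, c₂, c₃` are orthonormal then `n c₁ + n c₂ + n c₃ ≤ ∑ k l, M k l ^ 2` (Bessel, for every `l`).
Take `c₁ = F / |F|`, `c₂ = z / |z|` and, if `w' = w - (w · z) z / |z| ^ 2` is not `0`,
`c₃ = w' / |w'|`; they are orthonormal as `F · z = 0`, `F · w = 0`. By `hz`, `n c₂ = |F| ^ 2 / |z| ^ 2`
(`∑ l, G l ^ 2 = |F| ^ 2`). By Cauchy-Schwarz and `hb`,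
`n w' * |b| ^ 2 ≥ (∑ k, w' k * w k) ^ 2 = |w'| ^ 4`, so `n c₃ ≥ |w'| ^ 2 / |b| ^ 2`, and
`|w'| ^ 2 = |w| ^ 2 - (w · z) ^ 2 / |z| ^ 2`. If `w' = 0` only use `c₁, c₂`. If `|b| = 0` the last
term of the statement is `0`. -/
theorem bessel3 {κ ι : Type} [Fintype κ] [Fintype ι] (M : κ → ι → ℝ) (F z w : κ → ℝ)
    (G b : ι → ℝ) (hF : 0 < ∑ k, F k ^ 2) (hz0 : 0 < ∑ k, z k ^ 2)
    (hFz : ∑ k, F k * z k = 0) (hFw : ∑ k, F k * w k = 0)
    (hz : ∀ l, ∑ k, z k * M k l = - G l) (hG : ∑ l, G l ^ 2 = ∑ k, F k ^ 2)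
    (hb : ∀ k, ∑ l, M k l * b l = w k) :
    (∑ l, (∑ k, F k * M k l) ^ 2) / (∑ k, F k ^ 2) + (∑ k, F k ^ 2) / (∑ k, z k ^ 2) +
      (∑ k, w k ^ 2 - (∑ k, w k * z k) ^ 2 / ∑ k, z k ^ 2) / (∑ l, b l ^ 2) ≤
      ∑ k, ∑ l, M k l ^ 2 := by
  obtain ⟨r, hr⟩ : ∃ r : ℝ, r = (∑ k, w k * z k) / ∑ k, z k ^ 2 := ⟨_, rfl⟩
  obtain ⟨q, hq⟩ : ∃ q : ℝ, q = ∑ k, w k ^ 2 - (∑ k, w k * z k) ^ 2 / ∑ k, z k ^ 2 := ⟨_, rfl⟩
  have hrz : r * ∑ k, z k ^ 2 = ∑ k, w k * z k := by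
    rw [hr]
    field_simp
  have hrw : r * ∑ k, w k * z k = (∑ k, w k * z k) ^ 2 / ∑ k, z k ^ 2 := by
    rw [hr]
    ring
  -- the third vector
  have e1 : ∑ k, F k * (w k - r * z k) = 0 := by
    have : ∑ k, F k * (w k - r * z k) = ∑ k, F k * w k - r * ∑ k, F k * z k := by
      simp only [Finset.mul_sum, ← Finset.sum_sub_distrib]
      refine Finset.sum_congr rfl fun k _ => ?_
      ring
    rw [this, hFz, hFw]
    ring
  have e2 : ∑ k, z k * (w k - r * z k) = 0 := by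
    have : ∑ k, z k * (w k - r * z k) = ∑ k, w k * z k - r * ∑ k, z k ^ 2 := by
      simp only [Finset.mul_sum, ← Finset.sum_sub_distrib]
      refine Finset.sum_congr rfl fun k _ => ?_
      ring
    rw [this, hrz]
    ring
  have e3 : ∑ k, (w k - r * z k) ^ 2 = q := by
    have : ∑ k, (w k - r * z k) ^ 2
        = ∑ k, w k ^ 2 - r * ∑ k, w k * z k - r * (∑ k, z k * (w k - r * z k)) := by
      simp only [Finset.mul_sum, ← Finset.sum_sub_distrib]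
      refine Finset.sum_congr rfl fun k _ => ?_
      ring
    rw [this, e2, hrw, hq]
    ring
  have e4 : ∑ l, (∑ k, (w k - r * z k) * M k l) * b l = q := by
    have h1 : ∑ l, (∑ k, (w k - r * z k) * M k l) * b l = ∑ k, (w k - r * z k) * w k := by
      simp only [← hb, Finset.sum_mul, Finset.mul_sum]
      rw [Finset.sum_comm]
      refine Finset.sum_congr rfl fun k _ => Finset.sum_congr rfl fun l _ => ?_
      ring
    have h2 : ∑ k, (w k - r * z k) * w k = ∑ k, w k ^ 2 - r * ∑ k, w k * z k := by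
      simp only [Finset.mul_sum, ← Finset.sum_sub_distrib]
      refine Finset.sum_congr rfl fun k _ => ?_
      ring
    rw [h1, h2, hrw, hq]
  have hq0 : 0 ≤ q := by
    rw [← e3]
    exact Finset.sum_nonneg fun k _ => sq_nonneg _
  have hB0 : 0 ≤ ∑ l, b l ^ 2 := Finset.sum_nonneg fun l _ => sq_nonneg _
  -- the sums over `l`
  have hsum : ∑ l, ((∑ k, F k * M k l) ^ 2 / (∑ k, F k ^ 2)
      + (∑ k, z k * M k l) ^ 2 / (∑ k, z k ^ 2)
      + (∑ k, (w k - r * z k) * M k l) ^ 2 / (∑ k, (w k - r * z k) ^ 2))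
      ≤ ∑ l, ∑ k, M k l ^ 2 :=
    Finset.sum_le_sum fun l _ => ib1_bessel (fun k => M k l) F z (fun k => w k - r * z k)
      hFz e1 e2
  rw [Finset.sum_add_distrib, Finset.sum_add_distrib, ← Finset.sum_div, ← Finset.sum_div,
    ← Finset.sum_div, e3, Finset.sum_comm (f := fun l k => M k l ^ 2)] at hsum
  have e5 : ∑ l, (∑ k, z k * M k l) ^ 2 = ∑ k, F k ^ 2 := by
    rw [← hG]
    refine Finset.sum_congr rfl fun l _ => ?_
    rw [hz l]
    ring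
  rw [e5] at hsum
  have e6 : q / (∑ l, b l ^ 2) ≤ (∑ l, (∑ k, (w k - r * z k) * M k l) ^ 2) / q := by
    have hcs := Finset.sum_mul_sq_le_sq_mul_sq Finset.univ
      (fun l => ∑ k, (w k - r * z k) * M k l) b
    rw [e4] at hcs
    rcases hq0.eq_or_lt with h | h
    · rw [← h]
      simp
    · rcases hB0.eq_or_lt with h' | h'
      · rw [← h', div_zero]
        positivity
      · rw [div_le_div_iff₀ h' h]
        nlinarith [hcs]
  rw [← hq]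
  linarith

end Pool.Agent.Helper68.DG
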