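import Pool.Agent.Helper68.DG.Base
import Pool.Agent.Helper68.DG.A3
import Pool.Agent.Helper68.DG.Defs2
import Pool.Agent.Helper68.DG.IB1

/-! Project DG (MP_800410_an), piece IB2: the inequality for a skew symmetry -/

open MeasureTheory Metric Set Filter Topology
open scoped ContDiff

namespace Pool.Agent.Helper68.DG

variable {ι : Type} [Fintype ι]

theorem ib2_coord {n : WithTop ℕ∞} (i : ι) : ContDiff ℝ n (fun x : V ι => x i) :=
  (EuclideanSpace.proj (𝕜 := ℝ) i).contDiff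

theorem ib2_diff_coord (i : ι) (x : V ι) : DifferentiableAt ℝ (fun y : V ι => y i) x :=
  ((ib2_coord (n := 1) i).differentiable one_ne_zero) x

theorem ib2_pd_coord [DecidableEq ι] (l i : ι) (x : V ι) :
    pd l (fun y : V ι => y i) x = if i = l then 1 else 0 := by
  have h : (fun y : V ι => y i) = (EuclideanSpace.proj (𝕜 := ℝ) i : V ι →L[ℝ] ℝ) := rfl
  unfold pd
  rw [h, ContinuousLinearMap.fderiv]
  exact be_apply l i

/-- derivative of a combination of products -/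
theorem ib2_pd_comb {b₁ b₂ : ℝ} {c₀ c₁ c₂ c₃ A₀ A₁ A₂ A₃ : V ι → ℝ} {x : V ι}
    (h0 : DifferentiableAt ℝ c₀ x) (h1 : DifferentiableAt ℝ c₁ x)
    (h2 : DifferentiableAt ℝ c₂ x) (h3 : DifferentiableAt ℝ c₃ x)
    (k0 : DifferentiableAt ℝ A₀ x) (k1 : DifferentiableAt ℝ A₁ x)
    (k2 : DifferentiableAt ℝ A₂ x) (k3 : DifferentiableAt ℝ A₃ x) (l : ι) :
    pd l (fun y => b₁ * (c₀ y * A₁ y - c₁ y * A₀ y) + b₂ * (c₂ y * A₃ y - c₃ y * A₂ y)) x =
      b₁ * ((pd l c₀ x * A₁ x + c₀ x * pd l A₁ x) - (pd l c₁ x * A₀ x + c₁ x * pd l A₀ x)) +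
      b₂ * ((pd l c₂ x * A₃ x + c₂ x * pd l A₃ x) -
        (pd l c₃ x * A₂ x + c₃ x * pd l A₂ x)) := by
  have d01 : DifferentiableAt ℝ (fun y => c₀ y * A₁ y) x := h0.mul k1
  have d10 : DifferentiableAt ℝ (fun y => c₁ y * A₀ y) x := h1.mul k0
  have d23 : DifferentiableAt ℝ (fun y => c₂ y * A₃ y) x := h2.mul k3
  have d32 : DifferentiableAt ℝ (fun y => c₃ y * A₂ y) x := h3.mul k2
  have e1 : DifferentiableAt ℝ (fun y => c₀ y * A₁ y - c₁ y * A₀ y) x := d01.sub d10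
  have e2 : DifferentiableAt ℝ (fun y => c₂ y * A₃ y - c₃ y * A₂ y) x := d23.sub d32
  rw [pd_add (e1.const_mul b₁) (e2.const_mul b₂) l, pd_const_mul b₁ e1 l, pd_const_mul b₂ e2 l,
    pd_sub d01 d10 l, pd_sub d23 d32 l, pd_mul h0 k1 l, pd_mul h1 k0 l, pd_mul h2 k3 l,
    pd_mul h3 k2 l]

theorem ib2_diff_pd {K : ℝ} {u : V ι → ℝ} (hu : GS K u) (i : ι) (x : V ι) :
    DifferentiableAt ℝ (pd i u) x :=
  ((contDiff_pd_one hu.smooth i).differentiable one_ne_zero) x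

/-- the identity `Kil`, differentiated -/
theorem ib2_kil_pd [DecidableEq ι] {K b₁ b₂ : ℝ} {e : Fin 4 ↪ ι} {u : V ι → ℝ} (hu : GS K u)
    (hk : Kil b₁ b₂ e u) (x : V ι) (l : ι) :
    b₁ * (((if e 0 = l then 1 else 0) * pd (e 1) u x + x (e 0) * pd l (pd (e 1) u) x) -
      ((if e 1 = l then 1 else 0) * pd (e 0) u x + x (e 1) * pd l (pd (e 0) u) x)) +
    b₂ * (((if e 2 = l then 1 else 0) * pd (e 3) u x + x (e 2) * pd l (pd (e 3) u) x) -
      ((if e 3 = l then 1 else 0) * pd (e 2) u x + x (e 3) * pd l (pd (e 2) u) x)) = 0 := by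
  have h := ib2_pd_comb (b₁ := b₁) (b₂ := b₂) (ib2_diff_coord (e 0) x) (ib2_diff_coord (e 1) x)
    (ib2_diff_coord (e 2) x) (ib2_diff_coord (e 3) x) (ib2_diff_pd hu (e 0) x)
    (ib2_diff_pd hu (e 1) x) (ib2_diff_pd hu (e 2) x) (ib2_diff_pd hu (e 3) x) l
  simp only [ib2_pd_coord] at h
  rw [← h]
  have h0 : (fun y : V ι => b₁ * (y (e 0) * pd (e 1) u y - y (e 1) * pd (e 0) u y) +
      b₂ * (y (e 2) * pd (e 3) u y - y (e 3) * pd (e 2) u y)) = fun _ => (0 : ℝ) := by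
    funext y
    exact hk y
  rw [h0]
  simp [pd]

/-- Proof. Let `k : Fin 4`. Differentiating the identity `Kil` with respect to `x (e k)`:
`∑ l (B x) l * pd l (a k) = F k`, where `a k = pd (e k) u`, `B x` has the coordinates
`- b₁ x (e 1), b₁ x (e 0), - b₂ x (e 3), b₂ x (e 2)` at `e 0, …, e 3` and `0` elsewhere, and
`F = (- b₁ a 1, b₁ a 0, - b₂ a 3, b₂ a 2)`. (`pd l (a k) = pd (e k) (pd l u)`.) -/
theorem kil_deriv {K b₁ b₂ : ℝ} {e : Fin 4 ↪ ι} {u : V ι → ℝ} (hu : GS K u)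
    (hk : Kil b₁ b₂ e u) (x : V ι) (k : Fin 4) :
    b₁ * (x (e 0) * pd (e 1) (pd (e k) u) x - x (e 1) * pd (e 0) (pd (e k) u) x) +
      b₂ * (x (e 2) * pd (e 3) (pd (e k) u) x - x (e 3) * pd (e 2) (pd (e k) u) x) =
      ![- b₁ * pd (e 1) u x, b₁ * pd (e 0) u x, - b₂ * pd (e 3) u x, b₂ * pd (e 2) u x] k := by
  classical
  have h := ib2_kil_pd hu hk x (e k)
  rw [pd_comm hu.smooth (e k) (e 0), pd_comm hu.smooth (e k) (e 1),
    pd_comm hu.smooth (e k) (e 2), pd_comm hu.smooth (e k) (e 3)] at h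
  simp only [e.injective.eq_iff] at h
  fin_cases k <;> simp at h ⊢ <;> linarith

/-- Proof. Let `y` be `x` with the four coordinates replaced by `0`. By `kil_deriv` at `y` all
`pd (e k) u y` vanish (`b₁, b₂ ≠ 0`), so `|pd (e k) u x| ≤ K ‖x - y‖ = K √(rr e x)` (`lip1`). -/
theorem aa_le {K b₁ b₂ : ℝ} {e : Fin 4 ↪ ι} {u : V ι → ℝ} (hu : GS K u)
    (hb₁ : b₁ ≠ 0) (hb₂ : b₂ ≠ 0) (hk : Kil b₁ b₂ e u) (x : V ι) :
    aa e u x ≤ 4 * K ^ 2 * rr e x := by
  classical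
  set z : V ι := ∑ k : Fin 4, x (e k) • be (e k) with hz
  set y : V ι := x - z with hy
  have hort : Orthonormal ℝ (fun k : Fin 4 => be (e k)) := by
    have := (EuclideanSpace.basisFun ι ℝ).orthonormal.comp e e.injective
    exact this
  have hzn : ‖z‖ ^ 2 = rr e x := by
    rw [← real_inner_self_eq_norm_sq, hz, hort.inner_sum]
    unfold rr
    refine Finset.sum_congr rfl fun k _ => ?_
    simp
    ring
  have hzk : ∀ k : Fin 4, z (e k) = x (e k) := by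
    intro k
    rw [← inner_be (e k) z, hz]
    have := hort.inner_right_fintype (fun k : Fin 4 => x (e k)) k
    exact this
  have hyk : ∀ k : Fin 4, y (e k) = 0 := by
    intro k
    have : y (e k) = x (e k) - z (e k) := rfl
    rw [this, hzk, sub_self]
  have hA : ∀ k : Fin 4, pd (e k) u y = 0 := by
    have h0 := kil_deriv hu hk y 0
    have h1 := kil_deriv hu hk y 1
    have h2 := kil_deriv hu hk y 2
    have h3 := kil_deriv hu hk y 3
    simp only [hyk] at h0 h1 h2 h3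
    simp at h0 h1 h2 h3
    intro k
    fin_cases k
    · simpa [hb₁] using h1
    · simpa [hb₁] using h0
    · simpa [hb₂] using h3
    · simpa [hb₂] using h2
  have hone : ∀ k : Fin 4, pd (e k) u x ^ 2 ≤ K ^ 2 * rr e x := by
    intro k
    have h1 : |pd (e k) u x| ≤ K * ‖z‖ := by
      have h2 : pd (e k) u x = (fderiv ℝ u x - fderiv ℝ u y) (be (e k)) := by
        have h3 : (fderiv ℝ u x - fderiv ℝ u y) (be (e k)) = pd (e k) u x - pd (e k) u y := rfl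
        rw [h3, hA k, sub_zero]
      rw [h2]
      have h4 := (fderiv ℝ u x - fderiv ℝ u y).le_opNorm (be (e k))
      rw [norm_be, mul_one, Real.norm_eq_abs] at h4
      refine h4.trans ((hu.lip1 x y).trans (le_of_eq ?_))
      rw [hy]
      congr 2
      abel
    rw [← hzn, ← mul_pow, ← sq_abs]
    exact pow_le_pow_left₀ (abs_nonneg _) h1 2
  unfold aa
  calc ∑ k, pd (e k) u x ^ 2 ≤ ∑ _k : Fin 4, K ^ 2 * rr e x := Finset.sum_le_sum fun k _ => hone k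
    _ = 4 * K ^ 2 * rr e x := by
      simp
      ring

/-- the signed coefficients -/
def ib2_s (b₁ b₂ : ℝ) : Fin 4 → ℝ := ![-b₁, b₁, -b₂, b₂]

/-- the permutation of the coordinates -/
def ib2_p : Fin 4 → Fin 4 := ![1, 0, 3, 2]

/-- the components of `B ∇u` -/
noncomputable def ib2_F (b₁ b₂ : ℝ) (e : Fin 4 ↪ ι) (u : V ι → ℝ) (k : Fin 4) (x : V ι) : ℝ :=
  ib2_s b₁ b₂ k * pd (e (ib2_p k)) u x

theorem ib2_F_sq (b₁ b₂ : ℝ) (e : Fin 4 ↪ ι) (u : V ι → ℝ) (x : V ι) :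
    ∑ k, ib2_F b₁ b₂ e u k x ^ 2 = ff b₁ b₂ e u x := by
  unfold ff ib2_F
  simp [Fin.sum_univ_four, ib2_s, ib2_p, bb]
  ring

theorem ib2_F_lin {K : ℝ} (b₁ b₂ : ℝ) (e : Fin 4 ↪ ι) {u : V ι → ℝ} (hu : GS K u) (k : Fin 4) :
    Lin u (ib2_F b₁ b₂ e u k) := by
  have h := hu.lin (ib2_s b₁ b₂ k • be (e (ib2_p k)))
  have h2 : (fun x => fderiv ℝ u x (ib2_s b₁ b₂ k • be (e (ib2_p k)))) = ib2_F b₁ b₂ e u k := by
    funext x
    rw [map_smul]
    rfl
  rw [h2] at h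
  exact h

theorem ib2_F_pd {K : ℝ} (b₁ b₂ : ℝ) (e : Fin 4 ↪ ι) {u : V ι → ℝ} (hu : GS K u) (k : Fin 4)
    (l : ι) (x : V ι) :
    pd l (ib2_F b₁ b₂ e u k) x = ib2_s b₁ b₂ k * pd l (pd (e (ib2_p k)) u) x :=
  pd_const_mul _ (ib2_diff_pd hu _ x) l

theorem ib2_gd_mul {a ξ : V ι → ℝ} (ha : ContDiff ℝ 1 a) (hξ : ContDiff ℝ 1 ξ) (x : V ι) :
    gd (fun y => a y * ξ y) (fun y => a y * ξ y) x =
      gd a (fun y => a y * (ξ y * ξ y)) x + a x ^ 2 * gd ξ ξ x := by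
  unfold gd
  rw [Finset.mul_sum, ← Finset.sum_add_distrib]
  apply Finset.sum_congr rfl
  intro l _
  have da := (ha.differentiable one_ne_zero) x
  have dx := (hξ.differentiable one_ne_zero) x
  have dxx : DifferentiableAt ℝ (fun y => ξ y * ξ y) x := dx.mul dx
  rw [pd_mul da dx, pd_mul da dxx, pd_mul dx dx]
  ring

/-- the energy of a solution of the linearised equation -/
theorem ib2_energy {u a ξ : V ι → ℝ} (ha : Lin u a) (hξ : T1 ξ) :
    ∫ x, gd (fun y => a y * ξ y) (fun y => a y * ξ y) x =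
      (∫ x, cc u x * (a x * ξ x) ^ 2) + ∫ x, a x ^ 2 * gd ξ ξ x := by
  have hψ : T1 (fun y => a y * (ξ y * ξ y)) := T1.mul ha.1 (T1.mul hξ.1 hξ)
  have h1 := ha.2 _ hψ
  have h2 : ∫ x, gd a (fun y => a y * (ξ y * ξ y)) x = ∫ x, cc u x * (a x * ξ x) ^ 2 := by
    refine Eq.trans h1 ?_
    congr 1
    funext x
    ring
  rw [← h2, ← integral_add]
  · congr 1
    funext x
    exact ib2_gd_mul ha.1 hξ.1 x
  · exact integrable_gd ha.1 hψ
  · exact integrable_cs ((ha.1.continuous.pow 2).mul (continuous_gd hξ.1 hξ.1))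
      (hasCompactSupport_gd hξ.2).mul_left

theorem ib2_sum_sq [DecidableEq ι] (e : Fin 4 ↪ ι) (c : Fin 4 → ℝ) :
    ∑ l, (∑ k, if e k = l then c k else 0) ^ 2 = ∑ k, c k ^ 2 := by
  have h : ∀ l, (∑ k, if e k = l then c k else 0) ^ 2 = ∑ k, if e k = l then c k ^ 2 else 0 := by
    intro l
    by_cases hl : ∃ k, e k = l
    · obtain ⟨k, rfl⟩ := hl
      simp [e.injective.eq_iff]
    · push Not at hl
      simp [hl]
  simp only [h]
  rw [Finset.sum_comm]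
  simp

/-- the gradient squared of a product -/
theorem ib2_gd_sq {a ξ : V ι → ℝ} {x : V ι} (ha : DifferentiableAt ℝ a x)
    (hξ : DifferentiableAt ℝ ξ x) :
    gd (fun y => a y * ξ y) (fun y => a y * ξ y) x =
      ξ x ^ 2 * ∑ l, pd l a x ^ 2 + 2 * ξ x * (∑ l, (a x * pd l a x) * pd l ξ x) +
        a x ^ 2 * gd ξ ξ x := by
  unfold gd
  simp only [Finset.mul_sum, ← Finset.sum_add_distrib]
  apply Finset.sum_congr rfl
  intro l _
  rw [pd_mul ha hξ]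
  ring

/-- the density `D` -/
noncomputable def ib2_D (F : Fin 4 → V ι → ℝ) (ε : ℝ) (x : V ι) : ℝ :=
  ∑ k, ∑ l, pd l (F k) x ^ 2 -
    (∑ l, (∑ k, F k x * pd l (F k) x) ^ 2) / (∑ k, F k x ^ 2 + ε ^ 2)

theorem ib2_D_cont {F : Fin 4 → V ι → ℝ} (hF : ∀ k, ContDiff ℝ 1 (F k)) {ε : ℝ} (hε : 0 < ε) :
    Continuous (ib2_D F ε) := by
  unfold ib2_D
  refine Continuous.sub ?_ (Continuous.div ?_ ?_ ?_)
  · exact continuous_finsetSum _ fun k _ => continuous_finsetSum _ fun l _ =>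
      (continuous_pd (hF k) l).pow 2
  · exact continuous_finsetSum _ fun l _ => (continuous_finsetSum _ fun k _ =>
      (hF k).continuous.mul (continuous_pd (hF k) l)).pow 2
  · exact (continuous_finsetSum _ fun k _ => (hF k).continuous.pow 2).add continuous_const
  · intro x
    have : 0 ≤ ∑ k, F k x ^ 2 := Finset.sum_nonneg fun k _ => sq_nonneg _
    positivity

/-- the function `g` -/
theorem ib2_g {F : Fin 4 → V ι → ℝ} (hF : ∀ k, ContDiff ℝ 1 (F k)) {ε : ℝ} (hε : 0 < ε) :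
    ∃ g : V ι → ℝ, ContDiff ℝ 1 g ∧ (∀ x, g x ^ 2 = ∑ k, F k x ^ 2 + ε ^ 2) ∧
      ∀ l x, g x * pd l g x = ∑ k, F k x * pd l (F k) x := by
  have hpos : ∀ x, 0 < ∑ k, F k x ^ 2 + ε ^ 2 := by
    intro x
    have : 0 ≤ ∑ k, F k x ^ 2 := Finset.sum_nonneg fun k _ => sq_nonneg _
    positivity
  have hC : ContDiff ℝ 1 fun x => ∑ k, F k x ^ 2 + ε ^ 2 :=
    (ContDiff.sum fun k _ => (hF k).pow 2).add contDiff_const
  have hg : ContDiff ℝ 1 fun x => √(∑ k, F k x ^ 2 + ε ^ 2) :=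
    hC.sqrt fun x => (hpos x).ne'
  refine ⟨fun x => √(∑ k, F k x ^ 2 + ε ^ 2), hg, fun x => Real.sq_sqrt (hpos x).le, ?_⟩
  intro l x
  have hgd := (hg.differentiable one_ne_zero) x
  have h1 : pd l (fun y => √(∑ k, F k y ^ 2 + ε ^ 2) * √(∑ k, F k y ^ 2 + ε ^ 2)) x =
      pd l (fun y => ∑ k, F k y ^ 2 + ε ^ 2) x := by
    congr 1
    funext y
    exact Real.mul_self_sqrt (hpos y).le
  rw [pd_mul hgd hgd] at h1
  have h2 : pd l (fun y => ∑ k, F k y ^ 2 + ε ^ 2) x = 2 * ∑ k, F k x * pd l (F k) x := by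
    have dk : ∀ k, DifferentiableAt ℝ (F k) x := fun k => ((hF k).differentiable one_ne_zero) x
    have e1 : HasFDerivAt (fun y => ∑ k, F k y ^ 2 + ε ^ 2)
        (∑ k, (2 * F k x ^ 1) • fderiv ℝ (F k) x) x := by
      have := HasFDerivAt.fun_sum (u := Finset.univ) (fun k _ => (dk k).hasFDerivAt.pow 2)
      simpa using this.add_const (ε ^ 2)
    unfold pd
    rw [e1.fderiv]
    simp [Finset.mul_sum]
    refine Finset.sum_congr rfl fun k _ => ?_
    ring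
  rw [h2] at h1
  linarith

theorem ib2_main {u ξ : V ι → ℝ} {F : Fin 4 → V ι → ℝ} (huc : Continuous u) (hst : Stab u)
    (hF : ∀ k, Lin u (F k)) (hξ : T1 ξ) {ε : ℝ} (hε : 0 < ε) :
    ∫ x, ib2_D F ε x * ξ x ^ 2 ≤ (∫ x, (∑ k, F k x ^ 2) * gd ξ ξ x) +
      ε ^ 2 * ((∫ x, gd ξ ξ x) - ∫ x, cc u x * ξ x ^ 2) := by
  obtain ⟨g, hg, hg2, hgp⟩ := ib2_g (fun k => (hF k).1) hε
  have hFc : ∀ k, ContDiff ℝ 1 (F k) := fun k => (hF k).1
  have hgξ : T1 fun x => g x * ξ x := T1.mul hg hξ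
  have hFξ : ∀ k, T1 fun x => F k x * ξ x := fun k => T1.mul (hFc k) hξ
  have pw : ∀ x, (∑ k, gd (fun y => F k y * ξ y) (fun y => F k y * ξ y) x) -
      gd (fun y => g y * ξ y) (fun y => g y * ξ y) x + ε ^ 2 * gd ξ ξ x =
      ib2_D F ε x * ξ x ^ 2 := by
    intro x
    have hgpos : 0 < ∑ k, F k x ^ 2 + ε ^ 2 := by
      have : 0 ≤ ∑ k, F k x ^ 2 := Finset.sum_nonneg fun k _ => sq_nonneg _
      positivity
    have dξ := (hξ.1.differentiable one_ne_zero) x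
    have dg := (hg.differentiable one_ne_zero) x
    have dF : ∀ k, DifferentiableAt ℝ (F k) x := fun k => ((hFc k).differentiable one_ne_zero) x
    have e1 := ib2_gd_sq dg dξ
    have e2 : ∀ k, gd (fun y => F k y * ξ y) (fun y => F k y * ξ y) x = _ :=
      fun k => ib2_gd_sq (dF k) dξ
    have e3 : ∑ l, pd l g x ^ 2 = (∑ l, (∑ k, F k x * pd l (F k) x) ^ 2) /
        (∑ k, F k x ^ 2 + ε ^ 2) := by
      rw [eq_div_iff hgpos.ne', Finset.sum_mul]
      refine Finset.sum_congr rfl fun l _ => ?_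
      rw [← hgp l x, ← hg2 x]
      ring
    have e4 : ∑ l, (g x * pd l g x) * pd l ξ x =
        ∑ k, ∑ l, (F k x * pd l (F k) x) * pd l ξ x := by
      rw [Finset.sum_comm]
      refine Finset.sum_congr rfl fun l _ => ?_
      rw [hgp l x, Finset.sum_mul]
    have e5 : ∑ k, gd (fun y => F k y * ξ y) (fun y => F k y * ξ y) x =
        ξ x ^ 2 * (∑ k, ∑ l, pd l (F k) x ^ 2) +
          2 * ξ x * (∑ k, ∑ l, (F k x * pd l (F k) x) * pd l ξ x) +
          (∑ k, F k x ^ 2) * gd ξ ξ x := by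
      rw [Finset.sum_congr rfl fun k _ => e2 k]
      simp only [Finset.sum_add_distrib, ← Finset.mul_sum, ← Finset.sum_mul]
    rw [e5, e1, e4, e3, hg2 x]
    unfold ib2_D
    ring
  have iF : ∀ k, Integrable (gd (fun y => F k y * ξ y) (fun y => F k y * ξ y)) :=
    fun k => integrable_gd (hFξ k).1 (hFξ k)
  have ig : Integrable (gd (fun y => g y * ξ y) (fun y => g y * ξ y)) :=
    integrable_gd hgξ.1 hgξ
  have iξ : Integrable (gd ξ ξ) := integrable_gd hξ.1 hξ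
  have iff : ∀ k, Integrable fun x => F k x ^ 2 * gd ξ ξ x := fun k =>
    integrable_cs (((hFc k).continuous.pow 2).mul (continuous_gd hξ.1 hξ.1))
      (hasCompactSupport_gd hξ.2).mul_left
  have icF : ∀ k, Integrable fun x => cc u x * (F k x * ξ x) ^ 2 := by
    intro k
    have h1 : (fun x => cc u x * (F k x * ξ x) ^ 2) =
        fun x => (cc u x * (F k x * ξ x)) * (F k x * ξ x) := by
      funext x; ring
    rw [h1]
    exact integrable_mul_T1 ((continuous_cc huc).mul (hFξ k).1.continuous) (hFξ k)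
  have icξ : Integrable fun x => cc u x * ξ x ^ 2 := by
    have h1 : (fun x => cc u x * ξ x ^ 2) = fun x => (cc u x * ξ x) * ξ x := by
      funext x; ring
    rw [h1]
    exact integrable_mul_T1 ((continuous_cc huc).mul hξ.1.continuous) hξ
  have I1 : ∫ x, ib2_D F ε x * ξ x ^ 2 =
      (∑ k, ∫ x, gd (fun y => F k y * ξ y) (fun y => F k y * ξ y) x) -
        (∫ x, gd (fun y => g y * ξ y) (fun y => g y * ξ y) x) + ε ^ 2 * ∫ x, gd ξ ξ x := by
    have hsum : Integrable fun x => ∑ k, gd (fun y => F k y * ξ y) (fun y => F k y * ξ y) x :=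
      integrable_finsetSum _ fun k _ => iF k
    have hsub : Integrable fun x => (∑ k, gd (fun y => F k y * ξ y) (fun y => F k y * ξ y) x) -
        gd (fun y => g y * ξ y) (fun y => g y * ξ y) x := hsum.sub ig
    have hcm : Integrable fun x => ε ^ 2 * gd ξ ξ x := iξ.const_mul _
    rw [← integral_finsetSum _ fun k _ => iF k, ← integral_sub hsum ig,
      ← integral_const_mul, ← integral_add hsub hcm]
    congr 1
    funext x
    exact (pw x).symm
  have I2 : ∑ k, ∫ x, gd (fun y => F k y * ξ y) (fun y => F k y * ξ y) x =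
      (∫ x, ∑ k, cc u x * (F k x * ξ x) ^ 2) + ∫ x, (∑ k, F k x ^ 2) * gd ξ ξ x := by
    rw [Finset.sum_congr rfl fun k _ => ib2_energy (hF k) hξ, Finset.sum_add_distrib,
      ← integral_finsetSum _ fun k _ => icF k, ← integral_finsetSum _ fun k _ => iff k]
    congr 2
    funext x
    rw [Finset.sum_mul]
  have I3 := hst _ hgξ
  have I4 : ∫ x, cc u x * (g x * ξ x) ^ 2 = (∫ x, ∑ k, cc u x * (F k x * ξ x) ^ 2) +
      ε ^ 2 * ∫ x, cc u x * ξ x ^ 2 := by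
    rw [← integral_const_mul, ← integral_add (integrable_finsetSum _ fun k _ => icF k)
      (icξ.const_mul _)]
    congr 1
    funext x
    have h1 : cc u x * (g x * ξ x) ^ 2 = cc u x * ξ x ^ 2 * g x ^ 2 := by ring
    rw [h1, hg2 x, mul_add, Finset.mul_sum]
    congr 1
    · refine Finset.sum_congr rfl fun k _ => ?_
      ring
    · ring
  rw [I4] at I3
  rw [I1, I2]
  linarith

theorem ib2_rr_nonneg (e : Fin 4 ↪ ι) (x : V ι) : 0 ≤ rr e x :=
  Finset.sum_nonneg fun _ _ => sq_nonneg _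

theorem ib2_bz_nonneg (b₁ b₂ : ℝ) (e : Fin 4 ↪ ι) (x : V ι) : 0 ≤ bz b₁ b₂ e x :=
  Finset.sum_nonneg fun _ _ => mul_nonneg (sq_nonneg _) (sq_nonneg _)

theorem ib2_ff_nonneg (b₁ b₂ : ℝ) (e : Fin 4 ↪ ι) (u : V ι → ℝ) (x : V ι) :
    0 ≤ ff b₁ b₂ e u x :=
  Finset.sum_nonneg fun _ _ => mul_nonneg (sq_nonneg _) (sq_nonneg _)

theorem ib2_num_nonneg (b₁ b₂ : ℝ) (e : Fin 4 ↪ ι) (u : V ι → ℝ) (x : V ι) :
    (∑ k, bb b₁ b₂ k ^ 2 * pd (e k) u x * x (e k)) ^ 2 / rr e x ≤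
      ∑ k, bb b₁ b₂ k ^ 4 * pd (e k) u x ^ 2 := by
  apply div_le_of_le_mul₀ (ib2_rr_nonneg e x)
  · exact Finset.sum_nonneg fun _ _ => mul_nonneg (Even.pow_nonneg (by decide) _) (sq_nonneg _)
  have h := Finset.sum_mul_sq_le_sq_mul_sq Finset.univ (fun k => bb b₁ b₂ k ^ 2 * pd (e k) u x)
    (fun k => x (e k))
  refine h.trans (le_of_eq ?_)
  unfold rr
  congr 1
  refine Finset.sum_congr rfl fun k _ => ?_
  ring

theorem ib2_Er_nonneg (b₁ b₂ : ℝ) (e : Fin 4 ↪ ι) (u : V ι → ℝ) (x : V ι) :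
    0 ≤ Er b₁ b₂ e u x :=
  div_nonneg (sub_nonneg.mpr (ib2_num_nonneg b₁ b₂ e u x)) (ib2_bz_nonneg b₁ b₂ e x)

/-- the pointwise inequality -/
theorem ib2_pointwise {K b₁ b₂ : ℝ} {e : Fin 4 ↪ ι} {u : V ι → ℝ} (hu : GS K u)
    (hb₁ : b₁ ≠ 0) (hb₂ : b₂ ≠ 0) (hk : Kil b₁ b₂ e u) (ε : ℝ) (x : V ι) :
    ff b₁ b₂ e u x / rr e x + Er b₁ b₂ e u x ≤ ib2_D (ib2_F b₁ b₂ e u) ε x := by
  classical
  have hff := ib2_F_sq b₁ b₂ e u x
  rcases (ib2_ff_nonneg b₁ b₂ e u x).eq_or_lt with h0 | h0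
  · -- everything vanishes
    have hFk : ∀ k, ib2_F b₁ b₂ e u k x = 0 := by
      intro k
      have h1 : ∑ k, ib2_F b₁ b₂ e u k x ^ 2 = 0 := by rw [hff, ← h0]
      have h2 := (Finset.sum_eq_zero_iff_of_nonneg fun k _ => sq_nonneg
        (ib2_F b₁ b₂ e u k x)).mp h1 k (Finset.mem_univ k)
      exact pow_eq_zero_iff two_ne_zero |>.mp h2
    have ha : ∀ k, pd (e k) u x = 0 := by
      have h0 := hFk 0
      have h1 := hFk 1
      have h2 := hFk 2
      have h3 := hFk 3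
      simp [ib2_F, ib2_s, ib2_p, hb₁, hb₂] at h0 h1 h2 h3
      intro k
      fin_cases k
      · exact h1
      · exact h0
      · exact h3
      · exact h2
    have h1 : Er b₁ b₂ e u x = 0 := by
      unfold Er
      simp [ha]
    rw [h1, ← h0]
    unfold ib2_D
    simp only [hFk, zero_mul, Finset.sum_const_zero]
    simp
    exact Finset.sum_nonneg fun _ _ => Finset.sum_nonneg fun _ _ => sq_nonneg _
  · have hrr : 0 < rr e x := by
      rcases (ib2_rr_nonneg e x).eq_or_lt with h1 | h1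
      · exfalso
        have h2 := aa_le hu hb₁ hb₂ hk x
        rw [← h1, mul_zero] at h2
        have h3 : ∀ k, pd (e k) u x = 0 := by
          intro k
          have h4 : aa e u x = 0 := le_antisymm h2 (Finset.sum_nonneg fun _ _ => sq_nonneg _)
          have h5 := (Finset.sum_eq_zero_iff_of_nonneg fun k _ => sq_nonneg
            (pd (e k) u x)).mp h4 k (Finset.mem_univ k)
          exact pow_eq_zero_iff two_ne_zero |>.mp h5
        unfold ff at h0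
        simp [h3] at h0
      · exact h1
    have hb3 := bessel3 (fun k l => pd l (ib2_F b₁ b₂ e u k) x) (fun k => ib2_F b₁ b₂ e u k x)
      (fun k => x (e k)) (fun k => - bb b₁ b₂ k ^ 2 * pd (e k) u x)
      (fun l => ∑ k, if e k = l then ib2_F b₁ b₂ e u k x else 0)
      (fun l => ∑ k, if e k = l then ib2_s b₁ b₂ k * x (e (ib2_p k)) else 0)
      (by rw [hff]; exact h0) hrr
      (by
        have := hk x
        simp [Fin.sum_univ_four, ib2_F, ib2_s, ib2_p]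
        linarith)
      (by
        simp [Fin.sum_univ_four, ib2_F, ib2_s, ib2_p, bb]
        ring)
      (by
        intro l
        have h := ib2_kil_pd hu hk x l
        simp only [ib2_F_pd b₁ b₂ e hu]
        simp only [Fin.sum_univ_four, ib2_F, ib2_s, ib2_p]
        simp
        have hc : ∀ (k : Fin 4) (c : ℝ), (if e k = l then c else 0) =
            (if e k = l then (1 : ℝ) else 0) * c := by
          intro k c
          by_cases hkl : e k = l <;> simp [hkl]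
        rw [hc 0 (-(b₁ * pd (e 1) u x)), hc 1 (b₁ * pd (e 0) u x), hc 2 (-(b₂ * pd (e 3) u x)),
          hc 3 (b₂ * pd (e 2) u x)]
        linear_combination -h)
      (ib2_sum_sq e _)
      (by
        intro k
        simp only [ib2_F_pd b₁ b₂ e hu, Finset.mul_sum]
        rw [Finset.sum_comm]
        simp only [mul_ite, mul_zero, Finset.sum_ite_eq, Finset.mem_univ, if_true]
        have h := kil_deriv hu hk x (ib2_p k)
        fin_cases k
        · simp [ib2_p, ib2_s, bb, Fin.sum_univ_four] at h ⊢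
          linear_combination (-b₁) * h
        · simp [ib2_p, ib2_s, bb, Fin.sum_univ_four] at h ⊢
          linear_combination (b₁) * h
        · simp [ib2_p, ib2_s, bb, Fin.sum_univ_four] at h ⊢
          linear_combination (-b₂) * h
        · simp [ib2_p, ib2_s, bb, Fin.sum_univ_four] at h ⊢
          linear_combination (b₂) * h)
    have hbz : ∑ l, (∑ k, if e k = l then ib2_s b₁ b₂ k * x (e (ib2_p k)) else 0) ^ 2 =
        bz b₁ b₂ e x := by
      rw [ib2_sum_sq e fun k => ib2_s b₁ b₂ k * x (e (ib2_p k))]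
      unfold bz
      simp [Fin.sum_univ_four, ib2_s, ib2_p, bb]
      ring
    have hw1 : ∑ k, (- bb b₁ b₂ k ^ 2 * pd (e k) u x) ^ 2 =
        ∑ k, bb b₁ b₂ k ^ 4 * pd (e k) u x ^ 2 := by
      refine Finset.sum_congr rfl fun k _ => ?_
      ring
    have hw2 : (∑ k, - bb b₁ b₂ k ^ 2 * pd (e k) u x * x (e k)) ^ 2 =
        (∑ k, bb b₁ b₂ k ^ 2 * pd (e k) u x * x (e k)) ^ 2 := by
      have : ∑ k, - bb b₁ b₂ k ^ 2 * pd (e k) u x * x (e k) =
          - ∑ k, bb b₁ b₂ k ^ 2 * pd (e k) u x * x (e k) := by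
        rw [← Finset.sum_neg_distrib]
        refine Finset.sum_congr rfl fun k _ => ?_
        ring
      rw [this]
      ring
    rw [hbz, hw1, hw2, hff] at hb3
    have hEr : (∑ k, bb b₁ b₂ k ^ 4 * pd (e k) u x ^ 2 -
        (∑ k, bb b₁ b₂ k ^ 2 * pd (e k) u x * x (e k)) ^ 2 / ∑ k, x (e k) ^ 2) /
        bz b₁ b₂ e x = Er b₁ b₂ e u x := rfl
    have hrrd : ∑ k, x (e k) ^ 2 = rr e x := rfl
    rw [hEr, hrrd] at hb3
    unfold ib2_D
    rw [hff]
    have h1 : (∑ l, (∑ k, ib2_F b₁ b₂ e u k x * pd l (ib2_F b₁ b₂ e u k) x) ^ 2) /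
        (ff b₁ b₂ e u x + ε ^ 2) ≤
        (∑ l, (∑ k, ib2_F b₁ b₂ e u k x * pd l (ib2_F b₁ b₂ e u k) x) ^ 2) /
        (ff b₁ b₂ e u x) := by
      apply div_le_div_of_nonneg_left _ h0 (by nlinarith)
      exact Finset.sum_nonneg fun _ _ => sq_nonneg _
    linarith

/-- Proof. Let `F k` be as in `kil_deriv`, `C¹` functions with `∑ k, F k ^ 2 = ff`. Each `F k` is a
directional derivative of `u` in a fixed direction, so `Lin u (F k)` (A3), and with the test function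
`F k * ξ ^ 2`: `∫ gd (F k ξ) (F k ξ) = ∫ cc u (F k ξ) ^ 2 + ∫ (F k) ^ 2 gd ξ ξ`. For `ε > 0` let
`g = √(ff + ε ^ 2)`; `g * ξ` is a test function and `g * pd l g = ∑ k, F k * pd l (F k)`. Pointwise
`∑ k, gd (F k ξ) (F k ξ) - gd (g ξ) (g ξ) = ξ ^ 2 D - ε ^ 2 gd ξ ξ`,
`D = ∑ k l, (pd l (F k)) ^ 2 - ∑ l, (∑ k, F k pd l (F k)) ^ 2 / (ff + ε ^ 2)`. Stability for `g ξ` and
the sum over `k` give `∫ ξ ^ 2 D ≤ ∫ ff gd ξ ξ + ε ^ 2 ∫ gd ξ ξ + ε ^ 2 (1 + 3 K ^ 2) ∫ ξ ^ 2`.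
Where `ff > 0` (then `rr > 0` by `aa_le`), `D ≥ ff / rr + Er` by IB1 with `M k l = pd l (F k)`,
`z k = x (e k)`, `w = B F` (the vector with coordinates `- bb k ^ 2 * pd (e k) u`), `b = B x`,
`G l = F k` if `l = e k` and `0` if `l` is not of this form: `F · z = 0` is `Kil`; differentiating
`F · z = 0` with respect to `x l` gives `hz`; `hb` follows from `kil_deriv`; `F · B F = 0`.
Where `ff = 0` both `ff / rr` and `Er` vanish and `D ≥ 0` (Cauchy-Schwarz). Let `ε → 0`. -/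
theorem kil_ineq {K b₁ b₂ : ℝ} {e : Fin 4 ↪ ι} {u ξ : V ι → ℝ} (hu : GS K u) (hst : Stab u)
    (hb₁ : b₁ ≠ 0) (hb₂ : b₂ ≠ 0) (hk : Kil b₁ b₂ e u) (hξ : T1 ξ) :
    ∫ x, (ff b₁ b₂ e u x / rr e x + Er b₁ b₂ e u x) * ξ x ^ 2 ≤
      ∫ x, ff b₁ b₂ e u x * gd ξ ξ x := by
  have key : ∀ ε : ℝ, 0 < ε → ∫ x, (ff b₁ b₂ e u x / rr e x + Er b₁ b₂ e u x) * ξ x ^ 2 ≤
      (∫ x, ff b₁ b₂ e u x * gd ξ ξ x) +
        ε ^ 2 * ((∫ x, gd ξ ξ x) - ∫ x, cc u x * ξ x ^ 2) := by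
    intro ε hε
    have h1 := ib2_main hu.C1.continuous hst (ib2_F_lin b₁ b₂ e hu) hξ hε
    simp only [ib2_F_sq] at h1
    refine le_trans ?_ h1
    apply integral_mono_of_nonneg
    · filter_upwards with x
      exact mul_nonneg (add_nonneg (div_nonneg (ib2_ff_nonneg b₁ b₂ e u x) (ib2_rr_nonneg e x))
        (ib2_Er_nonneg b₁ b₂ e u x)) (sq_nonneg _)
    · have h2 : (fun x => ib2_D (ib2_F b₁ b₂ e u) ε x * ξ x ^ 2) =
          fun x => (ib2_D (ib2_F b₁ b₂ e u) ε x * ξ x) * ξ x := by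
        funext x; ring
      rw [h2]
      exact integrable_mul_T1 ((ib2_D_cont (fun k => (ib2_F_lin b₁ b₂ e hu k).1) hε).mul
        hξ.1.continuous) hξ
    · filter_upwards with x
      exact mul_le_mul_of_nonneg_right (ib2_pointwise hu hb₁ hb₂ hk ε x) (sq_nonneg _)
  have hlim : Tendsto (fun ε : ℝ => (∫ x, ff b₁ b₂ e u x * gd ξ ξ x) +
      ε ^ 2 * ((∫ x, gd ξ ξ x) - ∫ x, cc u x * ξ x ^ 2)) (𝓝[>] 0)
      (𝓝 (∫ x, ff b₁ b₂ e u x * gd ξ ξ x)) := by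
    have h1 : Continuous (fun ε : ℝ => (∫ x, ff b₁ b₂ e u x * gd ξ ξ x) +
      ε ^ 2 * ((∫ x, gd ξ ξ x) - ∫ x, cc u x * ξ x ^ 2)) := by fun_prop
    have h2 := (h1.tendsto 0).mono_left (nhdsWithin_le_nhds (s := Set.Ioi (0 : ℝ)))
    simpa using h2
  refine ge_of_tendsto hlim ?_
  filter_upwards [self_mem_nhdsWithin] with ε hε
  exact key ε hε

/-- Proof. `Er` is a quotient of nonnegative numbers (Cauchy-Schwarz), and its numerator is at most
`∑ bb ^ 4 (pd u) ^ 2 ≤ C aa ≤ 4 C K ^ 2 rr`, its denominator at least `c rr`. -/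
theorem Er_bound {K b₁ b₂ : ℝ} {e : Fin 4 ↪ ι} {u : V ι → ℝ} (hu : GS K u)
    (hb₁ : b₁ ≠ 0) (hb₂ : b₂ ≠ 0) (hk : Kil b₁ b₂ e u) :
    ∃ C : ℝ, ∀ x, 0 ≤ Er b₁ b₂ e u x ∧ Er b₁ b₂ e u x ≤ C := by
  have hm : 0 < min (b₁ ^ 2) (b₂ ^ 2) := lt_min (by positivity) (by positivity)
  have hC : 0 ≤ (b₁ ^ 4 + b₂ ^ 4) * (4 * K ^ 2) / min (b₁ ^ 2) (b₂ ^ 2) :=
    div_nonneg (by positivity) hm.le
  refine ⟨(b₁ ^ 4 + b₂ ^ 4) * (4 * K ^ 2) / min (b₁ ^ 2) (b₂ ^ 2), fun x => ⟨ib2_Er_nonneg b₁ b₂ e u x, ?_⟩⟩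
  unfold Er
  apply div_le_of_le_mul₀ (ib2_bz_nonneg b₁ b₂ e x) hC
  have h1 : ∑ k, bb b₁ b₂ k ^ 4 * pd (e k) u x ^ 2 ≤ (b₁ ^ 4 + b₂ ^ 4) * aa e u x := by
    unfold aa
    rw [Finset.mul_sum]
    refine Finset.sum_le_sum fun k _ => mul_le_mul_of_nonneg_right ?_ (sq_nonneg _)
    have p1 : 0 ≤ b₁ ^ 4 := by positivity
    have p2 : 0 ≤ b₂ ^ 4 := by positivity
    fin_cases k <;> simp [bb] <;> assumption
  have h2 := aa_le hu hb₁ hb₂ hk x
  have h3 : min (b₁ ^ 2) (b₂ ^ 2) * rr e x ≤ bz b₁ b₂ e x := by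
    unfold rr bz
    rw [Finset.mul_sum]
    refine Finset.sum_le_sum fun k _ => mul_le_mul_of_nonneg_right ?_ (sq_nonneg _)
    fin_cases k <;> simp [bb]
  have h4 : 0 ≤ (∑ k, bb b₁ b₂ k ^ 2 * pd (e k) u x * x (e k)) ^ 2 / rr e x :=
    div_nonneg (sq_nonneg _) (ib2_rr_nonneg e x)
  calc ∑ k, bb b₁ b₂ k ^ 4 * pd (e k) u x ^ 2 -
        (∑ k, bb b₁ b₂ k ^ 2 * pd (e k) u x * x (e k)) ^ 2 / rr e x
      ≤ (b₁ ^ 4 + b₂ ^ 4) * aa e u x := by linarith
    _ ≤ (b₁ ^ 4 + b₂ ^ 4) * (4 * K ^ 2 * rr e x) :=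
        mul_le_mul_of_nonneg_left h2 (by positivity)
    _ = (b₁ ^ 4 + b₂ ^ 4) * (4 * K ^ 2) / min (b₁ ^ 2) (b₂ ^ 2) *
        (min (b₁ ^ 2) (b₂ ^ 2) * rr e x) := by
        field_simp
    _ ≤ _ := mul_le_mul_of_nonneg_left h3 hC

end Pool.Agent.Helper68.DG
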