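import Pool.Agent.Helper68.DG.Base
import Pool.Agent.Helper68.DG.Defs2

/-! Project DG (MP_800410_an), piece RK1: the algebraic inequality in rank four -/

open MeasureTheory Metric Set Filter Topology
open scoped ContDiff

namespace Pool.Agent.Helper68.DG

variable {ι : Type} [Fintype ι]

/-- the quadratic form in the denominator of the weight -/
noncomputable def QQ [DecidableEq ι] (b₁ b₂ : ℝ) (e : Fin 4 ↪ ι) (x : V ι) : ℝ :=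
  1 + ∑ k, (bb b₁ b₂ k ^ 2)⁻¹ * x (e k) ^ 2 +
    min (b₁ ^ 2)⁻¹ (b₂ ^ 2)⁻¹ * ∑ i ∈ (Finset.univ.map e)ᶜ, x i ^ 2

/-- the form `D₀`: the integrand of the dilation inequality for `η = 1 / Q` -/
noncomputable def D0 [DecidableEq ι] (b₁ b₂ : ℝ) (e : Fin 4 ↪ ι) (u : V ι → ℝ) (x : V ι) : ℝ :=
  (∑ k, x (e k) * pd (e k) u x) ^ 2 *
      (4 * (∑ k, ((bb b₁ b₂ k ^ 2)⁻¹ * x (e k)) ^ 2 +
        min (b₁ ^ 2)⁻¹ (b₂ ^ 2)⁻¹ ^ 2 * ∑ i ∈ (Finset.univ.map e)ᶜ, x i ^ 2) /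
        QQ b₁ b₂ e x ^ 4) -
    2 * aa e u x / QQ b₁ b₂ e x ^ 2 +
    4 * aa e u x * (∑ k, (bb b₁ b₂ k ^ 2)⁻¹ * x (e k) ^ 2) / QQ b₁ b₂ e x ^ 3 -
    8 * (∑ k, x (e k) * pd (e k) u x) * (∑ k, (bb b₁ b₂ k ^ 2)⁻¹ * x (e k) * pd (e k) u x) /
      QQ b₁ b₂ e x ^ 3

/-- Cauchy-Schwarz with square roots -/
theorem rk1_cs (f g : Fin 4 → ℝ) :
    |∑ k, f k * g k| ≤ √(∑ k, f k ^ 2) * √(∑ k, g k ^ 2) := by
  rw [← Real.sqrt_mul (Finset.sum_nonneg fun k _ => sq_nonneg _)]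
  apply Real.abs_le_sqrt
  exact Finset.sum_mul_sq_le_sq_mul_sq _ _ _

/-- the inequality for real numbers: `P`, `D` are the norms of `p` and `δ` -/
theorem rk1_real {P D r ν g Q q m sp sd tp td pd' : ℝ} (hP : 0 ≤ P) (hD : 0 ≤ D) (hr : 0 ≤ r)
    (hν : 0 ≤ ν) (hg : 1 ≤ g) (hQ : 0 < Q) (hq : 0 ≤ q) (hqQ : q ≤ Q) (hm : 0 ≤ m)
    (h1 : |sp| ≤ r * P) (h2 : |sd| ≤ r * D) (h3 : |tp| ≤ ν * P) (h4 : |td| ≤ ν * D)
    (h5 : |pd'| ≤ P * D) (h6 : m * r ^ 2 ≤ 4 * g) (h7 : r * ν ≤ g * Q)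
    (h8 : m * sp ^ 2 - (2 - 4 * (q / Q)) * P ^ 2 - 8 * (sp * tp / Q) ≤ -2 * P ^ 2) :
    m * (sp + sd) ^ 2 - (2 - 4 * (q / Q)) * (P ^ 2 + 2 * pd' + D ^ 2) -
      8 * ((sp + sd) * (tp + td) / Q) ≤ -P ^ 2 + (14 * g + 196 * g ^ 2) * D ^ 2 := by
  have k0 : 0 ≤ q / Q := by positivity
  have k1 : q / Q ≤ 1 := (div_le_one hQ).2 hqQ
  -- the products
  have e1 : sp * sd ≤ r ^ 2 * (P * D) := by
    calc sp * sd ≤ |sp * sd| := le_abs_self _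
      _ = |sp| * |sd| := abs_mul _ _
      _ ≤ (r * P) * (r * D) := mul_le_mul h1 h2 (abs_nonneg _) (by positivity)
      _ = _ := by ring
  have e2 : sd ^ 2 ≤ r ^ 2 * D ^ 2 := by
    rw [← sq_abs, ← mul_pow]
    exact pow_le_pow_left₀ (abs_nonneg _) h2 2
  have e3 : -(sp * td) ≤ (r * ν) * (P * D) := by
    calc -(sp * td) ≤ |sp * td| := neg_le_abs _
      _ = |sp| * |td| := abs_mul _ _
      _ ≤ (r * P) * (ν * D) := mul_le_mul h1 h4 (abs_nonneg _) (by positivity)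
      _ = _ := by ring
  have e4 : -(sd * tp) ≤ (r * ν) * (P * D) := by
    calc -(sd * tp) ≤ |sd * tp| := neg_le_abs _
      _ = |sd| * |tp| := abs_mul _ _
      _ ≤ (r * D) * (ν * P) := mul_le_mul h2 h3 (abs_nonneg _) (by positivity)
      _ = _ := by ring
  have e5 : -(sd * td) ≤ (r * ν) * D ^ 2 := by
    calc -(sd * td) ≤ |sd * td| := neg_le_abs _
      _ = |sd| * |td| := abs_mul _ _
      _ ≤ (r * D) * (ν * D) := mul_le_mul h2 h4 (abs_nonneg _) (by positivity)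
      _ = _ := by ring
  have hPD : 0 ≤ P * D := by positivity
  -- the terms
  have f1 : m * (sp * sd) ≤ 4 * g * (P * D) := by
    calc m * (sp * sd) ≤ m * (r ^ 2 * (P * D)) := mul_le_mul_of_nonneg_left e1 hm
      _ = m * r ^ 2 * (P * D) := by ring
      _ ≤ _ := mul_le_mul_of_nonneg_right h6 hPD
  have f2 : m * sd ^ 2 ≤ 4 * g * D ^ 2 := by
    calc m * sd ^ 2 ≤ m * (r ^ 2 * D ^ 2) := mul_le_mul_of_nonneg_left e2 hm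
      _ = m * r ^ 2 * D ^ 2 := by ring
      _ ≤ _ := mul_le_mul_of_nonneg_right h6 (by positivity)
  have f3 : -(sp * td / Q) ≤ g * (P * D) := by
    rw [← neg_div, div_le_iff₀ hQ]
    calc -(sp * td) ≤ (r * ν) * (P * D) := e3
      _ ≤ g * Q * (P * D) := mul_le_mul_of_nonneg_right h7 hPD
      _ = _ := by ring
  have f4 : -(sd * tp / Q) ≤ g * (P * D) := by
    rw [← neg_div, div_le_iff₀ hQ]
    calc -(sd * tp) ≤ (r * ν) * (P * D) := e4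
      _ ≤ g * Q * (P * D) := mul_le_mul_of_nonneg_right h7 hPD
      _ = _ := by ring
  have f5 : -(sd * td / Q) ≤ g * D ^ 2 := by
    rw [← neg_div, div_le_iff₀ hQ]
    calc -(sd * td) ≤ (r * ν) * D ^ 2 := e5
      _ ≤ g * Q * D ^ 2 := mul_le_mul_of_nonneg_right h7 (by positivity)
      _ = _ := by ring
  have f6 : -((2 - 4 * (q / Q)) * pd') ≤ 2 * (P * D) := by
    calc -((2 - 4 * (q / Q)) * pd') ≤ |(2 - 4 * (q / Q)) * pd'| := neg_le_abs _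
      _ = |2 - 4 * (q / Q)| * |pd'| := abs_mul _ _
      _ ≤ 2 * (P * D) := by
        refine mul_le_mul ?_ h5 (abs_nonneg _) (by norm_num)
        rw [abs_le]; constructor <;> linarith
  have f7 : -((2 - 4 * (q / Q)) * D ^ 2) ≤ 2 * D ^ 2 := by nlinarith [sq_nonneg D]
  have f8 : 28 * g * (P * D) ≤ P ^ 2 + 196 * g ^ 2 * D ^ 2 := by
    nlinarith [sq_nonneg (P - 14 * g * D)]
  have f9 : (12 * g + 2) * D ^ 2 ≤ 14 * g * D ^ 2 :=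
    mul_le_mul_of_nonneg_right (by linarith) (by positivity)
  have f10 : (24 * g + 4) * (P * D) ≤ 28 * g * (P * D) :=
    mul_le_mul_of_nonneg_right (by linarith) hPD
  have e : m * (sp + sd) ^ 2 - (2 - 4 * (q / Q)) * (P ^ 2 + 2 * pd' + D ^ 2) -
      8 * ((sp + sd) * (tp + td) / Q) =
      (m * sp ^ 2 - (2 - 4 * (q / Q)) * P ^ 2 - 8 * (sp * tp / Q)) +
      2 * (m * (sp * sd)) + m * sd ^ 2 + 2 * -((2 - 4 * (q / Q)) * pd') +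
      -((2 - 4 * (q / Q)) * D ^ 2) + 8 * -(sp * td / Q) + 8 * -(sd * tp / Q) +
      8 * -(sd * td / Q) := by ring
  rw [e]
  linarith

/-- the inequality for vectors, `B = b ^ 2` -/
theorem rk1_core (B z a : Fin 4 → ℝ) {γ Γ Y Q : ℝ} (hB : ∀ k, 0 < B k) (hγ : 0 < γ)
    (h1 : ∀ k, γ ≤ (B k)⁻¹) (h2 : ∀ k, (B k)⁻¹ ≤ Γ) (hY : 0 ≤ Y)
    (hQ : Q = 1 + ∑ k, (B k)⁻¹ * z k ^ 2 + γ * Y) (hR : 0 < ∑ k, z k ^ 2) :
    (∑ k, z k * a k) ^ 2 * (4 * (∑ k, ((B k)⁻¹ * z k) ^ 2 + γ ^ 2 * Y) / Q ^ 2) -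
      (2 - 4 * ((∑ k, (B k)⁻¹ * z k ^ 2) / Q)) * ∑ k, a k ^ 2 -
      8 * ((∑ k, z k * a k) * (∑ k, (B k)⁻¹ * z k * a k) / Q) ≤
    -(∑ k, a k ^ 2) / 2 + (1 + 14 * (Γ / γ) + 196 * (Γ / γ) ^ 2) * (Γ ^ 2 / γ ^ 2) *
      ((∑ k, B k ^ 2 * a k ^ 2 - (∑ k, B k * a k * z k) ^ 2 / ∑ k, z k ^ 2) /
        ∑ k, B k * z k ^ 2) * Q := by
  obtain ⟨R, hRdef⟩ : ∃ R, R = ∑ k, z k ^ 2 := ⟨_, rfl⟩
  obtain ⟨q, hqdef⟩ : ∃ q, q = ∑ k, (B k)⁻¹ * z k ^ 2 := ⟨_, rfl⟩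
  obtain ⟨n2, hndef⟩ : ∃ n2, n2 = ∑ k, ((B k)⁻¹ * z k) ^ 2 := ⟨_, rfl⟩
  obtain ⟨μ, hμ⟩ : ∃ μ, μ = (∑ k, B k * a k * z k) / R := ⟨_, rfl⟩
  obtain ⟨p, hp⟩ : ∃ p : Fin 4 → ℝ, p = fun k => μ * ((B k)⁻¹ * z k) := ⟨_, rfl⟩
  obtain ⟨δ, hδ⟩ : ∃ δ : Fin 4 → ℝ, δ = fun k => a k - p k := ⟨_, rfl⟩
  obtain ⟨S, hS⟩ : ∃ S, S = ∑ k, (B k * δ k) ^ 2 := ⟨_, rfl⟩
  obtain ⟨bzz, hbz⟩ : ∃ bzz, bzz = ∑ k, B k * z k ^ 2 := ⟨_, rfl⟩
  have hak : ∀ k, a k = p k + δ k := fun k => by rw [hδ]; ring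
  have hΓ : 0 < Γ := hγ.trans_le ((h1 0).trans (h2 0))
  have hg1 : 1 ≤ Γ / γ := (one_le_div hγ).2 ((h1 0).trans (h2 0))
  have hBi : ∀ k, 0 < (B k)⁻¹ := fun k => inv_pos.2 (hB k)
  rw [← hRdef] at hR
  rw [← hqdef] at hQ
  -- sizes
  have s1 : γ * R ≤ q := by
    rw [hRdef, hqdef, Finset.mul_sum]
    exact Finset.sum_le_sum fun k _ => mul_le_mul_of_nonneg_right (h1 k) (sq_nonneg _)
  have hq0 : 0 ≤ q := (mul_nonneg hγ.le hR.le).trans s1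
  have hγY : 0 ≤ γ * Y := mul_nonneg hγ.le hY
  have hQ0 : 0 < Q := by rw [hQ]; linarith
  have hqQ : q ≤ Q := by rw [hQ]; linarith
  have s2 : n2 ≤ Γ * q := by
    rw [hndef, hqdef, Finset.mul_sum]
    refine Finset.sum_le_sum fun k _ => ?_
    calc ((B k)⁻¹ * z k) ^ 2 = (B k)⁻¹ * ((B k)⁻¹ * z k ^ 2) := by ring
      _ ≤ Γ * ((B k)⁻¹ * z k ^ 2) :=
        mul_le_mul_of_nonneg_right (h2 k) (mul_nonneg (hBi k).le (sq_nonneg _))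
  have s3 : γ * q ≤ n2 := by
    rw [hndef, hqdef, Finset.mul_sum]
    refine Finset.sum_le_sum fun k _ => ?_
    calc γ * ((B k)⁻¹ * z k ^ 2) ≤ (B k)⁻¹ * ((B k)⁻¹ * z k ^ 2) :=
        mul_le_mul_of_nonneg_right (h1 k) (mul_nonneg (hBi k).le (sq_nonneg _))
      _ = _ := by ring
  have hn0 : 0 ≤ n2 := (mul_nonneg hγ.le hq0).trans s3
  have s4 : n2 + γ ^ 2 * Y ≤ Γ * Q := by
    have : γ * (γ * Y) ≤ Γ * (γ * Y) := mul_le_mul_of_nonneg_right ((h1 0).trans (h2 0)) hγY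
    rw [hQ]
    nlinarith
  have hnY : 0 ≤ n2 + γ ^ 2 * Y := by positivity
  have s5 : R ≤ Q / γ := by
    rw [le_div_iff₀ hγ]; linarith
  have s6 : (n2 + γ ^ 2 * Y) * R ≤ Γ / γ * Q ^ 2 := by
    calc (n2 + γ ^ 2 * Y) * R ≤ (Γ * Q) * (Q / γ) := mul_le_mul s4 s5 hR.le (by positivity)
      _ = _ := by ring
  have s7 : R * n2 ≤ (Γ / γ * Q) ^ 2 := by
    have t1 : R * n2 ≤ Γ / γ * Q ^ 2 := by nlinarith [mul_nonneg (sq_nonneg γ) hY]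
    have t2 : Γ / γ * Q ^ 2 ≤ (Γ / γ) * (Γ / γ) * Q ^ 2 := by
      refine mul_le_mul_of_nonneg_right ?_ (sq_nonneg _)
      nlinarith
    calc R * n2 ≤ _ := t1
      _ ≤ _ := t2
      _ = _ := by ring
  -- the products
  have p1 : ∑ k, z k * p k = μ * q := by
    rw [hp, hqdef, Finset.mul_sum]
    exact Finset.sum_congr rfl fun k _ => by ring
  have p2 : ∑ k, ((B k)⁻¹ * z k) * p k = μ * n2 := by
    rw [hp, hndef, Finset.mul_sum]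
    exact Finset.sum_congr rfl fun k _ => by ring
  have p3 : ∑ k, p k ^ 2 = μ ^ 2 * n2 := by
    rw [hp, hndef, Finset.mul_sum]
    exact Finset.sum_congr rfl fun k _ => by ring
  have a1 : ∑ k, z k * a k = ∑ k, z k * p k + ∑ k, z k * δ k := by
    rw [← Finset.sum_add_distrib]
    exact Finset.sum_congr rfl fun k _ => by rw [hak]; ring
  have a2 : ∑ k, (B k)⁻¹ * z k * a k =
      ∑ k, ((B k)⁻¹ * z k) * p k + ∑ k, ((B k)⁻¹ * z k) * δ k := by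
    rw [← Finset.sum_add_distrib]
    exact Finset.sum_congr rfl fun k _ => by rw [hak]; ring
  have a3 : ∑ k, a k ^ 2 = ∑ k, p k ^ 2 + 2 * ∑ k, p k * δ k + ∑ k, δ k ^ 2 := by
    rw [Finset.mul_sum, ← Finset.sum_add_distrib, ← Finset.sum_add_distrib]
    exact Finset.sum_congr rfl fun k _ => by rw [hak]; ring
  have hP2 : √(∑ k, p k ^ 2) ^ 2 = ∑ k, p k ^ 2 :=
    Real.sq_sqrt (Finset.sum_nonneg fun k _ => sq_nonneg _)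
  have hD2 : √(∑ k, δ k ^ 2) ^ 2 = ∑ k, δ k ^ 2 :=
    Real.sq_sqrt (Finset.sum_nonneg fun k _ => sq_nonneg _)
  have hr2 : √R ^ 2 = R := Real.sq_sqrt hR.le
  obtain ⟨P, hPdef⟩ : ∃ P, P = √(∑ k, p k ^ 2) := ⟨_, rfl⟩
  obtain ⟨D, hDdef⟩ : ∃ D, D = √(∑ k, δ k ^ 2) := ⟨_, rfl⟩
  have main := rk1_real (P := P) (D := D) (r := √R) (ν := √n2) (g := Γ / γ) (Q := Q) (q := q)
    (m := 4 * (n2 + γ ^ 2 * Y) / Q ^ 2) (sp := ∑ k, z k * p k) (sd := ∑ k, z k * δ k)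
    (tp := ∑ k, ((B k)⁻¹ * z k) * p k) (td := ∑ k, ((B k)⁻¹ * z k) * δ k)
    (pd' := ∑ k, p k * δ k) (hPdef ▸ Real.sqrt_nonneg _) (hDdef ▸ Real.sqrt_nonneg _)
    (Real.sqrt_nonneg _) (Real.sqrt_nonneg _) hg1 hQ0 hq0 hqQ (by positivity)
    (by rw [hPdef, hRdef]; exact rk1_cs _ _) (by rw [hDdef, hRdef]; exact rk1_cs _ _)
    (by rw [hPdef, hndef]; exact rk1_cs _ _) (by rw [hDdef, hndef]; exact rk1_cs _ _)
    (by rw [hPdef, hDdef]; exact rk1_cs _ _)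
    (by
      rw [hr2, div_mul_eq_mul_div, div_le_iff₀ (by positivity)]
      linarith)
    (by
      rw [← Real.sqrt_mul hR.le]
      exact Real.sqrt_le_iff.2 ⟨by positivity, s7⟩)
    (by
      rw [hPdef, hP2, p1, p2, p3]
      have t0 : (n2 + γ ^ 2 * Y) * q ≤ n2 * Q := by
        have := mul_le_mul_of_nonneg_right s3 hγY
        rw [hQ]
        nlinarith
      have t1 : (n2 + γ ^ 2 * Y) * q ^ 2 / Q ^ 2 ≤ n2 * q / Q := by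
        rw [div_le_div_iff₀ (by positivity) hQ0]
        nlinarith [mul_le_mul_of_nonneg_right t0 (mul_nonneg hq0 hQ0.le)]
      have t2 := mul_le_mul_of_nonneg_left t1 (sq_nonneg μ)
      have t3 : 4 * (n2 + γ ^ 2 * Y) / Q ^ 2 * (μ * q) ^ 2 -
          (2 - 4 * (q / Q)) * (μ ^ 2 * n2) - 8 * (μ * q * (μ * n2) / Q) =
          4 * (μ ^ 2 * ((n2 + γ ^ 2 * Y) * q ^ 2 / Q ^ 2)) - 4 * (μ ^ 2 * (n2 * q / Q)) -
            2 * (μ ^ 2 * n2) := by ring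
      rw [t3]
      linarith)
  -- the error term
  have hbz0 : 0 < bzz := by
    rw [hbz]
    have hne : ∃ k ∈ (Finset.univ : Finset (Fin 4)), 0 < z k ^ 2 := by
      by_contra hcon
      push Not at hcon
      have : R ≤ 0 := by rw [hRdef]; exact Finset.sum_nonpos hcon
      linarith
    obtain ⟨k, -, hk⟩ := hne
    exact Finset.sum_pos' (fun k _ => mul_nonneg (hB k).le (sq_nonneg _))
      ⟨k, Finset.mem_univ k, mul_pos (hB k) hk⟩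
  have hBγ : ∀ k, B k ≤ γ⁻¹ := fun k => by
    rw [le_inv_comm₀ (hB k) hγ]; exact h1 k
  have b1 : γ ^ 2 * bzz ≤ Q := by
    have : bzz ≤ γ⁻¹ * R := by
      rw [hbz, hRdef, Finset.mul_sum]
      exact Finset.sum_le_sum fun k _ => mul_le_mul_of_nonneg_right (hBγ k) (sq_nonneg _)
    calc γ ^ 2 * bzz ≤ γ ^ 2 * (γ⁻¹ * R) := mul_le_mul_of_nonneg_left this (sq_nonneg _)
      _ = γ * R := by field_simp
      _ ≤ Q := s1.trans hqQ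
  have b2 : ∑ k, B k ^ 2 * a k ^ 2 - (∑ k, B k * a k * z k) ^ 2 / R = S := by
    have c1 : S = ∑ k, B k ^ 2 * a k ^ 2 - 2 * μ * ∑ k, B k * a k * z k + μ ^ 2 * R := by
      rw [hS, hRdef, Finset.mul_sum, Finset.mul_sum, ← Finset.sum_sub_distrib,
        ← Finset.sum_add_distrib]
      refine Finset.sum_congr rfl fun k _ => ?_
      have : B k * δ k = B k * a k - μ * z k := by
        rw [hδ, hp]
        have := (hB k).ne'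
        field_simp
      rw [this]
      ring
    rw [c1, hμ]
    field_simp
    ring
  have b3 : ∑ k, δ k ^ 2 ≤ Γ ^ 2 * S := by
    rw [hS, Finset.mul_sum]
    refine Finset.sum_le_sum fun k _ => ?_
    have c1 : δ k = (B k)⁻¹ * (B k * δ k) := by
      have := (hB k).ne'
      field_simp
    have c2 : ((B k)⁻¹) ^ 2 ≤ Γ ^ 2 := pow_le_pow_left₀ (hBi k).le (h2 k) 2
    calc δ k ^ 2 = ((B k)⁻¹) ^ 2 * (B k * δ k) ^ 2 := by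
          conv_lhs => rw [c1]
          ring
      _ ≤ _ := mul_le_mul_of_nonneg_right c2 (sq_nonneg _)
  have hS0 : 0 ≤ S := by rw [hS]; exact Finset.sum_nonneg fun k _ => sq_nonneg _
  have b4 : ∑ k, δ k ^ 2 ≤ (Γ ^ 2 / γ ^ 2) * (S / bzz) * Q := by
    refine b3.trans ?_
    have c1 : (Γ ^ 2 / γ ^ 2) * (S / bzz) * Q = Γ ^ 2 * S * (Q / (γ ^ 2 * bzz)) := by
      field_simp
    rw [c1]
    refine le_mul_of_one_le_right (by positivity) ?_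
    exact (one_le_div (by positivity)).2 b1
  rw [← hRdef, ← hqdef, ← hndef, ← hbz, b2]
  have hAle : (∑ k, a k ^ 2) / 2 ≤ P ^ 2 + D ^ 2 := by
    have c1 : ∑ k, p k * δ k ≤ P * D := by
      rw [hPdef, hDdef]
      exact (le_abs_self _).trans (rk1_cs _ _)
    rw [a3, ← hP2, ← hD2, ← hPdef, ← hDdef]
    nlinarith [sq_nonneg (P - D)]
  have e0 : (∑ k, z k * a k) ^ 2 * (4 * (n2 + γ ^ 2 * Y) / Q ^ 2) -
      (2 - 4 * (q / Q)) * ∑ k, a k ^ 2 -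
      8 * ((∑ k, z k * a k) * (∑ k, (B k)⁻¹ * z k * a k) / Q) =
      4 * (n2 + γ ^ 2 * Y) / Q ^ 2 * (∑ k, z k * p k + ∑ k, z k * δ k) ^ 2 -
      (2 - 4 * (q / Q)) * (P ^ 2 + 2 * ∑ k, p k * δ k + D ^ 2) -
      8 * ((∑ k, z k * p k + ∑ k, z k * δ k) *
        (∑ k, ((B k)⁻¹ * z k) * p k + ∑ k, ((B k)⁻¹ * z k) * δ k) / Q) := by
    rw [a1, a2, a3, hPdef, hDdef, hP2, hD2]
    ring
  rw [e0]
  refine main.trans ?_
  rw [← hDdef] at hD2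
  rw [← hD2] at b4
  have hcoef : 0 ≤ 1 + 14 * (Γ / γ) + 196 * (Γ / γ) ^ 2 := by positivity
  have := mul_le_mul_of_nonneg_left b4 hcoef
  calc -P ^ 2 + (14 * (Γ / γ) + 196 * (Γ / γ) ^ 2) * D ^ 2
      ≤ -(∑ k, a k ^ 2) / 2 + (1 + 14 * (Γ / γ) + 196 * (Γ / γ) ^ 2) * D ^ 2 := by linarith
    _ ≤ -(∑ k, a k ^ 2) / 2 + (1 + 14 * (Γ / γ) + 196 * (Γ / γ) ^ 2) *
        ((Γ ^ 2 / γ ^ 2) * (S / bzz) * Q) := by linarith
    _ = _ := by ring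

theorem rk1_exp2 (x : V ι) : Real.exp (-2 * lg x) = (1 + ‖x‖ ^ 2)⁻¹ := by
  rw [← exp_lg_sq, ← Real.exp_nat_mul, ← Real.exp_neg]
  congr 1
  push_cast
  ring

theorem rk1_exp4 (x : V ι) : Real.exp (-4 * lg x) = ((1 + ‖x‖ ^ 2) ^ 2)⁻¹ := by
  rw [← exp_lg_sq, ← pow_mul, ← Real.exp_nat_mul, ← Real.exp_neg]
  congr 1
  push_cast
  ring

theorem rk1_norm [DecidableEq ι] (e : Fin 4 ↪ ι) (x : V ι) :
    ‖x‖ ^ 2 = rr e x + ∑ i ∈ (Finset.univ.map e)ᶜ, x i ^ 2 := by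
  rw [EuclideanSpace.norm_sq_eq]
  have h1 : ∑ i, ‖x i‖ ^ 2 = ∑ i, x i ^ 2 :=
    Finset.sum_congr rfl fun i _ => by rw [Real.norm_eq_abs, sq_abs]
  rw [h1, ← Finset.sum_add_sum_compl (Finset.univ.map e), Finset.sum_map]
  rfl

theorem rk1_Er_nonneg (b₁ b₂ : ℝ) (e : Fin 4 ↪ ι) (u : V ι → ℝ) (x : V ι) :
    0 ≤ Er b₁ b₂ e u x := by
  unfold Er
  refine div_nonneg ?_ (Finset.sum_nonneg fun k _ => by positivity)
  have h1 := Finset.sum_mul_sq_le_sq_mul_sq Finset.univ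
    (fun k => bb b₁ b₂ k ^ 2 * pd (e k) u x) (fun k => x (e k))
  have h2 : ∑ k, (bb b₁ b₂ k ^ 2 * pd (e k) u x) ^ 2 = ∑ k, bb b₁ b₂ k ^ 4 * pd (e k) u x ^ 2 :=
    Finset.sum_congr rfl fun k _ => by ring
  rw [h2] at h1
  have h3 : 0 ≤ rr e x := Finset.sum_nonneg fun k _ => sq_nonneg _
  have h4 : 0 ≤ ∑ k, bb b₁ b₂ k ^ 4 * pd (e k) u x ^ 2 :=
    Finset.sum_nonneg fun k _ => mul_nonneg (by positivity) (sq_nonneg _)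
  rw [sub_nonneg]
  exact div_le_of_le_mul₀ h3 h4 h1

/-- Proof. Write `c k = (bb k ^ 2)⁻¹`, `γ = min c k`, `Γ = max c k`, `z k = x (e k)`,
`a k = pd (e k) u x`, `Y = ∑ i ∉ e, x i ^ 2`, `ρ ^ 2 = rr = ∑ z k ^ 2`, `q = ∑ c k z k ^ 2`,
`Q = 1 + q + γ Y`, `N z = (c k z k)`. So
`Q ^ 2 D₀ = 4 (z · a) ^ 2 (|N z| ^ 2 + γ ^ 2 Y) / Q ^ 2 - 2 |a| ^ 2 + 4 |a| ^ 2 q / Q - 8 (z · a) (a · N z) / Q`.
If `rr = 0` then `Q ^ 2 D₀ = - 2 |a| ^ 2`. Assume `ρ > 0` and write `a = μ N z + δ` with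
`μ = (∑ z k a k / c k) / ρ ^ 2`; so `∑ z k δ k / c k = 0`.
(1) For `a = μ N z`: with `σ = q / Q`, `τ = γ Y / Q`, `σ + τ ≤ 1`,
`Q ^ 2 D₀ = μ ^ 2 (4 q ^ 2 (|N z| ^ 2 + γ ^ 2 Y) / Q ^ 2 - 2 |N z| ^ 2 + 4 |N z| ^ 2 σ - 8 |N z| ^ 2 σ)`
`≤ μ ^ 2 |N z| ^ 2 (4 σ ^ 2 + 4 σ τ - 2 - 4 σ) ≤ - 2 μ ^ 2 |N z| ^ 2`, because
`q ^ 2 γ ^ 2 Y / Q ^ 2 = γ q σ τ` and `γ q ≤ |N z| ^ 2`.
(2) The bilinear form of `Q ^ 2 D₀` is bounded: `|Q ^ 2 D₀ (a, a')| ≤ C₁ |a| |a'|`, as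
`ρ ^ 2 ≤ q / γ ≤ Q / γ`, `|N z| ^ 2 ≤ Γ q ≤ Γ Q`, `γ ^ 2 Y ≤ γ Q`.
(3) So `Q ^ 2 D₀ (a) ≤ - 2 |μ N z| ^ 2 + 2 C₁ |μ N z| |δ| + C₁ |δ| ^ 2`
`≤ - |μ N z| ^ 2 + (C₁ + C₁ ^ 2) |δ| ^ 2 ≤ - |a| ^ 2 / 2 + (1 + C₁ + C₁ ^ 2) |δ| ^ 2`.
(4) `Er = (∑ (δ k / c k) ^ 2) / (∑ z k ^ 2 / c k)`: indeed `∑ bb ^ 4 a ^ 2 - (∑ bb ^ 2 a z) ^ 2 / ρ ^ 2` is
the square of the norm of the component of `(a k / c k)` orthogonal to `z`, which is `(δ k / c k)`. So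
`|δ| ^ 2 ≤ Γ ^ 2 (ρ ^ 2 / γ) Er`, and `ρ ^ 2 ≤ Q / γ`.
(5) `min 1 γ * E ≤ Q ≤ max 1 Γ * E` with `E = exp (lg x) ^ 2 = 1 + ρ ^ 2 + Y`. Hence
`D₀ ≤ - |a| ^ 2 / (2 Q ^ 2) + C₂ Er / Q ≤ - c |a| ^ 2 exp (- 4 lg x) + C Er exp (- 2 lg x)`. -/
theorem D0_le [DecidableEq ι] {b₁ b₂ : ℝ} (hb₁ : b₁ ≠ 0) (hb₂ : b₂ ≠ 0) (e : Fin 4 ↪ ι) :
    ∃ c C : ℝ, 0 < c ∧ 0 ≤ C ∧ ∀ (u : V ι → ℝ) (x : V ι),
      D0 b₁ b₂ e u x ≤ - c * aa e u x * Real.exp (-4 * lg x) +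
        C * Er b₁ b₂ e u x * Real.exp (-2 * lg x) := by
  obtain ⟨γ, hγdef⟩ : ∃ γ, γ = min (b₁ ^ 2)⁻¹ (b₂ ^ 2)⁻¹ := ⟨_, rfl⟩
  obtain ⟨Γ, hΓdef⟩ : ∃ Γ, Γ = max (b₁ ^ 2)⁻¹ (b₂ ^ 2)⁻¹ := ⟨_, rfl⟩
  have hB1 : 0 < (b₁ ^ 2)⁻¹ := by positivity
  have hB2 : 0 < (b₂ ^ 2)⁻¹ := by positivity
  have hγ : 0 < γ := by rw [hγdef]; exact lt_min hB1 hB2
  have hΓ : 0 < Γ := by rw [hΓdef]; exact lt_max_of_lt_left hB1
  have hB : ∀ k, 0 < bb b₁ b₂ k ^ 2 := by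
    intro k
    fin_cases k <;> simp [bb] <;> positivity
  have h1 : ∀ k, γ ≤ (bb b₁ b₂ k ^ 2)⁻¹ := by
    intro k
    rw [hγdef]
    fin_cases k <;> simp [bb]
  have h2 : ∀ k, (bb b₁ b₂ k ^ 2)⁻¹ ≤ Γ := by
    intro k
    rw [hΓdef]
    fin_cases k <;> simp [bb]
  obtain ⟨C2, hC2⟩ : ∃ C2, C2 = (1 + 14 * (Γ / γ) + 196 * (Γ / γ) ^ 2) * (Γ ^ 2 / γ ^ 2) :=
    ⟨_, rfl⟩
  have hC20 : 0 ≤ C2 := by rw [hC2]; positivity
  have hm1 : (0 : ℝ) < max 1 Γ := lt_max_of_lt_left one_pos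
  have hm2 : (0 : ℝ) < min 1 γ := lt_min one_pos hγ
  refine ⟨1 / (2 * max 1 Γ ^ 2), C2 / min 1 γ, by positivity, by positivity, fun u x => ?_⟩
  obtain ⟨Y, hYdef⟩ : ∃ Y, Y = ∑ i ∈ (Finset.univ.map e)ᶜ, x i ^ 2 := ⟨_, rfl⟩
  obtain ⟨Q, hQdef⟩ : ∃ Q, Q = QQ b₁ b₂ e x := ⟨_, rfl⟩
  obtain ⟨R, hRdef⟩ : ∃ R, R = rr e x := ⟨_, rfl⟩
  obtain ⟨A, hAdef⟩ : ∃ A, A = aa e u x := ⟨_, rfl⟩
  obtain ⟨F, hFdef⟩ : ∃ F, F = Er b₁ b₂ e u x := ⟨_, rfl⟩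
  have hY0 : 0 ≤ Y := by rw [hYdef]; exact Finset.sum_nonneg fun i _ => sq_nonneg _
  have hR0 : 0 ≤ R := by rw [hRdef]; exact Finset.sum_nonneg fun i _ => sq_nonneg _
  have hA0 : 0 ≤ A := by rw [hAdef]; exact Finset.sum_nonneg fun i _ => sq_nonneg _
  have hF0 : 0 ≤ F := by rw [hFdef]; exact rk1_Er_nonneg _ _ _ _ _
  have hQ : Q = 1 + ∑ k, (bb b₁ b₂ k ^ 2)⁻¹ * x (e k) ^ 2 + γ * Y := by
    rw [hQdef, hγdef, hYdef]; rfl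
  have hq1 : γ * R ≤ ∑ k, (bb b₁ b₂ k ^ 2)⁻¹ * x (e k) ^ 2 := by
    rw [hRdef]
    unfold rr
    rw [Finset.mul_sum]
    exact Finset.sum_le_sum fun k _ => mul_le_mul_of_nonneg_right (h1 k) (sq_nonneg _)
  have hq2 : ∑ k, (bb b₁ b₂ k ^ 2)⁻¹ * x (e k) ^ 2 ≤ Γ * R := by
    rw [hRdef]
    unfold rr
    rw [Finset.mul_sum]
    exact Finset.sum_le_sum fun k _ => mul_le_mul_of_nonneg_right (h2 k) (sq_nonneg _)
  have hE : 1 + ‖x‖ ^ 2 = 1 + R + Y := by rw [rk1_norm e x, hRdef, hYdef]; ring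
  have hE0 : 0 < 1 + R + Y := by positivity
  have hγΓ : γ ≤ Γ := (h1 0).trans (h2 0)
  have hQle : Q ≤ max 1 Γ * (1 + R + Y) := by
    have t1 : (1 : ℝ) ≤ max 1 Γ := le_max_left _ _
    have t2 : Γ ≤ max 1 Γ := le_max_right _ _
    have t3 := mul_le_mul_of_nonneg_right t2 hR0
    have t4 := mul_le_mul_of_nonneg_right (hγΓ.trans t2) hY0
    rw [hQ]
    linarith
  have hQge : min 1 γ * (1 + R + Y) ≤ Q := by
    have t1 : min 1 γ ≤ 1 := min_le_left _ _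
    have t2 : min 1 γ ≤ γ := min_le_right _ _
    have t3 := mul_le_mul_of_nonneg_right t2 hR0
    have t4 := mul_le_mul_of_nonneg_right t2 hY0
    rw [hQ]
    linarith
  have hQ0 : 0 < Q := (mul_pos hm2 hE0).trans_le hQge
  -- the inequality in terms of `Q`
  have key : D0 b₁ b₂ e u x ≤ -A / (2 * Q ^ 2) + C2 * F / Q := by
    rcases hR0.lt_or_eq with hRpos | hRzero
    · have hR' : 0 < ∑ k, x (e k) ^ 2 := by
        rw [hRdef] at hRpos; exact hRpos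
      have main := rk1_core (fun k => bb b₁ b₂ k ^ 2) (fun k => x (e k)) (fun k => pd (e k) u x)
        hB hγ h1 h2 hY0 hQ hR'
      have eF : (∑ k, (bb b₁ b₂ k ^ 2) ^ 2 * pd (e k) u x ^ 2 -
          (∑ k, bb b₁ b₂ k ^ 2 * pd (e k) u x * x (e k)) ^ 2 / ∑ k, x (e k) ^ 2) /
            ∑ k, bb b₁ b₂ k ^ 2 * x (e k) ^ 2 = F := by
        rw [hFdef]
        unfold Er rr bz
        congr 2
        exact Finset.sum_congr rfl fun k _ => by ring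
      have eA : ∑ k, pd (e k) u x ^ 2 = A := by rw [hAdef]; rfl
      simp only at main
      rw [eF, eA, ← hC2] at main
      have eD : D0 b₁ b₂ e u x = ((∑ k, x (e k) * pd (e k) u x) ^ 2 *
          (4 * (∑ k, ((bb b₁ b₂ k ^ 2)⁻¹ * x (e k)) ^ 2 + γ ^ 2 * Y) / Q ^ 2) -
          (2 - 4 * ((∑ k, (bb b₁ b₂ k ^ 2)⁻¹ * x (e k) ^ 2) / Q)) * A -
          8 * ((∑ k, x (e k) * pd (e k) u x) *
            (∑ k, (bb b₁ b₂ k ^ 2)⁻¹ * x (e k) * pd (e k) u x) / Q)) / Q ^ 2 := by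
        unfold D0
        rw [← hQdef, ← hAdef, ← hγdef, ← hYdef]
        field_simp
        ring
      rw [eD, div_le_iff₀ (by positivity)]
      refine main.trans (le_of_eq ?_)
      field_simp
    · have hz : ∀ k, x (e k) = 0 := by
        intro k
        have t1 : ∑ k, x (e k) ^ 2 = 0 := by
          have : R = ∑ k, x (e k) ^ 2 := hRdef
          rw [← this]; exact hRzero.symm
        have t2 := (Finset.sum_eq_zero_iff_of_nonneg (fun k _ => sq_nonneg _)).1 t1 k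
          (Finset.mem_univ k)
        exact pow_eq_zero_iff (two_ne_zero) |>.1 t2
      have eD : D0 b₁ b₂ e u x = -2 * A / Q ^ 2 := by
        unfold D0
        rw [← hQdef, ← hAdef]
        simp only [hz]
        simp
        ring
      rw [eD]
      have t1 : 0 ≤ C2 * F / Q := by positivity
      have t2 : -2 * A / Q ^ 2 ≤ -A / (2 * Q ^ 2) := by
        rw [div_le_div_iff₀ (by positivity) (by positivity)]
        nlinarith [mul_nonneg hA0 (sq_nonneg Q)]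
      linarith
  rw [rk1_exp2, rk1_exp4, hE, ← hAdef, ← hFdef]
  have t1 : -A / (2 * Q ^ 2) ≤ -(1 / (2 * max 1 Γ ^ 2)) * A * ((1 + R + Y) ^ 2)⁻¹ := by
    have t2 : Q ^ 2 ≤ (max 1 Γ * (1 + R + Y)) ^ 2 := pow_le_pow_left₀ hQ0.le hQle 2
    have t3 : A / (2 * (max 1 Γ * (1 + R + Y)) ^ 2) ≤ A / (2 * Q ^ 2) :=
      div_le_div_of_nonneg_left hA0 (by positivity) (by linarith)
    have t4 : -(1 / (2 * max 1 Γ ^ 2)) * A * ((1 + R + Y) ^ 2)⁻¹ =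
        -(A / (2 * (max 1 Γ * (1 + R + Y)) ^ 2)) := by
      field_simp
    rw [t4, neg_div]
    linarith
  have t2 : C2 * F / Q ≤ C2 / min 1 γ * F * (1 + R + Y)⁻¹ := by
    have t3 : C2 * F / Q ≤ C2 * F / (min 1 γ * (1 + R + Y)) :=
      div_le_div_of_nonneg_left (by positivity) (by positivity) hQge
    refine t3.trans (le_of_eq ?_)
    field_simp
  linarith

end Pool.Agent.Helper68.DG
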