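import Pool.Agent.Helper68.DG.Base
import Pool.Agent.Helper68.DG.C1
import Pool.Agent.Helper68.DG.C2
import Pool.Agent.Helper68.DG.Defs2
import Pool.Agent.Helper68.DG.IB2

/-! Project DG (MP_800410_an), piece RK2: the weighted skew inequality -/

open MeasureTheory Metric Set Filter Topology
open scoped ContDiff

namespace Pool.Agent.Helper68.DG

variable {ι : Type} [Fintype ι]

private theorem rk2_cont_pd {u : V ι → ℝ} (hu : ContDiff ℝ 1 u) (e : Fin 4 ↪ ι) (k : Fin 4) :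
    Continuous (pd (e k) u) := continuous_pd hu (e k)

private theorem rk2_cont_ff {u : V ι → ℝ} (hu : ContDiff ℝ 1 u) (b₁ b₂ : ℝ) (e : Fin 4 ↪ ι) :
    Continuous (ff b₁ b₂ e u) := by
  unfold ff
  exact continuous_finsetSum _ fun k _ => continuous_const.mul ((continuous_pd hu (e k)).pow 2)

private theorem rk2_cont_aa {u : V ι → ℝ} (hu : ContDiff ℝ 1 u) (e : Fin 4 ↪ ι) :
    Continuous (aa e u) := by
  unfold aa
  exact continuous_finsetSum _ fun k _ => (continuous_pd hu (e k)).pow 2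

private theorem rk2_cont_rr (e : Fin 4 ↪ ι) : Continuous (rr e : V ι → ℝ) := by
  unfold rr
  exact continuous_finsetSum _ fun k _ => by fun_prop

private theorem rk2_cont_bz (b₁ b₂ : ℝ) (e : Fin 4 ↪ ι) : Continuous (bz b₁ b₂ e : V ι → ℝ) := by
  unfold bz
  exact continuous_finsetSum _ fun k _ => by fun_prop

private theorem rk2_meas_Er {u : V ι → ℝ} (hu : ContDiff ℝ 1 u) (b₁ b₂ : ℝ) (e : Fin 4 ↪ ι) :
    Measurable (Er b₁ b₂ e u) := by
  unfold Er
  have h1 : Continuous fun x : V ι => ∑ k, bb b₁ b₂ k ^ 4 * pd (e k) u x ^ 2 :=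
    continuous_finsetSum _ fun k _ => continuous_const.mul ((continuous_pd hu (e k)).pow 2)
  have h2 : Continuous fun x : V ι => (∑ k, bb b₁ b₂ k ^ 2 * pd (e k) u x * x (e k)) ^ 2 := by
    apply Continuous.pow
    refine continuous_finsetSum _ fun k _ => ?_
    have h3 : Continuous fun x : V ι => x (e k) := by fun_prop
    exact (continuous_const.mul (continuous_pd hu (e k))).mul h3
  exact (h1.measurable.sub (h2.measurable.div (rk2_cont_rr e).measurable)).div
    (rk2_cont_bz b₁ b₂ e).measurable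

private theorem rk2_cont_lg : Continuous (lg : V ι → ℝ) := (contDiff_lg (n := 0)).continuous

private theorem rk2_ff_nonneg (b₁ b₂ : ℝ) (e : Fin 4 ↪ ι) (u : V ι → ℝ) (x : V ι) :
    0 ≤ ff b₁ b₂ e u x :=
  Finset.sum_nonneg fun _ _ => mul_nonneg (sq_nonneg _) (sq_nonneg _)

private theorem rk2_rr_nonneg (e : Fin 4 ↪ ι) (x : V ι) : 0 ≤ rr e x :=
  Finset.sum_nonneg fun _ _ => sq_nonneg _

private theorem rk2_ff_le (b₁ b₂ : ℝ) (e : Fin 4 ↪ ι) (u : V ι → ℝ) (x : V ι) :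
    ff b₁ b₂ e u x ≤ (b₁ ^ 2 + b₂ ^ 2) * aa e u x := by
  unfold ff aa
  rw [Finset.mul_sum]
  apply Finset.sum_le_sum
  intro k _
  apply mul_le_mul_of_nonneg_right _ (sq_nonneg _)
  fin_cases k <;> simp [bb] <;> positivity

private theorem rk2_rr_le (e : Fin 4 ↪ ι) (x : V ι) : rr e x ≤ Real.exp (lg x) ^ 2 := by
  rw [exp_lg_sq, EuclideanSpace.norm_sq_eq]
  have h2 : ∑ i, ‖x i‖ ^ 2 = ∑ i, x i ^ 2 :=
    Finset.sum_congr rfl fun i _ => by rw [Real.norm_eq_abs, sq_abs]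
  rw [h2]
  unfold rr
  have h3 : ∑ k, x (e k) ^ 2 = ∑ i ∈ Finset.univ.map e, x i ^ 2 := by
    rw [Finset.sum_map]
  rw [h3]
  have h4 : ∑ i ∈ Finset.univ.map e, x i ^ 2 ≤ ∑ i, x i ^ 2 :=
    Finset.sum_le_sum_of_subset_of_nonneg (Finset.subset_univ _) fun i _ _ => sq_nonneg _
  linarith

/-- Proof. Apply `kil_ineq` to `ξ x = exp (- lg x) * cut T x`. As in F3 (`β = 1`),
`gd ξ ξ ≤ exp (- 4 lg x) cut T x ^ 2 + (C₁ / T) exp (- 4 lg x)`, the last term only on the shell. As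
`rr e x ≤ ‖x‖ ^ 2 ≤ exp (lg x) ^ 2`, `ff / rr * exp (- 2 lg x) ≥ ff exp (- 4 lg x)` (where `rr = 0` also
`ff = 0` by `aa_le`), so the terms with `cut T ^ 2` cancel and
`∫ Er exp (- 2 lg x) cut T ^ 2 ≤ (C₁ / T) ∫_shell ff exp (- 4 lg x)`, `ff ≤ (b₁ ^ 2 + b₂ ^ 2) aa`.
Integrability: `ff / rr` and `Er` are bounded (`aa_le`, `Er_bound`). -/
theorem kil_cut {K b₁ b₂ : ℝ} {e : Fin 4 ↪ ι} {u : V ι → ℝ} (hu : GS K u) (hst : Stab u)
    (hb₁ : b₁ ≠ 0) (hb₂ : b₂ ≠ 0) (hk : Kil b₁ b₂ e u) : ∃ C : ℝ, 0 ≤ C ∧ ∀ T : ℝ, 1 ≤ T →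
      ∫ x, Er b₁ b₂ e u x * Real.exp (-2 * lg x) * cut T x ^ 2 ≤
        C / T * ∫ x in shell T 1 ∅, aa e u x * Real.exp (-4 * lg x) := by
  obtain ⟨C₀, hC₀, hcut⟩ := cut_facts (ι := ι)
  obtain ⟨CE, hCE⟩ := Er_bound hu hb₁ hb₂ hk
  refine ⟨(2 * C₀ + C₀ ^ 2) * (b₁ ^ 2 + b₂ ^ 2), by positivity, ?_⟩
  intro T hT
  obtain ⟨hT1, h01, -, -, hgrad, hout⟩ := hcut T hT
  have hTpos : 0 < T := by linarith
  have hlgd : Differentiable ℝ (lg : V ι → ℝ) :=
    (contDiff_lg (n := 1)).differentiable one_ne_zero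
  have hexpC : ContDiff ℝ 1 fun x : V ι => Real.exp (-lg x) := contDiff_lg.neg.exp
  set ξ : V ι → ℝ := fun x => Real.exp (-lg x) * cut T x with hξdef
  have hξ : T1 ξ := T1.mul hexpC hT1
  have hb := kil_ineq hu hst hb₁ hb₂ hk hξ
  set E4 : V ι → ℝ := fun x => Real.exp (-4 * lg x) with hE4
  have hE4c : Continuous E4 := Real.continuous_exp.comp (continuous_const.mul rk2_cont_lg)
  have hffc := rk2_cont_ff hu.C1 b₁ b₂ e
  have haac := rk2_cont_aa hu.C1 e
  -- the bound for the gradient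
  have hfd : ∀ x, ‖fderiv ℝ ξ x‖ ≤ Real.exp (-lg x) * ‖fderiv ℝ (cut T) x‖ +
      cut T x * (Real.exp (-lg x) * Real.exp (-lg x)) := by
    intro x
    have h1 : HasFDerivAt (fun x : V ι => Real.exp (-lg x))
        (Real.exp (-lg x) • (-fderiv ℝ lg x)) x := (((hlgd x).hasFDerivAt).neg).exp
    have h2 : HasFDerivAt (cut T) (fderiv ℝ (cut T) x) x :=
      ((hT1.1.differentiable one_ne_zero) x).hasFDerivAt
    have h3 : fderiv ℝ ξ x = Real.exp (-lg x) • fderiv ℝ (cut T) x +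
        cut T x • (Real.exp (-lg x) • (-fderiv ℝ lg x)) := (h1.mul h2).fderiv
    rw [h3]
    refine (norm_add_le _ _).trans ?_
    rw [norm_smul, norm_smul, norm_smul, norm_neg, Real.norm_eq_abs, Real.norm_eq_abs,
      abs_of_pos (Real.exp_pos _), abs_of_nonneg (h01 x).1]
    have h4 := norm_fderiv_lg_le x
    have h5 : cut T x * (Real.exp (-lg x) * ‖fderiv ℝ lg x‖) ≤
        cut T x * (Real.exp (-lg x) * Real.exp (-lg x)) := by
      apply mul_le_mul_of_nonneg_left _ (h01 x).1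
      exact mul_le_mul_of_nonneg_left h4 (Real.exp_pos _).le
    linarith
  have hEE : ∀ x : V ι, (Real.exp (-lg x) * Real.exp (-lg x)) ^ 2 = E4 x := by
    intro x
    rw [← Real.exp_add, ← Real.exp_nat_mul, hE4]
    congr 1
    push_cast
    ring
  have hE4pos : ∀ x, 0 < E4 x := fun x => Real.exp_pos _
  have hgd : ∀ x, gd ξ ξ x ≤ E4 x * cut T x ^ 2 +
      (shell T 1 ∅).indicator (fun x => (2 * C₀ + C₀ ^ 2) / T * E4 x) x := by
    intro x
    rw [gd_self]
    have hc0 := (h01 x).1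
    have hc1 := (h01 x).2
    by_cases hx : x ∈ shell T 1 ∅
    · rw [indicator_of_mem hx]
      have h1 : ‖fderiv ℝ ξ x‖ ≤ Real.exp (-lg x) * Real.exp (-lg x) *
          (C₀ / T + cut T x) := by
        refine (hfd x).trans ?_
        have h2 := mul_le_mul_of_nonneg_left (hgrad x) (Real.exp_pos (-lg x)).le
        nlinarith
      have h3 : ‖fderiv ℝ ξ x‖ ^ 2 ≤ (Real.exp (-lg x) * Real.exp (-lg x) *
          (C₀ / T + cut T x)) ^ 2 := pow_le_pow_left₀ (norm_nonneg _) h1 2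
      rw [mul_pow, hEE] at h3
      have h4 : (C₀ / T + cut T x) ^ 2 ≤ cut T x ^ 2 + (2 * C₀ + C₀ ^ 2) / T := by
        have h5 : C₀ / T * (C₀ / T) ≤ C₀ ^ 2 / T := by
          rw [div_mul_div_comm, div_le_div_iff₀ (by positivity) hTpos]
          have : 0 ≤ C₀ * C₀ * T := by positivity
          nlinarith
        have h6 : 2 * (C₀ / T) * cut T x ≤ 2 * C₀ / T := by
          have h7 : C₀ / T * cut T x ≤ C₀ / T * 1 :=
            mul_le_mul_of_nonneg_left hc1 (by positivity)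
          have h8 : 2 * C₀ / T = 2 * (C₀ / T * 1) := by ring
          rw [h8]
          linarith
        have h9 : (2 * C₀ + C₀ ^ 2) / T = 2 * C₀ / T + C₀ ^ 2 / T := by ring
        rw [h9]
        nlinarith
      have h10 := mul_le_mul_of_nonneg_left h4 (hE4pos x).le
      calc ‖fderiv ℝ ξ x‖ ^ 2 ≤ E4 x * (C₀ / T + cut T x) ^ 2 := h3
        _ ≤ E4 x * (cut T x ^ 2 + (2 * C₀ + C₀ ^ 2) / T) := h10
        _ = _ := by ring
    · rw [indicator_of_notMem hx, add_zero]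
      have h1 := hfd x
      rw [hout x hx, norm_zero, mul_zero, zero_add] at h1
      have h3 := pow_le_pow_left₀ (norm_nonneg _) h1 2
      calc ‖fderiv ℝ ξ x‖ ^ 2 ≤ _ := h3
        _ = (Real.exp (-lg x) * Real.exp (-lg x)) ^ 2 * cut T x ^ 2 := by ring
        _ = _ := by rw [hEE]
  have haa4 := fun x => aa_le hu hb₁ hb₂ hk x
  -- the pointwise bound
  have hpt : ∀ x, ff b₁ b₂ e u x * E4 x * cut T x ^ 2 +
      Er b₁ b₂ e u x * Real.exp (-2 * lg x) * cut T x ^ 2 ≤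
      (ff b₁ b₂ e u x / rr e x + Er b₁ b₂ e u x) * ξ x ^ 2 := by
    intro x
    have hx2 : ξ x ^ 2 = Real.exp (-2 * lg x) * cut T x ^ 2 := by
      have h1 : Real.exp (-2 * lg x) = Real.exp (-lg x) ^ 2 := by
        rw [← Real.exp_nat_mul]
        congr 1
        push_cast
        ring
      rw [hξdef, h1]
      ring
    have hE42 : E4 x = Real.exp (-2 * lg x) * Real.exp (-2 * lg x) := by
      change Real.exp (-4 * lg x) = _
      rw [← Real.exp_add]
      congr 1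
      ring
    have hmain : ff b₁ b₂ e u x * Real.exp (-2 * lg x) ≤ ff b₁ b₂ e u x / rr e x := by
      have hff0 := rk2_ff_nonneg b₁ b₂ e u x
      rcases (rk2_rr_nonneg e x).eq_or_lt with h0 | hpos
      · have h1 := rk2_ff_le b₁ b₂ e u x
        have h2 := haa4 x
        rw [← h0, mul_zero] at h2
        have h3 : (b₁ ^ 2 + b₂ ^ 2) * aa e u x ≤ 0 :=
          mul_nonpos_of_nonneg_of_nonpos (by positivity) h2
        have h4 : ff b₁ b₂ e u x = 0 := le_antisymm (h1.trans h3) hff0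
        rw [h4]
        simp
      · rw [le_div_iff₀ hpos, mul_assoc]
        have h1 : Real.exp (-2 * lg x) * rr e x ≤ 1 := by
          have h2 : Real.exp (-2 * lg x) * Real.exp (lg x) ^ 2 = 1 := by
            rw [← Real.exp_nat_mul, ← Real.exp_add]
            have h5 : -2 * lg x + ((2 : ℕ) : ℝ) * lg x = 0 := by push_cast; ring
            rw [h5, Real.exp_zero]
          calc Real.exp (-2 * lg x) * rr e x
              ≤ Real.exp (-2 * lg x) * Real.exp (lg x) ^ 2 :=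
                mul_le_mul_of_nonneg_left (rk2_rr_le e x) (Real.exp_pos _).le
            _ = 1 := h2
        calc ff b₁ b₂ e u x * (Real.exp (-2 * lg x) * rr e x)
            ≤ ff b₁ b₂ e u x * 1 := mul_le_mul_of_nonneg_left h1 hff0
          _ = ff b₁ b₂ e u x := mul_one _
    have h5 : 0 ≤ Real.exp (-2 * lg x) * cut T x ^ 2 := by positivity
    have h6 := mul_le_mul_of_nonneg_right hmain h5
    rw [hx2, hE42]
    refine le_trans (le_of_eq ?_) ((add_le_add_left h6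
      (Er b₁ b₂ e u x * (Real.exp (-2 * lg x) * cut T x ^ 2))).trans (le_of_eq ?_))
    · ring
    · ring
  -- integrability
  have hcutc : Continuous (cut T : V ι → ℝ) := hT1.continuous
  have hccs : HasCompactSupport fun x : V ι => cut T x ^ 2 :=
    hT1.2.comp_left (g := fun t : ℝ => t ^ 2) (by simp)
  have hi1 : Integrable fun x => ff b₁ b₂ e u x * E4 x * cut T x ^ 2 :=
    integrable_cs ((hffc.mul hE4c).mul (hcutc.pow 2)) hccs.mul_left
  have hξ2 : Integrable fun x => ξ x ^ 2 := by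
    apply integrable_cs (hξ.continuous.pow 2)
    exact hξ.2.comp_left (g := fun t : ℝ => t ^ 2) (by simp)
  have hw2 : Integrable fun x : V ι => Real.exp (-2 * lg x) * cut T x ^ 2 := by
    apply integrable_cs
    · exact (Real.continuous_exp.comp (continuous_const.mul rk2_cont_lg)).mul (hcutc.pow 2)
    · exact hccs.mul_left
  have hEm := rk2_meas_Er hu.C1 b₁ b₂ e
  have hi2 : Integrable fun x => Er b₁ b₂ e u x * Real.exp (-2 * lg x) * cut T x ^ 2 := by
    refine Integrable.mono' (hw2.const_mul CE) ?_ ?_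
    · apply Measurable.aestronglyMeasurable
      exact (hEm.mul (Real.continuous_exp.comp
        (continuous_const.mul rk2_cont_lg)).measurable).mul (hcutc.pow 2).measurable
    · refine Filter.Eventually.of_forall fun x => ?_
      have h1 := hCE x
      have h2 : 0 ≤ Real.exp (-2 * lg x) * cut T x ^ 2 := by positivity
      rw [mul_assoc, Real.norm_eq_abs, abs_of_nonneg (mul_nonneg h1.1 h2)]
      exact mul_le_mul_of_nonneg_right h1.2 h2
  have hK : ∀ x, 0 ≤ ff b₁ b₂ e u x / rr e x ∧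
      ff b₁ b₂ e u x / rr e x ≤ (b₁ ^ 2 + b₂ ^ 2) * (4 * K ^ 2) := by
    intro x
    have hr0 := rk2_rr_nonneg e x
    refine ⟨div_nonneg (rk2_ff_nonneg b₁ b₂ e u x) hr0, ?_⟩
    rcases hr0.eq_or_lt with h0 | hpos
    · rw [← h0, div_zero]; positivity
    · rw [div_le_iff₀ hpos]
      calc ff b₁ b₂ e u x ≤ (b₁ ^ 2 + b₂ ^ 2) * aa e u x := rk2_ff_le b₁ b₂ e u x
        _ ≤ (b₁ ^ 2 + b₂ ^ 2) * (4 * K ^ 2 * rr e x) :=
            mul_le_mul_of_nonneg_left (haa4 x) (by positivity)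
        _ = _ := by ring
  have hi3 : Integrable fun x => (ff b₁ b₂ e u x / rr e x + Er b₁ b₂ e u x) * ξ x ^ 2 := by
    refine Integrable.mono' (hξ2.const_mul ((b₁ ^ 2 + b₂ ^ 2) * (4 * K ^ 2) + CE)) ?_ ?_
    · apply Measurable.aestronglyMeasurable
      exact ((hffc.measurable.div (rk2_cont_rr e).measurable).add hEm).mul
        (hξ.continuous.pow 2).measurable
    · refine Filter.Eventually.of_forall fun x => ?_
      have h1 := hCE x
      have h2 := hK x
      rw [Real.norm_eq_abs, abs_of_nonneg (mul_nonneg (add_nonneg h2.1 h1.1) (sq_nonneg _))]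
      exact mul_le_mul_of_nonneg_right (add_le_add h2.2 h1.2) (sq_nonneg _)
  have hms : MeasurableSet (shell T 1 (∅ : Finset ι)) := (isCompact_shell T 1 ∅).measurableSet
  have hi5 : IntegrableOn (fun x => ff b₁ b₂ e u x * E4 x) (shell T 1 ∅) :=
    (hffc.mul hE4c).continuousOn.integrableOn_compact (isCompact_shell T 1 ∅)
  have hi5a : IntegrableOn (fun x => aa e u x * E4 x) (shell T 1 ∅) :=
    (haac.mul hE4c).continuousOn.integrableOn_compact (isCompact_shell T 1 ∅)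
  have hi6 : Integrable ((shell T 1 ∅).indicator
      fun x => (2 * C₀ + C₀ ^ 2) / T * (ff b₁ b₂ e u x * E4 x)) :=
    (integrable_indicator_iff hms).2 (hi5.const_mul _)
  have hi7 : Integrable fun x => ff b₁ b₂ e u x * gd ξ ξ x :=
    integrable_cs (hffc.mul (continuous_gd hξ.1 hξ.1)) (hasCompactSupport_gd hξ.2).mul_left
  -- conclusion
  have hA : ∫ x, ff b₁ b₂ e u x * E4 x * cut T x ^ 2 +
      Er b₁ b₂ e u x * Real.exp (-2 * lg x) * cut T x ^ 2 ≤
      ∫ x, (ff b₁ b₂ e u x / rr e x + Er b₁ b₂ e u x) * ξ x ^ 2 :=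
    integral_mono (hi1.add hi2) hi3 hpt
  have hB : ∫ x, ff b₁ b₂ e u x * gd ξ ξ x ≤ ∫ x, (ff b₁ b₂ e u x * E4 x * cut T x ^ 2 +
      (shell T 1 ∅).indicator
        (fun x => (2 * C₀ + C₀ ^ 2) / T * (ff b₁ b₂ e u x * E4 x)) x) := by
    apply integral_mono hi7 (hi1.add hi6)
    intro x
    have h1 := mul_le_mul_of_nonneg_left (hgd x) (rk2_ff_nonneg b₁ b₂ e u x)
    refine h1.trans (le_of_eq ?_)
    rw [Pi.add_apply]
    by_cases hx : x ∈ shell T 1 ∅
    · rw [indicator_of_mem hx, indicator_of_mem hx]; ring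
    · rw [indicator_of_notMem hx, indicator_of_notMem hx]; ring
  rw [integral_add hi1 hi2] at hA
  rw [integral_add hi1 hi6, integral_indicator hms, integral_const_mul] at hB
  have hCs : ∫ x in shell T 1 ∅, ff b₁ b₂ e u x * E4 x ≤
      (b₁ ^ 2 + b₂ ^ 2) * ∫ x in shell T 1 ∅, aa e u x * E4 x := by
    rw [← integral_const_mul]
    apply integral_mono hi5 (hi5a.const_mul _)
    intro x
    have h1 := mul_le_mul_of_nonneg_right (rk2_ff_le b₁ b₂ e u x) (hE4pos x).le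
    refine h1.trans (le_of_eq ?_)
    ring
  have hCc : 0 ≤ (2 * C₀ + C₀ ^ 2) / T := by positivity
  have hD := mul_le_mul_of_nonneg_left hCs hCc
  have hgoal : ∫ x, Er b₁ b₂ e u x * Real.exp (-2 * lg x) * cut T x ^ 2 ≤
      (2 * C₀ + C₀ ^ 2) * (b₁ ^ 2 + b₂ ^ 2) / T * ∫ x in shell T 1 ∅, aa e u x * E4 x := by
    have h1 : (2 * C₀ + C₀ ^ 2) * (b₁ ^ 2 + b₂ ^ 2) / T *
        ∫ x in shell T 1 ∅, aa e u x * E4 x = (2 * C₀ + C₀ ^ 2) / T *
        ((b₁ ^ 2 + b₂ ^ 2) * ∫ x in shell T 1 ∅, aa e u x * E4 x) := by ring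
    rw [h1]
    linarith
  exact hgoal

end Pool.Agent.Helper68.DG
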