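import Pool.Agent.Helper68.DG.Base
import Pool.Agent.Helper68.DG.C1
import Pool.Agent.Helper68.DG.C2
import Pool.Agent.Helper68.DG.Defs2
import Pool.Agent.Helper68.DG.DD
import Pool.Agent.Helper68.DG.RK1

/-! Project DG (MP_800410_an), piece RK3: the weighted dilation inequality -/

open MeasureTheory Metric Set Filter Topology
open scoped ContDiff

namespace Pool.Agent.Helper68.DG

variable {ι : Type} [Fintype ι]

theorem rk3_coord (i : ι) : Continuous (fun x : V ι => x i) := by fun_prop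

/-- the coefficients of `QQ` -/
noncomputable def rk3_g (b₁ b₂ : ℝ) (e : Fin 4 ↪ ι) (i : ι) : ℝ := by
  classical
  exact if h : ∃ k, e k = i then (bb b₁ b₂ h.choose ^ 2)⁻¹ else min (b₁ ^ 2)⁻¹ (b₂ ^ 2)⁻¹

theorem rk3_g_e (b₁ b₂ : ℝ) (e : Fin 4 ↪ ι) (k : Fin 4) :
    rk3_g b₁ b₂ e (e k) = (bb b₁ b₂ k ^ 2)⁻¹ := by
  unfold rk3_g
  have h : ∃ k', e k' = e k := ⟨k, rfl⟩
  rw [dif_pos h]
  have := e.injective h.choose_spec
  rw [this]

theorem rk3_g_c [DecidableEq ι] (b₁ b₂ : ℝ) (e : Fin 4 ↪ ι) {i : ι}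
    (hi : i ∈ (Finset.univ.map e)ᶜ) : rk3_g b₁ b₂ e i = min (b₁ ^ 2)⁻¹ (b₂ ^ 2)⁻¹ := by
  unfold rk3_g
  rw [dif_neg]
  rintro ⟨k, hk⟩
  rw [Finset.mem_compl, Finset.mem_map] at hi
  exact hi ⟨k, Finset.mem_univ _, hk⟩

theorem rk3_bb (b₁ b₂ : ℝ) (k : Fin 4) : bb b₁ b₂ k = b₁ ∨ bb b₁ b₂ k = b₂ := by
  fin_cases k <;> simp [bb]

theorem rk3_g_bd (b₁ b₂ : ℝ) (e : Fin 4 ↪ ι) (i : ι) :
    min (b₁ ^ 2)⁻¹ (b₂ ^ 2)⁻¹ ≤ rk3_g b₁ b₂ e i ∧
      rk3_g b₁ b₂ e i ≤ max (b₁ ^ 2)⁻¹ (b₂ ^ 2)⁻¹ := by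
  unfold rk3_g
  split_ifs with h
  · rcases rk3_bb b₁ b₂ h.choose with h1 | h1
    · rw [h1]; exact ⟨min_le_left _ _, le_max_left _ _⟩
    · rw [h1]; exact ⟨min_le_right _ _, le_max_right _ _⟩
  · exact ⟨le_rfl, min_le_max⟩

theorem rk3_sum [DecidableEq ι] (e : Fin 4 ↪ ι) (f : ι → ℝ) :
    ∑ i, f i = ∑ k, f (e k) + ∑ i ∈ (Finset.univ.map e)ᶜ, f i := by
  rw [← Finset.sum_add_sum_compl (Finset.univ.map e) f, Finset.sum_map]

theorem rk3_QQ [DecidableEq ι] (b₁ b₂ : ℝ) (e : Fin 4 ↪ ι) (x : V ι) :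
    QQ b₁ b₂ e x = 1 + ∑ i, rk3_g b₁ b₂ e i * x i ^ 2 := by
  unfold QQ
  rw [rk3_sum e, add_assoc]
  congr 2
  · apply Finset.sum_congr rfl
    intro k _
    rw [rk3_g_e]
  · rw [Finset.mul_sum]
    apply Finset.sum_congr rfl
    intro i hi
    rw [rk3_g_c b₁ b₂ e hi]

theorem rk3_pd_quad (g : ι → ℝ) (j : ι) (x : V ι) :
    pd j (fun y : V ι => 1 + ∑ i, g i * y i ^ 2) x = 2 * g j * x j := by
  classical
  have h : ∀ i, HasFDerivAt (fun y : V ι => y i) (EuclideanSpace.proj i : V ι →L[ℝ] ℝ) x :=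
    fun i => (EuclideanSpace.proj i : V ι →L[ℝ] ℝ).hasFDerivAt
  have h2 : HasFDerivAt (fun y : V ι => 1 + ∑ i, g i * y i ^ 2)
      (∑ i, g i • ((2 * x i) • (EuclideanSpace.proj i : V ι →L[ℝ] ℝ))) x := by
    apply HasFDerivAt.const_add
    apply HasFDerivAt.fun_sum
    intro i _
    have h3 := ((h i).pow 2).const_mul (g i)
    simpa using h3
  have h3 : ∀ i, (EuclideanSpace.proj i : V ι →L[ℝ] ℝ) (be j) = if i = j then 1 else 0 := by
    intro i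
    exact be_apply j i
  unfold pd
  rw [h2.fderiv]
  have h4 : (∑ i, g i • ((2 * x i) • (EuclideanSpace.proj i : V ι →L[ℝ] ℝ))) (be j) =
      ∑ i, g i * ((2 * x i) * (if i = j then 1 else 0)) := by
    rw [sum_apply]
    apply Finset.sum_congr rfl
    intro i _
    rw [← h3 i]
    rfl
  rw [h4]
  simp
  ring

theorem rk3_pd_QQ [DecidableEq ι] (b₁ b₂ : ℝ) (e : Fin 4 ↪ ι) (j : ι) (x : V ι) :
    pd j (QQ b₁ b₂ e) x = 2 * rk3_g b₁ b₂ e j * x j := by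
  have h : QQ b₁ b₂ e = fun y : V ι => 1 + ∑ i, rk3_g b₁ b₂ e i * y i ^ 2 := by
    funext y; exact rk3_QQ b₁ b₂ e y
  rw [h]
  exact rk3_pd_quad _ j x

theorem rk3_contDiff_QQ [DecidableEq ι] (b₁ b₂ : ℝ) (e : Fin 4 ↪ ι) {n : ℕ∞} :
    ContDiff ℝ n (QQ b₁ b₂ e) := by
  have h : QQ b₁ b₂ e = fun y : V ι => 1 + ∑ i, rk3_g b₁ b₂ e i * y i ^ 2 := by
    funext y; exact rk3_QQ b₁ b₂ e y
  rw [h]
  fun_prop

theorem rk3_low [DecidableEq ι] {b₁ b₂ : ℝ} (e : Fin 4 ↪ ι) (x : V ι) :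
    min 1 (min (b₁ ^ 2)⁻¹ (b₂ ^ 2)⁻¹) * Real.exp (lg x) ^ 2 ≤ QQ b₁ b₂ e x := by
  rw [exp_lg_sq, rk3_QQ, EuclideanSpace.norm_sq_eq, mul_add, mul_one, Finset.mul_sum]
  apply add_le_add (min_le_left _ _)
  apply Finset.sum_le_sum
  intro i _
  rw [Real.norm_eq_abs, sq_abs]
  exact mul_le_mul_of_nonneg_right ((min_le_right _ _).trans (rk3_g_bd b₁ b₂ e i).1)
    (sq_nonneg _)

theorem rk3_QQ_pos [DecidableEq ι] {b₁ b₂ : ℝ} (e : Fin 4 ↪ ι) (x : V ι) :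
    0 < QQ b₁ b₂ e x := by
  rw [rk3_QQ]
  have h : 0 ≤ ∑ i, rk3_g b₁ b₂ e i * x i ^ 2 := by
    apply Finset.sum_nonneg
    intro i _
    apply mul_nonneg _ (sq_nonneg _)
    exact le_trans (le_min (by positivity) (by positivity)) (rk3_g_bd b₁ b₂ e i).1
  linarith

theorem rk3_pd_inv [DecidableEq ι] (b₁ b₂ : ℝ) (e : Fin 4 ↪ ι) (j : ι) (x : V ι) :
    pd j (fun y => (QQ b₁ b₂ e y)⁻¹) x =
      -(2 * rk3_g b₁ b₂ e j * x j) / QQ b₁ b₂ e x ^ 2 := by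
  have h0 := (rk3_QQ_pos (b₁ := b₁) (b₂ := b₂) e x).ne'
  rw [pd_comp (g := fun t => t⁻¹) (differentiableAt_inv h0)
    ((rk3_contDiff_QQ b₁ b₂ e (n := 1)).differentiable one_ne_zero x), rk3_pd_QQ, deriv_inv]
  field_simp

/-- the error term -/
noncomputable def rk3_err [DecidableEq ι] (b₁ b₂ : ℝ) (e : Fin 4 ↪ ι) (u θ : V ι → ℝ)
    (x : V ι) : ℝ :=
  (∑ k, x (e k) * pd (e k) u x) ^ 2 * (2 * (QQ b₁ b₂ e x)⁻¹ * θ x *
      gd (fun y => (QQ b₁ b₂ e y)⁻¹) θ x + (QQ b₁ b₂ e x)⁻¹ ^ 2 * gd θ θ x) -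
    aa e u x * (2 * (QQ b₁ b₂ e x)⁻¹ ^ 2 * θ x * ∑ k, x (e k) * pd (e k) θ x) +
    2 * (∑ k, x (e k) * pd (e k) u x) *
      (2 * (QQ b₁ b₂ e x)⁻¹ ^ 2 * θ x * ∑ k, pd (e k) u x * pd (e k) θ x)

theorem rk3_gd_mul {f θ : V ι → ℝ} {x : V ι} (hf : DifferentiableAt ℝ f x)
    (hθ : DifferentiableAt ℝ θ x) :
    gd (fun y => f y * θ y) (fun y => f y * θ y) x =
      θ x ^ 2 * gd f f x + 2 * f x * θ x * gd f θ x + f x ^ 2 * gd θ θ x := by
  unfold gd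
  rw [Finset.mul_sum, Finset.mul_sum, Finset.mul_sum, ← Finset.sum_add_distrib,
    ← Finset.sum_add_distrib]
  apply Finset.sum_congr rfl
  intro i _
  rw [pd_mul hf hθ]
  ring

theorem rk3_gd_inv [DecidableEq ι] (b₁ b₂ : ℝ) (e : Fin 4 ↪ ι) (x : V ι) :
    gd (fun y => (QQ b₁ b₂ e y)⁻¹) (fun y => (QQ b₁ b₂ e y)⁻¹) x =
      4 * (∑ k, ((bb b₁ b₂ k ^ 2)⁻¹ * x (e k)) ^ 2 +
        min (b₁ ^ 2)⁻¹ (b₂ ^ 2)⁻¹ ^ 2 * ∑ i ∈ (Finset.univ.map e)ᶜ, x i ^ 2) /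
        QQ b₁ b₂ e x ^ 4 := by
  have h0 := (rk3_QQ_pos (b₁ := b₁) (b₂ := b₂) e x).ne'
  unfold gd
  rw [rk3_sum e]
  have h1 : ∑ k, pd (e k) (fun y => (QQ b₁ b₂ e y)⁻¹) x * pd (e k) (fun y => (QQ b₁ b₂ e y)⁻¹) x
      = 4 * (∑ k, ((bb b₁ b₂ k ^ 2)⁻¹ * x (e k)) ^ 2) / QQ b₁ b₂ e x ^ 4 := by
    rw [Finset.mul_sum, Finset.sum_div]
    apply Finset.sum_congr rfl
    intro k _
    rw [rk3_pd_inv, rk3_g_e]
    rw [div_mul_div_comm]
    congr 1 <;> ring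
  have h2 : ∑ i ∈ (Finset.univ.map e)ᶜ, pd i (fun y => (QQ b₁ b₂ e y)⁻¹) x *
      pd i (fun y => (QQ b₁ b₂ e y)⁻¹) x = 4 * (min (b₁ ^ 2)⁻¹ (b₂ ^ 2)⁻¹ ^ 2 *
        ∑ i ∈ (Finset.univ.map e)ᶜ, x i ^ 2) / QQ b₁ b₂ e x ^ 4 := by
    rw [Finset.mul_sum, Finset.mul_sum, Finset.sum_div]
    apply Finset.sum_congr rfl
    intro i hi
    rw [rk3_pd_inv, rk3_g_c b₁ b₂ e hi]
    rw [div_mul_div_comm]
    congr 1 <;> ring
  rw [h1, h2]
  ring

theorem rk3_pd_sq {f θ : V ι → ℝ} {x : V ι} (hf : DifferentiableAt ℝ f x)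
    (hθ : DifferentiableAt ℝ θ x) (i : ι) :
    pd i (fun y => (f y * θ y) ^ 2) x =
      θ x ^ 2 * (2 * f x * pd i f x) + 2 * f x ^ 2 * θ x * pd i θ x := by
  have h1 : DifferentiableAt ℝ (fun t : ℝ => t ^ 2) (f x * θ x) := by fun_prop
  have h2 := pd_comp (u := fun y => f y * θ y) (x := x) h1 (hf.mul hθ) i
  have h3 : deriv (fun t : ℝ => t ^ 2) (f x * θ x) = 2 * (f x * θ x) := by simp
  rw [h2, h3, pd_mul hf hθ]
  ring

theorem rk3_point [DecidableEq ι] (b₁ b₂ : ℝ) (e : Fin 4 ↪ ι) (u : V ι → ℝ) {θ : V ι → ℝ}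
    {x : V ι} (hθ : DifferentiableAt ℝ θ x) :
    w0 (Finset.univ.map e) u x ^ 2 * gd (fun y => (QQ b₁ b₂ e y)⁻¹ * θ y)
        (fun y => (QQ b₁ b₂ e y)⁻¹ * θ y) x +
      (2 - (((Finset.univ.map e).card : ℕ) : ℝ)) * gs (Finset.univ.map e) u x *
        ((QQ b₁ b₂ e x)⁻¹ * θ x) ^ 2 -
      gs (Finset.univ.map e) u x * (∑ i ∈ Finset.univ.map e, x i *
        pd i (fun y => ((QQ b₁ b₂ e y)⁻¹ * θ y) ^ 2) x) +
      2 * w0 (Finset.univ.map e) u x * ∑ i ∈ Finset.univ.map e, pd i u x *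
        pd i (fun y => ((QQ b₁ b₂ e y)⁻¹ * θ y) ^ 2) x =
    D0 b₁ b₂ e u x * θ x ^ 2 + rk3_err b₁ b₂ e u θ x := by
  have h0 := (rk3_QQ_pos (b₁ := b₁) (b₂ := b₂) e x).ne'
  have hQ : DifferentiableAt ℝ (QQ b₁ b₂ e) x :=
    (rk3_contDiff_QQ b₁ b₂ e (n := 1)).differentiable one_ne_zero x
  have hf : DifferentiableAt ℝ (fun y => (QQ b₁ b₂ e y)⁻¹) x := hQ.inv h0
  have hw : w0 (Finset.univ.map e) u x = ∑ k, x (e k) * pd (e k) u x := by
    unfold w0; rw [Finset.sum_map]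
  have hg : gs (Finset.univ.map e) u x = aa e u x := by
    unfold gs aa; rw [Finset.sum_map]
  have hc : (((Finset.univ.map e).card : ℕ) : ℝ) = 4 := by
    rw [Finset.card_map]; simp
  rw [rk3_gd_mul hf hθ, hw, hg, hc, Finset.sum_map, Finset.sum_map, rk3_gd_inv]
  have hs1 : ∑ k, x (e k) * pd (e k) (fun y => ((QQ b₁ b₂ e y)⁻¹ * θ y) ^ 2) x =
      θ x ^ 2 * (-(4 * ∑ k, (bb b₁ b₂ k ^ 2)⁻¹ * x (e k) ^ 2) / QQ b₁ b₂ e x ^ 3) +
        2 * (QQ b₁ b₂ e x)⁻¹ ^ 2 * θ x * ∑ k, x (e k) * pd (e k) θ x := by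
    rw [Finset.mul_sum, Finset.mul_sum, ← Finset.sum_neg_distrib, Finset.sum_div,
      Finset.mul_sum, ← Finset.sum_add_distrib]
    apply Finset.sum_congr rfl
    intro k _
    rw [rk3_pd_sq hf hθ, rk3_pd_inv, rk3_g_e]
    field_simp
    ring
  have hs2 : ∑ k, pd (e k) u x * pd (e k) (fun y => ((QQ b₁ b₂ e y)⁻¹ * θ y) ^ 2) x =
      θ x ^ 2 * (-(4 * ∑ k, (bb b₁ b₂ k ^ 2)⁻¹ * x (e k) * pd (e k) u x) /
        QQ b₁ b₂ e x ^ 3) +
        2 * (QQ b₁ b₂ e x)⁻¹ ^ 2 * θ x * ∑ k, pd (e k) u x * pd (e k) θ x := by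
    rw [Finset.mul_sum, Finset.mul_sum, ← Finset.sum_neg_distrib, Finset.sum_div,
      Finset.mul_sum, ← Finset.sum_add_distrib]
    apply Finset.sum_congr rfl
    intro k _
    rw [rk3_pd_sq hf hθ, rk3_pd_inv, rk3_g_e]
    field_simp
    ring
  rw [hs1, hs2]
  unfold D0 rk3_err
  generalize (∑ k, x (e k) * pd (e k) u x) = w
  generalize (∑ k, (bb b₁ b₂ k ^ 2)⁻¹ * x (e k) ^ 2) = q
  generalize (∑ k, (bb b₁ b₂ k ^ 2)⁻¹ * x (e k) * pd (e k) u x) = r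
  generalize (∑ k, x (e k) * pd (e k) θ x) = t1
  generalize (∑ k, pd (e k) u x * pd (e k) θ x) = t2
  generalize (∑ k, ((bb b₁ b₂ k ^ 2)⁻¹ * x (e k)) ^ 2) = n1
  generalize (min (b₁ ^ 2)⁻¹ (b₂ ^ 2)⁻¹ ^ 2 * ∑ i ∈ (Finset.univ.map e)ᶜ, x i ^ 2) = n2
  generalize gd (fun y => (QQ b₁ b₂ e y)⁻¹) θ x = g1
  generalize gd θ θ x = g2
  generalize aa e u x = A
  generalize θ x = t
  generalize QQ b₁ b₂ e x = Q at h0
  field_simp
  ring

/-- the error term is small -/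
theorem rk3_err_le [DecidableEq ι] {b₁ b₂ : ℝ} (e : Fin 4 ↪ ι) (u : V ι → ℝ) {θ : V ι → ℝ}
    {x : V ι} {m G C T : ℝ} (hm : 0 < m) (hm1 : m ≤ min 1 (min (b₁ ^ 2)⁻¹ (b₂ ^ 2)⁻¹))
    (hG : max (b₁ ^ 2)⁻¹ (b₂ ^ 2)⁻¹ ≤ G) (hT : 1 ≤ T) (hC : 0 ≤ C)
    (h0 : 0 ≤ θ x) (h1 : θ x ≤ 1) (hd : ‖fderiv ℝ θ x‖ ≤ C / T * Real.exp (-lg x)) :
    rk3_err b₁ b₂ e u θ x ≤ (4 * Fintype.card ι * G * C / m ^ 3 + C ^ 2 / m ^ 2 +
      24 * C / m ^ 2) / T * (aa e u x * Real.exp (-4 * lg x)) := by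
  set E := Real.exp (lg x) with hE
  have hE0 : 0 < E := Real.exp_pos _
  have hE4 : Real.exp (-4 * lg x) = 1 / E ^ 4 := by
    rw [hE, ← Real.exp_nat_mul, one_div, ← Real.exp_neg]
    congr 1; push_cast; ring
  have hEi : Real.exp (-lg x) = 1 / E := by
    rw [hE, Real.exp_neg, one_div]
  have hT0 : 0 < T := by linarith
  set t := ‖fderiv ℝ θ x‖ with ht
  have ht0 : 0 ≤ t := norm_nonneg _
  have htE : t ≤ C / T / E := by
    rw [hEi] at hd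
    calc t ≤ C / T * (1 / E) := hd
      _ = C / T / E := by ring
  set A := aa e u x with hA
  have hA0 : 0 ≤ A := Finset.sum_nonneg fun _ _ => sq_nonneg _
  have hQm : m * E ^ 2 ≤ QQ b₁ b₂ e x :=
    (mul_le_mul_of_nonneg_right hm1 (by positivity)).trans (rk3_low e x)
  have hQ0 : 0 < QQ b₁ b₂ e x := rk3_QQ_pos e x
  set η := (QQ b₁ b₂ e x)⁻¹ with hη
  have hη0 : 0 < η := inv_pos.2 hQ0
  have hηE : η ≤ 1 / (m * E ^ 2) := by
    rw [hη, ← one_div]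
    exact one_div_le_one_div_of_le (by positivity) hQm
  set w := ∑ k, x (e k) * pd (e k) u x with hw
  have hrr : ∑ k, x (e k) ^ 2 ≤ E ^ 2 := by
    rw [hE, exp_lg_sq, EuclideanSpace.norm_sq_eq]
    have h2 : ∑ k, x (e k) ^ 2 ≤ ∑ i, ‖x i‖ ^ 2 := by
      rw [rk3_sum e]
      have h3 : 0 ≤ ∑ i ∈ (Finset.univ.map e)ᶜ, ‖x i‖ ^ 2 :=
        Finset.sum_nonneg fun _ _ => sq_nonneg _
      have h4 : ∑ k, x (e k) ^ 2 = ∑ k, ‖x (e k)‖ ^ 2 := by
        apply Finset.sum_congr rfl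
        intro k _
        rw [Real.norm_eq_abs, sq_abs]
      linarith
    linarith
  have hw2 : w ^ 2 ≤ E ^ 2 * A := by
    refine (Finset.sum_mul_sq_le_sq_mul_sq _ _ _).trans ?_
    exact mul_le_mul_of_nonneg_right hrr hA0
  have hak : ∀ k, pd (e k) u x ^ 2 ≤ A := fun k =>
    Finset.single_le_sum (f := fun k => pd (e k) u x ^ 2) (fun _ _ => sq_nonneg _)
      (Finset.mem_univ k)
  have hwa : ∀ k, |w * pd (e k) u x| ≤ E * A := by
    intro k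
    apply abs_le_of_sq_le_sq _ (by positivity)
    rw [mul_pow, mul_pow]
    calc w ^ 2 * pd (e k) u x ^ 2 ≤ (E ^ 2 * A) * A :=
          mul_le_mul hw2 (hak k) (sq_nonneg _) (by positivity)
      _ = E ^ 2 * A ^ 2 := by ring
  have hzk : ∀ k, |x (e k)| ≤ E := fun k => (abs_coord_le x _).trans (norm_le_exp_lg x)
  have hθk : ∀ i, |pd i θ x| ≤ t := fun i => abs_pd_le θ i x
  have hG0 : 0 ≤ G := le_trans (le_max_of_le_left (by positivity)) hG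
  -- the derivative of the weight
  have hηi : ∀ i, |pd i (fun y => (QQ b₁ b₂ e y)⁻¹) x| ≤ 2 * G / (m ^ 2 * E ^ 3) := by
    intro i
    rw [rk3_pd_inv, abs_div, abs_neg, abs_mul, abs_mul, abs_of_pos (by norm_num : (0 : ℝ) < 2),
      abs_of_pos (pow_pos hQ0 2)]
    have hg0 : 0 ≤ rk3_g b₁ b₂ e i :=
      le_trans (le_min (by positivity) (by positivity)) (rk3_g_bd b₁ b₂ e i).1
    rw [abs_of_nonneg hg0]
    have h2 : 2 * rk3_g b₁ b₂ e i * |x i| ≤ 2 * G * E := by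
      apply mul_le_mul _ ((abs_coord_le x i).trans (norm_le_exp_lg x)) (abs_nonneg _)
        (by positivity)
      linarith [(rk3_g_bd b₁ b₂ e i).2]
    have h3 : (m * E ^ 2) ^ 2 ≤ QQ b₁ b₂ e x ^ 2 := pow_le_pow_left₀ (by positivity) hQm 2
    calc 2 * rk3_g b₁ b₂ e i * |x i| / QQ b₁ b₂ e x ^ 2 ≤ 2 * G * E / (m * E ^ 2) ^ 2 :=
          div_le_div₀ (by positivity) h2 (by positivity) h3
      _ = 2 * G / (m ^ 2 * E ^ 3) := by field_simp
  have hg1 : |gd (fun y => (QQ b₁ b₂ e y)⁻¹) θ x| ≤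
      Fintype.card ι * (2 * G / (m ^ 2 * E ^ 3) * t) := by
    unfold gd
    refine (Finset.abs_sum_le_sum_abs _ _).trans ?_
    have h2 : ∀ i ∈ (Finset.univ : Finset ι), |pd i (fun y => (QQ b₁ b₂ e y)⁻¹) x * pd i θ x| ≤
        2 * G / (m ^ 2 * E ^ 3) * t := by
      intro i _
      rw [abs_mul]
      exact mul_le_mul (hηi i) (hθk i) (abs_nonneg _) (by positivity)
    have h3 := Finset.sum_le_card_nsmul _ _ _ h2
    rwa [nsmul_eq_mul, Finset.card_univ] at h3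
  have hg2 : gd θ θ x = t ^ 2 := gd_self θ x
  have hη2 : η ^ 2 ≤ 1 / (m ^ 2 * E ^ 4) := by
    calc η ^ 2 ≤ (1 / (m * E ^ 2)) ^ 2 := pow_le_pow_left₀ hη0.le hηE 2
      _ = 1 / (m ^ 2 * E ^ 4) := by field_simp
  -- first term
  have hT1 : w ^ 2 * (2 * η * θ x * gd (fun y => (QQ b₁ b₂ e y)⁻¹) θ x) ≤
      (4 * Fintype.card ι * G * C / m ^ 3) / T * (A * (1 / E ^ 4)) := by
    have h2 : 2 * η * θ x * gd (fun y => (QQ b₁ b₂ e y)⁻¹) θ x ≤
        2 * (1 / (m * E ^ 2)) * 1 * (Fintype.card ι * (2 * G / (m ^ 2 * E ^ 3) *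
          (C / T / E))) := by
      refine (le_abs_self _).trans ?_
      rw [abs_mul, abs_of_nonneg (by positivity : 0 ≤ 2 * η * θ x)]
      apply mul_le_mul _ (hg1.trans _) (abs_nonneg _) (by positivity)
      · apply mul_le_mul _ h1 h0 (by positivity)
        linarith
      · apply mul_le_mul_of_nonneg_left _ (by positivity)
        exact mul_le_mul_of_nonneg_left htE (by positivity)
    calc w ^ 2 * (2 * η * θ x * gd (fun y => (QQ b₁ b₂ e y)⁻¹) θ x) ≤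
        w ^ 2 * (2 * (1 / (m * E ^ 2)) * 1 * (Fintype.card ι * (2 * G / (m ^ 2 * E ^ 3) *
          (C / T / E)))) := mul_le_mul_of_nonneg_left h2 (sq_nonneg _)
      _ ≤ (E ^ 2 * A) * (2 * (1 / (m * E ^ 2)) * 1 * (Fintype.card ι *
          (2 * G / (m ^ 2 * E ^ 3) * (C / T / E)))) :=
          mul_le_mul_of_nonneg_right hw2 (by positivity)
      _ = _ := by field_simp; ring
  have hT2 : w ^ 2 * (η ^ 2 * gd θ θ x) ≤ (C ^ 2 / m ^ 2) / T * (A * (1 / E ^ 4)) := by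
    rw [hg2]
    have h2 : t ^ 2 ≤ (C / T / E) ^ 2 := pow_le_pow_left₀ ht0 htE 2
    have h3 : (C / T / E) ^ 2 ≤ C ^ 2 / T / E ^ 2 := by
      have h4 : (C / T / E) ^ 2 = C ^ 2 / T / E ^ 2 * (1 / T) := by field_simp
      rw [h4]
      have h5 : 1 / T ≤ 1 := by rw [div_le_one hT0]; exact hT
      have h6 : 0 ≤ C ^ 2 / T / E ^ 2 := by positivity
      nlinarith
    calc w ^ 2 * (η ^ 2 * t ^ 2) ≤ (E ^ 2 * A) * ((1 / (m ^ 2 * E ^ 4)) *
          (C ^ 2 / T / E ^ 2)) := by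
          apply mul_le_mul hw2 _ (by positivity) (by positivity)
          exact mul_le_mul hη2 (h2.trans h3) (by positivity) (by positivity)
      _ = _ := by field_simp
  have hT3 : -(A * (2 * η ^ 2 * θ x * ∑ k, x (e k) * pd (e k) θ x)) ≤
      (8 * C / m ^ 2) / T * (A * (1 / E ^ 4)) := by
    have h2 : |∑ k, x (e k) * pd (e k) θ x| ≤ 4 * (E * (C / T / E)) := by
      refine (Finset.abs_sum_le_sum_abs _ _).trans ?_
      have h3 : ∀ k ∈ (Finset.univ : Finset (Fin 4)), |x (e k) * pd (e k) θ x| ≤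
          E * (C / T / E) := by
        intro k _
        rw [abs_mul]
        exact mul_le_mul (hzk k) ((hθk _).trans htE) (abs_nonneg _) hE0.le
      have h4 := Finset.sum_le_card_nsmul _ _ _ h3
      rw [nsmul_eq_mul, Finset.card_univ, Fintype.card_fin] at h4
      exact_mod_cast h4
    have h5 : 2 * η ^ 2 * θ x * |∑ k, x (e k) * pd (e k) θ x| ≤
        2 * (1 / (m ^ 2 * E ^ 4)) * 1 * (4 * (E * (C / T / E))) := by
      apply mul_le_mul _ h2 (abs_nonneg _) (by positivity)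
      apply mul_le_mul _ h1 h0 (by positivity)
      linarith
    have h6 : -(2 * η ^ 2 * θ x * ∑ k, x (e k) * pd (e k) θ x) ≤
        2 * η ^ 2 * θ x * |∑ k, x (e k) * pd (e k) θ x| := by
      rw [← mul_neg]
      exact mul_le_mul_of_nonneg_left (neg_le_abs _) (by positivity)
    calc -(A * (2 * η ^ 2 * θ x * ∑ k, x (e k) * pd (e k) θ x)) =
        A * (-(2 * η ^ 2 * θ x * ∑ k, x (e k) * pd (e k) θ x)) := by ring
      _ ≤ A * (2 * (1 / (m ^ 2 * E ^ 4)) * 1 * (4 * (E * (C / T / E)))) :=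
          mul_le_mul_of_nonneg_left (h6.trans h5) hA0
      _ = _ := by field_simp; ring
  have hT4 : 2 * w * (2 * η ^ 2 * θ x * ∑ k, pd (e k) u x * pd (e k) θ x) ≤
      (16 * C / m ^ 2) / T * (A * (1 / E ^ 4)) := by
    have h2 : |w * ∑ k, pd (e k) u x * pd (e k) θ x| ≤ 4 * (E * A * (C / T / E)) := by
      rw [Finset.mul_sum]
      refine (Finset.abs_sum_le_sum_abs _ _).trans ?_
      have h3 : ∀ k ∈ (Finset.univ : Finset (Fin 4)), |w * (pd (e k) u x * pd (e k) θ x)| ≤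
          E * A * (C / T / E) := by
        intro k _
        rw [← mul_assoc, abs_mul]
        exact mul_le_mul (hwa k) ((hθk _).trans htE) (abs_nonneg _) (by positivity)
      have h4 := Finset.sum_le_card_nsmul _ _ _ h3
      rw [nsmul_eq_mul, Finset.card_univ, Fintype.card_fin] at h4
      exact_mod_cast h4
    have h5 : 4 * η ^ 2 * θ x * |w * ∑ k, pd (e k) u x * pd (e k) θ x| ≤
        4 * (1 / (m ^ 2 * E ^ 4)) * 1 * (4 * (E * A * (C / T / E))) := by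
      apply mul_le_mul _ h2 (abs_nonneg _) (by positivity)
      apply mul_le_mul _ h1 h0 (by positivity)
      linarith
    calc 2 * w * (2 * η ^ 2 * θ x * ∑ k, pd (e k) u x * pd (e k) θ x) =
        4 * η ^ 2 * θ x * (w * ∑ k, pd (e k) u x * pd (e k) θ x) := by ring
      _ ≤ 4 * η ^ 2 * θ x * |w * ∑ k, pd (e k) u x * pd (e k) θ x| :=
          mul_le_mul_of_nonneg_left (le_abs_self _) (by positivity)
      _ ≤ _ := h5
      _ = _ := by field_simp; ring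
  rw [hE4]
  unfold rk3_err
  rw [mul_add]
  have hsum : (4 * Fintype.card ι * G * C / m ^ 3 + C ^ 2 / m ^ 2 + 24 * C / m ^ 2) / T *
      (A * (1 / E ^ 4)) = (4 * Fintype.card ι * G * C / m ^ 3) / T * (A * (1 / E ^ 4)) +
      (C ^ 2 / m ^ 2) / T * (A * (1 / E ^ 4)) + (8 * C / m ^ 2) / T * (A * (1 / E ^ 4)) +
      (16 * C / m ^ 2) / T * (A * (1 / E ^ 4)) := by ring
  rw [hsum]
  linarith

theorem rk3_pd_zero {θ : V ι → ℝ} {x : V ι} (h : fderiv ℝ θ x = 0) (i : ι) : pd i θ x = 0 := by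
  unfold pd
  rw [h]
  rfl

theorem rk3_err_zero [DecidableEq ι] (b₁ b₂ : ℝ) (e : Fin 4 ↪ ι) (u : V ι → ℝ) {θ : V ι → ℝ}
    {x : V ι} (h : fderiv ℝ θ x = 0) : rk3_err b₁ b₂ e u θ x = 0 := by
  unfold rk3_err gd
  simp only [rk3_pd_zero h]
  simp

theorem rk3_D0_cont [DecidableEq ι] (b₁ b₂ : ℝ) (e : Fin 4 ↪ ι) {u : V ι → ℝ}
    (hu : ContDiff ℝ 1 u) : Continuous (D0 b₁ b₂ e u) := by
  have hQ : Continuous (QQ b₁ b₂ e) := (rk3_contDiff_QQ b₁ b₂ e (n := 1)).continuous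
  have hQ0 : ∀ x, QQ b₁ b₂ e x ≠ 0 := fun x => (rk3_QQ_pos e x).ne'
  have hp : ∀ i, Continuous (pd i u) := fun i => continuous_pd hu i
  have hx : ∀ i, Continuous (fun x : V ι => x i) := fun i => rk3_coord i
  have h1 : Continuous (fun x : V ι => ∑ k, x (e k) * pd (e k) u x) :=
    continuous_finsetSum _ fun k _ => (hx _).mul (hp _)
  have h2 : Continuous (fun x : V ι => ∑ k, ((bb b₁ b₂ k ^ 2)⁻¹ * x (e k)) ^ 2) :=
    continuous_finsetSum _ fun k _ => (continuous_const.mul (hx _)).pow 2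
  have h3 : Continuous (fun x : V ι => ∑ i ∈ (Finset.univ.map e)ᶜ, x i ^ 2) :=
    continuous_finsetSum _ fun i _ => (hx _).pow 2
  have h4 : Continuous (fun x : V ι => aa e u x) :=
    continuous_finsetSum _ fun k _ => (hp _).pow 2
  have h5 : Continuous (fun x : V ι => ∑ k, (bb b₁ b₂ k ^ 2)⁻¹ * x (e k) ^ 2) :=
    continuous_finsetSum _ fun k _ => continuous_const.mul ((hx _).pow 2)
  have h6 : Continuous (fun x : V ι => ∑ k, (bb b₁ b₂ k ^ 2)⁻¹ * x (e k) * pd (e k) u x) :=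
    continuous_finsetSum _ fun k _ => (continuous_const.mul (hx _)).mul (hp _)
  unfold D0
  refine ((((h1.pow 2).mul ((continuous_const.mul (h2.add (continuous_const.mul h3))).div
    (hQ.pow 4) fun x => pow_ne_zero _ (hQ0 x))).sub
    ((continuous_const.mul h4).div (hQ.pow 2) fun x => pow_ne_zero _ (hQ0 x))).add
    (((continuous_const.mul h4).mul h5).div (hQ.pow 3) fun x => pow_ne_zero _ (hQ0 x))).sub
    (((continuous_const.mul h1).mul h6).div (hQ.pow 3) fun x => pow_ne_zero _ (hQ0 x))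

theorem rk3_int [DecidableEq ι] (S : Finset ι) {u η : V ι → ℝ} (hu : ContDiff ℝ 1 u)
    (hη : T1 η) :
    Integrable (fun x => w0 S u x ^ 2 * gd η η x + (2 - (S.card : ℝ)) * gs S u x * η x ^ 2 -
      gs S u x * (∑ i ∈ S, x i * pd i (fun y => η y ^ 2) x) +
      2 * w0 S u x * ∑ i ∈ S, pd i u x * pd i (fun y => η y ^ 2) x) := by
  have hp : ∀ i, Continuous (pd i u) := fun i => continuous_pd hu i
  have hx : ∀ i, Continuous (fun x : V ι => x i) := fun i => rk3_coord i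
  have hw : Continuous (fun x : V ι => w0 S u x) :=
    continuous_finsetSum _ fun k _ => (hx _).mul (hp _)
  have hg : Continuous (fun x : V ι => gs S u x) :=
    continuous_finsetSum _ fun k _ => (hp _).pow 2
  have hη2 : T1 (fun y => η y ^ 2) := by
    have h := T1.mul hη.1 hη
    have h2 : (fun y => η y ^ 2) = fun y => η y * η y := by
      funext y; ring
    rw [h2]; exact h
  have hc : ∀ i, Continuous (pd i (fun y => η y ^ 2)) := fun i => continuous_pd hη2.1 i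
  have hk : ∀ i, HasCompactSupport (pd i (fun y => η y ^ 2)) :=
    fun i => hasCompactSupport_pd hη2.2 i
  have i1 : Integrable (fun x => w0 S u x ^ 2 * gd η η x) :=
    integrable_cs ((hw.pow 2).mul (continuous_gd hη.1 hη.1)) (hasCompactSupport_gd hη.2).mul_left
  have i2 : Integrable (fun x => (2 - (S.card : ℝ)) * gs S u x * η x ^ 2) :=
    integrable_cs ((continuous_const.mul hg).mul (hη.continuous.pow 2)) hη2.2.mul_left
  have i3 : Integrable (fun x => gs S u x * (∑ i ∈ S, x i * pd i (fun y => η y ^ 2) x)) := by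
    simp only [Finset.mul_sum]
    apply integrable_finsetSum
    intro i _
    exact integrable_cs (hg.mul ((hx i).mul (hc i))) (hk i).mul_left.mul_left
  have i4 : Integrable (fun x => 2 * w0 S u x * ∑ i ∈ S, pd i u x * pd i (fun y => η y ^ 2) x) := by
    simp only [Finset.mul_sum]
    apply integrable_finsetSum
    intro i _
    exact integrable_cs ((continuous_const.mul hw).mul ((hp i).mul (hc i)))
      (hk i).mul_left.mul_left
  exact ((i1.add i2).sub i3).add i4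

/-- Proof. `dil_ineq` for `S = Finset.univ.map e` (`|S| = 4`) and `η = (QQ x)⁻¹ * cut T x`. Let
`η₀ = (QQ x)⁻¹`: `pd (e k) η₀ = - 2 c k z k / Q ^ 2`, `pd i η₀ = - 2 γ x i / Q ^ 2` for the other `i`
(`c k = (bb k ^ 2)⁻¹`, `γ = min`). The integrand for `η₀` instead of `η` is `D0`; so the integrand for
`η = η₀ θ`, `θ = cut T`, is `D0 θ ^ 2` plus
`w ^ 2 (2 η₀ θ gd η₀ θ + η₀ ^ 2 gd θ θ) - aa η₀ ^ 2 ∑ z k pd (e k) (θ ^ 2)`
`+ 2 w η₀ ^ 2 ∑ a k pd (e k) (θ ^ 2)`, `w ^ 2 ≤ rr aa`. This error is supported in the shell and bounded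
by `(C / T) aa exp (- 4 lg x)`: `Q ≥ c exp (2 lg x)`, `‖fderiv η₀‖ ≤ C exp (- 3 lg x)`,
`‖fderiv θ‖ ≤ (C / T) exp (- lg x)`, `|z k| ≤ exp (lg x)`, `T ≥ 1`. -/
theorem dil_cut [DecidableEq ι] {K b₁ b₂ : ℝ} {e : Fin 4 ↪ ι} {u : V ι → ℝ} (hu : GS K u)
    (hst : Stab u) (hb₁ : b₁ ≠ 0) (hb₂ : b₂ ≠ 0) : ∃ C : ℝ, 0 ≤ C ∧ ∀ T : ℝ, 1 ≤ T →
      0 ≤ (∫ x, D0 b₁ b₂ e u x * cut T x ^ 2) +
        C / T * ∫ x in shell T 1 ∅, aa e u x * Real.exp (-4 * lg x) := by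
  obtain ⟨C₀, hC₀, hcut⟩ := cut_facts (ι := ι)
  set m := min 1 (min (b₁ ^ 2)⁻¹ (b₂ ^ 2)⁻¹) with hm
  set G := max (b₁ ^ 2)⁻¹ (b₂ ^ 2)⁻¹ with hG
  have hm0 : 0 < m := by
    rw [hm]
    apply lt_min one_pos
    apply lt_min <;> positivity
  have hG0 : 0 ≤ G := le_max_of_le_left (by positivity)
  refine ⟨4 * Fintype.card ι * G * C₀ / m ^ 3 + C₀ ^ 2 / m ^ 2 + 24 * C₀ / m ^ 2,
    by positivity, fun T hT => ?_⟩
  set C := 4 * Fintype.card ι * G * C₀ / m ^ 3 + C₀ ^ 2 / m ^ 2 + 24 * C₀ / m ^ 2 with hC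
  obtain ⟨hT1, h01, -, -, hd, hz⟩ := hcut T hT
  have hT0 : 0 < T := by linarith
  have hf : ContDiff ℝ 1 (fun y => (QQ b₁ b₂ e y)⁻¹) :=
    (rk3_contDiff_QQ b₁ b₂ e (n := 1)).inv fun x => (rk3_QQ_pos e x).ne'
  have hη : T1 (fun x => (QQ b₁ b₂ e x)⁻¹ * cut T x) := T1.mul hf hT1
  have hdil := dil_ineq hu hst (Finset.univ.map e) hη
  have hint := rk3_int (Finset.univ.map e) hu.C1 hη
  have hpt : ∀ x : V ι, DifferentiableAt ℝ (cut T : V ι → ℝ) x :=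
    fun x => hT1.1.differentiable one_ne_zero x
  have hD : Integrable (fun x => D0 b₁ b₂ e u x * cut T x ^ 2) := by
    have h2 : T1 (fun x => cut T x * cut T x) := T1.mul hT1.1 hT1
    have h3 : (fun x => D0 b₁ b₂ e u x * cut T x ^ 2) =
        fun x => D0 b₁ b₂ e u x * (cut T x * cut T x) := by
      funext x; ring
    rw [h3]
    exact integrable_mul_T1 (rk3_D0_cont b₁ b₂ e hu.C1) h2
  have haa : Continuous (fun x : V ι => aa e u x * Real.exp (-4 * lg x)) := by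
    have h1 : Continuous (fun x : V ι => aa e u x) :=
      continuous_finsetSum _ fun k _ => (continuous_pd hu.C1 _).pow 2
    exact h1.mul (Real.continuous_exp.comp
      (continuous_const.mul (contDiff_lg (n := 0)).continuous))
  have hsm : MeasurableSet (shell T 1 (∅ : Finset ι)) :=
    (isCompact_shell T 1 ∅).isClosed.measurableSet
  have hiS : IntegrableOn (fun x : V ι => aa e u x * Real.exp (-4 * lg x)) (shell T 1 ∅) :=
    haa.continuousOn.integrableOn_compact (isCompact_shell T 1 ∅)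
  have hiI : Integrable ((shell T 1 (∅ : Finset ι)).indicator
      fun x : V ι => C / T * (aa e u x * Real.exp (-4 * lg x))) := by
    rw [integrable_indicator_iff hsm]
    exact hiS.const_mul _
  refine hdil.trans ?_
  have hR : (∫ x, D0 b₁ b₂ e u x * cut T x ^ 2) +
        C / T * ∫ x in shell T 1 ∅, aa e u x * Real.exp (-4 * lg x) =
      ∫ x, (D0 b₁ b₂ e u x * cut T x ^ 2 + (shell T 1 (∅ : Finset ι)).indicator
        (fun x : V ι => C / T * (aa e u x * Real.exp (-4 * lg x))) x) := by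
    rw [integral_add hD hiI, integral_indicator hsm, integral_const_mul]
  rw [hR]
  apply integral_mono hint (hD.add hiI)
  intro x
  have hp := rk3_point b₁ b₂ e u (hpt x)
  show _ ≤ _
  refine (le_of_eq hp).trans ?_
  simp only [Pi.add_apply]
  apply add_le_add le_rfl
  by_cases hx : x ∈ shell T 1 (∅ : Finset ι)
  · rw [Set.indicator_of_mem hx]
    exact rk3_err_le e u hm0 le_rfl le_rfl hT hC₀ (h01 x).1 (h01 x).2 (hd x)
  · rw [Set.indicator_of_notMem hx, rk3_err_zero b₁ b₂ e u (hz x hx)]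

end Pool.Agent.Helper68.DG
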