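import Pool.Agent.Helper68.DG.Base
import Pool.Agent.Helper68.DG.C1
import Pool.Agent.Helper68.DG.C2
import Pool.Agent.Helper68.DG.D4b
import Pool.Agent.Helper68.DG.Defs2
import Pool.Agent.Helper68.DG.F3
import Pool.Agent.Helper68.DG.F4
import Pool.Agent.Helper68.DG.IB2
import Pool.Agent.Helper68.DG.RK1
import Pool.Agent.Helper68.DG.RK2
import Pool.Agent.Helper68.DG.RK3

/-! Project DG (MP_800410_an), piece RK4: rank four: the conclusion -/

open MeasureTheory Metric Set Filter Topology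
open scoped ContDiff

namespace Pool.Agent.Helper68.DG

variable {ι : Type} [Fintype ι]

theorem rk4_lg_cont : Continuous (lg : V ι → ℝ) := (contDiff_lg (n := 0)).continuous

theorem rk4_aa_cont {u : V ι → ℝ} (hu : ContDiff ℝ 1 u) (e : Fin 4 ↪ ι) :
    Continuous (aa e u) := by
  unfold aa
  exact continuous_finsetSum _ fun k _ => (continuous_pd hu (e k)).pow 2

theorem rk4_aa_nonneg (e : Fin 4 ↪ ι) (u : V ι → ℝ) (x : V ι) : 0 ≤ aa e u x :=
  Finset.sum_nonneg fun _ _ => sq_nonneg _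

theorem rk4_aa_le (e : Fin 4 ↪ ι) (u : V ι → ℝ) (x : V ι) : aa e u x ≤ gd u u x := by
  classical
  unfold aa gd
  have h1 : ∑ k, pd (e k) u x ^ 2 = ∑ i ∈ Finset.univ.map e, pd i u x ^ 2 := by
    rw [Finset.sum_map]
  rw [h1]
  refine (Finset.sum_le_sum_of_subset_of_nonneg (Finset.subset_univ _)
    fun i _ _ => sq_nonneg _).trans (le_of_eq ?_)
  refine Finset.sum_congr rfl fun i _ => ?_
  ring

theorem rk4_QQ_pos [DecidableEq ι] (b₁ b₂ : ℝ) (e : Fin 4 ↪ ι) (x : V ι) :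
    0 < QQ b₁ b₂ e x := by
  unfold QQ
  have h1 : 0 ≤ ∑ k, (bb b₁ b₂ k ^ 2)⁻¹ * x (e k) ^ 2 :=
    Finset.sum_nonneg fun k _ => mul_nonneg (inv_nonneg.2 (sq_nonneg _)) (sq_nonneg _)
  have h2 : 0 ≤ min (b₁ ^ 2)⁻¹ (b₂ ^ 2)⁻¹ :=
    le_min (inv_nonneg.2 (sq_nonneg _)) (inv_nonneg.2 (sq_nonneg _))
  have h3 : 0 ≤ ∑ i ∈ (Finset.univ.map e)ᶜ, x i ^ 2 := Finset.sum_nonneg fun _ _ => sq_nonneg _
  have h4 := mul_nonneg h2 h3
  linarith

theorem rk4_D0_cont [DecidableEq ι] (b₁ b₂ : ℝ) (e : Fin 4 ↪ ι) {u : V ι → ℝ}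
    (hu : ContDiff ℝ 1 u) : Continuous (D0 b₁ b₂ e u) := by
  have hQ : Continuous (QQ b₁ b₂ e) := by
    unfold QQ
    fun_prop
  have hQ0 : ∀ x, QQ b₁ b₂ e x ≠ 0 := fun x => (rk4_QQ_pos b₁ b₂ e x).ne'
  have ha := rk4_aa_cont hu e
  have hp : ∀ k, Continuous (pd (e k) u) := fun k => continuous_pd hu (e k)
  have h1 : Continuous fun x : V ι => ∑ k, x (e k) * pd (e k) u x :=
    continuous_finsetSum _ fun k _ => by
      have := hp k
      fun_prop
  have h2 : Continuous fun x : V ι => ∑ k, (bb b₁ b₂ k ^ 2)⁻¹ * x (e k) * pd (e k) u x :=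
    continuous_finsetSum _ fun k _ => by
      have := hp k
      fun_prop
  have h3 : Continuous fun x : V ι => ∑ k, ((bb b₁ b₂ k ^ 2)⁻¹ * x (e k)) ^ 2 +
      min (b₁ ^ 2)⁻¹ (b₂ ^ 2)⁻¹ ^ 2 * ∑ i ∈ (Finset.univ.map e)ᶜ, x i ^ 2 := by fun_prop
  have h4 : Continuous fun x : V ι => ∑ k, (bb b₁ b₂ k ^ 2)⁻¹ * x (e k) ^ 2 := by fun_prop
  unfold D0
  refine Continuous.sub (Continuous.add (Continuous.sub ?_ ?_) ?_) ?_
  · exact (h1.pow 2).mul ((continuous_const.mul h3).div (hQ.pow 4) fun x => pow_ne_zero _ (hQ0 x))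
  · exact (continuous_const.mul ha).div (hQ.pow 2) fun x => pow_ne_zero _ (hQ0 x)
  · exact ((continuous_const.mul ha).mul h4).div (hQ.pow 3) fun x => pow_ne_zero _ (hQ0 x)
  · exact ((continuous_const.mul h1).mul h2).div (hQ.pow 3) fun x => pow_ne_zero _ (hQ0 x)

theorem rk4_Er_meas {b₁ b₂ : ℝ} {e : Fin 4 ↪ ι} {u : V ι → ℝ} (hu : ContDiff ℝ 1 u) :
    Measurable (Er b₁ b₂ e u) := by
  have hp : ∀ k, Continuous (pd (e k) u) := fun k => continuous_pd hu (e k)
  unfold Er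
  refine Measurable.div (Measurable.sub ?_ (Measurable.div ?_ ?_)) ?_
  · refine (continuous_finsetSum _ fun k _ => ?_).measurable
    exact continuous_const.mul ((hp k).pow 2)
  · refine ((continuous_finsetSum _ fun k _ => ?_).pow 2).measurable
    have := hp k
    fun_prop
  · unfold rr
    exact (by fun_prop : Continuous fun x : V ι => ∑ k, x (e k) ^ 2).measurable
  · unfold bz
    exact (by fun_prop : Continuous fun x : V ι => ∑ k, bb b₁ b₂ k ^ 2 * x (e k) ^ 2).measurable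

theorem rk4_wtS_empty [DecidableEq ι] (x : V ι) : wtS (∅ : Finset ι) x = 1 := by
  unfold wtS
  rw [exp_lg_sq, EuclideanSpace.norm_sq_eq, Finset.compl_empty]
  have h : ∑ i, ‖x i‖ ^ 2 = ∑ i, x i ^ 2 :=
    Finset.sum_congr rfl fun i _ => by rw [Real.norm_eq_abs, sq_abs]
  rw [h]
  apply div_self
  have : 0 ≤ ∑ i, x i ^ 2 := Finset.sum_nonneg fun _ _ => sq_nonneg _
  linarith

theorem rk4_shell_empty {T δ : ℝ} (hT : 1 ≤ T) (hδ : (Fintype.card ι : ℝ) * δ ^ 2 ≤ 1 / 2)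
    (J : Finset ι) (hJ : ∀ i, i ∈ J) : (shell T δ J : Set (V ι)) = ∅ := by
  rw [Set.eq_empty_iff_forall_notMem]
  rintro x ⟨h1, -, h3⟩
  have hE := exp_lg_sq x
  have hn : ‖x‖ ^ 2 ≤ (Fintype.card ι : ℝ) * (δ ^ 2 * Real.exp (lg x) ^ 2) := by
    rw [EuclideanSpace.norm_sq_eq]
    calc ∑ i, ‖x i‖ ^ 2 ≤ ∑ _i : ι, δ ^ 2 * Real.exp (lg x) ^ 2 := by
          refine Finset.sum_le_sum fun i _ => ?_
          rw [Real.norm_eq_abs, ← mul_pow]
          exact pow_le_pow_left₀ (abs_nonneg _) (h3 i (hJ i)) 2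
      _ = _ := by rw [Finset.sum_const, Finset.card_univ, nsmul_eq_mul]
  have h4 : (Fintype.card ι : ℝ) * (δ ^ 2 * Real.exp (lg x) ^ 2) ≤
      1 / 2 * Real.exp (lg x) ^ 2 := by
    rw [← mul_assoc]
    exact mul_le_mul_of_nonneg_right hδ (sq_nonneg _)
  have h5 : (2 : ℝ) ≤ Real.exp (lg x) := by
    have h6 := Real.add_one_le_exp (lg x)
    linarith
  have h6 : (2 : ℝ) ^ 2 ≤ Real.exp (lg x) ^ 2 := pow_le_pow_left₀ (by norm_num) h5 2
  linarith

/-- Proof. By RK3, RK1 and RK2 (with the constants `c, C` of RK1)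
`c ∫ aa exp (- 4 lg) cut T ^ 2 ≤ C ∫ Er exp (- 2 lg) cut T ^ 2 + (C' / T) ∫_shell aa exp (- 4 lg)`
`≤ (C'' / T) ∫_shell aa exp (- 4 lg)`. Apply F4 (`wlemma`) to `a = aa e u`, `d = 4`, `S = ∅`: `wtS ∅ = 1`
(`exp (lg x) ^ 2 = 1 + ‖x‖ ^ 2`), and for `δ` small and `T ≥ 1` the set `shell T δ univ` is empty:
`‖x‖ ^ 2 ≤ n δ ^ 2 exp (lg x) ^ 2` and `exp (lg x) ^ 2 = 1 + ‖x‖ ^ 2 ≥ e ^ 2`. -/
theorem rk_core [DecidableEq ι] {K b₁ b₂ : ℝ} {e : Fin 4 ↪ ι} {u : V ι → ℝ} (hu : GS K u)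
    (hst : Stab u) (hb₁ : b₁ ≠ 0) (hb₂ : b₂ ≠ 0) (hk : Kil b₁ b₂ e u) {C : ℝ} (hC : 0 ≤ C)
    (hgrow : ∀ T : ℝ, 2 ≤ T → ∫ x in shell T 1 ∅, aa e u x * Real.exp (-4 * lg x) ≤ C * T) :
    ∀ k x, pd (e k) u x = 0 := by
  obtain ⟨c1, C1, hc1, hC1, hD⟩ := D0_le (ι := ι) hb₁ hb₂ e
  obtain ⟨C2, hC2, hkil⟩ := kil_cut hu hst hb₁ hb₂ hk
  obtain ⟨C3, hC3, hdil⟩ := dil_cut (e := e) hu hst hb₁ hb₂
  obtain ⟨CE, hCE⟩ := Er_bound hu hb₁ hb₂ hk
  obtain ⟨Cc, hCc, hcut⟩ := cut_facts (ι := ι)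
  have hlc := rk4_lg_cont (ι := ι)
  have hac := rk4_aa_cont hu.C1 e
  have he4 : Continuous fun x : V ι => Real.exp (-4 * lg x) :=
    Real.continuous_exp.comp (continuous_const.mul hlc)
  have he2 : Continuous fun x : V ι => Real.exp (-2 * lg x) :=
    Real.continuous_exp.comp (continuous_const.mul hlc)
  have hsh0 : ∀ T : ℝ, 0 ≤ ∫ x in shell T 1 ∅, aa e u x * Real.exp (-4 * lg x) := fun T =>
    integral_nonneg fun x => mul_nonneg (rk4_aa_nonneg e u x) (Real.exp_pos _).le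
  have hmain : ∀ T : ℝ, 1 ≤ T → ∫ x, aa e u x * Real.exp (-4 * lg x) * cut T x ^ 2 ≤
      (C1 * C2 + C3) / c1 / T * ∫ x in shell T 1 ∅, aa e u x * Real.exp (-4 * lg x) := by
    intro T hT
    have hT0 : 0 < T := by linarith
    have hct := (hcut T hT).1
    have hcc : Continuous (cut T : V ι → ℝ) := hct.continuous
    have hcs : HasCompactSupport fun x : V ι => cut T x ^ 2 :=
      hct.2.comp_left (g := fun t : ℝ => t ^ 2) (by simp)
    have i1 : Integrable fun x => D0 b₁ b₂ e u x * cut T x ^ 2 :=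
      integrable_cs ((rk4_D0_cont b₁ b₂ e hu.C1).mul (hcc.pow 2)) hcs.mul_left
    have i2 : Integrable fun x => aa e u x * Real.exp (-4 * lg x) * cut T x ^ 2 :=
      integrable_cs ((hac.mul he4).mul (hcc.pow 2)) hcs.mul_left
    have i3' : Integrable fun x : V ι => CE * (Real.exp (-2 * lg x) * cut T x ^ 2) :=
      (integrable_cs (he2.mul (hcc.pow 2)) hcs.mul_left).const_mul CE
    have i3 : Integrable fun x => Er b₁ b₂ e u x * Real.exp (-2 * lg x) * cut T x ^ 2 := by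
      refine Integrable.mono' i3' ?_ ?_
      · exact (((rk4_Er_meas hu.C1).mul he2.measurable).mul
          (hcc.pow 2).measurable).aestronglyMeasurable
      · refine Eventually.of_forall fun x => ?_
        have h1 : 0 ≤ Real.exp (-2 * lg x) * cut T x ^ 2 := by positivity
        rw [Real.norm_eq_abs, mul_assoc, abs_of_nonneg (mul_nonneg (hCE x).1 h1)]
        exact mul_le_mul_of_nonneg_right (hCE x).2 h1
    have h1 : ∫ x, D0 b₁ b₂ e u x * cut T x ^ 2 ≤
        ∫ x, (C1 * (Er b₁ b₂ e u x * Real.exp (-2 * lg x) * cut T x ^ 2) -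
          c1 * (aa e u x * Real.exp (-4 * lg x) * cut T x ^ 2)) := by
      refine integral_mono i1 ((i3.const_mul C1).sub (i2.const_mul c1)) fun x => ?_
      have h2 := mul_le_mul_of_nonneg_right (hD u x) (sq_nonneg (cut T x))
      refine h2.trans (le_of_eq ?_)
      ring
    rw [integral_sub (i3.const_mul C1) (i2.const_mul c1), integral_const_mul,
      integral_const_mul] at h1
    have h2 := hdil T hT
    have h3 := mul_le_mul_of_nonneg_left (hkil T hT) hC1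
    have h4 : c1 * ∫ x, aa e u x * Real.exp (-4 * lg x) * cut T x ^ 2 ≤
        (C1 * C2 + C3) / T * ∫ x in shell T 1 ∅, aa e u x * Real.exp (-4 * lg x) := by
      have e1 : (C1 * C2 + C3) / T * ∫ x in shell T 1 ∅, aa e u x * Real.exp (-4 * lg x) =
          C1 * (C2 / T * ∫ x in shell T 1 ∅, aa e u x * Real.exp (-4 * lg x)) +
            C3 / T * ∫ x in shell T 1 ∅, aa e u x * Real.exp (-4 * lg x) := by ring
      rw [e1]
      linarith only [h1, h2, h3]
    have e2 : (C1 * C2 + C3) / c1 / T * ∫ x in shell T 1 ∅, aa e u x * Real.exp (-4 * lg x) =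
        ((C1 * C2 + C3) / T * ∫ x in shell T 1 ∅, aa e u x * Real.exp (-4 * lg x)) / c1 := by
      ring
    rw [e2, le_div_iff₀ hc1, mul_comm]
    exact h4
  obtain ⟨D, hDdef⟩ : ∃ D, D = (C1 * C2 + C3) / c1 := ⟨_, rfl⟩
  have hD0 : 0 ≤ D := by rw [hDdef]; positivity
  rw [← hDdef] at hmain
  have hz : ∀ x, aa e u x = 0 := by
    intro x
    refine wlemma hac (rk4_aa_nonneg e u) 4 ∅ (C := C + D) (by positivity) ?_ ?_ ?_ x
    · intro T hT
      have hT0 : 0 < T := by linarith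
      have e1 : (fun x : V ι => aa e u x * Real.exp (-4 * lg x) * wtS ∅ x * cut T x ^ 2) =
          fun x => aa e u x * Real.exp (-4 * lg x) * cut T x ^ 2 := by
        funext y
        rw [rk4_wtS_empty, mul_one]
      rw [e1]
      refine (hmain T hT).trans (mul_le_mul_of_nonneg_right ?_ (hsh0 T))
      exact div_le_div_of_nonneg_right (by linarith) hT0.le
    · intro ε hε
      obtain ⟨δ, hδ⟩ : ∃ δ : ℝ, δ = 1 / (2 * ((Fintype.card ι : ℝ) + 1)) := ⟨_, rfl⟩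
      have hn0 : (0 : ℝ) ≤ Fintype.card ι := Nat.cast_nonneg _
      have hδ0 : 0 < δ := by rw [hδ]; positivity
      refine ⟨δ, hδ0, 1, fun T hT => ?_⟩
      have h1 : (Fintype.card ι : ℝ) * δ ^ 2 ≤ 1 / 2 := by
        have h2 : (Fintype.card ι : ℝ) * δ ≤ 1 / 2 := by
          rw [hδ, mul_one_div, div_le_div_iff₀ (by positivity) (by norm_num)]
          linarith
        have h3 : δ ≤ 1 := by
          rw [hδ, div_le_one (by positivity)]
          linarith
        calc (Fintype.card ι : ℝ) * δ ^ 2 = (Fintype.card ι : ℝ) * δ * δ := by ring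
          _ ≤ 1 / 2 * 1 := mul_le_mul h2 h3 hδ0.le (by norm_num)
          _ = 1 / 2 := by norm_num
      rw [rk4_shell_empty hT h1 _ (by simp), setIntegral_empty]
      have : 0 ≤ T := by linarith
      positivity
    · intro T hT
      refine (hgrow T hT).trans (mul_le_mul_of_nonneg_right (by linarith) (by linarith))
  intro k x
  have h1 := hz x
  unfold aa at h1
  have h2 := (Finset.sum_eq_zero_iff_of_nonneg fun k _ => sq_nonneg (pd (e k) u x)).1 h1 k
    (Finset.mem_univ k)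
  exact pow_eq_zero_iff two_ne_zero |>.1 h2

/-- Proof. `aa e v ≤ gd v v ≤ K ^ 2` and `shell_vol` for `J = ∅`, `card ι = 4`. -/
theorem rk_profile [DecidableEq ι] {K b₁ b₂ : ℝ} {e : Fin 4 ↪ ι} {v : V ι → ℝ} (hv : GS K v)
    (hst : Stab v) (hb₁ : b₁ ≠ 0) (hb₂ : b₂ ≠ 0) (hk : Kil b₁ b₂ e v)
    (hn : Fintype.card ι = 4) : ∀ k x, pd (e k) v x = 0 := by
  obtain ⟨C, hC, hvol⟩ := shell_vol (ι := ι)
  have hlc := rk4_lg_cont (ι := ι)
  have he4 : Continuous fun x : V ι => Real.exp (-4 * lg x) :=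
    Real.continuous_exp.comp (continuous_const.mul hlc)
  have hac := rk4_aa_cont hv.C1 e
  refine rk_core hv hst hb₁ hb₂ hk (C := K ^ 2 * C) (by positivity) fun T hT => ?_
  have h1 := hvol T 1 ∅ (by linarith) one_pos
  rw [hn, Finset.card_empty, pow_zero, mul_one] at h1
  have hcast : ((4 : ℕ) : ℝ) = 4 := by norm_num
  rw [hcast] at h1
  have hcomp := isCompact_shell (ι := ι) T 1 ∅
  calc ∫ x in shell T 1 ∅, aa e v x * Real.exp (-4 * lg x)
      ≤ ∫ x in shell T 1 ∅, K ^ 2 * Real.exp (-4 * lg x) := by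
        refine setIntegral_mono_on ((hac.mul he4).continuousOn.integrableOn_compact hcomp)
          ((continuous_const.mul he4).continuousOn.integrableOn_compact hcomp)
          hcomp.isClosed.measurableSet fun x _ => ?_
        refine mul_le_mul_of_nonneg_right ((rk4_aa_le e v x).trans ?_) (Real.exp_pos _).le
        rw [gd_self]
        exact pow_le_pow_left₀ (norm_nonneg _) (hv.bdd1 x) 2
    _ = K ^ 2 * ∫ x in shell T 1 ∅, Real.exp (-4 * lg x) := by rw [integral_const_mul]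
    _ ≤ K ^ 2 * (C * T) := mul_le_mul_of_nonneg_left h1 (sq_nonneg _)
    _ = K ^ 2 * C * T := by ring

/-- Proof. `aa e u ≤ gd u u` and `shell_energy` for `J = ∅`, `δ = 1`, `card ι = 5`. -/
theorem rk_sol [DecidableEq ι] {K b₁ b₂ : ℝ} {e : Fin 4 ↪ ι} {u : V ι → ℝ} (hu : GS K u)
    (hst : Stab u) (hEE : EE u) (hb₁ : b₁ ≠ 0) (hb₂ : b₂ ≠ 0) (hk : Kil b₁ b₂ e u)
    (hn : Fintype.card ι = 5) : ∀ k x, pd (e k) u x = 0 := by
  obtain ⟨C, hC, hen⟩ := shell_energy hu hEE (by omega)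
  have hlc := rk4_lg_cont (ι := ι)
  have he4 : Continuous fun x : V ι => Real.exp (-4 * lg x) :=
    Real.continuous_exp.comp (continuous_const.mul hlc)
  have hac := rk4_aa_cont hu.C1 e
  have hgc : Continuous (gd u u) := continuous_gd hu.C1 hu.C1
  refine rk_core hu hst hb₁ hb₂ hk hC fun T hT => ?_
  have h1 := hen T 1 ∅ hT one_pos le_rfl
  rw [hn, Finset.card_empty, pow_zero, mul_one, one_mul] at h1
  have hcast : -(((5 : ℕ) : ℝ) - 1) = -4 := by norm_num
  rw [hcast] at h1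
  have hcomp := isCompact_shell (ι := ι) T 1 ∅
  refine le_trans ?_ h1
  refine setIntegral_mono_on ((hac.mul he4).continuousOn.integrableOn_compact hcomp)
    ((hgc.mul he4).continuousOn.integrableOn_compact hcomp)
    hcomp.isClosed.measurableSet fun x _ => ?_
  exact mul_le_mul_of_nonneg_right (rk4_aa_le e u x) (Real.exp_pos _).le

end Pool.Agent.Helper68.DG
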