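import Pool.Agent.Helper68.DG.G1
import Pool.Agent.Helper68.DG.T1
import Pool.Agent.Helper68.DG.T2
import Pool.Agent.Helper68.DG.H1
import Pool.Agent.Helper68.DG.A2
import Pool.Agent.Helper68.DG.Defs2
import Pool.Agent.Helper68.DG.RK4
import Pool.Agent.Helper68.DG.K1
import Pool.Agent.Helper68.DG.K2
import Pool.Agent.Helper68.DG.K3
import Pool.Agent.Helper68.DG.NF

/-! Project DG (MP_800410_an): assembly for isometries with a fixed point. -/

open MeasureTheory Metric Set Filter Topology
open scoped ContDiff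

namespace Pool.Agent.Helper68.DG

/-- the four coordinates different from `0` -/
def e5 : Fin 4 ↪ Fin 5 := ⟨Fin.succ, Fin.succ_injective _⟩

/-- the four coordinates different from `0`, in the subtype -/
def e4 : Fin 4 ↪ {i : Fin 5 // i ≠ 0} :=
  ⟨fun k => ⟨k.succ, Fin.succ_ne_zero k⟩, fun a b h => Fin.succ_injective _ (congrArg Subtype.val h)⟩

/-- if all derivatives vanish then the function is signed -/
theorem signed_of_zero {ι : Type} [Fintype ι] {v : V ι → ℝ} (h : ∀ i x, pd i v x = 0) :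
    Signed v := by
  intro b
  refine Or.inr (Or.inr fun x => ?_)
  rw [fderiv_apply_eq]
  simp [h]

/-- the core of the theorem for isometries with a fixed point in dimension five -/
theorem hb_core {K : ℝ} {u : V (Fin 5) → ℝ} (hu : GS K u) (he : ∀ x, 0 < pd 0 u x) {b₁ b₂ : ℝ}
    (hb₁ : b₁ ≠ 0) (hk : Kil b₁ b₂ e5 u) : Signed u := by
  have hst : Stab u := stab_of_pos hu (be 0) he
  by_cases hb₂ : b₂ = 0
  · have hrot : RotInv ({1, 2} : Finset (Fin 5)) u := by
      have h12 : ∀ x : V (Fin 5), x 1 * pd 2 u x = x 2 * pd 1 u x := by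
        intro x
        have h := hk x
        rw [hb₂, zero_mul, add_zero] at h
        have h2 := (mul_eq_zero.1 h).resolve_left hb₁
        have h3 : x 1 * pd 2 u x - x 2 * pd 1 u x = 0 := h2
        linarith
      intro i hi j hj x
      simp only [Finset.mem_insert, Finset.mem_singleton] at hi hj
      rcases hi with rfl | rfl <;> rcases hj with rfl | rfl
      · rfl
      · exact h12 x
      · exact (h12 x).symm
      · rfl
    refine rot_core hu 0 he (S := {1, 2}) (by decide) hrot (by decide) ?_ ?_ ?_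
    · simp
    · simp
    · simp; norm_num
  · obtain ⟨v, hv, hvst, hv0, hlim, hlim'⟩ := exists_profile hu hst (be 0) fun x => (he x).le
    have h0 : ∀ i, ¬ (i ≠ 0) → ∀ x, pd i v x = 0 := by
      intro i hi x
      have : i = 0 := by simpa using hi
      rw [this]; exact hv0 x
    have hkv : Kil b₁ b₂ e5 v := by
      intro x
      have hl : ∀ j : Fin 5, Tendsto (fun t : ℝ => fderiv ℝ u (x + t • be 0) (be j)) atTop
          (𝓝 (pd j v x)) := fun j =>
        ((ContinuousLinearMap.apply ℝ ℝ (be j)).continuous.tendsto _).comp (hlim' x)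
      have h1 : Tendsto (fun t : ℝ => b₁ * (x (e5 0) * fderiv ℝ u (x + t • be 0) (be (e5 1)) -
          x (e5 1) * fderiv ℝ u (x + t • be 0) (be (e5 0))) +
          b₂ * (x (e5 2) * fderiv ℝ u (x + t • be 0) (be (e5 3)) -
          x (e5 3) * fderiv ℝ u (x + t • be 0) (be (e5 2)))) atTop
          (𝓝 (b₁ * (x (e5 0) * pd (e5 1) v x - x (e5 1) * pd (e5 0) v x) +
            b₂ * (x (e5 2) * pd (e5 3) v x - x (e5 3) * pd (e5 2) v x))) :=
        (((tendsto_const_nhds.mul (hl _)).sub (tendsto_const_nhds.mul (hl _))).const_mul _).add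
          (((tendsto_const_nhds.mul (hl _)).sub (tendsto_const_nhds.mul (hl _))).const_mul _)
      refine tendsto_nhds_unique h1 (tendsto_const_nhds.congr fun t => ?_)
      have h2 := hk (x + t • be 0)
      have h3 : ∀ k : Fin 4, (x + t • be 0 : V (Fin 5)) (e5 k) = x (e5 k) := by
        intro k
        have : e5 k ≠ 0 := Fin.succ_ne_zero k
        simp [be_apply, this]
      rw [h3, h3, h3, h3] at h2
      exact h2.symm
    have hv1 := GS.emb (fun i => i ≠ 0) hv h0
    have hst1 := Stab.emb (fun i => i ≠ 0) hv hvst h0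
    have hc := card_ne (ι := Fin 5) (fun i => i ≠ 0)
    have hc1 : (Finset.univ.filter fun i : Fin 5 => ¬ (i ≠ 0)) = {0} := by
      ext i; simp
    rw [hc1, Finset.card_singleton, Fintype.card_fin] at hc
    have hk1 : Kil b₁ b₂ e4 (v ∘ DG.emb fun i => i ≠ 0) := by
      intro y
      have h1 := hkv (DG.emb (fun i => i ≠ 0) y)
      rw [pd_emb _ hv.C1, pd_emb _ hv.C1, pd_emb _ hv.C1, pd_emb _ hv.C1]
      have h2 : ∀ k : Fin 4, (DG.emb (fun i : Fin 5 => i ≠ 0) y) (e5 k) = y (e4 k) := by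
        intro k
        rw [emb_apply, dif_pos (show e5 k ≠ 0 from Fin.succ_ne_zero k)]
        rfl
      rw [h2, h2, h2, h2] at h1
      exact h1
    have hz1 := rk_profile hv1 hst1 hb₁ hb₂ hk1 (by omega)
    have hs1 : Signed (v ∘ DG.emb fun i => i ≠ 0) := by
      apply signed_of_zero
      intro i x
      obtain ⟨k, hk⟩ : ∃ k : Fin 4, e4 k = i := by
        refine ⟨i.1.pred i.2, Subtype.ext ?_⟩
        exact Fin.succ_pred i.1 i.2
      rw [← hk]
      exact hz1 k x
    have ham := AM.lift (fun i => i ≠ 0) hv.C1 h0 (AM_of_signed hv1 hst1 hs1)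
    have hEE := EE_of_profile_AM hu hv (be 0) (fun x => (he x).le) hlim hlim' ham
    have hzu := rk_sol hu hst hEE hb₁ hb₂ hk (Fintype.card_fin 5)
    have h0u : ∀ i : Fin 5, ¬ (i = 0) → ∀ x, pd i u x = 0 := by
      intro i hi x
      have : e5 (i.pred hi) = i := Fin.succ_pred i hi
      rw [← this]
      exact hzu _ x
    have hu3 := GS.emb (fun i => i = 0) hu h0u
    have hs3 := dg3 hu3 (by simp) ⟨0, rfl⟩ (fun y => by
      rw [pd_emb _ hu.C1]; exact he _)
    exact Signed.lift (fun i => i = 0) hu.C1 h0u hs3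

section translate

variable {ι : Type} [Fintype ι]

theorem GS.translate {K : ℝ} {u : V ι → ℝ} (hu : GS K u) (a : V ι) :
    GS K fun x => u (x + a) := by
  have h1 : ∀ x, fderiv ℝ (fun x => u (x + a)) x = fderiv ℝ u (x + a) := fun x =>
    fderiv_comp_add_right a
  have h1' : fderiv ℝ (fun x => u (x + a)) = fun x => fderiv ℝ u (x + a) := funext h1
  have h2 : ∀ x, fderiv ℝ (fun x => fderiv ℝ u (x + a)) x = fderiv ℝ (fderiv ℝ u) (x + a) :=
    fun x => fderiv_comp_add_right a
  refine ⟨hu.smooth.comp (contDiff_id.add contDiff_const), fun x => ?_, fun x => hu.bdd _,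
    fun x => ?_, fun x y => ?_, fun x y => ?_⟩
  · rw [lap_translate]; exact hu.eqn _
  · rw [h1]; exact hu.bdd1 _
  · rw [h1, h1]
    have := hu.lip1 (x + a) (y + a)
    rwa [add_sub_add_right_eq_sub] at this
  · rw [h1', h2, h2]
    have := hu.lip2 (x + a) (y + a)
    rwa [add_sub_add_right_eq_sub] at this

theorem Signed.of_translate {u : V ι → ℝ} (a : V ι) (h : Signed fun x => u (x + a)) :
    Signed u := by
  intro b
  have h1 : ∀ x, fderiv ℝ (fun x => u (x + a)) x = fderiv ℝ u (x + a) := fun x =>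
    fderiv_comp_add_right a
  have h2 : ∀ x, fderiv ℝ u x b = fderiv ℝ (fun x => u (x + a)) (x - a) b := by
    intro x; rw [h1, sub_add_cancel]
  rcases h b with h | h | h
  · exact Or.inl fun x => by rw [h2]; exact h _
  · exact Or.inr (Or.inl fun x => by rw [h2]; exact h _)
  · exact Or.inr (Or.inr fun x => by rw [h2]; exact h _)

/-- the derivative of an invariance -/
theorem fderiv_inv {u : V ι → ℝ} (hu : ContDiff ℝ 1 u) (A : V ι ≃ₗᵢ[ℝ] V ι) (a : V ι)
    (hinv : ∀ x, u (A x + a) = u x) (x b : V ι) :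
    fderiv ℝ u (A x + a) (A b) = fderiv ℝ u x b := by
  have h1 : HasFDerivAt (fun x => A x + a) (A.toContinuousLinearEquiv : V ι →L[ℝ] V ι) x :=
    (A.toContinuousLinearEquiv.hasFDerivAt).add_const a
  have h2 := (((hu.differentiable one_ne_zero) (A x + a)).hasFDerivAt.comp x h1).fderiv
  have h3 : u ∘ (fun x => A x + a) = u := funext hinv
  rw [h3] at h2
  rw [h2]
  rfl

/-- if there is a fixed point then the translation part vanishes -/
theorem fix_a {A : V ι ≃ₗᵢ[ℝ] V ι} {a d : V ι} (ha : A a = a) (hd : A d + a = d) : a = 0 := by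
  have h1 : inner ℝ a a = 0 := by
    have h2 : a = d - A d := by rw [eq_sub_iff_add_eq, add_comm]; exact hd
    have h3 : inner ℝ a (A d) = inner ℝ a d := by
      conv_lhs => rw [← ha]
      exact A.inner_map_map a d
    calc inner ℝ a a = inner ℝ a (d - A d) := by rw [← h2]
      _ = 0 := by rw [inner_sub_right, h3, sub_self]
  exact inner_self_eq_zero.1 h1

theorem iterate_shift (g : V ι ≃ᵢ V ι) (A : V ι ≃ₗᵢ[ℝ] V ι) (c : V ι)
    (hg : ∀ x, g (x + c) = A x + 0 + c) (k : ℕ) (x : V ι) :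
    (⇑g)^[k] (x + c) = (⇑A)^[k] x + c := by
  induction k generalizing x with
  | zero => rfl
  | succ k ih =>
    rw [Function.iterate_succ_apply, Function.iterate_succ_apply, hg, add_zero, ih]

end translate

/-- isometries with a fixed point, dimension five, in coordinates -/
theorem hb_fixed {K : ℝ} {u : V (Fin 5) → ℝ} (hu : GS K u) {e : V (Fin 5)}
    (he : ∀ x, 0 < fderiv ℝ u x e) (A : V (Fin 5) ≃ₗᵢ[ℝ] V (Fin 5))
    (hA : ∀ k : ℕ, 0 < k → (⇑A)^[k] ≠ id) (hinv : ∀ x, u (A x) = u x) : Signed u := by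
  have hu1 := hu.C1
  obtain ⟨B, hB0, hskew, hBu, hBfix⟩ := exists_killing A hA hu1 hinv
  obtain ⟨v, hAv, hv⟩ := exists_fixed_mono A (fun x => A x) (fun x b => by
    have := fderiv_inv hu1 A 0 (fun x => by rw [add_zero]; exact hinv x) x b
    rwa [add_zero] at this) he
  have hv0 : v ≠ 0 := by
    rintro rfl
    have := hv 0
    rw [map_zero] at this
    exact lt_irrefl _ this
  obtain ⟨T, c, b, b', hc, hb, hT0, hB1, hB2, hB3, hB4⟩ :=
    skew_normal5 B hB0 hskew hv0 (hBfix v hAv)
  have hGT := GS.isom T hu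
  apply Signed.of_isom T hu1
  refine hb_core hGT (b₁ := b) (b₂ := b') ?_ hb ?_
  · intro x
    unfold pd
    rw [fderiv_isom T hu1, hT0, map_smul, smul_eq_mul]
    exact mul_pos hc (hv _)
  · intro x
    have hTx : T x = x 0 • T (be 0) + x 1 • T (be 1) + x 2 • T (be 2) + x 3 • T (be 3) +
        x 4 • T (be 4) := by
      conv_lhs => rw [sum_be x]
      rw [Fin.sum_univ_five]
      simp only [map_add, map_smul]
    have hBT : B (T x) = (x 1 * b) • T (be 2) - (x 2 * b) • T (be 1) + (x 3 * b') • T (be 4) -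
        (x 4 * b') • T (be 3) := by
      rw [hTx]
      simp only [map_add, map_smul]
      rw [hB1, hB2, hB3, hB4, hT0, map_smul, hBfix v hAv]
      simp only [smul_zero, zero_add, smul_neg, smul_smul]
      abel
    have h1 := hBu (T x)
    rw [hBT] at h1
    simp only [map_add, map_sub, map_smul, smul_eq_mul] at h1
    have h2 : ∀ j : Fin 5, pd j (fun y => u (T y)) x = fderiv ℝ u (T x) (T (be j)) := fun j =>
      fderiv_isom T hu1 x (be j)
    show b * (x 1 * pd 2 (fun y => u (T y)) x - x 2 * pd 1 (fun y => u (T y)) x) +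
      b' * (x 3 * pd 4 (fun y => u (T y)) x - x 4 * pd 3 (fun y => u (T y)) x) = 0
    rw [h2, h2, h2, h2]
    linarith

/-- Theorem HB -/
theorem hb_final {u : V (Fin 5) → ℝ} (hu : ContDiff ℝ 2 u) (hM : ∃ M : ℝ, ∀ x, |u x| ≤ M)
    (heq : ∀ x, Laplacian.laplacian u x + u x - u x ^ 3 = 0) {e : V (Fin 5)}
    (he : ∀ x, 0 < fderiv ℝ u x e) (g : V (Fin 5) ≃ᵢ V (Fin 5))
    (hg : ∀ k : ℕ, 0 < k → (⇑g)^[k] ≠ id) (hfix : ∃ c, g c = c) (hinv : ∀ x, u (g x) = u x) :
    ∀ y ∈ Set.range u, ∃ s : AffineSubspace ℝ (V (Fin 5)),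
      Module.finrank ℝ s.direction = 4 ∧ (s : Set (V (Fin 5))) = u ⁻¹' {y} := by
  obtain ⟨M, hM⟩ := hM
  have hu1 : ContDiff ℝ 1 u := hu.of_le (by norm_num)
  obtain ⟨K, hK⟩ := exists_GS hu hM fun x => by
    rw [lap_eq_laplacian hu]; exact heq x
  obtain ⟨A, a, c, hAa, hgA⟩ := isometry_split g
  obtain ⟨d, hd⟩ := hfix
  have ha : a = 0 := by
    apply fix_a (A := A) (d := d - c) hAa
    have h1 := hgA (d - c)
    rw [sub_add_cancel, hd] at h1
    rw [eq_sub_iff_add_eq]
    exact h1.symm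
  subst ha
  have hA : ∀ k : ℕ, 0 < k → (⇑A)^[k] ≠ id := by
    intro k hk hid
    apply hg k hk
    funext x
    have h1 := iterate_shift g A c hgA k (x - c)
    rw [sub_add_cancel, hid] at h1
    rw [h1]
    simp
  have hs : Signed fun x => u (x + c) := by
    apply hb_fixed (hK.translate c) (e := e) _ A hA
    · intro x
      have h1 := hgA x
      rw [add_zero] at h1
      rw [← h1]
      exact hinv _
    · intro x
      rw [fderiv_comp_add_right]
      exact he _
  intro y hy
  obtain ⟨s, hs1, hs2⟩ := hyper hu1 (Signed.of_translate c hs) he y hy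
  refine ⟨s, ?_, hs2⟩
  rw [Fintype.card_fin] at hs1
  omega

end Pool.Agent.Helper68.DG
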