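import Pool.Agent.Helper68.DG.Base
import Pool.Agent.Helper68.DG.F1
import Pool.Agent.Helper68.DG.Defs3

/-! Project DG (MP_800410_an), piece HC1: mixed rotations -/

open MeasureTheory Metric Set Filter Topology
open scoped ContDiff

namespace Pool.Agent.Helper68.DG

variable {ι : Type} [Fintype ι]

/-- Proof. Lagrange: expand the square and the double sum. -/
theorem cr_eq (S₁ S₂ : Finset ι) (u : V ι → ℝ) (x : V ι) :
    cr S₁ S₂ u x = sq S₁ x * gs S₂ u x + sq S₂ x * gs S₁ u x - 2 * w0 S₁ u x * w0 S₂ u x := by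
  have h1 : sq S₁ x * gs S₂ u x = ∑ i ∈ S₁, ∑ j ∈ S₂, x i ^ 2 * pd j u x ^ 2 := by
    unfold sq gs
    exact Finset.sum_mul_sum _ _ _ _
  have h2 : sq S₂ x * gs S₁ u x = ∑ i ∈ S₁, ∑ j ∈ S₂, pd i u x ^ 2 * x j ^ 2 := by
    unfold sq gs
    rw [mul_comm]
    exact Finset.sum_mul_sum _ _ _ _
  have h3 : w0 S₁ u x * w0 S₂ u x =
      ∑ i ∈ S₁, ∑ j ∈ S₂, (x i * pd i u x) * (x j * pd j u x) := by
    unfold w0
    exact Finset.sum_mul_sum _ _ _ _
  rw [mul_assoc, h1, h2, h3, Finset.mul_sum, ← Finset.sum_add_distrib, ← Finset.sum_sub_distrib]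
  unfold cr
  apply Finset.sum_congr rfl
  intro i _
  rw [Finset.mul_sum, ← Finset.sum_add_distrib, ← Finset.sum_sub_distrib]
  apply Finset.sum_congr rfl
  intro j _
  ring

/-- Proof. `RotInv` gives `x i * w0 S u x = sq S x * pd i u x` for `i ∈ S`; multiply by `pd i u x` and
sum over `i`. -/
theorem w0_sq {S : Finset ι} {u : V ι → ℝ} (h : RotInv S u) (x : V ι) :
    w0 S u x ^ 2 = sq S x * gs S u x := by
  have h1 : sq S x * gs S u x = ∑ i ∈ S, ∑ j ∈ S, x i ^ 2 * pd j u x ^ 2 := by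
    unfold sq gs
    exact Finset.sum_mul_sum _ _ _ _
  have h3 : w0 S u x * w0 S u x = ∑ i ∈ S, ∑ j ∈ S, (x i * pd i u x) * (x j * pd j u x) := by
    unfold w0
    exact Finset.sum_mul_sum _ _ _ _
  rw [pow_two, h1, h3]
  apply Finset.sum_congr rfl
  intro i hi
  apply Finset.sum_congr rfl
  intro j hj
  have h4 := h i hi j hj x
  have h5 : x i ^ 2 * pd j u x ^ 2 = (x i * pd j u x) * (x i * pd j u x) := by ring
  rw [h5]
  nth_rewrite 2 [h4]
  ring

private theorem hc1_cs (S : Finset ι) (u : V ι → ℝ) (x : V ι) :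
    w0 S u x ^ 2 ≤ sq S x * gs S u x := by
  unfold w0 sq gs
  exact Finset.sum_mul_sq_le_sq_mul_sq _ _ _

private theorem hc1_gs_nonneg (S : Finset ι) (u : V ι → ℝ) (x : V ι) : 0 ≤ gs S u x := by
  unfold gs
  exact Finset.sum_nonneg fun i _ => sq_nonneg _

private theorem hc1_real {a b c d v w : ℝ} (ha : 0 ≤ a) (hb : 0 ≤ b) (hc : 0 ≤ c) (hd : 0 ≤ d)
    (h1 : v ^ 2 ≤ a * b) (h2 : w ^ 2 ≤ c * d) : -2 * v * w ≤ a * d + c * b := by
  have h3 : (v * w) ^ 2 ≤ (a * b) * (c * d) := by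
    rw [mul_pow]
    exact mul_le_mul h1 h2 (sq_nonneg _) (mul_nonneg ha hb)
  have h4 : (a * b) * (c * d) ≤ ((a * d + c * b) / 2) ^ 2 := by
    nlinarith [sq_nonneg (a * d - c * b)]
  have h5 : |v * w| ≤ (a * d + c * b) / 2 := by
    apply abs_le_of_sq_le_sq (h3.trans h4)
    have := mul_nonneg ha hd
    have := mul_nonneg hc hb
    linarith
  have h6 := neg_abs_le (v * w)
  linarith

/-- Proof. By `cr_eq` and the inequality of Cauchy and Schwarz (`w0 S u x ^ 2 ≤ sq S x * gs S u x`, for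
all `u`), `cr ≤ (sq S₁ + sq S₂) (gs S₁ + gs S₂) - (w0 S₁ + w0 S₂) ^ 2`. -/
theorem cr_le (S₁ S₂ : Finset ι) (u : V ι → ℝ) (x : V ι) :
    0 ≤ cr S₁ S₂ u x ∧ cr S₁ S₂ u x ≤ 2 * (sq S₁ x * gs S₂ u x + sq S₂ x * gs S₁ u x) ∧
      cr S₁ S₂ u x ≤ (sq S₁ x + sq S₂ x) * (gs S₁ u x + gs S₂ u x) := by
  have h1 := hc1_cs S₁ u x
  have h2 := hc1_cs S₂ u x
  refine ⟨?_, ?_, ?_⟩
  · unfold cr
    exact Finset.sum_nonneg fun i _ => Finset.sum_nonneg fun j _ => sq_nonneg _
  · rw [cr_eq]
    have := hc1_real (f1_sq_nonneg S₁ x) (hc1_gs_nonneg S₁ u x) (f1_sq_nonneg S₂ x)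
      (hc1_gs_nonneg S₂ u x) h1 h2
    linarith
  · rw [cr_eq]
    have := sq_nonneg (w0 S₁ u x + w0 S₂ u x)
    linarith

private theorem hc1_pt {K : ℝ} {u ψ : V ι → ℝ} (hu : GS K u) (hψ : T1 ψ) (i j : ι) (x : V ι) :
    gd (fun y => y i * pd j u y) ψ x =
      gd (pd j u) (fun y => y i * ψ y) x - pd i (pd j u) x * ψ x + pd j u x * pd i ψ x := by
  classical
  have ha := contDiff_pd_one hu.smooth j
  have hc : ContDiff ℝ 1 (fun y : V ι => y i) := f1_coord i
  have hcd : DifferentiableAt ℝ (fun y : V ι => y i) x := (hc.differentiable one_ne_zero) x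
  have had : DifferentiableAt ℝ (pd j u) x := (ha.differentiable one_ne_zero) x
  have hψd : DifferentiableAt ℝ ψ x := (hψ.1.differentiable one_ne_zero) x
  have h1 : gd (fun y => y i * pd j u y) ψ x =
      pd j u x * pd i ψ x + ∑ l, x i * pd l (pd j u) x * pd l ψ x := by
    unfold gd
    have : ∀ l, pd l (fun y => y i * pd j u y) x * pd l ψ x =
        (if i = l then pd j u x * pd i ψ x else 0) + x i * pd l (pd j u) x * pd l ψ x := by
      intro l
      rw [pd_mul hcd had, f1_pd_coord]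
      by_cases h : i = l
      · subst h; simp; ring
      · simp [h]
    simp only [this]
    rw [Finset.sum_add_distrib]
    simp
  have h2 : gd (pd j u) (fun y => y i * ψ y) x =
      pd i (pd j u) x * ψ x + ∑ l, x i * pd l (pd j u) x * pd l ψ x := by
    unfold gd
    have : ∀ l, pd l (pd j u) x * pd l (fun y => y i * ψ y) x =
        (if i = l then pd i (pd j u) x * ψ x else 0) + x i * pd l (pd j u) x * pd l ψ x := by
      intro l
      rw [pd_mul hcd hψd, f1_pd_coord]
      by_cases h : i = l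
      · subst h; simp; ring
      · simp [h]; ring
    simp only [this]
    rw [Finset.sum_add_distrib]
    simp
  rw [h1, h2]
  ring

private theorem hc1_one {K : ℝ} {u ψ : V ι → ℝ} (hu : GS K u) (hψ : T1 ψ) (i j : ι) :
    Integrable (gd (fun y => y i * pd j u y) ψ) ∧
    ∫ x, gd (fun y => y i * pd j u y) ψ x =
      (∫ x, cc u x * (x i * pd j u x) * ψ x) - 2 * ∫ x, pd i (pd j u) x * ψ x := by
  have ha := contDiff_pd_one hu.smooth j
  have hψ' : T1 (fun y : V ι => y i * ψ y) := T1.mul (f1_coord i) hψ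
  have i1 : Integrable (gd (pd j u) (fun y : V ι => y i * ψ y)) := integrable_gd ha hψ'
  have i2 : Integrable (fun x => pd i (pd j u) x * ψ x) :=
    integrable_mul_T1 (continuous_pd ha i) hψ
  have i3 : Integrable (fun x => pd j u x * pd i ψ x) :=
    integrable_cs (ha.continuous.mul (continuous_pd hψ.1 i))
      (hasCompactSupport_pd hψ.2 i).mul_left
  have e : gd (fun y => y i * pd j u y) ψ = fun x =>
      gd (pd j u) (fun y => y i * ψ y) x - pd i (pd j u) x * ψ x + pd j u x * pd i ψ x :=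
    funext fun x => hc1_pt hu hψ i j x
  constructor
  · rw [e]
    exact (i1.sub i2).add i3
  · have h1 := (hu.lin (be j)).2 _ hψ'
    change ∫ x, gd (pd j u) (fun y : V ι => y i * ψ y) x =
      ∫ x, cc u x * pd j u x * (x i * ψ x) at h1
    have s2 : ∫ x, (gd (pd j u) (fun y : V ι => y i * ψ y) x - pd i (pd j u) x * ψ x) =
        (∫ x, gd (pd j u) (fun y : V ι => y i * ψ y) x) - ∫ x, pd i (pd j u) x * ψ x :=
      integral_sub i1 i2
    have s1 : ∫ x, ((gd (pd j u) (fun y : V ι => y i * ψ y) x - pd i (pd j u) x * ψ x) +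
        pd j u x * pd i ψ x) =
        (∫ x, (gd (pd j u) (fun y : V ι => y i * ψ y) x - pd i (pd j u) x * ψ x)) +
          ∫ x, pd j u x * pd i ψ x := integral_add (i1.sub i2) i3
    rw [e]
    change ∫ x, ((gd (pd j u) (fun y : V ι => y i * ψ y) x - pd i (pd j u) x * ψ x) +
        pd j u x * pd i ψ x) = _
    rw [s1, s2, ibp ha hψ i, h1]
    have h2 : (fun x => cc u x * pd j u x * (x i * ψ x)) =
        fun x => cc u x * (x i * pd j u x) * ψ x := by
      funext x
      ring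
    rw [h2]
    ring

/-- Proof. For a test function `ψ`, with `a j = pd j u` (`hu.lin (be j)` for the test function
`y i * ψ y`): `gd (y i * a j) ψ = gd (a j) (y i ψ) - ψ pd i (a j) + a j pd i ψ`, so by integration by
parts (`ibp`) `∫ gd (y i * a j) ψ = ∫ cc u * a j * x i * ψ - 2 ∫ ψ pd i (a j)`. Antisymmetrise in `i, j`
and use the symmetry `pd i (pd j u) = pd j (pd i u)` (Base). -/
theorem lin_rot {K : ℝ} {u : V ι → ℝ} (hu : GS K u) (i j : ι) :
    Lin u fun x => x i * pd j u x - x j * pd i u x := by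
  have hi : ContDiff ℝ 1 (fun y : V ι => y i * pd j u y) :=
    (f1_coord i).mul (contDiff_pd_one hu.smooth j)
  have hj : ContDiff ℝ 1 (fun y : V ι => y j * pd i u y) :=
    (f1_coord j).mul (contDiff_pd_one hu.smooth i)
  refine ⟨hi.sub hj, ?_⟩
  intro ψ hψ
  obtain ⟨i1, e1⟩ := hc1_one hu hψ i j
  obtain ⟨i2, e2⟩ := hc1_one hu hψ j i
  have h1 : ∀ x, gd (fun x : V ι => x i * pd j u x - x j * pd i u x) ψ x =
      gd (fun y => y i * pd j u y) ψ x - gd (fun y => y j * pd i u y) ψ x := by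
    intro x
    unfold gd
    rw [← Finset.sum_sub_distrib]
    apply Finset.sum_congr rfl
    intro l _
    rw [pd_sub ((hi.differentiable one_ne_zero) x) ((hj.differentiable one_ne_zero) x)]
    ring
  have h2 : ∀ x, pd j (pd i u) x = pd i (pd j u) x := fun x => pd_comm hu.smooth j i x
  have hcc : Continuous (cc u) := continuous_cc hu.smooth.continuous
  have i3 : Integrable (fun x => cc u x * (x i * pd j u x) * ψ x) :=
    integrable_mul_T1 (hcc.mul hi.continuous) hψ
  have i4 : Integrable (fun x => cc u x * (x j * pd i u x) * ψ x) :=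
    integrable_mul_T1 (hcc.mul hj.continuous) hψ
  simp only [h1]
  rw [integral_sub i1 i2, e1, e2]
  simp only [h2]
  have h3 : (fun x => cc u x * (x i * pd j u x - x j * pd i u x) * ψ x) =
      fun x => cc u x * (x i * pd j u x) * ψ x - cc u x * (x j * pd i u x) * ψ x := by
    funext x
    ring
  rw [h3, integral_sub i3 i4]
  ring

end Pool.Agent.Helper68.DG
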