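import Pool.Agent.Helper68.DG.Base
import Pool.Agent.Helper68.DG.F1
import Pool.Agent.Helper68.DG.Defs3
import Pool.Agent.Helper68.DG.HC1

/-! Project DG (MP_800410_an), piece HC2: the inequality for mixed rotations away from the axes -/

open MeasureTheory Metric Set Filter Topology
open scoped ContDiff

namespace Pool.Agent.Helper68.DG

variable {ι : Type} [Fintype ι]

theorem hc2_energy {u a ξ : V ι → ℝ} (ha : Lin u a) (hξ : T1 ξ) :
    ∫ x, gd (fun y => a y * ξ y) (fun y => a y * ξ y) x =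
      (∫ x, cc u x * (a x * ξ x) ^ 2) + ∫ x, a x ^ 2 * gd ξ ξ x := by
  have hψ : T1 (fun y => a y * (ξ y * ξ y)) := T1.mul ha.1 (T1.mul hξ.1 hξ)
  have h1 := ha.2 _ hψ
  have h2 : ∫ x, gd a (fun y => a y * (ξ y * ξ y)) x = ∫ x, cc u x * (a x * ξ x) ^ 2 := by
    refine Eq.trans h1 ?_
    congr 1
    funext x
    ring
  rw [← h2, ← integral_add]
  · congr 1
    funext x
    exact f1_gd_mul ha.1 hξ.1 x
  · exact integrable_gd ha.1 hψ
  · exact integrable_cs ((ha.1.continuous.pow 2).mul (continuous_gd hξ.1 hξ.1))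
      (hasCompactSupport_gd hξ.2).mul_left

/-- the combination of a family `Z i`, `i ∈ S`, of test functions -/
noncomputable def hc2_comb (S : Finset ι) (Z : ι → V ι → ℝ) (y : V ι) : ℝ :=
  (∑ i ∈ S, y i * Z i y) / √(sq S y)

/-- one step of the reduction -/
theorem hc2_step {S : Finset ι} {Z : ι → V ι → ℝ} {A : Set (V ι)} (hZ : ∀ i ∈ S, T1 (Z i))
    (h0 : ∀ x ∈ A, sq S x ≠ 0) (hA : ∀ x, x ∉ A → ∀ i ∈ S, Z i =ᶠ[𝓝 x] fun _ => 0)
    (hrel : ∀ i ∈ S, ∀ j ∈ S, ∀ y : V ι, y j * Z i y = y i * Z j y) :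
    T1 (hc2_comb S Z) ∧ (∀ x, x ∉ A → hc2_comb S Z =ᶠ[𝓝 x] fun _ => 0) ∧
      (∀ x, hc2_comb S Z x ^ 2 = ∑ i ∈ S, Z i x ^ 2) ∧
      (∀ x, ∑ i ∈ S, gd (Z i) (Z i) x = gd (hc2_comb S Z) (hc2_comb S Z) x +
        ((S.card : ℝ) - 1) * (hc2_comb S Z x ^ 2 / sq S x)) := by
  classical
  have dZ : ∀ i ∈ S, ∀ x, DifferentiableAt ℝ (Z i) x :=
    fun i hi x => ((hZ i hi).1.differentiable one_ne_zero) x
  have dc : ∀ (i : ι) (x : V ι), DifferentiableAt ℝ (fun y : V ι => y i) x :=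
    fun i x => ((f1_coord (n := 1) i).differentiable one_ne_zero) x
  set N : V ι → ℝ := fun y => ∑ i ∈ S, y i * Z i y with hN
  have hNC : ContDiff ℝ 1 N := ContDiff.sum fun i hi => (f1_coord i).mul (hZ i hi).1
  set ζ : V ι → ℝ := hc2_comb S Z with hζdef
  have ζe : ∀ y, ζ y = N y / √(sq S y) := fun y => rfl
  have houtζ : ∀ x, x ∉ A → ζ =ᶠ[𝓝 x] fun _ => 0 := by
    intro x hx
    have h1 : ∀ᶠ y in 𝓝 x, ∀ i ∈ S, Z i y = 0 := by
      rw [Filter.eventually_all_finset]
      exact fun i hi => hA x hx i hi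
    filter_upwards [h1] with y hy
    rw [ζe, hN]
    simp only
    rw [Finset.sum_eq_zero fun i hi => by rw [hy i hi, mul_zero], zero_div]
  have hζC : ContDiff ℝ 1 ζ := by
    rw [contDiff_iff_contDiffAt]
    intro x
    by_cases hx : x ∈ A
    · have hs := h0 x hx
      have hs' : 0 < sq S x := lt_of_le_of_ne (f1_sq_nonneg S x) (Ne.symm hs)
      exact hNC.contDiffAt.div ((f1_contDiff_sq S).contDiffAt.sqrt hs)
        (Real.sqrt_pos.mpr hs').ne'
    · exact contDiffAt_const.congr_of_eventuallyEq (houtζ x hx)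
  have hNS : HasCompactSupport N := by
    have h1 : ∀ T : Finset ι, T ⊆ S → HasCompactSupport fun y : V ι => ∑ i ∈ T, y i * Z i y := by
      intro T
      induction T using Finset.induction_on with
      | empty =>
        intro _
        simp only [Finset.sum_empty]
        exact HasCompactSupport.zero
      | insert a T ha ih =>
        intro hT
        simp only [Finset.sum_insert ha]
        exact ((hZ a (hT (Finset.mem_insert_self a T))).2.mul_left).add
          (ih fun i hi => hT (Finset.mem_insert_of_mem hi))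
    exact h1 S (Finset.Subset.refl S)
  have hζS : HasCompactSupport ζ := by
    apply hNS.mono
    intro y hy
    rw [Function.mem_support] at hy ⊢
    intro h
    apply hy
    rw [ζe, h, zero_div]
  have hζ : T1 ζ := ⟨hζC, hζS⟩
  have relN : ∀ i ∈ S, ∀ y, y i * N y = sq S y * Z i y := by
    intro i hi y
    simp only [hN, sq, Finset.mul_sum, Finset.sum_mul]
    apply Finset.sum_congr rfl
    intro j hj
    have := hrel i hi j hj y
    linear_combination (-y j) * this
  have relD : ∀ (x : V ι) (l : ι), ∀ i ∈ S, ∀ j ∈ S,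
      (if j = l then 1 else 0) * Z i x + x j * pd l (Z i) x =
      (if i = l then 1 else 0) * Z j x + x i * pd l (Z j) x := by
    intro x l i hi j hj
    have h1 := pd_mul (dc j x) (dZ i hi x) l
    have h2 := pd_mul (dc i x) (dZ j hj x) l
    rw [f1_pd_coord] at h1 h2
    rw [← h1, ← h2]
    have h3 : (fun y : V ι => y j * Z i y) = fun y : V ι => y i * Z j y :=
      funext fun y => hrel i hi j hj y
    rw [h3]
  have sqζ : ∀ x, ζ x ^ 2 = ∑ i ∈ S, Z i x ^ 2 := by
    intro x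
    by_cases hx : x ∈ A
    · have hs := h0 x hx
      have hs' : 0 < sq S x := lt_of_le_of_ne (f1_sq_nonneg S x) (Ne.symm hs)
      have h1 : sq S x * ∑ i ∈ S, Z i x ^ 2 = N x ^ 2 := by
        have h2 : N x ^ 2 = ∑ i ∈ S, (x i * N x) * Z i x := by
          have : N x = ∑ i ∈ S, x i * Z i x := rfl
          rw [pow_two]
          nth_rewrite 2 [this]
          rw [Finset.mul_sum]
          apply Finset.sum_congr rfl
          intro i _
          ring
        rw [h2, Finset.mul_sum]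
        apply Finset.sum_congr rfl
        intro i hi
        rw [relN i hi x]
        ring
      have h3 : ζ x ^ 2 = N x ^ 2 / sq S x := by
        rw [ζe, div_pow, Real.sq_sqrt hs'.le]
      rw [h3, ← h1]
      field_simp
    · have h1 := (houtζ x hx).eq_of_nhds
      rw [h1]
      symm
      simp only [ne_eq, OfNat.ofNat_ne_zero, not_false_eq_true, zero_pow]
      apply Finset.sum_eq_zero
      intro i hi
      rw [(hA x hx i hi).eq_of_nhds]
      simp
  have pdζ : ∀ x ∈ A, ∀ l, sq S x * pd l ζ x ^ 2 =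
      (∑ i ∈ S, x i * pd l (Z i) x) ^ 2 := by
    intro x hx l
    have hs := h0 x hx
    have hs' : 0 < sq S x := lt_of_le_of_ne (f1_sq_nonneg S x) (Ne.symm hs)
    have dsq : DifferentiableAt ℝ (sq S) x :=
      ((f1_contDiff_sq (n := 1) S).differentiable one_ne_zero) x
    have dρ : DifferentiableAt ℝ (fun y => √(sq S y)) x := dsq.sqrt hs
    have dζ : DifferentiableAt ℝ ζ x := (hζC.differentiable one_ne_zero) x
    have hρ : 0 < √(sq S x) := Real.sqrt_pos.mpr hs'
    have ev : (fun y => ζ y * √(sq S y)) =ᶠ[𝓝 x] N := by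
      have : ∀ᶠ y in 𝓝 x, 0 < sq S y :=
        (f1_contDiff_sq (n := 1) S).continuous.continuousAt.eventually (lt_mem_nhds hs')
      filter_upwards [this] with y hy
      rw [ζe, div_mul_cancel₀]
      exact (Real.sqrt_pos.mpr hy).ne'
    have h1 : pd l ζ x * √(sq S x) + ζ x * pd l (fun y => √(sq S y)) x = pd l N x := by
      rw [← pd_mul dζ dρ l]
      exact f1_pd_congr ev l
    have h2 : pd l N x = (if l ∈ S then Z l x else 0) + ∑ i ∈ S, x i * pd l (Z i) x := by
      have e1 : pd l N x = ∑ i ∈ S, pd l (fun y : V ι => y i * Z i y) x :=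
        f1_pd_sum (fun i hi => (dc i x).mul (dZ i hi x)) l
      rw [e1]
      have e2 : ∀ i ∈ S, pd l (fun y : V ι => y i * Z i y) x =
          (if i = l then Z l x else 0) + x i * pd l (Z i) x := by
        intro i hi
        rw [pd_mul (dc i x) (dZ i hi x), f1_pd_coord]
        by_cases h : i = l
        · subst h; simp
        · simp [h]
      rw [Finset.sum_congr rfl e2, Finset.sum_add_distrib, Finset.sum_ite_eq']
    have h3 : 2 * √(sq S x) * pd l (fun y => √(sq S y)) x = if l ∈ S then 2 * x l else 0 := by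
      have e1 : pd l (fun y => √(sq S y) * √(sq S y)) x = pd l (sq S) x := by
        apply f1_pd_congr
        filter_upwards with y
        exact Real.mul_self_sqrt (f1_sq_nonneg S y)
      rw [pd_mul dρ dρ, f1_pd_sq] at e1
      linarith
    have h4 : √(sq S x) * √(sq S x) = sq S x := Real.mul_self_sqrt hs'.le
    have h5 : ζ x * √(sq S x) = N x := ev.eq_of_nhds
    have h6 : √(sq S x) * pd l ζ x = ∑ i ∈ S, x i * pd l (Z i) x := by
      by_cases hl : l ∈ S
      · simp only [hl, if_true] at h2 h3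
        have h7 := relN l hl x
        have h8 : ζ x * pd l (fun y => √(sq S y)) x = Z l x := by
          have h9 : sq S x * (ζ x * pd l (fun y => √(sq S y)) x) = sq S x * Z l x := by
            rw [← h7, ← h5]
            have h10 : √(sq S x) * pd l (fun y => √(sq S y)) x = x l := by linarith
            linear_combination (-(ζ x * pd l (fun y => √(sq S y)) x)) * h4 +
              (√(sq S x) * ζ x) * h10
          exact mul_left_cancel₀ hs h9
        linarith
      · simp only [hl, if_false] at h2 h3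
        have h8 : pd l (fun y => √(sq S y)) x = 0 := by
          have : √(sq S x) * pd l (fun y => √(sq S y)) x = 0 := by linarith
          rcases mul_eq_zero.mp this with h | h
          · exact absurd h hρ.ne'
          · exact h
        rw [h8] at h1
        linarith
    rw [← h6, mul_pow, pow_two √(sq S x), h4]
  refine ⟨hζ, houtζ, sqζ, ?_⟩
  intro x
  by_cases hx : x ∈ A
  · have hs := h0 x hx
    have hs' : 0 < sq S x := lt_of_le_of_ne (f1_sq_nonneg S x) (Ne.symm hs)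
    have h1 := f1_alg S (fun i => x i) (fun i => Z i x) (fun l i => pd l (Z i) x)
      (relD x)
    have h2 : ∑ l, (∑ i ∈ S, x i * pd l (Z i) x) ^ 2 = sq S x * gd ζ ζ x := by
      unfold gd
      rw [Finset.mul_sum]
      apply Finset.sum_congr rfl
      intro l _
      rw [← pdζ x hx l]
      ring
    have h3 : ∑ i ∈ S, ∑ l, pd l (Z i) x ^ 2 = ∑ i ∈ S, gd (Z i) (Z i) x := by
      apply Finset.sum_congr rfl
      intro i _
      unfold gd
      apply Finset.sum_congr rfl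
      intro l _
      ring
    have h5 : ∑ i ∈ S, x i ^ 2 = sq S x := rfl
    rw [h5, h2, h3, ← sqζ x] at h1
    have h6 : sq S x * (∑ i ∈ S, gd (Z i) (Z i) x) =
        sq S x * (gd ζ ζ x + ((S.card : ℝ) - 1) * (ζ x ^ 2 / sq S x)) := by
      have h7 : sq S x * (gd ζ ζ x + ((S.card : ℝ) - 1) * (ζ x ^ 2 / sq S x)) =
          sq S x * gd ζ ζ x + ((S.card : ℝ) - 1) * ζ x ^ 2 := by
        field_simp
      rw [h7]
      exact h1
    exact mul_left_cancel₀ hs h6
  · have h2 : ∀ i ∈ S, ∀ l, pd l (Z i) x = 0 := by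
      intro i hi l
      rw [f1_pd_congr (hA x hx i hi) l]
      simp [pd]
    have h3 : ∀ l, pd l ζ x = 0 := by
      intro l
      rw [f1_pd_congr (houtζ x hx) l]
      simp [pd]
    have h4 : ζ x = 0 := (houtζ x hx).eq_of_nhds
    have h5 : ∑ i ∈ S, gd (Z i) (Z i) x = 0 := by
      apply Finset.sum_eq_zero
      intro i hi
      simp [gd, h2 i hi]
    rw [h5, h4]
    simp [gd, h3]

/-- Proof. As `b1_away` in F1 (same file layout; the lemmas `f1_...` can be used). Let
`F i j y = y i * pd j u y - y j * pd i u y` (`i ∈ S₁`, `j ∈ S₂`), `Z i j = F i j * ξ`,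
`N j y = ∑ i ∈ S₁, y i * Z i j y`, `ζ j = N j / √(sq S₁)` and
`ζ = (∑ j ∈ S₂, y j * ζ j) / √(sq S₂)`, which are `C¹` with compact support. By `RotInv S₁ u`,
`y k * Z i j = y i * Z k j` for `i, k ∈ S₁` and all `j`, and by `RotInv S₂ u`,
`y k * Z i j = y j * Z i k` for `j, k ∈ S₂` and all `i`; so also `y k * ζ j = y j * ζ k` for
`j, k ∈ S₂`. As in F1 (`f1_alg`, with the differentiated relations) for fixed `j`, where `sq S₁ ≠ 0`:
`∑ i ∈ S₁, gd (Z i j) (Z i j) = gd (ζ j) (ζ j) + (ζ j) ^ 2 * (|S₁| - 1) / sq S₁` and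
`∑ i ∈ S₁, (Z i j) ^ 2 = (ζ j) ^ 2`; and the same step for the family `ζ j`, `j ∈ S₂`:
`∑ j ∈ S₂, gd (ζ j) (ζ j) = gd ζ ζ + ζ ^ 2 * (|S₂| - 1) / sq S₂`, `∑ j ∈ S₂, (ζ j) ^ 2 = ζ ^ 2`. Hence
`∑ i j, gd (Z i j) (Z i j) = gd ζ ζ + ζ ^ 2 ((|S₁| - 1) / sq S₁ + (|S₂| - 1) / sq S₂)` and
`ζ ^ 2 = cr S₁ S₂ u * ξ ^ 2`. By `lin_rot` (as in `f1_energy`; `ib2_energy` in IB2 is stated for a general
`Lin u a`) `∫ gd (Z i j) (Z i j) = ∫ cc u * (Z i j) ^ 2 + ∫ (F i j) ^ 2 * gd ξ ξ`; sum over `i, j` and use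
stability for `ζ`. -/
theorem rot_away {K : ℝ} {u ξ : V ι → ℝ} {S₁ S₂ : Finset ι} (hu : GS K u) (hst : Stab u)
    (hr₁ : RotInv S₁ u) (hr₂ : RotInv S₂ u) (hd : Disjoint S₁ S₂) (hξ : T1 ξ)
    (h₁ : ∀ x ∈ tsupport ξ, sq S₁ x ≠ 0) (h₂ : ∀ x ∈ tsupport ξ, sq S₂ x ≠ 0) :
    ∫ x, cr S₁ S₂ u x * (((S₁.card : ℝ) - 1) / sq S₁ x + ((S₂.card : ℝ) - 1) / sq S₂ x) * ξ x ^ 2 ≤
      ∫ x, cr S₁ S₂ u x * gd ξ ξ x := by
  classical
  set F : ι → ι → V ι → ℝ := fun i j y => y i * pd j u y - y j * pd i u y with hF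
  have hLin : ∀ i j, Lin u (F i j) := fun i j => lin_rot hu i j
  set Z : ι → ι → V ι → ℝ := fun j i y => F i j y * ξ y with hZdef
  have hZ : ∀ j i, T1 (Z j i) := fun j i => T1.mul (hLin i j).1 hξ
  have hout : ∀ x, x ∉ tsupport ξ → ξ =ᶠ[𝓝 x] 0 := fun x hx =>
    notMem_tsupport_iff_eventuallyEq.mp hx
  have houtZ : ∀ j x, x ∉ tsupport ξ → ∀ i ∈ S₁, Z j i =ᶠ[𝓝 x] fun _ => 0 := by
    intro j x hx i _
    filter_upwards [hout x hx] with y hy
    simp [hZdef, hy]
  have rel1 : ∀ j, ∀ i ∈ S₁, ∀ k ∈ S₁, ∀ y : V ι, y k * Z j i y = y i * Z j k y := by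
    intro j i hi k hk y
    have := hr₁ i hi k hk y
    simp only [hZdef, hF]
    linear_combination (y j * ξ y) * this
  have rel2 : ∀ i, ∀ j ∈ S₂, ∀ k ∈ S₂, ∀ y : V ι, y k * Z j i y = y j * Z k i y := by
    intro i j hj k hk y
    have := hr₂ j hj k hk y
    simp only [hZdef, hF]
    linear_combination (-y i * ξ y) * this
  have st1 := fun j => hc2_step (S := S₁) (Z := Z j) (A := tsupport ξ) (fun i _ => hZ j i) h₁
    (houtZ j) (rel1 j)
  set W : ι → V ι → ℝ := fun j => hc2_comb S₁ (Z j) with hW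
  have rel3 : ∀ j ∈ S₂, ∀ k ∈ S₂, ∀ y : V ι, y k * W j y = y j * W k y := by
    intro j hj k hk y
    simp only [hW, hc2_comb]
    rw [← mul_div_assoc, ← mul_div_assoc, Finset.mul_sum, Finset.mul_sum]
    congr 1
    apply Finset.sum_congr rfl
    intro i _
    have := rel2 i j hj k hk y
    linear_combination (y i) * this
  have st2 := hc2_step (S := S₂) (Z := W) (A := tsupport ξ) (fun j _ => (st1 j).1) h₂
    (fun x hx j _ => (st1 j).2.1 x hx) rel3
  set ζ : V ι → ℝ := hc2_comb S₂ W with hζdef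
  obtain ⟨hζ, houtζ, sqζ, gdζ⟩ := st2
  -- the squares
  have sqζ' : ∀ x, ζ x ^ 2 = ∑ j ∈ S₂, ∑ i ∈ S₁, Z j i x ^ 2 := by
    intro x
    rw [sqζ x]
    exact Finset.sum_congr rfl fun j _ => (st1 j).2.2.1 x
  have crζ : ∀ x, ζ x ^ 2 = cr S₁ S₂ u x * ξ x ^ 2 := by
    intro x
    rw [sqζ' x, Finset.sum_comm]
    unfold cr
    rw [Finset.sum_mul]
    refine Finset.sum_congr rfl fun i _ => ?_
    rw [Finset.sum_mul]
    refine Finset.sum_congr rfl fun j _ => ?_
    simp only [hZdef, hF]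
    ring
  have pw : ∀ x, (∑ j ∈ S₂, ∑ i ∈ S₁, gd (Z j i) (Z j i) x) - gd ζ ζ x =
      cr S₁ S₂ u x * (((S₁.card : ℝ) - 1) / sq S₁ x + ((S₂.card : ℝ) - 1) / sq S₂ x) *
        ξ x ^ 2 := by
    intro x
    rw [Finset.sum_congr rfl fun j _ => (st1 j).2.2.2 x, Finset.sum_add_distrib]
    have h1 : ∑ j ∈ S₂, gd (hc2_comb S₁ (Z j)) (hc2_comb S₁ (Z j)) x =
        gd ζ ζ x + ((S₂.card : ℝ) - 1) * (ζ x ^ 2 / sq S₂ x) := gdζ x
    have h2 : ∑ j ∈ S₂, ((S₁.card : ℝ) - 1) * (hc2_comb S₁ (Z j) x ^ 2 / sq S₁ x) =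
        ((S₁.card : ℝ) - 1) * (ζ x ^ 2 / sq S₁ x) := by
      rw [← Finset.mul_sum, ← Finset.sum_div]
      have : ∑ j ∈ S₂, hc2_comb S₁ (Z j) x ^ 2 = ζ x ^ 2 := (sqζ x).symm
      rw [this]
    rw [h1, h2, crζ x]
    ring
  -- the integrals
  have iZ : ∀ j i, Integrable (gd (Z j i) (Z j i)) := fun j i => integrable_gd (hZ j i).1 (hZ j i)
  have I1 : ∫ x, ((∑ j ∈ S₂, ∑ i ∈ S₁, gd (Z j i) (Z j i) x) - gd ζ ζ x) =
      (∑ j ∈ S₂, ∑ i ∈ S₁, ∫ x, gd (Z j i) (Z j i) x) - ∫ x, gd ζ ζ x := by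
    rw [integral_sub (integrable_finsetSum _ fun j _ => integrable_finsetSum _ fun i _ => iZ j i)
      (integrable_gd hζ.1 hζ),
      integral_finsetSum _ fun j _ => integrable_finsetSum _ fun i _ => iZ j i]
    congr 1
    exact Finset.sum_congr rfl fun j _ => integral_finsetSum _ fun i _ => iZ j i
  have ic : ∀ j i, Integrable fun x => cc u x * Z j i x ^ 2 := by
    intro j i
    have h1 : (fun x => cc u x * Z j i x ^ 2) = fun x => (cc u x * Z j i x) * Z j i x := by
      funext x; ring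
    rw [h1]
    exact integrable_mul_T1 ((continuous_cc hu.C1.continuous).mul (hZ j i).1.continuous) (hZ j i)
  have ig : ∀ j i, Integrable fun x => F i j x ^ 2 * gd ξ ξ x := by
    intro j i
    exact integrable_cs (((hLin i j).1.continuous.pow 2).mul (continuous_gd hξ.1 hξ.1))
      (hasCompactSupport_gd hξ.2).mul_left
  have I2 : ∑ j ∈ S₂, ∑ i ∈ S₁, ∫ x, gd (Z j i) (Z j i) x =
      (∫ x, cc u x * ζ x ^ 2) + ∫ x, cr S₁ S₂ u x * gd ξ ξ x := by
    have e1 : ∀ j i, ∫ x, gd (Z j i) (Z j i) x =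
        (∫ x, cc u x * Z j i x ^ 2) + ∫ x, F i j x ^ 2 * gd ξ ξ x :=
      fun j i => hc2_energy (hLin i j) hξ
    have e2 : ∑ j ∈ S₂, ∑ i ∈ S₁, ∫ x, cc u x * Z j i x ^ 2 = ∫ x, cc u x * ζ x ^ 2 := by
      rw [Finset.sum_congr rfl fun j _ => (integral_finsetSum _ fun i _ => ic j i).symm,
        ← integral_finsetSum _ fun j _ => integrable_finsetSum _ fun i _ => ic j i]
      congr 1
      funext x
      rw [sqζ' x, Finset.mul_sum]
      exact Finset.sum_congr rfl fun j _ => (Finset.mul_sum _ _ _).symm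
    have e3 : ∑ j ∈ S₂, ∑ i ∈ S₁, ∫ x, F i j x ^ 2 * gd ξ ξ x =
        ∫ x, cr S₁ S₂ u x * gd ξ ξ x := by
      rw [Finset.sum_congr rfl fun j _ => (integral_finsetSum _ fun i _ => ig j i).symm,
        ← integral_finsetSum _ fun j _ => integrable_finsetSum _ fun i _ => ig j i]
      congr 1
      funext x
      rw [Finset.sum_comm]
      unfold cr
      rw [Finset.sum_mul]
      refine Finset.sum_congr rfl fun i _ => ?_
      rw [Finset.sum_mul]
    rw [← e2, ← e3, ← Finset.sum_add_distrib]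
    refine Finset.sum_congr rfl fun j _ => ?_
    rw [← Finset.sum_add_distrib]
    exact Finset.sum_congr rfl fun i _ => e1 j i
  have I3 := hst ζ hζ
  have I4 : ∫ x, ((∑ j ∈ S₂, ∑ i ∈ S₁, gd (Z j i) (Z j i) x) - gd ζ ζ x) =
      ∫ x, cr S₁ S₂ u x * (((S₁.card : ℝ) - 1) / sq S₁ x + ((S₂.card : ℝ) - 1) / sq S₂ x) *
        ξ x ^ 2 := by
    congr 1
    funext x
    exact pw x
  rw [← I4, I1, I2]
  linarith

end Pool.Agent.Helper68.DG
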