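import Pool.Agent.Helper68.DG.Base
import Pool.Agent.Helper68.DG.F2
import Pool.Agent.Helper68.DG.Defs3
import Pool.Agent.Helper68.DG.HC1
import Pool.Agent.Helper68.DG.HC2

/-! Project DG (MP_800410_an), piece HC3: the inequality for mixed rotations -/

open MeasureTheory Metric Set Filter Topology
open scoped ContDiff

namespace Pool.Agent.Helper68.DG

variable {ι : Type} [Fintype ι]

theorem hc3_cr_continuous {K : ℝ} {u : V ι → ℝ} (hu : GS K u) (S₁ S₂ : Finset ι) :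
    Continuous (cr S₁ S₂ u) := by
  unfold cr
  refine continuous_finsetSum _ fun i _ => continuous_finsetSum _ fun j _ => ?_
  exact ((((f1_coord (n := 1) i).continuous).mul (continuous_pd hu.C1 j)).sub
    (((f1_coord (n := 1) j).continuous).mul (continuous_pd hu.C1 i))).pow 2

theorem hc3_cr_le {K : ℝ} {u : V ι → ℝ} {S₁ S₂ : Finset ι} (hu : GS K u)
    (hr₁ : RotInv S₁ u) (hr₂ : RotInv S₂ u) (hc₁ : 2 ≤ S₁.card) (hc₂ : 2 ≤ S₂.card) (x : V ι) :
    cr S₁ S₂ u x ≤ 2 * ((S₁.card : ℝ) * K ^ 2 + (S₂.card : ℝ) * K ^ 2) * (sq S₁ x * sq S₂ x) := by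
  refine (cr_le S₁ S₂ u x).2.1.trans ?_
  have h1 := mul_le_mul_of_nonneg_left (gs_le hu hr₁ hc₁ x) (f1_sq_nonneg S₂ x)
  have h2 := mul_le_mul_of_nonneg_left (gs_le hu hr₂ hc₂ x) (f1_sq_nonneg S₁ x)
  nlinarith

theorem hc3_tsupport (S : Finset ι) (n : ℕ) (g : V ι → ℝ) (x : V ι)
    (hx : x ∈ tsupport (fun y => f2_chi S n y * g y)) : sq S x ≠ 0 := by
  intro h0
  have hsq : Continuous (sq S : V ι → ℝ) := (f1_contDiff_sq (n := 1) S).continuous
  have h2 : (n : ℝ) * sq S x < 1 := by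
    rw [h0, mul_zero]
    exact one_pos
  have h3 : ∀ᶠ y in 𝓝 x, (n : ℝ) * sq S y < 1 :=
    (continuous_const.mul hsq).continuousAt.eventually (gt_mem_nhds h2)
  have h4 : (fun y => f2_chi S n y * g y) =ᶠ[𝓝 x] 0 := by
    filter_upwards [h3] with y hy
    have h5 : f2_chi S n y = 0 := Real.smoothTransition.zero_of_nonpos (by linarith)
    rw [h5, zero_mul]
    rfl
  exact (notMem_tsupport_iff_eventuallyEq.mpr h4) hx

/-- the term of the gradient of the cutoff -/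
theorem hc3_gd_chi {D : ℝ} (hD : ∀ t, |deriv Real.smoothTransition t| ≤ D)
    (hD1 : ∀ t, 1 < t → deriv Real.smoothTransition t = 0) (S : Finset ι) (n : ℕ) (x : V ι)
    {c M s : ℝ} (hM : 0 ≤ M) (hs : 0 ≤ s) (hc0 : 0 ≤ c) (hc : c ≤ M * (sq S x * s)) :
    c * gd (f2_chi S n) (f2_chi S n) x ≤ 16 * M * D ^ 2 * s := by
  classical
  have hsq := f1_sq_nonneg S x
  rw [f2_gd_chi]
  rcases lt_or_ge 1 ((n : ℝ) * sq S x - 1) with h6 | h6
  · rw [hD1 _ h6]
    have : 0 ≤ 16 * M * D ^ 2 * s := by positivity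
    simpa using this
  · have h7 : deriv Real.smoothTransition ((n : ℝ) * sq S x - 1) ^ 2 ≤ D ^ 2 := by
      rw [← sq_abs]
      exact pow_le_pow_left₀ (abs_nonneg _) (hD _) 2
    have h11 : 0 ≤ (n : ℝ) * sq S x := mul_nonneg (Nat.cast_nonneg n) hsq
    have h12 : ((n : ℝ) * sq S x) ^ 2 ≤ 4 := by nlinarith
    have h10 : 0 ≤ 4 * (n : ℝ) ^ 2 * sq S x := by positivity
    have h8 : c * (4 * (n : ℝ) ^ 2 * sq S x) ≤ 16 * M * s := by
      refine (mul_le_mul_of_nonneg_right hc h10).trans ?_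
      have h13 : M * (sq S x * s) * (4 * (n : ℝ) ^ 2 * sq S x) =
          4 * (M * s) * ((n : ℝ) * sq S x) ^ 2 := by ring
      rw [h13]
      have h14 : 0 ≤ 4 * (M * s) := by positivity
      calc 4 * (M * s) * ((n : ℝ) * sq S x) ^ 2 ≤ 4 * (M * s) * 4 :=
            mul_le_mul_of_nonneg_left h12 h14
        _ = 16 * M * s := by ring
    have h14 : 0 ≤ c * (4 * (n : ℝ) ^ 2 * sq S x) := mul_nonneg hc0 h10
    calc c * (deriv Real.smoothTransition ((n : ℝ) * sq S x - 1) ^ 2 *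
        (4 * (n : ℝ) ^ 2 * sq S x)) =
        (c * (4 * (n : ℝ) ^ 2 * sq S x)) *
          deriv Real.smoothTransition ((n : ℝ) * sq S x - 1) ^ 2 := by ring
      _ ≤ 16 * M * s * D ^ 2 := mul_le_mul h8 h7 (sq_nonneg _) (by positivity)
      _ = 16 * M * D ^ 2 * s := by ring

/-- Proof. As `b1` in F2 (which can be copied; the lemmas `f2_...` can be used): apply `rot_away` to
`χ n * ξ`, where `χ n = f2_chi S₁ n * f2_chi S₂ n`, and let `n → ∞`. Here `f2_chi S c` is `0` where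
`c * sq S ≤ 1`, `1` where `c * sq S ≥ 2`, and `gd (f2_chi S c) (f2_chi S c) ≤ C c` (`f2_gd_chi`). By
`gs_le`, `gs S₁ u ≤ |S₁| K ^ 2 sq S₁` and the same for `S₂`, so by `cr_le`
`cr ≤ 2 (|S₁| + |S₂|) K ^ 2 sq S₁ sq S₂`; hence `cr / sq S₁` and `cr / sq S₂` are bounded on the support
of `ξ` and so are `cr * gd (χ n) (χ n)`, and the latter tends to `0` at all points with `sq S₁ ≠ 0`,
`sq S₂ ≠ 0`, and vanishes at the other points. -/
theorem rot_ineq {K : ℝ} {u ξ : V ι → ℝ} {S₁ S₂ : Finset ι} (hu : GS K u) (hst : Stab u)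
    (hr₁ : RotInv S₁ u) (hr₂ : RotInv S₂ u) (hd : Disjoint S₁ S₂) (hc₁ : 2 ≤ S₁.card)
    (hc₂ : 2 ≤ S₂.card) (hξ : T1 ξ) :
    ∫ x, cr S₁ S₂ u x * (((S₁.card : ℝ) - 1) / sq S₁ x + ((S₂.card : ℝ) - 1) / sq S₂ x) * ξ x ^ 2 ≤
      ∫ x, cr S₁ S₂ u x * gd ξ ξ x := by
  classical
  obtain ⟨D, hD0, hD, hD1⟩ := f2_deriv_bound
  have hcr := hc3_cr_continuous hu S₁ S₂
  have hcr0 : ∀ x, 0 ≤ cr S₁ S₂ u x := fun x => (cr_le S₁ S₂ u x).1
  have hsq₁ : Continuous (sq S₁ : V ι → ℝ) := (f1_contDiff_sq (n := 1) S₁).continuous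
  have hsq₂ : Continuous (sq S₂ : V ι → ℝ) := (f1_contDiff_sq (n := 1) S₂).continuous
  have hs₁ : ∀ x, 0 ≤ sq S₁ x := f1_sq_nonneg S₁
  have hs₂ : ∀ x, 0 ≤ sq S₂ x := f1_sq_nonneg S₂
  set M : ℝ := 2 * ((S₁.card : ℝ) * K ^ 2 + (S₂.card : ℝ) * K ^ 2) with hM
  have hM0 : 0 ≤ M := by positivity
  have hcrM : ∀ x, cr S₁ S₂ u x ≤ M * (sq S₁ x * sq S₂ x) := hc3_cr_le hu hr₁ hr₂ hc₁ hc₂
  have hc₁' : (0 : ℝ) ≤ (S₁.card : ℝ) - 1 := by
    have : (2 : ℝ) ≤ S₁.card := by exact_mod_cast hc₁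
    linarith
  have hc₂' : (0 : ℝ) ≤ (S₂.card : ℝ) - 1 := by
    have : (2 : ℝ) ≤ S₂.card := by exact_mod_cast hc₂
    linarith
  have hχ : ∀ n : ℕ, ContDiff ℝ 1 (fun y : V ι => f2_chi S₁ n y * f2_chi S₂ n y) := fun n =>
    (f2_chi_contDiff S₁ n).mul (f2_chi_contDiff S₂ n)
  have hT : ∀ n : ℕ, T1 (fun y => (f2_chi S₁ n y * f2_chi S₂ n y) * ξ y) := fun n =>
    T1.mul (hχ n) hξ
  have hχ0 : ∀ (n : ℕ) x, 0 ≤ f2_chi S₁ n x * f2_chi S₂ n x := fun n x =>
    mul_nonneg (f2_chi_nonneg _ _ _) (f2_chi_nonneg _ _ _)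
  have hχ1 : ∀ (n : ℕ) x, f2_chi S₁ n x * f2_chi S₂ n x ≤ 1 := fun n x =>
    mul_le_one₀ (f2_chi_le_one _ _ _) (f2_chi_nonneg _ _ _) (f2_chi_le_one _ _ _)
  have hχsq : ∀ (n : ℕ) x, (f2_chi S₁ n x * f2_chi S₂ n x) ^ 2 ≤ 1 := fun n x => by
    have := hχ0 n x
    have := hχ1 n x
    nlinarith
  -- points with a vanishing factor
  have hzero : ∀ x, sq S₁ x = 0 ∨ sq S₂ x = 0 → cr S₁ S₂ u x = 0 := by
    intro x hx
    have h5 := hcrM x
    rcases hx with hx | hx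
    · rw [hx, zero_mul, mul_zero] at h5
      exact le_antisymm h5 (hcr0 x)
    · rw [hx, mul_zero, mul_zero] at h5
      exact le_antisymm h5 (hcr0 x)
  have hev : ∀ x, 0 < sq S₁ x → 0 < sq S₂ x →
      ∀ᶠ n : ℕ in atTop, (fun y => (f2_chi S₁ n y * f2_chi S₂ n y) * ξ y) =ᶠ[𝓝 x] ξ := by
    intro x h1 h2
    filter_upwards [f2_eventually S₁ h1, f2_eventually S₂ h2] with n hn1 hn2
    filter_upwards [hn1, hn2] with y hy1 hy2
    rw [hy1, hy2]
    ring
  -- the inequality for the cut functions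
  have h1 : ∀ n : ℕ, ∫ x, cr S₁ S₂ u x *
      (((S₁.card : ℝ) - 1) / sq S₁ x + ((S₂.card : ℝ) - 1) / sq S₂ x) *
        ((f2_chi S₁ n x * f2_chi S₂ n x) * ξ x) ^ 2 ≤
      ∫ x, cr S₁ S₂ u x * gd (fun y => (f2_chi S₁ n y * f2_chi S₂ n y) * ξ y)
        (fun y => (f2_chi S₁ n y * f2_chi S₂ n y) * ξ y) x := by
    intro n
    refine rot_away hu hst hr₁ hr₂ hd (hT n) ?_ ?_
    · intro x hx
      have e : (fun y => (f2_chi S₁ n y * f2_chi S₂ n y) * ξ y) =
          fun y => f2_chi S₁ n y * (f2_chi S₂ n y * ξ y) := by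
        funext y; ring
      rw [e] at hx
      exact hc3_tsupport S₁ n _ x hx
    · intro x hx
      have e : (fun y => (f2_chi S₁ n y * f2_chi S₂ n y) * ξ y) =
          fun y => f2_chi S₂ n y * (f2_chi S₁ n y * ξ y) := by
        funext y; ring
      rw [e] at hx
      exact hc3_tsupport S₂ n _ x hx
  have hint : ∀ f : V ι → ℝ, Continuous f → Integrable (fun x => f x * ξ x ^ 2) := by
    intro f hf
    have h3 : (fun x => f x * ξ x ^ 2) = fun x => (f x * ξ x) * ξ x := by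
      funext x; ring
    rw [h3]
    exact integrable_mul_T1 (hf.mul hξ.continuous) hξ
  -- the left side
  have h2 : Tendsto (fun n : ℕ => ∫ x, cr S₁ S₂ u x *
      (((S₁.card : ℝ) - 1) / sq S₁ x + ((S₂.card : ℝ) - 1) / sq S₂ x) *
        ((f2_chi S₁ n x * f2_chi S₂ n x) * ξ x) ^ 2) atTop
      (𝓝 (∫ x, cr S₁ S₂ u x *
        (((S₁.card : ℝ) - 1) / sq S₁ x + ((S₂.card : ℝ) - 1) / sq S₂ x) * ξ x ^ 2)) := by
    refine tendsto_integral_of_dominated_convergence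
      (fun x => (((S₁.card : ℝ) - 1) * (M * sq S₂ x) + ((S₂.card : ℝ) - 1) * (M * sq S₁ x)) *
        ξ x ^ 2) ?_ ?_ ?_ ?_
    · intro n
      exact ((hcr.measurable.mul ((measurable_const.div hsq₁.measurable).add
        (measurable_const.div hsq₂.measurable))).mul
        ((hT n).continuous.measurable.pow_const 2)).aestronglyMeasurable
    · exact hint _ ((continuous_const.mul (continuous_const.mul hsq₂)).add
        (continuous_const.mul (continuous_const.mul hsq₁)))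
    · intro n
      filter_upwards with x
      have hd₁ : 0 ≤ ((S₁.card : ℝ) - 1) / sq S₁ x := div_nonneg hc₁' (hs₁ x)
      have hd₂ : 0 ≤ ((S₂.card : ℝ) - 1) / sq S₂ x := div_nonneg hc₂' (hs₂ x)
      rw [Real.norm_eq_abs, abs_of_nonneg (mul_nonneg (mul_nonneg (hcr0 x) (add_nonneg hd₁ hd₂))
        (sq_nonneg _))]
      have h4 : ((f2_chi S₁ n x * f2_chi S₂ n x) * ξ x) ^ 2 ≤ ξ x ^ 2 := by
        rw [mul_pow]
        have h5 := hχsq n x
        nlinarith [sq_nonneg (ξ x)]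
      have g1 : cr S₁ S₂ u x / sq S₁ x ≤ M * sq S₂ x :=
        div_le_of_le_mul₀ (hs₁ x) (mul_nonneg hM0 (hs₂ x))
          ((hcrM x).trans (le_of_eq (by ring)))
      have g2 : cr S₁ S₂ u x / sq S₂ x ≤ M * sq S₁ x :=
        div_le_of_le_mul₀ (hs₂ x) (mul_nonneg hM0 (hs₁ x))
          ((hcrM x).trans (le_of_eq (by ring)))
      have g3 : cr S₁ S₂ u x * (((S₁.card : ℝ) - 1) / sq S₁ x + ((S₂.card : ℝ) - 1) / sq S₂ x) ≤
          ((S₁.card : ℝ) - 1) * (M * sq S₂ x) + ((S₂.card : ℝ) - 1) * (M * sq S₁ x) := by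
        have e : cr S₁ S₂ u x * (((S₁.card : ℝ) - 1) / sq S₁ x + ((S₂.card : ℝ) - 1) / sq S₂ x) =
            ((S₁.card : ℝ) - 1) * (cr S₁ S₂ u x / sq S₁ x) +
              ((S₂.card : ℝ) - 1) * (cr S₁ S₂ u x / sq S₂ x) := by ring
        rw [e]
        exact add_le_add (mul_le_mul_of_nonneg_left g1 hc₁') (mul_le_mul_of_nonneg_left g2 hc₂')
      refine mul_le_mul g3 h4 (sq_nonneg _) ?_
      have := hs₁ x
      have := hs₂ x
      positivity
    · filter_upwards with x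
      by_cases h0 : sq S₁ x = 0 ∨ sq S₂ x = 0
      · simp only [hzero x h0, zero_mul]
        exact tendsto_const_nhds
      · push Not at h0
        have h01 : 0 < sq S₁ x := lt_of_le_of_ne (hs₁ x) (Ne.symm h0.1)
        have h02 : 0 < sq S₂ x := lt_of_le_of_ne (hs₂ x) (Ne.symm h0.2)
        refine tendsto_const_nhds.congr' ?_
        filter_upwards [hev x h01 h02] with n hn
        have h5 := hn.eq_of_nhds
        rw [h5]
  -- the right side
  have h3 : Tendsto (fun n : ℕ => ∫ x, cr S₁ S₂ u x *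
      gd (fun y => (f2_chi S₁ n y * f2_chi S₂ n y) * ξ y)
        (fun y => (f2_chi S₁ n y * f2_chi S₂ n y) * ξ y) x) atTop
      (𝓝 (∫ x, cr S₁ S₂ u x * gd ξ ξ x)) := by
    refine tendsto_integral_of_dominated_convergence
      (fun x => (64 * M * D ^ 2 * sq S₂ x + 64 * M * D ^ 2 * sq S₁ x) * ξ x ^ 2 +
        2 * (cr S₁ S₂ u x * gd ξ ξ x)) ?_ ?_ ?_ ?_
    · intro n
      exact (hcr.mul (continuous_gd (hT n).1 (hT n).1)).aestronglyMeasurable
    · refine Integrable.add (hint _ ((continuous_const.mul hsq₂).add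
        (continuous_const.mul hsq₁))) (Integrable.const_mul ?_ _)
      exact integrable_cs (hcr.mul (continuous_gd hξ.1 hξ.1))
        (hasCompactSupport_gd hξ.2).mul_left
    · intro n
      filter_upwards with x
      have hg0 := hcr0 x
      rw [Real.norm_eq_abs, abs_of_nonneg (mul_nonneg hg0 (gd_self_nonneg _ x))]
      have h4 := f2_gd_mul_le (hχ n) hξ.1 x
      have h4' := f2_gd_mul_le (f2_chi_contDiff S₁ n) (f2_chi_contDiff S₂ n) x
      have k1 := hc3_gd_chi hD hD1 S₁ n x hM0 (hs₂ x) hg0 (hcrM x)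
      have k2 := hc3_gd_chi hD hD1 S₂ n x hM0 (hs₁ x) hg0
        ((hcrM x).trans (le_of_eq (by ring)))
      have hP : f2_chi S₁ n x ^ 2 ≤ 1 := by
        have := f2_chi_nonneg S₁ n x
        have := f2_chi_le_one S₁ n x
        nlinarith
      have hQ : f2_chi S₂ n x ^ 2 ≤ 1 := by
        have := f2_chi_nonneg S₂ n x
        have := f2_chi_le_one S₂ n x
        nlinarith
      have hgP := gd_self_nonneg (f2_chi S₁ n) x
      have hgQ := gd_self_nonneg (f2_chi S₂ n) x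
      have h5 : cr S₁ S₂ u x * gd (fun y => f2_chi S₁ n y * f2_chi S₂ n y)
          (fun y => f2_chi S₁ n y * f2_chi S₂ n y) x ≤
          32 * M * D ^ 2 * sq S₂ x + 32 * M * D ^ 2 * sq S₁ x := by
        calc cr S₁ S₂ u x * gd (fun y => f2_chi S₁ n y * f2_chi S₂ n y)
              (fun y => f2_chi S₁ n y * f2_chi S₂ n y) x ≤
            cr S₁ S₂ u x * (2 * (f2_chi S₂ n x ^ 2 * gd (f2_chi S₁ n) (f2_chi S₁ n) x) +
              2 * (f2_chi S₁ n x ^ 2 * gd (f2_chi S₂ n) (f2_chi S₂ n) x)) :=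
              mul_le_mul_of_nonneg_left h4' hg0
          _ = 2 * f2_chi S₂ n x ^ 2 * (cr S₁ S₂ u x * gd (f2_chi S₁ n) (f2_chi S₁ n) x) +
              2 * f2_chi S₁ n x ^ 2 * (cr S₁ S₂ u x * gd (f2_chi S₂ n) (f2_chi S₂ n) x) := by ring
          _ ≤ 2 * 1 * (16 * M * D ^ 2 * sq S₂ x) + 2 * 1 * (16 * M * D ^ 2 * sq S₁ x) := by
              have hs₁x := hs₁ x
              have hs₂x := hs₂ x
              refine add_le_add ?_ ?_
              · exact mul_le_mul (by linarith) k1 (mul_nonneg hg0 hgP) (by norm_num)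
              · exact mul_le_mul (by linarith) k2 (mul_nonneg hg0 hgQ) (by norm_num)
          _ = 32 * M * D ^ 2 * sq S₂ x + 32 * M * D ^ 2 * sq S₁ x := by ring
      have h6 := hχsq n x
      have h7 : 0 ≤ cr S₁ S₂ u x * gd ξ ξ x := mul_nonneg hg0 (gd_self_nonneg _ x)
      calc cr S₁ S₂ u x * gd (fun y => (f2_chi S₁ n y * f2_chi S₂ n y) * ξ y)
            (fun y => (f2_chi S₁ n y * f2_chi S₂ n y) * ξ y) x ≤
          cr S₁ S₂ u x * (2 * (ξ x ^ 2 * gd (fun y => f2_chi S₁ n y * f2_chi S₂ n y)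
            (fun y => f2_chi S₁ n y * f2_chi S₂ n y) x) +
            2 * ((f2_chi S₁ n x * f2_chi S₂ n x) ^ 2 * gd ξ ξ x)) :=
            mul_le_mul_of_nonneg_left h4 hg0
        _ = 2 * ξ x ^ 2 * (cr S₁ S₂ u x * gd (fun y => f2_chi S₁ n y * f2_chi S₂ n y)
            (fun y => f2_chi S₁ n y * f2_chi S₂ n y) x) +
            2 * (f2_chi S₁ n x * f2_chi S₂ n x) ^ 2 * (cr S₁ S₂ u x * gd ξ ξ x) := by ring
        _ ≤ 2 * ξ x ^ 2 * (32 * M * D ^ 2 * sq S₂ x + 32 * M * D ^ 2 * sq S₁ x) +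
            2 * 1 * (cr S₁ S₂ u x * gd ξ ξ x) := by
              refine add_le_add ?_ ?_
              · exact mul_le_mul_of_nonneg_left h5 (by positivity)
              · exact mul_le_mul_of_nonneg_right (by linarith) h7
        _ = (64 * M * D ^ 2 * sq S₂ x + 64 * M * D ^ 2 * sq S₁ x) * ξ x ^ 2 +
            2 * (cr S₁ S₂ u x * gd ξ ξ x) := by ring
    · filter_upwards with x
      by_cases h0 : sq S₁ x = 0 ∨ sq S₂ x = 0
      · simp only [hzero x h0, zero_mul]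
        exact tendsto_const_nhds
      · push Not at h0
        have h01 : 0 < sq S₁ x := lt_of_le_of_ne (hs₁ x) (Ne.symm h0.1)
        have h02 : 0 < sq S₂ x := lt_of_le_of_ne (hs₂ x) (Ne.symm h0.2)
        refine tendsto_const_nhds.congr' ?_
        filter_upwards [hev x h01 h02] with n hn
        congr 1
        unfold gd
        exact Finset.sum_congr rfl fun l _ => by rw [f1_pd_congr hn l]
  exact le_of_tendsto_of_tendsto' h2 h3 h1

end Pool.Agent.Helper68.DG
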