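import Pool.Agent.Helper68.DG.Base
import Pool.Agent.Helper68.DG.C1
import Pool.Agent.Helper68.DG.F3
import Pool.Agent.Helper68.DG.Defs3
import Pool.Agent.Helper68.DG.HC1
import Pool.Agent.Helper68.DG.HC3

/-! Project DG (MP_800410_an), piece HC4: the inequalities for rotations with cutoffs -/

open MeasureTheory Metric Set Filter Topology
open scoped ContDiff

namespace Pool.Agent.Helper68.DG

variable {ι : Type} [Fintype ι]

private theorem hc4_cont_lg : Continuous (lg : V ι → ℝ) := (contDiff_lg (n := 0)).continuous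

private theorem hc4_cont_gs {u : V ι → ℝ} (hu : ContDiff ℝ 1 u) (S : Finset ι) :
    Continuous (gs S u) := by
  unfold gs
  exact continuous_finsetSum _ fun i _ => (continuous_pd hu i).pow 2

private theorem hc4_gs_nonneg (S : Finset ι) (u : V ι → ℝ) (x : V ι) : 0 ≤ gs S u x :=
  Finset.sum_nonneg fun i _ => sq_nonneg _

/-- the test function and its gradient -/
private theorem hc4_test {β : ℝ} (hβ : 0 ≤ β) : ∃ C : ℝ, 0 ≤ C ∧ ∀ T : ℝ, 1 ≤ T →
    T1 (fun x : V ι => Real.exp (-β * lg x) * cut T x) ∧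
    (∀ x : V ι, gd (fun x : V ι => Real.exp (-β * lg x) * cut T x)
        (fun x : V ι => Real.exp (-β * lg x) * cut T x) x ≤
      β ^ 2 * (Real.exp (-(2 * β + 2) * lg x) * cut T x ^ 2) +
      (shell T 1 ∅).indicator (fun x => C / T * Real.exp (-(2 * β + 2) * lg x)) x) := by
  obtain ⟨C₀, hC₀, hcut⟩ := cut_facts (ι := ι)
  refine ⟨2 * β * C₀ + C₀ ^ 2, by positivity, ?_⟩
  intro T hT
  obtain ⟨hT1, h01, -, -, hgrad, hout⟩ := hcut T hT
  have hTpos : 0 < T := by linarith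
  have hlgd : Differentiable ℝ (lg : V ι → ℝ) :=
    (contDiff_lg (n := 1)).differentiable one_ne_zero
  have hexpC : ContDiff ℝ 1 fun x : V ι => Real.exp (-β * lg x) :=
    (contDiff_const.mul contDiff_lg).exp
  set ξ : V ι → ℝ := fun x => Real.exp (-β * lg x) * cut T x with hξdef
  have hξ : T1 ξ := T1.mul hexpC hT1
  set E2 : V ι → ℝ := fun x => Real.exp (-(2 * β + 2) * lg x) with hE2
  -- the bound for the gradient
  have hfd : ∀ x, ‖fderiv ℝ ξ x‖ ≤ Real.exp (-β * lg x) * ‖fderiv ℝ (cut T) x‖ +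
      cut T x * (Real.exp (-β * lg x) * (β * Real.exp (-lg x))) := by
    intro x
    have h1 : HasFDerivAt (fun x : V ι => Real.exp (-β * lg x))
        (Real.exp (-β * lg x) • (-β • fderiv ℝ lg x)) x :=
      (((hlgd x).hasFDerivAt).const_mul (-β)).exp
    have h2 : HasFDerivAt (cut T) (fderiv ℝ (cut T) x) x :=
      ((hT1.1.differentiable one_ne_zero) x).hasFDerivAt
    have h3 : fderiv ℝ ξ x = Real.exp (-β * lg x) • fderiv ℝ (cut T) x +
        cut T x • (Real.exp (-β * lg x) • (-β • fderiv ℝ lg x)) := (h1.mul h2).fderiv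
    rw [h3]
    refine (norm_add_le _ _).trans ?_
    rw [norm_smul, norm_smul, norm_smul, norm_smul, Real.norm_eq_abs, Real.norm_eq_abs,
      Real.norm_eq_abs, abs_of_pos (Real.exp_pos _), abs_of_nonneg (h01 x).1, abs_neg,
      abs_of_nonneg hβ]
    have h4 := norm_fderiv_lg_le x
    have h5 : cut T x * (Real.exp (-β * lg x) * (β * ‖fderiv ℝ lg x‖)) ≤
        cut T x * (Real.exp (-β * lg x) * (β * Real.exp (-lg x))) := by
      apply mul_le_mul_of_nonneg_left _ (h01 x).1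
      apply mul_le_mul_of_nonneg_left _ (Real.exp_pos _).le
      exact mul_le_mul_of_nonneg_left h4 hβ
    linarith
  have hEE : ∀ x : V ι, (Real.exp (-β * lg x) * Real.exp (-lg x)) ^ 2 = E2 x := by
    intro x
    rw [← Real.exp_add, ← Real.exp_nat_mul, hE2]
    congr 1
    push_cast
    ring
  have hE2pos : ∀ x, 0 < E2 x := fun x => Real.exp_pos _
  refine ⟨hξ, ?_⟩
  intro x
  rw [gd_self]
  have hc0 := (h01 x).1
  have hc1 := (h01 x).2
  by_cases hx : x ∈ shell T 1 ∅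
  · rw [indicator_of_mem hx]
    have h1 : ‖fderiv ℝ ξ x‖ ≤ Real.exp (-β * lg x) * Real.exp (-lg x) *
        (C₀ / T + β * cut T x) := by
      refine (hfd x).trans ?_
      have h2 := mul_le_mul_of_nonneg_left (hgrad x) (Real.exp_pos (-β * lg x)).le
      nlinarith
    have h3 : ‖fderiv ℝ ξ x‖ ^ 2 ≤ (Real.exp (-β * lg x) * Real.exp (-lg x) *
        (C₀ / T + β * cut T x)) ^ 2 := pow_le_pow_left₀ (norm_nonneg _) h1 2
    rw [mul_pow, hEE] at h3
    have h4 : (C₀ / T + β * cut T x) ^ 2 ≤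
        β ^ 2 * cut T x ^ 2 + (2 * β * C₀ + C₀ ^ 2) / T := by
      have h5 : C₀ / T * (C₀ / T) ≤ C₀ ^ 2 / T := by
        rw [div_mul_div_comm, div_le_div_iff₀ (by positivity) hTpos]
        have : C₀ * C₀ * T ≤ C₀ * C₀ * T * T := by
          have : 0 ≤ C₀ * C₀ * T := by positivity
          nlinarith
        nlinarith
      have h6 : 2 * (C₀ / T) * (β * cut T x) ≤ 2 * β * C₀ / T := by
        have h7 : C₀ / T * β * cut T x ≤ C₀ / T * β * 1 :=
          mul_le_mul_of_nonneg_left hc1 (by positivity)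
        have h8 : 2 * β * C₀ / T = 2 * (C₀ / T * β * 1) := by ring
        rw [h8]
        linarith
      have h9 : (2 * β * C₀ + C₀ ^ 2) / T = 2 * β * C₀ / T + C₀ ^ 2 / T := by ring
      rw [h9]
      nlinarith
    have h10 := mul_le_mul_of_nonneg_left h4 (hE2pos x).le
    calc ‖fderiv ℝ ξ x‖ ^ 2 ≤ E2 x * (C₀ / T + β * cut T x) ^ 2 := h3
      _ ≤ E2 x * (β ^ 2 * cut T x ^ 2 + (2 * β * C₀ + C₀ ^ 2) / T) := h10
      _ = _ := by ring
  · rw [indicator_of_notMem hx, add_zero]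
    have h1 := hfd x
    rw [hout x hx, norm_zero, mul_zero, zero_add] at h1
    have h3 := pow_le_pow_left₀ (norm_nonneg _) h1 2
    calc ‖fderiv ℝ ξ x‖ ^ 2 ≤ _ := h3
      _ = β ^ 2 * ((Real.exp (-β * lg x) * Real.exp (-lg x)) ^ 2 * cut T x ^ 2) := by ring
      _ = _ := by rw [hEE]

/-- integration against a nonnegative continuous function -/
private theorem hc4_int {β : ℝ} (hβ : 0 ≤ β) : ∃ C : ℝ, 0 ≤ C ∧ ∀ T : ℝ, 1 ≤ T →
    T1 (fun x : V ι => Real.exp (-β * lg x) * cut T x) ∧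
    ∀ g : V ι → ℝ, Continuous g → (∀ x, 0 ≤ g x) →
      ∫ x, g x * gd (fun x : V ι => Real.exp (-β * lg x) * cut T x)
        (fun x : V ι => Real.exp (-β * lg x) * cut T x) x ≤
      β ^ 2 * (∫ x, g x * Real.exp (-(2 * β + 2) * lg x) * cut T x ^ 2) +
      C / T * ∫ x in shell T 1 ∅, g x * Real.exp (-(2 * β + 2) * lg x) := by
  obtain ⟨C, hC, h⟩ := hc4_test (ι := ι) hβ
  obtain ⟨C₀, hC₀, hcut⟩ := cut_facts (ι := ι)
  refine ⟨C, hC, fun T hT => ?_⟩
  obtain ⟨hξ, hgd⟩ := h T hT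
  obtain ⟨hT1, -⟩ := hcut T hT
  refine ⟨hξ, fun g hg hg0 => ?_⟩
  set ξ : V ι → ℝ := fun x => Real.exp (-β * lg x) * cut T x with hξdef
  set E2 : V ι → ℝ := fun x => Real.exp (-(2 * β + 2) * lg x) with hE2
  have hE2c : Continuous E2 := Real.continuous_exp.comp (continuous_const.mul hc4_cont_lg)
  have hcutc : Continuous (cut T : V ι → ℝ) := hT1.continuous
  have hi2 : Integrable fun x => β ^ 2 * (g x * E2 x * cut T x ^ 2) := by
    apply Integrable.const_mul
    apply integrable_cs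
    · exact (hg.mul hE2c).mul (hcutc.pow 2)
    · have : HasCompactSupport fun x : V ι => cut T x ^ 2 :=
        hT1.2.comp_left (g := fun t : ℝ => t ^ 2) (by simp)
      exact this.mul_left
  have hms : MeasurableSet (shell T 1 (∅ : Finset ι)) := (isCompact_shell T 1 ∅).measurableSet
  have hi5 : IntegrableOn (fun x => g x * E2 x) (shell T 1 ∅) :=
    (hg.mul hE2c).continuousOn.integrableOn_compact (isCompact_shell T 1 ∅)
  have hi6 : Integrable ((shell T 1 ∅).indicator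
      fun x => C / T * (g x * E2 x)) :=
    (integrable_indicator_iff hms).2 (hi5.const_mul _)
  have hi7 : Integrable fun x => g x * gd ξ ξ x :=
    integrable_cs (hg.mul (continuous_gd hξ.1 hξ.1)) (hasCompactSupport_gd hξ.2).mul_left
  have hB : ∫ x, g x * gd ξ ξ x ≤ ∫ x, (β ^ 2 * (g x * E2 x * cut T x ^ 2) +
      (shell T 1 ∅).indicator (fun x => C / T * (g x * E2 x)) x) := by
    apply integral_mono hi7 (hi2.add hi6)
    intro x
    have h1 := mul_le_mul_of_nonneg_left (hgd x) (hg0 x)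
    refine h1.trans (le_of_eq ?_)
    rw [Pi.add_apply]
    by_cases hx : x ∈ shell T 1 ∅
    · rw [indicator_of_mem hx, indicator_of_mem hx]; ring
    · rw [indicator_of_notMem hx, indicator_of_notMem hx]; ring
  rw [integral_add hi2 hi6, integral_indicator hms, integral_const_mul, integral_const_mul] at hB
  exact hB

/-- Proof. As in `b1_cut` (F3; the computation is there): `b1` for
`ξ x = exp (- 3 / 2 * lg x) * cut T x`. -/
theorem b1_cut2 {K : ℝ} {u : V ι → ℝ} {S : Finset ι} (hu : GS K u) (hst : Stab u)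
    (hrot : RotInv S u) (hS : 2 ≤ S.card) : ∃ C : ℝ, 0 ≤ C ∧ ∀ T : ℝ, 1 ≤ T →
      ((S.card : ℝ) - 1) * ∫ x, gs S u x / sq S x * Real.exp (-3 * lg x) * cut T x ^ 2 ≤
        9 / 4 * (∫ x, gs S u x * Real.exp (-5 * lg x) * cut T x ^ 2) +
        C / T * ∫ x in shell T 1 ∅, gs S u x * Real.exp (-5 * lg x) := by
  obtain ⟨C, hC, h⟩ := hc4_int (ι := ι) (β := 3 / 2) (by norm_num)
  refine ⟨C, hC, fun T hT => ?_⟩
  obtain ⟨hξ, hint⟩ := h T hT
  have h1 := b1 hu hst hrot hS hξ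
  have h2 := hint (gs S u) (hc4_cont_gs hu.C1 S) (hc4_gs_nonneg S u)
  have h3 : ∀ x : V ι, gs S u x / sq S x * (Real.exp (-(3 / 2) * lg x) * cut T x) ^ 2 =
      gs S u x / sq S x * Real.exp (-3 * lg x) * cut T x ^ 2 := by
    intro x
    have h4 : Real.exp (-3 * lg x) = Real.exp (-(3 / 2) * lg x) ^ 2 := by
      rw [← Real.exp_nat_mul]
      congr 1
      push_cast
      ring
    rw [h4]
    ring
  have h5 : (-(2 * (3 / 2 : ℝ) + 2)) = -5 := by norm_num
  simp only [h3] at h1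
  rw [h5] at h2
  have h6 : ((3 / 2 : ℝ)) ^ 2 = 9 / 4 := by norm_num
  rw [h6] at h2
  exact h1.trans h2

/-- Proof. `rot_ineq` for `ξ x = exp (- 5 / 2 * lg x) * cut T x`:
`gd ξ ξ ≤ 25 / 4 * exp (- 7 lg) * cut T ^ 2 + (C₁ / T) exp (- 7 lg)`, the last term only on the shell, and
`cr ≤ (sq S₁ + sq S₂) (gs S₁ + gs S₂) ≤ exp (2 lg) (gs S₁ + gs S₂)` (`S₁`, `S₂` are disjoint). -/
theorem rot_cut {K : ℝ} {u : V ι → ℝ} {S₁ S₂ : Finset ι} (hu : GS K u) (hst : Stab u)
    (hr₁ : RotInv S₁ u) (hr₂ : RotInv S₂ u) (hd : Disjoint S₁ S₂) (hc₁ : 2 ≤ S₁.card)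
    (hc₂ : 2 ≤ S₂.card) : ∃ C : ℝ, 0 ≤ C ∧ ∀ T : ℝ, 1 ≤ T →
      ∫ x, cr S₁ S₂ u x * (((S₁.card : ℝ) - 1) / sq S₁ x + ((S₂.card : ℝ) - 1) / sq S₂ x) *
          Real.exp (-5 * lg x) * cut T x ^ 2 ≤
        25 / 4 * (∫ x, cr S₁ S₂ u x * Real.exp (-7 * lg x) * cut T x ^ 2) +
        C / T * ∫ x in shell T 1 ∅, (gs S₁ u x + gs S₂ u x) * Real.exp (-5 * lg x) := by
  classical
  obtain ⟨C, hC, h⟩ := hc4_int (ι := ι) (β := 5 / 2) (by norm_num)
  refine ⟨C, hC, fun T hT => ?_⟩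
  have hTpos : 0 < T := by linarith
  obtain ⟨hξ, hint⟩ := h T hT
  have h1 := rot_ineq hu hst hr₁ hr₂ hd hc₁ hc₂ hξ
  have h2 := hint (cr S₁ S₂ u) (hc3_cr_continuous hu S₁ S₂) (fun x => (cr_le S₁ S₂ u x).1)
  have h3 : ∀ x : V ι, cr S₁ S₂ u x *
      (((S₁.card : ℝ) - 1) / sq S₁ x + ((S₂.card : ℝ) - 1) / sq S₂ x) *
        (Real.exp (-(5 / 2) * lg x) * cut T x) ^ 2 =
      cr S₁ S₂ u x * (((S₁.card : ℝ) - 1) / sq S₁ x + ((S₂.card : ℝ) - 1) / sq S₂ x) *
        Real.exp (-5 * lg x) * cut T x ^ 2 := by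
    intro x
    have h4 : Real.exp (-5 * lg x) = Real.exp (-(5 / 2) * lg x) ^ 2 := by
      rw [← Real.exp_nat_mul]
      congr 1
      push_cast
      ring
    rw [h4]
    ring
  have h5 : (-(2 * (5 / 2 : ℝ) + 2)) = -7 := by norm_num
  simp only [h3] at h1
  rw [h5] at h2
  have h6 : ((5 / 2 : ℝ)) ^ 2 = 25 / 4 := by norm_num
  rw [h6] at h2
  have hms : MeasurableSet (shell T 1 (∅ : Finset ι)) := (isCompact_shell T 1 ∅).measurableSet
  have hE : ∀ c : ℝ, Continuous fun x : V ι => Real.exp (c * lg x) := fun c =>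
    Real.continuous_exp.comp (continuous_const.mul hc4_cont_lg)
  have hi5 : IntegrableOn (fun x => cr S₁ S₂ u x * Real.exp (-7 * lg x)) (shell T 1 ∅) :=
    ((hc3_cr_continuous hu S₁ S₂).mul (hE (-7))).continuousOn.integrableOn_compact
      (isCompact_shell T 1 ∅)
  have hi6 : IntegrableOn (fun x => (gs S₁ u x + gs S₂ u x) * Real.exp (-5 * lg x))
      (shell T 1 ∅) :=
    (((hc4_cont_gs hu.C1 S₁).add (hc4_cont_gs hu.C1 S₂)).mul
      (hE (-5))).continuousOn.integrableOn_compact (isCompact_shell T 1 ∅)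
  have h7 : ∫ x in shell T 1 (∅ : Finset ι), cr S₁ S₂ u x * Real.exp (-7 * lg x) ≤
      ∫ x in shell T 1 (∅ : Finset ι), (gs S₁ u x + gs S₂ u x) * Real.exp (-5 * lg x) := by
    apply setIntegral_mono hi5 hi6
    intro x
    have h8 := (cr_le S₁ S₂ u x).2.2
    have h9 : sq S₁ x + sq S₂ x ≤ Real.exp (lg x) ^ 2 := by
      rw [exp_lg_sq, EuclideanSpace.norm_sq_eq]
      unfold sq
      rw [← Finset.sum_union hd]
      have h10 : ∑ i ∈ S₁ ∪ S₂, x i ^ 2 ≤ ∑ i, x i ^ 2 :=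
        Finset.sum_le_sum_of_subset_of_nonneg (Finset.subset_univ _) fun i _ _ => sq_nonneg _
      have h11 : ∑ i, ‖x i‖ ^ 2 = ∑ i, x i ^ 2 :=
        Finset.sum_congr rfl fun i _ => by rw [Real.norm_eq_abs, sq_abs]
      rw [h11]
      linarith
    have h12 : 0 ≤ gs S₁ u x + gs S₂ u x :=
      add_nonneg (hc4_gs_nonneg S₁ u x) (hc4_gs_nonneg S₂ u x)
    have h13 : cr S₁ S₂ u x ≤ Real.exp (lg x) ^ 2 * (gs S₁ u x + gs S₂ u x) :=
      h8.trans (mul_le_mul_of_nonneg_right h9 h12)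
    have h14 : Real.exp (-5 * lg x) = Real.exp (lg x) ^ 2 * Real.exp (-7 * lg x) := by
      rw [← Real.exp_nat_mul, ← Real.exp_add]
      congr 1
      push_cast
      ring
    show cr S₁ S₂ u x * Real.exp (-7 * lg x) ≤ (gs S₁ u x + gs S₂ u x) * Real.exp (-5 * lg x)
    rw [h14]
    have h15 := mul_le_mul_of_nonneg_right h13 (Real.exp_pos (-7 * lg x)).le
    refine h15.trans (le_of_eq ?_)
    ring
  have h16 : C / T * ∫ x in shell T 1 (∅ : Finset ι), cr S₁ S₂ u x * Real.exp (-7 * lg x) ≤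
      C / T * ∫ x in shell T 1 (∅ : Finset ι), (gs S₁ u x + gs S₂ u x) * Real.exp (-5 * lg x) :=
    mul_le_mul_of_nonneg_left h7 (by positivity)
  linarith

end Pool.Agent.Helper68.DG
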