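import Pool.Agent.Helper68.DG.Base
import Pool.Agent.Helper68.DG.C1
import Pool.Agent.Helper68.DG.Defs3
import Pool.Agent.Helper68.DG.DD
import Pool.Agent.Helper68.DG.RK3

/-! Project DG (MP_800410_an), piece HC5: the dilation inequality with cutoffs -/

open MeasureTheory Metric Set Filter Topology
open scoped ContDiff

namespace Pool.Agent.Helper68.DG

variable {ι : Type} [Fintype ι]

/-- the square of the weight -/
noncomputable def hc5_W (S₁ : Finset ι) (x : V ι) : ℝ := (sq S₁ x + 1 / 800) * Real.exp (-7 * lg x)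

theorem hc5_sq_nonneg (S₁ : Finset ι) (x : V ι) : 0 ≤ sq S₁ x :=
  Finset.sum_nonneg fun _ _ => sq_nonneg _

theorem hc5_W_pos (S₁ : Finset ι) (x : V ι) : 0 < hc5_W S₁ x := by
  unfold hc5_W
  have := hc5_sq_nonneg S₁ x
  positivity

theorem hc5_sq_contDiff (S₁ : Finset ι) : ContDiff ℝ 1 (sq S₁ : V ι → ℝ) := by
  unfold sq
  exact ContDiff.sum fun i _ => (dd_coord i).pow 2

theorem hc5_exp_contDiff : ContDiff ℝ 1 (fun x : V ι => Real.exp (-7 * lg x)) :=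
  (contDiff_const.mul contDiff_lg).exp

theorem hc5_W_contDiff (S₁ : Finset ι) : ContDiff ℝ 1 (hc5_W S₁ : V ι → ℝ) := by
  unfold hc5_W
  exact ((hc5_sq_contDiff S₁).add contDiff_const).mul hc5_exp_contDiff

theorem hc5_pd_sq [DecidableEq ι] (S₁ : Finset ι) (j : ι) (x : V ι) :
    pd j (sq S₁) x = if j ∈ S₁ then 2 * x j else 0 := by
  have h1 : (sq S₁ : V ι → ℝ) = fun y => ∑ i ∈ S₁, (fun y : V ι => y i ^ 2) y := rfl
  rw [h1, dd_pd_sum S₁ (fun i (y : V ι) => y i ^ 2) (fun i _ =>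
    (((dd_coord i (n := 1)).pow 2).differentiable one_ne_zero) x)]
  have h2 : ∀ i ∈ S₁, pd j (fun y : V ι => y i ^ 2) x = if i = j then 2 * x j else 0 := by
    intro i _
    rw [dd_pd_sq (dd_coord i (n := 1)), dd_pd_coord]
    split_ifs with h
    · rw [h]; ring
    · ring
  rw [Finset.sum_congr rfl h2, Finset.sum_ite_eq']

theorem hc5_pd_lg (j : ι) (x : V ι) : pd j lg x = x j / Real.exp (lg x) ^ 2 := by
  unfold pd
  rw [fderiv_lg, real_inner_comm, inner_be]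

theorem hc5_pd_exp (j : ι) (x : V ι) : pd j (fun y : V ι => Real.exp (-7 * lg y)) x =
    -7 * (x j / Real.exp (lg x) ^ 2) * Real.exp (-7 * lg x) := by
  have hl : DifferentiableAt ℝ (lg : V ι → ℝ) x :=
    (contDiff_lg (n := 1)).differentiable one_ne_zero x
  have hg : HasDerivAt (fun t : ℝ => Real.exp (-7 * t)) (Real.exp (-7 * lg x) * -7) (lg x) := by
    have h := ((hasDerivAt_id (lg x)).const_mul (-7 : ℝ)).exp
    simpa using h
  rw [pd_comp (g := fun t => Real.exp (-7 * t)) hg.differentiableAt hl, hg.deriv, hc5_pd_lg]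
  ring

theorem hc5_pd_W [DecidableEq ι] (S₁ : Finset ι) (j : ι) (x : V ι) : pd j (hc5_W S₁) x =
    ((if j ∈ S₁ then 2 * x j else 0) - 7 * (sq S₁ x + 1 / 800) * x j / Real.exp (lg x) ^ 2) *
      Real.exp (-7 * lg x) := by
  have h1 : (hc5_W S₁ : V ι → ℝ) = fun y => (sq S₁ y + 1 / 800) * Real.exp (-7 * lg y) := rfl
  have hs : DifferentiableAt ℝ (sq S₁ : V ι → ℝ) x :=
    (hc5_sq_contDiff S₁).differentiable one_ne_zero x
  have he : DifferentiableAt ℝ (fun y : V ι => Real.exp (-7 * lg y)) x :=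
    hc5_exp_contDiff.differentiable one_ne_zero x
  have h2 : pd j (fun y : V ι => sq S₁ y + 1 / 800) x = pd j (sq S₁) x := by
    unfold pd
    rw [fderiv_add_const]
  rw [h1, pd_mul (hs.add_const _) he, h2, hc5_pd_sq, hc5_pd_exp]
  ring

omit [Fintype ι] in
theorem hc5_sq_sum [DecidableEq ι] (S₁ S : Finset ι) (h : S₁ ⊆ S) (f : ι → ℝ) :
    ∑ i ∈ S, (if i ∈ S₁ then f i else 0) = ∑ i ∈ S₁, f i := by
  rw [← Finset.sum_filter]
  congr 1
  ext i
  simp only [Finset.mem_filter]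
  exact ⟨fun h => h.2, fun hi => ⟨h hi, hi⟩⟩

theorem hc5_gd_W [DecidableEq ι] (S₁ : Finset ι) (x : V ι) : gd (hc5_W S₁) (hc5_W S₁) x =
    (4 * sq S₁ x - 28 * (sq S₁ x + 1 / 800) * sq S₁ x / Real.exp (lg x) ^ 2 +
      49 * (sq S₁ x + 1 / 800) ^ 2 * ‖x‖ ^ 2 / Real.exp (lg x) ^ 4) *
        Real.exp (-7 * lg x) ^ 2 := by
  unfold gd
  have h1 : ∀ i ∈ (Finset.univ : Finset ι), pd i (hc5_W S₁) x * pd i (hc5_W S₁) x =
      (if i ∈ S₁ then (4 - 28 * (sq S₁ x + 1 / 800) / Real.exp (lg x) ^ 2) *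
        Real.exp (-7 * lg x) ^ 2 * x i ^ 2 else 0) +
      49 * (sq S₁ x + 1 / 800) ^ 2 / Real.exp (lg x) ^ 4 * Real.exp (-7 * lg x) ^ 2 * x i ^ 2 := by
    intro i _
    rw [hc5_pd_W]
    have h0 : Real.exp (lg x) ≠ 0 := (Real.exp_pos _).ne'
    split_ifs
    · field_simp
      ring
    · field_simp
      ring
  rw [Finset.sum_congr rfl h1, Finset.sum_add_distrib, hc5_sq_sum S₁ _ (Finset.subset_univ _),
    ← Finset.mul_sum, ← Finset.mul_sum]
  have h2 : ∑ i, x i ^ 2 = ‖x‖ ^ 2 := by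
    rw [EuclideanSpace.norm_sq_eq]
    apply Finset.sum_congr rfl
    intro i _
    rw [Real.norm_eq_abs, sq_abs]
  have h3 : ∑ i ∈ S₁, x i ^ 2 = sq S₁ x := rfl
  rw [h2, h3]
  ring

/-- the error term -/
noncomputable def hc5_err (S₁ S : Finset ι) (u θ : V ι → ℝ) (x : V ι) : ℝ :=
  w0 S u x ^ 2 * (θ x * gd (hc5_W S₁) θ x + hc5_W S₁ x * gd θ θ x) -
    gs S u x * (2 * hc5_W S₁ x * θ x * ∑ i ∈ S, x i * pd i θ x) +
    2 * w0 S u x * (2 * hc5_W S₁ x * θ x * ∑ i ∈ S, pd i u x * pd i θ x)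

theorem hc5_sqrt_sq (S₁ : Finset ι) (x : V ι) : √(hc5_W S₁ x) ^ 2 = hc5_W S₁ x :=
  Real.sq_sqrt (hc5_W_pos S₁ x).le

theorem hc5_sqrt_contDiff (S₁ : Finset ι) : ContDiff ℝ 1 (fun x : V ι => √(hc5_W S₁ x)) :=
  (hc5_W_contDiff S₁).sqrt fun x => (hc5_W_pos S₁ x).ne'

theorem hc5_pd_sqrt (S₁ : Finset ι) (i : ι) (x : V ι) :
    2 * √(hc5_W S₁ x) * pd i (fun y => √(hc5_W S₁ y)) x = pd i (hc5_W S₁) x := by
  have h1 := dd_pd_sq (hc5_sqrt_contDiff S₁) i x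
  rw [← h1]
  have h2 : (fun y : V ι => √(hc5_W S₁ y) ^ 2) = hc5_W S₁ := by
    funext y; exact hc5_sqrt_sq S₁ y
  rw [h2]

theorem hc5_gd_eta (S₁ : Finset ι) {θ : V ι → ℝ} {x : V ι} (hθ : DifferentiableAt ℝ θ x) :
    gd (fun y => √(hc5_W S₁ y) * θ y) (fun y => √(hc5_W S₁ y) * θ y) x =
      θ x ^ 2 * (gd (hc5_W S₁) (hc5_W S₁) x / (4 * hc5_W S₁ x)) +
        (θ x * gd (hc5_W S₁) θ x + hc5_W S₁ x * gd θ θ x) := by
  have hf : DifferentiableAt ℝ (fun y : V ι => √(hc5_W S₁ y)) x :=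
    (hc5_sqrt_contDiff S₁).differentiable one_ne_zero x
  have h0 := (hc5_W_pos S₁ x).ne'
  rw [rk3_gd_mul hf hθ, hc5_sqrt_sq]
  have h1 : gd (hc5_W S₁) θ x = 2 * √(hc5_W S₁ x) * gd (fun y => √(hc5_W S₁ y)) θ x := by
    unfold gd
    rw [Finset.mul_sum]
    apply Finset.sum_congr rfl
    intro i _
    rw [← hc5_pd_sqrt]
    ring
  have h2 : gd (hc5_W S₁) (hc5_W S₁) x = 4 * hc5_W S₁ x *
      gd (fun y => √(hc5_W S₁ y)) (fun y => √(hc5_W S₁ y)) x := by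
    unfold gd
    rw [Finset.mul_sum]
    apply Finset.sum_congr rfl
    intro i _
    have hq := hc5_sqrt_sq S₁ x
    rw [← hc5_pd_sqrt]
    linear_combination (4 * pd i (fun y => √(hc5_W S₁ y)) x ^ 2) * hq
  rw [h2, h1]
  field_simp
  ring

theorem hc5_pd_eta (S₁ : Finset ι) {θ : V ι → ℝ} {x : V ι} (hθ : DifferentiableAt ℝ θ x)
    (i : ι) : pd i (fun y => (√(hc5_W S₁ y) * θ y) ^ 2) x =
      θ x ^ 2 * pd i (hc5_W S₁) x + 2 * hc5_W S₁ x * θ x * pd i θ x := by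
  have hf : DifferentiableAt ℝ (fun y : V ι => √(hc5_W S₁ y)) x :=
    (hc5_sqrt_contDiff S₁).differentiable one_ne_zero x
  rw [rk3_pd_sq hf hθ, hc5_sqrt_sq, hc5_pd_sqrt]

theorem hc5_union [DecidableEq ι] {S₁ S₂ : Finset ι} (hd : Disjoint S₁ S₂) (u : V ι → ℝ)
    (x : V ι) : w0 (S₁ ∪ S₂) u x = w0 S₁ u x + w0 S₂ u x ∧
      gs (S₁ ∪ S₂) u x = gs S₁ u x + gs S₂ u x ∧ sq (S₁ ∪ S₂) x = sq S₁ x + sq S₂ x :=
  ⟨Finset.sum_union hd, Finset.sum_union hd, Finset.sum_union hd⟩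

theorem hc5_point [DecidableEq ι] {S₁ S₂ : Finset ι} (hd : Disjoint S₁ S₂)
    (hc : S₁.card + S₂.card = 5) (u : V ι → ℝ) {θ : V ι → ℝ} {x : V ι}
    (hθ : DifferentiableAt ℝ θ x) :
    w0 (S₁ ∪ S₂) u x ^ 2 * gd (fun y => √(hc5_W S₁ y) * θ y) (fun y => √(hc5_W S₁ y) * θ y) x +
      (2 - (((S₁ ∪ S₂).card : ℕ) : ℝ)) * gs (S₁ ∪ S₂) u x * (√(hc5_W S₁ x) * θ x) ^ 2 -
      gs (S₁ ∪ S₂) u x * (∑ i ∈ S₁ ∪ S₂, x i * pd i (fun y => (√(hc5_W S₁ y) * θ y) ^ 2) x) +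
      2 * w0 (S₁ ∪ S₂) u x * ∑ i ∈ S₁ ∪ S₂, pd i u x *
        pd i (fun y => (√(hc5_W S₁ y) * θ y) ^ 2) x =
    D1 S₁ S₂ u x * θ x ^ 2 + hc5_err S₁ (S₁ ∪ S₂) u θ x := by
  obtain ⟨hw, hg, hs⟩ := hc5_union hd u x
  have hcard : (((S₁ ∪ S₂).card : ℕ) : ℝ) = 5 := by
    rw [Finset.card_union_of_disjoint hd]
    exact_mod_cast hc
  have hE : Real.exp (lg x) ≠ 0 := (Real.exp_pos _).ne'
  have hX : Real.exp (-7 * lg x) ≠ 0 := (Real.exp_pos _).ne'
  have hN : sq S₁ x + 1 / 800 ≠ 0 := by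
    have := hc5_sq_nonneg S₁ x
    positivity
  have hsub : S₁ ⊆ S₁ ∪ S₂ := Finset.subset_union_left
  have hs1 : ∑ i ∈ S₁ ∪ S₂, x i * pd i (fun y => (√(hc5_W S₁ y) * θ y) ^ 2) x =
      θ x ^ 2 * ((2 * sq S₁ x - 7 * (sq S₁ x + 1 / 800) * (sq S₁ x + sq S₂ x) /
        Real.exp (lg x) ^ 2) * Real.exp (-7 * lg x)) +
        2 * hc5_W S₁ x * θ x * ∑ i ∈ S₁ ∪ S₂, x i * pd i θ x := by
    have h1 : ∀ i ∈ S₁ ∪ S₂, x i * pd i (fun y => (√(hc5_W S₁ y) * θ y) ^ 2) x =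
        (if i ∈ S₁ then θ x ^ 2 * Real.exp (-7 * lg x) * 2 * x i ^ 2 else 0) +
        (-(θ x ^ 2 * Real.exp (-7 * lg x) * (7 * (sq S₁ x + 1 / 800)) / Real.exp (lg x) ^ 2)) *
          x i ^ 2 + 2 * hc5_W S₁ x * θ x * (x i * pd i θ x) := by
      intro i _
      rw [hc5_pd_eta S₁ hθ, hc5_pd_W]
      split_ifs <;> ring
    rw [Finset.sum_congr rfl h1, Finset.sum_add_distrib, Finset.sum_add_distrib,
      hc5_sq_sum S₁ _ hsub, ← Finset.mul_sum, ← Finset.mul_sum, ← Finset.mul_sum]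
    have h2 : ∑ i ∈ S₁, x i ^ 2 = sq S₁ x := rfl
    have h3 : ∑ i ∈ S₁ ∪ S₂, x i ^ 2 = sq S₁ x + sq S₂ x := hs
    rw [h2, h3]
    ring
  have hs2 : ∑ i ∈ S₁ ∪ S₂, pd i u x * pd i (fun y => (√(hc5_W S₁ y) * θ y) ^ 2) x =
      θ x ^ 2 * ((2 * w0 S₁ u x - 7 * (sq S₁ x + 1 / 800) * (w0 S₁ u x + w0 S₂ u x) /
        Real.exp (lg x) ^ 2) * Real.exp (-7 * lg x)) +
        2 * hc5_W S₁ x * θ x * ∑ i ∈ S₁ ∪ S₂, pd i u x * pd i θ x := by
    have h1 : ∀ i ∈ S₁ ∪ S₂, pd i u x * pd i (fun y => (√(hc5_W S₁ y) * θ y) ^ 2) x =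
        (if i ∈ S₁ then θ x ^ 2 * Real.exp (-7 * lg x) * 2 * (x i * pd i u x) else 0) +
        (-(θ x ^ 2 * Real.exp (-7 * lg x) * (7 * (sq S₁ x + 1 / 800)) / Real.exp (lg x) ^ 2)) *
          (x i * pd i u x) + 2 * hc5_W S₁ x * θ x * (pd i u x * pd i θ x) := by
      intro i _
      rw [hc5_pd_eta S₁ hθ, hc5_pd_W]
      split_ifs <;> ring
    rw [Finset.sum_congr rfl h1, Finset.sum_add_distrib, Finset.sum_add_distrib,
      hc5_sq_sum S₁ _ hsub, ← Finset.mul_sum, ← Finset.mul_sum, ← Finset.mul_sum]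
    have h2 : ∑ i ∈ S₁, x i * pd i u x = w0 S₁ u x := rfl
    have h3 : ∑ i ∈ S₁ ∪ S₂, x i * pd i u x = w0 S₁ u x + w0 S₂ u x := hw
    rw [h2, h3]
    ring
  rw [hs1, hs2, hc5_gd_eta S₁ hθ, hc5_gd_W, hcard]
  unfold hc5_err D1
  rw [hw, hg, mul_pow, hc5_sqrt_sq]
  generalize (∑ i ∈ S₁ ∪ S₂, x i * pd i θ x) = t1
  generalize (∑ i ∈ S₁ ∪ S₂, pd i u x * pd i θ x) = t2
  generalize gd (hc5_W S₁) θ x = g1
  generalize gd θ θ x = g2
  unfold hc5_W
  generalize w0 S₁ u x = a1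
  generalize w0 S₂ u x = a2
  generalize gs S₁ u x = b1
  generalize gs S₂ u x = b2
  generalize θ x = t
  generalize ‖x‖ = n
  generalize Real.exp (-7 * lg x) = X at hX
  generalize Real.exp (lg x) = E at hE
  generalize sq S₂ x = s2
  generalize hs' : sq S₁ x = s1 at hN
  have hN' : s1 * 800 + 1 ≠ 0 := by
    intro h
    apply hN
    linarith
  field_simp
  ring

/-- the error term is small -/
theorem hc5_err_le [DecidableEq ι] (S₁ S : Finset ι) (hc : S.card = 5) (u : V ι → ℝ)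
    {θ : V ι → ℝ} {x : V ι} {C T : ℝ} (hT : 1 ≤ T) (hC : 0 ≤ C)
    (h0 : 0 ≤ θ x) (h1 : θ x ≤ 1) (hd : ‖fderiv ℝ θ x‖ ≤ C / T * Real.exp (-lg x)) :
    hc5_err S₁ S u θ x ≤ (9 * Fintype.card ι * C + C ^ 2 + 30 * C) / T *
      (gs S u x * Real.exp (-5 * lg x)) := by
  set E := Real.exp (lg x) with hE
  have hE0 : 0 < E := Real.exp_pos _
  have hE1 : 1 ≤ E := one_le_exp_lg x
  have hE5 : Real.exp (-5 * lg x) = 1 / E ^ 5 := by
    rw [hE, ← Real.exp_nat_mul, one_div, ← Real.exp_neg]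
    congr 1; push_cast; ring
  have hE7 : Real.exp (-7 * lg x) = 1 / E ^ 7 := by
    rw [hE, ← Real.exp_nat_mul, one_div, ← Real.exp_neg]
    congr 1; push_cast; ring
  have hEi : Real.exp (-lg x) = 1 / E := by
    rw [hE, Real.exp_neg, one_div]
  have hT0 : 0 < T := by linarith
  set t := ‖fderiv ℝ θ x‖ with ht
  have ht0 : 0 ≤ t := norm_nonneg _
  have htE : t ≤ C / T / E := by
    rw [hEi] at hd
    calc t ≤ C / T * (1 / E) := hd
      _ = C / T / E := by ring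
  set A := gs S u x with hA
  have hA0 : 0 ≤ A := Finset.sum_nonneg fun _ _ => sq_nonneg _
  have hn : ∑ i, x i ^ 2 = ‖x‖ ^ 2 := by
    rw [EuclideanSpace.norm_sq_eq]
    apply Finset.sum_congr rfl
    intro i _
    rw [Real.norm_eq_abs, sq_abs]
  have hEn : E ^ 2 = 1 + ‖x‖ ^ 2 := exp_lg_sq x
  have hsqS : ∀ S' : Finset ι, sq S' x ≤ ‖x‖ ^ 2 := by
    intro S'
    rw [← hn]
    exact Finset.sum_le_sum_of_subset_of_nonneg (Finset.subset_univ _)
      fun _ _ _ => sq_nonneg _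
  have hN0 : 0 ≤ sq S₁ x + 1 / 800 := by
    have := hc5_sq_nonneg S₁ x
    positivity
  have hN1 : sq S₁ x + 1 / 800 ≤ E ^ 2 := by
    rw [hEn]
    linarith [hsqS S₁]
  have hW0 : 0 < hc5_W S₁ x := hc5_W_pos S₁ x
  have hW : hc5_W S₁ x ≤ 1 / E ^ 5 := by
    unfold hc5_W
    rw [hE7]
    calc (sq S₁ x + 1 / 800) * (1 / E ^ 7) ≤ E ^ 2 * (1 / E ^ 7) :=
          mul_le_mul_of_nonneg_right hN1 (by positivity)
      _ = 1 / E ^ 5 := by field_simp
  have hxi : ∀ i, |x i| ≤ E := fun i => (abs_coord_le x i).trans (norm_le_exp_lg x)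
  set w := w0 S u x with hw
  have hw2 : w ^ 2 ≤ E ^ 2 * A := by
    refine (Finset.sum_mul_sq_le_sq_mul_sq _ _ _).trans ?_
    apply mul_le_mul_of_nonneg_right _ hA0
    rw [hEn]
    have := hsqS S
    unfold sq at this
    linarith
  have hak : ∀ i ∈ S, pd i u x ^ 2 ≤ A := fun i hi =>
    Finset.single_le_sum (f := fun i => pd i u x ^ 2) (fun _ _ => sq_nonneg _) hi
  have hwa : ∀ i ∈ S, |w * pd i u x| ≤ E * A := by
    intro i hi
    apply abs_le_of_sq_le_sq _ (by positivity)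
    rw [mul_pow, mul_pow]
    calc w ^ 2 * pd i u x ^ 2 ≤ (E ^ 2 * A) * A :=
          mul_le_mul hw2 (hak i hi) (sq_nonneg _) (by positivity)
      _ = E ^ 2 * A ^ 2 := by ring
  have hθk : ∀ i, |pd i θ x| ≤ t := fun i => abs_pd_le θ i x
  -- the derivative of the weight
  have hWi : ∀ i, |pd i (hc5_W S₁) x| ≤ 9 / E ^ 6 := by
    intro i
    rw [hc5_pd_W, hE7, abs_mul, abs_of_pos (by positivity : 0 < 1 / E ^ 7)]
    have h2 : |(if i ∈ S₁ then 2 * x i else 0) - 7 * (sq S₁ x + 1 / 800) * x i / E ^ 2| ≤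
        9 * E := by
      have h3 : |(if i ∈ S₁ then 2 * x i else 0)| ≤ 2 * E := by
        split_ifs
        · rw [abs_mul, abs_of_pos (by norm_num : (0 : ℝ) < 2)]
          linarith [hxi i]
        · rw [abs_zero]; positivity
      have h4 : |7 * (sq S₁ x + 1 / 800) * x i / E ^ 2| ≤ 7 * E := by
        rw [abs_div, abs_mul, abs_mul, abs_of_pos (by norm_num : (0 : ℝ) < 7),
          abs_of_nonneg hN0, abs_of_pos (by positivity : 0 < E ^ 2)]
        rw [div_le_iff₀ (by positivity)]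
        calc 7 * (sq S₁ x + 1 / 800) * |x i| ≤ 7 * E ^ 2 * E := by
              apply mul_le_mul _ (hxi i) (abs_nonneg _) (by positivity)
              linarith
          _ = 7 * E * E ^ 2 := by ring
      calc _ ≤ |(if i ∈ S₁ then 2 * x i else 0)| + |7 * (sq S₁ x + 1 / 800) * x i / E ^ 2| :=
            abs_sub _ _
        _ ≤ 9 * E := by linarith
    calc _ ≤ 9 * E * (1 / E ^ 7) := mul_le_mul_of_nonneg_right h2 (by positivity)
      _ = 9 / E ^ 6 := by field_simp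
  have hg1 : |gd (hc5_W S₁) θ x| ≤ Fintype.card ι * (9 / E ^ 6 * t) := by
    unfold gd
    refine (Finset.abs_sum_le_sum_abs _ _).trans ?_
    have h2 : ∀ i ∈ (Finset.univ : Finset ι), |pd i (hc5_W S₁) x * pd i θ x| ≤
        9 / E ^ 6 * t := by
      intro i _
      rw [abs_mul]
      exact mul_le_mul (hWi i) (hθk i) (abs_nonneg _) (by positivity)
    have h3 := Finset.sum_le_card_nsmul _ _ _ h2
    rwa [nsmul_eq_mul, Finset.card_univ] at h3
  have hg2 : gd θ θ x = t ^ 2 := gd_self θ x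
  -- first term
  have hT1 : w ^ 2 * (θ x * gd (hc5_W S₁) θ x) ≤
      (9 * Fintype.card ι * C) / T * (A * (1 / E ^ 5)) := by
    have h2 : θ x * gd (hc5_W S₁) θ x ≤ 1 * (Fintype.card ι * (9 / E ^ 6 * (C / T / E))) := by
      refine (le_abs_self _).trans ?_
      rw [abs_mul, abs_of_nonneg h0]
      apply mul_le_mul h1 (hg1.trans _) (abs_nonneg _) (by positivity)
      apply mul_le_mul_of_nonneg_left _ (by positivity)
      exact mul_le_mul_of_nonneg_left htE (by positivity)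
    calc w ^ 2 * (θ x * gd (hc5_W S₁) θ x) ≤
        w ^ 2 * (1 * (Fintype.card ι * (9 / E ^ 6 * (C / T / E)))) :=
          mul_le_mul_of_nonneg_left h2 (sq_nonneg _)
      _ ≤ (E ^ 2 * A) * (1 * (Fintype.card ι * (9 / E ^ 6 * (C / T / E)))) :=
          mul_le_mul_of_nonneg_right hw2 (by positivity)
      _ = _ := by field_simp
  have hT2 : w ^ 2 * (hc5_W S₁ x * gd θ θ x) ≤ (C ^ 2) / T * (A * (1 / E ^ 5)) := by
    rw [hg2]
    have h2 : t ^ 2 ≤ (C / T / E) ^ 2 := pow_le_pow_left₀ ht0 htE 2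
    have h3 : (C / T / E) ^ 2 ≤ C ^ 2 / T / E ^ 2 := by
      have h4 : (C / T / E) ^ 2 = C ^ 2 / T / E ^ 2 * (1 / T) := by field_simp
      rw [h4]
      have h5 : 1 / T ≤ 1 := by rw [div_le_one hT0]; exact hT
      have h6 : 0 ≤ C ^ 2 / T / E ^ 2 := by positivity
      nlinarith
    calc w ^ 2 * (hc5_W S₁ x * t ^ 2) ≤ (E ^ 2 * A) * ((1 / E ^ 5) *
          (C ^ 2 / T / E ^ 2)) := by
          apply mul_le_mul hw2 _ (by positivity) (by positivity)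
          exact mul_le_mul hW (h2.trans h3) (by positivity) (by positivity)
      _ = _ := by field_simp
  have hT3 : -(A * (2 * hc5_W S₁ x * θ x * ∑ i ∈ S, x i * pd i θ x)) ≤
      (10 * C) / T * (A * (1 / E ^ 5)) := by
    have h2 : |∑ i ∈ S, x i * pd i θ x| ≤ 5 * (E * (C / T / E)) := by
      refine (Finset.abs_sum_le_sum_abs _ _).trans ?_
      have h3 : ∀ i ∈ S, |x i * pd i θ x| ≤ E * (C / T / E) := by
        intro k _
        rw [abs_mul]
        exact mul_le_mul (hxi k) ((hθk _).trans htE) (abs_nonneg _) hE0.le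
      have h4 := Finset.sum_le_card_nsmul _ _ _ h3
      rw [nsmul_eq_mul, hc] at h4
      exact_mod_cast h4
    have h5 : 2 * hc5_W S₁ x * θ x * |∑ i ∈ S, x i * pd i θ x| ≤
        2 * (1 / E ^ 5) * 1 * (5 * (E * (C / T / E))) := by
      apply mul_le_mul _ h2 (abs_nonneg _) (by positivity)
      apply mul_le_mul _ h1 h0 (by positivity)
      linarith
    have h6 : -(2 * hc5_W S₁ x * θ x * ∑ i ∈ S, x i * pd i θ x) ≤
        2 * hc5_W S₁ x * θ x * |∑ i ∈ S, x i * pd i θ x| := by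
      rw [← mul_neg]
      exact mul_le_mul_of_nonneg_left (neg_le_abs _) (by positivity)
    calc -(A * (2 * hc5_W S₁ x * θ x * ∑ i ∈ S, x i * pd i θ x)) =
        A * (-(2 * hc5_W S₁ x * θ x * ∑ i ∈ S, x i * pd i θ x)) := by ring
      _ ≤ A * (2 * (1 / E ^ 5) * 1 * (5 * (E * (C / T / E)))) :=
          mul_le_mul_of_nonneg_left (h6.trans h5) hA0
      _ = _ := by field_simp; ring
  have hT4 : 2 * w * (2 * hc5_W S₁ x * θ x * ∑ i ∈ S, pd i u x * pd i θ x) ≤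
      (20 * C) / T * (A * (1 / E ^ 5)) := by
    have h2 : |w * ∑ i ∈ S, pd i u x * pd i θ x| ≤ 5 * (E * A * (C / T / E)) := by
      rw [Finset.mul_sum]
      refine (Finset.abs_sum_le_sum_abs _ _).trans ?_
      have h3 : ∀ i ∈ S, |w * (pd i u x * pd i θ x)| ≤ E * A * (C / T / E) := by
        intro k hk
        rw [← mul_assoc, abs_mul]
        exact mul_le_mul (hwa k hk) ((hθk _).trans htE) (abs_nonneg _) (by positivity)
      have h4 := Finset.sum_le_card_nsmul _ _ _ h3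
      rw [nsmul_eq_mul, hc] at h4
      exact_mod_cast h4
    have h5 : 4 * hc5_W S₁ x * θ x * |w * ∑ i ∈ S, pd i u x * pd i θ x| ≤
        4 * (1 / E ^ 5) * 1 * (5 * (E * A * (C / T / E))) := by
      apply mul_le_mul _ h2 (abs_nonneg _) (by positivity)
      apply mul_le_mul _ h1 h0 (by positivity)
      linarith
    calc 2 * w * (2 * hc5_W S₁ x * θ x * ∑ i ∈ S, pd i u x * pd i θ x) =
        4 * hc5_W S₁ x * θ x * (w * ∑ i ∈ S, pd i u x * pd i θ x) := by ring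
      _ ≤ 4 * hc5_W S₁ x * θ x * |w * ∑ i ∈ S, pd i u x * pd i θ x| :=
          mul_le_mul_of_nonneg_left (le_abs_self _) (by positivity)
      _ ≤ _ := h5
      _ = _ := by field_simp; ring
  rw [hE5]
  unfold hc5_err
  rw [mul_add]
  have hsum : (9 * Fintype.card ι * C + C ^ 2 + 30 * C) / T * (A * (1 / E ^ 5)) =
      (9 * Fintype.card ι * C) / T * (A * (1 / E ^ 5)) + (C ^ 2) / T * (A * (1 / E ^ 5)) +
      (10 * C) / T * (A * (1 / E ^ 5)) + (20 * C) / T * (A * (1 / E ^ 5)) := by ring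
  rw [hsum]
  linarith

theorem hc5_err_zero (S₁ S : Finset ι) (u : V ι → ℝ) {θ : V ι → ℝ}
    {x : V ι} (h : fderiv ℝ θ x = 0) : hc5_err S₁ S u θ x = 0 := by
  unfold hc5_err gd
  simp only [rk3_pd_zero h]
  simp

theorem hc5_D1_cont (S₁ S₂ : Finset ι) {u : V ι → ℝ} (hu : ContDiff ℝ 1 u) :
    Continuous (D1 S₁ S₂ u) := by
  have hp : ∀ i, Continuous (pd i u) := fun i => continuous_pd hu i
  have hx : ∀ i, Continuous (fun x : V ι => x i) := fun i => rk3_coord i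
  have hw : ∀ S : Finset ι, Continuous (fun x : V ι => w0 S u x) := fun S =>
    continuous_finsetSum _ fun k _ => (hx _).mul (hp _)
  have hg : ∀ S : Finset ι, Continuous (fun x : V ι => gs S u x) := fun S =>
    continuous_finsetSum _ fun k _ => (hp _).pow 2
  have hs : ∀ S : Finset ι, Continuous (fun x : V ι => sq S x) := fun S =>
    continuous_finsetSum _ fun k _ => (hx _).pow 2
  have hl : Continuous (lg : V ι → ℝ) := (contDiff_lg (n := 0)).continuous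
  have h0 : ∀ x : V ι, sq S₁ x + 1 / 800 ≠ 0 := by
    intro x
    have := hc5_sq_nonneg S₁ x
    positivity
  have h1 : ∀ (x : V ι) (n : ℕ), Real.exp (lg x) ^ n ≠ 0 := fun x n =>
    pow_ne_zero _ (Real.exp_pos _).ne'
  have hw1 := hw S₁
  have hw2 := hw S₂
  have hg1 := hg S₁
  have hg2 := hg S₂
  have hs1 := hs S₁
  have hs2 := hs S₂
  unfold D1
  fun_prop (disch := first | exact h0 | exact fun x => h1 x _ | assumption)

/-- Proof. As `dil_cut` in RK3 (which can be adapted). `dil_ineq` for the set `S₁ ∪ S₂` with five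
elements (`w0 (S₁ ∪ S₂) = w0 S₁ + w0 S₂` and so on) and `η = η₀ θ`, `η₀ x = √(N x) exp (- 7 / 2 * lg x)`,
`N = sq S₁ + 1 / 800`, `θ = cut T`. With `E = exp (lg x) ^ 2 = 1 + ‖x‖ ^ 2` (`exp_lg_sq`, `fderiv_lg`),
`η₀ ^ 2 = N exp (- 7 lg)`, `pd i (η₀ ^ 2) = (2 x i [i ∈ S₁] - 7 N x i / E) exp (- 7 lg)`,
`gd η₀ η₀ = (sq S₁ / N - 7 sq S₁ / E + 49 / 4 N ‖x‖ ^ 2 / E ^ 2) exp (- 7 lg)`; so the integrand for `η₀` is
`D1 S₁ S₂ u`, and the integrand for `η` is `D1 θ ^ 2` plus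
`w ^ 2 (2 η₀ θ gd η₀ θ + η₀ ^ 2 gd θ θ) - G η₀ ^ 2 ∑ i, x i pd i (θ ^ 2)
+ 2 w η₀ ^ 2 ∑ i, pd i u pd i (θ ^ 2)`
(`w = w0 S₁ + w0 S₂`, `G = gs S₁ + gs S₂`, `w ^ 2 ≤ ‖x‖ ^ 2 G`), which is supported in the shell and at
most `(C / T) G exp (- 5 lg)`: `η₀ ^ 2 ≤ E exp (- 7 lg)`, `‖fderiv η₀‖ ≤ 5 exp (- 7 / 2 * lg)`,
`‖fderiv θ‖ ≤ (C₀ / T) exp (- lg)`, `T ≥ 1`. -/
theorem dil_cut2 {K : ℝ} {u : V ι → ℝ} {S₁ S₂ : Finset ι} (hu : GS K u) (hst : Stab u)
    (hd : Disjoint S₁ S₂) (hc : S₁.card + S₂.card = 5) : ∃ C : ℝ, 0 ≤ C ∧ ∀ T : ℝ, 1 ≤ T →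
      0 ≤ (∫ x, D1 S₁ S₂ u x * cut T x ^ 2) +
        C / T * ∫ x in shell T 1 ∅, (gs S₁ u x + gs S₂ u x) * Real.exp (-5 * lg x) := by
  classical
  obtain ⟨C₀, hC₀, hcut⟩ := cut_facts (ι := ι)
  refine ⟨9 * Fintype.card ι * C₀ + C₀ ^ 2 + 30 * C₀, by positivity, fun T hT => ?_⟩
  set C := 9 * Fintype.card ι * C₀ + C₀ ^ 2 + 30 * C₀ with hC
  obtain ⟨hT1, h01, -, -, hd', hz⟩ := hcut T hT
  have hT0 : 0 < T := by linarith
  have hη : T1 (fun x => √(hc5_W S₁ x) * cut T x) := T1.mul (hc5_sqrt_contDiff S₁) hT1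
  have hdil := dil_ineq hu hst (S₁ ∪ S₂) hη
  have hint := rk3_int (S₁ ∪ S₂) hu.C1 hη
  have hpt : ∀ x : V ι, DifferentiableAt ℝ (cut T : V ι → ℝ) x :=
    fun x => hT1.1.differentiable one_ne_zero x
  have hcard : (S₁ ∪ S₂).card = 5 := by
    rw [Finset.card_union_of_disjoint hd]
    exact hc
  have hD : Integrable (fun x => D1 S₁ S₂ u x * cut T x ^ 2) := by
    have h2 : T1 (fun x => cut T x * cut T x) := T1.mul hT1.1 hT1
    have h3 : (fun x => D1 S₁ S₂ u x * cut T x ^ 2) =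
        fun x => D1 S₁ S₂ u x * (cut T x * cut T x) := by
      funext x; ring
    rw [h3]
    exact integrable_mul_T1 (hc5_D1_cont S₁ S₂ hu.C1) h2
  have haa : Continuous (fun x : V ι => (gs S₁ u x + gs S₂ u x) * Real.exp (-5 * lg x)) := by
    have h1 : ∀ S : Finset ι, Continuous (fun x : V ι => gs S u x) := fun S =>
      continuous_finsetSum _ fun k _ => (continuous_pd hu.C1 _).pow 2
    exact ((h1 S₁).add (h1 S₂)).mul (Real.continuous_exp.comp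
      (continuous_const.mul (contDiff_lg (n := 0)).continuous))
  have hsm : MeasurableSet (shell T 1 (∅ : Finset ι)) :=
    (isCompact_shell T 1 ∅).isClosed.measurableSet
  have hiS : IntegrableOn (fun x : V ι => (gs S₁ u x + gs S₂ u x) * Real.exp (-5 * lg x))
      (shell T 1 ∅) :=
    haa.continuousOn.integrableOn_compact (isCompact_shell T 1 ∅)
  have hiI : Integrable ((shell T 1 (∅ : Finset ι)).indicator
      fun x : V ι => C / T * ((gs S₁ u x + gs S₂ u x) * Real.exp (-5 * lg x))) := by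
    rw [integrable_indicator_iff hsm]
    exact hiS.const_mul _
  refine hdil.trans ?_
  have hR : (∫ x, D1 S₁ S₂ u x * cut T x ^ 2) +
        C / T * ∫ x in shell T 1 ∅, (gs S₁ u x + gs S₂ u x) * Real.exp (-5 * lg x) =
      ∫ x, (D1 S₁ S₂ u x * cut T x ^ 2 + (shell T 1 (∅ : Finset ι)).indicator
        (fun x : V ι => C / T * ((gs S₁ u x + gs S₂ u x) * Real.exp (-5 * lg x))) x) := by
    rw [integral_add hD hiI, integral_indicator hsm, integral_const_mul]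
  rw [hR]
  apply integral_mono hint (hD.add hiI)
  intro x
  have hp := hc5_point hd hc u (hpt x)
  show _ ≤ _
  refine (le_of_eq hp).trans ?_
  simp only [Pi.add_apply]
  apply add_le_add le_rfl
  by_cases hx : x ∈ shell T 1 (∅ : Finset ι)
  · rw [Set.indicator_of_mem hx, ← (hc5_union hd u x).2.1]
    exact hc5_err_le S₁ _ hcard u hT hC₀ (h01 x).1 (h01 x).2 (hd' x)
  · rw [Set.indicator_of_notMem hx, hc5_err_zero S₁ _ u (hz x hx)]

end Pool.Agent.Helper68.DG
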