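import Pool.Agent.Helper68.DG.Base
import Pool.Agent.Helper68.DG.Defs3

/-! Project DG (MP_800410_an), piece HC6: the algebraic inequality for two rotational symmetries -/

open MeasureTheory Metric Set Filter Topology
open scoped ContDiff

namespace Pool.Agent.Helper68.DG

/-- `- σ` times the first coefficient -/
noncomputable def hc6_ps (s t : ℝ) : ℝ :=
  -(8 * (9 / 4 * s - 2) + 11 / 8 * (t * (25 / 4 * s - 2) - s) + s * (s * (1 - 35 / 4 * s)) -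
    5 * s ^ 2 + 7 * s ^ 2 * (s + t) + 4 * s ^ 2 + 1 / 20 * s)

/-- `- τ` times the second coefficient -/
noncomputable def hc6_pt (s t : ℝ) : ℝ :=
  -((9 / 4 * t - 1) + 11 / 8 * (s * (25 / 4 * t - 1) - 2 * t) + t * (t * (1 - 35 / 4 * s)) -
    5 * s * t + 7 * s * t * (s + t) + 1 / 20 * t)

/-- `σ τ` times the mixed coefficient -/
noncomputable def hc6_z (s t : ℝ) : ℝ :=
  -(11 / 8) * (25 / 4 * s * t - 2 * t - s) + s * t * (3 - 35 / 4 * s)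

theorem hc6_ps_nonneg {s t : ℝ} (hs : 0 ≤ s) (ht : 0 ≤ t) (h : s + t ≤ 1) : 0 ≤ hc6_ps s t := by
  obtain ⟨c, hc⟩ : ∃ c, c = 1 - s - t := ⟨_, rfl⟩
  have hc0 : 0 ≤ c := by linarith
  have key : hc6_ps s t =
      43 / 40 * s ^ 3 + 289 / 160 * s ^ 2 * t + 293 / 20 * s ^ 2 * c + 4517 / 160 * s * t ^ 2 +
      9529 / 160 * s * t * c + 1253 / 40 * s * c ^ 2 + 75 / 4 * t ^ 3 + 107 / 2 * t ^ 2 * c +
      203 / 4 * t * c ^ 2 + 16 * c ^ 3 := by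
    unfold hc6_ps
    rw [hc]; ring
  rw [key]
  positivity

theorem hc6_pt1 {a b c : ℝ} (ha : 0 ≤ a) (hb : 0 ≤ b) (hc0 : 0 ≤ c) (h : a + b + c = 1) :
    0 ≤ hc6_pt (1 / 2 * a) (1 / 2 * a + b) := by
  have hc : c = 1 - a - b := by linarith
  have key : hc6_pt (1 / 2 * a) (1 / 2 * a + b) =
      69 / 640 * a ^ 3 + 291 / 640 * a ^ 2 * b + 2353 / 640 * a ^ 2 * c + 121 / 64 * a * b ^ 2 +
      1897 / 320 * a * b * c + 313 / 80 * a * c ^ 2 + 9 / 20 * b ^ 3 + 29 / 10 * b ^ 2 * c +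
      69 / 20 * b * c ^ 2 + 1 * c ^ 3 := by
    unfold hc6_pt
    rw [hc]; ring
  rw [key]
  positivity

theorem hc6_pt2 {a b c : ℝ} (ha : 0 ≤ a) (hb : 0 ≤ b) (hc0 : 0 ≤ c) (h : a + b + c = 1) :
    0 ≤ hc6_pt (a + 1 / 2 * b) (1 / 2 * b) := by
  have hc : c = 1 - a - b := by linarith
  have key : hc6_pt (a + 1 / 2 * b) (1 / 2 * b) =
      19 / 8 * a ^ 3 + 437 / 320 * a ^ 2 * b + 23 / 4 * a ^ 2 * c + 123 / 640 * a * b ^ 2 +
      2809 / 320 * a * b * c + 35 / 8 * a * c ^ 2 + 69 / 640 * b ^ 3 + 2353 / 640 * b ^ 2 * c +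
      313 / 80 * b * c ^ 2 + 1 * c ^ 3 := by
    unfold hc6_pt
    rw [hc]; ring
  rw [key]
  positivity

theorem hc6_d1 {a b c : ℝ} (ha : 0 ≤ a) (hb : 0 ≤ b) (hc0 : 0 ≤ c) (h : a + b + c = 1) :
    0 ≤ hc6_ps (1 / 2 * a) (1 / 2 * a + b) * hc6_pt (1 / 2 * a) (1 / 2 * a + b) - hc6_z (1 / 2 * a) (1 / 2 * a + b) ^ 2 := by
  have hc : c = 1 - a - b := by linarith
  have key : hc6_ps (1 / 2 * a) (1 / 2 * a + b) * hc6_pt (1 / 2 * a) (1 / 2 * a + b) - hc6_z (1 / 2 * a) (1 / 2 * a + b) ^ 2 =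
      3119 / 6400 * a ^ 6 + 40599 / 6400 * a ^ 5 * b + 367367 / 12800 * a ^ 5 * c +
      26567 / 800 * a ^ 4 * b ^ 2 + 43235 / 256 * a ^ 4 * b * c +
      3597531 / 25600 * a ^ 4 * c ^ 2 + 485329 / 6400 * a ^ 3 * b ^ 3 +
      5364583 / 12800 * a ^ 3 * b ^ 2 * c + 15774409 / 25600 * a ^ 3 * b * c ^ 2 +
      6976009 / 25600 * a ^ 3 * c ^ 3 + 485451 / 6400 * a ^ 2 * b ^ 4 +
      1641661 / 3200 * a ^ 2 * b ^ 3 * c + 2684637 / 2560 * a ^ 2 * b ^ 2 * c ^ 2 +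
      10989771 / 12800 * a ^ 2 * b * c ^ 3 + 395291 / 1600 * a ^ 2 * c ^ 4 +
      90389 / 3200 * a * b ^ 5 + 903351 / 3200 * a * b ^ 4 * c +
      2494409 / 3200 * a * b ^ 3 * c ^ 2 + 2971961 / 3200 * a * b ^ 2 * c ^ 3 +
      811077 / 1600 * a * b * c ^ 4 + 8291 / 80 * a * c ^ 5 + 7 / 8 * b ^ 6 +
      241 / 5 * b ^ 5 * c + 1973 / 10 * b ^ 4 * c ^ 2 + 6549 / 20 * b ^ 3 * c ^ 3 +
      10697 / 40 * b ^ 2 * c ^ 4 + 2119 / 20 * b * c ^ 5 + 16 * c ^ 6 := by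
    unfold hc6_ps hc6_pt hc6_z
    rw [hc]; ring
  rw [key]
  positivity

theorem hc6_d2 {a b c : ℝ} (ha : 0 ≤ a) (hb : 0 ≤ b) (hc0 : 0 ≤ c) (h : a + b + c = 1) :
    0 ≤ hc6_ps (1 / 2 * a + 1 / 2 * b) (1 / 2 * b) * hc6_pt (1 / 2 * a + 1 / 2 * b) (1 / 2 * b) - hc6_z (1 / 2 * a + 1 / 2 * b) (1 / 2 * b) ^ 2 := by
  have hc : c = 1 - a - b := by linarith
  have key : hc6_ps (1 / 2 * a + 1 / 2 * b) (1 / 2 * b) * hc6_pt (1 / 2 * a + 1 / 2 * b) (1 / 2 * b) - hc6_z (1 / 2 * a + 1 / 2 * b) (1 / 2 * b) ^ 2 =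
      32837 / 2560 * a ^ 6 + 6503679 / 102400 * a ^ 5 * b + 109377 / 1280 * a ^ 5 * c +
      2584909 / 20480 * a ^ 4 * b ^ 2 + 37911751 / 102400 * a ^ 4 * b * c +
      589321 / 2560 * a ^ 4 * c ^ 2 + 2587253 / 20480 * a ^ 3 * b ^ 3 +
      32066477 / 51200 * a ^ 3 * b ^ 2 * c + 21553341 / 25600 * a ^ 3 * b * c ^ 2 +
      12881 / 40 * a ^ 3 * c ^ 3 + 1319223 / 20480 * a ^ 2 * b ^ 4 +
      52470231 / 102400 * a ^ 2 * b ^ 3 * c + 29029533 / 25600 * a ^ 2 * b ^ 2 * c ^ 2 +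
      23846599 / 25600 * a ^ 2 * b * c ^ 3 + 158149 / 640 * a ^ 2 * c ^ 4 +
      14441 / 1024 * a * b ^ 5 + 5109451 / 25600 * a * b ^ 4 * c +
      16966933 / 25600 * a * b ^ 3 * c ^ 2 + 1411723 / 1600 * a * b ^ 2 * c ^ 3 +
      1599187 / 3200 * a * b * c ^ 4 + 7893 / 80 * a * c ^ 5 + 3119 / 6400 * b ^ 6 +
      367367 / 12800 * b ^ 5 * c + 3597531 / 25600 * b ^ 4 * c ^ 2 +
      6976009 / 25600 * b ^ 3 * c ^ 3 + 395291 / 1600 * b ^ 2 * c ^ 4 + 8291 / 80 * b * c ^ 5 +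
      16 * c ^ 6 := by
    unfold hc6_ps hc6_pt hc6_z
    rw [hc]; ring
  rw [key]
  positivity

theorem hc6_d3 {a b c : ℝ} (ha : 0 ≤ a) (hb : 0 ≤ b) (hc0 : 0 ≤ c) (h : a + b + c = 1) :
    0 ≤ hc6_ps (3 / 4 * a + 1 / 2 * b + 1 / 2 * c) (1 / 4 * a + 1 / 2 * b) * hc6_pt (3 / 4 * a + 1 / 2 * b + 1 / 2 * c) (1 / 4 * a + 1 / 2 * b) - hc6_z (3 / 4 * a + 1 / 2 * b + 1 / 2 * c) (1 / 4 * a + 1 / 2 * b) ^ 2 := by
  have hc : c = 1 - a - b := by linarith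
  have key : hc6_ps (3 / 4 * a + 1 / 2 * b + 1 / 2 * c) (1 / 4 * a + 1 / 2 * b) * hc6_pt (3 / 4 * a + 1 / 2 * b + 1 / 2 * c) (1 / 4 * a + 1 / 2 * b) - hc6_z (3 / 4 * a + 1 / 2 * b + 1 / 2 * c) (1 / 4 * a + 1 / 2 * b) ^ 2 =
      88013 / 102400 * a ^ 6 + 17171 / 5120 * a ^ 5 * b + 3246643 / 204800 * a ^ 5 * c +
      422289 / 102400 * a ^ 4 * b ^ 2 + 738779 / 10240 * a ^ 4 * b * c +
      56990643 / 819200 * a ^ 4 * c ^ 2 + 95453 / 51200 * a ^ 3 * b ^ 3 +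
      26974787 / 204800 * a ^ 3 * b ^ 2 * c + 217151597 / 819200 * a ^ 3 * b * c ^ 2 +
      111023947 / 819200 * a ^ 3 * c ^ 3 + 3077 / 3200 * a ^ 2 * b ^ 4 +
      12862403 / 102400 * a ^ 2 * b ^ 3 * c + 31305651 / 81920 * a ^ 2 * b ^ 2 * c ^ 2 +
      160402123 / 409600 * a ^ 2 * b * c ^ 3 + 6866203 / 51200 * a ^ 2 * c ^ 4 +
      15543 / 12800 * a * b ^ 5 + 3291789 / 51200 * a * b ^ 4 * c +
      51531819 / 204800 * a * b ^ 3 * c ^ 2 + 78072201 / 204800 * a * b ^ 2 * c ^ 3 +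
      52974129 / 204800 * a * b * c ^ 4 + 13515279 / 204800 * a * c ^ 5 + 3119 / 6400 * b ^ 6 +
      14441 / 1024 * b ^ 5 * c + 1319223 / 20480 * b ^ 4 * c ^ 2 +
      2587253 / 20480 * b ^ 3 * c ^ 3 + 2584909 / 20480 * b ^ 2 * c ^ 4 +
      6503679 / 102400 * b * c ^ 5 + 32837 / 2560 * c ^ 6 := by
    unfold hc6_ps hc6_pt hc6_z
    rw [hc]; ring
  rw [key]
  positivity

theorem hc6_d4 {a b c : ℝ} (ha : 0 ≤ a) (hb : 0 ≤ b) (hc0 : 0 ≤ c) (h : a + b + c = 1) :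
    0 ≤ hc6_ps (a + 3 / 4 * b + 1 / 2 * c) (1 / 4 * b) * hc6_pt (a + 3 / 4 * b + 1 / 2 * c) (1 / 4 * b) - hc6_z (a + 3 / 4 * b + 1 / 2 * c) (1 / 4 * b) ^ 2 := by
  have hc : c = 1 - a - b := by linarith
  have key : hc6_ps (a + 3 / 4 * b + 1 / 2 * c) (1 / 4 * b) * hc6_pt (a + 3 / 4 * b + 1 / 2 * c) (1 / 4 * b) - hc6_z (a + 3 / 4 * b + 1 / 2 * c) (1 / 4 * b) ^ 2 =
      53 / 80 * a ^ 6 + 57299 / 6400 * a ^ 5 * b + 2991 / 160 * a ^ 5 * c +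
      684371 / 25600 * a ^ 4 * b ^ 2 + 1304891 / 12800 * a ^ 4 * b * c +
      52639 / 640 * a ^ 4 * c ^ 2 + 1766343 / 51200 * a ^ 3 * b ^ 3 +
      10310359 / 51200 * a ^ 3 * b ^ 2 * c + 16498761 / 51200 * a ^ 3 * b * c ^ 2 +
      49243 / 320 * a ^ 3 * c ^ 3 + 2268869 / 102400 * a ^ 2 * b ^ 4 +
      38635867 / 204800 * a ^ 2 * b ^ 3 * c + 9448059 / 20480 * a ^ 2 * b ^ 2 * c ^ 2 +
      22584949 / 51200 * a ^ 2 * b * c ^ 3 + 372001 / 2560 * a ^ 2 * c ^ 4 +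
      22273 / 3200 * a * b ^ 5 + 353817 / 4096 * a * b ^ 4 * c +
      238773547 / 819200 * a * b ^ 3 * c ^ 2 + 86334859 / 204800 * a * b ^ 2 * c ^ 3 +
      56885119 / 204800 * a * b * c ^ 4 + 17529 / 256 * a * c ^ 5 + 88013 / 102400 * b ^ 6 +
      3246643 / 204800 * b ^ 5 * c + 56990643 / 819200 * b ^ 4 * c ^ 2 +
      111023947 / 819200 * b ^ 3 * c ^ 3 + 6866203 / 51200 * b ^ 2 * c ^ 4 +
      13515279 / 204800 * b * c ^ 5 + 32837 / 2560 * c ^ 6 := by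
    unfold hc6_ps hc6_pt hc6_z
    rw [hc]; ring
  rw [key]
  positivity

theorem hc6_pt_nonneg {s t : ℝ} (hs : 0 ≤ s) (ht : 0 ≤ t) (h : s + t ≤ 1) : 0 ≤ hc6_pt s t := by
  rcases le_total s t with hst | hst
  · have h1 := hc6_pt1 (a := 2 * s) (b := t - s) (c := 1 - s - t) (by linarith) (by linarith)
      (by linarith) (by ring)
    have e1 : (1 / 2 * (2 * s)) = s := by ring
    have e2 : (1 / 2 * (2 * s) + (t - s)) = t := by ring
    rwa [e2, e1] at h1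
  · have h1 := hc6_pt2 (a := s - t) (b := 2 * t) (c := 1 - s - t) (by linarith) (by linarith)
      (by linarith) (by ring)
    have e1 : (s - t + 1 / 2 * (2 * t)) = s := by ring
    have e2 : (1 / 2 * (2 * t)) = t := by ring
    rwa [e1, e2] at h1

theorem hc6_d_nonneg {s t : ℝ} (hs : 0 ≤ s) (ht : 0 ≤ t) (h : s + t ≤ 1) :
    0 ≤ hc6_ps s t * hc6_pt s t - hc6_z s t ^ 2 := by
  rcases le_total s t with hst | hst
  · have h1 := hc6_d1 (a := 2 * s) (b := t - s) (c := 1 - s - t) (by linarith) (by linarith)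
      (by linarith) (by ring)
    have e1 : (1 / 2 * (2 * s)) = s := by ring
    have e2 : (1 / 2 * (2 * s) + (t - s)) = t := by ring
    rwa [e2, e1] at h1
  · rcases le_total s (1 / 2) with h2 | h2
    · have h1 := hc6_d2 (a := 2 * s - 2 * t) (b := 2 * t) (c := 1 - 2 * s) (by linarith)
        (by linarith) (by linarith) (by ring)
      have e1 : (1 / 2 * (2 * s - 2 * t) + 1 / 2 * (2 * t)) = s := by ring
      have e2 : (1 / 2 * (2 * t)) = t := by ring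
      rwa [e1, e2] at h1
    · rcases le_total (2 * s - 1) (2 * t) with h3 | h3
      · have h1 := hc6_d3 (a := 4 * s - 2) (b := 1 - 2 * s + 2 * t) (c := 2 - 2 * s - 2 * t)
          (by linarith) (by linarith) (by linarith) (by ring)
        have e1 : (3 / 4 * (4 * s - 2) + 1 / 2 * (1 - 2 * s + 2 * t) +
          1 / 2 * (2 - 2 * s - 2 * t)) = s := by ring
        have e2 : (1 / 4 * (4 * s - 2) + 1 / 2 * (1 - 2 * s + 2 * t)) = t := by ring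
        rwa [e1, e2] at h1
      · have h1 := hc6_d4 (a := 2 * s - 1 - 2 * t) (b := 4 * t) (c := 2 - 2 * s - 2 * t)
          (by linarith) (by linarith) (by linarith) (by ring)
        have e1 : (2 * s - 1 - 2 * t + 3 / 4 * (4 * t) + 1 / 2 * (2 - 2 * s - 2 * t)) = s := by ring
        have e2 : (1 / 4 * (4 * t)) = t := by ring
        rwa [e1, e2] at h1

/-- the main inequality, in the scale invariant variables -/
theorem hc6_main {s t A B v : ℝ} (hs : 0 < s) (ht : 0 < t) (h : s + t ≤ 1) (hA : 0 ≤ A)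
    (hB : 0 ≤ B) (hv : v ^ 2 = s * t * A * B) :
    8 * (9 / 4 - 2 / s) * A + (9 / 4 - 1 / t) * B +
      11 / 8 * (s * B + t * A - 2 * v) * (25 / 4 - 2 / s - 1 / t) +
      (s * A + t * B + 2 * v) * (1 - 35 / 4 * s) - 5 * (A + B) * s +
      7 * (A + B) * s * (s + t) + 4 * (s * A + v) ≤ -(1 / 20) * (A + B) := by
  have hps := hc6_ps_nonneg hs.le ht.le h
  have hpt := hc6_pt_nonneg hs.le ht.le h
  have hd := hc6_d_nonneg hs.le ht.le h
  obtain ⟨P, hP⟩ : ∃ P, P = hc6_ps s t := ⟨_, rfl⟩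
  obtain ⟨Q, hQ⟩ : ∃ Q, Q = hc6_pt s t := ⟨_, rfl⟩
  obtain ⟨Z, hZ⟩ : ∃ Z, Z = hc6_z s t := ⟨_, rfl⟩
  rw [← hP] at hps hd
  rw [← hQ] at hpt hd
  rw [← hZ] at hd
  have hst : 0 < s * t := mul_pos hs ht
  -- the quadratic form
  have h1 : (2 * Z * v) ^ 2 ≤ (t * P * A + s * Q * B) ^ 2 := by
    have e1 : (2 * Z * v) ^ 2 = 4 * Z ^ 2 * (s * t * A * B) := by rw [← hv]; ring
    have h2 : 4 * Z ^ 2 * (s * t * A * B) ≤ 4 * (P * Q) * (s * t * A * B) := by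
      apply mul_le_mul_of_nonneg_right _ (by positivity)
      linarith
    have h3 : 4 * (P * Q) * (s * t * A * B) ≤ (t * P * A + s * Q * B) ^ 2 := by
      nlinarith [sq_nonneg (t * P * A - s * Q * B)]
    linarith
  have h2 : 2 * Z * v ≤ t * P * A + s * Q * B := by
    apply le_of_sq_le_sq h1
    positivity
  have key : 8 * (9 / 4 - 2 / s) * A + (9 / 4 - 1 / t) * B +
      11 / 8 * (s * B + t * A - 2 * v) * (25 / 4 - 2 / s - 1 / t) +
      (s * A + t * B + 2 * v) * (1 - 35 / 4 * s) - 5 * (A + B) * s +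
      7 * (A + B) * s * (s + t) + 4 * (s * A + v) + 1 / 20 * (A + B) =
      (2 * Z * v - (t * P * A + s * Q * B)) / (s * t) := by
    rw [hP, hQ, hZ]
    unfold hc6_ps hc6_pt hc6_z
    field_simp
    ring
  have h3 : (2 * Z * v - (t * P * A + s * Q * B)) / (s * t) ≤ 0 :=
    div_nonpos_of_nonpos_of_nonneg (by linarith) hst.le
  linarith

theorem hc_alg {E S T A B w₁ w₂ : ℝ} (hS : 0 < S) (hT : 0 < T) (hE : S + T + 1 ≤ E)
    (hA : 0 ≤ A) (hB : 0 ≤ B) (h₁ : w₁ ^ 2 = S * A) (h₂ : w₂ ^ 2 = T * B) :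
    8 * (9 / 4 * A - 2 * (A / S) * E) + (9 / 4 * B - B / T * E) +
      11 / 8 * ((S * B + T * A - 2 * w₁ * w₂) * (25 / 4 / E - (2 / S + 1 / T))) +
      ((w₁ + w₂) ^ 2 * (S / (S + 1 / 800) - 7 * S / E + 49 / 4 * (S + 1 / 800) * (E - 1) / E ^ 2) -
        3 * (A + B) * (S + 1 / 800) -
        (A + B) * (2 * S - 7 * (S + 1 / 800) * (S + T) / E) +
        2 * (w₁ + w₂) * (2 * w₁ - 7 * (S + 1 / 800) * (w₁ + w₂) / E)) / E ≤
    -(1 / 40) * (A + B) := by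
  have hE0 : 0 < E := by linarith
  have hE1 : 1 ≤ E := by linarith
  -- the scale invariant variables
  obtain ⟨s, hs⟩ : ∃ s, s = S / E := ⟨_, rfl⟩
  obtain ⟨t, ht⟩ : ∃ t, t = T / E := ⟨_, rfl⟩
  obtain ⟨v, hv⟩ : ∃ v, v = w₁ * w₂ / E := ⟨_, rfl⟩
  obtain ⟨d, hd⟩ : ∃ d : ℝ, d = 1 / 800 / E := ⟨_, rfl⟩
  have hSs : S = s * E := by rw [hs]; field_simp
  have hTt : T = t * E := by rw [ht]; field_simp
  have hs0 : 0 < s := by rw [hs]; positivity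
  have ht0 : 0 < t := by rw [ht]; positivity
  have hst : s + t ≤ 1 := by
    rw [hs, ht, ← add_div, div_le_one hE0]; linarith
  have hd0 : 0 ≤ d := by rw [hd]; positivity
  have hd1 : d ≤ 1 / 800 := by
    rw [hd]; exact div_le_self (by norm_num) hE1
  have hvv : v ^ 2 = s * t * A * B := by
    have : v ^ 2 = w₁ ^ 2 * w₂ ^ 2 / E ^ 2 := by rw [hv]; ring
    rw [this, h₁, h₂, hSs, hTt]
    field_simp
  have hmain := hc6_main hs0 ht0 hst hA hB hvv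
  -- the square of `w₁ + w₂`
  obtain ⟨W, hW⟩ : ∃ W, W = s * A + t * B + 2 * v := ⟨_, rfl⟩
  have hWE : (w₁ + w₂) ^ 2 = W * E := by
    have : (w₁ + w₂) ^ 2 = w₁ ^ 2 + w₂ ^ 2 + 2 * (w₁ * w₂) := by ring
    rw [this, h₁, h₂, hW, hv, hs, ht]
    field_simp
  have hW0 : 0 ≤ W := by
    have h1 : 0 ≤ W * E := by rw [← hWE]; positivity
    exact nonneg_of_mul_nonneg_left h1 hE0
  have hw12 : w₁ * w₂ = v * E := by rw [hv]; field_simp
  have hN : S + 1 / 800 = (s + d) * E := by rw [hSs, hd]; field_simp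
  have hNpos : 0 < S + 1 / 800 := by positivity
  -- the bound of the fraction
  have hfr : S / (S + 1 / 800) ≤ 1 := by rw [div_le_one hNpos]; linarith
  have hfr2 : 49 / 4 * (S + 1 / 800) * (E - 1) / E ^ 2 ≤ 49 / 4 * (s + d) := by
    rw [hN]
    have e1 : 49 / 4 * ((s + d) * E) * (E - 1) / E ^ 2 = 49 / 4 * (s + d) * ((E - 1) / E) := by
      field_simp
    rw [e1]
    have h3 : (E - 1) / E ≤ 1 := by rw [div_le_one hE0]; linarith
    have h4 : 0 ≤ 49 / 4 * (s + d) := by positivity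
    calc 49 / 4 * (s + d) * ((E - 1) / E) ≤ 49 / 4 * (s + d) * 1 :=
          mul_le_mul_of_nonneg_left h3 h4
      _ = _ := mul_one _
  have hpart : ((w₁ + w₂) ^ 2 * (S / (S + 1 / 800) - 7 * S / E +
        49 / 4 * (S + 1 / 800) * (E - 1) / E ^ 2) -
        3 * (A + B) * (S + 1 / 800) -
        (A + B) * (2 * S - 7 * (S + 1 / 800) * (S + T) / E) +
        2 * (w₁ + w₂) * (2 * w₁ - 7 * (S + 1 / 800) * (w₁ + w₂) / E)) / E ≤
      W * (1 - 7 * s + 49 / 4 * (s + d)) - 3 * (A + B) * (s + d) -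
        (A + B) * (2 * s - 7 * (s + d) * (s + t)) + 4 * (s * A + v) - 14 * (s + d) * W := by
    have e0 : 7 * S / E = 7 * s := by rw [hSs]; field_simp
    have h5 : S / (S + 1 / 800) - 7 * S / E + 49 / 4 * (S + 1 / 800) * (E - 1) / E ^ 2 ≤
        1 - 7 * s + 49 / 4 * (s + d) := by rw [e0]; linarith
    have h6 : (w₁ + w₂) ^ 2 * (S / (S + 1 / 800) - 7 * S / E +
        49 / 4 * (S + 1 / 800) * (E - 1) / E ^ 2) ≤
        W * E * (1 - 7 * s + 49 / 4 * (s + d)) := by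
      rw [hWE]
      exact mul_le_mul_of_nonneg_left h5 (by positivity)
    rw [div_le_iff₀ hE0]
    have e1 : 7 * (S + 1 / 800) * (S + T) / E = 7 * (s + d) * (s + t) * E := by
      rw [hN, hSs, hTt]; field_simp
    have e2 : 2 * (w₁ + w₂) * (2 * w₁ - 7 * (S + 1 / 800) * (w₁ + w₂) / E) =
        4 * (s * A + v) * E - 14 * (s + d) * W * E := by
      have e3 : 7 * (S + 1 / 800) * (w₁ + w₂) / E = 7 * (s + d) * (w₁ + w₂) := by
        rw [hN]; field_simp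
      have e4 : 2 * (w₁ + w₂) * (2 * w₁ - 7 * (s + d) * (w₁ + w₂)) =
          4 * (w₁ ^ 2 + w₁ * w₂) - 14 * (s + d) * (w₁ + w₂) ^ 2 := by ring
      rw [e3, e4, hWE, h₁, hw12, hSs]
      ring
    rw [e1, e2]
    have e5 : 3 * (A + B) * (S + 1 / 800) = 3 * (A + B) * (s + d) * E := by rw [hN]; ring
    rw [e5]
    have e6 : (A + B) * (2 * S - 7 * (s + d) * (s + t) * E) =
        (A + B) * (2 * s - 7 * (s + d) * (s + t)) * E := by rw [hSs]; ring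
    rw [e6]
    have e7 : (W * (1 - 7 * s + 49 / 4 * (s + d)) - 3 * (A + B) * (s + d) -
        (A + B) * (2 * s - 7 * (s + d) * (s + t)) + 4 * (s * A + v) - 14 * (s + d) * W) * E =
        W * E * (1 - 7 * s + 49 / 4 * (s + d)) - 3 * (A + B) * (s + d) * E -
        (A + B) * (2 * s - 7 * (s + d) * (s + t)) * E +
        (4 * (s * A + v) * E - 14 * (s + d) * W * E) := by ring
    rw [e7]
    linarith
  have hrest : 8 * (9 / 4 * A - 2 * (A / S) * E) + (9 / 4 * B - B / T * E) +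
      11 / 8 * ((S * B + T * A - 2 * w₁ * w₂) * (25 / 4 / E - (2 / S + 1 / T))) =
      8 * (9 / 4 - 2 / s) * A + (9 / 4 - 1 / t) * B +
      11 / 8 * (s * B + t * A - 2 * v) * (25 / 4 - 2 / s - 1 / t) := by
    have e1 : 2 * w₁ * w₂ = 2 * (v * E) := by rw [← hw12]; ring
    rw [e1, hSs, hTt]
    field_simp
    ring
  have hdd : d * (-(7 / 4) * W - 3 * (A + B) + 7 * (A + B) * (s + t)) ≤ 1 / 200 * (A + B) := by
    have h7 : -(7 / 4) * W - 3 * (A + B) + 7 * (A + B) * (s + t) ≤ 4 * (A + B) := by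
      have h8 : (A + B) * (s + t) ≤ (A + B) * 1 := mul_le_mul_of_nonneg_left hst (by positivity)
      nlinarith
    calc d * (-(7 / 4) * W - 3 * (A + B) + 7 * (A + B) * (s + t)) ≤ d * (4 * (A + B)) :=
          mul_le_mul_of_nonneg_left h7 hd0
      _ ≤ 1 / 800 * (4 * (A + B)) := mul_le_mul_of_nonneg_right hd1 (by positivity)
      _ = 1 / 200 * (A + B) := by ring
  rw [hrest]
  have hfin : W * (1 - 7 * s + 49 / 4 * (s + d)) - 3 * (A + B) * (s + d) -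
        (A + B) * (2 * s - 7 * (s + d) * (s + t)) + 4 * (s * A + v) - 14 * (s + d) * W =
      W * (1 - 35 / 4 * s) - 5 * (A + B) * s + 7 * (A + B) * s * (s + t) + 4 * (s * A + v) +
        d * (-(7 / 4) * W - 3 * (A + B) + 7 * (A + B) * (s + t)) := by ring
  rw [hfin] at hpart
  rw [← hW] at hmain
  have hAB : 0 ≤ A + B := by positivity
  linarith

end Pool.Agent.Helper68.DG
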