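import Pool.Agent.Helper68.DG.Base
import Pool.Agent.Helper68.DG.C1
import Pool.Agent.Helper68.DG.C2
import Pool.Agent.Helper68.DG.D4b
import Pool.Agent.Helper68.DG.F2
import Pool.Agent.Helper68.DG.F4
import Pool.Agent.Helper68.DG.RK4
import Pool.Agent.Helper68.DG.Defs3
import Pool.Agent.Helper68.DG.HC1
import Pool.Agent.Helper68.DG.HC4
import Pool.Agent.Helper68.DG.HC5
import Pool.Agent.Helper68.DG.HC6

/-! Project DG (MP_800410_an), piece HC7: two rotational symmetries: the vanishing theorem -/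

open MeasureTheory Metric Set Filter Topology
open scoped ContDiff

namespace Pool.Agent.Helper68.DG

variable {ι : Type} [Fintype ι]

theorem hc7_ae (i : ι) : ∀ᵐ x : V ι, x i ≠ 0 := by
  classical
  have h : LinearMap.ker (EuclideanSpace.proj (𝕜 := ℝ) i : V ι →L[ℝ] ℝ).toLinearMap ≠ ⊤ := by
    intro h
    have h1 : be i ∈ LinearMap.ker (EuclideanSpace.proj (𝕜 := ℝ) i : V ι →L[ℝ] ℝ).toLinearMap := by
      rw [h]; trivial
    rw [LinearMap.mem_ker] at h1
    have h2 : (be i : V ι) i = 0 := h1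
    rw [be_apply] at h2
    simp at h2
  have h2 := Measure.addHaar_submodule volume _ h
  rw [ae_iff]
  refine measure_mono_null (fun x hx => ?_) h2
  have h3 : x i = 0 := by simpa using hx
  exact h3

theorem hc7_ae_sq {S : Finset ι} (hS : 0 < S.card) : ∀ᵐ x : V ι, 0 < sq S x := by
  obtain ⟨i, hi⟩ := Finset.card_pos.1 hS
  filter_upwards [hc7_ae i] with x hx
  have h1 : x i ^ 2 ≤ sq S x :=
    Finset.single_le_sum (f := fun j => x j ^ 2) (fun j _ => sq_nonneg _) hi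
  have h2 : 0 < x i ^ 2 := by positivity
  linarith

theorem hc7_gs_le (S₁ S₂ : Finset ι) (hd : Disjoint S₁ S₂) (u : V ι → ℝ) (x : V ι) :
    gs S₁ u x + gs S₂ u x ≤ gd u u x := by
  classical
  unfold gs gd
  rw [← Finset.sum_union hd]
  refine (Finset.sum_le_sum_of_subset_of_nonneg (Finset.subset_univ _)
    fun i _ _ => sq_nonneg _).trans (le_of_eq ?_)
  refine Finset.sum_congr rfl fun i _ => ?_
  ring

theorem hc7_sq_le (S₁ S₂ : Finset ι) (hd : Disjoint S₁ S₂) (x : V ι) :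
    1 + sq S₁ x + sq S₂ x ≤ Real.exp (lg x) ^ 2 := by
  classical
  rw [exp_lg_sq, EuclideanSpace.norm_sq_eq]
  unfold sq
  rw [add_assoc, ← Finset.sum_union hd]
  refine add_le_add_right ?_ 1
  refine (Finset.sum_le_sum_of_subset_of_nonneg (Finset.subset_univ _)
    fun i _ _ => sq_nonneg _).trans (le_of_eq ?_)
  refine Finset.sum_congr rfl fun i _ => ?_
  rw [Real.norm_eq_abs, sq_abs]

theorem hc7_sq_cont (S : Finset ι) : Continuous (sq S : V ι → ℝ) :=
  (f1_contDiff_sq (n := 1) S).continuous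

theorem hc7_gs_cont (S : Finset ι) {u : V ι → ℝ} (hu : ContDiff ℝ 1 u) : Continuous (gs S u) := by
  unfold gs
  exact continuous_finsetSum _ fun i _ => (continuous_pd hu i).pow 2

theorem hc7_w0_cont (S : Finset ι) {u : V ι → ℝ} (hu : ContDiff ℝ 1 u) : Continuous (w0 S u) := by
  unfold w0
  refine continuous_finsetSum _ fun i _ => ?_
  have := continuous_pd hu i
  fun_prop

theorem hc7_cr_cont (S₁ S₂ : Finset ι) {u : V ι → ℝ} (hu : ContDiff ℝ 1 u) :
    Continuous (cr S₁ S₂ u) := by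
  unfold cr
  refine continuous_finsetSum _ fun i _ => continuous_finsetSum _ fun j _ => ?_
  have := continuous_pd hu i
  have := continuous_pd hu j
  fun_prop

theorem hc7_D1_cont (S₁ S₂ : Finset ι) {u : V ι → ℝ} (hu : ContDiff ℝ 1 u) :
    Continuous (D1 S₁ S₂ u) := by
  have h1 := hc7_sq_cont (ι := ι) S₁
  have h2 := hc7_sq_cont (ι := ι) S₂
  have h3 := hc7_gs_cont S₁ hu
  have h4 := hc7_gs_cont S₂ hu
  have h5 := hc7_w0_cont S₁ hu
  have h6 := hc7_w0_cont S₂ hu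
  have h7 := rk4_lg_cont (ι := ι)
  have h8 : ∀ x : V ι, sq S₁ x + 1 / 800 ≠ 0 := fun x => by
    have := f1_sq_nonneg S₁ x
    positivity
  have h9 : ∀ x : V ι, Real.exp (lg x) ≠ 0 := fun x => Real.exp_ne_zero _
  have h10 : ∀ x : V ι, Real.exp (lg x) ^ 2 ≠ 0 := fun x => pow_ne_zero _ (h9 x)
  have h11 : ∀ x : V ι, Real.exp (lg x) ^ 4 ≠ 0 := fun x => pow_ne_zero _ (h9 x)
  have hE : Continuous fun x : V ι => Real.exp (lg x) := Real.continuous_exp.comp h7
  unfold D1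
  refine Continuous.mul ?_ (Real.continuous_exp.comp (continuous_const.mul h7))
  have c1 : Continuous fun x : V ι => sq S₁ x / (sq S₁ x + 1 / 800) :=
    h1.div (h1.add continuous_const) h8
  have c2 : Continuous fun x : V ι => 7 * sq S₁ x / Real.exp (lg x) ^ 2 :=
    (continuous_const.mul h1).div (hE.pow 2) h10
  have c3 : Continuous fun x : V ι =>
      49 / 4 * (sq S₁ x + 1 / 800) * ‖x‖ ^ 2 / Real.exp (lg x) ^ 4 :=
    ((continuous_const.mul (h1.add continuous_const)).mul (continuous_norm.pow 2)).div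
      (hE.pow 4) h11
  have c4 : Continuous fun x : V ι =>
      7 * (sq S₁ x + 1 / 800) * (sq S₁ x + sq S₂ x) / Real.exp (lg x) ^ 2 :=
    ((continuous_const.mul (h1.add continuous_const)).mul (h1.add h2)).div (hE.pow 2) h10
  have c5 : Continuous fun x : V ι =>
      7 * (sq S₁ x + 1 / 800) * (w0 S₁ u x + w0 S₂ u x) / Real.exp (lg x) ^ 2 :=
    ((continuous_const.mul (h1.add continuous_const)).mul (h5.add h6)).div (hE.pow 2) h10
  exact (((((h5.add h6).pow 2).mul ((c1.sub c2).add c3)).sub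
    ((continuous_const.mul (h3.add h4)).mul (h1.add continuous_const))).sub
    ((h3.add h4).mul ((continuous_const.mul h1).sub c4))).add
    ((continuous_const.mul (h5.add h6)).mul ((continuous_const.mul h5).sub c5))


/-- the pointwise inequality outside the axes -/
theorem hc7_pt {u : V ι → ℝ} {S₁ S₂ : Finset ι} (hr₁ : RotInv S₁ u) (hr₂ : RotInv S₂ u)
    (hd : Disjoint S₁ S₂) {x : V ι} (h₁ : 0 < sq S₁ x) (h₂ : 0 < sq S₂ x) :
    8 * (9 / 4 * (gs S₁ u x * Real.exp (-5 * lg x)) -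
        2 * (gs S₁ u x / sq S₁ x * Real.exp (-3 * lg x))) +
      (9 / 4 * (gs S₂ u x * Real.exp (-5 * lg x)) -
        gs S₂ u x / sq S₂ x * Real.exp (-3 * lg x)) +
      11 / 8 * (25 / 4 * (cr S₁ S₂ u x * Real.exp (-7 * lg x)) -
        cr S₁ S₂ u x * (2 / sq S₁ x + 1 / sq S₂ x) * Real.exp (-5 * lg x)) + D1 S₁ S₂ u x ≤
    -(1 / 40) * ((gs S₁ u x + gs S₂ u x) * Real.exp (-5 * lg x)) := by
  have hE : sq S₁ x + sq S₂ x + 1 ≤ Real.exp (lg x) ^ 2 := by
    have := hc7_sq_le S₁ S₂ hd x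
    linarith
  have h := hc_alg (E := Real.exp (lg x) ^ 2) h₁ h₂ hE (f2_gs_nonneg S₁ u x)
    (f2_gs_nonneg S₂ u x) (w0_sq hr₁ x) (w0_sq hr₂ x)
  rw [← cr_eq S₁ S₂ u x] at h
  have hn : ‖x‖ ^ 2 = Real.exp (lg x) ^ 2 - 1 := by
    rw [exp_lg_sq]; ring
  obtain ⟨q, hq⟩ : ∃ q, q = Real.exp (-5 * lg x) := ⟨_, rfl⟩
  obtain ⟨p, hp⟩ : ∃ p, p = Real.exp (lg x) := ⟨_, rfl⟩
  have hp0 : 0 < p := by rw [hp]; exact Real.exp_pos _
  have hq0 : 0 ≤ q := by rw [hq]; exact (Real.exp_pos _).le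
  have e3 : Real.exp (-3 * lg x) = p ^ 2 * q := by
    rw [hp, hq, ← Real.exp_nat_mul, ← Real.exp_add]
    congr 1
    push_cast
    ring
  have e7 : Real.exp (-7 * lg x) = q / p ^ 2 := by
    rw [eq_div_iff (by positivity), hp, hq, ← Real.exp_nat_mul, ← Real.exp_add]
    congr 1
    push_cast
    ring
  unfold D1
  rw [e3, e7, hn, ← hq]
  rw [← hp] at h ⊢
  have h' := mul_le_mul_of_nonneg_right h hq0
  refine (le_of_eq ?_).trans (h'.trans (le_of_eq ?_))
  · have hp4 : p ^ 4 = (p ^ 2) ^ 2 := by ring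
    rw [hp4]
    ring
  · ring

theorem hc7_int {f1 f2 f3 f4 f5 f6 f7 : V ι → ℝ} (i1 : Integrable f1) (i2 : Integrable f2)
    (i3 : Integrable f3) (i4 : Integrable f4) (i5 : Integrable f5) (i6 : Integrable f6)
    (i7 : Integrable f7)
    (h : ∀ᵐ x, 8 * (9 / 4 * f3 x - 2 * f1 x) + (9 / 4 * f4 x - f2 x) +
      11 / 8 * (25 / 4 * f6 x - f5 x) + f7 x ≤ -(1 / 40) * (f3 x + f4 x)) :
    8 * (9 / 4 * (∫ x, f3 x) - 2 * ∫ x, f1 x) + (9 / 4 * (∫ x, f4 x) - ∫ x, f2 x) +
      11 / 8 * (25 / 4 * (∫ x, f6 x) - ∫ x, f5 x) + ∫ x, f7 x ≤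
      -(1 / 40) * ((∫ x, f3 x) + ∫ x, f4 x) := by
  have j1 : Integrable fun x => 9 / 4 * f3 x - 2 * f1 x := (i3.const_mul _).sub (i1.const_mul _)
  have j2 : Integrable fun x => 9 / 4 * f4 x - f2 x := (i4.const_mul _).sub i2
  have j3 : Integrable fun x => 25 / 4 * f6 x - f5 x := (i6.const_mul _).sub i5
  have j4 : Integrable fun x => 8 * (9 / 4 * f3 x - 2 * f1 x) + (9 / 4 * f4 x - f2 x) :=
    (j1.const_mul 8).add j2
  have j5 : Integrable fun x => 8 * (9 / 4 * f3 x - 2 * f1 x) + (9 / 4 * f4 x - f2 x) +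
      11 / 8 * (25 / 4 * f6 x - f5 x) := j4.add (j3.const_mul (11 / 8))
  have j6 : Integrable fun x => f3 x + f4 x := i3.add i4
  have hI := integral_mono_ae (j5.add i7) (j6.const_mul (-(1 / 40))) h
  have e1 : ∫ x, ((fun x => 8 * (9 / 4 * f3 x - 2 * f1 x) + (9 / 4 * f4 x - f2 x) +
      11 / 8 * (25 / 4 * f6 x - f5 x)) + f7) x =
      8 * (9 / 4 * (∫ x, f3 x) - 2 * ∫ x, f1 x) + (9 / 4 * (∫ x, f4 x) - ∫ x, f2 x) +
      11 / 8 * (25 / 4 * (∫ x, f6 x) - ∫ x, f5 x) + ∫ x, f7 x := by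
    rw [integral_add' j5 i7, integral_add j4 (j3.const_mul (11 / 8)),
      integral_add (j1.const_mul 8) j2, integral_const_mul, integral_const_mul,
      integral_sub (i3.const_mul (9 / 4)) (i1.const_mul 2),
      integral_sub (i4.const_mul (9 / 4)) i2,
      integral_sub (i6.const_mul (25 / 4)) i5, integral_const_mul, integral_const_mul,
      integral_const_mul, integral_const_mul]
  have e2 : ∫ x, -(1 / 40) * (f3 x + f4 x) = -(1 / 40) * ((∫ x, f3 x) + ∫ x, f4 x) := by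
    rw [integral_const_mul, integral_add i3 i4]
  rw [← e1, ← e2]
  exact hI

theorem hc7_main [DecidableEq ι] {K : ℝ} {u : V ι → ℝ} {S₁ S₂ : Finset ι} (hu : GS K u)
    (hst : Stab u) (hr₁ : RotInv S₁ u) (hr₂ : RotInv S₂ u) (hd : Disjoint S₁ S₂)
    (hc₁ : S₁.card = 3) (hc₂ : S₂.card = 2) : ∃ D : ℝ, 0 ≤ D ∧ ∀ T : ℝ, 1 ≤ T →
      ∫ x, (gs S₁ u x + gs S₂ u x) * Real.exp (-5 * lg x) * cut T x ^ 2 ≤
        D / T * ∫ x in shell T 1 ∅, (gs S₁ u x + gs S₂ u x) * Real.exp (-5 * lg x) := by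
  obtain ⟨C1, hC1, hb1⟩ := b1_cut2 hu hst hr₁ (by omega)
  obtain ⟨C2, hC2, hb2⟩ := b1_cut2 hu hst hr₂ (by omega)
  obtain ⟨C3, hC3, hb3⟩ := rot_cut hu hst hr₁ hr₂ hd (by omega) (by omega)
  obtain ⟨C4, hC4, hb4⟩ := dil_cut2 hu hst hd (by omega)
  obtain ⟨Cc, hCc, hcut⟩ := cut_facts (ι := ι)
  refine ⟨40 * (8 * C1 + C2 + 11 / 8 * C3 + C4), by positivity, fun T hT => ?_⟩
  have hT0 : 0 < T := by linarith
  have hb1 := hb1 T hT
  have hb2 := hb2 T hT
  have hb3 := hb3 T hT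
  have hb4 := hb4 T hT
  rw [hc₁] at hb1 hb3
  rw [hc₂] at hb2 hb3
  have n1 : (((3 : ℕ) : ℝ) - 1) = 2 := by norm_num
  have n2 : (((2 : ℕ) : ℝ) - 1) = 1 := by norm_num
  rw [n1] at hb1 hb3
  rw [n2] at hb2 hb3
  have hlc := rk4_lg_cont (ι := ι)
  have hg1 := hc7_gs_cont S₁ hu.C1
  have hg2 := hc7_gs_cont S₂ hu.C1
  have hs1 := hc7_sq_cont (ι := ι) S₁
  have hs2 := hc7_sq_cont (ι := ι) S₂
  have hcr := hc7_cr_cont S₁ S₂ hu.C1
  have he : ∀ a : ℝ, Continuous fun x : V ι => Real.exp (a * lg x) := fun a =>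
    Real.continuous_exp.comp (continuous_const.mul hlc)
  have hct := (hcut T hT).1
  have hcc : Continuous (cut T : V ι → ℝ) := hct.continuous
  have hcs : HasCompactSupport fun x : V ι => cut T x ^ 2 :=
    hct.2.comp_left (g := fun t : ℝ => t ^ 2) (by simp)
  -- integrability
  have hint : ∀ {f : V ι → ℝ}, Continuous f → Integrable fun x => f x * cut T x ^ 2 :=
    fun hf => integrable_cs (hf.mul (hcc.pow 2)) hcs.mul_left
  have i3 : Integrable fun x => gs S₁ u x * Real.exp (-5 * lg x) * cut T x ^ 2 :=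
    hint (hg1.mul (he (-5)))
  have i4 : Integrable fun x => gs S₂ u x * Real.exp (-5 * lg x) * cut T x ^ 2 :=
    hint (hg2.mul (he (-5)))
  have i6 : Integrable fun x => cr S₁ S₂ u x * Real.exp (-7 * lg x) * cut T x ^ 2 :=
    hint (hcr.mul (he (-7)))
  have i7 : Integrable fun x => D1 S₁ S₂ u x * cut T x ^ 2 := hint (hc7_D1_cont S₁ S₂ hu.C1)
  have hK2 : ∀ S : Finset ι, 0 ≤ (S.card : ℝ) * K ^ 2 := fun S => by positivity
  have iq : ∀ S : Finset ι, RotInv S u → 2 ≤ S.card →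
      Integrable fun x => gs S u x / sq S x * Real.exp (-3 * lg x) * cut T x ^ 2 := by
    intro S hr hS
    refine Integrable.mono' ((hint (he (-3))).const_mul ((S.card : ℝ) * K ^ 2)) ?_ ?_
    · exact ((((hc7_gs_cont S hu.C1).measurable.div (hc7_sq_cont S).measurable).mul
        (he (-3)).measurable).mul (hcc.pow 2).measurable).aestronglyMeasurable
    · refine Eventually.of_forall fun x => ?_
      have h1 : 0 ≤ Real.exp (-3 * lg x) * cut T x ^ 2 := by positivity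
      have h2 : 0 ≤ gs S u x / sq S x := div_nonneg (f2_gs_nonneg S u x) (f1_sq_nonneg S x)
      have h3 : gs S u x / sq S x ≤ (S.card : ℝ) * K ^ 2 :=
        div_le_of_le_mul₀ (f1_sq_nonneg S x) (hK2 S) (gs_le hu hr hS x)
      rw [Real.norm_eq_abs, mul_assoc, abs_of_nonneg (mul_nonneg h2 h1)]
      exact mul_le_mul_of_nonneg_right h3 h1
  have i1 := iq S₁ hr₁ (by omega)
  have i2 := iq S₂ hr₂ (by omega)
  have i5 : Integrable fun x => cr S₁ S₂ u x * (2 / sq S₁ x + 1 / sq S₂ x) *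
      Real.exp (-5 * lg x) * cut T x ^ 2 := by
    have hg : Integrable fun x : V ι => 2 * ((S₁.card : ℝ) * K ^ 2 + (S₂.card : ℝ) * K ^ 2) *
        ((2 * sq S₂ x + sq S₁ x) * Real.exp (-5 * lg x) * cut T x ^ 2) :=
      (hint (((continuous_const.mul hs2).add hs1).mul (he (-5)))).const_mul _
    refine Integrable.mono' hg ?_ ?_
    · exact (((hcr.measurable.mul ((measurable_const.div hs1.measurable).add
        (measurable_const.div hs2.measurable))).mul
        (he (-5)).measurable).mul (hcc.pow 2).measurable).aestronglyMeasurable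
    · refine Eventually.of_forall fun x => ?_
      have h1 : 0 ≤ Real.exp (-5 * lg x) * cut T x ^ 2 := by positivity
      obtain ⟨h2, h3, -⟩ := cr_le S₁ S₂ u x
      have h4 := gs_le hu hr₁ (by omega) x
      have h5 := gs_le hu hr₂ (by omega) x
      have p1 := f1_sq_nonneg S₁ x
      have p2 := f1_sq_nonneg S₂ x
      obtain ⟨a, ha⟩ : ∃ a, a = sq S₁ x := ⟨_, rfl⟩
      obtain ⟨b, hb⟩ : ∃ b, b = sq S₂ x := ⟨_, rfl⟩
      obtain ⟨M, hM⟩ : ∃ M, M = (S₁.card : ℝ) * K ^ 2 + (S₂.card : ℝ) * K ^ 2 := ⟨_, rfl⟩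
      rw [← hM]
      rw [← ha] at h3 h4 p1 ⊢
      rw [← hb] at h3 h5 p2 ⊢
      have h6 : cr S₁ S₂ u x ≤ 2 * M * (a * b) := by
        refine h3.trans ?_
        have h7 := mul_le_mul_of_nonneg_left h5 p1
        have h8 := mul_le_mul_of_nonneg_left h4 p2
        rw [hM]
        nlinarith
      have hM0 : 0 ≤ M := by rw [hM]; positivity
      have hq : 0 ≤ 2 / a + 1 / b := by positivity
      have h9 : cr S₁ S₂ u x * (2 / a + 1 / b) ≤ 2 * M * (2 * b + a) := by
        refine (mul_le_mul_of_nonneg_right h6 hq).trans ?_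
        have h10 : a * b * (2 / a + 1 / b) ≤ 2 * b + a := by
          rcases p1.eq_or_lt with h0 | h0
          · rw [← h0]
            simp only [zero_mul]
            positivity
          · rcases p2.eq_or_lt with h0' | h0'
            · rw [← h0']
              simp only [mul_zero, zero_mul]
              positivity
            · refine le_of_eq ?_
              field_simp
        calc 2 * M * (a * b) * (2 / a + 1 / b) = 2 * M * (a * b * (2 / a + 1 / b)) := by ring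
          _ ≤ _ := mul_le_mul_of_nonneg_left h10 (by positivity)
      rw [Real.norm_eq_abs, mul_assoc, abs_of_nonneg (mul_nonneg (mul_nonneg h2 hq) h1),
        mul_assoc (2 * b + a), ← mul_assoc (2 * M)]
      exact mul_le_mul_of_nonneg_right h9 h1
  -- the integrated inequality
  have hI := hc7_int i1 i2 i3 i4 i5 i6 i7 (by
    filter_upwards [hc7_ae_sq (S := S₁) (by omega), hc7_ae_sq (S := S₂) (by omega)] with x hx hx'
    have h := mul_le_mul_of_nonneg_right (hc7_pt hr₁ hr₂ hd hx hx') (sq_nonneg (cut T x))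
    refine (le_of_eq ?_).trans (h.trans (le_of_eq ?_)) <;> ring)
  have k : ∫ x, (gs S₁ u x + gs S₂ u x) * Real.exp (-5 * lg x) * cut T x ^ 2 =
      (∫ x, gs S₁ u x * Real.exp (-5 * lg x) * cut T x ^ 2) +
        ∫ x, gs S₂ u x * Real.exp (-5 * lg x) * cut T x ^ 2 := by
    rw [← integral_add i3 i4]
    refine integral_congr_ae (Eventually.of_forall fun x => ?_)
    dsimp only
    ring
  rw [k]
  -- the shell integrals
  have hcomp := isCompact_shell (ι := ι) T 1 ∅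
  have hsh : ∀ S : Finset ι, (∀ x, gs S u x ≤ gs S₁ u x + gs S₂ u x) →
      ∫ x in shell T 1 ∅, gs S u x * Real.exp (-5 * lg x) ≤
        ∫ x in shell T 1 ∅, (gs S₁ u x + gs S₂ u x) * Real.exp (-5 * lg x) := by
    intro S hS
    refine setIntegral_mono_on
      (((hc7_gs_cont S hu.C1).mul (he (-5))).continuousOn.integrableOn_compact hcomp)
      (((hg1.add hg2).mul (he (-5))).continuousOn.integrableOn_compact hcomp)
      hcomp.isClosed.measurableSet fun x _ => ?_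
    exact mul_le_mul_of_nonneg_right (hS x) (Real.exp_pos _).le
  have s1 := hsh S₁ fun x => by linarith [f2_gs_nonneg S₂ u x]
  have s2 := hsh S₂ fun x => by linarith [f2_gs_nonneg S₁ u x]
  have t1 := mul_le_mul_of_nonneg_left s1 (div_nonneg hC1 hT0.le)
  have t2 := mul_le_mul_of_nonneg_left s2 (div_nonneg hC2 hT0.le)
  obtain ⟨I, hIdef⟩ : ∃ I, I = ∫ x in shell T 1 ∅, (gs S₁ u x + gs S₂ u x) *
      Real.exp (-5 * lg x) := ⟨_, rfl⟩
  rw [← hIdef] at t1 t2 hb3 hb4 ⊢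
  have e : 40 * (8 * C1 + C2 + 11 / 8 * C3 + C4) / T * I =
      40 * (8 * (C1 / T * I) + C2 / T * I + 11 / 8 * (C3 / T * I) + C4 / T * I) := by ring
  rw [e]
  linarith only [hI, hb1, hb2, hb3, hb4, t1, t2]

/-- Proof. Let `A = gs S₁ u`, `B = gs S₂ u`, `G = A + B`, `E = exp (lg x) ^ 2`. Where `sq S₁ x > 0` and
`sq S₂ x > 0` (almost everywhere: the complement is contained in two proper subspaces, see F2), multiply
`hc_alg` by `exp (- 5 lg x)` (`w0_sq`, `cr_eq`, `exp (- 3 lg) = E exp (- 5 lg)`,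
`exp (- 7 lg) = exp (- 5 lg) / E`, `‖x‖ ^ 2 = E - 1`):
`8 (9 / 4 A exp (- 5 lg) - 2 (A / sq S₁) exp (- 3 lg)) + (9 / 4 B exp (- 5 lg) - (B / sq S₂) exp (- 3 lg))
+ 11 / 8 (25 / 4 cr exp (- 7 lg) - cr (2 / sq S₁ + 1 / sq S₂) exp (- 5 lg)) + D1
≤ - 1 / 40 G exp (- 5 lg)`.
Multiply by `cut T ^ 2` and integrate (all terms are integrable: by `gs_le` and `cr_le` the quotients
are bounded on compact sets); with `b1_cut2` (twice), `rot_cut`, `dil_cut2`:
`∫ G exp (- 5 lg) cut T ^ 2 ≤ (C / T) ∫_shell G exp (- 5 lg)`. Now finish as in `rk_core` (RK4): `wlemma`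
for `a = G`, `d = 5`, `S = ∅` (`rk4_wtS_empty`, `rk4_shell_empty`). -/
theorem hc_zero [DecidableEq ι] {K : ℝ} {u : V ι → ℝ} {S₁ S₂ : Finset ι} (hu : GS K u)
    (hst : Stab u) (hr₁ : RotInv S₁ u) (hr₂ : RotInv S₂ u) (hd : Disjoint S₁ S₂)
    (hc₁ : S₁.card = 3) (hc₂ : S₂.card = 2) {C : ℝ} (hC : 0 ≤ C)
    (hgrow : ∀ T : ℝ, 2 ≤ T →
      ∫ x in shell T 1 ∅, (gs S₁ u x + gs S₂ u x) * Real.exp (-5 * lg x) ≤ C * T) :
    ∀ i ∈ S₁ ∪ S₂, ∀ x, pd i u x = 0 := by
  obtain ⟨D, hD0, hmain⟩ := hc7_main hu hst hr₁ hr₂ hd hc₁ hc₂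
  have hac : Continuous fun x => gs S₁ u x + gs S₂ u x :=
    (hc7_gs_cont S₁ hu.C1).add (hc7_gs_cont S₂ hu.C1)
  have ha0 : ∀ x, 0 ≤ gs S₁ u x + gs S₂ u x := fun x =>
    add_nonneg (f2_gs_nonneg S₁ u x) (f2_gs_nonneg S₂ u x)
  have hsh0 : ∀ T : ℝ, 0 ≤ ∫ x in shell T 1 ∅, (gs S₁ u x + gs S₂ u x) *
      Real.exp (-5 * lg x) := fun T =>
    integral_nonneg fun x => mul_nonneg (ha0 x) (Real.exp_pos _).le
  have hz : ∀ x, gs S₁ u x + gs S₂ u x = 0 := by
    intro x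
    refine wlemma hac ha0 5 ∅ (C := C + D) (by positivity) ?_ ?_ ?_ x
    · intro T hT
      have hT0 : 0 < T := by linarith
      have e1 : (fun x : V ι => (gs S₁ u x + gs S₂ u x) * Real.exp (-5 * lg x) * wtS ∅ x *
          cut T x ^ 2) =
          fun x => (gs S₁ u x + gs S₂ u x) * Real.exp (-5 * lg x) * cut T x ^ 2 := by
        funext y
        rw [rk4_wtS_empty, mul_one]
      rw [e1]
      refine (hmain T hT).trans (mul_le_mul_of_nonneg_right ?_ (hsh0 T))
      exact div_le_div_of_nonneg_right (by linarith) hT0.le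
    · intro ε hε
      obtain ⟨δ, hδ⟩ : ∃ δ : ℝ, δ = 1 / (2 * ((Fintype.card ι : ℝ) + 1)) := ⟨_, rfl⟩
      have hn0 : (0 : ℝ) ≤ Fintype.card ι := Nat.cast_nonneg _
      have hδ0 : 0 < δ := by rw [hδ]; positivity
      refine ⟨δ, hδ0, 1, fun T hT => ?_⟩
      have h1 : (Fintype.card ι : ℝ) * δ ^ 2 ≤ 1 / 2 := by
        have h2 : (Fintype.card ι : ℝ) * δ ≤ 1 / 2 := by
          rw [hδ, mul_one_div, div_le_div_iff₀ (by positivity) (by norm_num)]
          linarith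
        have h3 : δ ≤ 1 := by
          rw [hδ, div_le_one (by positivity)]
          linarith
        calc (Fintype.card ι : ℝ) * δ ^ 2 = (Fintype.card ι : ℝ) * δ * δ := by ring
          _ ≤ 1 / 2 * 1 := mul_le_mul h2 h3 hδ0.le (by norm_num)
          _ = 1 / 2 := by norm_num
      rw [rk4_shell_empty hT h1 _ (by simp), setIntegral_empty]
      have : 0 ≤ T := by linarith
      positivity
    · intro T hT
      refine (hgrow T hT).trans (mul_le_mul_of_nonneg_right (by linarith) (by linarith))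
  intro i hi x
  have h1 := hz x
  have p1 := f2_gs_nonneg S₁ u x
  have p2 := f2_gs_nonneg S₂ u x
  rcases Finset.mem_union.1 hi with h | h
  · have h2 : gs S₁ u x = 0 := by linarith
    unfold gs at h2
    have h3 := (Finset.sum_eq_zero_iff_of_nonneg fun k _ => sq_nonneg (pd k u x)).1 h2 i h
    exact pow_eq_zero_iff two_ne_zero |>.1 h3
  · have h2 : gs S₂ u x = 0 := by linarith
    unfold gs at h2
    have h3 := (Finset.sum_eq_zero_iff_of_nonneg fun k _ => sq_nonneg (pd k u x)).1 h2 i h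
    exact pow_eq_zero_iff two_ne_zero |>.1 h3

/-- Proof. As `rk_profile` (RK4): `gs S₁ v + gs S₂ v ≤ gd v v ≤ K ^ 2` and `shell_vol` for `J = ∅`,
`card ι = 5`. -/
theorem hc_profile [DecidableEq ι] {K : ℝ} {v : V ι → ℝ} {S₁ S₂ : Finset ι} (hv : GS K v)
    (hst : Stab v) (hr₁ : RotInv S₁ v) (hr₂ : RotInv S₂ v) (hd : Disjoint S₁ S₂)
    (hc₁ : S₁.card = 3) (hc₂ : S₂.card = 2) (hn : Fintype.card ι = 5) :
    ∀ i ∈ S₁ ∪ S₂, ∀ x, pd i v x = 0 := by
  obtain ⟨C, hC, hvol⟩ := shell_vol (ι := ι)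
  have hlc := rk4_lg_cont (ι := ι)
  have he5 : Continuous fun x : V ι => Real.exp (-5 * lg x) :=
    Real.continuous_exp.comp (continuous_const.mul hlc)
  have hac : Continuous fun x => gs S₁ v x + gs S₂ v x :=
    (hc7_gs_cont S₁ hv.C1).add (hc7_gs_cont S₂ hv.C1)
  refine hc_zero hv hst hr₁ hr₂ hd hc₁ hc₂ (C := K ^ 2 * C) (by positivity) fun T hT => ?_
  have h1 := hvol T 1 ∅ (by linarith) one_pos
  rw [hn, Finset.card_empty, pow_zero, mul_one] at h1
  have hcast : ((5 : ℕ) : ℝ) = 5 := by norm_num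
  rw [hcast] at h1
  have hcomp := isCompact_shell (ι := ι) T 1 ∅
  calc ∫ x in shell T 1 ∅, (gs S₁ v x + gs S₂ v x) * Real.exp (-5 * lg x)
      ≤ ∫ x in shell T 1 ∅, K ^ 2 * Real.exp (-5 * lg x) := by
        refine setIntegral_mono_on ((hac.mul he5).continuousOn.integrableOn_compact hcomp)
          ((continuous_const.mul he5).continuousOn.integrableOn_compact hcomp)
          hcomp.isClosed.measurableSet fun x _ => ?_
        refine mul_le_mul_of_nonneg_right ((hc7_gs_le S₁ S₂ hd v x).trans ?_) (Real.exp_pos _).le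
        rw [gd_self]
        exact pow_le_pow_left₀ (norm_nonneg _) (hv.bdd1 x) 2
    _ = K ^ 2 * ∫ x in shell T 1 ∅, Real.exp (-5 * lg x) := by rw [integral_const_mul]
    _ ≤ K ^ 2 * (C * T) := mul_le_mul_of_nonneg_left h1 (sq_nonneg _)
    _ = K ^ 2 * C * T := by ring

/-- Proof. As `rk_sol` (RK4): `gs S₁ u + gs S₂ u ≤ gd u u` and `shell_energy` for `J = ∅`, `δ = 1`,
`card ι = 6`. -/
theorem hc_sol [DecidableEq ι] {K : ℝ} {u : V ι → ℝ} {S₁ S₂ : Finset ι} (hu : GS K u)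
    (hst : Stab u) (hEE : EE u) (hr₁ : RotInv S₁ u) (hr₂ : RotInv S₂ u) (hd : Disjoint S₁ S₂)
    (hc₁ : S₁.card = 3) (hc₂ : S₂.card = 2) (hn : Fintype.card ι = 6) :
    ∀ i ∈ S₁ ∪ S₂, ∀ x, pd i u x = 0 := by
  obtain ⟨C, hC, hen⟩ := shell_energy hu hEE (by omega)
  have hlc := rk4_lg_cont (ι := ι)
  have he5 : Continuous fun x : V ι => Real.exp (-5 * lg x) :=
    Real.continuous_exp.comp (continuous_const.mul hlc)
  have hac : Continuous fun x => gs S₁ u x + gs S₂ u x :=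
    (hc7_gs_cont S₁ hu.C1).add (hc7_gs_cont S₂ hu.C1)
  have hgc : Continuous (gd u u) := continuous_gd hu.C1 hu.C1
  refine hc_zero hu hst hr₁ hr₂ hd hc₁ hc₂ hC fun T hT => ?_
  have h1 := hen T 1 ∅ hT one_pos le_rfl
  rw [hn, Finset.card_empty, pow_zero, mul_one, one_mul] at h1
  have hcast : -(((6 : ℕ) : ℝ) - 1) = -5 := by norm_num
  rw [hcast] at h1
  have hcomp := isCompact_shell (ι := ι) T 1 ∅
  refine le_trans ?_ h1
  refine setIntegral_mono_on ((hac.mul he5).continuousOn.integrableOn_compact hcomp)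
    ((hgc.mul he5).continuousOn.integrableOn_compact hcomp)
    hcomp.isClosed.measurableSet fun x _ => ?_
  exact mul_le_mul_of_nonneg_right (hc7_gs_le S₁ S₂ hd u x) (Real.exp_pos _).le

end Pool.Agent.Helper68.DG
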