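import Pool.Agent.Helper68.DG.Base
import Pool.Agent.Helper68.DG.T1
import Pool.Agent.Helper68.DG.T2

/-! Project DG (MP_800410_an), piece HC8: coordinates adapted to two symmetries -/

open MeasureTheory Metric Set Filter Topology
open scoped ContDiff

namespace Pool.Agent.Helper68.DG

variable {ι : Type} [Fintype ι]

/-- Proof. This is what the proof of `exists_mono_dir` (T2) shows. -/
theorem mono_proj {u : V ι → ℝ} (hu : ContDiff ℝ 1 u) (F : Submodule ℝ (V ι))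
    (hsym : ∀ x y : V ι, x - y ∈ F → ‖x‖ = ‖y‖ → u x = u y) {e : V ι}
    (he : ∀ x, 0 < fderiv ℝ u x e) : ∀ x, 0 < fderiv ℝ u x ((Fᗮ).starProjection e) := by
  classical
  set R := (Fᗮ).reflection with hR
  have hRx : ∀ x : V ι, R x = (2 : ℝ) • (Fᗮ).starProjection x - x := by
    intro x
    rw [hR, Submodule.reflection_apply]
    simp [two_smul]
  have hmem : ∀ x : V ι, x - R x ∈ F := by
    intro x
    have h1 : x - R x = (2 : ℝ) • (x - (Fᗮ).starProjection x) := by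
      rw [hRx, smul_sub, two_smul ℝ x]
      abel
    rw [h1]
    apply F.smul_mem
    have h2 := Submodule.sub_starProjection_mem_orthogonal (K := Fᗮ) x
    rwa [Submodule.orthogonal_orthogonal] at h2
  have hu' : ∀ x, u (R x) = u x := fun x =>
    (hsym x (R x) (hmem x) (by rw [LinearIsometryEquiv.norm_map])).symm
  have hdu : Differentiable ℝ u := hu.differentiable one_ne_zero
  have hfd : ∀ x b, fderiv ℝ u x b = fderiv ℝ u (R x) (R b) := by
    intro x b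
    have h1 : HasFDerivAt (fun y => u (R y))
        ((fderiv ℝ u (R x)).comp (R.toContinuousLinearEquiv : V ι →L[ℝ] V ι)) x := by
      have h2 : HasFDerivAt (fun y => R y) (R.toContinuousLinearEquiv : V ι →L[ℝ] V ι) x :=
        (R.toContinuousLinearEquiv : V ι →L[ℝ] V ι).hasFDerivAt
      exact (hdu (R x)).hasFDerivAt.comp x h2
    have h3 : (fun y => u (R y)) = u := funext hu'
    rw [h3] at h1
    rw [h1.fderiv]
    rfl
  have hRR : ∀ x, R (R x) = x := fun x => Submodule.reflection_reflection _ x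
  intro x
  have h1 : (Fᗮ).starProjection e = (1 / 2 : ℝ) • (e + R e) := by
    rw [hRx]
    module
  rw [h1, map_smul, map_add, hfd x (R e), hRR]
  have h2 := he x
  have h3 := he (R x)
  simp only [smul_eq_mul]
  linarith

/-- Proof. Apply `mono_proj` to `F₁` and `e`, giving `e₁ ⊥ F₁`, and then to `F₂` and `e₁`, giving
`v ⊥ F₂`; for `f ∈ F₁`, `⟨f, v⟩ = ⟨f, P e₁⟩ = ⟨P f, e₁⟩ = ⟨f, e₁⟩ = 0`, where `P` is the projection
to `F₂ᗮ` and `P f = f` as `F₁ ⊥ F₂`. -/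
theorem exists_mono_dir2 {u : V ι → ℝ} (hu : ContDiff ℝ 1 u) (F₁ F₂ : Submodule ℝ (V ι))
    (hF : ∀ f ∈ F₁, ∀ g ∈ F₂, inner ℝ f g = 0)
    (hsym₁ : ∀ x y : V ι, x - y ∈ F₁ → ‖x‖ = ‖y‖ → u x = u y)
    (hsym₂ : ∀ x y : V ι, x - y ∈ F₂ → ‖x‖ = ‖y‖ → u x = u y) {e : V ι}
    (he : ∀ x, 0 < fderiv ℝ u x e) :
    ∃ v : V ι, (∀ f ∈ F₁, inner ℝ f v = 0) ∧ (∀ f ∈ F₂, inner ℝ f v = 0) ∧
      ∀ x, 0 < fderiv ℝ u x v := by
  classical
  have h1 := mono_proj hu F₁ hsym₁ he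
  set e₁ := (F₁ᗮ).starProjection e with he₁
  have h2 := mono_proj hu F₂ hsym₂ h1
  refine ⟨(F₂ᗮ).starProjection e₁, ?_, ?_, h2⟩
  · intro f hf
    have hf2 : f ∈ F₂ᗮ := by
      rw [Submodule.mem_orthogonal]
      intro g hg
      rw [real_inner_comm]
      exact hF f hf g hg
    have hPf : (F₂ᗮ).starProjection f = f := Submodule.starProjection_eq_self_iff.2 hf2
    have h3 : inner ℝ ((F₂ᗮ).starProjection f) e₁ = inner ℝ f ((F₂ᗮ).starProjection e₁) :=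
      Submodule.inner_starProjection_left_eq_right _ _ _
    rw [← h3, hPf]
    have h4 : e₁ ∈ F₁ᗮ := Submodule.starProjection_apply_mem _ _
    exact (Submodule.mem_orthogonal F₁ _).1 h4 f hf
  · intro f hf
    have h4 : (F₂ᗮ).starProjection e₁ ∈ F₂ᗮ := Submodule.starProjection_apply_mem _ _
    exact (Submodule.mem_orthogonal F₂ _).1 h4 f hf

/-- Proof. As `exists_adapted` (T2). -/
theorem exists_adapted2 (F₁ F₂ : Submodule ℝ (V (Fin 6))) (h₁ : Module.finrank ℝ F₁ = 3)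
    (h₂ : Module.finrank ℝ F₂ = 2) (hF : ∀ f ∈ F₁, ∀ g ∈ F₂, inner ℝ f g = 0) {v : V (Fin 6)}
    (hv : v ≠ 0) (hv₁ : ∀ f ∈ F₁, inner ℝ f v = 0) (hv₂ : ∀ f ∈ F₂, inner ℝ f v = 0) :
    ∃ T : V (Fin 6) ≃ₗᵢ[ℝ] V (Fin 6), (∃ c : ℝ, 0 < c ∧ T (be 0) = c • v) ∧
      T (be 1) ∈ F₁ ∧ T (be 2) ∈ F₁ ∧ T (be 3) ∈ F₁ ∧ T (be 4) ∈ F₂ ∧ T (be 5) ∈ F₂ := by
  classical
  set f := (stdOrthonormalBasis ℝ F₁).reindex (finCongr h₁) with hf
  set g := (stdOrthonormalBasis ℝ F₂).reindex (finCongr h₂) with hg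
  have hv1 : 0 < ‖v‖ := norm_pos_iff.2 hv
  have hfo : ∀ i j : Fin 3, inner ℝ ((f i : F₁) : V (Fin 6)) ((f j : F₁) : V (Fin 6)) =
      if i = j then (1 : ℝ) else 0 := by
    intro i j
    have h := (orthonormal_iff_ite.1 f.orthonormal) i j
    rw [Submodule.coe_inner] at h
    exact h
  have hgo : ∀ i j : Fin 2, inner ℝ ((g i : F₂) : V (Fin 6)) ((g j : F₂) : V (Fin 6)) =
      if i = j then (1 : ℝ) else 0 := by
    intro i j
    have h := (orthonormal_iff_ite.1 g.orthonormal) i j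
    rw [Submodule.coe_inner] at h
    exact h
  have hfg : ∀ (i : Fin 3) (j : Fin 2),
      inner ℝ ((f i : F₁) : V (Fin 6)) ((g j : F₂) : V (Fin 6)) = (0 : ℝ) :=
    fun i j => hF _ (f i).2 _ (g j).2
  have hgf : ∀ (i : Fin 3) (j : Fin 2),
      inner ℝ ((g j : F₂) : V (Fin 6)) ((f i : F₁) : V (Fin 6)) = (0 : ℝ) := by
    intro i j
    rw [real_inner_comm]
    exact hfg i j
  have hvv : inner ℝ (‖v‖⁻¹ • v) (‖v‖⁻¹ • v) = (1 : ℝ) := by
    rw [inner_smul_left, inner_smul_right, real_inner_self_eq_norm_sq]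
    simp only [conj_trivial]
    field_simp
  have hfv : ∀ i : Fin 3, inner ℝ ((f i : F₁) : V (Fin 6)) (‖v‖⁻¹ • v) = (0 : ℝ) := by
    intro i
    rw [inner_smul_right, hv₁ _ (f i).2, mul_zero]
  have hvf : ∀ i : Fin 3, inner ℝ (‖v‖⁻¹ • v) ((f i : F₁) : V (Fin 6)) = (0 : ℝ) := by
    intro i
    rw [real_inner_comm]
    exact hfv i
  have hgv : ∀ i : Fin 2, inner ℝ ((g i : F₂) : V (Fin 6)) (‖v‖⁻¹ • v) = (0 : ℝ) := by
    intro i
    rw [inner_smul_right, hv₂ _ (g i).2, mul_zero]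
  have hvg : ∀ i : Fin 2, inner ℝ (‖v‖⁻¹ • v) ((g i : F₂) : V (Fin 6)) = (0 : ℝ) := by
    intro i
    rw [real_inner_comm]
    exact hgv i
  set w : Fin 6 → V (Fin 6) := ![‖v‖⁻¹ • v, ((f 0 : F₁) : V (Fin 6)), ((f 1 : F₁) : V (Fin 6)),
    ((f 2 : F₁) : V (Fin 6)), ((g 0 : F₂) : V (Fin 6)), ((g 1 : F₂) : V (Fin 6))] with hw
  have hort : Orthonormal ℝ w := by
    rw [orthonormal_iff_ite]
    intro i j
    have w0 : w 0 = ‖v‖⁻¹ • v := rfl
    have w1 : w 1 = ((f 0 : F₁) : V (Fin 6)) := rfl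
    have w2 : w 2 = ((f 1 : F₁) : V (Fin 6)) := rfl
    have w3 : w 3 = ((f 2 : F₁) : V (Fin 6)) := rfl
    have w4 : w 4 = ((g 0 : F₂) : V (Fin 6)) := rfl
    have w5 : w 5 = ((g 1 : F₂) : V (Fin 6)) := rfl
    clear_value w f g
    fin_cases i <;> fin_cases j <;>
      simp only [Fin.zero_eta, Fin.mk_one, Fin.reduceFinMk, w0, w1, w2, w3, w4, w5, hvv, hfv, hvf,
        hgv, hvg, hfg, hgf, hfo, hgo] <;> simp
  have hort2 : Orthonormal ℝ ((Set.univ : Set (Fin 6)).domRestrict w) :=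
    hort.comp _ Subtype.val_injective
  obtain ⟨b, hb⟩ := hort2.exists_orthonormalBasis_extension_of_card_eq (by simp)
  have hT : ∀ i, b.repr.symm (be i) = b i := by
    intro i
    rw [be, EuclideanSpace.basisFun_apply, OrthonormalBasis.repr_symm_single]
  refine ⟨b.repr.symm, ⟨‖v‖⁻¹, inv_pos.2 hv1, ?_⟩, ?_, ?_, ?_, ?_, ?_⟩
  · rw [hT, hb 0 (Set.mem_univ _)]
    rfl
  · rw [hT, hb 1 (Set.mem_univ _)]
    exact (f 0).2
  · rw [hT, hb 2 (Set.mem_univ _)]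
    exact (f 1).2
  · rw [hT, hb 3 (Set.mem_univ _)]
    exact (f 2).2
  · rw [hT, hb 4 (Set.mem_univ _)]
    exact (g 0).2
  · rw [hT, hb 5 (Set.mem_univ _)]
    exact (g 1).2

end Pool.Agent.Helper68.DG
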