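import Pool.Agent.Helper68.DG.Base
import Pool.Agent.Helper68.DG.A2
import Pool.Agent.Helper68.DG.G1
import Pool.Agent.Helper68.DG.T1
import Pool.Agent.Helper68.DG.T2
import Pool.Agent.Helper68.DG.H1
import Pool.Agent.Helper68.DG.HBA
import Pool.Agent.Helper68.DG.HC7
import Pool.Agent.Helper68.DG.HC8

/-! Project DG (MP_800410_an): assembly for two rotational symmetries in dimension six -/

open MeasureTheory Metric Set Filter Topology
open scoped ContDiff

namespace Pool.Agent.Helper68.DG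

/-- the rotational symmetry passes to the profile -/
theorem RotInv.profile {ι : Type} [Fintype ι] [DecidableEq ι] {u v : V ι → ℝ} {i₀ : ι}
    (hlim' : ∀ x, Tendsto (fun t : ℝ => fderiv ℝ u (x + t • be i₀)) atTop (𝓝 (fderiv ℝ v x)))
    {S : Finset ι} (hi₀ : i₀ ∉ S) (hrot : RotInv S u) : RotInv S v := by
  intro i hi j hj x
  have h1 : Tendsto (fun t : ℝ => x i * fderiv ℝ u (x + t • be i₀) (be j)) atTop
      (𝓝 (x i * pd j v x)) :=
    tendsto_const_nhds.mul
      (((ContinuousLinearMap.apply ℝ ℝ (be j)).continuous.tendsto _).comp (hlim' x))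
  have h2 : Tendsto (fun t : ℝ => x j * fderiv ℝ u (x + t • be i₀) (be i)) atTop
      (𝓝 (x j * pd i v x)) :=
    tendsto_const_nhds.mul
      (((ContinuousLinearMap.apply ℝ ℝ (be i)).continuous.tendsto _).comp (hlim' x))
  refine tendsto_nhds_unique h1 (h2.congr fun t => ?_)
  have h3 := hrot i hi j hj (x + t • be i₀)
  have h4 : (x + t • be i₀) i = x i := by
    have : i ≠ i₀ := fun h => hi₀ (h ▸ hi)
    simp [be_apply, this]
  have h5 : (x + t • be i₀) j = x j := by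
    have : j ≠ i₀ := fun h => hi₀ (h ▸ hj)
    simp [be_apply, this]
  rw [h4, h5] at h3
  exact h3.symm

/-- the core of the theorem for two rotational symmetries -/
theorem hc_core {K : ℝ} {u : V (Fin 6) → ℝ} (hu : GS K u) (he : ∀ x, 0 < pd 0 u x)
    (hr₁ : RotInv ({1, 2, 3} : Finset (Fin 6)) u) (hr₂ : RotInv ({4, 5} : Finset (Fin 6)) u) :
    Signed u := by
  have hst : Stab u := stab_of_pos hu (be 0) he
  obtain ⟨v, hv, hvst, hv0, hlim, hlim'⟩ := exists_profile hu hst (be 0) fun x => (he x).le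
  have h0 : ∀ i, ¬ (i ≠ 0) → ∀ x, pd i v x = 0 := by
    intro i hi x
    have : i = 0 := by simpa using hi
    rw [this]; exact hv0 x
  have hv1 := GS.emb (fun i => i ≠ 0) hv h0
  have hst1 := Stab.emb (fun i => i ≠ 0) hv hvst h0
  have hc := card_ne (ι := Fin 6) (fun i => i ≠ 0)
  have hc1 : (Finset.univ.filter fun i : Fin 6 => ¬ (i ≠ 0)) = {0} := by
    ext i; simp
  rw [hc1, Finset.card_singleton, Fintype.card_fin] at hc
  have hv₁ := RotInv.emb (fun i => i ≠ 0) hv.C1 (RotInv.profile hlim' (by decide) hr₁)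
  have hv₂ := RotInv.emb (fun i => i ≠ 0) hv.C1 (RotInv.profile hlim' (by decide) hr₂)
  have hc₁ : (({1, 2, 3} : Finset (Fin 6)).subtype fun i => i ≠ 0).card = 3 := by decide
  have hc₂ : (({4, 5} : Finset (Fin 6)).subtype fun i => i ≠ 0).card = 2 := by decide
  have hd : Disjoint (({1, 2, 3} : Finset (Fin 6)).subtype fun i => i ≠ 0)
      (({4, 5} : Finset (Fin 6)).subtype fun i => i ≠ 0) := by decide
  have hz1 := hc_profile hv1 hst1 hv₁ hv₂ hd hc₁ hc₂ (by omega)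
  have hs1 : Signed (v ∘ DG.emb fun i => i ≠ 0) := by
    apply signed_of_zero
    intro i x
    apply hz1
    have : ∀ i : {i : Fin 6 // i ≠ 0}, i ∈ (({1, 2, 3} : Finset (Fin 6)).subtype fun i => i ≠ 0) ∪
      (({4, 5} : Finset (Fin 6)).subtype fun i => i ≠ 0) := by decide
    exact this i
  have ham := AM.lift (fun i => i ≠ 0) hv.C1 h0 (AM_of_signed hv1 hst1 hs1)
  have hEE := EE_of_profile_AM hu hv (be 0) (fun x => (he x).le) hlim hlim' ham
  have hzu := hc_sol hu hst hEE hr₁ hr₂ (by decide) (by decide) (by decide) (Fintype.card_fin 6)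
  have h0u : ∀ i : Fin 6, ¬ (i = 0) → ∀ x, pd i u x = 0 := by
    intro i hi x
    apply hzu
    revert i
    decide
  have hu3 := GS.emb (fun i => i = 0) hu h0u
  have hs3 := dg3 hu3 (by simp) ⟨0, rfl⟩ (fun y => by
    rw [pd_emb _ hu.C1]; exact he _)
  exact Signed.lift (fun i => i = 0) hu.C1 h0u hs3

/-- Theorem HC, with the centre at the origin -/
theorem hc_signed {K : ℝ} {u : V (Fin 6) → ℝ} (hK : GS K u) {e : V (Fin 6)}
    (he : ∀ x, 0 < fderiv ℝ u x e) (F₁ F₂ : Submodule ℝ (V (Fin 6)))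
    (h₁ : Module.finrank ℝ F₁ = 3) (h₂ : Module.finrank ℝ F₂ = 2)
    (hF : ∀ f ∈ F₁, ∀ g ∈ F₂, inner ℝ f g = 0)
    (hsym₁ : ∀ x y : V (Fin 6), x - y ∈ F₁ → ‖x‖ = ‖y‖ → u x = u y)
    (hsym₂ : ∀ x y : V (Fin 6), x - y ∈ F₂ → ‖x‖ = ‖y‖ → u x = u y) : Signed u := by
  have hu1 := hK.C1
  obtain ⟨v, hv₁, hv₂, hv⟩ := exists_mono_dir2 hu1 F₁ F₂ hF hsym₁ hsym₂ he
  have hv0 : v ≠ 0 := by
    rintro rfl
    have := hv 0
    rw [map_zero] at this
    exact lt_irrefl _ this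
  obtain ⟨T, ⟨c, hc, hTc⟩, t1, t2, t3, t4, t5⟩ := exists_adapted2 F₁ F₂ h₁ h₂ hF hv0 hv₁ hv₂
  have hGT := GS.isom T hK
  have hr₁ : RotInv ({1, 2, 3} : Finset (Fin 6)) fun y => u (T y) := by
    apply rotInv_of_sym T hu1 F₁ hsym₁
    intro i hi
    simp only [Finset.mem_insert, Finset.mem_singleton] at hi
    rcases hi with rfl | rfl | rfl
    · exact t1
    · exact t2
    · exact t3
  have hr₂ : RotInv ({4, 5} : Finset (Fin 6)) fun y => u (T y) := by
    apply rotInv_of_sym T hu1 F₂ hsym₂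
    intro i hi
    simp only [Finset.mem_insert, Finset.mem_singleton] at hi
    rcases hi with rfl | rfl
    · exact t4
    · exact t5
  have hpd : ∀ x, 0 < pd 0 (fun y => u (T y)) x := by
    intro x
    unfold pd
    rw [fderiv_isom T hu1, hTc, map_smul, smul_eq_mul]
    exact mul_pos hc (hv _)
  exact Signed.of_isom T hu1 (hc_core hGT hpd hr₁ hr₂)

/-- Theorem HC -/
theorem hc_final {u : V (Fin 6) → ℝ} (hu : ContDiff ℝ 2 u) (hM : ∃ M : ℝ, ∀ x, |u x| ≤ M)
    (heq : ∀ x, Laplacian.laplacian u x + u x - u x ^ 3 = 0) {e : V (Fin 6)}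
    (he : ∀ x, 0 < fderiv ℝ u x e) (F₁ F₂ : Submodule ℝ (V (Fin 6)))
    (h₁ : Module.finrank ℝ F₁ = 3) (h₂ : Module.finrank ℝ F₂ = 2)
    (hF : ∀ f ∈ F₁, ∀ g ∈ F₂, inner ℝ f g = 0) (c : V (Fin 6))
    (hsym₁ : ∀ x y : V (Fin 6), x - y ∈ F₁ → ‖x - c‖ = ‖y - c‖ → u x = u y)
    (hsym₂ : ∀ x y : V (Fin 6), x - y ∈ F₂ → ‖x - c‖ = ‖y - c‖ → u x = u y) :
    ∀ y ∈ Set.range u, ∃ s : AffineSubspace ℝ (V (Fin 6)),
      Module.finrank ℝ s.direction = 5 ∧ (s : Set (V (Fin 6))) = u ⁻¹' {y} := by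
  obtain ⟨M, hM⟩ := hM
  have hu1 : ContDiff ℝ 1 u := hu.of_le (by norm_num)
  obtain ⟨K, hK⟩ := exists_GS hu hM fun x => by
    rw [lap_eq_laplacian hu]; exact heq x
  have hs := hc_signed (hK.translate c) (e := e)
    (fun x => by rw [fderiv_comp_add_right]; exact he _) F₁ F₂ h₁ h₂ hF (by
      intro x y hxy hn
      apply hsym₁
      · rwa [add_sub_add_right_eq_sub]
      · rwa [add_sub_cancel_right, add_sub_cancel_right]) (by
      intro x y hxy hn
      apply hsym₂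
      · rwa [add_sub_add_right_eq_sub]
      · rwa [add_sub_cancel_right, add_sub_cancel_right])
  intro y hy
  obtain ⟨s, hs1, hs2⟩ := hyper hu1 (Signed.of_translate c hs) he y hy
  refine ⟨s, ?_, hs2⟩
  rw [Fintype.card_fin] at hs1
  omega

end Pool.Agent.Helper68.DG
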