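import Pool.Agent.Helper68.DG.RotFinal
import Pool.Agent.Helper68.DG.HBA

/-!
# De Giorgi's conjecture for partially rotationally symmetric solutions

In dimensions `n = 4, 5, 6, 7` the De Giorgi property holds for all solutions which are
rotationally symmetric in `k` of the `n` variables (after a rotation of the coordinates), where
`(n - 3) ^ 2 ≤ 4 (k - 1)`, that is `k ≥ 2, 2, 4, 5`. No hypothesis is made on the limits of the
solution in the direction of monotonicity.
-/

set_option autoImplicit false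

namespace Pool.Agent.Helper68.DG.PartialRotationsW

open Pool.Agent.Helper68.DG

/-- Let `u` be a bounded `C²` solution of `Δu + u - u³ = 0` on `ℝⁿ`, `n ≥ 4`, increasing in some
direction `e`, and let `F` be a linear subspace of dimension `k ≤ n - 1` with
`(n - 3)² ≤ 4 (k - 1)` such that `u` is invariant under the rotations around the affine subspace
`c + Fᗮ`. Then all level sets of `u` are hyperplanes. -/
theorem result {n k : ℕ} (hn : 4 ≤ n) (hk : 2 ≤ k) (hkn : k + 1 ≤ n)
    (h : (n - 3) ^ 2 ≤ 4 * (k - 1)) {u : EuclideanSpace ℝ (Fin n) → ℝ} (hu : ContDiff ℝ 2 u)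
    (hb : ∃ M : ℝ, ∀ x, |u x| ≤ M) (heq : ∀ x, Laplacian.laplacian u x + u x - u x ^ 3 = 0)
    {e : EuclideanSpace ℝ (Fin n)} (he : ∀ x, 0 < fderiv ℝ u x e)
    (F : Submodule ℝ (EuclideanSpace ℝ (Fin n))) (hF : Module.finrank ℝ F = k)
    (c : EuclideanSpace ℝ (Fin n))
    (hsym : ∀ x y, x - y ∈ F → ‖x - c‖ = ‖y - c‖ → u x = u y) :
    ∀ y ∈ Set.range u, ∃ s : AffineSubspace ℝ (EuclideanSpace ℝ (Fin n)),
      Module.finrank ℝ s.direction = n - 1 ∧
        (s : Set (EuclideanSpace ℝ (Fin n))) = u ⁻¹' {y} := by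
  obtain ⟨m, rfl⟩ : ∃ m, n = m + 1 := ⟨n - 1, by omega⟩
  have hm : 3 ≤ m := by omega
  have hreal : ((m : ℝ) - 2) ^ 2 ≤ 4 * ((k : ℝ) - 1) := by
    have h1 : (m - 2) ^ 2 ≤ 4 * (k - 1) := by
      have : m + 1 - 3 = m - 2 := by omega
      rwa [this] at h
    have h2 : (((m - 2) ^ 2 : ℕ) : ℝ) ≤ ((4 * (k - 1) : ℕ) : ℝ) := by exact_mod_cast h1
    push_cast [Nat.cast_sub (show 2 ≤ m by omega), Nat.cast_sub (show 1 ≤ k by omega)] at h2
    exact h2
  have hu1 : ContDiff ℝ 1 u := hu.of_le (by norm_num)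
  -- the translated function
  have hu' : ContDiff ℝ 2 fun x => u (x + c) := hu.comp (contDiff_id.add contDiff_const)
  have heq' : ∀ x, Laplacian.laplacian (fun x => u (x + c)) x + u (x + c) - u (x + c) ^ 3 = 0 := by
    intro x
    rw [← lap_eq_laplacian hu', lap_translate, lap_eq_laplacian hu]
    exact heq _
  have hs := rot_signed hm hk (by omega) hreal (u := fun x => u (x + c)) hu'
    (by obtain ⟨M, hM⟩ := hb; exact ⟨M, fun x => hM _⟩) heq' (e := e)
    (fun x => by rw [fderiv_comp_add_right]; exact he _) F hF (by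
      intro x y hxy hn
      apply hsym
      · rwa [add_sub_add_right_eq_sub]
      · rwa [add_sub_cancel_right, add_sub_cancel_right])
  intro y hy
  obtain ⟨s, hs1, hs2⟩ := hyper hu1 (Signed.of_translate c hs) he y hy
  refine ⟨s, ?_, hs2⟩
  rw [Fintype.card_fin] at hs1
  exact Nat.eq_sub_of_add_eq hs1

end Pool.Agent.Helper68.DG.PartialRotationsW
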