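import Pool.Agent.Helper68.DG.Base
import Pool.Agent.Helper68.DG.A2
import Pool.Agent.Helper68.DG.G1
import Pool.Agent.Helper68.DG.T1
import Pool.Agent.Helper68.DG.T2
import Pool.Agent.Helper68.DG.H1

/-! Project DG (MP_800410_an), piece RotFinal: the theorem on rotations -/

open MeasureTheory Metric Set Filter Topology
open scoped ContDiff

namespace Pool.Agent.Helper68.DG

variable {ι : Type} [Fintype ι]

theorem rot_signed {m k : ℕ} (hm : 3 ≤ m) (hk : 2 ≤ k) (hkm : k ≤ m)
    (h : ((m : ℝ) - 2) ^ 2 ≤ 4 * ((k : ℝ) - 1)) {u : V (Fin (m + 1)) → ℝ} (hu : ContDiff ℝ 2 u)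
    (hM : ∃ M : ℝ, ∀ x, |u x| ≤ M) (heq : ∀ x, Laplacian.laplacian u x + u x - u x ^ 3 = 0)
    {e : V (Fin (m + 1))} (he : ∀ x, 0 < fderiv ℝ u x e) (F : Submodule ℝ (V (Fin (m + 1))))
    (hF : Module.finrank ℝ F = k) (hsym : ∀ x y, x - y ∈ F → ‖x‖ = ‖y‖ → u x = u y) :
    Signed u := by
  obtain ⟨M, hM⟩ := hM
  have hu1 : ContDiff ℝ 1 u := hu.of_le (by norm_num)
  have heq' : ∀ x, lap u x + u x - u x ^ 3 = 0 := fun x => by
    rw [lap_eq_laplacian hu]; exact heq x
  obtain ⟨K, hK⟩ := exists_GS hu hM heq'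
  obtain ⟨v, hvF, hv⟩ := exists_mono_dir hu1 F hsym he
  have hv0 : v ≠ 0 := by
    rintro rfl
    have := hv 0
    rw [map_zero] at this
    exact lt_irrefl _ this
  obtain ⟨T, ⟨c, hc, hTc⟩, hTF⟩ := exists_adapted F hF hv0 hvF hkm
  have hGT := GS.isom T hK
  -- the block of coordinates
  set k' : ℕ := min k (m - 1) with hk'
  set S : Finset (Fin (m + 1)) := Finset.univ.filter fun i => 1 ≤ i.val ∧ i.val ≤ k' with hS
  have hScard : S.card = k' := by
    have h1 : S.map Fin.valEmbedding = Finset.Icc 1 k' := by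
      ext j
      simp only [hS, Finset.mem_map, Finset.mem_filter, Finset.mem_univ, true_and,
        Fin.valEmbedding_apply, Finset.mem_Icc]
      constructor
      · rintro ⟨i, hi, rfl⟩; exact hi
      · intro hj
        exact ⟨⟨j, by omega⟩, hj, rfl⟩
    have h2 := congrArg Finset.card h1
    rw [Finset.card_map, Nat.card_Icc] at h2
    omega
  have hmr : (3 : ℝ) ≤ m := by exact_mod_cast hm
  have hm6 : m ≤ 6 := by
    by_contra hcon
    have h1 : (7 : ℝ) ≤ m := by exact_mod_cast (show 7 ≤ m by omega)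
    have h2 : (k : ℝ) ≤ m := by exact_mod_cast hkm
    nlinarith
  have hrot : RotInv S fun y => u (T y) := by
    apply rotInv_of_sym T hu1 F hsym S
    intro i hi
    simp only [hS, Finset.mem_filter, Finset.mem_univ, true_and] at hi
    exact hTF i hi.1 (by omega)
  have hpd : ∀ x, 0 < pd 0 (fun y => u (T y)) x := by
    intro x
    unfold pd
    rw [fderiv_isom T hu1, hTc, map_smul, smul_eq_mul]
    exact mul_pos hc (hv _)
  have hcardV : Fintype.card (Fin (m + 1)) = m + 1 := Fintype.card_fin _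
  have hkk : ((m : ℝ) + 1 - 3) ^ 2 ≤ 4 * ((k' : ℝ) - 1) ∧ m + 1 ≤ k' + 3 := by
    have hcases : k' = k ∨ k' = m - 1 := by omega
    have hk4 : ∀ j : ℕ, k ≤ j → ((m : ℝ) - 2) ^ 2 ≤ 4 * ((j : ℝ) - 1) := by
      intro j hj
      have : (k : ℝ) ≤ j := by exact_mod_cast hj
      linarith
    interval_cases m
    · have h1 : k' = 2 := by omega
      rw [h1]; constructor <;> norm_num
    · have h1 : 2 ≤ k' := by omega
      have h2 : (2 : ℝ) ≤ k' := by exact_mod_cast h1
      constructor
      · norm_num; linarith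
      · omega
    · have h1 : k' = 4 := by
        have h5 : 4 ≤ k := by
          by_contra hcon
          have h6 : (k : ℝ) ≤ 3 := by exact_mod_cast (show k ≤ 3 by omega)
          norm_num at h
          linarith
        omega
      rw [h1]; constructor <;> norm_num
    · have h1 : k' = 5 := by
        have h5 : 5 ≤ k := by
          by_contra hcon
          have h6 : (k : ℝ) ≤ 4 := by exact_mod_cast (show k ≤ 4 by omega)
          norm_num at h
          linarith
        omega
      rw [h1]; constructor <;> norm_num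
  have hsig := rot_core hGT 0 hpd (S := S) (by simp [hS]) hrot (by omega)
    (by rw [hScard, hcardV]; omega) (by rw [hScard, hcardV]; exact hkk.2) (by
      rw [hScard, hcardV]; push_cast; exact hkk.1)
  exact Signed.of_isom T hu1 hsig

end Pool.Agent.Helper68.DG
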